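import Mathlib
import Pool.Agent.Q2.TN.Stm

set_option autoImplicit false

namespace Q294.TN_A2

open Subgroup Q2.TN

theorem a2 : S_A2 := by
  intro p hp G H _ _ _ _ f hf hG
  obtain ⟨N, hN, hcop, k, hk⟩ := hG
  refine ⟨N.map f, hN.map f hf, ?_, ?_⟩
  · exact Nat.Coprime.coprime_dvd_left (Subgroup.card_map_dvd N f) hcop
  · have hdvd : (N.map f).index ∣ N.index := Subgroup.index_map_dvd N hf
    rw [hk] at hdvd
    obtain ⟨j, _, hj⟩ := (Nat.dvd_prime_pow hp).1 hdvd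
    exact ⟨j, hj⟩

end Q294.TN_A2
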