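import Mathlib
import Pool.Agent.Q2.TN.Stm

set_option autoImplicit false

namespace Q294.TN_A3

open Subgroup Q2.TN

theorem a3 : S_A3 := by
  intro p hp G _ _ N _ hN hG
  obtain ⟨M, hM, hcop, k, hk⟩ := hG
  refine ⟨M.comap (QuotientGroup.mk' N), hM.comap _, ?_, k, ?_⟩
  · have hsurj := QuotientGroup.mk'_surjective N
    have h1 : Nat.card (M.comap (QuotientGroup.mk' N)) = Nat.card N * Nat.card M := by
      have hle : N ≤ M.comap (QuotientGroup.mk' N) := by
        have := Subgroup.comap_mono (f := QuotientGroup.mk' N) (bot_le : ⊥ ≤ M)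
        rwa [MonoidHom.comap_bot, QuotientGroup.ker_mk'] at this
      have h2 := Subgroup.card_mul_index (M.comap (QuotientGroup.mk' N))
      have h3 := Subgroup.card_mul_index M
      have h4 := Subgroup.index_comap_of_surjective M hsurj
      have h5 := Subgroup.card_mul_index N
      have h6 : Nat.card (G ⧸ N) = N.index := rfl
      rw [h4] at h2
      rw [h6] at h3
      have h7 : 0 < M.index := Nat.pos_of_ne_zero (Subgroup.index_ne_zero_of_finite)
      have h8 : Nat.card (M.comap (QuotientGroup.mk' N)) * M.index = (Nat.card N * Nat.card M) * M.index := by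
        rw [h2, mul_assoc, h3, h5]
      exact Nat.eq_of_mul_eq_mul_right h7 h8
    rw [h1]
    exact Nat.Coprime.mul_left hN hcop
  · rw [Subgroup.index_comap_of_surjective M (QuotientGroup.mk'_surjective N), hk]

end Q294.TN_A3
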