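import Mathlib
import Pool.Agent.Q2.TN.Stm

set_option autoImplicit false

namespace Q294.TN_F3

open Subgroup Q2.TN

theorem rank_step {K W : Type} [Field K] [AddCommGroup W] [Module K W] [FiniteDimensional K W]
    (f : Module.End K W) (n : ℕ) (hn : f ^ n = 0) (i : ℕ)
    (hi : 1 ≤ Module.finrank K (LinearMap.range (f ^ (i + 1)))) :
    Module.finrank K (LinearMap.range (f ^ (i + 1))) + 1 ≤ Module.finrank K (LinearMap.range (f ^ i)) := by
  have hmap : LinearMap.range (f ^ (i + 1)) = Submodule.map f (LinearMap.range (f ^ i)) := by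
    rw [pow_succ']
    exact LinearMap.range_comp _ _
  have hle : LinearMap.range (f ^ (i + 1)) ≤ LinearMap.range (f ^ i) := by
    rw [pow_succ]
    exact LinearMap.range_comp_le_range _ _
  have hfr := Submodule.finrank_mono hle
  rcases Nat.lt_or_ge (Module.finrank K (LinearMap.range (f ^ (i + 1))))
    (Module.finrank K (LinearMap.range (f ^ i))) with h | h
  · exact h
  · exfalso
    have heq : LinearMap.range (f ^ (i + 1)) = LinearMap.range (f ^ i) :=
      Submodule.eq_of_le_of_finrank_eq hle (le_antisymm hfr h)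
    have hR : Submodule.map f (LinearMap.range (f ^ i)) = LinearMap.range (f ^ i) := by
      rw [← hmap, heq]
    have hRn : ∀ m : ℕ, Submodule.map (f ^ m) (LinearMap.range (f ^ i)) = LinearMap.range (f ^ i) := by
      intro m
      induction m with
      | zero =>
        rw [pow_zero]
        exact Submodule.map_id _
      | succ m ih =>
        rw [pow_succ]
        have : Submodule.map (f ^ m * f) (LinearMap.range (f ^ i)) =
            Submodule.map (f ^ m) (Submodule.map f (LinearMap.range (f ^ i))) :=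
          Submodule.map_comp _ _ _
        rw [this, hR, ih]
    have h0 := hRn n
    rw [hn] at h0
    have h1 : LinearMap.range (f ^ i) = ⊥ := by
      rw [← h0]
      exact Submodule.map_zero _
    rw [heq, h1, finrank_bot] at hi
    omega

theorem rank_lemma {K W : Type} [Field K] [AddCommGroup W] [Module K W] [FiniteDimensional K W]
    (f : Module.End K W) (n : ℕ) (hn : f ^ n = 0) (m : ℕ) (hm : f ^ (m + 1) ≠ 0) :
    m + 1 ≤ Module.finrank K (LinearMap.range f) := by
  have key : ∀ j : ℕ, 1 ≤ Module.finrank K (LinearMap.range (f ^ (1 + j))) →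
      Module.finrank K (LinearMap.range (f ^ (1 + j))) + j ≤ Module.finrank K (LinearMap.range (f ^ 1)) := by
    intro j
    induction j with
    | zero => intro _; exact le_rfl
    | succ j ih =>
      intro h
      have h1 := rank_step f n hn (1 + j) h
      have h2 := ih (by omega)
      have h3 : 1 + (j + 1) = 1 + j + 1 := by ring
      rw [h3]
      omega
  have hpos : 1 ≤ Module.finrank K (LinearMap.range (f ^ (1 + m))) := by
    by_contra hcon
    have h0 : Module.finrank K (LinearMap.range (f ^ (1 + m))) = 0 := by omega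
    rw [Submodule.finrank_eq_zero, LinearMap.range_eq_bot] at h0
    rw [add_comm] at h0
    exact hm h0
  have := key m hpos
  rw [pow_one] at this
  omega

theorem lin {W : Type} [AddCommGroup W] [Finite W] (p : ℕ) [Fact p.Prime] [Module (ZMod p) W]
    (A : Module.End (ZMod p) W) (k r : ℕ) (hr : ∀ w, (A ^ p ^ r) w = w)
    (hne : ∃ w, (A ^ p ^ k) ((A ^ p ^ k) w - w) ≠ (A ^ p ^ k) w - w) :
    p ^ (2 * (k + 1)) * Nat.card (LinearMap.ker (A - 1)) ≤ Nat.card W := by
  have hp : p.Prime := Fact.out
  obtain ⟨w0, hw0⟩ := hne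
  have hnt : Nontrivial W := by
    by_contra hcon
    rw [not_nontrivial_iff_subsingleton] at hcon
    exact hw0 (hcon.elim _ _)
  have hfd : FiniteDimensional (ZMod p) W := Module.Finite.of_finite
  have hchar : CharP (Module.End (ZMod p) W) p := by
    rw [CharP.charP_iff_prime_eq_zero hp]
    refine LinearMap.ext (fun w => ?_)
    have h1 : ((p : Module.End (ZMod p) W) w) = p • w := Module.End.natCast_apply p w
    rw [h1, ← Nat.cast_smul_eq_nsmul (ZMod p) p w, ZMod.natCast_self, zero_smul]
    rfl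
  have hpowf : ∀ j : ℕ, (A - 1) ^ p ^ j = A ^ p ^ j - 1 := by
    intro j
    rw [sub_pow_char_pow_of_commute (p := p) (n := j) (h := Commute.one_right A), one_pow]
  have hnil : (A - 1) ^ p ^ r = 0 := by
    rw [hpowf, sub_eq_zero]
    exact LinearMap.ext (fun w => hr w)
  have hpk : 0 < p ^ k := pow_pos hp.pos k
  have hne2 : (A - 1) ^ ((2 * p ^ k - 1) + 1) ≠ 0 := by
    intro h0
    have h1 : (2 * p ^ k - 1) + 1 = p ^ k + p ^ k := by omega
    rw [h1, pow_add, hpowf] at h0
    apply hw0
    have h3 := congrArg (fun F : Module.End (ZMod p) W => F w0) h0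
    have h5 : ((A ^ p ^ k - 1) * (A ^ p ^ k - 1) : Module.End (ZMod p) W) w0 =
        (A ^ p ^ k) ((A ^ p ^ k) w0 - w0) - ((A ^ p ^ k) w0 - w0) := rfl
    simp only [h5] at h3
    exact sub_eq_zero.1 h3
  have hrank := rank_lemma (A - 1) _ hnil _ hne2
  have hrank2 : 2 * (k + 1) ≤ Module.finrank (ZMod p) (LinearMap.range (A - 1)) := by
    have h1 : k < p ^ k := Nat.lt_pow_self hp.one_lt
    omega
  have hdim := LinearMap.finrank_range_add_finrank_ker (A - 1)
  have hcW : Nat.card W = p ^ Module.finrank (ZMod p) W := by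
    have h1 := Module.natCard_eq_pow_finrank (K := ZMod p) (V := W)
    rwa [Nat.card_zmod] at h1
  have hcK : Nat.card (LinearMap.ker (A - 1)) =
      p ^ Module.finrank (ZMod p) (LinearMap.ker (A - 1)) := by
    have h1 := Module.natCard_eq_pow_finrank (K := ZMod p) (V := LinearMap.ker (A - 1))
    rwa [Nat.card_zmod] at h1
  rw [hcK, hcW, ← hdim, pow_add]
  exact Nat.mul_le_mul_right _ (Nat.pow_le_pow_right hp.pos hrank2)

theorem add {W : Type} [AddCommGroup W] [Finite W] (p : ℕ) (hp : p.Prime) (hW : ∀ w : W, p • w = 0)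
    (α : W →+ W) (k r : ℕ) (hr : ∀ w, α^[p ^ r] w = w)
    (hne : ∃ w, α^[p ^ k] (α^[p ^ k] w - w) ≠ α^[p ^ k] w - w) :
    p ^ (2 * (k + 1)) * Nat.card {w : W // α w = w} ≤ Nat.card W := by
  have hF : Fact p.Prime := ⟨hp⟩
  obtain ⟨inst⟩ : Nonempty (Module (ZMod p) W) := ⟨AddCommGroup.zmodModule hW⟩
  let A : Module.End (ZMod p) W := α.toZModLinearMap p
  have hAα : ∀ w, A w = α w := fun w => rfl
  have hpow : ∀ (n : ℕ) (w : W), (A ^ n) w = α^[n] w := by
    intro n w
    rw [Module.End.pow_apply]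
    rfl
  have h := lin p A k r
    (fun w => by rw [hpow]; exact hr w)
    (by
      obtain ⟨w, hw⟩ := hne
      refine ⟨w, ?_⟩
      rw [hpow, hpow]
      exact hw)
  have hc : Nat.card {w : W // α w = w} =
      Nat.card (LinearMap.ker (A - 1)) := by
    refine Nat.card_congr (Equiv.subtypeEquivRight (fun w => ?_))
    rw [LinearMap.mem_ker]
    exact sub_eq_zero.symm
  rw [hc]
  exact h

theorem f3 (h2 : S_F2) : S_F3 := by
  intro p hp hp2 Γ V _ _ _ Q V₁ a k r hfinΓ hfinV hexp hQ hcop hnorm hQV haV hfaith har hne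
  have hFact : Fact p.Prime := ⟨hp⟩
  have hzn : ∀ n : ℕ, ∀ x ∈ Q, a ^ n * x * (a ^ n)⁻¹ ∈ Q ∧ (a ^ n)⁻¹ * x * a ^ n ∈ Q := by
    intro n
    induction n with
    | zero => intro x hx; simpa using hx
    | succ n ih =>
      intro x hx
      constructor
      · have h1 := (hnorm _ (ih x hx).1).1
        have h3 : a * (a ^ n * x * (a ^ n)⁻¹) * a⁻¹ = a ^ (n + 1) * x * (a ^ (n + 1))⁻¹ := by
          rw [pow_succ', mul_inv_rev]; group
        rwa [h3] at h1
      · have h1 := (hnorm _ (ih x hx).2).2
        have h3 : a⁻¹ * ((a ^ n)⁻¹ * x * a ^ n) * a = (a ^ (n + 1))⁻¹ * x * a ^ (n + 1) := by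
          rw [pow_succ, mul_inv_rev]; group
        rwa [h3] at h1
  have hzV : ∀ n : ℕ, ∀ v ∈ V₁, a ^ n • v ∈ V₁ ∧ (a ^ n)⁻¹ • v ∈ V₁ := by
    intro n
    induction n with
    | zero => intro v hv; simpa using hv
    | succ n ih =>
      intro v hv
      constructor
      · rw [pow_succ', mul_smul]
        exact (haV _ (ih v hv).1).1
      · rw [pow_succ, mul_inv_rev, mul_smul]
        exact (haV _ (ih v hv).2).2
  have hnq : ∃ v ∈ V₁, a ^ p ^ k • (a ^ p ^ k • v / v) ≠ a ^ p ^ k • v / v := by
    by_contra hcon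
    push Not at hcon
    have h3 := h2 p hp hp2 Γ V Q V₁ (a ^ p ^ k) hfinΓ hexp hQ hcop (hzn _) hQV (hzV _) hcon
    obtain ⟨x, hx, hxne⟩ := hne
    apply hxne
    have h4 : x⁻¹ * (a ^ p ^ k * x * (a ^ p ^ k)⁻¹) = 1 := by
      refine hfaith _ (Q.mul_mem (Q.inv_mem hx) (hzn _ x hx).1) (fun v hv => ?_)
      rw [mul_smul, h3 x hx v hv, inv_smul_smul]
    have h5 : a ^ p ^ k * x * (a ^ p ^ k)⁻¹ = x := (inv_mul_eq_one.1 h4).symm
    exact mul_inv_eq_iff_eq_mul.1 h5
  have hexp' : ∀ w : Additive V₁, p • w = 0 := by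
    intro w
    have h1 : (Additive.toMul w) ^ p = 1 := Subtype.ext (hexp _ (Additive.toMul w).2)
    show Additive.ofMul ((Additive.toMul w) ^ p) = 0
    rw [h1]
    rfl
  let α : V₁ →* V₁ :=
    { toFun := fun v => ⟨a • (v : V), (haV v v.2).1⟩
      map_one' := Subtype.ext (smul_one a)
      map_mul' := fun x y => Subtype.ext (smul_mul' a (x : V) (y : V)) }
  let β : Additive V₁ →+ Additive V₁ := MonoidHom.toAdditive α
  have hβ : ∀ w : Additive V₁, (((Additive.toMul (β w) : V₁)) : V) = a • ((Additive.toMul w : V₁) : V) :=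
    fun w => rfl
  have hβn : ∀ (n : ℕ) (w : Additive V₁),
      (((Additive.toMul (β^[n] w) : V₁)) : V) = a ^ n • ((Additive.toMul w : V₁) : V) := by
    intro n
    induction n with
    | zero => intro w; simp
    | succ n ih =>
      intro w
      rw [Function.iterate_succ', Function.comp_apply, hβ, ih, pow_succ', mul_smul]
  have hsub : ∀ u w : Additive V₁, (((Additive.toMul (u - w) : V₁)) : V) =
      ((Additive.toMul u : V₁) : V) / ((Additive.toMul w : V₁) : V) := fun u w => rfl
  have hinj : ∀ u w : Additive V₁, ((Additive.toMul u : V₁) : V) = ((Additive.toMul w : V₁) : V) → u = w :=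
    fun u w h => Additive.toMul.injective (Subtype.ext h)
  have hfinW : Finite (Additive V₁) := inferInstanceAs (Finite V₁)
  obtain ⟨v0, hv0, hv0ne⟩ := hnq
  have hmain := add (W := Additive V₁) p hp hexp' β k r
    (fun w => by
      apply hinj
      rw [hβn, har, one_smul])
    (by
      refine ⟨Additive.ofMul ⟨v0, hv0⟩, ?_⟩
      intro h
      apply hv0ne
      have h1 := congrArg (fun u : Additive V₁ => ((Additive.toMul u : V₁) : V)) h
      beta_reduce at h1
      rw [hβn, hsub, hβn] at h1
      exact h1)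
  have hc : Nat.card {v : V // v ∈ V₁ ∧ a • v = v} = Nat.card {w : Additive V₁ // β w = w} := by
    refine Nat.card_congr
      { toFun := fun v => ⟨Additive.ofMul ⟨v.1, v.2.1⟩, hinj _ _ v.2.2⟩
        invFun := fun w => ⟨((Additive.toMul w.1 : V₁) : V), (Additive.toMul w.1 : V₁).2,
          congrArg (fun u : Additive V₁ => ((Additive.toMul u : V₁) : V)) w.2⟩
        left_inv := fun v => rfl
        right_inv := fun w => rfl }
  rw [hc]
  exact hmain

end Q294.TN_F3
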