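import Mathlib
import Pool.Agent.Q2.TN.Stm

set_option autoImplicit false

namespace Q294.TN_F5

open Subgroup Q2.TN

/-- norm of `x` with respect to an endomorphism -/
noncomputable def nm {Q : Type} [CommGroup Q] (p : ℕ) (g : Monoid.End Q) (x : Q) : Q :=
  ∏ j ∈ Finset.range p, (g ^ j) x

theorem nm_fixed {Q : Type} [CommGroup Q] (p : ℕ) (g : Monoid.End Q) (hg : g ^ p = 1) (x : Q) :
    g (nm p g x) = nm p g x := by
  unfold nm
  rw [map_prod]
  have h1 : ∀ j, g ((g ^ j) x) = (g ^ (j + 1)) x := by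
    intro j
    rw [pow_succ']
    rfl
  have h2 : (∏ j ∈ Finset.range p, g ((g ^ j) x)) = ∏ j ∈ Finset.range p, (g ^ (j + 1)) x :=
    Finset.prod_congr rfl (fun j _ => h1 j)
  rw [h2]
  have h3 := Finset.prod_range_succ (fun j => (g ^ j) x) p
  have h4 := Finset.prod_range_succ' (fun j => (g ^ j) x) p
  rw [h3] at h4
  simp only [hg, pow_zero] at h4
  exact (mul_right_cancel h4).symm

theorem prod_reindex {Q : Type} [CommGroup Q] (p : ℕ) (hp : p.Prime) (F : ℕ → Q)
    (hF : ∀ t, F (t % p) = F t) (s : ℕ) (hs0 : 0 < s) (hsp : s < p) :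
    ∏ i ∈ Finset.range p, F (i * s) = ∏ t ∈ Finset.range p, F t := by
  have hinj : Set.InjOn (fun i => i * s % p) (Finset.range p : Set ℕ) := by
    intro a ha b hb hab
    simp only [Finset.coe_range, Set.mem_Iio] at ha hb
    have h1 : a * s ≡ b * s [MOD p] := hab
    have hcop : p.Coprime s := by
      rw [Nat.Prime.coprime_iff_not_dvd hp]
      intro hd
      exact absurd (Nat.le_of_dvd hs0 hd) (by omega)
    have h2 : a ≡ b [MOD p] := Nat.ModEq.cancel_right_of_coprime hcop h1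
    have h3 := h2
    unfold Nat.ModEq at h3
    rwa [Nat.mod_eq_of_lt ha, Nat.mod_eq_of_lt hb] at h3
  have hmaps : Set.MapsTo (fun i => i * s % p) (Finset.range p : Set ℕ) (Finset.range p : Set ℕ) := by
    intro a _
    simp only [Finset.coe_range, Set.mem_Iio]
    exact Nat.mod_lt _ hp.pos
  have hsurj : Set.SurjOn (fun i => i * s % p) (Finset.range p : Set ℕ) (Finset.range p : Set ℕ) :=
    Finset.surjOn_of_injOn_of_card_le _ hmaps hinj le_rfl
  refine Finset.prod_nbij (fun i => i * s % p) hmaps hinj hsurj ?_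
  intro i _
  exact (hF (i * s)).symm

theorem lines {Q : Type} [CommGroup Q] (p : ℕ) (hp : p.Prime) (β γ : Monoid.End Q)
    (hcomm : Commute β γ) (hγ : γ ^ p = 1) (x : Q) :
    (∏ i ∈ Finset.range p, nm p (β * γ ^ i) x) * nm p γ x = x ^ p * nm p β (nm p γ x) := by
  obtain ⟨n, rfl⟩ : ∃ n, p = n + 1 := ⟨p - 1, by have := hp.pos; omega⟩
  have h1 : (∏ i ∈ Finset.range (n + 1), nm (n + 1) (β * γ ^ i) x) =
      ∏ s ∈ Finset.range (n + 1), ∏ i ∈ Finset.range (n + 1), (β ^ s) ((γ ^ (i * s)) x) := by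
    unfold nm
    rw [Finset.prod_comm]
    refine Finset.prod_congr rfl (fun s _ => Finset.prod_congr rfl (fun i _ => ?_))
    rw [(hcomm.pow_right i).mul_pow, ← pow_mul]
    rfl
  have h2 : ∀ s ∈ Finset.range (n + 1), s ≠ 0 →
      (∏ i ∈ Finset.range (n + 1), (β ^ s) ((γ ^ (i * s)) x)) = (β ^ s) (nm (n + 1) γ x) := by
    intro s hs hs0
    unfold nm
    rw [map_prod]
    have hper : ∀ t, (γ ^ (t % (n + 1))) = γ ^ t := by
      intro t
      conv_rhs => rw [← Nat.mod_add_div t (n + 1), pow_add, pow_mul, hγ, one_pow, mul_one]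
    exact prod_reindex (n + 1) hp (fun t => (β ^ s) ((γ ^ t) x)) (fun t => by
      show (β ^ s) ((γ ^ (t % (n + 1))) x) = (β ^ s) ((γ ^ t) x)
      rw [hper]) s (Nat.pos_of_ne_zero hs0) (Finset.mem_range.1 hs)
  rw [h1]
  have h3 : nm (n + 1) β (nm (n + 1) γ x) =
      (∏ s ∈ Finset.range n, (β ^ (s + 1)) (nm (n + 1) γ x)) * nm (n + 1) γ x := by
    conv_lhs => unfold nm
    rw [Finset.prod_range_succ', pow_zero]
    rfl
  rw [h3, Finset.prod_range_succ' _ n]
  have h4 : (∏ k ∈ Finset.range n, ∏ i ∈ Finset.range (n + 1), (β ^ (k + 1)) ((γ ^ (i * (k + 1))) x)) =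
      ∏ s ∈ Finset.range n, (β ^ (s + 1)) (nm (n + 1) γ x) := by
    refine Finset.prod_congr rfl (fun s hs => ?_)
    exact h2 (s + 1) (by rw [Finset.mem_range] at hs ⊢; omega) (Nat.succ_ne_zero s)
  rw [h4]
  have h5 : (∏ i ∈ Finset.range (n + 1), (β ^ 0) ((γ ^ (i * 0)) x)) = x ^ (n + 1) := by
    simp
  rw [h5]
  rw [mul_comm (∏ s ∈ Finset.range n, (β ^ (s + 1)) (nm (n + 1) γ x)) (x ^ (n + 1)), mul_assoc]

theorem abs {Q : Type} [CommGroup Q] [Finite Q] (p : ℕ) (hp : p.Prime) (hcop : (Nat.card Q).Coprime p)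
    (C : Subgroup Q) (β γ : Monoid.End Q) (hcomm : Commute β γ) (hβ : β ^ p = 1) (hγ : γ ^ p = 1)
    (h : ∀ x : Q, ∀ i j : ℕ, i < p → j < p → (i, j) ≠ (0, 0) → (β ^ i * γ ^ j) x = x → x ∈ C) (x : Q) :
    x ∈ C := by
  have h1p : 1 < p := hp.one_lt
  have hl : ∀ i ∈ Finset.range p, nm p (β * γ ^ i) x ∈ C := by
    intro i hi
    refine h _ 1 i h1p (Finset.mem_range.1 hi) (by simp) ?_
    rw [pow_one]
    apply nm_fixed
    rw [(hcomm.pow_right i).mul_pow, hβ, ← pow_mul, mul_comm, pow_mul, hγ, one_pow, one_mul]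
  have hc : nm p γ x ∈ C := by
    refine h _ 0 1 hp.pos h1p (by simp) ?_
    rw [pow_zero, pow_one, one_mul]
    exact nm_fixed p γ hγ x
  have hb : nm p β (nm p γ x) ∈ C := by
    refine h _ 1 0 h1p hp.pos (by simp) ?_
    rw [pow_zero, pow_one, mul_one]
    exact nm_fixed p β hβ _
  have hlin := lines p hp β γ hcomm hγ x
  have hxp : x ^ p ∈ C := by
    have h1 : x ^ p * nm p β (nm p γ x) ∈ C := by
      rw [← hlin]
      exact C.mul_mem (C.prod_mem hl) hc
    exact (C.mul_mem_cancel_right hb).1 h1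
  have hord : p.Coprime (orderOf x) := (Nat.Coprime.coprime_dvd_left (orderOf_dvd_natCard x) hcop).symm
  obtain ⟨m, hm⟩ := exists_pow_eq_self_of_coprime hord
  rw [← hm]
  exact C.pow_mem hxp m

theorem f5 : S_F5 := by
  intro p hp Γ _ _ Q C b c hQ hcop hb hc hbc hbp hcp h
  letI : CommGroup Q :=
    { (inferInstance : Group Q) with
      mul_comm := fun a b => Subtype.ext (hQ a a.2 b b.2) }
  let β : Monoid.End Q :=
    { toFun := fun x => ⟨b * x * b⁻¹, hb x x.2⟩
      map_one' := Subtype.ext (by simp)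
      map_mul' := fun x y => Subtype.ext (by
        show b * (x * y : Γ) * b⁻¹ = b * x * b⁻¹ * (b * y * b⁻¹)
        group) }
  let γ : Monoid.End Q :=
    { toFun := fun x => ⟨c * x * c⁻¹, hc x x.2⟩
      map_one' := Subtype.ext (by simp)
      map_mul' := fun x y => Subtype.ext (by
        show c * (x * y : Γ) * c⁻¹ = c * x * c⁻¹ * (c * y * c⁻¹)
        group) }
  have hβx : ∀ x : Q, ((β x : Q) : Γ) = b * x * b⁻¹ := fun x => rfl
  have hγx : ∀ x : Q, ((γ x : Q) : Γ) = c * x * c⁻¹ := fun x => rfl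
  have hβi : ∀ (i : ℕ) (x : Q), (((β ^ i) x : Q) : Γ) = b ^ i * x * (b ^ i)⁻¹ := by
    intro i
    induction i with
    | zero => intro x; simp
    | succ i ih =>
      intro x
      have : (β ^ (i + 1)) x = β ((β ^ i) x) := by rw [pow_succ']; rfl
      rw [this, hβx, ih, pow_succ', mul_inv_rev]
      group
  have hγi : ∀ (i : ℕ) (x : Q), (((γ ^ i) x : Q) : Γ) = c ^ i * x * (c ^ i)⁻¹ := by
    intro i
    induction i with
    | zero => intro x; simp
    | succ i ih =>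
      intro x
      have : (γ ^ (i + 1)) x = γ ((γ ^ i) x) := by rw [pow_succ']; rfl
      rw [this, hγx, ih, pow_succ', mul_inv_rev]
      group
  have hcomm : Commute β γ := by
    refine MonoidHom.ext (fun x => Subtype.ext ?_)
    show b * (c * x * c⁻¹) * b⁻¹ = c * (b * x * b⁻¹) * c⁻¹
    have h1 : c⁻¹ * b⁻¹ = b⁻¹ * c⁻¹ := by rw [← mul_inv_rev, ← mul_inv_rev, hbc]
    calc b * (c * x * c⁻¹) * b⁻¹ = (b * c) * x * (c⁻¹ * b⁻¹) := by group
      _ = (c * b) * x * (b⁻¹ * c⁻¹) := by rw [hbc, h1]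
      _ = c * (b * x * b⁻¹) * c⁻¹ := by group
  have hβp : β ^ p = 1 := by
    refine MonoidHom.ext (fun x => Subtype.ext ?_)
    refine (hβi p x).trans ?_
    rw [hbp x x.2, mul_inv_cancel_right]
    rfl
  have hγp : γ ^ p = 1 := by
    refine MonoidHom.ext (fun x => Subtype.ext ?_)
    refine (hγi p x).trans ?_
    rw [hcp x x.2, mul_inv_cancel_right]
    rfl
  intro x hx
  have hmain := abs p hp hcop (C.subgroupOf Q) β γ hcomm hβp hγp (by
    intro y i j hi hj hij hy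
    rw [Subgroup.mem_subgroupOf]
    refine h y y.2 i j hi hj hij ?_
    have h1 : (((β ^ i * γ ^ j) y : Q) : Γ) = b ^ i * (c ^ j * y * (c ^ j)⁻¹) * (b ^ i)⁻¹ := by
      have : (β ^ i * γ ^ j) y = (β ^ i) ((γ ^ j) y) := rfl
      rw [this, hβi, hγi]
    rw [hy] at h1
    have h2 : b ^ i * (c ^ j * y * (c ^ j)⁻¹) * (b ^ i)⁻¹ = (b ^ i * c ^ j) * y * (b ^ i * c ^ j)⁻¹ := by
      group
    rw [h2] at h1
    exact (mul_inv_eq_iff_eq_mul.1 h1.symm)) ⟨x, hx⟩
  exact Subgroup.mem_subgroupOf.1 hmain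

end Q294.TN_F5
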