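import Mathlib
import Pool.Agent.Q2.TN.Stm

set_option autoImplicit false

namespace Q294.TN_F7

open Subgroup Q2.TN

theorem f7 (h5 : S_F5) (h6 : S_F6) : S_F7 := by
  intro p hp Γ _ _ A Q hA hpA hQ hcop hnorm hne
  haveI : Fact p.Prime := ⟨hp⟩
  -- the family
  let F : Set (Subgroup Γ) :=
    {B | B ≤ A ∧ ∃ x ∈ Q, (∀ b ∈ B, b * x = x * b) ∧ ∃ g ∈ A, g * x ≠ x * g}
  have hF0 : (⊥ : Subgroup Γ) ∈ F := by
    obtain ⟨g, hg, x, hx, hgx⟩ := hne
    refine ⟨bot_le, x, hx, ?_, g, hg, hgx⟩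
    intro b hb
    rw [Subgroup.mem_bot] at hb
    rw [hb, one_mul, mul_one]
  obtain ⟨B, hBF, hBmax⟩ : ∃ B ∈ F, ∀ B' ∈ F, B ≤ B' → B' = B := by
    obtain ⟨B, hB⟩ := (Set.toFinite F).exists_maximal ⟨_, hF0⟩
    exact ⟨B, hB.prop, fun B' hB' hle => le_antisymm (hB.le_of_ge hB' hle) hle⟩
  have hBA : B ≤ A := hBF.1
  -- adding an element
  have hadd : ∀ g ∈ A, ∀ x ∈ Q, (∀ b ∈ B, b * x = x * b) → g * x = x * g →
      ∀ b ∈ B ⊔ zpowers g, b * x = x * b := by
    intro g hg x hx hB hgx b hb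
    have hle : B ⊔ zpowers g ≤ centralizer ({x} : Set Γ) := by
      refine sup_le ?_ ?_
      · intro b' hb'
        rw [Subgroup.mem_centralizer_iff]
        intro y hy
        rw [Set.mem_singleton_iff] at hy
        rw [hy]
        exact (hB b' hb').symm
      · rw [Subgroup.zpowers_le, Subgroup.mem_centralizer_iff]
        intro y hy
        rw [Set.mem_singleton_iff] at hy
        rw [hy]
        exact hgx.symm
    have := hle hb
    rw [Subgroup.mem_centralizer_iff] at this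
    exact (this x rfl).symm
  have hsupA : ∀ g ∈ A, B ⊔ zpowers g ≤ A := by
    intro g hg
    exact sup_le hBA (by rw [Subgroup.zpowers_le]; exact hg)
  -- elements outside `B`
  have hout : ∀ g ∈ A, g ∉ B → ∀ x ∈ Q, (∀ b ∈ B, b * x = x * b) → g * x = x * g →
      ∀ g' ∈ A, g' * x = x * g' := by
    intro g hg hgB x hx hB hgx g' hg'
    by_contra hcon
    have hmem : B ⊔ zpowers g ∈ F :=
      ⟨hsupA g hg, x, hx, hadd g hg x hx hB hgx, g', hg', hcon⟩
    have heq := hBmax _ hmem le_sup_left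
    apply hgB
    rw [← heq]
    exact (le_sup_right : zpowers g ≤ B ⊔ zpowers g) (Subgroup.mem_zpowers g)
  have hlt : B < A := by
    refine lt_of_le_of_ne hBA ?_
    intro h
    obtain ⟨_, x, hx, hB, g, hg, hgx⟩ := hBF
    rw [h] at hB
    exact hgx (hB g hg)
  refine ⟨B, hlt, ?_, ?_⟩
  · -- F6
    letI : CommGroup A :=
      { (inferInstance : Group A) with
        mul_comm := fun a b => Subtype.ext (hA a a.2 b b.2) }
    have hcard : ∃ k, Nat.card A = p ^ k := IsPGroup.iff_card.1 hpA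
    have hBtop : B.subgroupOf A ≠ ⊤ := by
      intro h
      rw [Subgroup.subgroupOf_eq_top] at h
      exact absurd (lt_of_lt_of_le hlt h) (lt_irrefl _)
    -- the subgroups of F5
    let Q₁ : Subgroup Γ := Q ⊓ centralizer (B : Set Γ)
    let C : Subgroup Γ := Q ⊓ centralizer (A : Set Γ)
    have hQ₁ : ∀ x, x ∈ Q₁ ↔ x ∈ Q ∧ ∀ b ∈ B, b * x = x * b := by
      intro x
      show x ∈ Q ⊓ centralizer (B : Set Γ) ↔ _
      rw [Subgroup.mem_inf, Subgroup.mem_centralizer_iff]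
      rfl
    have hC : ∀ x, x ∈ C ↔ x ∈ Q ∧ ∀ b ∈ A, b * x = x * b := by
      intro x
      show x ∈ Q ⊓ centralizer (A : Set Γ) ↔ _
      rw [Subgroup.mem_inf, Subgroup.mem_centralizer_iff]
      rfl
    have hconj : ∀ g ∈ A, ∀ x ∈ Q₁, g * x * g⁻¹ ∈ Q₁ := by
      intro g hg x hx
      rw [hQ₁] at hx ⊢
      refine ⟨hnorm g hg x hx.1, ?_⟩
      intro b hb
      have h1 : b * g = g * b := hA b (hBA hb) g hg
      have h2 : b * x = x * b := hx.2 b hb
      have h3 : b * g⁻¹ = g⁻¹ * b := by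
        rw [mul_inv_eq_iff_eq_mul, mul_assoc, eq_inv_mul_iff_mul_eq]
        exact h1.symm
      calc b * (g * x * g⁻¹) = b * g * x * g⁻¹ := by group
        _ = g * (b * x) * g⁻¹ := by rw [h1]; group
        _ = g * x * (b * g⁻¹) := by rw [h2]; group
        _ = g * x * g⁻¹ * b := by rw [h3]; group
    have hcopQ₁ : (Nat.card Q₁).Coprime p :=
      Nat.Coprime.coprime_dvd_left (Subgroup.card_dvd_of_le inf_le_left) hcop
    obtain ⟨a, ha⟩ := h6 p hp A (B.subgroupOf A) hcard hBtop (by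
      intro b c hb hc hbB
      by_contra hcon
      have hle : Q₁ ≤ C := by
        refine h5 p hp Γ Q₁ C b c ?_ hcopQ₁ ?_ ?_ ?_ ?_ ?_ ?_
        · intro x hx y hy
          exact hQ x ((hQ₁ x).1 hx).1 y ((hQ₁ y).1 hy).1
        · exact hconj b b.2
        · exact hconj c c.2
        · exact hA b b.2 c c.2
        · intro x hx
          have : ((b ^ p : A) : Γ) ∈ B := Subgroup.mem_subgroupOf.1 hb
          exact ((hQ₁ x).1 hx).2 _ (by simpa using this)
        · intro x hx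
          have : ((c ^ p : A) : Γ) ∈ B := Subgroup.mem_subgroupOf.1 hc
          exact ((hQ₁ x).1 hx).2 _ (by simpa using this)
        · intro x hx i j hi hj hij hcomm
          have hnot : ((b : Γ) ^ i * (c : Γ) ^ j) ∉ B := by
            intro hmem
            exact hcon ⟨i, j, hi, hj, hij, Subgroup.mem_subgroupOf.2 (by simpa using hmem)⟩
          have hmemA : ((b : Γ) ^ i * (c : Γ) ^ j) ∈ A :=
            A.mul_mem (A.pow_mem b.2 i) (A.pow_mem c.2 j)
          rw [hC]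
          exact ⟨((hQ₁ x).1 hx).1, hout _ hmemA hnot x ((hQ₁ x).1 hx).1 ((hQ₁ x).1 hx).2 hcomm⟩
      obtain ⟨_, x, hx, hB, g, hg, hgx⟩ := hBF
      exact hgx (((hC x).1 (hle ((hQ₁ x).2 ⟨hx, hB⟩))).2 g hg))
    refine ⟨a, a.2, ?_⟩
    have hmap := congrArg (Subgroup.map A.subtype) ha
    rw [Subgroup.map_sup, Subgroup.subgroupOf_map_subtype, inf_eq_left.2 hBA, MonoidHom.map_zpowers,
      ← MonoidHom.range_eq_map, Subgroup.range_subtype] at hmap
    exact hmap.symm
  · intro g hg hcomm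
    obtain ⟨_, x, hx, hB, g', hg', hgx⟩ := hBF
    have hmem : B ⊔ zpowers g ∈ F :=
      ⟨hsupA g hg, x, hx, hadd g hg x hx hB (hcomm x hx hB), g', hg', hgx⟩
    have heq := hBmax _ hmem le_sup_left
    rw [← heq]
    exact (le_sup_right : zpowers g ≤ B ⊔ zpowers g) (Subgroup.mem_zpowers g)

end Q294.TN_F7
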