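import Mathlib
import Pool.Agent.Q2.TN.Stm

set_option autoImplicit false

namespace Q294.TN_F8

open Subgroup Q2.TN

/-- index of `B` in `A = B ⟨a⟩`, `a ^ N ∈ B` -/
theorem card_le {Γ : Type} [Group Γ] [Finite Γ] (A B : Subgroup Γ) (hA : IsAb A) (hBA : B ≤ A) (a : Γ)
    (haA : a ∈ A) (hAB : A = B ⊔ zpowers a) (N : ℕ) (hN : 0 < N) (haN : a ^ N ∈ B) :
    Nat.card A ≤ N * Nat.card B := by
  -- the set of products
  let T : Subgroup Γ :=
    { carrier := {g | ∃ b ∈ B, ∃ n : ℤ, g = b * a ^ n}
      one_mem' := ⟨1, B.one_mem, 0, by simp⟩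
      mul_mem' := by
        rintro _ _ ⟨b, hb, n, rfl⟩ ⟨b', hb', n', rfl⟩
        refine ⟨b * b', B.mul_mem hb hb', n + n', ?_⟩
        have h1 : a ^ n * b' = b' * a ^ n := hA _ (A.zpow_mem haA n) _ (hBA hb')
        calc b * a ^ n * (b' * a ^ n') = b * (a ^ n * b') * a ^ n' := by group
          _ = b * (b' * a ^ n) * a ^ n' := by rw [h1]
          _ = b * b' * a ^ (n + n') := by rw [zpow_add]; group
      inv_mem' := by
        rintro _ ⟨b, hb, n, rfl⟩
        refine ⟨b⁻¹, B.inv_mem hb, -n, ?_⟩
        have h1 : (a ^ n)⁻¹ * b⁻¹ = b⁻¹ * (a ^ n)⁻¹ :=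
          hA _ (A.inv_mem (A.zpow_mem haA n)) _ (hBA (B.inv_mem hb))
        rw [mul_inv_rev, h1, zpow_neg] }
  have hAT : A ≤ T := by
    rw [hAB]
    refine sup_le ?_ ?_
    · intro b hb
      exact ⟨b, hb, 0, by simp⟩
    · rw [Subgroup.zpowers_le]
      exact ⟨1, B.one_mem, 1, by simp⟩
  have hrep : ∀ g ∈ A, ∃ b ∈ B, ∃ i : Fin N, g = b * a ^ (i : ℕ) := by
    intro g hg
    obtain ⟨b, hb, n, rfl⟩ := hAT hg
    have hN' : (0 : ℤ) < N := by exact_mod_cast hN
    have hmod0 := Int.emod_nonneg n hN'.ne'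
    have hmodN := Int.emod_lt_of_pos n hN'
    obtain ⟨i, hi⟩ := Int.eq_ofNat_of_zero_le hmod0
    have hiN : i < N := by
      rw [hi] at hmodN
      exact_mod_cast hmodN
    refine ⟨b * (a ^ N) ^ (n / N), B.mul_mem hb (B.zpow_mem haN _), ⟨i, hiN⟩, ?_⟩
    have h1 : a ^ n = (a ^ N) ^ (n / (N : ℤ)) * a ^ i := by
      rw [← zpow_natCast a N, ← zpow_natCast a i, ← zpow_mul, ← zpow_add]
      congr 1
      have := Int.mul_ediv_add_emod n N
      rw [hi] at this
      exact this.symm
    rw [h1, mul_assoc]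
  have hsurj : Function.Surjective (fun q : Fin N × B =>
      (⟨(q.2 : Γ) * a ^ (q.1 : ℕ), A.mul_mem (hBA q.2.2) (A.pow_mem haA _)⟩ : A)) := by
    rintro ⟨g, hg⟩
    obtain ⟨b, hb, i, h⟩ := hrep g hg
    exact ⟨(i, ⟨b, hb⟩), Subtype.ext h.symm⟩
  have := Nat.card_le_card_of_surjective _ hsurj
  rwa [Nat.card_prod, Nat.card_fin] at this

theorem f8 (h3 : S_F3) (h4 : S_F4) (h7 : S_F7) : S_F8 := by
  intro p hp hp2 Γ V _ _ _ A Q hfinΓ hfinV hexp hA hpA hQ hcop hnorm hfaithA hfaithQ
  have hFact : Fact p.Prime := ⟨hp⟩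
  -- induction on the order of `A`
  have main : ∀ n : ℕ, ∀ A : Subgroup Γ, Nat.card A = n → IsAb A → IsPGroup p A →
      (∀ g ∈ A, ∀ x ∈ Q, g * x * g⁻¹ ∈ Q) → (∀ g ∈ A, (∀ x ∈ Q, g * x = x * g) → g = 1) →
      Nat.card A ^ 2 * Nat.card {v : V // ∀ g ∈ A, g • v = v} ≤ Nat.card V := by
    intro n
    induction n using Nat.strong_induction_on with
    | _ n ih =>
      intro A hcardA hA hpA hnorm hfaithA
      by_cases hbot : A = ⊥
      · subst hbot
        rw [Subgroup.card_bot, one_pow, one_mul]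
        exact Nat.card_le_card_of_injective _ Subtype.val_injective
      · -- `A ≠ ⊥`
        have hne : ∃ g ∈ A, ∃ x ∈ Q, g * x ≠ x * g := by
          by_contra hcon
          push Not at hcon
          apply hbot
          rw [eq_bot_iff]
          intro g hg
          rw [Subgroup.mem_bot]
          exact hfaithA g hg (hcon g hg)
        obtain ⟨B, hBA, ⟨a, haA, hAB⟩, hlast⟩ := h7 p hp Γ A Q hA hpA hQ hcop hnorm hne
        have hBle : B ≤ A := hBA.le
        -- order of `a`
        obtain ⟨r, hr⟩ : ∃ r : ℕ, a ^ p ^ r = 1 := by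
          obtain ⟨r, hr⟩ := hpA ⟨a, haA⟩
          exact ⟨r, congrArg Subtype.val hr⟩
        have haB : a ∉ B := by
          intro h
          apply hBA.ne
          have h1 : zpowers a ≤ B := by rw [Subgroup.zpowers_le]; exact h
          rw [hAB, sup_eq_left.2 h1]
        have hex : ∃ j : ℕ, a ^ p ^ j ∈ B := ⟨r, by rw [hr]; exact B.one_mem⟩
        classical
        obtain ⟨k, hk1, hk2⟩ : ∃ k : ℕ, a ^ p ^ (k + 1) ∈ B ∧ a ^ p ^ k ∉ B := by
          have hj0 : Nat.find hex ≠ 0 := by
            intro h0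
            have := Nat.find_spec hex
            rw [h0, pow_zero, pow_one] at this
            exact haB this
          refine ⟨Nat.find hex - 1, ?_, ?_⟩
          · have h1 : Nat.find hex - 1 + 1 = Nat.find hex := by omega
            rw [h1]
            exact Nat.find_spec hex
          · exact Nat.find_min hex (by omega)
        -- the subgroups
        let Q₁ : Subgroup Γ := Q ⊓ centralizer (B : Set Γ)
        have hQ₁ : ∀ x, x ∈ Q₁ ↔ x ∈ Q ∧ ∀ b ∈ B, b * x = x * b := by
          intro x
          show x ∈ Q ⊓ centralizer (B : Set Γ) ↔ _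
          rw [Subgroup.mem_inf, Subgroup.mem_centralizer_iff]
          rfl
        let V₁ : Subgroup V :=
          { carrier := {v | ∀ b ∈ B, b • v = v}
            one_mem' := fun b _ => smul_one b
            mul_mem' := fun {u w} hu hw b hb => by rw [smul_mul', hu b hb, hw b hb]
            inv_mem' := fun {u} hu b hb => by rw [smul_inv', hu b hb] }
        have hV₁ : ∀ v, v ∈ V₁ ↔ ∀ b ∈ B, b • v = v := fun v => Iff.rfl
        have hconj : ∀ g ∈ A, ∀ x ∈ Q₁, g * x * g⁻¹ ∈ Q₁ := by
          intro g hg x hx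
          rw [hQ₁] at hx ⊢
          refine ⟨hnorm g hg x hx.1, ?_⟩
          intro b hb
          have e1 : b * g = g * b := hA b (hBle hb) g hg
          have e2 : b * x = x * b := hx.2 b hb
          have e3 : b * g⁻¹ = g⁻¹ * b := hA b (hBle hb) g⁻¹ (A.inv_mem hg)
          calc b * (g * x * g⁻¹) = b * g * x * g⁻¹ := by group
            _ = g * (b * x) * g⁻¹ := by rw [e1]; group
            _ = g * x * (b * g⁻¹) := by rw [e2]; group
            _ = g * x * g⁻¹ * b := by rw [e3]; group
        have hAV : ∀ g ∈ A, ∀ v ∈ V₁, g • v ∈ V₁ := by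
          intro g hg v hv b hb
          rw [smul_smul, hA b (hBle hb) g hg, mul_smul, hv b hb]
        have hF3 := h3 p hp hp2 Γ V Q₁ V₁ a k r hfinΓ hfinV (fun v _ => hexp v)
          (fun x hx y hy => hQ x ((hQ₁ x).1 hx).1 y ((hQ₁ y).1 hy).1)
          (Nat.Coprime.coprime_dvd_left (Subgroup.card_dvd_of_le inf_le_left) hcop)
          (fun x hx => ⟨hconj a haA x hx, by
            have := hconj a⁻¹ (A.inv_mem haA) x hx
            rwa [inv_inv] at this⟩)
          (by
            intro x hx v hv b hb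
            rw [smul_smul, ((hQ₁ x).1 hx).2 b hb, mul_smul, hv b hb])
          (fun v hv => ⟨hAV a haA v hv, hAV a⁻¹ (A.inv_mem haA) v hv⟩)
          (by
            intro x hx hxV
            have hxQ := ((hQ₁ x).1 hx).1
            have hxm : x ^ Nat.card Q = 1 := by
              have : (⟨x, hxQ⟩ : Q) ^ Nat.card Q = 1 := pow_card_eq_one'
              exact congrArg Subtype.val this
            have hpB : IsPGroup p B := hpA.to_le hBle
            have := h4 p hp Γ V B x (Nat.card Q) hfinΓ hfinV hexp hpB hcop hxm ((hQ₁ x).1 hx).2 hxV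
            exact hfaithQ x hxQ this)
          hr
          (by
            by_contra hcon
            push Not at hcon
            apply hk2
            refine hlast _ (A.pow_mem haA _) ?_
            intro x hx hxB
            exact hcon x ((hQ₁ x).2 ⟨hx, hxB⟩))
        -- fixed points of `A`
        have hfix : Nat.card {v : V // ∀ g ∈ A, g • v = v} = Nat.card {v : V // v ∈ V₁ ∧ a • v = v} := by
          refine Nat.card_congr (Equiv.subtypeEquivRight (fun v => ?_))
          constructor
          · intro h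
            exact ⟨fun b hb => h b (hBle hb), h a haA⟩
          · rintro ⟨h1, h2⟩ g hg
            have hle : A ≤ MulAction.stabilizer Γ v := by
              rw [hAB]
              refine sup_le ?_ ?_
              · intro b hb
                exact h1 b hb
              · rw [Subgroup.zpowers_le]
                exact h2
            exact hle hg
        have hcardB : Nat.card B < n := by
          rw [← hcardA]
          exact Set.ncard_lt_ncard (SetLike.coe_ssubset_coe.2 hBA) (Set.toFinite _)
        have hIH := ih (Nat.card B) hcardB B rfl (fun x hx y hy => hA x (hBle hx) y (hBle hy))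
          (hpA.to_le hBle) (fun g hg => hnorm g (hBle hg)) (fun g hg => hfaithA g (hBle hg))
        have hcardV₁ : Nat.card {v : V // ∀ g ∈ B, g • v = v} = Nat.card V₁ := rfl
        rw [hcardV₁] at hIH
        have hcl := card_le A B hA hBle a haA hAB (p ^ (k + 1)) (pow_pos hp.pos _) hk1
        rw [hfix]
        calc Nat.card A ^ 2 * Nat.card {v : V // v ∈ V₁ ∧ a • v = v}
            ≤ (p ^ (k + 1) * Nat.card B) ^ 2 * Nat.card {v : V // v ∈ V₁ ∧ a • v = v} :=
              Nat.mul_le_mul_right _ (Nat.pow_le_pow_left hcl 2)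
          _ = Nat.card B ^ 2 * (p ^ (2 * (k + 1)) * Nat.card {v : V // v ∈ V₁ ∧ a • v = v}) := by
              rw [mul_pow, ← pow_mul, mul_comm (k + 1) 2]; ring
          _ ≤ Nat.card B ^ 2 * Nat.card V₁ := Nat.mul_le_mul_left _ hF3
          _ ≤ Nat.card V := hIH
  exact main (Nat.card A) A rfl hA hpA hnorm hfaithA

end Q294.TN_F8
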