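import Mathlib
import Pool.Agent.Q2.TN.Stm

set_option autoImplicit false

namespace Q294.TN_F9

open Subgroup Q2.TN

/-- `v ↦ x v / v` as an endomorphism -/
noncomputable def dd {Γ V : Type} [Group Γ] [CommGroup V] [MulDistribMulAction Γ V] (x : Γ) : V →* V where
  toFun v := x • v / v
  map_one' := by rw [smul_one, div_one]
  map_mul' a b := by rw [smul_mul', mul_div_mul_comm]

theorem dd_apply {Γ V : Type} [Group Γ] [CommGroup V] [MulDistribMulAction Γ V] (x : Γ) (v : V) :
    dd x v = x • v / v := rfl

theorem f9 : S_F9 := by
  intro p hp Γ V _ _ _ x m _ hV hm hx hpow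
  haveI : Fact p.Prime := ⟨hp⟩
  obtain ⟨e, he⟩ := IsPGroup.iff_card.1 hV
  have hexp : ∀ v : V, v ^ p ^ e = 1 := fun v => by rw [← he]; exact pow_card_eq_one'
  have h1 : ∀ (j : ℕ) (v : V), ∃ w : V, (dd x)^[j] v = w ^ p ^ j := by
    intro j
    induction j with
    | zero => intro v; exact ⟨v, by simp⟩
    | succ j ih =>
      intro v
      obtain ⟨w, hw⟩ := ih v
      obtain ⟨w', hw'⟩ := hpow w
      refine ⟨w', ?_⟩
      rw [Function.iterate_succ', Function.comp_apply, hw, map_pow, dd_apply, hw', ← pow_mul, pow_succ']
  have h2 : ∀ v : V, (dd x)^[e] v = 1 := by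
    intro v
    obtain ⟨w, hw⟩ := h1 e v
    rw [hw, hexp]
  have key : ∀ j : ℕ, (∀ v : V, (dd x)^[j] v = 1) → ∀ v : V, dd x v = 1 := by
    intro j
    induction j with
    | zero =>
      intro h v
      have : v = 1 := h v
      rw [this, map_one]
    | succ j ih =>
      intro h
      rcases Nat.eq_zero_or_pos j with hj | hj
      · subst hj
        intro v
        exact h v
      · apply ih
        intro w
        obtain ⟨i, rfl⟩ : ∃ i, j = i + 1 := ⟨j - 1, by omega⟩
        set u := (dd x)^[i] w with hu
        have hv : (dd x)^[i + 1] w = dd x u := by rw [Function.iterate_succ', Function.comp_apply]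
        rw [hv]
        set v := dd x u with hvdef
        have hNv : dd x v = 1 := by
          have := h w
          rw [Function.iterate_succ', Function.comp_apply, hv] at this
          exact this
        have hxv : x • v = v := by
          rw [dd_apply] at hNv
          exact div_eq_one.1 hNv
        have hxu : x • u = u * v := by
          rw [hvdef, dd_apply, mul_div_cancel]
        have hit : ∀ k : ℕ, x ^ k • u = u * v ^ k := by
          intro k
          induction k with
          | zero => simp
          | succ k ihk =>
            rw [pow_succ', mul_smul, ihk, smul_mul', smul_pow', hxv, hxu, mul_assoc, ← pow_succ']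
        have hvm : v ^ m = 1 := by
          have h3 := hit m
          rw [hx u] at h3
          exact mul_eq_left.1 h3.symm
        have hve : v ^ p ^ e = 1 := hexp v
        have hcop : m.Coprime (p ^ e) := Nat.Coprime.pow_right e hm
        have hd : orderOf v ∣ 1 := by
          have := Nat.dvd_gcd (orderOf_dvd_of_pow_eq_one hvm) (orderOf_dvd_of_pow_eq_one hve)
          rwa [hcop] at this
        exact orderOf_eq_one_iff.1 (Nat.dvd_one.1 hd)
  intro v
  have := key e h2 v
  rw [dd_apply] at this
  exact div_eq_one.1 this

end Q294.TN_F9
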