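import Pool.Agent.Q2.PM.Stm

/-! Job C10 of project PM (helper2). -/

namespace Q294.PM_C10

open Subgroup Q2.TN Q2.PM

theorem le_syl {G : Type} [Group G] [Finite G] (V P : Subgroup G) (hV : V.Normal) (h2 : IsPGroup 2 V)
    (hP : IsSyl 2 P) : V ≤ P := by
  have := Fact.mk Nat.prime_two
  have := hV
  have h : IsPGroup 2 (V ⊔ P : Subgroup G) := IsPGroup.to_sup_of_normal_left h2 hP.1
  have h3 := (hP.1.toSylow hP.2).is_maximal' h (by
    show P ≤ V ⊔ P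
    exact le_sup_right)
  have h4 : V ⊔ P = P := h3
  rw [← h4]; exact le_sup_left

theorem mul_mem_two {G : Type} [Group G] [Finite G] (T₁ T : Subgroup G) (h : T₁ ≤ T)
    (hc : Nat.card T = 2 * Nat.card T₁) : ∀ x ∈ T, x ∉ T₁ → ∀ y ∈ T, y ∉ T₁ → x * y ∈ T₁ := by
  have h4 := Subgroup.relIndex_mul_relIndex ⊥ T₁ T bot_le h
  rw [relIndex_bot_left, relIndex_bot_left, hc, mul_comm 2] at h4
  have h5 : T₁.relIndex T = 2 := Nat.eq_of_mul_eq_mul_left (Nat.card_pos) h4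
  have h6 : (T₁.subgroupOf T).index = 2 := h5
  intro x hx hx1 y hy hy1
  have h7 := Subgroup.mul_mem_iff_of_index_two h6 (a := ⟨x, hx⟩) (b := ⟨y, hy⟩)
  have h8 : (⟨x, hx⟩ * ⟨y, hy⟩ : T) ∈ T₁.subgroupOf T := by
    rw [h7]
    simp [mem_subgroupOf, hx1, hy1]
  simpa [mem_subgroupOf] using h8

theorem c10 (h1 : Q2.PM.S_B1) (h4 : Q2.PM.S_B4) (h9 : Q2.PM.S_B9) (c9 : Q2.PM.S_C9) : Q2.PM.S_C10 := by
  intro k G _ _ P T L U henv hT hk hcard hLn hTL hLc hcom hexp hUn hU2 hLU hUL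
  by_contra hne
  have := Fact.mk Nat.prime_two
  obtain ⟨V, ⟨hVn, hLV, hVU⟩, hmin⟩ := WellFounded.has_min (wellFounded_lt (α := Subgroup G))
    {V | V.Normal ∧ L < V ∧ V ≤ U} ⟨U, hUn, lt_of_le_of_ne hLU (Ne.symm hne), le_rfl⟩
  have hch : IsChief L V := by
    refine ⟨hLn, hVn, hLV, fun M hM hLM hMV => ?_⟩
    by_cases h : M = L
    · exact Or.inl h
    · right
      by_contra h'
      exact hmin M ⟨hM, lt_of_le_of_ne hLM (Ne.symm h), hMV.trans hVU⟩ (lt_of_le_of_ne hMV h')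
  have hV2 : IsPGroup 2 V := hU2.to_le hVU
  obtain ⟨hsq, -⟩ := h1 G L V V hch hV2 hVn hV2
  have hTn := hT.1
  obtain ⟨T₁, hT₁, hT₁c, hPT₁⟩ := h4 G T P hTn hT.2.2.1 hT.2.1 henv.syl.1
  have hVP := le_syl V P hVn hV2 henv.syl
  obtain ⟨t, htT, htT₁, htc⟩ := h9 G T₁ T L V hLn hVn hLV hT₁ hTL
    (fun x hx y hy => (hUL y (hVU hy) x hx).symm) hexp (mul_mem_two T₁ T hT₁ hT₁c)
    (fun x hx hxL => c9 k G P T L T₁ x henv hT hk hcard hLn hTL hLc hcom hexp hT₁ hT₁c hPT₁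
      (hVP hx) hxL (hsq x hx) (fun y hy => hUL x (hVU hx) y hy))
  have hKn : (zpowers t).Normal := by
    refine ⟨fun n hn g => ?_⟩
    obtain ⟨j, rfl⟩ := mem_zpowers_iff.1 hn
    have hc : Commute g t := htc g
    have h7 := (hc.zpow_right j).eq
    rw [h7]
    simp only [mul_assoc, mul_inv_cancel, mul_one]
    exact mem_zpowers_iff.2 ⟨j, rfl⟩
  have hKT : zpowers t ≤ T := by
    rw [zpowers_le]; exact htT
  rcases hT.2.2.2 _ hKn hKT with h | h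
  · exact htT₁ (by rw [zpowers_eq_bot.1 h]; exact T₁.one_mem)
  · have h8 : orderOf t ∣ 2 := orderOf_dvd_of_pow_eq_one (by
      rw [pow_two]; exact hexp _ (hTL htT))
    have h9 : Nat.card T = orderOf t := by rw [← h, Nat.card_zpowers]
    have h10 := Nat.le_of_dvd (by norm_num) h8
    rw [← h9, hcard] at h10
    have h11 : 2 ^ 2 ≤ 2 ^ (k - 1) := Nat.pow_le_pow_right (by norm_num) (by omega)
    omega

end Q294.PM_C10
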