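import Pool.Agent.Q2.PM.Stm

/-! Job C7 of project PM (helper2). -/

namespace Q294.PM_C7

open Subgroup Q2.TN Q2.PM

theorem le_syl {G : Type} [Group G] [Finite G] (V P : Subgroup G) (hV : V.Normal) (h2 : IsPGroup 2 V)
    (hP : IsSyl 2 P) : V ≤ P := by
  have := Fact.mk Nat.prime_two
  have := hV
  have h : IsPGroup 2 (V ⊔ P : Subgroup G) := IsPGroup.to_sup_of_normal_left h2 hP.1
  have h3 := (hP.1.toSylow hP.2).is_maximal' h (by
    show P ≤ V ⊔ P
    exact le_sup_right)
  have h4 : V ⊔ P = P := h3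
  rw [← h4]; exact le_sup_left

/-- the subgroup `T ∪ T x` -/
def LL {G : Type} [Group G] (T : Subgroup G) (hT : T.Normal) (x : G) (hx : x * x ∈ T) : Subgroup G where
  carrier := {g | g ∈ T ∨ g * x⁻¹ ∈ T}
  one_mem' := Or.inl T.one_mem
  mul_mem' := by
    rintro a b (ha | ha) (hb | hb)
    · exact Or.inl (T.mul_mem ha hb)
    · refine Or.inr ?_
      have := T.mul_mem ha hb
      rwa [← mul_assoc] at this
    · refine Or.inr ?_
      have h1 := T.mul_mem ha (hT.conj_mem b hb x)
      have h2 : a * x⁻¹ * (x * b * x⁻¹) = a * b * x⁻¹ := by group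
      rwa [h2] at h1
    · refine Or.inl ?_
      have h1 := T.mul_mem (T.mul_mem ha (hT.conj_mem _ hb x)) hx
      have h2 : a * x⁻¹ * (x * (b * x⁻¹) * x⁻¹) * (x * x) = a * b := by group
      rwa [h2] at h1
  inv_mem' := by
    rintro a (ha | ha)
    · exact Or.inl (T.inv_mem ha)
    · refine Or.inr ?_
      have h1 := T.mul_mem (hT.conj_mem _ (T.inv_mem ha) (x⁻¹)) (T.inv_mem hx)
      have h2 : x⁻¹ * (a * x⁻¹)⁻¹ * x⁻¹⁻¹ * (x * x)⁻¹ = a⁻¹ * x⁻¹ := by group
      rwa [h2] at h1

theorem mem_LL {G : Type} [Group G] (T : Subgroup G) (hT : T.Normal) (x : G) (hx : x * x ∈ T) (g : G) :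
    g ∈ LL T hT x hx ↔ g ∈ T ∨ g * x⁻¹ ∈ T := Iff.rfl

theorem c7 (h1 : Q2.PM.S_B1) (h2 : Q2.PM.S_B2) (h5 : Q2.PM.S_B5) (c3 : Q2.PM.S_C3) (c5 : Q2.PM.S_C5) :
    Q2.PM.S_C7 := by
  intro k G _ _ P T henv hT hk hcard
  have := Fact.mk Nat.prime_two
  obtain ⟨hTn, hTb, hTp, hTm⟩ := hT
  have := hTn
  obtain ⟨H, -, hHP, hHc⟩ := h5 k G ⊥ P bot_le henv.syl.1 (by
    rw [Subgroup.card_bot]; exact Nat.one_le_two_pow) henv.card_lt.le
  have hHT : ¬ H ≤ T := by
    intro h
    have h3 := Subgroup.card_le_of_le h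
    rw [hHc, hcard] at h3
    have := Nat.pow_lt_pow_right (show 1 < 2 by norm_num) (show k - 1 < k by omega)
    omega
  obtain ⟨V, hVc, hV2⟩ := c5 k G P T H henv hTn hTp hHP hHc hHT
    (fun F hF hTF hodd => c3 k G P T F henv ⟨hTn, hTb, hTp, hTm⟩ hF hTF hodd)
  obtain ⟨-, hVn, hTV, -⟩ := hVc
  obtain ⟨x, hxV, hxT, hxx, hfix⟩ := h2 G T V P hTn hVn hTV hV2 henv.syl.1
  have hVP : V ≤ P := le_syl V P hVn hV2 henv.syl
  set L := LL T hTn x hxx with hL
  have hmem : ∀ g, g ∈ L ↔ g ∈ T ∨ g * x⁻¹ ∈ T := fun g => mem_LL T hTn x hxx g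
  have hTL : T ≤ L := fun g hg => (hmem g).2 (Or.inl hg)
  have hxL : x ∈ L := (hmem x).2 (Or.inr (by simp [T.one_mem]))
  have hLV : L ≤ V := by
    intro g hg
    rcases (hmem g).1 hg with h | h
    · exact hTV.le h
    · have := V.mul_mem (hTV.le h) hxV
      simpa using this
  have hLc : Nat.card L = 2 ^ k := by
    have h3 : T.relIndex L = 2 := by
      rw [Subgroup.relIndex_eq_two_iff]
      refine ⟨x, hxL, fun b hb => ?_⟩
      rcases (hmem b).1 hb with h | h
      · right
        refine ⟨h, fun h4 => hxT ?_⟩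
        have := T.mul_mem (T.inv_mem h) h4
        simpa using this
      · left
        refine ⟨?_, fun h5 => hxT ?_⟩
        · have := T.mul_mem h hxx
          have h6 : b * x⁻¹ * (x * x) = b * x := by group
          rwa [h6] at this
        · have := T.mul_mem (T.inv_mem h) h5
          simpa using this
    have h4 := Subgroup.relIndex_mul_relIndex ⊥ T L bot_le hTL
    rw [relIndex_bot_left, relIndex_bot_left, h3, hcard] at h4
    rw [← h4, ← pow_succ]
    congr 1
    omega
  have hLn : L.Normal := by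
    have h3 := henv.gen L V (Nm L) (hLV.trans hVP) hLc hVn hV2 (by
      intro y hy
      have key : ∀ z ∈ P, ∀ g ∈ L, z * g * z⁻¹ ∈ L := by
        intro z hz g hg
        have hzx : z * x * z⁻¹ ∈ L := by
          refine (hmem _).2 (Or.inr ?_)
          exact hfix z hz
        rcases (hmem g).1 hg with h | h
        · exact hTL (hTn.conj_mem g h z)
        · have h4 := L.mul_mem (hTL (hTn.conj_mem _ h z)) hzx
          have h5 : z * (g * x⁻¹) * z⁻¹ * (z * x * z⁻¹) = z * g * z⁻¹ := by group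
          rwa [h5] at h4
      rw [mem_normalizer_iff]
      intro g
      constructor
      · intro hg
        exact key y hy g hg
      · intro hg
        have h4 := key y⁻¹ (P.inv_mem hy) _ hg
        have h5 : y⁻¹ * (y * g * y⁻¹) * y⁻¹⁻¹ = g := by group
        rwa [h5] at h4) (by rw [inf_eq_left.2 hLV])
    exact Subgroup.normalizer_eq_top_iff.1 h3
  have hch : IsChief (⊥ : Subgroup G) T := by
    refine ⟨inferInstance, hTn, bot_lt_iff_ne_bot.2 hTb, fun M hM _ hMT => hTm M hM hMT⟩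
  obtain ⟨hsq, hcom⟩ := h1 G ⊥ T L hch hTp hLn (hV2.to_le hLV)
  have hsq' : ∀ t ∈ T, t * t = 1 := fun t ht => by simpa using hsq t ht
  have hcom' : ∀ t ∈ T, ∀ y ∈ L, t * y = y * t := by
    intro t ht y hy
    have h3 := Subgroup.mem_bot.1 (hcom t ht y hy)
    calc t * y = (t * y * t⁻¹ * y⁻¹) * (y * t) := by group
      _ = y * t := by rw [h3, one_mul]
  have hsqL : ∀ g ∈ L, g ∉ T → g * g = x * x := by
    intro g hg hgT
    rcases (hmem g).1 hg with h | h
    · exact absurd h hgT
    · obtain ⟨t, ht, rfl⟩ : ∃ t ∈ T, g = t * x := ⟨g * x⁻¹, h, by group⟩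
      have h3 := hcom' t ht x hxL
      calc t * x * (t * x) = t * (x * t) * x := by group
        _ = t * (t * x) * x := by rw [← h3]
        _ = (t * t) * (x * x) := by group
        _ = x * x := by rw [hsq' t ht, one_mul]
  have hcen : ∀ g : G, g * (x * x) = x * x * g := by
    intro g
    have h3 : g * x * g⁻¹ ∈ L := hLn.conj_mem x hxL g
    have h4 : g * x * g⁻¹ ∉ T := by
      intro h
      have := hTn.conj_mem _ h g⁻¹
      apply hxT
      have h6 : g⁻¹ * (g * x * g⁻¹) * g⁻¹⁻¹ = x := by group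
      rwa [h6] at this
    have h5 := hsqL _ h3 h4
    calc g * (x * x) = (g * x * g⁻¹ * (g * x * g⁻¹)) * g := by group
      _ = x * x * g := by rw [h5]
  have hx1 : x * x = 1 := by
    by_contra hne
    have hKn : (zpowers (x * x)).Normal := by
      refine ⟨fun n hn g => ?_⟩
      obtain ⟨j, rfl⟩ := mem_zpowers_iff.1 hn
      have hc : Commute g (x * x) := hcen g
      have h7 := (hc.zpow_right j).eq
      rw [h7]
      simp only [mul_assoc, mul_inv_cancel, mul_one]
      exact mem_zpowers_iff.2 ⟨j, rfl⟩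
    have hKT : zpowers (x * x) ≤ T := by
      rw [zpowers_le]; exact hxx
    rcases hTm _ hKn hKT with h | h
    · exact hne (zpowers_eq_bot.1 h)
    · have h8 : orderOf (x * x) ∣ 2 := orderOf_dvd_of_pow_eq_one (by
        rw [pow_two]; exact hsq' _ hxx)
      have h9 : Nat.card T = orderOf (x * x) := by rw [← h, Nat.card_zpowers]
      have h10 := Nat.le_of_dvd (by norm_num) h8
      rw [← h9, hcard] at h10
      have h11 : 2 ^ 2 ≤ 2 ^ (k - 1) := Nat.pow_le_pow_right (by norm_num) (by omega)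
      omega
  refine ⟨L, hLn, hTL, hLc, ?_, ?_, x, hxL, hxT⟩
  · intro a ha b hb
    rcases (hmem a).1 ha with h | h
    · exact hcom' a h b hb
    · obtain ⟨t, ht, rfl⟩ : ∃ t ∈ T, a = t * x := ⟨a * x⁻¹, h, by group⟩
      rcases (hmem b).1 hb with h' | h'
      · exact (hcom' b h' _ ha).symm
      · obtain ⟨s, hs, rfl⟩ : ∃ t ∈ T, b = t * x := ⟨b * x⁻¹, h', by group⟩
        have h3 := hcom' t ht x hxL
        have h4 := hcom' s hs x hxL
        have h5 := hcom' t ht s (hTL hs)
        calc t * x * (s * x) = t * (x * s) * x := by group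
          _ = t * (s * x) * x := by rw [h4]
          _ = (t * s) * x * x := by group
          _ = (s * t) * x * x := by rw [h5]
          _ = s * (t * x) * x := by group
          _ = s * (x * t) * x := by rw [h3]
          _ = s * x * (t * x) := by group
  · intro g hg
    by_cases hgT : g ∈ T
    · exact hsq' g hgT
    · rw [hsqL g hg hgT, hx1]

end Q294.PM_C7
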