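import Pool.Agent.TH232.WX.CutC
import Pool.Agent.W832.HR.Fin

set_option autoImplicit false

/-! Arcs of large extent of the critical half-plane self-avoiding walk on the honeycomb lattice. -/

namespace Q294.Bd

open H978R2.Hex Pool.Agent.W818.TD Pool.Agent.W832 Pool.Agent.W832.HR Filter Topology
open scoped ENNReal

/-- critical weight of a path -/
noncomputable def w (l : List V) : ℝ≥0∞ := xc ^ (l.length - 1)

theorem Wt_cons {l : List V} (a : V) (hl : l ≠ []) : Wt (a :: l) = xc * w l := by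
  unfold Wt w
  have h1 := List.length_pos_of_ne_nil hl
  have e : (a :: l).length - 1 = (l.length - 1) + 1 := by
    rw [List.length_cons]
    omega
  rw [e, pow_succ, ENNReal.ofReal_mul (pow_nonneg (inv_pos.2 mu0_pos).le _),
    ENNReal.ofReal_pow (inv_pos.2 mu0_pos).le, xc_eq, mul_comm]

theorem traj_ne {D : Set V} {a b : V} {l : List V} (h : l ∈ Traj D a b) : l ≠ [] := by
  rintro rfl
  have := h.1
  simp at this

theorem br_of {T : ℕ} {x : ℤ} {l : List V} (h : l ∈ Traj (HR.Strip T) (1, 0) (2 * T + x, x)) :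
    EBr ((0, 0) :: l) ∧ hl ((0, 0) :: l) = 2 * T := by
  have hne := traj_ne h
  obtain ⟨h1, h2, h3, h4, h5⟩ := h
  have hla : la ((0, 0) :: l) = (2 * (T : ℤ) + x, x) := by
    unfold la
    rw [List.getLastD_cons, List.getLastD_eq_getLast?, h2]
    rfl
  have hhl : hl ((0, 0) :: l) = 2 * T := by
    unfold hl
    rw [hla]
    simp only
    ring
  refine ⟨⟨rfl, ?_, ?_, ?_, ?_, ?_⟩, hhl⟩
  · match l, h1, h4 with
    | b :: t, h1, h4 =>
      simp only [List.head?_cons, Option.some.injEq] at h1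
      refine List.isChain_cons_cons.2 ⟨?_, h4.imp fun {p q} hpq => nbr_iff.1 hpq⟩
      rw [h1, adj_iff]
      simp
  · rw [List.nodup_cons]
    refine ⟨fun hm => ?_, h3⟩
    have := (h5 _ hm).1
    simp at this
  · intro v hv
    exact (h5 v (by simpa using hv)).1
  · intro v hv
    rw [hhl]
    rcases List.mem_cons.1 hv with rfl | hv
    · simp only
      omega
    · exact (h5 v hv).2
  · rw [hhl]
    omega

theorem B_le {T : ℕ} (hT : 1 ≤ T) :
    xc * B T ≤ ENNReal.ofReal (13 / 2 * (T : ℝ) ^ (-(23 / 200) : ℝ)) := by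
  have h0 := Pool.Agent.TH232.WX.M_bridge (T : ℤ) (by exact_mod_cast hT)
  refine le_trans ?_ (le_trans h0 (le_of_eq (by norm_num)))
  unfold B Z M
  rw [← ENNReal.tsum_mul_left]
  simp only [← ENNReal.tsum_mul_left]
  rw [← ENNReal.tsum_sigma' (f := fun p : (Σ x : ℤ, Traj (HR.Strip T) (1, 0) (2 * (T : ℤ) + x, x)) =>
    xc * xc ^ (p.2.1.length - 1))]
  let f : (Σ x : ℤ, Traj (HR.Strip T) (1, 0) (2 * (T : ℤ) + x, x)) → {β | EBr β ∧ hl β = 2 * (T : ℤ)} :=
    fun p => ⟨(0, 0) :: p.2.1, br_of p.2.2⟩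
  have hf : Function.Injective f := by
    rintro ⟨x, l, hl⟩ ⟨y, l', hl'⟩ he
    have he' : l = l' := by
      have := congrArg Subtype.val he
      simpa [f] using this
    subst he'
    have h1 := hl.2.1
    have h2 := hl'.2.1
    rw [h1] at h2
    simp only [Option.some.injEq, Prod.mk.injEq] at h2
    have : x = y := h2.2
    subst this
    rfl
  refine le_trans (le_of_eq ?_) (ENNReal.tsum_comp_le_tsum_of_injective hf (fun β => Wt β.1))
  refine tsum_congr fun p => ?_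
  exact (Wt_cons (0, 0) (traj_ne p.2.2)).symm

theorem U_le (J : ℕ) :
    xc * HR.U J ≤ ENNReal.ofReal (1300 / 177 * (J : ℝ) ^ ((177 : ℝ) / 200)) := by
  unfold HR.U
  rw [Finset.mul_sum]
  have h1 : ∀ T ∈ Finset.range J, xc * B (T + 1) ≤
      ENNReal.ofReal (13 / 2 * ((T : ℝ) + 1) ^ ((177 : ℝ) / 200 - 1)) := by
    intro T _
    have := B_le (T := T + 1) (by omega)
    refine this.trans (le_of_eq ?_)
    push_cast
    norm_num
  refine (Finset.sum_le_sum h1).trans ?_
  rw [← ENNReal.ofReal_sum_of_nonneg (fun n _ => by positivity)]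
  apply ENNReal.ofReal_le_ofReal
  rw [← Finset.mul_sum]
  have h3 := Pool.Agent.TH232.WX.Cut.sum_rpow (177 / 200) (by norm_num) (by norm_num) J
  calc 13 / 2 * ∑ i ∈ Finset.range J, ((i : ℝ) + 1) ^ ((177 : ℝ) / 200 - 1)
      ≤ 13 / 2 * ((J : ℝ) ^ ((177 : ℝ) / 200) / (177 / 200)) := by gcongr
    _ = _ := by ring

/-- the arcs of extent at least `J` -/
def Arcs (J : ℕ) : Set (List V) := {l | (∃ j : ℤ, l ∈ Traj HP (1, 0) (1 + j, j)) ∧ J ≤ ext l}

/-- the mass of the arcs -/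
noncomputable def mA (J : ℕ) : ℝ≥0∞ := ∑' l : List V, (Arcs J).indicator w l

theorem mA_mul (J : ℕ) : J * mA J ≤ X J := by
  unfold mA X
  rw [← ENNReal.tsum_mul_left]
  have h1 : ∀ j : ℤ, ∑' l : Traj HP (1, 0) (1 + j, j),
      ((min (ext l.1) J : ℕ) : ℝ≥0∞) * xc ^ (l.1.length - 1) =
      ∑' l : List V, (Traj HP (1, 0) (1 + j, j)).indicator
        (fun l => ((min (ext l) J : ℕ) : ℝ≥0∞) * xc ^ (l.length - 1)) l := fun j =>
    tsum_subtype (Traj HP (1, 0) (1 + j, j))
      (fun l => ((min (ext l) J : ℕ) : ℝ≥0∞) * xc ^ (l.length - 1))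
  simp only [h1]
  rw [ENNReal.tsum_comm]
  refine ENNReal.tsum_le_tsum fun l => ?_
  by_cases hl : l ∈ Arcs J
  · obtain ⟨⟨j, hj⟩, hJ⟩ := hl
    rw [Set.indicator_of_mem (show l ∈ Arcs J from ⟨⟨j, hj⟩, hJ⟩)]
    refine le_trans (le_of_eq ?_) (ENNReal.le_tsum j)
    rw [Set.indicator_of_mem hj, min_eq_right hJ]
    rfl
  · rw [Set.indicator_of_notMem hl, mul_zero]
    exact zero_le

theorem ext_zero {l : List V} (h : ¬ 1 ≤ ext l) (hl : (∃ j : ℤ, l ∈ Traj HP (1, 0) (1 + j, j))) :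
    l = [(1, 0)] := by
  obtain ⟨j, h1, h2, h3, h4, h5⟩ := hl
  have h6 : ∀ v ∈ l, v = (1, 0) := by
    intro v hv
    by_contra hne
    apply h
    have : 0 < ext l := by
      rw [lt_ext]
      refine ⟨v, hv, ?_⟩
      by_contra hc
      push Not at hc
      apply hne
      apply Prod.ext
      · simp only; omega
      · simp only; omega
    omega
  match l, h1, h3, h6 with
  | [b], h1, _, _ =>
    simp only [List.head?_cons, Option.some.injEq] at h1
    rw [h1]
  | b :: b' :: t, h1, h3, h6 =>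
    exfalso
    rw [List.nodup_cons] at h3
    apply h3.1
    rw [h6 b (by simp), h6 b' (by simp)]
    simp

theorem mA_zero : mA 0 ≤ 1 + mA 1 := by
  unfold mA
  have h1 : ∀ l : List V, (Arcs 0).indicator w l ≤
      (if l = [(1, 0)] then (1 : ℝ≥0∞) else 0) + (Arcs 1).indicator w l := by
    intro l
    by_cases h : l ∈ Arcs 0
    · rw [Set.indicator_of_mem h]
      by_cases h2 : 1 ≤ ext l
      · rw [Set.indicator_of_mem (show l ∈ Arcs 1 from ⟨h.1, h2⟩)]
        exact le_add_self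
      · have := ext_zero h2 h.1
        rw [if_pos this, this]
        refine le_trans (le_of_eq ?_) le_self_add
        simp [w]
    · rw [Set.indicator_of_notMem h]
      exact zero_le
  refine (ENNReal.tsum_le_tsum h1).trans ?_
  rw [ENNReal.tsum_add, tsum_ite_eq]

theorem mu0_lt : mu0 < 37 / 20 := by
  unfold mu0
  rw [Real.sqrt_lt' (by norm_num)]
  have : Real.sqrt 2 < 1415 / 1000 := by
    rw [Real.sqrt_lt' (by norm_num)]
    norm_num
  norm_num
  linarith

/-- **the mass of the arcs of extent at least `J`** -/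
theorem mA_le {J : ℕ} (hJ : 1 ≤ J) :
    mA J ≤ ENNReal.ofReal (3400 * (J : ℝ) ^ (-(23 / 200) : ℝ)) := by
  have hJ0 : (0 : ℝ) < J := by exact_mod_cast hJ
  have hx : xc = ENNReal.ofReal (mu0⁻¹) := xc_eq
  have h1 : xc * (J * mA J) ≤ ENNReal.ofReal (250 * (1300 / 177 * (J : ℝ) ^ ((177 : ℝ) / 200))) := by
    calc xc * (J * mA J) ≤ xc * X J := by gcongr; exact mA_mul J
      _ ≤ xc * (250 * HR.U J) := by gcongr; exact (final J hJ).2.2.1
      _ = 250 * (xc * HR.U J) := by ring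
      _ ≤ 250 * ENNReal.ofReal (1300 / 177 * (J : ℝ) ^ ((177 : ℝ) / 200)) := by
        gcongr
        exact U_le J
      _ = _ := by
        rw [ENNReal.ofReal_mul (by norm_num : (0 : ℝ) ≤ 250)]
        norm_num
  have h2 : ENNReal.ofReal (mu0⁻¹ * J) * mA J ≤
      ENNReal.ofReal (250 * (1300 / 177 * (J : ℝ) ^ ((177 : ℝ) / 200))) := by
    rw [ENNReal.ofReal_mul (inv_pos.2 mu0_pos).le, ← hx, ENNReal.ofReal_natCast, mul_assoc]
    exact h1
  have hpos : 0 < mu0⁻¹ * J := mul_pos (inv_pos.2 mu0_pos) hJ0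
  have h3 : mA J ≤ ENNReal.ofReal (250 * (1300 / 177 * (J : ℝ) ^ ((177 : ℝ) / 200)) / (mu0⁻¹ * J)) := by
    rw [ENNReal.ofReal_div_of_pos hpos, ENNReal.le_div_iff_mul_le]
    · rw [mul_comm]; exact h2
    · left
      simpa using hpos
    · left
      exact ENNReal.ofReal_ne_top
  refine h3.trans (ENNReal.ofReal_le_ofReal ?_)
  have h4 : (J : ℝ) ^ (-(23 / 200) : ℝ) = (J : ℝ) ^ ((177 : ℝ) / 200) / J := by
    have : (-(23 / 200) : ℝ) = (177 : ℝ) / 200 - 1 := by norm_num
    rw [this, Real.rpow_sub_one hJ0.ne']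
  rw [h4]
  have h5 := mu0_lt
  have h6 := mu0_pos
  have e : 250 * (1300 / 177 * (J : ℝ) ^ ((177 : ℝ) / 200)) / (mu0⁻¹ * J) =
      (250 * (1300 / 177) * mu0) * ((J : ℝ) ^ ((177 : ℝ) / 200) / J) := by
    field_simp
  rw [e]
  have h7 : 0 ≤ (J : ℝ) ^ ((177 : ℝ) / 200) / J := by positivity
  refine mul_le_mul_of_nonneg_right ?_ h7
  nlinarith

theorem mA_zero_le : mA 0 ≤ ENNReal.ofReal 3401 := by
  refine mA_zero.trans ?_
  have h := mA_le (J := 1) le_rfl
  have e : (3400 * ((1 : ℕ) : ℝ) ^ (-(23 / 200) : ℝ)) = 3400 := by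
    rw [Nat.cast_one, Real.one_rpow, mul_one]
  rw [e] at h
  refine (add_le_add le_rfl h).trans (le_of_eq ?_)
  rw [← ENNReal.ofReal_one, ← ENNReal.ofReal_add (by norm_num) (by norm_num)]
  norm_num

end Q294.Bd
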