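import Pool.Agent.Q294.PVar

/-!
The signed area swept by a plane curve which is Hölder continuous of exponent larger than `1/2`, as
the limit of the signed areas of the inscribed dyadic polygons.
-/

set_option autoImplicit false

namespace Q294.Area

open MeasureTheory Filter Topology

/-- twice the signed area of the triangle `0, z, w` -/
def cross (z w : ℂ) : ℝ := z.re * w.im - z.im * w.re

theorem cross_le (z w : ℂ) : |cross z w| ≤ ‖z‖ * ‖w‖ := by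
  have h : cross z w = ((starRingEnd ℂ) z * w).im := by
    simp [cross, Complex.mul_im]; ring
  rw [h]
  refine (Complex.abs_im_le_norm _).trans ?_
  rw [norm_mul, RCLike.norm_conj]

theorem cross_split (a b c : ℂ) : cross a c + cross c b - cross a b = cross (c - a) (b - c) := by
  simp only [cross, Complex.sub_re, Complex.sub_im]; ring

/-- the curve at the real time `x`, clamped to `[0, 1]` -/
noncomputable def at' (γ : C(unitInterval, ℂ)) (x : ℝ) : ℂ :=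
  γ (Set.projIcc (0 : ℝ) 1 zero_le_one x)

/-- signed area of the inscribed polygon with vertices at the times `k / 2^m` -/
noncomputable def areaN (γ : C(unitInterval, ℂ)) (m : ℕ) : ℝ :=
  (1 / 2) * ∑ k ∈ Finset.range (2 ^ m), cross (at' γ (k / 2 ^ m)) (at' γ ((k + 1 : ℕ) / 2 ^ m))

/-- signed area swept by the curve (seen from `0`) -/
noncomputable def area (γ : C(unitInterval, ℂ)) : ℝ := limUnder atTop (areaN γ)

/-- Hölder continuity with exponent `11/20` -/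
def Hol (Λ : ℝ) (γ : C(unitInterval, ℂ)) : Prop :=
  ∀ s t : unitInterval, dist (γ s) (γ t) ≤ Λ * |(s : ℝ) - t| ^ (11/20 : ℝ)

theorem hol_at {Λ : ℝ} (hΛ : 0 ≤ Λ) {γ : C(unitInterval, ℂ)} (h : Hol Λ γ) (x y : ℝ) :
    ‖at' γ x - at' γ y‖ ≤ Λ * |x - y| ^ (11/20 : ℝ) := by
  rw [← dist_eq_norm]
  refine (h _ _).trans ?_
  apply mul_le_mul_of_nonneg_left _ hΛ
  apply Real.rpow_le_rpow (abs_nonneg _) _ (by norm_num)
  exact Set.abs_projIcc_sub_projIcc (zero_le_one' ℝ)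

theorem sum_double (f : ℕ → ℝ) (n : ℕ) :
    ∑ k ∈ Finset.range (2 * n), f k = ∑ k ∈ Finset.range n, (f (2 * k) + f (2 * k + 1)) := by
  induction n with
  | zero => simp
  | succ n ih =>
    rw [show 2 * (n + 1) = 2 * n + 1 + 1 by ring, Finset.sum_range_succ, Finset.sum_range_succ, ih,
      Finset.sum_range_succ]
    ring

/-- the ratio of the geometric series -/
noncomputable def rr : ℝ := 2 ^ (-(1/10) : ℝ)

theorem rr_pos : 0 < rr := by unfold rr; positivity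
theorem rr_lt : rr < 1 := by
  unfold rr
  exact Real.rpow_lt_one_of_one_lt_of_neg (by norm_num) (by norm_num)

theorem step {Λ : ℝ} (hΛ : 0 ≤ Λ) {γ : C(unitInterval, ℂ)} (h : Hol Λ γ) (m : ℕ) :
    |areaN γ (m + 1) - areaN γ m| ≤ Λ ^ 2 * rr ^ m := by
  unfold areaN
  rw [pow_succ' 2 m, sum_double]
  rw [← mul_sub, ← Finset.sum_sub_distrib]
  simp only [pow_succ' (2 : ℝ) m]
  have e : ∀ k : ℕ, (cross (at' γ ((2 * k : ℕ) / (2 * 2 ^ m))) (at' γ ((2 * k + 1 : ℕ) / (2 * 2 ^ m)))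
      + cross (at' γ ((2 * k + 1 : ℕ) / (2 * 2 ^ m))) (at' γ ((2 * k + 1 + 1 : ℕ) / (2 * 2 ^ m))))
      - cross (at' γ (k / 2 ^ m)) (at' γ ((k + 1 : ℕ) / 2 ^ m)) =
      cross (at' γ ((2 * k + 1 : ℕ) / (2 * 2 ^ m)) - at' γ (k / 2 ^ m))
        (at' γ ((k + 1 : ℕ) / 2 ^ m) - at' γ ((2 * k + 1 : ℕ) / (2 * 2 ^ m))) := by
    intro k
    have e1 : (((2 * k : ℕ) : ℝ) / (2 * 2 ^ m)) = k / 2 ^ m := by
      push_cast; field_simp
    have e2 : (((2 * k + 1 + 1 : ℕ) : ℝ) / (2 * 2 ^ m)) = (k + 1 : ℕ) / 2 ^ m := by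
      push_cast; field_simp; ring
    rw [e1, e2]
    exact cross_split _ _ _
  rw [Finset.sum_congr rfl (fun k _ => e k)]
  have hb : ∀ k ∈ Finset.range (2 ^ m), |cross (at' γ ((2 * k + 1 : ℕ) / (2 * 2 ^ m)) - at' γ (k / 2 ^ m))
        (at' γ ((k + 1 : ℕ) / 2 ^ m) - at' γ ((2 * k + 1 : ℕ) / (2 * 2 ^ m)))| ≤
        Λ ^ 2 * ((1 / (2 * 2 ^ m : ℝ)) ^ (11/20 : ℝ)) ^ 2 := by
    intro k _
    refine (cross_le _ _).trans ?_
    have g1 := hol_at hΛ h ((2 * k + 1 : ℕ) / (2 * 2 ^ m)) (k / 2 ^ m)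
    have g2 := hol_at hΛ h ((k + 1 : ℕ) / 2 ^ m) ((2 * k + 1 : ℕ) / (2 * 2 ^ m))
    have e1 : |(((2 * k + 1 : ℕ) : ℝ) / (2 * 2 ^ m)) - k / 2 ^ m| = 1 / (2 * 2 ^ m) := by
      have : (((2 * k + 1 : ℕ) : ℝ) / (2 * 2 ^ m)) - k / 2 ^ m = 1 / (2 * 2 ^ m) := by
        push_cast; field_simp; ring
      rw [this, abs_of_nonneg (by positivity)]
    have e2 : |((k + 1 : ℕ) : ℝ) / 2 ^ m - (((2 * k + 1 : ℕ) : ℝ) / (2 * 2 ^ m))| =
        1 / (2 * 2 ^ m) := by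
      have : ((k + 1 : ℕ) : ℝ) / 2 ^ m - (((2 * k + 1 : ℕ) : ℝ) / (2 * 2 ^ m)) =
          1 / (2 * 2 ^ m) := by
        push_cast; field_simp; ring
      rw [this, abs_of_nonneg (by positivity)]
    rw [e1] at g1
    rw [e2] at g2
    calc _ ≤ (Λ * (1 / (2 * 2 ^ m : ℝ)) ^ (11/20 : ℝ)) * (Λ * (1 / (2 * 2 ^ m : ℝ)) ^ (11/20 : ℝ)) :=
          mul_le_mul g1 g2 (norm_nonneg _) (by positivity)
      _ = _ := by ring
  rw [abs_mul]
  have hs := (Finset.abs_sum_le_sum_abs _ _).trans (Finset.sum_le_sum hb)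
  rw [Finset.sum_const, Finset.card_range, nsmul_eq_mul] at hs
  have hx : ((2 ^ m : ℕ) : ℝ) * (Λ ^ 2 * ((1 / (2 * 2 ^ m : ℝ)) ^ (11/20 : ℝ)) ^ 2) ≤
      Λ ^ 2 * rr ^ m := by
    have h1 : ((1 / (2 * 2 ^ m : ℝ)) ^ (11/20 : ℝ)) ^ 2 ≤ (2 : ℝ) ^ (-(11/10 : ℝ) * m) := by
      rw [← Real.rpow_natCast, ← Real.rpow_mul (by positivity)]
      have e3 : (1 / (2 * 2 ^ m : ℝ)) ≤ (2 : ℝ) ^ (-(m : ℝ)) := by
        rw [Real.rpow_neg (by norm_num), Real.rpow_natCast, one_div]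
        apply inv_anti₀ (by positivity)
        have : (0 : ℝ) < 2 ^ m := by positivity
        linarith
      refine (Real.rpow_le_rpow (by positivity) e3 (by norm_num)).trans (le_of_eq ?_)
      rw [← Real.rpow_mul (by norm_num)]
      congr 1
      push_cast; ring
    have h2 : ((2 ^ m : ℕ) : ℝ) * (2 : ℝ) ^ (-(11/10 : ℝ) * m) = rr ^ m := by
      unfold rr
      rw [← Real.rpow_natCast ((2 : ℝ) ^ (-(1/10) : ℝ)), ← Real.rpow_mul (by norm_num)]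
      push_cast
      rw [← Real.rpow_natCast 2 m, ← Real.rpow_add (by norm_num)]
      congr 1
      ring
    calc ((2 ^ m : ℕ) : ℝ) * (Λ ^ 2 * ((1 / (2 * 2 ^ m : ℝ)) ^ (11/20 : ℝ)) ^ 2)
        ≤ ((2 ^ m : ℕ) : ℝ) * (Λ ^ 2 * (2 : ℝ) ^ (-(11/10 : ℝ) * m)) := by gcongr
      _ = Λ ^ 2 * (((2 ^ m : ℕ) : ℝ) * (2 : ℝ) ^ (-(11/10 : ℝ) * m)) := by ring
      _ = _ := by rw [h2]
  have h0 : |(1 : ℝ) / 2| = 1 / 2 := by norm_num
  rw [h0]
  have h3 := hs.trans hx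
  have h4 : 0 ≤ Λ ^ 2 * rr ^ m := by have := rr_pos; positivity
  linarith

theorem converge {Λ : ℝ} (hΛ : 0 ≤ Λ) {γ : C(unitInterval, ℂ)} (h : Hol Λ γ) :
    Tendsto (areaN γ) atTop (𝓝 (area γ)) ∧
      ∀ m, |area γ - areaN γ m| ≤ Λ ^ 2 / (1 - rr) * rr ^ m := by
  have hd : ∀ m, dist (areaN γ m) (areaN γ (m + 1)) ≤ Λ ^ 2 * rr ^ m := fun m => by
    rw [dist_comm, Real.dist_eq]; exact step hΛ h m
  have hc : CauchySeq (areaN γ) := cauchySeq_of_le_geometric rr (Λ ^ 2) rr_lt hd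
  refine ⟨hc.tendsto_limUnder, fun m => ?_⟩
  have := dist_le_of_le_geometric_of_tendsto rr (Λ ^ 2) rr_lt hd hc.tendsto_limUnder m
  rw [Real.dist_eq, abs_sub_comm] at this
  refine this.trans (le_of_eq ?_)
  ring

end Q294.Area
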