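import Pool.Agent.Q294.Area
import Pool.Agent.H984R4.NP.Model

/-!
The signed area of a polygonal curve run at constant speed.
-/

set_option autoImplicit false

namespace Q294.Area

open MeasureTheory Filter Topology H984N

theorem cross_self (z : ℂ) : cross z z = 0 := by simp only [cross]; ring
theorem cross_sub_right (z a b : ℂ) : cross z (a - b) = cross z a - cross z b := by
  simp only [cross, Complex.sub_re, Complex.sub_im]; ring
theorem cross_sub_left (z a b : ℂ) : cross (a - b) z = cross a z - cross b z := by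
  simp only [cross, Complex.sub_re, Complex.sub_im]; ring
theorem cross_smul_right (z w : ℂ) (a : ℝ) : cross z ((a : ℂ) * w) = a * cross z w := by
  simp only [cross, Complex.mul_re, Complex.mul_im, Complex.ofReal_re, Complex.ofReal_im]; ring
theorem cross_smul_left (z w : ℂ) (a : ℝ) : cross ((a : ℂ) * z) w = a * cross z w := by
  simp only [cross, Complex.mul_re, Complex.mul_im, Complex.ofReal_re, Complex.ofReal_im]; ring
theorem cross_sum_right {ι : Type*} (s : Finset ι) (z : ℂ) (f : ι → ℂ) :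
    cross z (∑ i ∈ s, f i) = ∑ i ∈ s, cross z (f i) := by
  simp only [cross, Complex.re_sum, Complex.im_sum, Finset.mul_sum, ← Finset.sum_sub_distrib]
theorem cross_sum_left {ι : Type*} (s : Finset ι) (z : ℂ) (f : ι → ℂ) :
    cross (∑ i ∈ s, f i) z = ∑ i ∈ s, cross (f i) z := by
  simp only [cross, Complex.re_sum, Complex.im_sum, Finset.sum_mul, ← Finset.sum_sub_distrib]

theorem clamp_mono {x y : ℝ} (h : x ≤ y) : clamp x ≤ clamp y :=
  max_le_max le_rfl (min_le_min le_rfl h)
theorem clamp_zero {x : ℝ} (h : x ≤ 0) : clamp x = 0 := by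
  unfold clamp
  rw [max_eq_left]
  exact (min_le_right _ _).trans h
theorem clamp_one {x : ℝ} (h : 1 ≤ x) : clamp x = 1 := by
  unfold clamp
  rw [min_eq_left h, max_eq_right zero_le_one]
theorem clamp_le (x : ℝ) : clamp x ≤ 1 := by
  unfold clamp
  exact max_le zero_le_one (min_le_left _ _)
theorem clamp_nonneg (x : ℝ) : 0 ≤ clamp x := le_max_left _ _
theorem le_clamp {x : ℝ} (h : x ≤ 1) : x ≤ clamp x := by
  unfold clamp
  rw [min_eq_right h]; exact le_max_right _ _

theorem pl_at (N : ℕ) (p : ℕ → ℂ) {x : ℝ} (hx0 : 0 ≤ x) (hx1 : x ≤ 1) :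
    at' (pl N p) x = p 0 + ∑ k ∈ Finset.range N, ((clamp (x * N - k) : ℝ) : ℂ) *
      (p (k + 1) - p k) := by
  have h : ((Set.projIcc (0 : ℝ) 1 zero_le_one x : unitInterval) : ℝ) = x := by
    rw [Set.projIcc_of_mem zero_le_one ⟨hx0, hx1⟩]
  show p 0 + ∑ k ∈ Finset.range N, ((clamp (((Set.projIcc (0 : ℝ) 1 zero_le_one x : unitInterval) : ℝ)
    * N - k) : ℝ) : ℂ) * (p (k + 1) - p k) = _
  rw [h]

/-- the increments of the `j`-th coordinate function -/
noncomputable def Dl (N m k j : ℕ) : ℝ :=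
  clamp (((k + 1 : ℕ) : ℝ) / 2 ^ m * N - j) - clamp ((k : ℝ) / 2 ^ m * N - j)

theorem Dl_nonneg (N m k j : ℕ) : 0 ≤ Dl N m k j := by
  unfold Dl
  have : clamp ((k : ℝ) / 2 ^ m * N - j) ≤ clamp (((k + 1 : ℕ) : ℝ) / 2 ^ m * N - j) := by
    apply clamp_mono
    have : (k : ℝ) / 2 ^ m ≤ ((k + 1 : ℕ) : ℝ) / 2 ^ m := by
      gcongr; push_cast; linarith
    have hN : (0 : ℝ) ≤ N := Nat.cast_nonneg N
    nlinarith
  linarith

theorem Dl_sum {N j : ℕ} (hj : j < N) (m : ℕ) : ∑ k ∈ Finset.range (2 ^ m), Dl N m k j = 1 := by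
  unfold Dl
  rw [Finset.sum_range_sub (fun k : ℕ => clamp ((k : ℝ) / 2 ^ m * N - j))]
  have h1 : clamp (((2 ^ m : ℕ) : ℝ) / 2 ^ m * N - j) = 1 := by
    apply clamp_one
    have : ((2 ^ m : ℕ) : ℝ) / 2 ^ m = 1 := by push_cast; field_simp
    rw [this]
    have : (j : ℝ) + 1 ≤ N := by exact_mod_cast hj
    linarith
  have h2 : clamp (((0 : ℕ) : ℝ) / 2 ^ m * N - j) = 0 := by
    apply clamp_zero
    have : (0 : ℝ) ≤ j := Nat.cast_nonneg j
    simp
  rw [h1, h2]; ring

theorem key_term (N : ℕ) (p : ℕ → ℂ) {m k j : ℕ} (hk : k < 2 ^ m) (hj : j < N) :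
    |Dl N m k j * (cross (at' (pl N p) (k / 2 ^ m)) (p (j + 1) - p j) -
      cross (p j) (p (j + 1) - p j))| ≤
      Dl N m k j * ((N : ℝ) / 2 ^ m * (∑ i ∈ Finset.range N, ‖p (i + 1) - p i‖) *
        ‖p (j + 1) - p j‖) := by
  rw [abs_mul, abs_of_nonneg (Dl_nonneg N m k j)]
  rcases (Dl_nonneg N m k j).eq_or_lt with h0 | hpos
  · rw [← h0]; simp
  apply mul_le_mul_of_nonneg_left _ hpos.le
  have h2m : (0 : ℝ) < 2 ^ m := by positivity
  have hN0 : (0 : ℝ) ≤ N := Nat.cast_nonneg N
  set y : ℝ := (k : ℝ) / 2 ^ m * N with hy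
  have hy2 : ((k + 1 : ℕ) : ℝ) / 2 ^ m * N = y + N / 2 ^ m := by
    rw [hy]; push_cast; field_simp
  have hlo : (j : ℝ) - N / 2 ^ m < y := by
    by_contra hc
    push Not at hc
    have h1 : clamp (((k + 1 : ℕ) : ℝ) / 2 ^ m * N - j) = 0 := by
      apply clamp_zero; rw [hy2]; linarith
    have h2 : clamp ((k : ℝ) / 2 ^ m * N - j) = 0 := by
      apply clamp_zero
      have : 0 ≤ (N : ℝ) / 2 ^ m := by positivity
      rw [← hy]; linarith
    unfold Dl at hpos
    rw [h1, h2] at hpos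
    linarith
  have hhi : y < j + 1 := by
    by_contra hc
    push Not at hc
    have h1 : clamp (((k + 1 : ℕ) : ℝ) / 2 ^ m * N - j) = 1 := by
      apply clamp_one
      have : 0 ≤ (N : ℝ) / 2 ^ m := by positivity
      rw [hy2]; linarith
    have h2 : clamp ((k : ℝ) / 2 ^ m * N - j) = 1 := by
      apply clamp_one; rw [← hy]; linarith
    unfold Dl at hpos
    rw [h1, h2] at hpos
    linarith
  have hx1 : (k : ℝ) / 2 ^ m ≤ 1 := by
    rw [div_le_one h2m]
    exact_mod_cast hk.le
  rw [← cross_sub_left, pl_at N p (by positivity) hx1]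
  have hpj : p j = p 0 + ∑ i ∈ Finset.range N, (((if i < j then 1 else 0 : ℝ) : ℝ) : ℂ) *
      (p (i + 1) - p i) := by
    have e1 : ∑ i ∈ Finset.range N, (((if i < j then 1 else 0 : ℝ) : ℝ) : ℂ) *
        (p (i + 1) - p i) = ∑ i ∈ Finset.range j, (p (i + 1) - p i) := by
      have e2 : Finset.range j = (Finset.range N).filter (fun i => i < j) := by
        ext i; simp only [Finset.mem_range, Finset.mem_filter]; omega
      rw [e2, Finset.sum_filter]
      apply Finset.sum_congr rfl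
      intro i _
      split_ifs <;> simp
    rw [e1, Finset.sum_range_sub]; ring
  have e3 : (p 0 + ∑ i ∈ Finset.range N, ((clamp ((k : ℝ) / 2 ^ m * N - i) : ℝ) : ℂ) *
      (p (i + 1) - p i)) - p j = ∑ i ∈ Finset.range N,
        (((clamp (y - i) - (if i < j then 1 else 0 : ℝ)) : ℝ) : ℂ) * (p (i + 1) - p i) := by
    conv_lhs => rw [hpj]
    rw [add_sub_add_left_eq_sub, ← Finset.sum_sub_distrib]
    apply Finset.sum_congr rfl
    intro i _
    push_cast
    ring
  rw [e3, cross_sum_left]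
  refine (Finset.abs_sum_le_sum_abs _ _).trans ?_
  rw [Finset.mul_sum, Finset.sum_mul]
  apply Finset.sum_le_sum
  intro i _
  rw [cross_smul_left, abs_mul]
  have hη : 0 ≤ (N : ℝ) / 2 ^ m := by positivity
  rcases lt_trichotomy i j with h | h | h
  · rw [if_pos h]
    have h1 : |clamp (y - i) - 1| ≤ (N : ℝ) / 2 ^ m := by
      have h3 : (i : ℝ) + 1 ≤ j := by exact_mod_cast h
      have h4 := clamp_le (y - i)
      rw [abs_sub_comm, abs_of_nonneg (by linarith)]
      rcases le_or_gt (y - i) 1 with h5 | h5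
      · have := le_clamp h5; linarith
      · rw [clamp_one h5.le]; linarith
    calc |clamp (y - i) - 1| * |cross (p (i + 1) - p i) (p (j + 1) - p j)|
        ≤ (N : ℝ) / 2 ^ m * (‖p (i + 1) - p i‖ * ‖p (j + 1) - p j‖) :=
          mul_le_mul h1 (cross_le _ _) (abs_nonneg _) hη
      _ = _ := by ring
  · rw [h, cross_self]; simp; positivity
  · rw [if_neg (by omega)]
    have h3 : (j : ℝ) + 1 ≤ i := by exact_mod_cast h
    rw [clamp_zero (by linarith)]
    simp; positivity

theorem area_pl (N : ℕ) (p : ℕ → ℂ) :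
    area (pl N p) = (1 / 2) * ∑ k ∈ Finset.range N, cross (p k) (p (k + 1)) := by
  apply Tendsto.limUnder_eq
  set S := ∑ i ∈ Finset.range N, ‖p (i + 1) - p i‖ with hS
  have hS0 : 0 ≤ S := Finset.sum_nonneg fun _ _ => norm_nonneg _
  have hb : ∀ m, |areaN (pl N p) m - (1 / 2) * ∑ k ∈ Finset.range N, cross (p k) (p (k + 1))| ≤
      (N * S ^ 2) * (1 / 2) ^ m := by
    intro m
    have h2m : (0 : ℝ) < 2 ^ m := by positivity
    have e1 : areaN (pl N p) m = (1 / 2) * ∑ j ∈ Finset.range N, ∑ k ∈ Finset.range (2 ^ m),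
        Dl N m k j * cross (at' (pl N p) (k / 2 ^ m)) (p (j + 1) - p j) := by
      unfold areaN
      rw [Finset.sum_comm]
      congr 1
      apply Finset.sum_congr rfl
      intro k hk
      have hk' : k < 2 ^ m := Finset.mem_range.1 hk
      have hx1 : (k : ℝ) / 2 ^ m ≤ 1 := by
        rw [div_le_one h2m]; exact_mod_cast hk'.le
      have hx2 : ((k + 1 : ℕ) : ℝ) / 2 ^ m ≤ 1 := by
        rw [div_le_one h2m]; exact_mod_cast hk'
      have e2 : at' (pl N p) ((k + 1 : ℕ) / 2 ^ m) - at' (pl N p) (k / 2 ^ m) =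
          ∑ j ∈ Finset.range N, ((Dl N m k j : ℝ) : ℂ) * (p (j + 1) - p j) := by
        rw [pl_at N p (by positivity) hx1, pl_at N p (by positivity) hx2,
          add_sub_add_left_eq_sub, ← Finset.sum_sub_distrib]
        apply Finset.sum_congr rfl
        intro j _
        unfold Dl
        push_cast
        ring
      have e3 : cross (at' (pl N p) (k / 2 ^ m)) (at' (pl N p) ((k + 1 : ℕ) / 2 ^ m)) =
          cross (at' (pl N p) (k / 2 ^ m))
            (at' (pl N p) ((k + 1 : ℕ) / 2 ^ m) - at' (pl N p) (k / 2 ^ m)) := by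
        rw [cross_sub_right, cross_self, sub_zero]
      rw [e3, e2, cross_sum_right]
      apply Finset.sum_congr rfl
      intro j _
      rw [cross_smul_right]
    have e4 : ∑ k ∈ Finset.range N, cross (p k) (p (k + 1)) =
        ∑ j ∈ Finset.range N, ∑ k ∈ Finset.range (2 ^ m),
          Dl N m k j * cross (p j) (p (j + 1) - p j) := by
      apply Finset.sum_congr rfl
      intro j hj
      rw [← Finset.sum_mul, Dl_sum (Finset.mem_range.1 hj), one_mul, cross_sub_right, cross_self,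
        sub_zero]
    rw [e1, e4, ← mul_sub, ← Finset.sum_sub_distrib]
    rw [abs_mul, show |(1 / 2 : ℝ)| = 1 / 2 by norm_num]
    have h5 : |∑ j ∈ Finset.range N, (∑ k ∈ Finset.range (2 ^ m),
        Dl N m k j * cross (at' (pl N p) (k / 2 ^ m)) (p (j + 1) - p j) -
        ∑ k ∈ Finset.range (2 ^ m), Dl N m k j * cross (p j) (p (j + 1) - p j))| ≤
        ∑ j ∈ Finset.range N, (N : ℝ) / 2 ^ m * S * ‖p (j + 1) - p j‖ := by
      refine (Finset.abs_sum_le_sum_abs _ _).trans (Finset.sum_le_sum fun j hj => ?_)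
      rw [← Finset.sum_sub_distrib]
      refine (Finset.abs_sum_le_sum_abs _ _).trans ?_
      calc ∑ k ∈ Finset.range (2 ^ m), |Dl N m k j * cross (at' (pl N p) (k / 2 ^ m))
            (p (j + 1) - p j) - Dl N m k j * cross (p j) (p (j + 1) - p j)|
          ≤ ∑ k ∈ Finset.range (2 ^ m), Dl N m k j * ((N : ℝ) / 2 ^ m * S *
              ‖p (j + 1) - p j‖) := by
            apply Finset.sum_le_sum
            intro k hk
            rw [← mul_sub]
            exact key_term N p (Finset.mem_range.1 hk) (Finset.mem_range.1 hj)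
        _ = _ := by rw [← Finset.sum_mul, Dl_sum (Finset.mem_range.1 hj), one_mul]
    rw [← Finset.mul_sum, ← hS] at h5
    have h6 : (N : ℝ) / 2 ^ m * S * S = (N * S ^ 2) * (1 / 2) ^ m := by
      rw [one_div, inv_pow]; field_simp
    rw [h6] at h5
    have h7 : 0 ≤ (N * S ^ 2) * (1 / 2 : ℝ) ^ m := by positivity
    linarith
  rw [tendsto_iff_norm_sub_tendsto_zero]
  refine squeeze_zero (fun _ => norm_nonneg _) hb ?_
  have := (tendsto_pow_atTop_nhds_zero_of_lt_one (show (0:ℝ) ≤ 1/2 by norm_num)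
    (by norm_num)).const_mul (N * S ^ 2)
  simpa using this

end Q294.Area
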