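import Pool.Agent.Q294.Area
import Pool.Agent.H984R4.NP.Model

/-!
Weak convergence of curves which are uniformly Hölder continuous of exponent `> 1/2` implies the
joint weak convergence of the curves and their areas.
-/

set_option autoImplicit false

namespace Q294.Area

open MeasureTheory Filter Topology H984N
open scoped ENNReal

theorem areaN_cont (m : ℕ) : Continuous (fun γ : C(unitInterval, ℂ) => areaN γ m) := by
  unfold areaN at' cross
  fun_prop

theorem area_meas : Measurable (fun p : X => area p.1) := by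
  have h : StronglyMeasurable (fun p : X => limUnder atTop (fun m => areaN p.1 m)) :=
    StronglyMeasurable.limUnder (fun m => ((areaN_cont m).comp continuous_fst).stronglyMeasurable)
  exact h.measurable

theorem hol_closed (Λ : ℝ) : IsClosed {p : X | Hol Λ p.1} := by
  have : {p : X | Hol Λ p.1} = ⋂ (s : unitInterval) (t : unitInterval),
      {p : X | dist (p.1 s) (p.1 t) ≤ Λ * |(s : ℝ) - t| ^ (11/20 : ℝ)} := by
    ext p; simp only [Hol, Set.mem_iInter]; rfl
  rw [this]
  refine isClosed_iInter fun s => isClosed_iInter fun t => isClosed_le ?_ continuous_const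
  fun_prop

theorem one_law (ν : ProbabilityMeasure X) {g : X × ℝ → ℝ} (hg1 : ∀ x, |g x| ≤ 1)
    (hgL : LipschitzWith 1 g) {Λ ε : ℝ} (hΛ : 0 ≤ Λ) (hε : 0 ≤ ε)
    (hν : (ν : Measure X) {p | Hol Λ p.1}ᶜ ≤ ENNReal.ofReal ε) {m : ℕ}
    (hm : Λ ^ 2 / (1 - rr) * rr ^ m ≤ ε) :
    |∫ p, g (p, area p.1) ∂(ν : Measure X) - ∫ p, g (p, areaN p.1 m) ∂(ν : Measure X)| ≤
      3 * ε := by
  have hgm : Measurable g := hgL.continuous.measurable
  have hF : Measurable (fun p : X => g (p, area p.1)) :=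
    hgm.comp (measurable_id.prodMk area_meas)
  have hFm : Measurable (fun p : X => g (p, areaN p.1 m)) :=
    hgm.comp (measurable_id.prodMk ((areaN_cont m).comp continuous_fst).measurable)
  have hi1 : Integrable (fun p : X => g (p, area p.1)) (ν : Measure X) :=
    Integrable.of_bound hF.aestronglyMeasurable 1 (Eventually.of_forall fun p => hg1 _)
  have hi2 : Integrable (fun p : X => g (p, areaN p.1 m)) (ν : Measure X) :=
    Integrable.of_bound hFm.aestronglyMeasurable 1 (Eventually.of_forall fun p => hg1 _)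
  rw [← integral_sub hi1 hi2]
  have hH : MeasurableSet {p : X | Hol Λ p.1} := (hol_closed Λ).measurableSet
  have hpt : ∀ p : X, ‖g (p, area p.1) - g (p, areaN p.1 m)‖ ≤
      ε + Set.indicator {p : X | Hol Λ p.1}ᶜ (fun _ => (2 : ℝ)) p := by
    intro p
    by_cases hp : Hol Λ p.1
    · have h1 : p ∉ {p : X | Hol Λ p.1}ᶜ := fun h => h hp
      rw [Set.indicator_of_notMem h1, add_zero]
      have h2 := hgL.dist_le_mul (p, area p.1) (p, areaN p.1 m)
      rw [NNReal.coe_one, one_mul, Prod.dist_eq, dist_self] at h2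
      have h3 := (converge hΛ hp).2 m
      rw [← Real.dist_eq] at h3
      rw [← dist_eq_norm]
      refine h2.trans ?_
      exact max_le hε (h3.trans hm)
    · rw [Set.indicator_of_mem (show p ∈ {p : X | Hol Λ p.1}ᶜ from hp)]
      have h1 := hg1 (p, area p.1)
      have h2 := hg1 (p, areaN p.1 m)
      rw [Real.norm_eq_abs]
      have h3 := abs_sub (g (p, area p.1)) (g (p, areaN p.1 m))
      linarith
  have hint : Integrable (fun p : X => ε + Set.indicator {p : X | Hol Λ p.1}ᶜ
      (fun _ => (2 : ℝ)) p) (ν : Measure X) :=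
    (integrable_const _).add ((integrable_const _).indicator hH.compl)
  rw [← Real.norm_eq_abs]
  refine (norm_integral_le_of_norm_le hint (Eventually.of_forall hpt)).trans ?_
  have hsplit : ∫ x : X, (ε + Set.indicator {p : X | Hol Λ p.1}ᶜ (fun _ => (2 : ℝ)) x)
      ∂(ν : Measure X) = ∫ _x : X, ε ∂(ν : Measure X) +
        ∫ x : X, Set.indicator {p : X | Hol Λ p.1}ᶜ (fun _ => (2 : ℝ)) x ∂(ν : Measure X) :=
    integral_add (integrable_const _) ((integrable_const _).indicator hH.compl)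
  rw [hsplit, integral_indicator_const _ hH.compl, integral_const]
  have h4 : (ν : Measure X).real {p : X | Hol Λ p.1}ᶜ ≤ ε := by
    unfold Measure.real
    calc ((ν : Measure X) {p : X | Hol Λ p.1}ᶜ).toReal ≤ (ENNReal.ofReal ε).toReal :=
          ENNReal.toReal_mono ENNReal.ofReal_ne_top hν
      _ = ε := ENNReal.toReal_ofReal hε
  simp only [probReal_univ, smul_eq_mul]
  linarith

theorem weak_area {ν : ℕ → ProbabilityMeasure X} {μ : ProbabilityMeasure X}
    (h : Tendsto ν atTop (𝓝 μ))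
    (hT : ∀ ε : ℝ, 0 < ε → ∃ Λ : ℝ, 0 ≤ Λ ∧
      ∀ᶠ i in atTop, (ν i : Measure X) {p | Hol Λ p.1}ᶜ ≤ ENNReal.ofReal ε)
    {g : X × ℝ → ℝ} (hg1 : ∀ x, |g x| ≤ 1) (hgL : LipschitzWith 1 g) :
    Tendsto (fun i => ∫ p, g (p, area p.1) ∂(ν i : Measure X)) atTop
      (𝓝 (∫ p, g (p, area p.1) ∂(μ : Measure X))) := by
  rw [Metric.tendsto_atTop]
  intro ε hε
  obtain ⟨Λ, hΛ, hev⟩ := hT (ε / 8) (by linarith)
  have hμ : (μ : Measure X) {p | Hol Λ p.1}ᶜ ≤ ENNReal.ofReal (ε / 8) := by
    refine (ProbabilityMeasure.le_liminf_measure_open_of_tendsto h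
      (hol_closed Λ).isOpen_compl).trans ?_
    exact liminf_le_of_frequently_le' hev.frequently
  have hgeo : Tendsto (fun m : ℕ => Λ ^ 2 / (1 - rr) * rr ^ m) atTop (𝓝 0) := by
    have := (tendsto_pow_atTop_nhds_zero_of_lt_one rr_pos.le rr_lt).const_mul (Λ ^ 2 / (1 - rr))
    simpa using this
  obtain ⟨m, hm⟩ := (hgeo.eventually (gt_mem_nhds (show (0:ℝ) < ε / 8 by linarith))).exists
  let F : BoundedContinuousFunction X ℝ := BoundedContinuousFunction.ofNormedAddCommGroup
    (fun p : X => g (p, areaN p.1 m))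
    (hgL.continuous.comp (continuous_id.prodMk ((areaN_cont m).comp continuous_fst))) 1
    (fun p => hg1 _)
  have hF := (ProbabilityMeasure.tendsto_iff_forall_integral_tendsto.1 h) F
  obtain ⟨n0, hn0⟩ := Metric.tendsto_atTop.1 hF (ε / 8) (by linarith)
  obtain ⟨n1, hn1⟩ := eventually_atTop.1 hev
  refine ⟨max n0 n1, fun n hn => ?_⟩
  have h1 := one_law (ν n) hg1 hgL hΛ (by linarith) (hn1 n ((le_max_right _ _).trans hn)) hm.le
  have h2 := one_law μ hg1 hgL hΛ (by linarith) hμ hm.le
  have h3 := hn0 n ((le_max_left _ _).trans hn)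
  rw [Real.dist_eq] at h3 ⊢
  have e1 : ∀ ρ : ProbabilityMeasure X, ∫ p, F p ∂(ρ : Measure X) =
      ∫ p, g (p, areaN p.1 m) ∂(ρ : Measure X) := fun ρ => rfl
  rw [e1, e1] at h3
  rw [abs_le] at h1 h2
  rw [abs_lt] at h3 ⊢
  constructor <;> linarith [h1.1, h1.2, h2.1, h2.2, h3.1, h3.2]

end Q294.Area
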