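import Pool.Agent.TH966.AK.Conv

/-!
# Approximate logarithmic convexity for weights which change little under the downward moves
-/

set_option autoImplicit false

namespace Q294.Av

open Finset Filter Topology TH966.AK
open scoped Classical

noncomputable section

variable {α σ : Type} (Y : Sys α σ)

/-- nonnegative weights which change little under the downward moves -/
def AW (κ : ℝ) (f : α → ℝ) : Prop :=
  (∀ n w, w ∈ Y.K n → 0 ≤ f w) ∧
  ∀ n w, Y.n0 ≤ n → w ∈ Y.K (n + Y.s) → ∑ q ∈ Y.B w, |f (Y.rem w q) - f w| ≤ κ * f w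

variable {f : α → ℝ} {κ : ℝ}

theorem af_nonneg (hf : AW Y κ f) (n : ℕ) : 0 ≤ Y.af f n :=
  Finset.sum_nonneg fun w hw => hf.1 n w hw

/-- upper bound for `af f (n + s)` -/
theorem upperA (hκ : 0 ≤ κ) (hf : AW Y κ f) (M n : ℕ) (hn0 : Y.n0 ≤ n) (hn : 4 * M * Y.C ≤ n)
    (hn1 : 1 ≤ n) :
    Y.af f (n + Y.s) ≤ (Y.badf f M (n + Y.s) + Y.C * (n + 1) * Y.badf f M n) +
      κ * M / n * Y.af f (n + Y.s) +
      ∑ w ∈ (Y.K n).filter (Y.good M n),
        f w * (((Y.S w).card : ℝ) / (((Y.B w).card : ℝ) - Y.C)) := by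
  have hnR : (0 : ℝ) < n := by exact_mod_cast hn1
  obtain ⟨F, hF⟩ : ∃ F : α → α → ℝ, F =
    fun w w' => f w * (if Y.good M (n + Y.s) w' then 1 / ((Y.B w').card : ℝ) else 0) := ⟨_, rfl⟩
  have hFa : ∀ w w', F w w' =
      f w * (if Y.good M (n + Y.s) w' then 1 / ((Y.B w').card : ℝ) else 0) := fun w w' => by
    rw [hF]
  have hS := Y.sum_eq n hn0 F
  have h1 : Y.af f (n + Y.s) ≤ Y.badf f M (n + Y.s) + κ * M / n * Y.af f (n + Y.s) +
      ∑ w ∈ Y.K (n + Y.s), ∑ j ∈ Y.B w, F (Y.rem w j) w := by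
    have e2 : Y.badf f M (n + Y.s) =
        ∑ w ∈ Y.K (n + Y.s), (if ¬ Y.good M (n + Y.s) w then f w else 0) := by
      unfold Sys.badf Sys.bad
      rw [← sum_filter]
      refine Finset.sum_congr ?_ fun _ _ => rfl
      apply filter_congr
      intro w _
      rw [Sys.not_good]
    unfold Sys.af
    rw [e2, mul_sum, ← sum_add_distrib, ← sum_add_distrib]
    apply sum_le_sum
    intro w hw
    have hw0 := hf.1 _ w hw
    by_cases hg : Y.good M (n + Y.s) w
    · have hb : 0 < (Y.B w).card := by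
        have h2 := Y.big (show 4 * M * Y.C ≤ n + Y.s by omega) hg.2
        omega
      have hbR : (0 : ℝ) < (Y.B w).card := by exact_mod_cast hb
      rw [if_neg (not_not.mpr hg), zero_add]
      simp only [hFa, if_pos hg]
      have h3 : f w = ∑ _j ∈ Y.B w, f w * (1 / ((Y.B w).card : ℝ)) := by
        rw [← mul_sum, Y.sum_inv_eq w hb, mul_one]
      have h4 : ∑ _j ∈ Y.B w, f w * (1 / ((Y.B w).card : ℝ)) ≤
          ∑ j ∈ Y.B w, (|f (Y.rem w j) - f w| * (1 / ((Y.B w).card : ℝ)) +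
            f (Y.rem w j) * (1 / ((Y.B w).card : ℝ))) := by
        apply sum_le_sum
        intro j _
        rw [← add_mul]
        refine mul_le_mul_of_nonneg_right ?_ (one_div_nonneg.2 hbR.le)
        have := abs_le.1 (le_refl |f (Y.rem w j) - f w|)
        linarith
      rw [sum_add_distrib, ← h3, ← sum_mul] at h4
      have h5 : (∑ j ∈ Y.B w, |f (Y.rem w j) - f w|) * (1 / ((Y.B w).card : ℝ)) ≤
          κ * M / n * f w := by
        have h6 := hf.2 n w hn0 hw
        have h7 : 1 / ((Y.B w).card : ℝ) ≤ M / n := by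
          rw [div_le_div_iff₀ hbR hnR, one_mul]
          have h8 := hg.2
          have h9 : n ≤ M * (Y.B w).card := by omega
          exact_mod_cast h9
        calc (∑ j ∈ Y.B w, |f (Y.rem w j) - f w|) * (1 / ((Y.B w).card : ℝ)) ≤
              (κ * f w) * (M / n) := by
              refine mul_le_mul h6 h7 (one_div_nonneg.2 hbR.le) (mul_nonneg hκ hw0)
          _ = κ * M / n * f w := by ring
      linarith
    · rw [if_pos hg]
      simp only [hFa, if_neg hg]
      have h6 : 0 ≤ κ * M / n * f w := by positivity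
      simp only [mul_zero, sum_const_zero, add_zero]
      linarith
  rw [← hS] at h1
  refine h1.trans ?_
  have h2 : ∀ w ∈ Y.K n, ∑ q ∈ Y.S w, F w (Y.ins w q) ≤
      (if ¬ Y.good M n w then (Y.C * (n + 1) : ℝ) * f w else 0) +
        (if Y.good M n w then
          f w * (((Y.S w).card : ℝ) / (((Y.B w).card : ℝ) - Y.C)) else 0) := by
    intro w hw
    have hw0 := hf.1 _ w hw
    have hFe : ∀ q ∈ Y.S w, F w (Y.ins w q) =
        f w * (if Y.good M (n + Y.s) (Y.ins w q) then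
          1 / ((Y.B (Y.ins w q)).card : ℝ) else 0) := by
      intro q hq
      rw [hFa]
    rw [sum_congr rfl hFe, ← mul_sum]
    by_cases hg : Y.good M n w
    · rw [if_neg (not_not.mpr hg), if_pos hg, zero_add]
      refine mul_le_mul_of_nonneg_left ?_ hw0
      have hb := Y.big hn hg.2
      have hb' : (4 * Y.C : ℝ) < (Y.B w).card := by exact_mod_cast hb
      have hC : (1 : ℝ) ≤ Y.C := by exact_mod_cast Y.hC
      have : ∀ q ∈ Y.S w, (if Y.good M (n + Y.s) (Y.ins w q) then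
          1 / ((Y.B (Y.ins w q)).card : ℝ) else 0) ≤ 1 / (((Y.B w).card : ℝ) - Y.C) := by
        intro q hq
        have := Y.chB1 n w q hw hq
        have h3 : ((Y.B w).card : ℝ) ≤ (Y.B (Y.ins w q)).card + Y.C := by exact_mod_cast this
        split_ifs
        · apply one_div_le_one_div_of_le <;> linarith
        · apply one_div_nonneg.mpr; linarith
      refine (sum_le_sum this).trans ?_
      rw [sum_const, nsmul_eq_mul, mul_one_div]
    · rw [if_pos hg, if_neg hg, add_zero, mul_comm ((Y.C : ℝ) * (n + 1))]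
      refine mul_le_mul_of_nonneg_left ?_ hw0
      have hle : ∀ q ∈ Y.S w, (if Y.good M (n + Y.s) (Y.ins w q) then
          1 / ((Y.B (Y.ins w q)).card : ℝ) else 0) ≤ 1 := by
        intro q _
        split_ifs
        · exact Sys.inv_le_one _
        · norm_num
      refine (sum_le_sum hle).trans ?_
      rw [sum_const, nsmul_eq_mul, mul_one]
      exact_mod_cast Y.S_le n w hw
  have h3 := sum_le_sum h2
  rw [sum_add_distrib, ← sum_filter, ← sum_filter, ← mul_sum] at h3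
  have h4 : ∑ w ∈ (Y.K n).filter (fun w => ¬ Y.good M n w), f w = Y.badf f M n := by
    unfold Sys.badf Sys.bad
    refine Finset.sum_congr ?_ fun _ _ => rfl
    apply filter_congr
    intro w _
    rw [Sys.not_good]
  rw [h4] at h3
  linarith

/-- the error factor of the lower bound -/
theorem lowerA (hf : AW Y κ f) (M n : ℕ) (hM : 1 ≤ M) (hn0 : Y.n0 ≤ n)
    (hn : 4 * M * Y.C ≤ n) (hns : Y.s + 1 ≤ n) :
    ∑ w ∈ (Y.K n).filter (Y.good M n), f w * (((Y.S w).card : ℝ) * (((Y.S w).card : ℝ) - Y.C) /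
      ((((Y.B w).card : ℝ) + Y.C) * (((Y.B w).card : ℝ) + 2 * Y.C))) ≤
      (1 + 2 * κ * M / n) * Y.af f (n + Y.s + Y.s) +
        8 * Y.C * M ^ 2 * κ / n * Y.af f (n + Y.s) := by
  have hnR : (0 : ℝ) < n := by
    have : 0 < n := by omega
    exact_mod_cast this
  have hMR : (1 : ℝ) ≤ M := by exact_mod_cast hM
  have hCR : (1 : ℝ) ≤ Y.C := by exact_mod_cast Y.hC
  have hnR4 : 4 * (M : ℝ) * Y.C ≤ n := by exact_mod_cast hn
  obtain ⟨h, hh⟩ : ∃ h : α → ℝ, h = fun w' =>
    ∑ j ∈ Y.B w', (if Y.good M n (Y.rem w' j) then (1 / ((Y.B w').card : ℝ)) else 0) := ⟨_, rfl⟩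
  obtain ⟨g, hg⟩ : ∃ g : α → ℝ, g = fun w' =>
    ∑ q ∈ Y.S w', (1 / ((Y.B (Y.ins w' q)).card : ℝ)) := ⟨_, rfl⟩
  have h_nonneg : ∀ w, 0 ≤ h w := by
    intro w; rw [hh]; apply sum_nonneg; intro j _; split_ifs <;> positivity
  have g_nonneg : ∀ w, 0 ≤ g w := by
    intro w; rw [hg]; apply sum_nonneg; intro j _; positivity
  have h_le : ∀ w, h w ≤ 1 := by
    intro w
    rw [hh]
    refine le_trans ?_ (Y.sum_inv_le w)
    apply sum_le_sum
    intro j _
    split_ifs
    · exact le_rfl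
    · positivity
  -- many moves after a good object
  have hbB : ∀ w', w' ∈ Y.K (n + Y.s) → ∀ j ∈ Y.B w', Y.good M n (Y.rem w' j) →
      3 * (n : ℝ) / (4 * M) ≤ (Y.B w').card := by
    intro w' hw' j hj hgd
    have k1 := Y.rem_K n w' j hn0 hw' hj
    have k2 := Y.rem_S n w' j hn0 hw' hj
    have k3 := Y.ins_rem n w' j hn0 hw' hj
    have k4 := Y.chB1 n _ j k1 k2
    rw [k3] at k4
    have k5 := hgd.2
    have k4' : ((Y.B (Y.rem w' j)).card : ℝ) ≤ (Y.B w').card + Y.C := by exact_mod_cast k4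
    have k5' : (n : ℝ) < M * (Y.B (Y.rem w' j)).card := by exact_mod_cast k5
    rw [div_le_iff₀ (by positivity)]
    nlinarith
  have hbh : ∀ w', w' ∈ Y.K (n + Y.s) → h w' ≠ 0 → 3 * (n : ℝ) / (4 * M) ≤ (Y.B w').card := by
    intro w' hw' hne
    by_contra hcon
    apply hne
    rw [hh]
    apply sum_eq_zero
    intro j hj
    rw [if_neg]
    intro hgd
    exact hcon (hbB w' hw' j hj hgd)
  have s1 : ∑ w ∈ Y.K (n + Y.s + Y.s), ∑ j ∈ Y.B w,
      f (Y.rem w j) * (h (Y.rem w j) * (1 / ((Y.B w).card : ℝ))) ≤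
      (1 + 2 * κ * M / n) * Y.af f (n + Y.s + Y.s) := by
    unfold Sys.af
    rw [mul_sum]
    apply sum_le_sum
    intro w hw
    have hw0 := hf.1 _ w hw
    have t1 : ∀ j ∈ Y.B w, f (Y.rem w j) * (h (Y.rem w j) * (1 / ((Y.B w).card : ℝ))) ≤
        f w * (1 / ((Y.B w).card : ℝ)) + |f (Y.rem w j) - f w| * (2 * M / n) := by
      intro j hj
      have hw' := Y.rem_K (n + Y.s) w j (by omega) hw hj
      have hx0 : 0 ≤ h (Y.rem w j) * (1 / ((Y.B w).card : ℝ)) :=
        mul_nonneg (h_nonneg _) (by positivity)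
      have hx1 : h (Y.rem w j) * (1 / ((Y.B w).card : ℝ)) ≤ 1 / ((Y.B w).card : ℝ) := by
        calc h (Y.rem w j) * (1 / ((Y.B w).card : ℝ)) ≤ 1 * (1 / ((Y.B w).card : ℝ)) :=
              mul_le_mul_of_nonneg_right (h_le _) (by positivity)
          _ = _ := one_mul _
      have hx2 : h (Y.rem w j) * (1 / ((Y.B w).card : ℝ)) ≤ 2 * M / n := by
        by_cases h0 : h (Y.rem w j) = 0
        · rw [h0, zero_mul]; positivity
        · refine hx1.trans ?_
          have k1 := hbh _ hw' h0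
          have k2 := Y.rem_S (n + Y.s) w j (by omega) hw hj
          have k3 := Y.ins_rem (n + Y.s) w j (by omega) hw hj
          have k4 := Y.chB1 _ _ j hw' k2
          rw [k3] at k4
          have k4' : ((Y.B (Y.rem w j)).card : ℝ) ≤ (Y.B w).card + Y.C := by exact_mod_cast k4
          have k5 : (n : ℝ) / (2 * M) ≤ (Y.B w).card := by
            rw [div_le_iff₀ (by positivity)] at k1 ⊢
            nlinarith
          have k6 : 0 < (n : ℝ) / (2 * M) := by positivity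
          calc 1 / ((Y.B w).card : ℝ) ≤ 1 / ((n : ℝ) / (2 * M)) :=
                one_div_le_one_div_of_le k6 k5
            _ = 2 * M / n := by rw [one_div_div]
      have e : f (Y.rem w j) = f w + (f (Y.rem w j) - f w) := by ring
      calc f (Y.rem w j) * (h (Y.rem w j) * (1 / ((Y.B w).card : ℝ))) =
            f w * (h (Y.rem w j) * (1 / ((Y.B w).card : ℝ))) +
            (f (Y.rem w j) - f w) * (h (Y.rem w j) * (1 / ((Y.B w).card : ℝ))) := by ring
        _ ≤ f w * (1 / ((Y.B w).card : ℝ)) +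
            |f (Y.rem w j) - f w| * (h (Y.rem w j) * (1 / ((Y.B w).card : ℝ))) :=
            add_le_add (mul_le_mul_of_nonneg_left hx1 hw0)
              (mul_le_mul_of_nonneg_right (le_abs_self _) hx0)
        _ ≤ _ := add_le_add le_rfl (mul_le_mul_of_nonneg_left hx2 (abs_nonneg _))
    refine (sum_le_sum t1).trans ?_
    rw [sum_add_distrib, ← mul_sum, ← sum_mul]
    have t2 : f w * ∑ _i ∈ Y.B w, 1 / ((Y.B w).card : ℝ) ≤ f w * 1 :=
      mul_le_mul_of_nonneg_left (Y.sum_inv_le w) hw0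
    have t3 : (∑ j ∈ Y.B w, |f (Y.rem w j) - f w|) * (2 * M / n) ≤ (κ * f w) * (2 * M / n) :=
      mul_le_mul_of_nonneg_right (hf.2 (n + Y.s) w (by omega) hw) (by positivity)
    calc _ ≤ f w * 1 + (κ * f w) * (2 * M / n) := add_le_add t2 t3
      _ = _ := by ring
  have s2 := Y.sum_eq (n + Y.s) (by omega)
    (fun w' w'' => f w' * (h w' * (1 / ((Y.B w'').card : ℝ))))
  have s3 := Y.sum_eq n hn0
    (fun w w' => f w * ((if Y.good M n w then (1 / ((Y.B w').card : ℝ)) else 0) * g w'))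
  have s4 : ∑ w ∈ Y.K (n + Y.s), ∑ q ∈ Y.S w, f w *
      (h w * (1 / ((Y.B (Y.ins w q)).card : ℝ))) =
      ∑ w ∈ Y.K (n + Y.s), ∑ j ∈ Y.B w,
        f w * ((if Y.good M n (Y.rem w j) then (1 / ((Y.B w).card : ℝ)) else 0) * g w) := by
    apply sum_congr rfl
    intro w hw
    rw [← mul_sum, ← mul_sum, ← mul_sum, ← sum_mul, hg, hh]
  -- the error
  have s5 : ∑ w ∈ Y.K (n + Y.s), ∑ j ∈ Y.B w,
        f (Y.rem w j) * ((if Y.good M n (Y.rem w j) then (1 / ((Y.B w).card : ℝ)) else 0) * g w) ≤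
      ∑ w ∈ Y.K (n + Y.s), ∑ j ∈ Y.B w,
        f w * ((if Y.good M n (Y.rem w j) then (1 / ((Y.B w).card : ℝ)) else 0) * g w) +
      8 * Y.C * M ^ 2 * κ / n * Y.af f (n + Y.s) := by
    unfold Sys.af
    rw [mul_sum, ← sum_add_distrib]
    apply sum_le_sum
    intro w hw
    have hw0 := hf.1 _ w hw
    have t1 : ∀ j ∈ Y.B w,
        f (Y.rem w j) * ((if Y.good M n (Y.rem w j) then (1 / ((Y.B w).card : ℝ)) else 0) * g w) ≤
        f w * ((if Y.good M n (Y.rem w j) then (1 / ((Y.B w).card : ℝ)) else 0) * g w) +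
          |f (Y.rem w j) - f w| * (8 * Y.C * M ^ 2 / n) := by
      intro j hj
      by_cases hgd : Y.good M n (Y.rem w j)
      · rw [if_pos hgd]
        have k1 := hbB w hw j hj hgd
        have hn3 : 0 < 3 * (n : ℝ) / (4 * M) := by positivity
        have hBpos : (0 : ℝ) < (Y.B w).card := by linarith
        have hgw : g w ≤ 4 * Y.C * M := by
          rw [hg]
          have k2 : ∀ q ∈ Y.S w, 1 / ((Y.B (Y.ins w q)).card : ℝ) ≤ 2 * M / n := by
            intro q hq
            have k3 := Y.chB1 _ w q hw hq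
            have k3' : ((Y.B w).card : ℝ) ≤ (Y.B (Y.ins w q)).card + Y.C := by exact_mod_cast k3
            have k5 : (n : ℝ) / (2 * M) ≤ (Y.B (Y.ins w q)).card := by
              rw [div_le_iff₀ (by positivity)] at k1 ⊢
              nlinarith
            have k6 : 0 < (n : ℝ) / (2 * M) := by positivity
            calc 1 / ((Y.B (Y.ins w q)).card : ℝ) ≤ 1 / ((n : ℝ) / (2 * M)) :=
                  one_div_le_one_div_of_le k6 k5
              _ = 2 * M / n := by rw [one_div_div]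
          refine (sum_le_sum k2).trans ?_
          rw [sum_const, nsmul_eq_mul]
          have k7 := Y.S_le _ w hw
          have k8 : (Y.S w).card ≤ Y.C * (2 * n) :=
            k7.trans (Nat.mul_le_mul_left _ (by omega))
          have k8' : ((Y.S w).card : ℝ) ≤ Y.C * (2 * n) := by exact_mod_cast k8
          calc ((Y.S w).card : ℝ) * (2 * M / n) ≤ (Y.C * (2 * n)) * (2 * M / n) :=
                mul_le_mul_of_nonneg_right k8' (by positivity)
            _ = 4 * Y.C * M := by field_simp; ring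
        have hb1 : 1 / ((Y.B w).card : ℝ) ≤ 2 * M / n := by
          rw [div_le_div_iff₀ hBpos hnR, one_mul]
          rw [div_le_iff₀ (by positivity)] at k1
          nlinarith
        have hx : 1 / ((Y.B w).card : ℝ) * g w ≤ 8 * Y.C * M ^ 2 / n := by
          calc 1 / ((Y.B w).card : ℝ) * g w ≤ (2 * M / n) * (4 * Y.C * M) :=
                mul_le_mul hb1 hgw (g_nonneg w) (by positivity)
            _ = _ := by ring
        have hx0 : 0 ≤ 1 / ((Y.B w).card : ℝ) * g w := mul_nonneg (by positivity) (g_nonneg w)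
        calc f (Y.rem w j) * (1 / ((Y.B w).card : ℝ) * g w) =
              f w * (1 / ((Y.B w).card : ℝ) * g w) +
              (f (Y.rem w j) - f w) * (1 / ((Y.B w).card : ℝ) * g w) := by ring
          _ ≤ f w * (1 / ((Y.B w).card : ℝ) * g w) +
              |f (Y.rem w j) - f w| * (1 / ((Y.B w).card : ℝ) * g w) :=
              add_le_add le_rfl (mul_le_mul_of_nonneg_right (le_abs_self _) hx0)
          _ ≤ _ := add_le_add le_rfl (mul_le_mul_of_nonneg_left hx (abs_nonneg _))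
      · rw [if_neg hgd, zero_mul, mul_zero, mul_zero, zero_add]
        positivity
    refine (sum_le_sum t1).trans ?_
    rw [sum_add_distrib, ← sum_mul (Y.B w)]
    refine add_le_add le_rfl ?_
    have t3 : (∑ j ∈ Y.B w, |f (Y.rem w j) - f w|) * (8 * Y.C * M ^ 2 / n) ≤
        (κ * f w) * (8 * Y.C * M ^ 2 / n) :=
      mul_le_mul_of_nonneg_right (hf.2 n w hn0 hw) (by positivity)
    refine t3.trans (le_of_eq ?_)
    ring
  rw [← s2, s4] at s1
  rw [← s3] at s5
  have s6 : ∑ w ∈ (Y.K n).filter (Y.good M n), f w *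
      (((Y.S w).card : ℝ) * (((Y.S w).card : ℝ) - Y.C) /
      ((((Y.B w).card : ℝ) + Y.C) * (((Y.B w).card : ℝ) + 2 * Y.C))) ≤
      ∑ w ∈ Y.K n, ∑ q ∈ Y.S w, f w * ((if Y.good M n w then
        (1 / ((Y.B (Y.ins w q)).card : ℝ)) else 0) * g (Y.ins w q)) := by
    rw [sum_filter]
    apply sum_le_sum
    intro w hw
    have hw0 := hf.1 _ w hw
    rw [← mul_sum]
    by_cases hgw : Y.good M n w
    · rw [if_pos hgw]
      refine mul_le_mul_of_nonneg_left ?_ hw0
      simp only [if_pos hgw]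
      have hb := Y.big hn hgw.2
      have hf' := Y.big hn hgw.1
      have hC : (1 : ℝ) ≤ Y.C := by exact_mod_cast Y.hC
      have hb' : (4 * Y.C : ℝ) < (Y.B w).card := by exact_mod_cast hb
      have hf'' : (4 * Y.C : ℝ) < (Y.S w).card := by exact_mod_cast hf'
      have key : ∀ q ∈ Y.S w, (((Y.S w).card : ℝ) - Y.C) /
          ((((Y.B w).card : ℝ) + Y.C) * (((Y.B w).card : ℝ) + 2 * Y.C)) ≤
          (1 / ((Y.B (Y.ins w q)).card : ℝ)) * g (Y.ins w q) := by
        intro q hq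
        have c1 := Y.chS1 n w q hw hq
        have c3 := Y.chB2 n w q hw hq
        have c4 := Y.chB1 n w q hw hq
        have i1 := Y.ins_K n w q hw hq
        obtain ⟨w', hw'⟩ : ∃ w', w' = Y.ins w q := ⟨_, rfl⟩
        rw [← hw'] at c1 c3 c4 i1 ⊢
        have c1' : ((Y.S w).card : ℝ) ≤ (Y.S w').card + Y.C := by exact_mod_cast c1
        have c3' : ((Y.B w').card : ℝ) ≤ (Y.B w).card + Y.C := by exact_mod_cast c3
        have c4' : ((Y.B w).card : ℝ) ≤ (Y.B w').card + Y.C := by exact_mod_cast c4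
        have hpos : (0 : ℝ) < (Y.B w').card := by linarith
        have hg1 : (((Y.S w).card : ℝ) - Y.C) / (((Y.B w).card : ℝ) + 2 * Y.C) ≤ g w' := by
          have : ∀ q' ∈ Y.S w', 1 / (((Y.B w).card : ℝ) + 2 * Y.C) ≤
              (1 / ((Y.B (Y.ins w' q')).card : ℝ)) := by
            intro q' hq'
            have d3 := Y.chB2 _ w' q' i1 hq'
            have d4 := Y.chB1 _ w' q' i1 hq'
            have d3' : ((Y.B (Y.ins w' q')).card : ℝ) ≤ (Y.B w').card + Y.C := by
              exact_mod_cast d3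
            have d4' : ((Y.B w').card : ℝ) ≤ (Y.B (Y.ins w' q')).card + Y.C := by
              exact_mod_cast d4
            apply one_div_le_one_div_of_le <;> linarith
          calc (((Y.S w).card : ℝ) - Y.C) / (((Y.B w).card : ℝ) + 2 * Y.C)
              ≤ ((Y.S w').card : ℝ) * (1 / (((Y.B w).card : ℝ) + 2 * Y.C)) := by
                rw [mul_one_div]
                apply div_le_div_of_nonneg_right <;> linarith
            _ = ∑ q' ∈ Y.S w', 1 / (((Y.B w).card : ℝ) + 2 * Y.C) := by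
                rw [sum_const, nsmul_eq_mul]
            _ ≤ g w' := by rw [hg]; exact sum_le_sum this
        have hb1 : 1 / (((Y.B w).card : ℝ) + Y.C) ≤ (1 / ((Y.B w').card : ℝ)) := by
          apply one_div_le_one_div_of_le <;> linarith
        calc (((Y.S w).card : ℝ) - Y.C) /
              ((((Y.B w).card : ℝ) + Y.C) * (((Y.B w).card : ℝ) + 2 * Y.C))
            = (1 / (((Y.B w).card : ℝ) + Y.C)) *
              ((((Y.S w).card : ℝ) - Y.C) / (((Y.B w).card : ℝ) + 2 * Y.C)) := by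
              field_simp
          _ ≤ (1 / ((Y.B w').card : ℝ)) * g w' := by
              apply mul_le_mul hb1 hg1
              · apply div_nonneg <;> linarith
              · positivity
      calc ((Y.S w).card : ℝ) * (((Y.S w).card : ℝ) - Y.C) /
            ((((Y.B w).card : ℝ) + Y.C) * (((Y.B w).card : ℝ) + 2 * Y.C))
          = ∑ q ∈ Y.S w, (((Y.S w).card : ℝ) - Y.C) /
            ((((Y.B w).card : ℝ) + Y.C) * (((Y.B w).card : ℝ) + 2 * Y.C)) := by
            rw [sum_const, nsmul_eq_mul, ← mul_div_assoc]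
        _ ≤ _ := sum_le_sum key
    · rw [if_neg hgw]
      refine mul_nonneg hw0 ?_
      apply sum_nonneg
      intro q _
      rw [if_neg hgw, zero_mul]
  linarith

/-- approximate logarithmic convexity, uniformly in the weight -/
theorem convexA (M : ℕ) (hM : 1 ≤ M) (μ θ θ₁ C' κ : ℝ) (hμ : 0 < μ) (hθ : 0 < θ) (hθ₁ : θ < θ₁)
    (hκ : 0 ≤ κ) (hB : ∀ n w, w ∈ Y.K n → (Y.B w).card ≤ Y.C * (n + 1)) :
    ∃ D : ℝ, 0 ≤ D ∧ ∀ᶠ n : ℕ in atTop, ∀ f : α → ℝ, AW Y κ f →
    (∀ n : ℕ, Y.badf f M n ≤ C' * (θ * μ) ^ n) →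
    (θ₁ * μ) ^ (n + Y.s) ≤ Y.af f (n + Y.s) →
    Y.af f (n + Y.s) ^ 2 ≤ Y.af f n * Y.af f (n + Y.s + Y.s) * (1 + D / n) := by
  have hCR : (1 : ℝ) ≤ Y.C := by exact_mod_cast Y.hC
  have hMR : (1 : ℝ) ≤ M := by exact_mod_cast hM
  obtain ⟨c1, hc1⟩ : ∃ c1 : ℝ, c1 = 2 * Y.C * M := ⟨_, rfl⟩
  obtain ⟨c2, hc2⟩ : ∃ c2 : ℝ, c2 = 4 * Y.C * M + 8 * Y.C * M ^ 2 * κ * (4 * Y.C * M) := ⟨_, rfl⟩
  obtain ⟨c3, hc3⟩ : ∃ c3 : ℝ, c3 = 1 + κ * M := ⟨_, rfl⟩
  have hc10 : 0 ≤ c1 := by rw [hc1]; positivity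
  have hc20 : 0 ≤ c2 := by rw [hc2]; positivity
  have hc30 : 0 ≤ c3 := by rw [hc3]; positivity
  refine ⟨8 * (c1 + c2 + c3) + 2 * κ * M * 2, by positivity, ?_⟩
  obtain ⟨N1, hN1⟩ := exists_nat_ge (10 * (c1 + c2 + c3) + 1)
  filter_upwards [Y.errors μ θ θ₁ C' hμ hθ hθ₁, eventually_ge_atTop Y.n0,
    eventually_ge_atTop (4 * M * Y.C), eventually_ge_atTop N1, eventually_ge_atTop (Y.s + 1)]
    with n hk1 hn1 hn2 hn3 hn4 f hf hbad hbig
  have hn3' : 10 * (c1 + c2 + c3) + 1 ≤ n := hN1.trans (by exact_mod_cast hn3)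
  have hn2' : (4 * M * Y.C : ℝ) ≤ n := by exact_mod_cast hn2
  have hn0 : (0 : ℝ) < n := by linarith
  have hn1' : 1 ≤ n := by omega
  have up := upperA Y hκ hf M n hn1 hn2 hn1'
  have lo := lowerA Y hf M n hM hn1 hn2 hn4
  have hpos : ∀ m, 0 ≤ Y.af f m := fun m => af_nonneg Y hf m
  obtain ⟨G, hG⟩ : ∃ G, G = (Y.K n).filter (Y.good M n) := ⟨_, rfl⟩
  rw [← hG] at up lo
  have hGK : ∀ w ∈ G, w ∈ Y.K n := fun w hw => by
    rw [hG] at hw
    exact (mem_filter.1 hw).1
  have hf0 : ∀ w ∈ G, 0 ≤ f w := fun w hw => hf.1 n w (hGK w hw)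
  obtain ⟨S1, hS1⟩ : ∃ S1 : ℝ, S1 = ∑ w ∈ G, f w * (((Y.S w).card : ℝ) / ((Y.B w).card : ℝ)) :=
    ⟨_, rfl⟩
  obtain ⟨S2, hS2⟩ : ∃ S2 : ℝ, S2 =
    ∑ w ∈ G, f w * (((Y.S w).card : ℝ) / ((Y.B w).card : ℝ)) ^ 2 := ⟨_, rfl⟩
  have hgood : ∀ w ∈ G, ((n : ℝ) < M * (Y.S w).card ∧ (n : ℝ) < M * (Y.B w).card) ∧
      (4 * Y.C : ℝ) < (Y.S w).card ∧ (4 * Y.C : ℝ) < (Y.B w).card := by
    intro w hw
    rw [hG] at hw
    have := (mem_filter.mp hw).2
    exact ⟨⟨by exact_mod_cast this.1, by exact_mod_cast this.2⟩,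
      by exact_mod_cast Y.big hn2 this.1, by exact_mod_cast Y.big hn2 this.2⟩
  have hS2' : 0 ≤ S2 := by
    rw [hS2]
    apply sum_nonneg; intro w hw
    exact mul_nonneg (hf0 w hw) (by positivity)
  have hcs : S1 ^ 2 ≤ Y.af f n * S2 := by
    have h1 : S1 ^ 2 ≤ (∑ w ∈ G, f w) * S2 := by
      have h2 := Finset.sum_mul_sq_le_sq_mul_sq G (fun w => √(f w))
        (fun w => √(f w) * (((Y.S w).card : ℝ) / ((Y.B w).card : ℝ)))
      have e1 : ∑ w ∈ G, √(f w) * (√(f w) * (((Y.S w).card : ℝ) / ((Y.B w).card : ℝ))) =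
          S1 := by
        rw [hS1]
        refine Finset.sum_congr rfl fun w hw => ?_
        rw [← mul_assoc, Real.mul_self_sqrt (hf0 w hw)]
      have e2 : ∑ w ∈ G, √(f w) ^ 2 = ∑ w ∈ G, f w :=
        Finset.sum_congr rfl fun w hw => Real.sq_sqrt (hf0 w hw)
      have e3 : ∑ w ∈ G, (√(f w) * (((Y.S w).card : ℝ) / ((Y.B w).card : ℝ))) ^ 2 = S2 := by
        rw [hS2]
        refine Finset.sum_congr rfl fun w hw => ?_
        rw [mul_pow, Real.sq_sqrt (hf0 w hw)]
      rw [e1, e2, e3] at h2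
      exact h2
    refine h1.trans ?_
    apply mul_le_mul_of_nonneg_right _ hS2'
    unfold Sys.af
    exact sum_le_sum_of_subset_of_nonneg hGK
      fun w hw _ => hf.1 n w hw
  -- `S1` is bounded by `S2`
  have hS12 : S1 ≤ 2 * Y.C * M * S2 := by
    rw [hS1, hS2, mul_sum]
    apply sum_le_sum
    intro w hw
    have hg := hgood w hw
    have hBn := hB n w (hGK w hw)
    have hBn' : ((Y.B w).card : ℝ) ≤ Y.C * (2 * n) := by
      have : (Y.B w).card ≤ Y.C * (2 * n) := hBn.trans (Nat.mul_le_mul_left _ (by omega))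
      exact_mod_cast this
    obtain ⟨x, hx⟩ : ∃ x : ℝ, x = ((Y.S w).card : ℝ) / ((Y.B w).card : ℝ) := ⟨_, rfl⟩
    have hBp : (0 : ℝ) < (Y.B w).card := by linarith [hg.2.2]
    have hx0 : 0 < x := by
      rw [hx]
      have : (0 : ℝ) < (Y.S w).card := by linarith [hg.2.1]
      positivity
    have hx1 : 1 ≤ 2 * Y.C * M * x := by
      rw [hx, mul_div_assoc', le_div_iff₀ hBp, one_mul]
      refine hBn'.trans ?_
      have h1 := hg.1.1
      have h2 : (2 * (Y.C : ℝ)) * n ≤ (2 * Y.C) * (M * (Y.S w).card) :=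
        mul_le_mul_of_nonneg_left h1.le (by positivity)
      linarith
    rw [← hx]
    have h3 : 0 ≤ f w * x := mul_nonneg (hf0 w hw) hx0.le
    calc f w * x = (f w * x) * 1 := by ring
      _ ≤ (f w * x) * (2 * Y.C * M * x) := mul_le_mul_of_nonneg_left hx1 h3
      _ = _ := by ring
  have u3 : (Y.badf f M (n + Y.s) + Y.C * (n + 1) * Y.badf f M n : ℝ) ≤
      Y.af f (n + Y.s) * (1 / n) := by
    rw [mul_one_div, le_div_iff₀ hn0]
    have b1 := hbad (n + Y.s)
    have b2 := hbad n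
    calc (Y.badf f M (n + Y.s) + Y.C * (n + 1) * Y.badf f M n : ℝ) * n
        ≤ (C' * (θ * μ) ^ (n + Y.s) + Y.C * (n + 1) * (C' * (θ * μ) ^ n)) * n := by
          apply mul_le_mul_of_nonneg_right _ hn0.le
          apply add_le_add b1
          exact mul_le_mul_of_nonneg_left b2 (by positivity)
      _ = n * (C' * (θ * μ) ^ (n + Y.s) + Y.C * (n + 1) * (C' * (θ * μ) ^ n)) := mul_comm _ _
      _ ≤ (θ₁ * μ) ^ (n + Y.s) := hk1
      _ ≤ _ := hbig
  have u1 : Y.af f (n + Y.s) - ((Y.badf f M (n + Y.s) + Y.C * (n + 1) * Y.badf f M n) +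
      κ * M / n * Y.af f (n + Y.s)) ≤ (1 + c1 / n) * S1 := by
    have : ∑ w ∈ G, f w * (((Y.S w).card : ℝ) / (((Y.B w).card : ℝ) - Y.C)) ≤
        (1 + c1 / n) * S1 := by
      rw [hS1, mul_sum, hc1]
      apply sum_le_sum
      intro w hw
      have hg := hgood w hw
      have h3 := Sys.term1 ((Y.S w).card : ℝ) ((Y.B w).card : ℝ) Y.C M n hCR hn0 (by positivity)
        hg.1.2 hg.2.2
      calc f w * (((Y.S w).card : ℝ) / (((Y.B w).card : ℝ) - Y.C)) ≤
            f w * ((1 + 2 * Y.C * M / n) * (((Y.S w).card : ℝ) / ((Y.B w).card : ℝ))) :=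
            mul_le_mul_of_nonneg_left h3 (hf0 w hw)
        _ = _ := by ring
    linarith
  have hE : (Y.badf f M (n + Y.s) + Y.C * (n + 1) * Y.badf f M n) +
      κ * M / n * Y.af f (n + Y.s) ≤ Y.af f (n + Y.s) * (c3 / n) := by
    rw [hc3]
    have : Y.af f (n + Y.s) * ((1 + κ * M) / n) = Y.af f (n + Y.s) * (1 / n) +
      κ * M / n * Y.af f (n + Y.s) := by ring
    rw [this]
    linarith
  have hc1n : c1 / n ≤ 1 / 10 := by rw [div_le_div_iff₀ hn0 (by norm_num)]; linarith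
  have hc3n : c3 / n ≤ 1 / 10 := by rw [div_le_div_iff₀ hn0 (by norm_num)]; linarith
  have hS10 : 0 ≤ S1 := by
    rw [hS1]
    apply sum_nonneg; intro w hw
    exact mul_nonneg (hf0 w hw) (by positivity)
  -- a crude bound
  have hcr : Y.af f (n + Y.s) ≤ 4 * Y.C * M * S2 := by
    have h1 : Y.af f (n + Y.s) * (1 - c3 / n) ≤ (1 + c1 / n) * S1 := by
      have : Y.af f (n + Y.s) * (1 - c3 / n) = Y.af f (n + Y.s) - Y.af f (n + Y.s) * (c3 / n) := by
        ring
      rw [this]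
      linarith
    have h2 : Y.af f (n + Y.s) * (9 / 10) ≤ Y.af f (n + Y.s) * (1 - c3 / n) :=
      mul_le_mul_of_nonneg_left (by linarith) (hpos _)
    have h3 : (1 + c1 / n) * S1 ≤ (11 / 10) * S1 := mul_le_mul_of_nonneg_right (by linarith) hS10
    nlinarith [hpos (n + Y.s)]
  have u2 : (1 - c2 / n) * S2 ≤ (1 + 2 * κ * M / n) * Y.af f (n + Y.s + Y.s) := by
    have h1 : (1 - 4 * Y.C * M / n) * S2 ≤ ∑ w ∈ G, f w *
        (((Y.S w).card : ℝ) * (((Y.S w).card : ℝ) - Y.C) /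
        ((((Y.B w).card : ℝ) + Y.C) * (((Y.B w).card : ℝ) + 2 * Y.C))) := by
      rw [hS2, mul_sum]
      apply sum_le_sum
      intro w hw
      have hg := hgood w hw
      have h3 := Sys.term2 ((Y.S w).card : ℝ) ((Y.B w).card : ℝ) Y.C M n hCR hMR hn2'
        hg.1.1 hg.1.2 hg.2.1 hg.2.2
      calc (1 - 4 * Y.C * M / (n : ℝ)) *
            (f w * (((Y.S w).card : ℝ) / ((Y.B w).card : ℝ)) ^ 2) =
            f w * ((1 - 4 * Y.C * M / n) * (((Y.S w).card : ℝ) / ((Y.B w).card : ℝ)) ^ 2) := by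
              ring
        _ ≤ _ := mul_le_mul_of_nonneg_left h3 (hf0 w hw)
    have h2 : 8 * Y.C * M ^ 2 * κ / n * Y.af f (n + Y.s) ≤
        8 * Y.C * M ^ 2 * κ / n * (4 * Y.C * M * S2) :=
      mul_le_mul_of_nonneg_left hcr (by positivity)
    have h3 : (1 - c2 / n) * S2 = (1 - 4 * Y.C * M / n) * S2 -
        8 * Y.C * M ^ 2 * κ / n * (4 * Y.C * M * S2) := by
      rw [hc2]; ring
    rw [h3]
    linarith
  have hA2 : 0 ≤ (1 + 2 * κ * M / n) * Y.af f (n + Y.s + Y.s) := by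
    have := hpos (n + Y.s + Y.s)
    positivity
  have hfin := Sys.fin_ineq (Y.af f n) (Y.af f (n + Y.s))
    ((1 + 2 * κ * M / n) * Y.af f (n + Y.s + Y.s))
    ((Y.badf f M (n + Y.s) + Y.C * (n + 1) * Y.badf f M n) +
      κ * M / n * Y.af f (n + Y.s)) S1 S2 (c1 / n) (c2 / n) (c3 / n) (hpos _) (hpos _) hcs
    (by positivity) (by positivity) (by positivity) (by
      have e : c1 / n + c2 / n + c3 / n = (c1 + c2 + c3) / n := by ring
      rw [e, div_le_div_iff₀ hn0 (by norm_num)]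
      linarith) u1 hE u2 hA2
  refine hfin.trans ?_
  have e1 : Y.af f n * ((1 + 2 * κ * M / n) * Y.af f (n + Y.s + Y.s)) *
      (1 + 8 * (c1 / n + c2 / n + c3 / n)) =
      (Y.af f n * Y.af f (n + Y.s + Y.s)) *
        ((1 + 2 * κ * M / n) * (1 + 8 * (c1 / n + c2 / n + c3 / n))) := by ring
  rw [e1]
  refine mul_le_mul_of_nonneg_left ?_ (mul_nonneg (hpos _) (hpos _))
  have e2 : c1 / n + c2 / n + c3 / n = (c1 + c2 + c3) / n := by ring
  rw [e2]
  have h5 : (c1 + c2 + c3) / n ≤ 1 / 10 := by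
    rw [div_le_div_iff₀ hn0 (by norm_num)]; linarith
  have h6 : 0 ≤ 2 * κ * M / n := by positivity
  have h7 : (2 * κ * M / n) * (8 * ((c1 + c2 + c3) / n)) ≤ (2 * κ * M / n) * 1 :=
    mul_le_mul_of_nonneg_left (by linarith) h6
  have e3 : 1 + (8 * (c1 + c2 + c3) + 2 * κ * M * 2) / n =
      1 + 8 * ((c1 + c2 + c3) / n) + 2 * κ * M / n + (2 * κ * M / n) * 1 := by ring
  rw [e3]
  nlinarith

end

end Q294.Av
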