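import Pool.Agent.Q294.Av1
import Pool.Agent.TH966.AK.Weight

/-!
# Means of functions of the walk which change little under the local moves
-/

set_option autoImplicit false

namespace Q294.Av

open Finset Filter Topology TH966.AK
open scoped Classical

noncomputable section

variable {A : P → P → Prop} {Z : Rule A} {μ K : ℝ}

/-- the class of weights -/
structure Fw (Z : Rule A) (κ : ℝ) (m : ℕ) (f : List P → ℝ) : Prop where
  aw : AW Z.sys κ f
  ge : ∀ n, 1 ≤ n → ∀ w ∈ Kw A n, 1 ≤ f w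
  le : ∀ n, ∀ w ∈ Kw A n, f w ≤ (2 * (n : ℝ) + 2) ^ m

/-- weighted numbers -/
def WG (A : P → P → Prop) (f : List P → ℝ) (n : ℕ) : ℝ := ∑ w ∈ Kw A n, f w

theorem af_eq (f : List P → ℝ) (n : ℕ) : Z.sys.af f n = WG A f n := rfl

variable {κ : ℝ} {m : ℕ} {f : List P → ℝ}

theorem WG_ge (hF : Fw Z κ m f) {n : ℕ} (hn : 1 ≤ n) : ((Kw A n).card : ℝ) ≤ WG A f n := by
  unfold WG
  rw [← nsmul_one, ← sum_const]
  exact sum_le_sum fun w hw => hF.ge n hn w hw

theorem WG_nonneg (hF : Fw Z κ m f) (n : ℕ) : 0 ≤ WG A f n :=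
  sum_nonneg fun w hw => hF.aw.1 n w hw

theorem WG_le (hF : Fw Z κ m f) (n : ℕ) : WG A f n ≤ (2 * (n : ℝ) + 2) ^ m * (Kw A n).card := by
  unfold WG
  rw [mul_comm, ← nsmul_eq_mul, ← sum_const]
  exact sum_le_sum fun w hw => hF.le n w hw

theorem badf_F (hF : Fw Z κ m f) (M n : ℕ) :
    Z.sys.badf f M n ≤ (2 * (n : ℝ) + 2) ^ m * (Z.sys.bad M n).card := by
  unfold Sys.badf
  rw [mul_comm, ← nsmul_eq_mul, ← sum_const]
  refine sum_le_sum fun w hw => hF.le n w ?_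
  unfold Sys.bad at hw
  exact (mem_filter.1 hw).1

/-- the normalised weighted numbers -/
def yG (A : P → P → Prop) (f : List P → ℝ) (μ : ℝ) (s r : ℕ) (k : ℕ) : ℝ :=
  WG A f (s * k + r) / μ ^ (s * k + r)

theorem B_le (Z : Rule A) (n : ℕ) (w : List P) (hw : w ∈ Z.sys.K n) :
    (Z.sys.B w).card ≤ Z.sys.C * (n + 1) := by
  change w ∈ Kw A n at hw
  change (Z.B w).card ≤ Z.CC * (n + 1)
  rw [Z.mem_K] at hw
  have h1 : (Z.B w).card ≤ (w.toFinset.biUnion Z.cand).card := Finset.card_filter_le _ _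
  have h2 := Finset.card_biUnion_le_card_mul w.toFinset Z.cand Z.c0 fun x _ => Z.card_cand x
  have h3 : w.toFinset.card ≤ n + 1 := (List.toFinset_card_le w).trans hw.1.le
  have h4 : w.toFinset.card * Z.c0 ≤ (n + 1) * Z.c0 := Nat.mul_le_mul_right _ h3
  have h5 : Z.c0 ≤ Z.CC := by unfold Rule.CC; omega
  have h6 : (n + 1) * Z.c0 ≤ Z.CC * (n + 1) := by
    rw [mul_comm]; exact Nat.mul_le_mul_right _ h5
  omega

/-- Kesten's inequality, uniformly in the function -/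
theorem kesG (G : Growth Z μ K) (m : ℕ) (κ : ℝ) (hκ : 0 ≤ κ) : ∃ D : ℝ, 0 ≤ D ∧ ∀ r : ℕ,
    ∃ k0 : ℕ, ∀ f : List P → ℝ, Fw Z κ m f →
      TH966.KS.Kes (yG A f μ Z.s r) D (1 / 2) k0 := by
  have hμ := G.hμ
  have hμ0 : 0 < μ := by linarith
  have hs := G.hs
  obtain ⟨M, θ, C', hM, hθ0, hθ1, hC', hbad⟩ := Z.sys.pattern μ hμ G.hup G.poor
  obtain ⟨B, hB0, hB⟩ := absorb m hθ0 (show θ < (1 + θ) / 2 by linarith)
  obtain ⟨D, hD, hconv⟩ := convexA Z.sys M hM μ ((1 + θ) / 2) 1 (C' * B) κ hμ0 (by linarith)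
    (by linarith) hκ (B_le Z)
  refine ⟨D, hD, fun r => ?_⟩
  have ht : Tendsto (fun k : ℕ => Z.s * k + r) atTop atTop := by
    refine tendsto_atTop_mono (fun k => ?_) tendsto_id
    have := Nat.mul_le_mul_right k hs
    simp only [id]
    omega
  obtain ⟨k0, hk0⟩ := eventually_atTop.1 (ht.eventually hconv)
  refine ⟨max k0 1, fun f hF k hk _ => ?_⟩
  have hk1 : 1 ≤ k := le_trans (le_max_right _ _) hk
  have h1 := hk0 k (le_trans (le_max_left _ _) hk) f hF.aw (fun n => by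
    refine (badf_F hF M n).trans ?_
    have h2 : (2 * (n : ℝ) + 2) ^ m * (Z.sys.bad M n).card ≤
        (2 * (n : ℝ) + 2) ^ m * (C' * (θ * μ) ^ n) :=
      mul_le_mul_of_nonneg_left (hbad n) (by positivity)
    refine h2.trans ?_
    have h3 := mul_le_mul_of_nonneg_right (hB n) (show 0 ≤ C' * μ ^ n by positivity)
    rw [mul_pow, mul_pow]
    calc (2 * (n : ℝ) + 2) ^ m * (C' * (θ ^ n * μ ^ n)) =
          (2 * (n : ℝ) + 2) ^ m * θ ^ n * (C' * μ ^ n) := by ring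
      _ ≤ _ := h3
      _ = _ := by ring)
  rw [af_eq, af_eq, af_eq] at h1
  have hss : Z.sys.s = Z.s := rfl
  rw [hss] at h1
  have h2 := h1 (by
    rw [one_mul]
    exact (G.low _).trans (WG_ge hF (by omega)))
  have e1 : Z.s * k + r + Z.s = Z.s * (k + 1) + r := by ring
  have e2 : Z.s * (k + 1) + r + Z.s = Z.s * (k + 2) + r := by ring
  rw [e1, e2] at h2
  have hk' : (1 : ℝ) ≤ k := by exact_mod_cast hk1
  have h3 : (1 : ℝ) + D / ((Z.s * k + r : ℕ) : ℝ) ≤ 1 + D / k := by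
    refine add_le_add le_rfl (div_le_div_of_nonneg_left hD (by positivity) ?_)
    have h4 : k ≤ Z.s * k + r := by
      have := Nat.mul_le_mul_right k hs
      omega
    exact_mod_cast h4
  have h4 : WG A f (Z.s * (k + 1) + r) ^ 2 ≤ WG A f (Z.s * k + r) *
      WG A f (Z.s * (k + 2) + r) * (1 + D / k) := by
    refine h2.trans (mul_le_mul_of_nonneg_left ?_
      (mul_nonneg (WG_nonneg hF _) (WG_nonneg hF _)))
    exact h3
  unfold yG
  have e3 : (μ ^ (Z.s * (k + 1) + r)) ^ 2 = μ ^ (Z.s * k + r) * μ ^ (Z.s * (k + 2) + r) := by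
    rw [← pow_mul, ← pow_add]
    congr 1
    ring
  rw [div_pow, div_mul_div_comm, div_mul_eq_mul_div, e3]
  exact div_le_div_of_nonneg_right h4 (by positivity)

theorem growG (G : Growth Z μ K) (m r : ℕ) (κ : ℝ) : ∃ K' : ℝ, 0 ≤ K' ∧ ∀ f : List P → ℝ,
    Fw Z κ m f → ∀ k : ℕ, 2 ≤ k → ∀ j ≤ k, yG A f μ Z.s r j ≤ Real.exp (K' * Real.log k ^ 2) := by
  have hμ := G.hμ
  have hμ0 : 0 < μ := by linarith
  obtain ⟨K', hK', h⟩ := G.grow r
  obtain ⟨b, hb⟩ : ∃ b : ℝ, b = 2 * (Z.s : ℝ) + 2 * r + 2 := ⟨_, rfl⟩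
  have hb1 : 1 ≤ b := by
    have h1 : (0 : ℝ) ≤ Z.s := Nat.cast_nonneg _
    have h2 : (0 : ℝ) ≤ r := Nat.cast_nonneg _
    linarith
  have hl2 : 0 < Real.log 2 := Real.log_pos (by norm_num)
  have hlb : 0 ≤ Real.log b := Real.log_nonneg hb1
  refine ⟨K' + m * ((Real.log b / Real.log 2 + 1) / Real.log 2), by positivity,
    fun f hF k hk j hj => ?_⟩
  have h1 := h k hk j hj
  have hk' : (2 : ℝ) ≤ k := by exact_mod_cast hk
  have hlk : Real.log 2 ≤ Real.log k := Real.log_le_log (by norm_num) hk'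
  have hlk0 : 0 < Real.log k := by linarith
  have h2 : (2 * ((Z.s * j + r : ℕ) : ℝ) + 2) ≤ b * k := by
    have hj' : (j : ℝ) ≤ k := by exact_mod_cast hj
    have h3 : (0 : ℝ) ≤ Z.s := Nat.cast_nonneg _
    have h4 : (0 : ℝ) ≤ r := Nat.cast_nonneg _
    push_cast
    rw [hb]
    nlinarith
  have h3 : 2 * ((Z.s * j + r : ℕ) : ℝ) + 2 ≤
      Real.exp ((Real.log b / Real.log 2 + 1) * Real.log k) := by
    refine h2.trans ?_
    have h4 : Real.log b + Real.log k ≤ (Real.log b / Real.log 2 + 1) * Real.log k := by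
      rw [add_mul, one_mul]
      refine add_le_add ?_ le_rfl
      rw [div_mul_eq_mul_div, le_div_iff₀ hl2]
      exact mul_le_mul_of_nonneg_left hlk hlb
    have h5 : b * k = Real.exp (Real.log b + Real.log k) := by
      rw [Real.exp_add, Real.exp_log (by linarith), Real.exp_log (by linarith)]
    rw [h5]
    exact Real.exp_le_exp.2 h4
  have h4 : (2 * ((Z.s * j + r : ℕ) : ℝ) + 2) ^ m ≤
      Real.exp (m * ((Real.log b / Real.log 2 + 1) / Real.log 2) * Real.log k ^ 2) := by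
    have h5 := pow_le_pow_left₀ (by positivity) h3 m
    rw [← Real.exp_nat_mul] at h5
    refine h5.trans (Real.exp_le_exp.2 ?_)
    have h6 : Real.log k ≤ Real.log k ^ 2 / Real.log 2 := by
      rw [le_div_iff₀ hl2, sq]
      exact mul_le_mul_of_nonneg_left hlk hlk0.le
    have h7 := mul_le_mul_of_nonneg_left h6
      (show 0 ≤ (m : ℝ) * (Real.log b / Real.log 2 + 1) by positivity)
    calc (m : ℝ) * ((Real.log b / Real.log 2 + 1) * Real.log k) =
          (m : ℝ) * (Real.log b / Real.log 2 + 1) * Real.log k := by ring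
      _ ≤ _ := h7
      _ = _ := by ring
  have h5 : yG A f μ Z.s r j ≤ (2 * ((Z.s * j + r : ℕ) : ℝ) + 2) ^ m * yy A μ Z.s r j := by
    unfold yG yy
    rw [← mul_div_assoc]
    exact div_le_div_of_nonneg_right (WG_le hF _) (by positivity)
  refine h5.trans ?_
  rw [add_mul, Real.exp_add, mul_comm (Real.exp (K' * _))]
  exact mul_le_mul h4 h1 (le_trans zero_le_one (G.yy_ge r j)) (Real.exp_pos _).le

/-- the weighted ratios along one residue class -/
theorem rateG (G : Growth Z μ K) (m r : ℕ) (κ : ℝ) (hκ : 0 ≤ κ) :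
    ∃ R : ℝ, 0 < R ∧ ∀ᶠ k : ℕ in atTop, ∀ f : List P → ℝ, Fw Z κ m f →
    |WG A f (Z.s * k + r + Z.s) / WG A f (Z.s * k + r) / μ ^ Z.s - 1| ≤
      R * (Real.log k / √(k : ℝ)) := by
  have hμ := G.hμ
  have hμ0 : 0 < μ := by linarith
  obtain ⟨D, hD, hk⟩ := kesG G m κ hκ
  obtain ⟨k0, hk0⟩ := hk r
  obtain ⟨K', hK', hg⟩ := growG G m r κ
  obtain ⟨R, hR, hr⟩ := rate_log_u D (1 / 2) k0 hD (by norm_num) (by norm_num) 1 hK'
  refine ⟨R, hR, ?_⟩
  filter_upwards [hr, eventually_ge_atTop 1] with k hk hk1 f hF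
  have hpos : ∀ j, 1 ≤ j → 1 ≤ yG A f μ Z.s r j := by
    intro j hj
    unfold yG
    rw [one_le_div (by positivity)]
    refine (G.low _).trans (WG_ge hF ?_)
    have := Nat.mul_le_mul G.hs hj
    omega
  have h1 := hk (yG A f μ Z.s r) (hk0 f hF) (fun j => by
    unfold yG
    exact div_nonneg (WG_nonneg hF _) (by positivity)) hpos (hg f hF)
  have e : WG A f (Z.s * k + r + Z.s) / WG A f (Z.s * k + r) / μ ^ Z.s =
      yG A f μ Z.s r (k + 1) / yG A f μ Z.s r k := by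
    unfold yG
    have e1 : Z.s * (k + 1) + r = Z.s * k + r + Z.s := by ring
    have h2 : 0 < WG A f (Z.s * k + r) := by
      have h3 := hpos k hk1
      unfold yG at h3
      rw [one_le_div (by positivity)] at h3
      exact lt_of_lt_of_le (by positivity) h3
    rw [e1, pow_add μ (Z.s * k + r) Z.s]
    field_simp
  rw [e]
  exact h1

theorem fw_one (m : ℕ) (κ : ℝ) (hκ : 0 ≤ κ) : Fw Z κ m (fun _ => 1) := by
  refine ⟨⟨fun _ _ _ => zero_le_one, fun n w _ _ => ?_⟩, fun _ _ _ _ => le_rfl, fun n _ _ =>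
    one_le_pow₀ (by have : (0 : ℝ) ≤ n := Nat.cast_nonneg _; linarith)⟩
  simp only [sub_self, abs_zero, sum_const_zero, mul_one]
  exact hκ

theorem WG_one (n : ℕ) : WG A (fun _ => 1) n = (Kw A n).card := by
  unfold WG
  rw [sum_const, nsmul_one]

/-- means: the ratio at the lengths `n + s` and `n` -/
theorem meanG (G : Growth Z μ K) (m : ℕ) (κ : ℝ) (hκ : 0 ≤ κ) :
    ∃ R : ℝ, 0 ≤ R ∧ ∀ᶠ n : ℕ in atTop, ∀ f : List P → ℝ, Fw Z κ m f →
    |WG A f (n + Z.s) / (Kw A (n + Z.s)).card / (WG A f n / (Kw A n).card) - 1| ≤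
      R * (Real.log n / √(n : ℝ)) := by
  have hμ := G.hμ
  have hμ0 : 0 < μ := by linarith
  have hs := G.hs
  have hs1 : (1 : ℝ) ≤ Z.s := by exact_mod_cast hs
  choose R hR h using fun r => rateG G m r κ hκ
  have hall : ∀ᶠ k : ℕ in atTop, ∀ r ∈ range Z.s, ∀ f : List P → ℝ, Fw Z κ m f →
      |WG A f (Z.s * k + r + Z.s) / WG A f (Z.s * k + r) / μ ^ Z.s - 1| ≤
        R r * (Real.log k / √(k : ℝ)) :=
    (Finset.eventually_all _).2 fun r _ => h r
  obtain ⟨S, hS⟩ : ∃ S : ℝ, S = ∑ r ∈ range Z.s, R r := ⟨_, rfl⟩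
  have hS0 : 0 ≤ S := by
    rw [hS]
    exact sum_nonneg fun r _ => (hR r).le
  have t1 : Tendsto (fun k : ℕ => S * (Real.log k / √(k : ℝ))) atTop (𝓝 0) := by
    have := log_sq_tendsto.const_mul S
    rwa [mul_zero] at this
  have hdt : Tendsto (fun n : ℕ => n / Z.s) atTop atTop :=
    Nat.tendsto_div_const_atTop (by omega)
  refine ⟨4 * S * (2 * Z.s), by positivity, ?_⟩
  filter_upwards [hdt.eventually hall,
    hdt.eventually (t1.eventually_lt_const (show (0 : ℝ) < 1 / 2 by norm_num)),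
    hdt.eventually_ge_atTop 2, eventually_ge_atTop 1] with n h1 h2 h3 h4 f hF
  obtain ⟨k, hk⟩ : ∃ k, k = n / Z.s := ⟨_, rfl⟩
  obtain ⟨r, hr⟩ : ∃ r, r = n % Z.s := ⟨_, rfl⟩
  rw [← hk] at h1 h2 h3
  have hrs : r < Z.s := by rw [hr]; exact Nat.mod_lt _ hs
  have hn : Z.s * k + r = n := by rw [hk, hr]; exact Nat.div_add_mod n Z.s
  have hRS : R r ≤ S := by
    rw [hS]
    exact single_le_sum (f := R) (fun i _ => (hR i).le) (mem_range.2 hrs)
  have hkR : (2 : ℝ) ≤ k := by exact_mod_cast h3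
  have hlk : 0 ≤ Real.log (k : ℝ) := Real.log_nonneg (by linarith)
  have hx : 0 ≤ Real.log (k : ℝ) / √(k : ℝ) := by positivity
  have hb : R r * (Real.log k / √(k : ℝ)) ≤ S * (Real.log k / √(k : ℝ)) :=
    mul_le_mul_of_nonneg_right hRS hx
  have g1 := (h1 r (mem_range.2 hrs) f hF).trans hb
  have g2 := (h1 r (mem_range.2 hrs) (fun _ => 1) (fw_one m κ hκ)).trans hb
  rw [hn] at g1 g2
  rw [WG_one, WG_one] at g2
  have hcn : (0 : ℝ) < (Kw A n).card := lt_of_lt_of_le (by positivity) (G.low n)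
  have h6 := ratio_aux (lt_of_lt_of_le hcn (WG_ge hF h4)) hcn (pow_pos hμ0 Z.s) g1 g2 h2.le
  refine h6.trans ?_
  have h7 : Real.log k / √(k : ℝ) ≤ 2 * Z.s * (Real.log n / √(n : ℝ)) := by
    have hkn : k ≤ n := by
      have := Nat.mul_le_mul_right k hs
      omega
    have hn0 : (0 : ℝ) < n := by exact_mod_cast h4
    have h8 : Real.log k ≤ Real.log n := Real.log_le_log (by positivity) (by exact_mod_cast hkn)
    have h9 : √(n : ℝ) ≤ 2 * Z.s * √(k : ℝ) := by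
      rw [Real.sqrt_le_left (by positivity), mul_pow, Real.sq_sqrt (by positivity)]
      have h10 : n ≤ Z.s * k + Z.s := by omega
      have h11 : (n : ℝ) ≤ Z.s * k + Z.s := by exact_mod_cast h10
      nlinarith
    rw [← mul_div_assoc, div_le_div_iff₀ (by positivity) (by positivity)]
    calc Real.log k * √(n : ℝ) ≤ Real.log n * (2 * Z.s * √(k : ℝ)) :=
          mul_le_mul h8 h9 (by positivity) (hlk.trans h8)
      _ = 2 * Z.s * Real.log n * √(k : ℝ) := by ring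
  calc 4 * (S * (Real.log k / √(k : ℝ))) ≤ 4 * (S * (2 * Z.s * (Real.log n / √(n : ℝ)))) := by
        refine mul_le_mul_of_nonneg_left (mul_le_mul_of_nonneg_left h7 hS0) (by norm_num)
    _ = _ := by ring

end

end Q294.Av
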