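import Pool.Agent.Q294.Av2

/-!
# Sums over the points and over the pairs of points of a walk
-/

set_option autoImplicit false

namespace Q294.Av

open Finset Filter Topology TH966.AK
open scoped Classical

noncomputable section

variable {A : P → P → Prop} {Z : Rule A}

/-- the first point of a window -/
def hd (U : List P) : P := U.head?.getD 0

theorem hd_mem {U : List P} (h : U ≠ []) : hd U ∈ U := by
  obtain ⟨a, b, rfl⟩ := List.exists_cons_of_ne_nil h
  simp [hd]

theorem sum_B (w : List P) (g : P → ℝ) (hg : ∀ x, 0 ≤ g x) :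
    ∑ q ∈ Z.B w, g (hd q.2) ≤ Z.c0 * ∑ x ∈ w.toFinset, g x := by
  have hm : ∀ q ∈ Z.B w, hd q.2 ∈ w.toFinset := by
    intro q hq
    rw [Rule.mem_B] at hq
    rw [List.mem_toFinset]
    exact hq.2.1.subset (hd_mem (Rule.ne_nil (Z.pair _ _ hq.1).symm))
  rw [← Finset.sum_fiberwise_of_maps_to hm, mul_sum]
  refine sum_le_sum fun x _ => ?_
  have h1 : ∀ q ∈ (Z.B w).filter (fun q => hd q.2 = x), g (hd q.2) = g x := by
    intro q hq
    rw [(mem_filter.1 hq).2]
  rw [sum_congr rfl h1, sum_const, nsmul_eq_mul]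
  refine mul_le_mul_of_nonneg_right ?_ (hg x)
  have h2 : (Z.B w).filter (fun q => hd q.2 = x) ⊆ Z.cand x := by
    rintro ⟨U, U'⟩ hq
    rw [mem_filter, Rule.mem_B] at hq
    obtain ⟨⟨h3, h4⟩, h5⟩ := hq
    refine Z.mem_cand h3 ?_
    have h6 := hd_mem (Rule.ne_nil (Z.pair _ _ h3).symm)
    simp only at h5
    rw [h5] at h6
    simp [h6]
  exact_mod_cast (card_le_card h2).trans (Z.card_cand x)

/-- criterion -/
theorem aw_of (κ : ℝ) (f : List P → ℝ) (h0 : ∀ n, ∀ w ∈ Kw A n, 0 ≤ f w)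
    (h : ∀ n, ∀ w ∈ Kw A (n + Z.s), ∃ g : P → ℝ, (∀ x, 0 ≤ g x) ∧
      (∀ L R U U' : List P, Z.T U U' → w = L ++ U' ++ R → Walk A (L ++ U ++ R) →
        |f (L ++ U ++ R) - f w| ≤ g (hd U')) ∧
      Z.c0 * ∑ x ∈ w.toFinset, g x ≤ κ * f w) :
    AW Z.sys κ f := by
  refine ⟨fun n w hw => h0 n w hw, fun n w _ hw => ?_⟩
  change w ∈ Kw A (n + Z.s) at hw
  obtain ⟨g, hg0, hg1, hg2⟩ := h n w hw
  refine le_trans ?_ ((sum_B (Z := Z) w g hg0).trans hg2)
  change ∑ q ∈ Z.B w, |f (Rule.rep w q.2 q.1) - f w| ≤ _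
  refine sum_le_sum ?_
  rintro ⟨U, U'⟩ hq
  rw [Rule.mem_B] at hq
  rw [Z.mem_K] at hw
  obtain ⟨L, R, h1, h2, h3, -⟩ := Rule.rep_all (Z.pair _ _ hq.1).symm hw.2 hq.2
  simp only at h1 h2 h3 ⊢
  rw [h2]
  exact hg1 L R U U' hq.1 h1 h3

/-- sum over the points -/
def s1 (ψ : P → P → ℝ) (w : List P) : ℝ := (w.map (fun x => ψ x (lst w))).sum

/-- sum over the pairs of points -/
def s2 (Φ : P → P → ℝ) (w : List P) : ℝ := (w.map (fun x => (w.map (fun y => Φ x y)).sum)).sum

theorem sum_list (w : List P) (hw : w.Nodup) (g : P → ℝ) :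
    (w.map g).sum = ∑ x ∈ w.toFinset, g x := (List.sum_toFinset g hw).symm

theorem list_sum_nonneg (w : List P) (g : P → ℝ) (hg : ∀ x, 0 ≤ g x) : 0 ≤ (w.map g).sum := by
  apply List.sum_nonneg
  intro y hy
  rw [List.mem_map] at hy
  obtain ⟨x, -, rfl⟩ := hy
  exact hg x

theorem list_sum_le (w : List P) (g g' : P → ℝ) (h : ∀ x ∈ w, g x ≤ g' x) :
    (w.map g).sum ≤ (w.map g').sum := List.sum_le_sum h

theorem list_sum_const_le (w : List P) (g : P → ℝ) (c : ℝ) (h : ∀ x ∈ w, g x ≤ c) :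
    (w.map g).sum ≤ w.length * c := by
  have := List.sum_le_card_nsmul (w.map g) c (by
    intro y hy
    rw [List.mem_map] at hy
    obtain ⟨x, hx, rfl⟩ := hy
    exact h x hx)
  rwa [List.length_map, nsmul_eq_mul] at this

/-- a kernel with bounded relative changes -/
structure Ker (Z : Rule A) (c : ℝ) (Φ : P → P → ℝ) : Prop where
  c1 : 1 ≤ c
  nn : ∀ x y, 0 ≤ Φ x y
  symm : ∀ x y, Φ x y = Φ y x
  zero : ∀ x, Φ x x = 0
  one : ∀ x y, x ≠ y → 1 ≤ Φ x y
  mv : ∀ p x y : P, |p.1 - x.1| ≤ (Z.ρ : ℤ) → |p.2 - x.2| ≤ (Z.ρ : ℤ) →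
    Φ x y ≤ c * (Φ p y + 1)

variable {c : ℝ} {Φ : P → P → ℝ}

/-- the constant -/
def kc (Z : Rule A) : ℝ := (2 * Z.k + Z.s : ℝ)

theorem kc_nonneg (Z : Rule A) : 0 ≤ kc Z := by
  unfold kc
  positivity

theorem lst_rep {L R U U' : List P} (h : Pair A U U') : lst (L ++ U ++ R) = lst (L ++ U' ++ R) := by
  rw [lst_append _ _ _ (Rule.ne_nil h), lst_append _ _ _ (Rule.ne_nil h.symm), lst_pair h]

theorem near_hd {U U' : List P} (h : Z.T U U') {x : P} (hx : x ∈ U ++ U') :
    |(hd U').1 - x.1| ≤ Z.ρ ∧ |(hd U').2 - x.2| ≤ Z.ρ := by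
  have h1 := hd_mem (Rule.ne_nil (Z.pair _ _ h).symm)
  exact Z.loc U U' h _ (by simp [h1]) x hx

theorem length_mem {n : ℕ} {w : List P} (hw : w ∈ Kw A n) (Z : Rule A) :
    w.toFinset.card = n + 1 := by
  rw [Z.mem_K] at hw
  rw [List.toFinset_card_of_nodup hw.2.2.1, hw.1]

/-- the sum of the one-point weights -/
theorem aw_s1 (hs : 1 ≤ Z.s) (hΦ : Ker Z c Φ) :
    AW Z.sys (Z.c0 * (kc Z * (2 * c)) * 4) (s1 (fun x e => Φ x 0 + Φ x e)) := by
  have hc1 := hΦ.c1
  have hk := kc_nonneg Z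
  refine aw_of _ _ (fun n w _ => ?_) (fun n w hw => ?_)
  · unfold s1
    exact list_sum_nonneg _ _ fun x => add_nonneg (hΦ.nn _ _) (hΦ.nn _ _)
  · obtain ⟨e, he⟩ : ∃ e, e = lst w := ⟨_, rfl⟩
    refine ⟨fun x => kc Z * (2 * c) * (Φ x 0 + Φ x e + 1), fun x => ?_, ?_, ?_⟩
    · have h1 := hΦ.nn x 0
      have h2 := hΦ.nn x e
      have : 0 ≤ kc Z * (2 * c) := by positivity
      positivity
    · intro L R U U' hT hw1 hw2
      have hp := Z.pair _ _ hT
      have hl := Z.len _ _ hT
      have he' : lst (L ++ U ++ R) = e := by rw [lst_rep hp, ← hw1, he]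
      have hee : lst (L ++ U' ++ R) = e := by rw [← hw1, he]
      unfold s1
      rw [hw1, he', hee]
      simp only [List.map_append, List.sum_append]
      obtain ⟨p, hpd⟩ : ∃ p, p = hd U' := ⟨_, rfl⟩
      rw [← hpd]
      obtain ⟨X, hX⟩ : ∃ X : ℝ, X = 2 * c * (Φ p 0 + Φ p e + 1) := ⟨_, rfl⟩
      have hΦ0 := hΦ.nn p 0
      have hΦe := hΦ.nn p e
      have hpt : ∀ x ∈ U ++ U', Φ x 0 + Φ x e ≤ X := by
        intro x hx
        obtain ⟨a1, a2⟩ := near_hd hT hx
        rw [← hpd] at a1 a2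
        have b1 := hΦ.mv p x 0 a1 a2
        have b2 := hΦ.mv p x e a1 a2
        have b3 : 0 ≤ c * Φ p 0 := by positivity
        have b4 : 0 ≤ c * Φ p e := by positivity
        rw [hX]
        nlinarith
      have hX0 : 0 ≤ X := by rw [hX]; positivity
      have i1 : (U.map (fun x => Φ x 0 + Φ x e)).sum ≤ U.length * X :=
        list_sum_const_le _ _ _ fun x hx => hpt x (by simp [hx])
      have i2 : (U'.map (fun x => Φ x 0 + Φ x e)).sum ≤ U'.length * X :=
        list_sum_const_le _ _ _ fun x hx => hpt x (by simp [hx])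
      have i3 : 0 ≤ (U.map (fun x => Φ x 0 + Φ x e)).sum :=
        list_sum_nonneg _ _ fun x => add_nonneg (hΦ.nn _ _) (hΦ.nn _ _)
      have i4 : 0 ≤ (U'.map (fun x => Φ x 0 + Φ x e)).sum :=
        list_sum_nonneg _ _ fun x => add_nonneg (hΦ.nn _ _) (hΦ.nn _ _)
      rw [hl.1] at i1
      rw [hl.2] at i2
      push_cast at i2
      have hkX : kc Z * (2 * c) * (Φ p 0 + Φ p e + 1) = kc Z * X := by rw [hX]; ring
      rw [hkX]
      unfold kc
      have j1 : 0 ≤ (Z.k : ℝ) * X := by positivity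
      have j2 : 0 ≤ (Z.s : ℝ) * X := by positivity
      rw [abs_le]
      constructor <;> nlinarith
    · have hcard := length_mem hw Z
      have hw' := (Z.mem_K).1 hw
      have hn : (1 : ℝ) ≤ ((n + Z.s : ℕ) : ℝ) := by
        have : 1 ≤ n + Z.s := by omega
        exact_mod_cast this
      have hsum : ∑ x ∈ w.toFinset, (Φ x 0 + Φ x e + 1) = s1 (fun x e => Φ x 0 + Φ x e) w +
          ((n + Z.s : ℕ) + 1 : ℝ) := by
        unfold s1
        rw [sum_list w hw'.2.2.1, ← he, sum_add_distrib (g := fun _ => (1 : ℝ)), sum_const,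
          nsmul_one, hcard]
        push_cast
        ring
      rw [← mul_sum, hsum]
      have hnn : 0 ≤ s1 (fun x e => Φ x 0 + Φ x e) w := by
        unfold s1
        exact list_sum_nonneg _ _ fun x => add_nonneg (hΦ.nn _ _) (hΦ.nn _ _)
      have hlow : ((n + Z.s : ℕ) : ℝ) ≤ s1 (fun x e => Φ x 0 + Φ x e) w := by
        unfold s1
        rw [sum_list w hw'.2.2.1]
        have h1 : ∑ x ∈ w.toFinset, (if x = 0 then (0 : ℝ) else 1) ≤
            ∑ x ∈ w.toFinset, (Φ x 0 + Φ x (lst w)) := by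
          refine sum_le_sum fun x _ => ?_
          have h2 := hΦ.nn x 0
          have h3 := hΦ.nn x (lst w)
          split_ifs with h
          · linarith
          · have := hΦ.one x 0 h
            linarith
        refine le_trans ?_ h1
        have h2 : ∑ x ∈ w.toFinset, (if x = 0 then (0 : ℝ) else 1) =
            ∑ x ∈ w.toFinset, (1 - (if x = 0 then (1 : ℝ) else 0)) := by
          refine sum_congr rfl fun x _ => ?_
          split_ifs <;> norm_num
        rw [h2, sum_sub_distrib, sum_const, nsmul_one, hcard, sum_ite_eq']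
        push_cast
        split_ifs <;> linarith
      have hfin : s1 (fun x e => Φ x 0 + Φ x e) w + ((n + Z.s : ℕ) + 1 : ℝ) ≤
          4 * s1 (fun x e => Φ x 0 + Φ x e) w := by linarith
      have hcc : (0 : ℝ) ≤ Z.c0 * (kc Z * (2 * c)) := by positivity
      calc (Z.c0 : ℝ) * (kc Z * (2 * c) * (s1 (fun x e => Φ x 0 + Φ x e) w +
            ((n + Z.s : ℕ) + 1 : ℝ))) = (Z.c0 * (kc Z * (2 * c))) *
            (s1 (fun x e => Φ x 0 + Φ x e) w + ((n + Z.s : ℕ) + 1 : ℝ)) := by ring
        _ ≤ (Z.c0 * (kc Z * (2 * c))) * (4 * s1 (fun x e => Φ x 0 + Φ x e) w) :=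
            mul_le_mul_of_nonneg_left hfin hcc
        _ = _ := by ring

/-- sums over two lists -/
def pr (Φ : P → P → ℝ) (l l' : List P) : ℝ := (l.map (fun x => (l'.map (fun y => Φ x y)).sum)).sum

theorem pr_left (l1 l2 l' : List P) : pr Φ (l1 ++ l2) l' = pr Φ l1 l' + pr Φ l2 l' := by
  unfold pr
  rw [List.map_append, List.sum_append]

theorem pr_right (l l1 l2 : List P) : pr Φ l (l1 ++ l2) = pr Φ l l1 + pr Φ l l2 := by
  unfold pr
  simp only [List.map_append, List.sum_append]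
  rw [List.sum_map_add]

theorem pr_nonneg (h : ∀ x y, 0 ≤ Φ x y) (l l' : List P) : 0 ≤ pr Φ l l' :=
  list_sum_nonneg _ _ fun x => list_sum_nonneg _ _ fun y => h x y

theorem pr_symm (h : ∀ x y, Φ x y = Φ y x) (l l' : List P) : pr Φ l l' = pr Φ l' l := by
  induction l with
  | nil =>
    unfold pr
    simp
  | cons a l ih =>
    have e1 : a :: l = [a] ++ l := rfl
    rw [e1, pr_left, pr_right, ih]
    congr 1
    unfold pr
    simp only [List.map_cons, List.map_nil, List.sum_cons, List.sum_nil, add_zero]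
    congr 1
    apply List.map_congr_left
    intro x _
    exact h a x

theorem pr_le (l l' : List P) (X : ℝ) (h : ∀ x ∈ l, (l'.map (fun y => Φ x y)).sum ≤ X) :
    pr Φ l l' ≤ l.length * X := list_sum_const_le _ _ _ h

theorem s2_eq (w : List P) : s2 Φ w = pr Φ w w := rfl

/-- the sum of the two-point weights -/
theorem aw_s2 (hs : 1 ≤ Z.s) (hΦ : Ker Z c Φ) :
    AW Z.sys (Z.c0 * (kc Z * (2 + Z.k * (c + 1)) * c) * 3) (s2 Φ) := by
  have hc1 := hΦ.c1
  have hk := kc_nonneg Z
  refine aw_of _ _ (fun n w _ => ?_) (fun n w hw => ?_)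
  · rw [s2_eq]
    exact pr_nonneg hΦ.nn _ _
  · have hw' := (Z.mem_K).1 hw
    have hcard := length_mem hw Z
    refine ⟨fun x => kc Z * (2 + Z.k * (c + 1)) * (c * (w.map (fun y => Φ x y + 1)).sum),
      fun x => ?_, ?_, ?_⟩
    · have h1 : 0 ≤ (w.map (fun y => Φ x y + 1)).sum :=
        list_sum_nonneg _ _ fun y => by
          have := hΦ.nn x y
          positivity
      positivity
    · intro L R U U' hT hw1 hw2
      have hp := Z.pair _ _ hT
      have hl := Z.len _ _ hT
      obtain ⟨p, hpd⟩ : ∃ p, p = hd U' := ⟨_, rfl⟩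
      rw [← hpd]
      obtain ⟨X, hX⟩ : ∃ X : ℝ, X = c * (w.map (fun y => Φ p y + 1)).sum := ⟨_, rfl⟩
      have hpt : ∀ x ∈ U ++ U', ∀ y, Φ x y ≤ c * (Φ p y + 1) := by
        intro x hx y
        obtain ⟨a1, a2⟩ := near_hd hT hx
        rw [← hpd] at a1 a2
        exact hΦ.mv p x y a1 a2
      have hrow : ∀ x ∈ U ++ U', (w.map (fun y => Φ x y)).sum ≤ X := by
        intro x hx
        rw [hX, ← List.sum_map_mul_left]
        exact list_sum_le _ _ _ fun y _ => hpt x hx y
      have hpw : p ∈ w := by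
        rw [hw1, hpd]
        have := hd_mem (Rule.ne_nil hp.symm)
        simp [this]
      have hXc : c ≤ X := by
        rw [hX]
        have h1 : (1 : ℝ) ≤ (w.map (fun y => Φ p y + 1)).sum := by
          rw [sum_list w hw'.2.2.1]
          have h2 : Φ p p + 1 ≤ ∑ x ∈ w.toFinset, (Φ p x + 1) :=
            single_le_sum (f := fun x => Φ p x + 1) (fun x _ => by
              have := hΦ.nn p x
              positivity) (List.mem_toFinset.2 hpw)
          rw [hΦ.zero] at h2
          linarith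
        nlinarith
      have hX0 : 0 ≤ X := by linarith
      have hΦxy : ∀ x ∈ U, ∀ y ∈ U, Φ x y ≤ c * (c + 1) := by
        intro x hx y hy
        have h1 := hpt x (by simp [hx]) y
        have h2 := hpt y (by simp [hy]) p
        rw [hΦ.zero, hΦ.symm y p] at h2
        refine h1.trans (mul_le_mul_of_nonneg_left ?_ (by linarith))
        linarith
      have hUU : pr Φ U U ≤ Z.k * (Z.k * (c + 1)) * X := by
        have h1 : pr Φ U U ≤ U.length * (U.length * (c * (c + 1))) :=
          pr_le _ _ _ fun x hx => list_sum_const_le _ _ _ fun y hy => hΦxy x hx y hy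
        rw [hl.1] at h1
        refine h1.trans ?_
        have h2 : (Z.k : ℝ) * (Z.k * (c + 1)) * c ≤ Z.k * (Z.k * (c + 1)) * X :=
          mul_le_mul_of_nonneg_left hXc (by positivity)
        linarith
      have hUw : pr Φ U w ≤ Z.k * X := by
        have := pr_le (Φ := Φ) U w X fun x hx => hrow x (by simp [hx])
        rwa [hl.1] at this
      have hU'w : pr Φ U' w ≤ (Z.k + Z.s : ℝ) * X := by
        have := pr_le (Φ := Φ) U' w X fun x hx => hrow x (by simp [hx])
        rw [hl.2] at this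
        push_cast at this
        exact this
      have n1 := pr_nonneg hΦ.nn L U
      have n2 := pr_nonneg hΦ.nn R U
      have n3 := pr_nonneg hΦ.nn L U'
      have n4 := pr_nonneg hΦ.nn R U'
      have n5 := pr_nonneg hΦ.nn U' U'
      have n6 := pr_nonneg hΦ.nn U U
      have n7 := pr_nonneg hΦ.nn U U'
      have y1 := pr_symm hΦ.symm L U
      have y2 := pr_symm hΦ.symm R U
      have y3 := pr_symm hΦ.symm L U'
      have y4 := pr_symm hΦ.symm R U'
      have hw2' : s2 Φ (L ++ U ++ R) = pr Φ L L + pr Φ L R + pr Φ R L + pr Φ R R +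
          2 * pr Φ U L + 2 * pr Φ U R + pr Φ U U := by
        rw [s2_eq]
        simp only [pr_left, pr_right]
        linarith
      have hw1' : s2 Φ w = pr Φ L L + pr Φ L R + pr Φ R L + pr Φ R R +
          2 * pr Φ U' L + 2 * pr Φ U' R + pr Φ U' U' := by
        rw [hw1, s2_eq]
        simp only [pr_left, pr_right]
        linarith
      have e1 : pr Φ U w = pr Φ U L + pr Φ U U' + pr Φ U R := by
        rw [hw1]
        simp only [pr_right]
      have e2 : pr Φ U' w = pr Φ U' L + pr Φ U' U' + pr Φ U' R := by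
        rw [hw1]
        simp only [pr_right]
      rw [hw2', hw1']
      beta_reduce
      rw [← hX]
      unfold kc
      have j1 : 0 ≤ (Z.k : ℝ) * X := by positivity
      have j2 : 0 ≤ (Z.s : ℝ) * X := by positivity
      have j3 : 0 ≤ (Z.k : ℝ) * (Z.k * (c + 1)) * X := by positivity
      have j4 : 0 ≤ (Z.s : ℝ) * (Z.k * (c + 1)) * X := by positivity
      have e3 : (2 * (Z.k : ℝ) + Z.s) * (2 + Z.k * (c + 1)) * X =
          4 * (Z.k * X) + 2 * (Z.s * X) + 2 * (Z.k * (Z.k * (c + 1)) * X) +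
            Z.s * (Z.k * (c + 1)) * X := by ring
      rw [e3]
      have e4 : (Z.k + Z.s : ℝ) * X = Z.k * X + Z.s * X := by ring
      rw [e4] at hU'w
      rw [abs_le]
      constructor <;> linarith
    · have hN : (1 : ℝ) ≤ ((n + Z.s : ℕ) : ℝ) := by
        have : 1 ≤ n + Z.s := by omega
        exact_mod_cast this
      have hlen : (w.length : ℝ) = ((n + Z.s : ℕ) : ℝ) + 1 := by
        rw [hw'.1]
        push_cast
        ring
      have hrow1 : ∀ x, (w.map (fun y => Φ x y + 1)).sum =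
          (w.map (fun y => Φ x y)).sum + (((n + Z.s : ℕ) : ℝ) + 1) := by
        intro x
        rw [List.sum_map_add, ← hlen]
        congr 1
        simp
      have hsum : ∑ x ∈ w.toFinset, (w.map (fun y => Φ x y + 1)).sum =
          s2 Φ w + (((n + Z.s : ℕ) : ℝ) + 1) ^ 2 := by
        unfold s2
        rw [sum_list w hw'.2.2.1]
        simp only [hrow1]
        rw [sum_add_distrib, sum_const, nsmul_eq_mul, hcard]
        push_cast
        ring
      have hlow : (((n + Z.s : ℕ) : ℝ) + 1) * ((n + Z.s : ℕ) : ℝ) ≤ s2 Φ w := by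
        unfold s2
        rw [sum_list w hw'.2.2.1]
        have h1 : ∀ x ∈ w.toFinset, ((n + Z.s : ℕ) : ℝ) ≤ (w.map (fun y => Φ x y)).sum := by
          intro x hx
          rw [sum_list w hw'.2.2.1]
          have h2 : ∑ y ∈ w.toFinset, (if y = x then (0 : ℝ) else 1) ≤
              ∑ y ∈ w.toFinset, Φ x y := by
            refine sum_le_sum fun y _ => ?_
            split_ifs with h
            · exact hΦ.nn x y
            · exact hΦ.one x y (Ne.symm h)
          refine le_trans ?_ h2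
          have h3 : ∑ y ∈ w.toFinset, (if y = x then (0 : ℝ) else 1) =
              ∑ y ∈ w.toFinset, (1 - (if y = x then (1 : ℝ) else 0)) := by
            refine sum_congr rfl fun y _ => ?_
            split_ifs <;> norm_num
          rw [h3, sum_sub_distrib, sum_const, nsmul_one, hcard, sum_ite_eq', if_pos hx]
          push_cast
          linarith
        have h4 := sum_le_sum h1
        rw [sum_const, nsmul_eq_mul, hcard] at h4
        push_cast at h4 ⊢
        exact h4
      rw [← mul_sum, ← mul_sum, hsum]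
      have hfin : s2 Φ w + (((n + Z.s : ℕ) : ℝ) + 1) ^ 2 ≤ 3 * s2 Φ w := by nlinarith
      have hcc : (0 : ℝ) ≤ Z.c0 * (kc Z * (2 + Z.k * (c + 1)) * c) := by positivity
      calc (Z.c0 : ℝ) * (kc Z * (2 + Z.k * (c + 1)) *
            (c * (s2 Φ w + (((n + Z.s : ℕ) : ℝ) + 1) ^ 2))) =
            (Z.c0 * (kc Z * (2 + Z.k * (c + 1)) * c)) *
              (s2 Φ w + (((n + Z.s : ℕ) : ℝ) + 1) ^ 2) := by ring
        _ ≤ (Z.c0 * (kc Z * (2 + Z.k * (c + 1)) * c)) * (3 * s2 Φ w) :=
            mul_le_mul_of_nonneg_left hfin hcc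
        _ = _ := by ring

end

end Q294.Av
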