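import Pool.Agent.Q294.Av3
import Pool.Agent.TH966.AK.HexEnd

/-!
# Sizes of walks for a lattice with positions; lengths with small gaps
-/

set_option autoImplicit false

namespace Q294.Av

open Finset Filter Topology TH966.AK
open scoped Classical

noncomputable section

/-! ### small gaps -/

/-- the rate -/
def gg (n : ℕ) : ℝ := Real.log n / √(n : ℝ)

theorem gg_pos {n : ℕ} (hn : 2 ≤ n) : 0 < gg n := g_pos n hn

theorem gg_nonneg (n : ℕ) : 0 ≤ gg n := by
  unfold gg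
  exact div_nonneg (Real.log_natCast_nonneg n) (Real.sqrt_nonneg _)

theorem gg_anti {m n : ℕ} (hm : 8 ≤ m) (hmn : m ≤ n) : gg n ≤ gg m := by
  unfold gg
  have h1 : Real.exp 2 ≤ (m : ℝ) := by
    have h2 : Real.exp 2 = Real.exp 1 * Real.exp 1 := by rw [← Real.exp_add]; norm_num
    have h3 := Real.exp_one_lt_d9
    have h4 : (8 : ℝ) ≤ m := by exact_mod_cast hm
    have h5 : 0 < Real.exp 1 := Real.exp_pos 1
    nlinarith
  have h6 : (m : ℝ) ≤ n := by exact_mod_cast hmn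
  have := Real.log_div_sqrt_antitoneOn (show (m : ℝ) ∈ {x : ℝ | Real.exp 2 ≤ x} from h1)
    (show (n : ℝ) ∈ {x : ℝ | Real.exp 2 ≤ x} from h1.trans h6) h6
  exact this

theorem inv_le_gg {n : ℕ} (hn : 3 ≤ n) : 1 / (n : ℝ) ≤ gg n := by
  unfold gg
  have h1 : (3 : ℝ) ≤ n := by exact_mod_cast hn
  have h0 : (0 : ℝ) < n := by linarith
  have h2 : 1 ≤ Real.log n := by
    rw [Real.le_log_iff_exp_le h0]
    have := Real.exp_one_lt_d9
    linarith
  have h3 : √(n : ℝ) ≤ n := by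
    rw [Real.sqrt_le_left h0.le]
    nlinarith
  have h4 : 0 < √(n : ℝ) := Real.sqrt_pos.2 h0
  rw [div_le_div_iff₀ h0 h4]
  nlinarith

theorem step_sum_le (ℓ : ℕ → ℝ) (K : ℝ) (hK : 0 ≤ K) (N : ℕ) (hN : 8 ≤ N)
    (h : ∀ n, N ≤ n → |ℓ (n + 1) - ℓ n| ≤ K * gg n) (m : ℕ) (hm : N ≤ m) (j : ℕ) :
    |ℓ (m + j) - ℓ m| ≤ j * (K * gg m) := by
  induction j with
  | zero => simp
  | succ j ih =>
    have h1 := h (m + j) (by omega)
    have h2 : gg (m + j) ≤ gg m := gg_anti (by omega) (by omega)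
    have h3 : K * gg (m + j) ≤ K * gg m := mul_le_mul_of_nonneg_left h2 hK
    have h4 : ℓ (m + (j + 1)) - ℓ m = (ℓ (m + j + 1) - ℓ (m + j)) + (ℓ (m + j) - ℓ m) := by
      rw [← add_assoc]; ring
    rw [h4]
    refine (abs_add_le _ _).trans ?_
    push_cast
    linarith

/-- a sequence with small steps which converges along a sequence with small gaps converges -/
theorem sparse_add (ℓ : ℕ → ℝ) (K : ℝ) (h : ∀ᶠ n in atTop, |ℓ (n + 1) - ℓ n| ≤ K * gg n)
    (t : ℕ → ℕ) (ht : Tendsto t atTop atTop)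
    (hgap : Tendsto (fun k => ((t (k + 1) : ℝ) - t k) * gg (t k)) atTop (𝓝 0)) (L : ℝ)
    (hlim : Tendsto (fun k => ℓ (t k)) atTop (𝓝 L)) : Tendsto ℓ atTop (𝓝 L) := by
  obtain ⟨N0, hN0⟩ := eventually_atTop.1 h
  obtain ⟨K', hK'⟩ : ∃ K' : ℝ, K' = |K| := ⟨_, rfl⟩
  have hK0 : 0 ≤ K' := by rw [hK']; exact abs_nonneg _
  have hN : ∀ n, N0 + 8 ≤ n → |ℓ (n + 1) - ℓ n| ≤ K' * gg n := fun n hn =>
    (hN0 n (by omega)).trans (mul_le_mul_of_nonneg_right (by rw [hK']; exact le_abs_self _)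
      (gg_nonneg _))
  have hstep := step_sum_le ℓ K' hK0 (N0 + 8) (by omega) hN
  rw [Metric.tendsto_atTop]
  intro ε hε
  have h1 : ∀ᶠ k in atTop, |ℓ (t k) - L| < ε / 2 := by
    have := (Metric.tendsto_atTop.1 hlim) (ε / 2) (by linarith)
    obtain ⟨k0, hk0⟩ := this
    filter_upwards [eventually_ge_atTop k0] with k hk
    exact hk0 k hk
  have h2 : ∀ᶠ k in atTop, ((t (k + 1) : ℝ) - t k) * gg (t k) < ε / (2 * (K' + 1)) :=
    hgap.eventually_lt_const (by positivity)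
  have h3 := ht.eventually_ge_atTop (N0 + 8)
  obtain ⟨k0, hk0⟩ := eventually_atTop.1 (h1.and (h2.and h3))
  refine ⟨t k0, fun n hn => ?_⟩
  -- the last index with `t k ≤ n`
  have hfin : ∃ k1, ∀ k, k1 ≤ k → n < t k := by
    obtain ⟨k1, hk1⟩ := eventually_atTop.1 (ht.eventually_gt_atTop n)
    exact ⟨k1, hk1⟩
  obtain ⟨k1, hk1⟩ := hfin
  have hex : ∃ k, k0 ≤ k ∧ t k ≤ n ∧ n < t (k + 1) := by
    by_contra hcon
    push Not at hcon
    have hall : ∀ j, t (k0 + j) ≤ n := by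
      intro j
      induction j with
      | zero => simpa using hn
      | succ j ih =>
        have := hcon (k0 + j) (by omega) ih
        rw [← add_assoc]
        exact this
    have h4 := hall k1
    have h5 := hk1 (k0 + k1) (by omega)
    omega
  obtain ⟨k, hk, hkn, hnk⟩ := hex
  obtain ⟨g1, g2, g3⟩ := hk0 k hk
  obtain ⟨j, rfl⟩ : ∃ j, n = t k + j := ⟨n - t k, by omega⟩
  have h4 := hstep (t k) g3 j
  have h5 : (j : ℝ) ≤ (t (k + 1) : ℝ) - t k := by
    have : t k + j ≤ t (k + 1) := hnk.le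
    have h6 : ((t k : ℝ) + j) ≤ t (k + 1) := by exact_mod_cast this
    linarith
  have h6 : (j : ℝ) * (K' * gg (t k)) ≤ K' * (ε / (2 * (K' + 1))) := by
    have h7 : (j : ℝ) * gg (t k) ≤ ((t (k + 1) : ℝ) - t k) * gg (t k) :=
      mul_le_mul_of_nonneg_right h5 (gg_nonneg _)
    calc (j : ℝ) * (K' * gg (t k)) = K' * (j * gg (t k)) := by ring
      _ ≤ K' * (ε / (2 * (K' + 1))) := mul_le_mul_of_nonneg_left (by linarith) hK0
  have h7 : K' * (ε / (2 * (K' + 1))) ≤ ε / 2 := by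
    rw [mul_div_assoc', div_le_div_iff₀ (by positivity) (by norm_num)]
    nlinarith
  rw [Real.dist_eq]
  have e : ℓ (t k + j) - L = (ℓ (t k + j) - ℓ (t k)) + (ℓ (t k) - L) := by ring
  rw [e]
  have := abs_add_le (ℓ (t k + j) - ℓ (t k)) (ℓ (t k) - L)
  linarith

/-- from quotients to logarithms -/
theorem log_step {x y δ : ℝ} (hx : 0 < x) (hy : 0 < y) (hδ : δ ≤ 1 / 2) (h : |y / x - 1| ≤ δ) :
    |Real.log y - Real.log x| ≤ 2 * δ := by
  have h0 : 0 ≤ δ := (abs_nonneg _).trans h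
  obtain ⟨h1, h2⟩ := abs_le.1 h
  have h3 : 0 < y / x := div_pos hy hx
  rw [← Real.log_div hy.ne' hx.ne', abs_le]
  constructor
  · have h4 := Real.one_sub_inv_le_log_of_pos h3
    have h5 : (y / x)⁻¹ ≤ 1 + 2 * δ := by
      rw [inv_le_comm₀ h3 (by linarith)]
      refine le_trans ?_ (show 1 - δ ≤ y / x by linarith)
      rw [inv_le_iff_one_le_mul₀ (by linarith)]
      nlinarith
    linarith
  · have := Real.log_le_sub_one_of_pos h3
    linarith

/-- criterion for positive sequences -/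
theorem sparse_pos (a : ℕ → ℝ) (hpos : ∀ᶠ n in atTop, 0 < a n) (K : ℝ)
    (h : ∀ᶠ n in atTop, |Real.log (a (n + 1)) - Real.log (a n)| ≤ K * gg n)
    (t : ℕ → ℕ) (ht : Tendsto t atTop atTop)
    (hgap : Tendsto (fun k => ((t (k + 1) : ℝ) - t k) * gg (t k)) atTop (𝓝 0)) (A : ℝ)
    (hA : 0 < A) (hlim : Tendsto (fun k => a (t k)) atTop (𝓝 A)) : Tendsto a atTop (𝓝 A) := by
  have h1 := sparse_add (fun n => Real.log (a n)) K h t ht hgap (Real.log A)
    ((Real.continuousAt_log hA.ne').tendsto.comp hlim)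
  have h2 := (Real.continuous_exp.tendsto (Real.log A)).comp h1
  rw [Real.exp_log hA] at h2
  refine h2.congr' ?_
  filter_upwards [hpos] with n hn
  simp only [Function.comp]
  rw [Real.exp_log hn]

/-! ### positions -/

variable {A : P → P → Prop} {Z : Rule A}

/-- properties of the positions -/
structure Pos (Z : Rule A) (d : ℝ) (pos : P → ℂ) : Prop where
  d0 : 0 ≤ d
  zero : pos 0 = 0
  sep : ∀ x y, x ≠ y → 1 ≤ ‖pos x - pos y‖
  mv : ∀ p x : P, |p.1 - x.1| ≤ (Z.ρ : ℤ) → |p.2 - x.2| ≤ (Z.ρ : ℤ) → ‖pos x - pos p‖ ≤ d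
  bd : ∀ (n : ℕ) (x : P), |x.1| ≤ n → |x.2| ≤ n → ‖pos x‖ ≤ 3 * n + 1

variable {d : ℝ} {pos : P → ℂ}

/-- the squared distance -/
def ds (pos : P → ℂ) (x y : P) : ℝ := ‖pos x - pos y‖ ^ 2

theorem ker_of (hP : Pos Z d pos) : Ker Z (2 * d ^ 2 + 2) (ds pos) := by
  refine ⟨?_, fun x y => ?_, fun x y => ?_, fun x => ?_, fun x y h => ?_, fun p x y h1 h2 => ?_⟩
  · nlinarith [sq_nonneg d]
  · unfold ds; positivity
  · unfold ds; rw [norm_sub_rev]
  · unfold ds; simp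
  · unfold ds
    exact one_le_pow₀ (hP.sep x y h)
  · unfold ds
    have h3 := hP.mv p x h1 h2
    have h4 : ‖pos x - pos y‖ ≤ ‖pos x - pos p‖ + ‖pos p - pos y‖ := norm_sub_le_norm_sub_add_norm_sub _ _ _
    have h5 : 0 ≤ ‖pos x - pos p‖ := norm_nonneg _
    have h6 : 0 ≤ ‖pos p - pos y‖ := norm_nonneg _
    have h7 : 0 ≤ ‖pos x - pos y‖ := norm_nonneg _
    have h8 : ‖pos x - pos y‖ ^ 2 ≤ 2 * d ^ 2 + 2 * ‖pos p - pos y‖ ^ 2 := by
      have h9 : ‖pos x - pos y‖ ^ 2 ≤ (d + ‖pos p - pos y‖) ^ 2 :=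
        pow_le_pow_left₀ h7 (by linarith) 2
      nlinarith [sq_nonneg (d - ‖pos p - pos y‖)]
    have h10 : 0 ≤ d ^ 2 * ‖pos p - pos y‖ ^ 2 := by positivity
    nlinarith

theorem coord_le {n : ℕ} {w : List P} (hw : w ∈ Kw A n) {x : P} (hx : x ∈ w) :
    |x.1| ≤ n ∧ |x.2| ≤ n := by
  unfold Kw at hw
  rw [mem_filter, mem_lists] at hw
  have := hw.1.2 x hx
  rw [mem_box] at this
  simpa using this

theorem ds_le (hP : Pos Z d pos) {n : ℕ} {x y : P} (hx : |x.1| ≤ n ∧ |x.2| ≤ n)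
    (hy : |y.1| ≤ n ∧ |y.2| ≤ n) : ds pos x y ≤ (2 * (n : ℝ) + 2) ^ 6 := by
  unfold ds
  have h1 := hP.bd n x hx.1 hx.2
  have h2 := hP.bd n y hy.1 hy.2
  have h3 := norm_sub_le (pos x) (pos y)
  have h4 : 0 ≤ ‖pos x - pos y‖ := norm_nonneg _
  have h5 : (0 : ℝ) ≤ n := Nat.cast_nonneg n
  obtain ⟨b, hb⟩ : ∃ b : ℝ, b = 2 * (n : ℝ) + 2 := ⟨_, rfl⟩
  have hb2 : 2 ≤ b := by linarith
  have h6 : ‖pos x - pos y‖ ≤ 3 * b := by linarith
  rw [← hb]
  calc ‖pos x - pos y‖ ^ 2 ≤ (3 * b) ^ 2 := pow_le_pow_left₀ h4 h6 2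
    _ = 9 * b ^ 2 := by ring
    _ ≤ b ^ 4 * b ^ 2 := by
        refine mul_le_mul_of_nonneg_right ?_ (by positivity)
        have : (2 : ℝ) ^ 4 ≤ b ^ 4 := pow_le_pow_left₀ (by norm_num) hb2 4
        linarith
    _ = b ^ 6 := by ring

/-- the three weights -/
def wE (pos : P → ℂ) (w : List P) : ℝ := ds pos (lst w) 0
def wG (pos : P → ℂ) (w : List P) : ℝ := s2 (ds pos) w
def wM (pos : P → ℂ) (w : List P) : ℝ := s1 (fun x e => ds pos x 0 + ds pos x e) w

theorem lst_mem {n : ℕ} {w : List P} (hw : w ∈ Kw A n) (Z : Rule A) : lst w ∈ w := by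
  rw [Z.mem_K] at hw
  obtain ⟨a, b, rfl⟩ := List.exists_cons_of_length_eq_add_one hw.1
  unfold lst
  rw [List.getLast?_eq_getLast_of_ne_nil (by simp), Option.getD_some]
  exact List.getLast_mem _

theorem zero_coord (n : ℕ) : |(0 : P).1| ≤ n ∧ |(0 : P).2| ≤ n := by
  simp

theorem fw_E (hP : Pos Z d pos) (κ : ℝ) (hκ : 0 ≤ κ) : Fw Z κ 8 (wE pos) := by
  have hK := ker_of hP
  refine ⟨⟨fun n w _ => hK.nn _ _, fun n w _ hw => ?_⟩, fun n hn w hw => ?_, fun n w hw => ?_⟩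
  · have h1 : ∀ q ∈ Z.sys.B w, |wE pos (Z.sys.rem w q) - wE pos w| = 0 := by
      rintro ⟨U, U'⟩ hq
      change w ∈ Kw A (n + Z.s) at hw
      change (U, U') ∈ Z.B w at hq
      rw [Z.mem_K] at hw
      rw [Rule.mem_B] at hq
      obtain ⟨L, R, h1, h2, h3, -⟩ := Rule.rep_all (Z.pair _ _ hq.1).symm hw.2 hq.2
      change |wE pos (Rule.rep w U' U) - wE pos w| = 0
      simp only at h1 h2
      rw [h2]
      unfold wE
      rw [lst_rep (Z.pair _ _ hq.1), ← h1, sub_self, abs_zero]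
    rw [sum_congr rfl h1, sum_const_zero]
    exact mul_nonneg hκ (hK.nn _ _)
  · exact hK.one _ _ (lst_ne Z hn hw)
  · unfold wE
    refine (ds_le hP (coord_le hw (lst_mem hw Z)) (zero_coord n)).trans ?_
    have h5 : (0 : ℝ) ≤ n := Nat.cast_nonneg n
    exact pow_le_pow_right₀ (by linarith) (by norm_num)

theorem fw_G (hs : 1 ≤ Z.s) (hP : Pos Z d pos) : ∃ κ : ℝ, 0 ≤ κ ∧ Fw Z κ 8 (wG pos) := by
  have hK := ker_of hP
  have hk := kc_nonneg Z
  have hc := hK.c1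
  refine ⟨_, ?_, aw_s2 hs hK, fun n hn w hw => ?_, fun n w hw => ?_⟩
  · positivity
  · unfold wG
    rw [s2_eq]
    have hw' := (Z.mem_K).1 hw
    obtain ⟨a, b, rfl⟩ := List.exists_cons_of_length_eq_add_one hw'.1
    have hb : b ≠ [] := by
      rintro rfl
      have := hw'.1
      simp at this
      omega
    obtain ⟨c, l, rfl⟩ := List.exists_cons_of_ne_nil hb
    have hne : a ≠ c := by
      intro h
      have := hw'.2.2.1
      rw [List.nodup_cons] at this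
      exact this.1 (by simp [h])
    have e1 : a :: c :: l = [a] ++ ([c] ++ l) := rfl
    rw [e1]
    simp only [pr_left, pr_right]
    have n1 : ∀ l1 l2, 0 ≤ pr (ds pos) l1 l2 := fun l1 l2 => pr_nonneg hK.nn l1 l2
    have h1 : 1 ≤ pr (ds pos) [a] [c] := by
      unfold pr
      simp only [List.map_cons, List.map_nil, List.sum_cons, List.sum_nil, add_zero]
      exact hK.one a c hne
    have := n1 [a] [a]
    have := n1 [a] l
    have := n1 [c] [a]
    have := n1 [c] [c]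
    have := n1 [c] l
    have := n1 l [a]
    have := n1 l [c]
    have := n1 l l
    linarith
  · unfold wG
    rw [s2_eq]
    have hw' := (Z.mem_K).1 hw
    have h1 : pr (ds pos) w w ≤ w.length * (w.length * (2 * (n : ℝ) + 2) ^ 6) :=
      pr_le _ _ _ fun x hx => list_sum_const_le _ _ _ fun y hy =>
        ds_le hP (coord_le hw hx) (coord_le hw hy)
    refine h1.trans ?_
    rw [hw'.1]
    push_cast
    have h5 : (0 : ℝ) ≤ n := Nat.cast_nonneg n
    have h6 : (n : ℝ) + 1 ≤ 2 * n + 2 := by linarith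
    calc ((n : ℝ) + 1) * (((n : ℝ) + 1) * (2 * n + 2) ^ 6) ≤
          (2 * n + 2) * ((2 * n + 2) * (2 * n + 2) ^ 6) := by
          refine mul_le_mul h6 (mul_le_mul_of_nonneg_right h6 (by positivity)) (by positivity)
            (by positivity)
      _ = _ := by ring

theorem fw_M (hs : 1 ≤ Z.s) (hP : Pos Z d pos) : ∃ κ : ℝ, 0 ≤ κ ∧ Fw Z κ 8 (wM pos) := by
  have hK := ker_of hP
  have hk := kc_nonneg Z
  have hc := hK.c1
  refine ⟨_, ?_, aw_s1 hs hK, fun n hn w hw => ?_, fun n w hw => ?_⟩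
  · positivity
  · have hne := lst_ne Z hn hw
    have hmem := lst_mem hw Z
    have hw' := (Z.mem_K).1 hw
    unfold wM s1
    rw [sum_list w hw'.2.2.1]
    have h1 : ds pos (lst w) 0 + ds pos (lst w) (lst w) ≤
        ∑ x ∈ w.toFinset, (ds pos x 0 + ds pos x (lst w)) :=
      single_le_sum (f := fun x => ds pos x 0 + ds pos x (lst w))
        (fun x _ => add_nonneg (hK.nn _ _) (hK.nn _ _)) (List.mem_toFinset.2 hmem)
    have h2 := hK.one _ _ hne
    rw [hK.zero] at h1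
    linarith
  · unfold wM s1
    have hw' := (Z.mem_K).1 hw
    have h1 := list_sum_const_le w (fun x => ds pos x 0 + ds pos x (lst w))
      (2 * (2 * (n : ℝ) + 2) ^ 6) fun x hx => by
        have a1 := ds_le hP (coord_le hw hx) (zero_coord n)
        have a2 := ds_le hP (coord_le hw hx) (coord_le hw (lst_mem hw Z))
        linarith
    refine h1.trans ?_
    rw [hw'.1]
    push_cast
    have h5 : (0 : ℝ) ≤ n := Nat.cast_nonneg n
    calc ((n : ℝ) + 1) * (2 * (2 * n + 2) ^ 6) = (2 * n + 2) ^ 7 := by ring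
      _ ≤ _ := pow_le_pow_right₀ (by linarith) (by norm_num)

end

end Q294.Av
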