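import Pool.Agent.Q294.Av4

/-!
# The triangular and the honeycomb lattice: positions
-/

set_option autoImplicit false

namespace Q294.Av

open Finset Filter Topology TH966.AK
open scoped Classical

noncomputable section

/-- positions of the points of the triangular lattice -/
def posT (p : ℤ × ℤ) : ℂ := ⟨p.1 + p.2 / 2, √3 / 2 * p.2⟩

/-- positions of the points of the honeycomb lattice (brick wall coordinates) -/
def posH (p : ℤ × ℤ) : ℂ := ⟨√3 / 2 * p.1, (3 * p.2 - ((p.1 + p.2) % 2 : ℤ)) / 2⟩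

theorem s3 : √3 * √3 = (3 : ℝ) := Real.mul_self_sqrt (by norm_num)

theorem normT (p q : ℤ × ℤ) : ‖posT p - posT q‖ ^ 2 =
    (((p.1 - q.1) ^ 2 + (p.1 - q.1) * (p.2 - q.2) + (p.2 - q.2) ^ 2 : ℤ) : ℝ) := by
  rw [Complex.sq_norm, Complex.normSq_apply]
  unfold posT
  simp only [Complex.sub_re, Complex.sub_im]
  push_cast
  have := s3
  linear_combination (((p.2 : ℝ) - q.2) ^ 2 / 4) * this

theorem normH (p q : ℤ × ℤ) : 4 * ‖posH p - posH q‖ ^ 2 =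
    ((3 * (p.1 - q.1) ^ 2 + (3 * (p.2 - q.2) - (p.1 + p.2) % 2 + (q.1 + q.2) % 2) ^ 2 : ℤ) : ℝ) := by
  rw [Complex.sq_norm, Complex.normSq_apply]
  unfold posH
  simp only [Complex.sub_re, Complex.sub_im]
  obtain ⟨a, ha⟩ : ∃ a : ℤ, a = (p.1 + p.2) % 2 := ⟨_, rfl⟩
  obtain ⟨b, hb⟩ : ∃ b : ℤ, b = (q.1 + q.2) % 2 := ⟨_, rfl⟩
  rw [← ha, ← hb]
  push_cast
  have := s3
  linear_combination (((p.1 : ℝ) - q.1) ^ 2) * this

theorem one_le_of_sq {x : ℝ} (h0 : 0 ≤ x) (h : 1 ≤ x ^ 2) : 1 ≤ x := by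
  by_contra hcon
  push Not at hcon
  nlinarith

theorem sepT (p q : ℤ × ℤ) (h : p ≠ q) : 1 ≤ ‖posT p - posT q‖ := by
  refine one_le_of_sq (norm_nonneg _) ?_
  rw [normT]
  obtain ⟨a, ha⟩ : ∃ a, a = p.1 - q.1 := ⟨_, rfl⟩
  obtain ⟨b, hb⟩ : ∃ b, b = p.2 - q.2 := ⟨_, rfl⟩
  rw [← ha, ← hb]
  have h1 : a ≠ 0 ∨ b ≠ 0 := by
    by_contra hcon
    push Not at hcon
    apply h
    rw [Prod.ext_iff]
    constructor <;> omega
  have h2 : 0 < a ^ 2 + a * b + b ^ 2 := by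
    rcases h1 with h1 | h1
    · have : 0 < a ^ 2 := by positivity
      nlinarith [sq_nonneg (a + 2 * b)]
    · have : 0 < b ^ 2 := by positivity
      nlinarith [sq_nonneg (2 * a + b)]
  have h3 : 1 ≤ a ^ 2 + a * b + b ^ 2 := h2
  exact_mod_cast h3

theorem sepH (p q : ℤ × ℤ) (h : p ≠ q) : 1 ≤ ‖posH p - posH q‖ := by
  refine one_le_of_sq (norm_nonneg _) ?_
  have h0 := normH p q
  obtain ⟨a, ha⟩ : ∃ a, a = p.1 - q.1 := ⟨_, rfl⟩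
  obtain ⟨b, hb⟩ : ∃ b, b = 3 * (p.2 - q.2) - (p.1 + p.2) % 2 + (q.1 + q.2) % 2 := ⟨_, rfl⟩
  rw [← ha, ← hb] at h0
  have h1 : p.1 ≠ q.1 ∨ p.2 ≠ q.2 := by
    by_contra hcon
    push Not at hcon
    exact h (Prod.ext_iff.2 hcon)
  have h2 : 4 ≤ 3 * a ^ 2 + b ^ 2 := by
    have hcase : a = 0 ∨ a = 1 ∨ a = -1 ∨ 2 ≤ |a| := by
      by_contra hcon
      push Not at hcon
      obtain ⟨c1, c2, c3, c4⟩ := hcon
      rw [abs_lt] at c4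
      omega
    rcases hcase with h3 | h3 | h3 | h3
    · have h4 : 2 ≤ |b| := by
        by_contra hcon
        rw [not_le, abs_lt] at hcon
        omega
      have := pow_le_pow_left₀ (by norm_num) h4 2
      rw [sq_abs] at this
      nlinarith [sq_nonneg a]
    · have h4 : 1 ≤ |b| := by
        by_contra hcon
        rw [not_le, abs_lt] at hcon
        omega
      have := pow_le_pow_left₀ (by norm_num) h4 2
      rw [sq_abs] at this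
      rw [h3]
      linarith
    · have h4 : 1 ≤ |b| := by
        by_contra hcon
        rw [not_le, abs_lt] at hcon
        omega
      have := pow_le_pow_left₀ (by norm_num) h4 2
      rw [sq_abs] at this
      rw [h3]
      linarith
    · have := pow_le_pow_left₀ (by norm_num) h3 2
      rw [sq_abs] at this
      nlinarith [sq_nonneg b]
  have h3 : (4 : ℝ) ≤ ((3 * a ^ 2 + b ^ 2 : ℤ) : ℝ) := by exact_mod_cast h2
  rw [← h0] at h3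
  linarith

theorem solT (a b : ℤ) (h : a ^ 2 + a * b + b ^ 2 = 1) :
    (a = 1 ∧ b = 0) ∨ (a = -1 ∧ b = 0) ∨ (a = 0 ∧ b = 1) ∨ (a = 0 ∧ b = -1) ∨
        (a = 1 ∧ b = -1) ∨ (a = -1 ∧ b = 1) := by
  have ha1 : a ^ 2 ≤ 1 := by nlinarith [sq_nonneg (a + 2 * b)]
  have hb1 : b ^ 2 ≤ 1 := by nlinarith [sq_nonneg (2 * a + b)]
  have ha2 : a ≤ 1 := by nlinarith
  have ha3 : -1 ≤ a := by nlinarith
  have hb2 : b ≤ 1 := by nlinarith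
  have hb3 : -1 ≤ b := by nlinarith
  have ha4 : a = -1 ∨ a = 0 ∨ a = 1 := by omega
  have hb4 : b = -1 ∨ b = 0 ∨ b = 1 := by omega
  rcases ha4 with rfl | rfl | rfl <;> rcases hb4 with rfl | rfl | rfl <;> omega

theorem solH (a b : ℤ) (h : 3 * a ^ 2 + b ^ 2 = 4) :
    (a = 0 ∧ (b = 2 ∨ b = -2)) ∨ (a = 1 ∧ (b = 1 ∨ b = -1)) ∨
        (a = -1 ∧ (b = 1 ∨ b = -1)) := by
  have ha1 : a ^ 2 ≤ 1 := by nlinarith [sq_nonneg b]
  have hb1 : b ^ 2 ≤ 4 := by nlinarith [sq_nonneg a]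
  have ha2 : a ≤ 1 := by nlinarith
  have ha3 : -1 ≤ a := by nlinarith
  have hb2 : b ≤ 2 := by nlinarith
  have hb3 : -2 ≤ b := by nlinarith
  have ha4 : a = -1 ∨ a = 0 ∨ a = 1 := by omega
  have hb4 : b = -2 ∨ b = -1 ∨ b = 0 ∨ b = 1 ∨ b = 2 := by omega
  rcases ha4 with rfl | rfl | rfl <;> rcases hb4 with rfl | rfl | rfl | rfl | rfl <;> omega

theorem adjT (p q : ℤ × ℤ) : Tri.A p q ↔ ‖posT q - posT p‖ = 1 := by
  have h1 : ‖posT q - posT p‖ = 1 ↔ ‖posT q - posT p‖ ^ 2 = 1 := by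
    constructor
    · intro h; rw [h]; norm_num
    · intro h
      have := norm_nonneg (posT q - posT p)
      nlinarith
  rw [h1, normT, Tri.A_iff]
  obtain ⟨a, ha⟩ : ∃ a, a = q.1 - p.1 := ⟨_, rfl⟩
  obtain ⟨b, hb⟩ : ∃ b, b = q.2 - p.2 := ⟨_, rfl⟩
  rw [← ha, ← hb]
  have h2 : (((a ^ 2 + a * b + b ^ 2 : ℤ) : ℝ) = 1) ↔ a ^ 2 + a * b + b ^ 2 = 1 := by
    norm_cast
  rw [h2]
  constructor
  · intro h
    have h3 : (a = 1 ∧ b = 0) ∨ (a = -1 ∧ b = 0) ∨ (a = 0 ∧ b = 1) ∨ (a = 0 ∧ b = -1) ∨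
        (a = 1 ∧ b = -1) ∨ (a = -1 ∧ b = 1) := by omega
    rcases h3 with ⟨h4, h5⟩ | ⟨h4, h5⟩ | ⟨h4, h5⟩ | ⟨h4, h5⟩ | ⟨h4, h5⟩ | ⟨h4, h5⟩ <;>
      rw [h4, h5] <;> norm_num
  · intro h
    have h3 := solT a b h
    omega

theorem adjH (p q : ℤ × ℤ) : Hex.A p q ↔ ‖posH q - posH p‖ = 1 := by
  have h1 : ‖posH q - posH p‖ = 1 ↔ 4 * ‖posH q - posH p‖ ^ 2 = 4 := by
    constructor
    · intro h; rw [h]; norm_num
    · intro h
      have := norm_nonneg (posH q - posH p)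
      nlinarith
  rw [h1, normH, Hex.A_iff]
  obtain ⟨a, ha⟩ : ∃ a, a = q.1 - p.1 := ⟨_, rfl⟩
  obtain ⟨b, hb⟩ : ∃ b, b = 3 * (q.2 - p.2) - (q.1 + q.2) % 2 + (p.1 + p.2) % 2 := ⟨_, rfl⟩
  rw [← ha, ← hb]
  have h2 : (((3 * a ^ 2 + b ^ 2 : ℤ) : ℝ) = 4) ↔ 3 * a ^ 2 + b ^ 2 = 4 := by
    norm_cast
  rw [h2]
  constructor
  · intro h
    have h3 : (a = 0 ∧ (b = 2 ∨ b = -2)) ∨ (a = 1 ∧ (b = 1 ∨ b = -1)) ∨
        (a = -1 ∧ (b = 1 ∨ b = -1)) := by omega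
    rcases h3 with ⟨h4, h5 | h5⟩ | ⟨h4, h5 | h5⟩ | ⟨h4, h5 | h5⟩ <;>
      rw [h4, h5] <;> norm_num
  · intro h
    have h3 := solH a b h
    omega

theorem bdT (n : ℕ) (x : P) (h1 : |x.1| ≤ n) (h2 : |x.2| ≤ n) : ‖posT x‖ ≤ 3 * n + 1 := by
  have h3 : ‖posT x‖ ^ 2 = ((x.1 ^ 2 + x.1 * x.2 + x.2 ^ 2 : ℤ) : ℝ) := by
    have := normT x 0
    have e : posT 0 = 0 := by
      unfold posT
      apply Complex.ext <;> simp
    rw [e, sub_zero] at this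
    simpa using this
  have h4 : x.1 ^ 2 ≤ (n : ℤ) ^ 2 := sq_le_sq.2 (by rwa [Nat.abs_cast])
  have h5 : x.2 ^ 2 ≤ (n : ℤ) ^ 2 := sq_le_sq.2 (by rwa [Nat.abs_cast])
  have h6 : x.1 ^ 2 + x.1 * x.2 + x.2 ^ 2 ≤ (3 * (n : ℤ) + 1) ^ 2 := by
    have h7 : (0 : ℤ) ≤ n := Nat.cast_nonneg n
    nlinarith [sq_nonneg (x.1 - x.2)]
  have h7 : ‖posT x‖ ^ 2 ≤ (3 * (n : ℝ) + 1) ^ 2 := by
    rw [h3]
    exact_mod_cast h6
  exact (sq_le_sq₀ (norm_nonneg _) (by positivity)).1 h7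

theorem bdH (n : ℕ) (x : P) (h1 : |x.1| ≤ n) (h2 : |x.2| ≤ n) : ‖posH x‖ ≤ 3 * n + 1 := by
  have h3 : 4 * ‖posH x‖ ^ 2 = ((3 * x.1 ^ 2 + (3 * x.2 - (x.1 + x.2) % 2) ^ 2 : ℤ) : ℝ) := by
    have := normH x 0
    have e : posH 0 = 0 := by
      unfold posH
      apply Complex.ext <;> simp
    rw [e, sub_zero] at this
    simpa using this
  have h4 : x.1 ^ 2 ≤ (n : ℤ) ^ 2 := sq_le_sq.2 (by rwa [Nat.abs_cast])
  have h5 : (3 * x.2 - (x.1 + x.2) % 2) ^ 2 ≤ (3 * (n : ℤ) + 1) ^ 2 := by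
    rw [abs_le] at h2
    refine sq_le_sq.2 ?_
    rw [abs_of_nonneg (show (0 : ℤ) ≤ 3 * n + 1 by positivity), abs_le]
    constructor <;> omega
  have h6 : 3 * x.1 ^ 2 + (3 * x.2 - (x.1 + x.2) % 2) ^ 2 ≤ 4 * (3 * (n : ℤ) + 1) ^ 2 := by
    have h7 : (0 : ℤ) ≤ n := Nat.cast_nonneg n
    nlinarith
  have h7 : ‖posH x‖ ^ 2 ≤ (3 * (n : ℝ) + 1) ^ 2 := by
    have h8 : ((3 * x.1 ^ 2 + (3 * x.2 - (x.1 + x.2) % 2) ^ 2 : ℤ) : ℝ) ≤
        4 * (3 * (n : ℝ) + 1) ^ 2 := by exact_mod_cast h6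
    linarith
  exact (sq_le_sq₀ (norm_nonneg _) (by positivity)).1 h7

theorem pos_T : Pos Tri.rule 30 posT := by
  refine ⟨by norm_num, ?_, sepT, fun p x h1 h2 => ?_, bdT⟩
  · unfold posT
    apply Complex.ext <;> simp
  · have h3 := normT x p
    have hρ : (Tri.rule.ρ : ℤ) = 1 := rfl
    rw [hρ] at h1 h2
    obtain ⟨a, ha⟩ : ∃ a, a = x.1 - p.1 := ⟨_, rfl⟩
    obtain ⟨b, hb⟩ : ∃ b, b = x.2 - p.2 := ⟨_, rfl⟩
    rw [← ha, ← hb] at h3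
    have ha1 : |a| ≤ 1 := by rw [ha, abs_sub_comm]; exact h1
    have hb1 : |b| ≤ 1 := by rw [hb, abs_sub_comm]; exact h2
    rw [abs_le] at ha1 hb1
    have h4 : a ^ 2 + a * b + b ^ 2 ≤ 900 := by nlinarith [sq_nonneg (a - b)]
    have h5 : ‖posT x - posT p‖ ^ 2 ≤ (30 : ℝ) ^ 2 := by
      rw [h3]
      have : ((a ^ 2 + a * b + b ^ 2 : ℤ) : ℝ) ≤ 900 := by exact_mod_cast h4
      linarith
    exact (sq_le_sq₀ (norm_nonneg _) (by positivity)).1 h5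

theorem pos_H : Pos Hex.rule 30 posH := by
  refine ⟨by norm_num, ?_, sepH, fun p x h1 h2 => ?_, bdH⟩
  · unfold posH
    apply Complex.ext <;> simp
  · have h3 := normH x p
    have hρ : (Hex.rule.ρ : ℤ) = 8 := rfl
    rw [hρ] at h1 h2
    obtain ⟨a, ha⟩ : ∃ a, a = x.1 - p.1 := ⟨_, rfl⟩
    obtain ⟨b, hb⟩ : ∃ b, b = 3 * (x.2 - p.2) - (x.1 + x.2) % 2 + (p.1 + p.2) % 2 := ⟨_, rfl⟩
    rw [← ha, ← hb] at h3
    have ha1 : |a| ≤ 8 := by rw [ha, abs_sub_comm]; exact h1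
    have hb1 : |b| ≤ 25 := by
      rw [abs_le] at h2 ⊢
      constructor <;> omega
    have h6 := pow_le_pow_left₀ (abs_nonneg a) ha1 2
    have h7 := pow_le_pow_left₀ (abs_nonneg b) hb1 2
    rw [sq_abs] at h6 h7
    have h4 : 3 * a ^ 2 + b ^ 2 ≤ 4 * 900 := by linarith
    have h5 : ‖posH x - posH p‖ ^ 2 ≤ (30 : ℝ) ^ 2 := by
      have : ((3 * a ^ 2 + b ^ 2 : ℤ) : ℝ) ≤ 4 * 900 := by exact_mod_cast h4
      linarith
    exact (sq_le_sq₀ (norm_nonneg _) (by positivity)).1 h5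

end

end Q294.Av
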