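import Pool.Agent.Q294.Av5

/-!
# Means of the sizes of walks
-/

set_option autoImplicit false

namespace Q294.Av

open Finset Filter Topology TH966.AK
open scoped Classical

noncomputable section

variable {A : P → P → Prop} {Z : Rule A} {μ K d : ℝ} {pos : P → ℂ}

/-- sums over walks given as functions -/
theorem sum_fun (Z : Rule A) (n : ℕ) (F : (Fin (n + 1) → ℤ × ℤ) → ℝ) (f : List P → ℝ) (c : ℝ)
    (h : ∀ ω : Fin (n + 1) → ℤ × ℤ, F ω = c * f (List.ofFn ω)) :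
    ∑ᶠ ω ∈ wks A n, F ω = c * WG A f n := by
  unfold WG
  rw [mul_sum, ← finsum_mem_coe_finset, ← image_wks Z,
    finsum_mem_image (List.ofFn_injective.injOn)]
  exact finsum_mem_congr rfl fun ω _ => h ω

theorem lsum_ofFn {n : ℕ} (ω : Fin n → ℤ × ℤ) (g : P → ℝ) :
    ((List.ofFn ω).map g).sum = ∑ i, g (ω i) := by
  rw [List.map_ofFn, List.sum_ofFn]
  rfl

theorem valE (n : ℕ) (ω : Fin (n + 1) → ℤ × ℤ) (h0 : pos 0 = 0) :
    ‖pos (ω (Fin.last n))‖ ^ 2 = 1 * wE pos (List.ofFn ω) := by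
  unfold wE ds
  rw [lst_ofFn, h0, sub_zero, one_mul]

theorem valG (n : ℕ) (ω : Fin (n + 1) → ℤ × ℤ) :
    1 / (2 * ((n : ℝ) + 1) ^ 2) * ∑ i, ∑ j, ‖pos (ω i) - pos (ω j)‖ ^ 2 =
      1 / (2 * ((n : ℝ) + 1) ^ 2) * wG pos (List.ofFn ω) := by
  unfold wG s2
  rw [lsum_ofFn]
  simp only [lsum_ofFn, ds]

theorem valM (n : ℕ) (ω : Fin (n + 1) → ℤ × ℤ) (h0 : pos 0 = 0) :
    1 / (2 * ((n : ℝ) + 1)) *
        ∑ i, (‖pos (ω i)‖ ^ 2 + ‖pos (ω i) - pos (ω (Fin.last n))‖ ^ 2) =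
      1 / (2 * ((n : ℝ) + 1)) * wM pos (List.ofFn ω) := by
  unfold wM s1
  rw [lsum_ofFn, lst_ofFn]
  simp only [ds, h0, sub_zero]

/-- the normalising constants -/
theorem cst_ratio (s j : ℕ) (hj : j ≤ 2) (n : ℕ) (hn : 3 ≤ n) :
    0 < (((n : ℝ) + 1) / (((n + s : ℕ) : ℝ) + 1)) ^ j ∧
    (((n : ℝ) + 1) / (((n + s : ℕ) : ℝ) + 1)) ^ j ≤ 1 ∧
    1 - (((n : ℝ) + 1) / (((n + s : ℕ) : ℝ) + 1)) ^ j ≤ 2 * s * gg n := by
  have h1 : (0 : ℝ) < (n : ℝ) + 1 := by positivity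
  have h2 : (0 : ℝ) < ((n + s : ℕ) : ℝ) + 1 := by positivity
  obtain ⟨x, hx⟩ : ∃ x : ℝ, x = ((n : ℝ) + 1) / (((n + s : ℕ) : ℝ) + 1) := ⟨_, rfl⟩
  rw [← hx]
  have hx0 : 0 < x := by rw [hx]; positivity
  have hx1 : x ≤ 1 := by
    rw [hx, div_le_one h2]
    push_cast
    have : (0 : ℝ) ≤ s := Nat.cast_nonneg s
    linarith
  have hs0 : (0 : ℝ) ≤ s := Nat.cast_nonneg s
  have hx2 : 1 - x ≤ s * gg n := by
    have h3 : 1 - x = s / (((n + s : ℕ) : ℝ) + 1) := by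
      rw [hx]
      push_cast
      field_simp
      ring
    rw [h3, div_eq_mul_one_div]
    refine mul_le_mul_of_nonneg_left ?_ hs0
    refine le_trans ?_ (inv_le_gg hn)
    refine one_div_le_one_div_of_le (by positivity) ?_
    push_cast
    linarith
  refine ⟨by positivity, pow_le_one₀ hx0.le hx1, ?_⟩
  have hg := gg_nonneg n
  interval_cases j
  · simp only [pow_zero]
    have : 0 ≤ 2 * (s : ℝ) * gg n := by positivity
    linarith
  · simp only [pow_one]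
    have : 0 ≤ (s : ℝ) * gg n := by positivity
    linarith
  · nlinarith

/-- the means with normalising constants -/
theorem mean_ratio (G : Growth Z μ K) (m : ℕ) (κ : ℝ) (hκ : 0 ≤ κ) (f : List P → ℝ)
    (hf : Fw Z κ m f) (j : ℕ) (hj : j ≤ 2) (b : ℝ) (hb : 0 < b) :
    ∃ R : ℝ, ∀ n : ℕ, 2 ≤ n →
      0 < (1 / (b * ((n : ℝ) + 1) ^ j)) * WG A f n / (Kw A n).card ∧
      |((1 / (b * (((n + Z.s : ℕ) : ℝ) + 1) ^ j)) * WG A f (n + Z.s) / (Kw A (n + Z.s)).card) /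
        ((1 / (b * ((n : ℝ) + 1) ^ j)) * WG A f n / (Kw A n).card) - 1| ≤ R * gg n := by
  have hμ := G.hμ
  have hμ0 : 0 < μ := by linarith
  have hcn : ∀ n, (0 : ℝ) < (Kw A n).card := fun n => lt_of_lt_of_le (by positivity) (G.low n)
  have hpos : ∀ n, 1 ≤ n → 0 < WG A f n := fun n hn => lt_of_lt_of_le (hcn n) (WG_ge hf hn)
  obtain ⟨R, hR, h⟩ := meanG G m κ hκ
  have hev : ∀ᶠ n : ℕ in atTop,
      |((1 / (b * (((n + Z.s : ℕ) : ℝ) + 1) ^ j)) * WG A f (n + Z.s) / (Kw A (n + Z.s)).card) /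
        ((1 / (b * ((n : ℝ) + 1) ^ j)) * WG A f n / (Kw A n).card) - 1| ≤
        (R + 2 * Z.s) * (Real.log n / √(n : ℝ)) := by
    filter_upwards [h, eventually_ge_atTop 3] with n hn hn3
    have h1 := hn f hf
    obtain ⟨x, hx⟩ : ∃ x : ℝ, x = (((n : ℝ) + 1) / (((n + Z.s : ℕ) : ℝ) + 1)) ^ j := ⟨_, rfl⟩
    obtain ⟨c1, c2, c3⟩ := cst_ratio Z.s j hj n hn3
    rw [← hx] at c1 c2 c3
    obtain ⟨r, hr⟩ : ∃ r : ℝ, r = WG A f (n + Z.s) / (Kw A (n + Z.s)).card /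
      (WG A f n / (Kw A n).card) := ⟨_, rfl⟩
    rw [← hr] at h1
    have hw := hpos n (by omega)
    have hc := hcn n
    have hc' := hcn (n + Z.s)
    have h2 : (0 : ℝ) < (n : ℝ) + 1 := by positivity
    have h3 : (0 : ℝ) < ((n + Z.s : ℕ) : ℝ) + 1 := by positivity
    have e : ((1 / (b * (((n + Z.s : ℕ) : ℝ) + 1) ^ j)) * WG A f (n + Z.s) /
        (Kw A (n + Z.s)).card) / ((1 / (b * ((n : ℝ) + 1) ^ j)) * WG A f n / (Kw A n).card) =
        r * x := by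
      rw [hr, hx, div_pow]
      field_simp
    rw [e]
    have e2 : r * x - 1 = (r - 1) * x + (x - 1) := by ring
    rw [e2]
    refine (abs_add_le _ _).trans ?_
    rw [abs_mul, abs_of_pos c1, abs_of_nonpos (by linarith : x - 1 ≤ 0)]
    have h4 : |r - 1| * x ≤ |r - 1| * 1 := mul_le_mul_of_nonneg_left c2 (abs_nonneg _)
    have e3 : gg n = Real.log n / √(n : ℝ) := rfl
    rw [e3] at c3
    rw [add_mul]
    linarith
  obtain ⟨R', hR'⟩ := all_of_eventually g_pos hev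
  refine ⟨R', fun n hn => ⟨?_, hR' n hn⟩⟩
  have hw := hpos n (by omega)
  have hc := hcn n
  positivity

/-- convergence along lengths with small gaps, for the logarithm of a positive sequence -/
theorem rate_log_steps (a : ℕ → ℝ) (R : ℝ) (hpos : ∀ n, 2 ≤ n → 0 < a n)
    (h : ∀ n, 2 ≤ n → |a (n + 1) / a n - 1| ≤ R * gg n) :
    ∀ᶠ n in atTop, |Real.log (a (n + 1)) - Real.log (a n)| ≤ (2 * |R|) * gg n := by
  have h1 : Tendsto (fun n : ℕ => |R| * gg n) atTop (𝓝 0) := by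
    have := log_sq_tendsto.const_mul |R|
    rwa [mul_zero] at this
  filter_upwards [h1.eventually_le_const (show (0 : ℝ) < 1 / 2 by norm_num),
    eventually_ge_atTop 2] with n hn hn2
  have h2 := h n hn2
  have h3 : R * gg n ≤ |R| * gg n := mul_le_mul_of_nonneg_right (le_abs_self R) (gg_nonneg n)
  have := log_step (hpos n hn2) (hpos (n + 1) (by omega)) hn (h2.trans h3)
  linarith

/-- steps of the logarithm of `n` -/
theorem log_n_step (n : ℕ) (hn : 3 ≤ n) : |Real.log ((n + 1 : ℕ) : ℝ) - Real.log n| ≤ gg n := by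
  have h0 : (0 : ℝ) < n := by
    have : 0 < n := by omega
    exact_mod_cast this
  have h1 : 0 < ((n + 1 : ℕ) : ℝ) := by positivity
  rw [← Real.log_div h1.ne' h0.ne']
  have h2 : (1 : ℝ) ≤ ((n + 1 : ℕ) : ℝ) / n := by
    rw [one_le_div h0]
    push_cast
    linarith
  rw [abs_of_nonneg (Real.log_nonneg h2)]
  refine (Real.log_le_sub_one_of_pos (by positivity)).trans ?_
  refine le_trans (le_of_eq ?_) (inv_le_gg hn)
  push_cast
  field_simp
  ring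

end

end Q294.Av
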