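import Pool.Agent.Q294.Av6

/-!
# Diameters: functions of the walk with two witnesses
-/

set_option autoImplicit false

namespace Q294.Av

open Finset Filter Topology TH966.AK
open scoped Classical

noncomputable section

variable {A : P → P → Prop} {Z : Rule A} {μ K : ℝ}

/-- the features of a walk -/
def FF (Fc : P → Finset P) (w : List P) : Finset P := w.toFinset.biUnion Fc

theorem mem_FF {Fc : P → Finset P} {w : List P} {φ : P} :
    φ ∈ FF Fc w ↔ ∃ x ∈ w, φ ∈ Fc x := by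
  unfold FF
  rw [mem_biUnion]
  simp only [List.mem_toFinset]

/-- features which do not appear under downward moves -/
def Feat (Z : Rule A) (Fc : P → Finset P) : Prop :=
  (∀ U U', Z.T U U' → ∀ x ∈ U, ∀ φ ∈ Fc x, ∃ y ∈ U', φ ∈ Fc y) ∧ ∀ x, (Fc x).Nonempty

variable {Fc : P → Finset P}

theorem FF_sub (hF : Feat Z Fc) {L R U U' : List P} (hT : Z.T U U') :
    FF Fc (L ++ U ++ R) ⊆ FF Fc (L ++ U' ++ R) := by
  intro φ hφ
  rw [mem_FF] at hφ ⊢
  obtain ⟨x, hx, hφx⟩ := hφ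
  simp only [List.mem_append] at hx
  rcases hx with (hx | hx) | hx
  · exact ⟨x, by simp [hx], hφx⟩
  · obtain ⟨y, hy, hφy⟩ := hF.1 U U' hT x hx φ hφx
    exact ⟨y, by simp [hy], hφy⟩
  · exact ⟨x, by simp [hx], hφx⟩

/-- a feature is lost by few moves -/
theorem lost_card {n : ℕ} {w : List P} (hw : w ∈ Kw A n) {φ : P} (hφ : φ ∈ FF Fc w) :
    ((Z.B w).filter (fun q => φ ∉ FF Fc (Rule.rep w q.2 q.1))).card ≤ Z.c0 := by
  rw [mem_FF] at hφ
  obtain ⟨x, hx, hφx⟩ := hφ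
  refine (card_le_card ?_).trans (Z.card_cand x)
  rintro ⟨U, U'⟩ hq
  rw [mem_filter, Rule.mem_B] at hq
  obtain ⟨⟨hT, hfree⟩, hlost⟩ := hq
  rw [Z.mem_K] at hw
  obtain ⟨L, R, h1, h2, -⟩ := Rule.rep_all (Z.pair _ _ hT).symm hw.2 hfree
  simp only at h1 h2 hlost hT
  rw [h2, mem_FF] at hlost
  push Not at hlost
  have hx' : x ∈ L ++ U' ++ R := by rw [← h1]; exact hx
  simp only [List.mem_append] at hx'
  rcases hx' with (hx' | hx') | hx'
  · exact absurd hφx (hlost x (by simp [hx']))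
  · exact Z.mem_cand hT (by simp [hx'])
  · exact absurd hφx (hlost x (by simp [hx']))

/-- functions with two witnesses -/
theorem aw_feat (f : List P → ℝ) (h0 : ∀ n, ∀ w ∈ Kw A n, 0 ≤ f w)
    (h : ∀ n, ∀ w ∈ Kw A (n + Z.s), ∃ φ₁ φ₂ : P, φ₁ ∈ FF Fc w ∧ φ₂ ∈ FF Fc w ∧
      ∀ L R U U' : List P, Z.T U U' → w = L ++ U' ++ R → Walk A (L ++ U ++ R) →
        |f (L ++ U ++ R) - f w| ≤ f w ∧
        (φ₁ ∈ FF Fc (L ++ U ++ R) → φ₂ ∈ FF Fc (L ++ U ++ R) → f (L ++ U ++ R) = f w)) :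
    AW Z.sys (2 * Z.c0) f := by
  refine ⟨fun n w hw => h0 n w hw, fun n w _ hw => ?_⟩
  change w ∈ Kw A (n + Z.s) at hw
  obtain ⟨φ₁, φ₂, hφ₁, hφ₂, hall⟩ := h n w hw
  have hf0 := h0 _ w hw
  change ∑ q ∈ Z.B w, |f (Rule.rep w q.2 q.1) - f w| ≤ _
  have h1 : ∀ q ∈ Z.B w, |f (Rule.rep w q.2 q.1) - f w| ≤
      (if φ₁ ∉ FF Fc (Rule.rep w q.2 q.1) then f w else 0) +
        (if φ₂ ∉ FF Fc (Rule.rep w q.2 q.1) then f w else 0) := by
    rintro ⟨U, U'⟩ hq
    rw [Rule.mem_B] at hq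
    have hw' := (Z.mem_K).1 hw
    obtain ⟨L, R, h1, h2, h3, -⟩ := Rule.rep_all (Z.pair _ _ hq.1).symm hw'.2 hq.2
    simp only at h1 h2 h3 hq ⊢
    rw [h2]
    obtain ⟨h4, h5⟩ := hall L R U U' hq.1 h1 h3
    by_cases c1 : φ₁ ∈ FF Fc (L ++ U ++ R)
    · by_cases c2 : φ₂ ∈ FF Fc (L ++ U ++ R)
      · rw [h5 c1 c2, sub_self, abs_zero, if_neg (not_not.2 c1), if_neg (not_not.2 c2), add_zero]
      · rw [if_neg (not_not.2 c1), if_pos c2, zero_add]
        exact h4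
    · rw [if_pos c1]
      have : 0 ≤ (if φ₂ ∉ FF Fc (L ++ U ++ R) then f w else 0) := by
        split_ifs
        · exact le_rfl
        · exact hf0
      linarith
  refine (sum_le_sum h1).trans ?_
  rw [sum_add_distrib, ← sum_filter, ← sum_filter, sum_const, sum_const, nsmul_eq_mul,
    nsmul_eq_mul]
  have k1 : (((Z.B w).filter (fun q => φ₁ ∉ FF Fc (Rule.rep w q.2 q.1))).card : ℝ) ≤ Z.c0 := by
    exact_mod_cast lost_card hw hφ₁
  have k2 : (((Z.B w).filter (fun q => φ₂ ∉ FF Fc (Rule.rep w q.2 q.1))).card : ℝ) ≤ Z.c0 := by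
    exact_mod_cast lost_card hw hφ₂
  have k3 := mul_le_mul_of_nonneg_right k1 hf0
  have k4 := mul_le_mul_of_nonneg_right k2 hf0
  linarith

/-- the diameter of the set of features -/
def dm (Fc : P → Finset P) (c : P → ℂ) (w : List P) : ℝ := Metric.diam (c '' (FF Fc w : Set P))

theorem dm_bdd (c : P → ℂ) (w : List P) : Bornology.IsBounded (c '' (FF Fc w : Set P)) :=
  ((FF Fc w).finite_toSet.image c).isBounded

theorem dm_nonneg (c : P → ℂ) (w : List P) : 0 ≤ dm Fc c w := Metric.diam_nonneg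

theorem dm_le (c : P → ℂ) (w : List P) {φ ψ : P} (h1 : φ ∈ FF Fc w) (h2 : ψ ∈ FF Fc w) :
    dist (c φ) (c ψ) ≤ dm Fc c w :=
  Metric.dist_le_diam_of_mem (dm_bdd c w) ⟨φ, h1, rfl⟩ ⟨ψ, h2, rfl⟩

theorem dm_att (hF : Feat Z Fc) (c : P → ℂ) (w : List P) (hw : w ≠ []) :
    ∃ φ₁ φ₂ : P, φ₁ ∈ FF Fc w ∧ φ₂ ∈ FF Fc w ∧ dm Fc c w = dist (c φ₁) (c φ₂) := by
  have hne : (FF Fc w).Nonempty := by
    obtain ⟨a, b, rfl⟩ := List.exists_cons_of_ne_nil hw
    obtain ⟨φ, hφ⟩ := hF.2 a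
    exact ⟨φ, mem_FF.2 ⟨a, by simp, hφ⟩⟩
  obtain ⟨⟨φ₁, φ₂⟩, h1, h2⟩ := Finset.exists_max_image (FF Fc w ×ˢ FF Fc w)
    (fun p => dist (c p.1) (c p.2)) (hne.product hne)
  rw [mem_product] at h1
  refine ⟨φ₁, φ₂, h1.1, h1.2, le_antisymm ?_ (dm_le c w h1.1 h1.2)⟩
  refine Metric.diam_le_of_forall_dist_le dist_nonneg ?_
  rintro x ⟨a, ha, rfl⟩ y ⟨b, hb, rfl⟩
  exact h2 (a, b) (mem_product.2 ⟨ha, hb⟩)

theorem dm_mono (c : P → ℂ) {w w' : List P} (h : FF Fc w' ⊆ FF Fc w) : dm Fc c w' ≤ dm Fc c w :=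
  Metric.diam_mono (Set.image_mono (by exact_mod_cast h)) (dm_bdd c w)

/-- weights depending on the last point and on the diameter -/
theorem aw_dm (hF : Feat Z Fc) (c : P → ℂ) (H : P → ℝ → ℝ) (hH : ∀ x r, 0 ≤ H x r)
    (hH2 : ∀ x r r', r' ≤ r → 0 ≤ r' → |H x r' - H x r| ≤ H x r) :
    AW Z.sys (2 * Z.c0) (fun w => H (lst w) (dm Fc c w)) := by
  refine aw_feat (Fc := Fc) _ (fun n w _ => hH _ _) (fun n w hw => ?_)
  have hw' := (Z.mem_K).1 hw
  have hne : w ≠ [] := by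
    rintro rfl
    have := hw'.1
    simp at this
  obtain ⟨φ₁, φ₂, h1, h2, h3⟩ := dm_att hF c w hne
  refine ⟨φ₁, φ₂, h1, h2, fun L R U U' hT hw1 hw2 => ?_⟩
  have hp := Z.pair _ _ hT
  have hl : lst (L ++ U ++ R) = lst w := by rw [hw1, lst_rep hp]
  have hsub : FF Fc (L ++ U ++ R) ⊆ FF Fc w := by
    rw [hw1]
    exact FF_sub hF hT
  have hd := dm_mono c hsub
  refine ⟨?_, fun c1 c2 => ?_⟩
  · rw [hl]
    exact hH2 _ _ _ hd (dm_nonneg c _)
  · rw [hl]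
    congr 1
    refine le_antisymm hd ?_
    rw [h3]
    exact dm_le c _ c1 c2

/-- the weight of a set -/
def HS (S : Set (P × ℝ)) (x : P) (r : ℝ) : ℝ := 1 + (if (x, r) ∈ S then 1 else 0)

theorem HS_mem (S : Set (P × ℝ)) (x : P) (r : ℝ) : 1 ≤ HS S x r ∧ HS S x r ≤ 2 := by
  unfold HS
  split_ifs <;> norm_num

theorem fw_HS (hF : Feat Z Fc) (c : P → ℂ) (S : Set (P × ℝ)) :
    Fw Z (2 * Z.c0) 8 (fun w => HS S (lst w) (dm Fc c w)) := by
  refine ⟨aw_dm hF c (HS S) (fun x r => by linarith [(HS_mem S x r).1]) (fun x r r' _ _ => ?_),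
    fun n _ w _ => (HS_mem S _ _).1, fun n w _ => (HS_mem S _ _).2.trans ?_⟩
  · have h1 := HS_mem S x r
    have h2 := HS_mem S x r'
    rw [abs_le]
    constructor <;> linarith
  · have h5 : (0 : ℝ) ≤ n := Nat.cast_nonneg n
    calc (2 : ℝ) ≤ (2 * (n : ℝ) + 2) ^ 1 := by linarith
      _ ≤ _ := pow_le_pow_right₀ (by linarith) (by norm_num)

/-- the law -/
def law (A : P → P → Prop) (Fc : P → Finset P) (c : P → ℂ) (n : ℕ) (S : Set (P × ℝ)) : ℝ :=
  (((Kw A n).filter (fun w => (lst w, dm Fc c w) ∈ S)).card : ℝ) / (Kw A n).card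

theorem WG_HS (c : P → ℂ) (S : Set (P × ℝ)) (n : ℕ) :
    WG A (fun w => HS S (lst w) (dm Fc c w)) n = (Kw A n).card +
      ((Kw A n).filter (fun w => (lst w, dm Fc c w) ∈ S)).card := by
  unfold WG HS
  rw [sum_add_distrib, sum_const, nsmul_one, sum_boole]

/-- the laws merge -/
theorem law_merge (G : Growth Z μ K) (hF : Feat Z Fc) (c : P → ℂ) : ∃ R : ℝ, 0 ≤ R ∧
    ∀ n : ℕ, 2 ≤ n → ∀ S : Set (P × ℝ),
      |law A Fc c (n + Z.s) S - law A Fc c n S| ≤ R * gg n := by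
  have hc : ∀ n, (0 : ℝ) < (Kw A n).card := fun n =>
    lt_of_lt_of_le (pow_pos (by linarith [G.hμ]) n) (G.low n)
  obtain ⟨R, hR, h⟩ := meanG G 8 (2 * Z.c0) (by positivity)
  obtain ⟨N, hN⟩ := eventually_atTop.1 h
  obtain ⟨T, hT⟩ : ∃ T : ℝ, T = ∑ i ∈ range N, |1 / gg i| := ⟨_, rfl⟩
  have hT0 : 0 ≤ T := by
    rw [hT]
    exact sum_nonneg fun _ _ => abs_nonneg _
  have hpr : ∀ n S, 0 ≤ law A Fc c n S ∧ law A Fc c n S ≤ 1 := by
    intro n S
    unfold law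
    refine ⟨div_nonneg (Nat.cast_nonneg _) (Nat.cast_nonneg _), ?_⟩
    rw [div_le_one (hc n)]
    exact_mod_cast Finset.card_filter_le _ _
  have hone : ∀ n S, WG A (fun w => HS S (lst w) (dm Fc c w)) n / (Kw A n).card =
      1 + law A Fc c n S := by
    intro n S
    rw [WG_HS, add_div, div_self (hc n).ne']
    rfl
  refine ⟨2 * R + T, by positivity, fun n hn S => ?_⟩
  have hg := gg_pos hn
  have p1 := hpr n S
  have p2 := hpr (n + Z.s) S
  rcases lt_or_ge n N with h1 | h1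
  · have h2 : |1 / gg n| ≤ T := by
      rw [hT]
      exact single_le_sum (f := fun i : ℕ => |1 / gg i|)
        (fun _ _ => abs_nonneg _) (mem_range.2 h1)
    rw [abs_of_pos (one_div_pos.2 hg), div_le_iff₀ hg] at h2
    have h3 : |law A Fc c (n + Z.s) S - law A Fc c n S| ≤ 1 := by
      rw [abs_le]
      constructor <;> linarith
    refine h3.trans (h2.trans (mul_le_mul_of_nonneg_right ?_ hg.le))
    linarith
  · have h2 := hN n h1 _ (fw_HS hF c S)
    rw [hone, hone] at h2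
    have h3 : 0 < 1 + law A Fc c n S := by linarith
    have h4 : (1 + law A Fc c (n + Z.s) S) / (1 + law A Fc c n S) - 1 =
        (law A Fc c (n + Z.s) S - law A Fc c n S) / (1 + law A Fc c n S) := by
      field_simp
      ring
    rw [h4, abs_div, abs_of_pos h3, div_le_iff₀ h3] at h2
    refine h2.trans ?_
    have e : Real.log n / √(n : ℝ) = gg n := rfl
    rw [e]
    have h5 : 0 ≤ R * gg n := by positivity
    have h6 : 0 ≤ T * gg n := by positivity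
    nlinarith

/-- several steps -/
theorem law_merge_many {R : ℝ} {c : P → ℂ} {s : ℕ} (hR : 0 ≤ R)
    (h : ∀ n : ℕ, 2 ≤ n → ∀ S : Set (P × ℝ),
      |law A Fc c (n + s) S - law A Fc c n S| ≤ R * gg n) (n : ℕ) (hn : 8 ≤ n) (j : ℕ)
    (S : Set (P × ℝ)) : |law A Fc c (n + s * j) S - law A Fc c n S| ≤ j * (R * gg n) := by
  induction j with
  | zero => simp
  | succ j ih =>
    have h1 := h (n + s * j) (by omega) S
    have h2 : R * gg (n + s * j) ≤ R * gg n :=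
      mul_le_mul_of_nonneg_left (gg_anti hn (by omega)) hR
    have e : n + s * (j + 1) = n + s * j + s := by ring
    rw [e]
    have h3 : law A Fc c (n + s * j + s) S - law A Fc c n S =
        (law A Fc c (n + s * j + s) S - law A Fc c (n + s * j) S) +
        (law A Fc c (n + s * j) S - law A Fc c n S) := by ring
    rw [h3]
    refine (abs_add_le _ _).trans ?_
    push_cast
    linarith

end

end Q294.Av
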