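import Pool.Agent.Q294.Av7

/-!
# Diameters on the triangular and the honeycomb lattice
-/

set_option autoImplicit false

namespace Q294.Av

open Finset Filter Topology TH966.AK
open scoped Classical

noncomputable section

variable {A : P → P → Prop} {Z : Rule A} {μ K : ℝ}

/-- probabilities of events for walks given as functions -/
theorem card_fun (Z : Rule A) (n : ℕ) (E : (Fin (n + 1) → ℤ × ℤ) → Prop) (E' : List P → Prop)
    (h : ∀ ω ∈ wks A n, (E ω ↔ E' (List.ofFn ω))) :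
    {ω | ω ∈ wks A n ∧ E ω}.ncard = ((Kw A n).filter E').card := by
  rw [← Set.ncard_image_of_injective _ List.ofFn_injective, ← Set.ncard_coe_finset]
  congr 1
  ext w
  rw [Finset.mem_coe, Finset.mem_filter, ← Finset.mem_coe, ← image_wks Z, Set.mem_image,
    Set.mem_image]
  constructor
  · rintro ⟨ω, ⟨hω, h1⟩, rfl⟩
    exact ⟨⟨ω, hω, rfl⟩, (h ω hω).1 h1⟩
  · rintro ⟨⟨ω, hω, rfl⟩, h1⟩
    exact ⟨ω, ⟨hω, (h ω hω).2 h1⟩, rfl⟩

/-- the diameter of the points -/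
def dia (pos : P → ℂ) {n : ℕ} (ω : Fin (n + 1) → ℤ × ℤ) : ℝ :=
  Metric.diam (Set.range fun i => pos (ω i))

/-- the features on the triangular lattice: the points -/
def FcT (x : P) : Finset P := {x}

theorem feat_T : Feat Tri.rule FcT := by
  refine ⟨?_, fun x => ⟨x, by simp [FcT]⟩⟩
  rintro U U' ⟨p, v, r, rfl, rfl, -⟩ x hx φ hφ
  unfold FcT at hφ
  rw [mem_singleton] at hφ
  subst hφ
  refine ⟨φ, ?_, by simp [FcT]⟩
  simp only [List.mem_cons, List.not_mem_nil, or_false] at hx ⊢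
  tauto

theorem dm_T (pos : P → ℂ) {n : ℕ} (ω : Fin (n + 1) → ℤ × ℤ) :
    dm FcT pos (List.ofFn ω) = dia pos ω := by
  unfold dm dia
  congr 1
  ext z
  rw [Set.mem_image, Set.mem_range]
  constructor
  · rintro ⟨φ, hφ, rfl⟩
    rw [Finset.mem_coe, mem_FF] at hφ
    obtain ⟨x, hx, h1⟩ := hφ
    unfold FcT at h1
    rw [mem_singleton] at h1
    subst h1
    rw [List.mem_ofFn] at hx
    obtain ⟨i, hi⟩ := hx
    exact ⟨i, by rw [hi]⟩
  · rintro ⟨i, rfl⟩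
    refine ⟨ω i, ?_, rfl⟩
    rw [Finset.mem_coe, mem_FF]
    exact ⟨ω i, List.mem_ofFn.2 ⟨i, rfl⟩, by simp [FcT]⟩

/-- the features on the honeycomb lattice: the hexagons, given by their lower left corners -/
def FcH (x : P) : Finset P :=
  if (x.1 + x.2) % 2 = 0 then {(x.1, x.2), (x.1 - 2, x.2), (x.1 - 1, x.2 - 1)}
  else {(x.1 - 1, x.2), (x.1, x.2 - 1), (x.1 - 2, x.2 - 1)}

theorem mem_FcH (x φ : P) : φ ∈ FcH x ↔ (φ.1 + φ.2) % 2 = 0 ∧ (x.1 - 2 ≤ φ.1 ∧ φ.1 ≤ x.1) ∧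
    (x.2 - 1 ≤ φ.2 ∧ φ.2 ≤ x.2) := by
  unfold FcH
  split_ifs with h
  · simp only [mem_insert, mem_singleton, Prod.ext_iff]
    constructor
    · rintro (h1 | h1 | h1) <;> omega
    · rintro ⟨h1, h2, h3⟩
      have h4 : φ.2 = x.2 ∨ φ.2 = x.2 - 1 := by omega
      rcases h4 with h4 | h4
      · have h5 : φ.1 = x.1 ∨ φ.1 = x.1 - 2 := by omega
        rcases h5 with h5 | h5
        · exact Or.inl ⟨h5, h4⟩
        · exact Or.inr (Or.inl ⟨h5, h4⟩)
      · exact Or.inr (Or.inr ⟨by omega, h4⟩)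
  · simp only [mem_insert, mem_singleton, Prod.ext_iff]
    constructor
    · rintro (h1 | h1 | h1) <;> omega
    · rintro ⟨h1, h2, h3⟩
      have h4 : φ.2 = x.2 ∨ φ.2 = x.2 - 1 := by omega
      rcases h4 with h4 | h4
      · exact Or.inl ⟨by omega, h4⟩
      · have h5 : φ.1 = x.1 ∨ φ.1 = x.1 - 2 := by omega
        rcases h5 with h5 | h5
        · exact Or.inr (Or.inl ⟨h5, h4⟩)
        · exact Or.inr (Or.inr ⟨h5, h4⟩)

/-- the centre of a hexagon -/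
def cH (φ : ℤ × ℤ) : ℂ := ⟨√3 / 2 * (φ.1 + 1), (3 * φ.2 + 1) / 2⟩

theorem dist_cH (x φ : P) (h : φ ∈ FcH x) : dist (posH x) (cH φ) = 1 := by
  have h1 : dist (posH x) (cH φ) ^ 2 = 1 := by
    rw [dist_eq_norm, Complex.sq_norm, Complex.normSq_apply]
    unfold posH cH
    simp only [Complex.sub_re, Complex.sub_im]
    have hs := s3
    obtain ⟨x1, x2⟩ := x
    obtain ⟨y1, y2⟩ := φ
    unfold FcH at h
    split_ifs at h with h0
    · simp only [mem_insert, mem_singleton, Prod.mk.injEq] at h h0 ⊢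
      rcases h with ⟨rfl, rfl⟩ | ⟨rfl, rfl⟩ | ⟨rfl, rfl⟩ <;> rw [h0] <;> push_cast <;>
        ring_nf <;> (try rw [Real.sq_sqrt (by norm_num)]) <;> ring
    · have h1 : (x1 + x2) % 2 = 1 := by
        simp only at h0
        omega
      simp only [mem_insert, mem_singleton, Prod.mk.injEq] at h ⊢
      rcases h with ⟨rfl, rfl⟩ | ⟨rfl, rfl⟩ | ⟨rfl, rfl⟩ <;> rw [h1] <;> push_cast <;>
        ring_nf <;> (try rw [Real.sq_sqrt (by norm_num)]) <;> ring
  have h2 : 0 ≤ dist (posH x) (cH φ) := dist_nonneg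
  nlinarith

theorem feat_H : Feat Hex.rule FcH := by
  refine ⟨?_, fun x => ?_⟩
  · rintro U U' ⟨p, q, r, rfl, rfl, h1, h2, h3⟩ x hx φ hφ
    simp only [List.mem_cons, List.not_mem_nil, or_false] at hx
    rcases hx with rfl | rfl | rfl
    · exact ⟨x, by simp, hφ⟩
    · rw [Hex.A_iff] at h1 h2
      rw [Hex.ne_iff] at h3
      have key : φ ∈ FcH p ∨ φ ∈ FcH r := by
        rw [mem_FcH] at hφ
        rw [mem_FcH, mem_FcH]
        obtain ⟨g1, ⟨g2, g3⟩, g4, g5⟩ := hφ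
        rcases h1 with ⟨h1, h1'⟩ | ⟨h1, h1'⟩ | ⟨h1, h1', h1''⟩ | ⟨h1, h1', h1''⟩ <;>
        rcases h2 with ⟨h2, h2'⟩ | ⟨h2, h2'⟩ | ⟨h2, h2', h2''⟩ | ⟨h2, h2', h2''⟩ <;>
        first
        | (exfalso; omega)
        | (refine Or.inl ⟨g1, ⟨?_, ?_⟩, ?_, ?_⟩ <;> omega)
        | (refine Or.inr ⟨g1, ⟨?_, ?_⟩, ?_, ?_⟩ <;> omega)
        | (by_cases hq : φ.1 ≤ p.1 ∧ p.1 - 2 ≤ φ.1 ∧ p.2 - 1 ≤ φ.2 ∧ φ.2 ≤ p.2
           · exact Or.inl ⟨g1, ⟨hq.2.1, hq.1⟩, hq.2.2.1, hq.2.2.2⟩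
           · refine Or.inr ⟨g1, ⟨?_, ?_⟩, ?_, ?_⟩ <;> omega)
      rcases key with h | h
      · exact ⟨p, by simp, h⟩
      · exact ⟨r, by simp, h⟩
    · exact ⟨x, by simp, hφ⟩
  · unfold FcH
    split_ifs <;> simp

theorem dm_H {n : ℕ} (ω : Fin (n + 1) → ℤ × ℤ) :
    dm FcH cH (List.ofFn ω) ≤ dia posH ω + 2 ∧ dia posH ω ≤ dm FcH cH (List.ofFn ω) + 2 := by
  have hfin : (Set.range fun i => posH (ω i)).Finite := Set.finite_range _
  constructor
  · unfold dm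
    refine Metric.diam_le_of_forall_dist_le (by
      have : 0 ≤ dia posH ω := Metric.diam_nonneg
      linarith) ?_
    rintro _ ⟨φ, hφ, rfl⟩ _ ⟨ψ, hψ, rfl⟩
    rw [Finset.mem_coe, mem_FF] at hφ hψ
    obtain ⟨x, hx, h1⟩ := hφ
    obtain ⟨y, hy, h2⟩ := hψ
    rw [List.mem_ofFn] at hx hy
    obtain ⟨i, rfl⟩ := hx
    obtain ⟨j, rfl⟩ := hy
    have h3 : dist (posH (ω i)) (posH (ω j)) ≤ dia posH ω :=
      Metric.dist_le_diam_of_mem hfin.isBounded ⟨i, rfl⟩ ⟨j, rfl⟩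
    have h4 := dist_cH _ _ h1
    have h5 := dist_cH _ _ h2
    rw [dist_comm] at h4
    have h6 := dist_triangle4 (cH φ) (posH (ω i)) (posH (ω j)) (cH ψ)
    linarith
  · unfold dia
    refine Metric.diam_le_of_forall_dist_le (by
      have := dm_nonneg (Fc := FcH) cH (List.ofFn ω)
      linarith) ?_
    rintro _ ⟨i, rfl⟩ _ ⟨j, rfl⟩
    obtain ⟨φ, hφ⟩ := feat_H.2 (ω i)
    obtain ⟨ψ, hψ⟩ := feat_H.2 (ω j)
    have h3 : dist (cH φ) (cH ψ) ≤ dm FcH cH (List.ofFn ω) :=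
      dm_le cH _ (mem_FF.2 ⟨ω i, List.mem_ofFn.2 ⟨i, rfl⟩, hφ⟩)
        (mem_FF.2 ⟨ω j, List.mem_ofFn.2 ⟨j, rfl⟩, hψ⟩)
    have h4 := dist_cH _ _ hφ
    have h5 := dist_cH _ _ hψ
    rw [dist_comm] at h5
    have h6 := dist_triangle4 (posH (ω i)) (cH φ) (cH ψ) (posH (ω j))
    simp only
    linarith

/-- choice of an index -/
theorem choose_k (t : ℕ → ℕ) (ht : Tendsto t atTop atTop) (Q : ℕ → Prop)
    (hQ : ∀ᶠ k in atTop, Q k) : ∀ᶠ m in atTop, ∃ k, Q k ∧ t k ≤ m ∧ m < t (k + 1) := by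
  obtain ⟨k0, hk0⟩ := eventually_atTop.1 hQ
  filter_upwards [eventually_ge_atTop (t k0)] with n hn
  obtain ⟨k1, hk1⟩ := eventually_atTop.1 (ht.eventually_gt_atTop n)
  have hex : ∃ k, k0 ≤ k ∧ t k ≤ n ∧ n < t (k + 1) := by
    by_contra hcon
    push Not at hcon
    have hall : ∀ j, t (k0 + j) ≤ n := by
      intro j
      induction j with
      | zero => simpa using hn
      | succ j ih =>
        have := hcon (k0 + j) (by omega) ih
        rw [← add_assoc]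
        exact this
    have h4 := hall k1
    have h5 := hk1 (k0 + k1) (by omega)
    omega
  obtain ⟨k, hk, h⟩ := hex
  exact ⟨k, hk0 k hk, h⟩

/-- moments of the diameter on the triangular lattice -/
theorem fw_mom (hF : Feat Z FcT) {pos : P → ℂ} {d : ℝ} (hP : Pos Z d pos) (p : ℝ) (hp0 : 0 ≤ p)
    (hp6 : p ≤ 6) : Fw Z (2 * Z.c0) 16 (fun w => |dm FcT pos w| ^ p) := by
  refine ⟨aw_dm hF pos (fun _ r => |r| ^ p) (fun x r => by positivity) (fun x r r' h1 h2 => ?_),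
    fun n hn w hw => ?_, fun n w hw => ?_⟩
  · have h3 : |r'| ^ p ≤ |r| ^ p := by
      refine Real.rpow_le_rpow (abs_nonneg _) ?_ hp0
      rw [abs_of_nonneg h2, abs_of_nonneg (h2.trans h1)]
      exact h1
    have h4 : 0 ≤ |r'| ^ p := by positivity
    rw [abs_le]
    constructor <;> linarith
  · have h1 := lst_ne Z hn hw
    have h2 := lst_mem hw Z
    have hw' := (Z.mem_K).1 hw
    obtain ⟨a, b, rfl⟩ := List.exists_cons_of_length_eq_add_one hw'.1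
    have h3 : a = 0 := by
      have := hw'.2.1
      simpa using this
    subst h3
    have h4 : dist (pos (lst ((0 : P) :: b))) (pos 0) ≤ dm FcT pos ((0 : P) :: b) :=
      dm_le pos _ (mem_FF.2 ⟨_, h2, by simp [FcT]⟩) (mem_FF.2 ⟨0, by simp, by simp [FcT]⟩)
    have h5 := hP.sep _ _ h1
    rw [dist_eq_norm] at h4
    have h6 : 1 ≤ |dm FcT pos ((0 : P) :: b)| := (h5.trans h4).trans (le_abs_self _)
    exact Real.one_le_rpow h6 hp0
  · have h5 : (0 : ℝ) ≤ n := Nat.cast_nonneg n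
    obtain ⟨b, hb⟩ : ∃ b : ℝ, b = 2 * (n : ℝ) + 2 := ⟨_, rfl⟩
    have hb2 : 2 ≤ b := by linarith
    have h1 : dm FcT pos w ≤ 3 * b := by
      unfold dm
      refine Metric.diam_le_of_forall_dist_le (by linarith) ?_
      rintro _ ⟨φ, hφ, rfl⟩ _ ⟨ψ, hψ, rfl⟩
      rw [Finset.mem_coe, mem_FF] at hφ hψ
      obtain ⟨x, hx, h1⟩ := hφ
      obtain ⟨y, hy, h2⟩ := hψ
      unfold FcT at h1 h2
      rw [mem_singleton] at h1 h2
      subst h1 h2
      have c1 := coord_le hw hx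
      have c2 := coord_le hw hy
      have h6 := hP.bd n _ c1.1 c1.2
      have h7 := hP.bd n _ c2.1 c2.2
      rw [dist_eq_norm]
      have h8 := norm_sub_le (pos φ) (pos ψ)
      linarith
    rw [← hb]
    have h2 : |dm FcT pos w| ≤ 3 * b := by
      rw [abs_of_nonneg (dm_nonneg pos w)]
      exact h1
    calc |dm FcT pos w| ^ p ≤ (3 * b) ^ p := Real.rpow_le_rpow (abs_nonneg _) h2 hp0
      _ ≤ (3 * b) ^ (6 : ℝ) := Real.rpow_le_rpow_of_exponent_le (by linarith) hp6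
      _ = (3 * b) ^ 6 := by
          rw [show (6 : ℝ) = ((6 : ℕ) : ℝ) by norm_num, Real.rpow_natCast]
      _ = 729 * b ^ 6 := by ring
      _ ≤ b ^ 10 * b ^ 6 := by
          refine mul_le_mul_of_nonneg_right ?_ (by positivity)
          have : (2 : ℝ) ^ 10 ≤ b ^ 10 := pow_le_pow_left₀ (by norm_num) hb2 10
          norm_num at this
          linarith
      _ = b ^ 16 := by ring

end

end Q294.Av
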