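import Pool.Agent.Q294.Bd1

set_option autoImplicit false

/-! Cylinders of the infinite half-plane walk which end at the boundary. -/

namespace Q294.Bd

open Pool.Agent.H976R3.HPL
open Pool.Agent.W818.TD (vv hA CW_odd)
open Pool.Agent.W818.TD.Tr
open Filter Topology Finset MeasureTheory
open scoped ENNReal

theorem CW_card_le (n : ℕ) (j : ℤ) : (CW hexA n (1 + j, j)).card ≤ a hexA 0 (n + 1) := by
  classical
  have hg : hexA.good ((j, j) : V) := by
    show (j + j) % 2 = 0
    omega
  have h1 := a_add hg 0 (n + 1)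
  rw [zero_add] at h1
  rw [← h1]
  have e : (((1 + j, j) : V) - (1, 0)) = (j, j) := by
    apply Prod.ext
    · simp
    · simp
  unfold a
  refine Finset.card_le_card_of_injOn (fun l => (j, j) :: l) ?_ ?_
  · intro l hl
    have := cons_mem_HW (G := hexA) (Finset.mem_coe.1 hl)
    rw [e] at this
    exact Finset.mem_coe.2 this
  · intro l _ l' _ h
    simpa using h

theorem split_prefix {i : ℕ} {v y : V} {l s : List V} (hl : l.length = i + 1)
    (hy : l.getLastD v = y) : (l ++ s).drop i = y :: s := by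
  have hne : l ≠ [] := by
    rintro rfl
    simp at hl
  have h1 : l.getLast hne = y := by
    rw [← hy, List.getLastD_eq_getLast?, List.getLast?_eq_getLast_of_ne_nil hne]
    rfl
  rw [List.drop_append_of_le_length (by omega)]
  have h2 : l.drop i = [y] := by
    rw [← h1]
    have e : i = l.length - 1 := by omega
    rw [e, List.drop_length_sub_one hne]
  rw [h2]
  rfl

open Classical in
theorem ext_card_le {c0 n i : ℕ} {l : List V} (hl : l ∈ CW hexA i (vv c0)) {j : ℤ}
    (hj : l.getLastD (vv c0) = (1 + j, j)) (hi : i ≤ n) :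
    ((CW hexA n (vv c0)).filter
      (fun m => l <+: m ∧ ∀ q ∈ m.tail, 1 ≤ q.1 - q.2)).card ≤ a hexA 0 (n - i + 1) := by
  obtain ⟨l1, l2, l3, l4, l5⟩ := mem_CW.1 hl
  refine le_trans ?_ (CW_card_le (n - i) j)
  refine Finset.card_le_card_of_injOn (fun m => m.drop i) ?_ ?_
  · intro m hm
    rw [Finset.mem_coe, Finset.mem_filter] at hm
    obtain ⟨hm, ⟨s, rfl⟩, htl⟩ := hm
    obtain ⟨m1, m2, m3, m4, m5⟩ := mem_CW.1 hm
    have hs := split_prefix (s := s) l1 hj
    rw [Finset.mem_coe, mem_CW]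
    simp only
    refine ⟨?_, ?_, m3.drop _, m4.sublist (List.drop_sublist _ _), ?_⟩
    · rw [List.length_drop, m1]
      omega
    · rw [hs]
      rfl
    · intro q hq
      rw [hs] at hq
      rw [hA, hA]
      simp only
      rcases List.mem_cons.1 hq with rfl | hq
      · simp
      · have := htl q (by
          rw [List.tail_append_of_ne_nil (by rintro rfl; simp at l1)]
          exact List.mem_append_right _ hq)
        omega
  · intro m hm m' hm' he
    rw [Finset.mem_coe, Finset.mem_filter] at hm hm'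
    obtain ⟨-, ⟨s, rfl⟩, -⟩ := hm
    obtain ⟨-, ⟨s', rfl⟩, -⟩ := hm'
    simp only at he
    rw [split_prefix l1 hj, split_prefix l1 hj, List.cons.injEq] at he
    rw [he.2]

open Classical in
/-- the walks which return to the forbidden level -/
noncomputable def bad (c0 n : ℕ) : ℕ :=
  ((CW hexA n (vv c0)).filter (fun m => ¬ ∀ q ∈ m.tail, 1 ≤ q.1 - q.2)).card

theorem cc_le {c0 n i : ℕ} {l : List V} (hl : l ∈ CW hexA i (vv c0)) {j : ℤ}
    (hj : l.getLastD (vv c0) = (1 + j, j)) (hi : i ≤ n) :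
    cc hexA (vv c0) n l ≤ a hexA 0 (n - i + 1) + bad c0 n := by
  classical
  refine le_trans ?_ (add_le_add (ext_card_le hl hj hi) le_rfl)
  unfold cc bad
  refine le_trans (Finset.card_le_card ?_) (Finset.card_union_le _ _)
  intro m hm
  rw [Finset.mem_filter] at hm
  rw [Finset.mem_union, Finset.mem_filter, Finset.mem_filter]
  by_cases h : ∀ q ∈ m.tail, 1 ≤ q.1 - q.2
  · exact Or.inl ⟨hm.1, hm.2, h⟩
  · exact Or.inr ⟨hm.1, h⟩

theorem CW_pos (c0 n : ℕ) : (0 : ℝ) < ((CW hexA n (vv c0)).card : ℝ) := by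
  exact_mod_cast Finset.card_pos.2 (CW_nonempty (G := hexA) (vv c0) n)

theorem bad_lim {c0 : ℕ} (hc : c0 ≤ 1) :
    Tendsto (fun n => (bad c0 n : ℝ) / ((CW hexA n (vv c0)).card : ℝ)) atTop (𝓝 0) := by
  classical
  interval_cases c0
  · have hv : vv 0 = 0 := by unfold vv; simp
    have h1 : Tendsto (fun n => 1 - (a hexA 0 n : ℝ) / ((CW hexA n 0).card : ℝ)) atTop (𝓝 0) := by
      have := CW_even_lim.const_sub 1
      simpa using this
    refine tendsto_of_tendsto_of_tendsto_of_le_of_le tendsto_const_nhds h1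
      (fun n => by positivity) (fun n => ?_)
    have hpos := CW_pos 0 n
    rw [hv] at hpos
    simp only [hv]
    rw [div_le_iff₀ hpos, sub_mul, one_mul, div_mul_cancel₀ _ hpos.ne', le_sub_iff_add_le]
    have h2 : bad 0 n + a hexA 0 n ≤ (CW hexA n 0).card := by
      unfold bad a
      rw [hv, ← Finset.card_filter_add_card_filter_not (s := CW hexA n 0)
        (fun m => ∀ q ∈ m.tail, 1 ≤ q.1 - q.2), add_comm]
      refine add_le_add (Finset.card_le_card ?_) le_rfl
      intro l hl
      obtain ⟨h1, h2, h3, h4, h5⟩ := mem_HW.1 hl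
      rw [Finset.mem_filter]
      refine ⟨mem_CW.2 ⟨h1, h2, h3, h4, fun w hw => ?_⟩, fun w hw => ?_⟩
      · cases l with
        | nil => simp at hw
        | cons x t =>
          simp only [List.head?_cons, Option.some.injEq] at h2
          subst h2
          rcases List.mem_cons.1 hw with rfl | hw
          · exact le_rfl
          · exact (h5 w (by simpa using hw)).le
      · have := h5 w hw
        rw [hA, hA] at this
        simp only [Prod.fst_zero, Prod.snd_zero] at this
        omega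
    exact_mod_cast h2
  · have h0 : ∀ n, bad 1 n = 0 := by
      intro n
      unfold bad
      rw [Finset.card_eq_zero, Finset.filter_eq_empty_iff]
      intro m hm
      rw [not_not]
      intro q hq
      have := (mem_CW.1 hm).2.2.2.2 q (List.mem_of_mem_tail hq)
      rw [hA, hA] at this
      unfold vv at this
      simp only at this
      push_cast at this
      omega
    simp only [h0]
    simp

theorem parity {c0 i : ℕ} {l : List V} (hl : l ∈ CW hexA i (vv c0)) {j : ℤ}
    (hj : l.getLastD (vv c0) = (1 + j, j)) : ∃ m, i + c0 = 2 * m + 1 := by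
  obtain ⟨l1, l2, l3, l4, l5⟩ := mem_CW.1 hl
  have hg := good_last (mem_paths.2 ⟨l1, l2, l3⟩)
  rw [hj] at hg
  have hg' : ((vv c0 + (((i : ℕ) : ℤ), (0 : ℤ)) - (1 + j, j) : V).1 +
      (vv c0 + (((i : ℕ) : ℤ), (0 : ℤ)) - (1 + j, j) : V).2) % 2 = 0 := hg
  unfold vv at hg'
  simp only [Prod.fst_sub, Prod.snd_sub, Prod.fst_add, Prod.snd_add] at hg'
  refine ⟨(i + c0) / 2, ?_⟩
  omega

theorem ratio_lim {c0 : ℕ} (hc : c0 ≤ 1) {i m : ℕ} (h : i + c0 = 2 * m + 1) :
    Tendsto (fun n => (a hexA 0 (n - i + 1) : ℝ) / ((CW hexA n (vv c0)).card : ℝ)) atTop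
      (𝓝 ((H978R2.Hex.mu0⁻¹) ^ (2 * m))) := by
  have hr := ratio_even facts_hexA 0 m
  interval_cases c0
  · have hv : vv 0 = 0 := by unfold vv; simp
    rw [hv]
    have h2 := hr.mul CW_even_lim
    rw [mul_one] at h2
    refine h2.congr' ?_
    filter_upwards [eventually_ge_atTop i] with n hn
    have : (0 : ℝ) < a hexA 0 n := by exact_mod_cast a_pos 0 n
    have e : n - i + 1 = n - 2 * m := by omega
    rw [e]
    field_simp
  · have hv : vv 1 = (1, 0) := by unfold vv; simp
    rw [hv]
    have h2 := hr.comp (tendsto_add_atTop_nat 1)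
    refine h2.congr' ?_
    filter_upwards [eventually_ge_atTop i] with n hn
    simp only [Function.comp_apply]
    rw [CW_odd]
    have : n - i + 1 = n + 1 - 2 * m := by omega
    rw [this]

variable {Λ : Set ℂ} {r : ℝ}

/-- **the mass of a cylinder which ends at the boundary** -/
theorem cyl_le {c0 : ℕ} (hc : c0 ≤ 1) (E : Emb hexA (vv c0) Λ r) (μ : Measure (ℕ → ℂ))
    [IsProbabilityMeasure μ]
    (hcyl : ∀ (k : ℕ) (η : ℕ → ℂ), Tendsto (fun n =>
      (({γ ∈ PW Λ r n | ∀ i ≤ k, γ i = η i}).ncard : ℝ) / ((PW Λ r n).ncard : ℝ)) atTop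
        (𝓝 (μ.real {γ | ∀ i ≤ k, γ i = η i})))
    {i : ℕ} {l : List V} (hl : l ∈ CW hexA i (vv c0)) {j : ℤ}
    (hj : l.getLastD (vv c0) = (1 + j, j)) :
    μ {γ | ∀ t ≤ i, γ t = E.pos (l.getD t (vv c0))} ≤ w (l.drop (1 - c0)) := by
  obtain ⟨m, hm⟩ := parity hl hj
  have hlen := (mem_CW.1 hl).1
  have hw : w (l.drop (1 - c0)) = ENNReal.ofReal ((H978R2.Hex.mu0⁻¹) ^ (2 * m)) := by
    unfold w
    rw [ENNReal.ofReal_pow (inv_pos.2 H978R2.Hex.mu0_pos).le, ← Pool.Agent.W832.HR.xc_eq,
      List.length_drop]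
    congr 1
    omega
  rw [hw, ← ofReal_measureReal]
  apply ENNReal.ofReal_le_ofReal
  have h1 := hcyl i (fun t => E.pos (l.getD t (vv c0)))
  have h2 := (ratio_lim hc hm).add (bad_lim hc)
  rw [add_zero] at h2
  refine le_of_tendsto_of_tendsto h1 h2 ?_
  filter_upwards [eventually_ge_atTop i] with n hn
  rw [cyl_count E hn hlen, (emb_count E n).2, ← add_div]
  refine div_le_div_of_nonneg_right ?_ (Nat.cast_nonneg _)
  exact_mod_cast cc_le hl hj hn

end Q294.Bd
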