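import Pool.Agent.Q294.Bd2

set_option autoImplicit false

/-! The expected number of visits of the boundary. -/

namespace Q294.Bd

open Pool.Agent.H976R3.HPL
open Pool.Agent.W818.TD (vv hA Expl)
open Pool.Agent.W832.HR (ext HP Traj lt_ext nbr_iff)
open Filter Topology Finset MeasureTheory
open scoped ENNReal

variable {Λ : Set ℂ} {r : ℝ} {c0 : ℕ}

/-- the good paths -/
def Good (Λ : Set ℂ) (r : ℝ) (γ : ℕ → ℂ) : Prop :=
  γ 0 = 0 ∧ (∀ i, γ i ∈ Λ ∧ 0 ≤ (γ i).im) ∧ (∀ i, ‖γ (i + 1) - γ i‖ = r) ∧ Function.Injective γ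

theorem good_list (E : Emb hexA (vv c0) Λ r) {γ : ℕ → ℂ} (h : Good Λ r γ) (i : ℕ) :
    ∃ l ∈ CW hexA i (vv c0), ∀ t ≤ i, γ t = E.pos (l.getD t (vv c0)) := by
  obtain ⟨h1, h2, h3, h4⟩ := h
  have h5 : (fun t => γ (min t i)) ∈ PW Λ r i := by
    refine ⟨?_, ?_, ?_, ?_, ?_⟩
    · simpa using h1
    · intro t
      exact h2 _
    · intro t ht
      simp only
      rw [min_eq_left ht.le, min_eq_left ht]
      exact h3 t
    · intro s hs t ht he
      simp only at he
      rw [min_eq_left hs, min_eq_left ht] at he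
      exact h4 he
    · intro t ht
      simp only
      rw [min_eq_right ht, min_self]
  obtain ⟨l, hl, he⟩ := exists_list E h5
  refine ⟨l, hl, fun t ht => ?_⟩
  have := congrFun he t
  unfold toP at this
  rw [min_eq_left ht] at this
  exact this.symm

/-- the visits of the lowest accessible row -/
def L (E : Emb hexA (vv c0) Λ r) (R : ℝ) (i : ℕ) : Set (ℕ → ℂ) :=
  {γ | (∃ q : V, E.pos q = γ i ∧ q.1 - q.2 = 1) ∧ ∃ k ≤ i, R ≤ ‖γ k‖}

theorem hAdj_iff {p q : V} : hexA.Adj p q ↔
    (q.1 = p.1 + 1 ∧ q.2 = p.2) ∨ (q.1 = p.1 - 1 ∧ q.2 = p.2) ∨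
    (q.1 = p.1 ∧ q.2 = p.2 + 1 ∧ (p.1 + p.2) % 2 = 0) ∨
    (q.1 = p.1 ∧ q.2 = p.2 - 1 ∧ (p.1 + p.2) % 2 = 1) := HAdj_iff

theorem getLastD_getD {l : List V} {i : ℕ} {v : V} (h : l.length = i + 1) :
    l.getLastD v = l.getD i v := by
  have hne : l ≠ [] := by
    rintro rfl
    simp at h
  rw [List.getLastD_eq_getLast?, List.getLast?_eq_getLast_of_ne_nil hne,
    List.getD_eq_getElem _ _ (by omega), List.getLast_eq_getElem]
  simp only [Option.getD_some]
  congr 1
  omega

/-- a walk which ends at level one gives an arc -/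
theorem arc_of (hc : c0 ≤ 1) {i : ℕ} {l : List V} (hl : l ∈ CW hexA i (vv c0)) {j : ℤ}
    (hj : l.getLastD (vv c0) = (1 + j, j)) :
    l.drop (1 - c0) ∈ Traj HP (1, 0) (1 + j, j) ∧ l = l.take (1 - c0) ++ l.drop (1 - c0) ∧
      l.take (1 - c0) = (if c0 = 0 then [(0, 0)] else []) := by
  obtain ⟨h1, h2, h3, h4, h5⟩ := mem_CW.1 hl
  have hne : l ≠ [] := by
    rintro rfl
    simp at h1
  refine ⟨?_, (List.take_append_drop _ _).symm, ?_⟩
  swap
  · interval_cases c0
    · match l, h2 with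
      | x :: t, h2 =>
        simp only [List.head?_cons, Option.some.injEq] at h2
        rw [h2]
        simp [vv]
    · simp
  have hlast : l[i]'(by omega) = (1 + j, j) := by
    rw [← hj, getLastD_getD h1, List.getD_eq_getElem]
  interval_cases c0
  · -- the start is at level zero
    have hv : vv 0 = (0, 0) := by unfold vv; simp
    have h0 : l[0]'(by omega) = (0, 0) := by
      rw [List.head?_eq_getElem?, List.getElem?_eq_getElem (by omega), Option.some.injEq] at h2
      rw [h2, hv]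
    have hi : 1 ≤ i := by
      by_contra hc
      have e : i = 0 := by omega
      subst e
      rw [h0] at hlast
      simp only [Prod.mk.injEq] at hlast
      omega
    have hlev : ∀ (t : ℕ) (ht : t < l.length), 0 ≤ (l[t]).1 - (l[t]).2 := by
      intro t ht
      have := h5 _ (List.getElem_mem ht)
      rw [hA, hA, hv] at this
      simpa using this
    have hch : ∀ (t : ℕ) (ht : t + 1 < l.length), hexA.Adj (l[t]'(by omega)) (l[t + 1]) :=
      fun t ht => List.isChain_iff_getElem.1 h3 t (by omega)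
    -- no later visit of level zero
    have hpos : ∀ (t : ℕ) (ht : t < l.length), 1 ≤ t → 1 ≤ (l[t]).1 - (l[t]).2 := by
      intro t ht ht1
      by_contra hcon
      have hz : (l[t]).1 - (l[t]).2 = 0 := by
        have := hlev t ht
        omega
      have hti : t < i := by
        by_contra hcon2
        have e : t = i := by omega
        subst e
        rw [hlast] at hz
        simp only at hz
        omega
      obtain ⟨s, rfl⟩ : ∃ s, t = s + 1 := ⟨t - 1, by omega⟩
      have a1 := hAdj_iff.1 (hch s (by omega))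
      have a2 := hAdj_iff.1 (hch (s + 1) (by omega))
      have b1 := hlev s (by omega)
      have b2 := hlev (s + 1 + 1) (by omega)
      have e : l[s]'(by omega) = l[s + 1 + 1]'(by omega) := by
        apply Prod.ext
        · omega
        · omega
      have := (List.Nodup.getElem_inj_iff h4).1 e
      omega
    have h1' : l[1]'(by omega) = (1, 0) := by
      have a1 := hAdj_iff.1 (hch 0 (by omega))
      have b1 := hpos 1 (by omega) le_rfl
      rw [h0] at a1
      simp only [zero_add] at a1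
      apply Prod.ext
      · simp only; omega
      · simp only; omega
    refine ⟨?_, ?_, h4.sublist (List.drop_sublist _ _), ?_, ?_⟩
    · rw [List.head?_drop, List.getElem?_eq_getElem (by omega), h1']
    · rw [List.getLast?_drop, if_neg (by omega), List.getLast?_eq_getLast_of_ne_nil hne,
        List.getLast_eq_getElem]
      congr 1
      rw [← hlast]
      congr 1
      omega
    · exact (h3.imp fun {a b} hab => nbr_iff.2 hab).drop _
    · intro q hq
      obtain ⟨t, ht, rfl⟩ := List.getElem_of_mem hq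
      rw [List.getElem_drop]
      exact hpos _ _ (by omega)
  · have hv : vv 1 = (1, 0) := by unfold vv; simp
    rw [hv] at h2 h5
    simp only [Nat.sub_self, List.drop_zero]
    refine ⟨h2, ?_, h4, h3.imp fun {a b} hab => nbr_iff.2 hab, ?_⟩
    · rw [List.getLast?_eq_getLast_of_ne_nil hne, List.getLast_eq_getElem]
      congr 1
      rw [← hlast]
      congr 1
      omega
    · intro q hq
      have := h5 q hq
      rw [hA, hA] at this
      show 1 ≤ q.1 - q.2
      simpa using this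

theorem le_ext {l : List V} {v : V} (hv : v ∈ l) {J : ℕ}
    (h : J ≤ max (v.1 - 1).natAbs v.2.natAbs) : J ≤ ext l := by
  by_contra hc
  push Not at hc
  obtain ⟨J', rfl⟩ : ∃ J', J = J' + 1 := ⟨J - 1, by omega⟩
  have : J' < ext l := by
    rw [lt_ext]
    refine ⟨v, hv, ?_⟩
    rcases le_max_iff.1 h with h | h
    · left; omega
    · right; omega
  omega

open Classical in
/-- the initial pieces -/
noncomputable def F (c0 J i : ℕ) : Finset (List V) :=
  (CW hexA i (vv c0)).filter (fun l => (∃ j : ℤ, l.getLastD (vv c0) = (1 + j, j)) ∧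
    J ≤ ext (l.drop (1 - c0)))

theorem mem_F {J i : ℕ} {l : List V} : l ∈ F c0 J i ↔ l ∈ CW hexA i (vv c0) ∧
    (∃ j : ℤ, l.getLastD (vv c0) = (1 + j, j)) ∧ J ≤ ext (l.drop (1 - c0)) := by
  unfold F
  simp only [Finset.mem_filter]

theorem L_le (hc : c0 ≤ 1) (E : Emb hexA (vv c0) Λ r) (μ : Measure (ℕ → ℂ))
    [IsProbabilityMeasure μ] (hsupp : ∀ᵐ γ ∂μ, Good Λ r γ)
    (hcyl : ∀ (k : ℕ) (η : ℕ → ℂ), Tendsto (fun n =>
      (({γ ∈ PW Λ r n | ∀ i ≤ k, γ i = η i}).ncard : ℝ) / ((PW Λ r n).ncard : ℝ)) atTop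
        (𝓝 (μ.real {γ | ∀ i ≤ k, γ i = η i})))
    {R : ℝ} {J : ℕ} (hJ : J = 0 ∨ (0 < R ∧ ∀ q : V, R ≤ ‖E.pos q‖ →
      J ≤ max (q.1 - 1).natAbs q.2.natAbs)) (i : ℕ) :
    μ (L E R i) ≤ ∑ l ∈ F c0 J i, w (l.drop (1 - c0)) := by
  classical
  have h1 : μ (L E R i) ≤ μ (⋃ l ∈ F c0 J i, {γ | ∀ t ≤ i, γ t = E.pos (l.getD t (vv c0))}) := by
    apply measure_mono_ae
    filter_upwards [hsupp] with γ hγ hL
    obtain ⟨⟨q, hq, hq1⟩, k, hk, hR⟩ := hL
    obtain ⟨l, hl, hl2⟩ := good_list E hγ i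
    obtain ⟨l1, l2, l3, l4, l5⟩ := mem_CW.1 hl
    show γ ∈ (⋃ l ∈ F c0 J i, {γ | ∀ t ≤ i, γ t = E.pos (l.getD t (vv c0))})
    rw [Set.mem_iUnion₂]
    have hlast : l.getLastD (vv c0) = (1 + q.2, q.2) := by
      rw [getLastD_getD l1]
      have h3 := hl2 i le_rfl
      rw [← hq] at h3
      rw [← E.inj _ _ h3]
      apply Prod.ext
      · simp only; omega
      · rfl
    refine ⟨l, mem_F.2 ⟨hl, ⟨_, hlast⟩, ?_⟩, hl2⟩
    rcases hJ with rfl | ⟨hR0, hJ⟩
    · exact Nat.zero_le _
    have h3 := hl2 k hk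
    have hmem : l.getD k (vv c0) ∈ l := getD_mem _ (by omega)
    have hne : l.getD k (vv c0) ≠ vv c0 := by
      intro he
      rw [he, E.pos_v] at h3
      rw [h3, norm_zero] at hR
      linarith
    have hmem' : l.getD k (vv c0) ∈ l.drop (1 - c0) := by
      obtain ⟨q', hq'⟩ : ∃ q', q' = l.getD k (vv c0) := ⟨_, rfl⟩
      rw [← hq'] at hmem hne ⊢
      obtain ⟨-, e1, e2⟩ := arc_of hc hl hlast
      rw [e1] at hmem
      rcases List.mem_append.1 hmem with h | h
      · rw [e2] at h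
        interval_cases c0
        · simp only [if_true, List.mem_singleton] at h
          exfalso
          apply hne
          rw [h]
          simp [vv]
        · simp at h
      · exact h
    refine le_ext hmem' (hJ _ ?_)
    rw [← h3]
    exact hR
  refine h1.trans ((measure_biUnion_finset_le _ _).trans (Finset.sum_le_sum fun l hl => ?_))
  obtain ⟨hl1, ⟨j, hj⟩, -⟩ := mem_F.1 hl
  exact cyl_le hc E μ hcyl hl1 hj

theorem sum_F_le (hc : c0 ≤ 1) (J : ℕ) :
    ∑' i : ℕ, ∑ l ∈ F c0 J i, w (l.drop (1 - c0)) ≤ mA J := by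
  classical
  have h1 : ∀ i, ∑ l ∈ F c0 J i, w (l.drop (1 - c0)) =
      ∑' l : F c0 J i, w ((l : List V).drop (1 - c0)) := fun i =>
    (Finset.tsum_subtype (F c0 J i) (fun l : List V => w (l.drop (1 - c0)))).symm
  simp only [h1]
  rw [← ENNReal.tsum_sigma' (f := fun p : (Σ i : ℕ, F c0 J i) => w ((p.2 : List V).drop (1 - c0)))]
  unfold mA
  let f : (Σ i : ℕ, F c0 J i) → List V := fun p => (p.2 : List V).drop (1 - c0)
  have hmem : ∀ p, f p ∈ Arcs J := by
    rintro ⟨i, l, hl⟩
    obtain ⟨hl1, ⟨j, hj⟩, hl3⟩ := mem_F.1 hl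
    exact ⟨⟨j, (arc_of hc hl1 hj).1⟩, hl3⟩
  have hf : Function.Injective f := by
    rintro ⟨i, l, hl⟩ ⟨i', l', hl'⟩ he
    obtain ⟨hl1, ⟨j, hj⟩, hl3⟩ := mem_F.1 hl
    obtain ⟨hl1', ⟨j', hj'⟩, hl3'⟩ := mem_F.1 hl'
    obtain ⟨-, e1, e2⟩ := arc_of hc hl1 hj
    obtain ⟨-, e1', e2'⟩ := arc_of hc hl1' hj'
    have e : l = l' := by
      rw [e1, e1', e2, e2']
      congr 1
    subst e
    have hi : i = i' := by
      have a1 := (mem_CW.1 hl1).1
      have a2 := (mem_CW.1 hl1').1
      omega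
    subst hi
    rfl
  refine le_trans (le_of_eq ?_)
    (ENNReal.tsum_comp_le_tsum_of_injective hf (fun l => (Arcs J).indicator w l))
  refine tsum_congr fun p => ?_
  rw [Set.indicator_of_mem (hmem p)]

end Q294.Bd
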