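import Mathlib

/-!
# Matrix exponentials of generators of finite Markov chains
-/

namespace Q294.MatExp

open Matrix NormedSpace

variable {S : Type*} [Fintype S] [DecidableEq S]

/-- exponential series applied to a vector -/
lemma hasSum_exp_mulVec (A : Matrix S S ℝ) (v : S → ℝ) (s : S) :
    HasSum (fun n : ℕ => ((n.factorial : ℝ)⁻¹) * ((A ^ n) *ᵥ v) s) ((exp A *ᵥ v) s) := by
  have h1 : HasSum (fun n : ℕ => ((n.factorial : ℝ)⁻¹) • A ^ n) (exp A) := by
    open scoped Norms.Operator in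
      exact NormedSpace.exp_series_hasSum_exp' (𝕂 := ℝ) A
  have h2 : Continuous (fun M : Matrix S S ℝ => (M *ᵥ v) s) := by
    unfold Matrix.mulVec dotProduct
    fun_prop
  let φ : Matrix S S ℝ →+ ℝ :=
    { toFun := fun M => (M *ᵥ v) s
      map_zero' := by simp
      map_add' := by intro M N; simp [Matrix.add_mulVec] }
  have h3 := h1.map φ h2
  have h4 : (φ ∘ fun n : ℕ => ((n.factorial : ℝ)⁻¹) • A ^ n) =
      fun n : ℕ => ((n.factorial : ℝ)⁻¹) * ((A ^ n) *ᵥ v) s := by
    funext n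
    simp [φ, Matrix.smul_mulVec]
  rw [h4] at h3
  exact h3

/-- exponential series, entrywise -/
lemma hasSum_exp_apply (A : Matrix S S ℝ) (s t : S) :
    HasSum (fun n : ℕ => ((n.factorial : ℝ)⁻¹) * (A ^ n) s t) (exp A s t) := by
  have h := hasSum_exp_mulVec A (Pi.single t 1) s
  simpa using h

lemma exp_smul_eq (L : Matrix S S ℝ) (c t : ℝ) :
    exp (t • L) = Real.exp (-(c * t)) • exp (t • (L + c • (1 : Matrix S S ℝ))) := by
  have h1 : t • L = t • (L + c • (1 : Matrix S S ℝ)) + (-(c * t)) • (1 : Matrix S S ℝ) := by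
    rw [smul_add, smul_smul, add_assoc, ← add_smul]
    have : t * c + -(c * t) = 0 := by ring
    rw [this, zero_smul, add_zero]
  have hcomm : Commute (t • (L + c • (1 : Matrix S S ℝ))) ((-(c * t)) • (1 : Matrix S S ℝ)) := by
    apply Commute.smul_right
    exact Commute.one_right _
  have h2 : exp ((-(c * t)) • (1 : Matrix S S ℝ)) = Real.exp (-(c * t)) • (1 : Matrix S S ℝ) := by
    have h3 : (-(c * t)) • (1 : Matrix S S ℝ) = diagonal (fun _ => -(c * t)) := by
      ext i j; simp [Matrix.one_apply, Matrix.diagonal_apply]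
    rw [h3, Matrix.exp_diagonal]
    ext i j
    by_cases hij : i = j
    · subst hij
      simp [Pi.exp_def, Real.exp_eq_exp_ℝ]
    · simp [hij]
  conv_lhs => rw [h1]
  rw [Matrix.exp_add_of_commute _ _ hcomm, h2]
  simp

/-- nonnegativity of the entries of the exponential of a matrix with nonnegative off-diagonal
entries -/
lemma pow_nonneg_apply {B : Matrix S S ℝ} (hB : ∀ s t, 0 ≤ B s t) (n : ℕ) :
    ∀ s t, 0 ≤ (B ^ n) s t := by
  induction n with
  | zero =>
    intro s t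
    rw [pow_zero, Matrix.one_apply]
    split_ifs <;> norm_num
  | succ n ih =>
    intro s t
    rw [pow_succ, Matrix.mul_apply]
    exact Finset.sum_nonneg fun u _ => mul_nonneg (ih s u) (hB u t)

lemma exp_nonneg_apply {B : Matrix S S ℝ} (hB : ∀ s t, 0 ≤ B s t) (s t : S) :
    0 ≤ exp B s t :=
  (hasSum_exp_apply B s t).nonneg fun n =>
    mul_nonneg (by positivity) (pow_nonneg_apply hB n s t)

/-- a generator -/
structure IsGen (L : Matrix S S ℝ) : Prop where
  off : ∀ s t, s ≠ t → 0 ≤ L s t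
  row : ∀ s, ∑ t, L s t = 0

lemma IsGen.exists_shift {L : Matrix S S ℝ} (hL : IsGen L) :
    ∃ c : ℝ, 0 < c ∧ ∀ s t, 0 ≤ (L + c • (1 : Matrix S S ℝ)) s t := by
  refine ⟨1 + ∑ s, |L s s|, ?_, ?_⟩
  · have : 0 ≤ ∑ s, |L s s| := Finset.sum_nonneg fun _ _ => abs_nonneg _
    linarith
  · intro s t
    by_cases hst : s = t
    · subst hst
      have h1 : |L s s| ≤ ∑ s, |L s s| :=
        Finset.single_le_sum (f := fun s => |L s s|) (fun _ _ => abs_nonneg _) (Finset.mem_univ s)
      have h2 := neg_abs_le (L s s)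
      simp
      linarith
    · simp [hst]
      exact hL.off s t hst

lemma IsGen.exp_nonneg {L : Matrix S S ℝ} (hL : IsGen L) {t : ℝ} (ht : 0 ≤ t) (s u : S) :
    0 ≤ exp (t • L) s u := by
  obtain ⟨c, hc, hB⟩ := hL.exists_shift
  rw [exp_smul_eq L c t, Matrix.smul_apply, smul_eq_mul]
  refine mul_nonneg (Real.exp_pos _).le (exp_nonneg_apply ?_ s u)
  intro s u
  rw [Matrix.smul_apply, smul_eq_mul]
  exact mul_nonneg ht (hB s u)

/-- If `L F ≤ δ` pointwise then `exp (tL) F ≤ F + δ t`. -/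
lemma IsGen.exp_drift {L : Matrix S S ℝ} (hL : IsGen L) {t : ℝ} (ht : 0 ≤ t) (F : S → ℝ) (δ : ℝ)
    (hF : ∀ s, (L *ᵥ F) s ≤ δ) (s : S) :
    (exp (t • L) *ᵥ F) s ≤ F s + δ * t := by
  obtain ⟨c, hc, hB⟩ := hL.exists_shift
  set B : Matrix S S ℝ := L + c • (1 : Matrix S S ℝ) with hBdef
  have hBF : ∀ s, (B *ᵥ F) s ≤ δ + c * F s := by
    intro s
    rw [hBdef, Matrix.add_mulVec, Matrix.smul_mulVec, Matrix.one_mulVec]
    simp only [Pi.add_apply, Pi.smul_apply, smul_eq_mul]
    linarith [hF s]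
  have hB1 : ∀ s, ∑ u, B s u = c := by
    intro s
    simp only [hBdef, Matrix.add_apply, Matrix.smul_apply, smul_eq_mul, Finset.sum_add_distrib,
      hL.row s]
    simp [Matrix.one_apply]
  have hpow : ∀ n : ℕ, ∀ s, ((B ^ n) *ᵥ F) s ≤ c ^ n * F s + n * c ^ (n - 1) * δ := by
    intro n
    induction n with
    | zero => intro s; simp
    | succ n ih =>
      intro s
      rw [pow_succ', ← Matrix.mulVec_mulVec]
      have h1 : (B *ᵥ ((B ^ n) *ᵥ F)) s ≤ ∑ u, B s u * (c ^ n * F u + n * c ^ (n - 1) * δ) := by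
        unfold Matrix.mulVec dotProduct
        exact Finset.sum_le_sum fun u _ => mul_le_mul_of_nonneg_left (ih u) (hB s u)
      have h2 : ∑ u, B s u * (c ^ n * F u + n * c ^ (n - 1) * δ) =
          c ^ n * (B *ᵥ F) s + c * (n * c ^ (n - 1) * δ) := by
        unfold Matrix.mulVec dotProduct
        rw [← hB1 s, Finset.mul_sum, Finset.sum_mul, ← Finset.sum_add_distrib]
        refine Finset.sum_congr rfl fun u _ => ?_
        rw [hB1 s]
        ring
      have h3 : c ^ n * (B *ᵥ F) s ≤ c ^ n * (δ + c * F s) :=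
        mul_le_mul_of_nonneg_left (hBF s) (by positivity)
      have h4 : c * (n * c ^ (n - 1) * δ) = n * c ^ n * δ := by
        rcases n with _ | n
        · simp
        · rw [Nat.add_sub_cancel, pow_succ]; ring
      calc (B *ᵥ ((B ^ n) *ᵥ F)) s ≤ c ^ n * (B *ᵥ F) s + c * (n * c ^ (n - 1) * δ) := by
            rw [← h2]; exact h1
        _ ≤ c ^ n * (δ + c * F s) + n * c ^ n * δ := by rw [h4]; linarith
        _ = c ^ (n + 1) * F s + ((n + 1 : ℕ) : ℝ) * c ^ (n + 1 - 1) * δ := by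
            rw [Nat.add_sub_cancel]; push_cast; ring
  -- the exponential series
  have hs1 := hasSum_exp_mulVec (t • B) F s
  have he : ∀ x : ℝ, HasSum (fun n : ℕ => ((n.factorial : ℝ)⁻¹) * x ^ n) (Real.exp x) := by
    intro x
    have := NormedSpace.exp_series_hasSum_exp' (𝕂 := ℝ) x
    rw [← Real.exp_eq_exp_ℝ] at this
    simpa using this
  have he2 : HasSum (fun n : ℕ => ((n.factorial : ℝ)⁻¹) * (n * (t ^ n * c ^ (n - 1)))) 
      (t * Real.exp (c * t)) := by
    have h0 := he (c * t)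
    have h1 := h0.mul_left t
    have h2 : HasSum (fun n : ℕ => (((n + 1).factorial : ℝ)⁻¹) *
        (((n + 1 : ℕ) : ℝ) * (t ^ (n + 1) * c ^ (n + 1 - 1)))) (t * Real.exp (c * t)) := by
      refine h1.congr_fun ?_ |> fun h => h
      intro n
      rw [Nat.add_sub_cancel, Nat.factorial_succ]
      push_cast
      have : ((n : ℝ) + 1) ≠ 0 := by positivity
      have h' : (n.factorial : ℝ) ≠ 0 := by positivity
      rw [mul_pow]
      field_simp
      ring
    have h3 := (hasSum_nat_add_iff (f := fun n : ℕ => ((n.factorial : ℝ)⁻¹) *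
      (n * (t ^ n * c ^ (n - 1)))) 1).mp h2
    simpa using h3
  have hs2 : HasSum (fun n : ℕ => ((n.factorial : ℝ)⁻¹) * (c * t) ^ n * F s +
      δ * (((n.factorial : ℝ)⁻¹) * (n * (t ^ n * c ^ (n - 1)))))
      (Real.exp (c * t) * F s + δ * (t * Real.exp (c * t))) :=
    ((he (c * t)).mul_right (F s)).add (he2.mul_left δ)
  have hle : (exp (t • B) *ᵥ F) s ≤ Real.exp (c * t) * F s + δ * (t * Real.exp (c * t)) := by
    refine hasSum_le ?_ hs1 hs2
    intro n
    have h5 : ((t • B) ^ n *ᵥ F) s = t ^ n * ((B ^ n) *ᵥ F) s := by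
      rw [smul_pow, Matrix.smul_mulVec, Pi.smul_apply, smul_eq_mul]
    rw [h5]
    have h6 : t ^ n * ((B ^ n) *ᵥ F) s ≤ t ^ n * (c ^ n * F s + n * c ^ (n - 1) * δ) :=
      mul_le_mul_of_nonneg_left (hpow n s) (by positivity)
    calc ((n.factorial : ℝ)⁻¹) * (t ^ n * ((B ^ n) *ᵥ F) s)
        ≤ ((n.factorial : ℝ)⁻¹) * (t ^ n * (c ^ n * F s + n * c ^ (n - 1) * δ)) :=
          mul_le_mul_of_nonneg_left h6 (by positivity)
      _ = _ := by rw [mul_pow]; ring
  rw [exp_smul_eq L c t, Matrix.smul_mulVec, Pi.smul_apply, smul_eq_mul]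
  calc Real.exp (-(c * t)) * (exp (t • B) *ᵥ F) s
      ≤ Real.exp (-(c * t)) * (Real.exp (c * t) * F s + δ * (t * Real.exp (c * t))) :=
        mul_le_mul_of_nonneg_left hle (Real.exp_pos _).le
    _ = (Real.exp (-(c * t)) * Real.exp (c * t)) * (F s + δ * t) := by ring
    _ = F s + δ * t := by
        rw [← Real.exp_add]; simp

/-- row sums of the semigroup are one -/
lemma IsGen.exp_row {L : Matrix S S ℝ} (hL : IsGen L) (t : ℝ) (s : S) :
    ∑ u, exp (t • L) s u = 1 := by
  have h := hasSum_exp_mulVec (t • L) (fun _ => (1 : ℝ)) s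
  have h0 : ∀ n : ℕ, n ≠ 0 → ((n.factorial : ℝ)⁻¹) * (((t • L) ^ n) *ᵥ (fun _ => (1 : ℝ))) s = 0 := by
    intro n hn
    obtain ⟨m, rfl⟩ := Nat.exists_eq_succ_of_ne_zero hn
    have h1 : (t • L) *ᵥ (fun _ => (1 : ℝ)) = 0 := by
      funext u
      simp [Matrix.mulVec, dotProduct, ← Finset.mul_sum, hL.row u]
    rw [Nat.succ_eq_add_one, pow_succ, ← Matrix.mulVec_mulVec, h1, Matrix.mulVec_zero]
    simp
  have h2 := hasSum_single (f := fun n : ℕ => ((n.factorial : ℝ)⁻¹) *
    (((t • L) ^ n) *ᵥ (fun _ => (1 : ℝ))) s) 0 (fun n hn => h0 n hn)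
  have h3 := h.unique h2
  simpa [Matrix.mulVec, dotProduct, Matrix.one_apply] using h3

/-- a left null vector of `L` is invariant under the semigroup -/
lemma exp_stationary {L : Matrix S S ℝ} {p : S → ℝ} (hp : ∀ u, ∑ s, p s * L s u = 0) (t : ℝ)
    (u : S) : ∑ s, p s * exp (t • L) s u = p u := by
  have h : HasSum (fun n : ℕ => ∑ s, p s * (((n.factorial : ℝ)⁻¹) * ((t • L) ^ n) s u))
      (∑ s, p s * exp (t • L) s u) :=
    hasSum_sum fun s _ => (hasSum_exp_apply (t • L) s u).mul_left (p s)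
  have h0 : ∀ n : ℕ, n ≠ 0 →
      ∑ s, p s * (((n.factorial : ℝ)⁻¹) * ((t • L) ^ n) s u) = 0 := by
    intro n hn
    obtain ⟨m, rfl⟩ := Nat.exists_eq_succ_of_ne_zero hn
    have h1 : ∀ w : S, ∑ s, p s * (t • L) s w = 0 := by
      intro w
      have : ∑ s, p s * (t • L) s w = t * ∑ s, p s * L s w := by
        rw [Finset.mul_sum]
        refine Finset.sum_congr rfl fun s _ => ?_
        rw [Matrix.smul_apply, smul_eq_mul]; ring
      rw [this, hp w, mul_zero]
    have h2 : ∑ s, p s * ((((m + 1).factorial : ℝ)⁻¹) * ((t • L) ^ (m + 1)) s u) =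
        (((m + 1).factorial : ℝ)⁻¹) * ∑ w, (∑ s, p s * (t • L) s w) * ((t • L) ^ m) w u := by
      simp only [pow_succ', Matrix.mul_apply, Finset.mul_sum, Finset.sum_mul]
      rw [Finset.sum_comm]
      refine Finset.sum_congr rfl fun s _ => Finset.sum_congr rfl fun w _ => ?_
      ring
    rw [Nat.succ_eq_add_one, h2, Finset.sum_eq_zero, mul_zero]
    intro w _
    rw [h1 w, zero_mul]
  have h2 := hasSum_single (f := fun n : ℕ =>
    ∑ s, p s * (((n.factorial : ℝ)⁻¹) * ((t • L) ^ n) s u)) 0 (fun n hn => h0 n hn)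
  have h3 := h.unique h2
  simpa [Matrix.one_apply] using h3

end Q294.MatExp
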