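import Mathlib
import Pool.Agent.Q294.MatExp

/-!
# The simple exclusion process on a segment in a random environment
-/

namespace Q294.ExclRE

open MeasureTheory Finset Q294.MatExp

/-- Configurations of exactly `k` particles on `N` sites (the sites `1, …, N` are coded by
`Fin N`, i.e. `0, …, N-1`); a configuration is the set of occupied sites. -/
abbrev Config (N k : ℕ) := {η : Finset (Fin N) // η.card = k}

variable {N k : ℕ}

/-- The configuration obtained by permuting the sites by `e`. -/
def act (e : Equiv.Perm (Fin N)) (η : Config N k) : Config N k :=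
  ⟨η.1.map e.toEmbedding, by rw [Finset.card_map, η.2]⟩

/-- The rate at which a particle at `x` attempts to jump to `y` in the environment `ω`:
`ω x` if `y = x + 1`, `1 - ω x` if `y = x - 1`, and `0` otherwise. -/
def jumpRate (ω : Fin N → ℝ) (x y : Fin N) : ℝ :=
  if (y : ℕ) = x + 1 then ω x else if (x : ℕ) = y + 1 then 1 - ω x else 0

/-- The generator of the exclusion process: for `x` occupied and `y` empty, the particle at `x`
jumps to `y` (the contents of `x` and `y` are exchanged) at rate `jumpRate ω x y`. -/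
def gen (ω : Fin N → ℝ) : Matrix (Config N k) (Config N k) ℝ := fun η ζ =>
  ∑ x : Fin N, ∑ y : Fin N, if x ∈ η.1 ∧ y ∉ η.1 then
    jumpRate ω x y * ((if ζ = act (Equiv.swap x y) η then 1 else 0) - (if ζ = η then 1 else 0))
    else 0

/-- The transition probabilities `P_t = exp (t L)` of the exclusion process. -/
noncomputable def trans (ω : Fin N → ℝ) (t : ℝ) : Matrix (Config N k) (Config N k) ℝ :=
  NormedSpace.exp (t • gen ω)

/-- Total variation distance. -/
noncomputable def tv {S : Type*} [Fintype S] (p q : S → ℝ) : ℝ := (1 / 2) * ∑ s, |p s - q s|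

/-- `π` is a stationary distribution of the exclusion process in the environment `ω`. -/
structure IsStationary (ω : Fin N → ℝ) (π : Config N k → ℝ) : Prop where
  nonneg : ∀ η, 0 ≤ π η
  sum_one : ∑ η, π η = 1
  invariant : ∀ t : ℝ, 0 ≤ t → ∀ ζ, ∑ η, π η * trans ω t η ζ = π ζ

/-- The mixing time `inf {t ≥ 0 : max_η ‖P_t(η, ·) - π‖_TV ≤ 1/4}`. -/
noncomputable def mixTime (ω : Fin N → ℝ) (π : Config N k → ℝ) : ENNReal :=
  ⨅ (t : ℝ) (_ : 0 ≤ t) (_ : ∀ η : Config N k, tv (trans ω t η) π ≤ 1 / 4), ENNReal.ofReal t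

/-! ## Elementary facts -/

lemma act_val (e : Equiv.Perm (Fin N)) (η : Config N k) : (act e η).1 = η.1.map e.toEmbedding := rfl

lemma mem_act {e : Equiv.Perm (Fin N)} {η : Config N k} {z : Fin N} :
    z ∈ (act e η).1 ↔ e.symm z ∈ η.1 := by
  rw [act_val, Finset.mem_map]
  constructor
  · rintro ⟨w, hw, rfl⟩
    simpa using hw
  · intro h
    exact ⟨e.symm z, h, by simp⟩

lemma act_swap_act_swap (x y : Fin N) (η : Config N k) :
    act (Equiv.swap x y) (act (Equiv.swap x y) η) = η := by
  apply Subtype.ext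
  ext z
  rw [mem_act, mem_act]
  simp

/-- exchange as an equivalence of the configuration space -/
def swapEquiv (x y : Fin N) : Config N k ≃ Config N k where
  toFun := act (Equiv.swap x y)
  invFun := act (Equiv.swap x y)
  left_inv := act_swap_act_swap x y
  right_inv := act_swap_act_swap x y

lemma jumpRate_nonneg {ω : Fin N → ℝ} (hω : ∀ i, 0 < ω i ∧ ω i < 1) (x y : Fin N) :
    0 ≤ jumpRate ω x y := by
  unfold jumpRate
  split_ifs
  · exact (hω x).1.le
  · linarith [(hω x).2]
  · exact le_rfl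

lemma isGen {ω : Fin N → ℝ} (hω : ∀ i, 0 < ω i ∧ ω i < 1) :
    IsGen (gen ω : Matrix (Config N k) (Config N k) ℝ) where
  off := by
    intro η ζ hne
    unfold gen
    refine Finset.sum_nonneg fun x _ => Finset.sum_nonneg fun y _ => ?_
    split_ifs with h1 h2 h3 h3
    · exact absurd h3.symm hne
    · have := jumpRate_nonneg hω x y
      linarith
    · exact absurd h3.symm hne
    · simp
    · exact le_rfl
  row := by
    intro η
    unfold gen
    rw [Finset.sum_comm]
    refine Finset.sum_eq_zero fun x _ => ?_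
    rw [Finset.sum_comm]
    refine Finset.sum_eq_zero fun y _ => ?_
    by_cases h : x ∈ η.1 ∧ y ∉ η.1
    · simp only [if_pos h]
      rw [← Finset.mul_sum, Finset.sum_sub_distrib]
      simp
    · simp [if_neg h]

lemma gen_mulVec (ω : Fin N → ℝ) (F : Config N k → ℝ) (η : Config N k) :
    (Matrix.mulVec (gen ω) F) η = ∑ x : Fin N, ∑ y : Fin N, if x ∈ η.1 ∧ y ∉ η.1 then
      jumpRate ω x y * (F (act (Equiv.swap x y) η) - F η) else 0 := by
  unfold Matrix.mulVec dotProduct gen
  simp_rw [Finset.sum_mul]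
  rw [Finset.sum_comm]
  refine Finset.sum_congr rfl fun x _ => ?_
  rw [Finset.sum_comm]
  refine Finset.sum_congr rfl fun y _ => ?_
  by_cases h : x ∈ η.1 ∧ y ∉ η.1
  · simp only [if_pos h]
    simp_rw [mul_assoc]
    rw [← Finset.mul_sum]
    congr 1
    simp_rw [sub_mul]
    rw [Finset.sum_sub_distrib]
    simp
  · simp [if_neg h]

/-! ## The number of particles to the right of a site -/

/-- number of particles strictly to the right of `x₀` -/
noncomputable def rightCount (x₀ : Fin N) (η : Config N k) : ℝ :=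
  ∑ z ∈ η.1, if x₀ < z then 1 else 0

lemma sum_act_swap {f : Fin N → ℝ} {η : Config N k} {x y : Fin N} (hx : x ∈ η.1) (hy : y ∉ η.1) :
    ∑ z ∈ (act (Equiv.swap x y) η).1, f z = (∑ z ∈ η.1, f z) + (f y - f x) := by
  rw [act_val, Finset.sum_map]
  have h : ∑ z ∈ η.1, (f ((Equiv.swap x y) z) - f z) = f y - f x := by
    rw [Finset.sum_eq_single x]
    · simp
    · intro z hz hzx
      have hzy : z ≠ y := fun h => hy (h ▸ hz)
      rw [Equiv.swap_apply_of_ne_of_ne hzx hzy, sub_self]
    · exact fun h => absurd hx h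
  rw [Finset.sum_sub_distrib] at h
  simp only [Equiv.coe_toEmbedding]
  linarith

lemma gen_rightCount_le {ω : Fin N → ℝ} (hω : ∀ i, 0 < ω i ∧ ω i < 1) (x₀ : Fin N)
    (η : Config N k) : (Matrix.mulVec (gen ω) (rightCount x₀)) η ≤ ω x₀ := by
  rw [gen_mulVec]
  have hterm : ∀ x y : Fin N, (if x ∈ η.1 ∧ y ∉ η.1 then
      jumpRate ω x y * (rightCount x₀ (act (Equiv.swap x y) η) - rightCount x₀ η) else 0) ≤
      if x = x₀ then (if (y : ℕ) = x₀ + 1 then ω x₀ else 0) else 0 := by
    intro x y
    have hnn : 0 ≤ (if x = x₀ then (if (y : ℕ) = x₀ + 1 then ω x₀ else 0) else 0) := by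
      split_ifs
      · exact (hω x₀).1.le
      · exact le_rfl
      · exact le_rfl
    by_cases h : x ∈ η.1 ∧ y ∉ η.1
    · rw [if_pos h]
      have h1 : rightCount x₀ (act (Equiv.swap x y) η) - rightCount x₀ η =
          (if x₀ < y then 1 else 0) - (if x₀ < x then 1 else 0) := by
        unfold rightCount
        rw [sum_act_swap h.1 h.2]
        ring
      rw [h1]
      by_cases hxx : x₀ < x
      · have h2 : ((if x₀ < y then (1 : ℝ) else 0) - (if x₀ < x then 1 else 0)) ≤ 0 := by
          rw [if_pos hxx]; split_ifs <;> norm_num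
        exact (mul_nonpos_of_nonneg_of_nonpos (jumpRate_nonneg hω x y) h2).trans hnn
      · by_cases hyy : x₀ < y
        · -- `x ≤ x₀ < y`
          rw [if_pos hyy, if_neg hxx, sub_zero, mul_one]
          unfold jumpRate
          have hx' : (x : ℕ) ≤ x₀ := by
            have := not_lt.mp hxx
            exact this
          have hy' : (x₀ : ℕ) < y := hyy
          by_cases h3 : (y : ℕ) = x + 1
          · have h4 : x = x₀ := by
              apply Fin.ext
              omega
            subst h4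
            rw [if_pos h3, if_pos rfl, if_pos h3]
          · rw [if_neg h3, if_neg (by omega)]
            exact hnn
        · rw [if_neg hyy, if_neg hxx, sub_zero, mul_zero]
          exact hnn
    · rw [if_neg h]
      exact hnn
  calc _ ≤ ∑ x : Fin N, ∑ y : Fin N,
        (if x = x₀ then (if (y : ℕ) = x₀ + 1 then ω x₀ else 0) else 0) :=
        Finset.sum_le_sum fun x _ => Finset.sum_le_sum fun y _ => hterm x y
    _ = ∑ y : Fin N, (if (y : ℕ) = x₀ + 1 then ω x₀ else 0) := by
        rw [Finset.sum_comm]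
        refine Finset.sum_congr rfl fun y _ => ?_
        simp
    _ ≤ ω x₀ := by
        rw [← Finset.sum_filter, Finset.sum_const]
        have hcard : (Finset.univ.filter fun y : Fin N => (y : ℕ) = x₀ + 1).card ≤ 1 := by
          rw [Finset.card_le_one]
          intro a ha b hb
          simp only [Finset.mem_filter, Finset.mem_univ, true_and] at ha hb
          exact Fin.ext (by omega)
        rw [nsmul_eq_mul]
        have : ((Finset.univ.filter fun y : Fin N => (y : ℕ) = x₀ + 1).card : ℝ) ≤ 1 := by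
          exact_mod_cast hcard
        nlinarith [(hω x₀).1]

/-! ## The reversible measure -/

/-- the reversible measure of a single particle -/
noncomputable def mm (ω : Fin N → ℝ) (y : Fin N) : ℝ :=
  (∏ i ∈ Finset.Iio y, ω i) * ∏ i ∈ Finset.Ioi y, (1 - ω i)

lemma mm_pos {ω : Fin N → ℝ} (hω : ∀ i, 0 < ω i ∧ ω i < 1) (y : Fin N) : 0 < mm ω y := by
  unfold mm
  refine mul_pos (Finset.prod_pos fun i _ => (hω i).1)
    (Finset.prod_pos fun i _ => by linarith [(hω i).2])

lemma mm_mul_self (ω : Fin N → ℝ) (y : Fin N) :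
    mm ω y * ω y = (∏ i ∈ Finset.Iic y, ω i) * ∏ i ∈ Finset.Ioi y, (1 - ω i) := by
  unfold mm
  have h : Finset.Iic y = insert y (Finset.Iio y) := by
    ext i; simp only [Finset.mem_Iic, Finset.mem_insert, Finset.mem_Iio]
    constructor
    · intro h; rcases h.lt_or_eq with h | h
      · exact Or.inr h
      · exact Or.inl h
    · rintro (h | h)
      · exact h.le
      · exact h.le
  rw [h, Finset.prod_insert (by simp)]
  ring

lemma mm_balance {ω : Fin N → ℝ} {x y : Fin N} (hxy : (y : ℕ) = x + 1) :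
    mm ω x * ω x = mm ω y * (1 - ω y) := by
  rw [mm_mul_self]
  unfold mm
  have h1 : Finset.Iic x = Finset.Iio y := by
    ext i; simp only [Finset.mem_Iic, Finset.mem_Iio, Fin.le_def, Fin.lt_def]; omega
  have h2 : Finset.Ioi x = insert y (Finset.Ioi y) := by
    ext i; simp only [Finset.mem_Ioi, Finset.mem_insert, Fin.lt_def, Fin.ext_iff]; omega
  rw [h1, h2, Finset.prod_insert (by simp)]
  ring

lemma mm_jumpRate (ω : Fin N → ℝ) (x y : Fin N) :
    mm ω x * jumpRate ω x y = mm ω y * jumpRate ω y x := by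
  unfold jumpRate
  by_cases h1 : (y : ℕ) = x + 1
  · have h2 : ¬ (x : ℕ) = y + 1 := by omega
    rw [if_pos h1, if_neg h2, if_pos h1]
    exact mm_balance h1
  · by_cases h2 : (x : ℕ) = y + 1
    · rw [if_neg h1, if_pos h2, if_pos h2]
      exact (mm_balance h2).symm
    · rw [if_neg h1, if_neg h2, if_neg h2, if_neg h1]
      simp

/-- the ratio of the reversible weights of two sites -/
lemma mm_le {ω : Fin N → ℝ} (hω : ∀ i, 0 < ω i ∧ ω i < 1) {y z : Fin N} (hyz : y < z) :
    mm ω y ≤ mm ω z * ((1 / ω y) * ∏ i ∈ Finset.Ioc y z, ((1 - ω i) / ω i)) := by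
  have h1 : mm ω y * ω y = (mm ω z * ω z) * ∏ i ∈ Finset.Ioc y z, ((1 - ω i) / ω i) := by
    rw [mm_mul_self, mm_mul_self]
    have e1 : Finset.Iic z = Finset.Iic y ∪ Finset.Ioc y z := by
      ext i; simp only [Finset.mem_Iic, Finset.mem_union, Finset.mem_Ioc, Fin.le_def, Fin.lt_def]
      have : (y : ℕ) < z := hyz
      omega
    have e2 : Finset.Ioi y = Finset.Ioc y z ∪ Finset.Ioi z := by
      ext i; simp only [Finset.mem_Ioi, Finset.mem_union, Finset.mem_Ioc, Fin.le_def, Fin.lt_def]
      have : (y : ℕ) < z := hyz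
      omega
    have d1 : Disjoint (Finset.Iic y) (Finset.Ioc y z) := by
      rw [Finset.disjoint_left]; intro i hi hi'
      rw [Finset.mem_Iic] at hi; rw [Finset.mem_Ioc] at hi'
      exact absurd hi (not_le.mpr hi'.1)
    have d2 : Disjoint (Finset.Ioc y z) (Finset.Ioi z) := by
      rw [Finset.disjoint_left]; intro i hi hi'
      rw [Finset.mem_Ioc] at hi; rw [Finset.mem_Ioi] at hi'
      exact absurd hi.2 (not_le.mpr hi')
    rw [e1, e2, Finset.prod_union d1, Finset.prod_union d2, Finset.prod_div_distrib]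
    have hne : (∏ i ∈ Finset.Ioc y z, ω i) ≠ 0 :=
      Finset.prod_ne_zero_iff.mpr fun i _ => (hω i).1.ne'
    field_simp
  have hy := (hω y).1
  have h2 : mm ω y = (mm ω z * ((1 / ω y) * ∏ i ∈ Finset.Ioc y z, ((1 - ω i) / ω i))) * ω z := by
    have : mm ω y = (mm ω y * ω y) / ω y := by field_simp
    rw [this, h1]
    field_simp
  have h3 : 0 ≤ mm ω z * ((1 / ω y) * ∏ i ∈ Finset.Ioc y z, ((1 - ω i) / ω i)) := by
    refine mul_nonneg (mm_pos hω z).le (mul_nonneg (by positivity) (Finset.prod_nonneg ?_))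
    intro i _
    exact div_nonneg (by linarith [(hω i).2]) (hω i).1.le
  rw [h2]
  exact mul_le_of_le_one_right h3 (hω z).2.le

/-- weight of a configuration -/
noncomputable def wt (ω : Fin N → ℝ) (η : Config N k) : ℝ := ∏ y ∈ η.1, mm ω y

lemma wt_pos {ω : Fin N → ℝ} (hω : ∀ i, 0 < ω i ∧ ω i < 1) (η : Config N k) : 0 < wt ω η :=
  Finset.prod_pos fun i _ => mm_pos hω i

lemma wt_act_swap {ω : Fin N → ℝ} {η : Config N k} {x y : Fin N} (hx : x ∈ η.1) (hy : y ∉ η.1) :
    mm ω x * wt ω (act (Equiv.swap x y) η) = mm ω y * wt ω η := by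
  unfold wt
  rw [act_val, Finset.prod_map]
  have h1 : ∏ z ∈ η.1.erase x, mm ω ((Equiv.swap x y).toEmbedding z) =
      ∏ z ∈ η.1.erase x, mm ω z := by
    refine Finset.prod_congr rfl fun z hz => ?_
    rw [Finset.mem_erase] at hz
    have hzy : z ≠ y := fun h => hy (h ▸ hz.2)
    simp only [Equiv.coe_toEmbedding]
    rw [Equiv.swap_apply_of_ne_of_ne hz.1 hzy]
  rw [← Finset.mul_prod_erase _ _ hx, ← Finset.mul_prod_erase _ (fun z => mm ω z) hx, h1]
  simp only [Equiv.coe_toEmbedding, Equiv.swap_apply_left]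
  ring

lemma wt_gen {ω : Fin N → ℝ} (hω : ∀ i, 0 < ω i ∧ ω i < 1) (ζ : Config N k) :
    ∑ η, wt ω η * gen ω η ζ = 0 := by
  -- flux out of `η` along `(x, y)`
  set J : Fin N → Fin N → Config N k → ℝ := fun x y η =>
    if x ∈ η.1 ∧ y ∉ η.1 then wt ω η * jumpRate ω x y else 0 with hJ
  have hJsym : ∀ x y η, J x y (act (Equiv.swap x y) η) = J y x η := by
    intro x y η
    simp only [hJ]
    have hmx : x ∈ (act (Equiv.swap x y) η).1 ↔ y ∈ η.1 := by rw [mem_act]; simp
    have hmy : y ∈ (act (Equiv.swap x y) η).1 ↔ x ∈ η.1 := by rw [mem_act]; simp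
    by_cases h : y ∈ η.1 ∧ x ∉ η.1
    · rw [if_pos (⟨hmx.mpr h.1, fun hc => h.2 (hmy.mp hc)⟩), if_pos h]
      have h1 := wt_act_swap (ω := ω) h.1 h.2
      rw [Equiv.swap_comm y x] at h1
      have h2 := mm_jumpRate ω x y
      have hx := mm_pos hω x
      have hy := mm_pos hω y
      have h3 : mm ω y * (wt ω (act (Equiv.swap x y) η) * jumpRate ω x y) =
          mm ω y * (wt ω η * jumpRate ω y x) := by
        calc mm ω y * (wt ω (act (Equiv.swap x y) η) * jumpRate ω x y)
            = (mm ω y * wt ω (act (Equiv.swap x y) η)) * jumpRate ω x y := by ring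
          _ = (mm ω x * jumpRate ω x y) * wt ω η := by rw [h1]; ring
          _ = mm ω y * (wt ω η * jumpRate ω y x) := by rw [h2]; ring
      exact mul_left_cancel₀ hy.ne' h3
    · rw [if_neg (fun hc => h ⟨hmx.mp hc.1, fun hc' => hc.2 (hmy.mpr hc')⟩), if_neg h]
  have h1 : ∀ η, wt ω η * gen ω η ζ = ∑ x : Fin N, ∑ y : Fin N,
      ((if ζ = act (Equiv.swap x y) η then J x y η else 0) - (if ζ = η then J x y η else 0)) := by
    intro η
    unfold gen
    rw [Finset.mul_sum]
    refine Finset.sum_congr rfl fun x _ => ?_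
    rw [Finset.mul_sum]
    refine Finset.sum_congr rfl fun y _ => ?_
    simp only [hJ]
    by_cases h : x ∈ η.1 ∧ y ∉ η.1
    · simp only [if_pos h]
      split_ifs <;> ring
    · simp [if_neg h]
  simp_rw [h1]
  rw [Finset.sum_comm]
  have h2 : ∀ x : Fin N, ∑ η : Config N k, ∑ y : Fin N,
      ((if ζ = act (Equiv.swap x y) η then J x y η else 0) - (if ζ = η then J x y η else 0)) =
      ∑ y : Fin N, (J y x ζ - J x y ζ) := by
    intro x
    rw [Finset.sum_comm]
    refine Finset.sum_congr rfl fun y _ => ?_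
    rw [Finset.sum_sub_distrib]
    congr 1
    · rw [Finset.sum_eq_single (act (Equiv.swap x y) ζ)]
      · rw [if_pos (act_swap_act_swap x y ζ).symm, hJsym]
      · intro η _ hη
        rw [if_neg]
        intro h
        apply hη
        rw [h, act_swap_act_swap]
      · intro h; exact absurd (Finset.mem_univ _) h
    · simp
  simp_rw [h2, Finset.sum_sub_distrib]
  rw [sub_eq_zero, Finset.sum_comm]

/-- the partition function -/
noncomputable def Zn (ω : Fin N → ℝ) (k : ℕ) : ℝ := ∑ η : Config N k, wt ω η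

/-- the reversible distribution -/
noncomputable def pi0 (ω : Fin N → ℝ) (η : Config N k) : ℝ := wt ω η / Zn ω k

/-- the left-packed configuration -/
def leftPacked (h : k ≤ N) : Config N k :=
  ⟨(Finset.univ : Finset (Fin k)).map (Fin.castLEEmb h), by simp⟩

lemma mem_leftPacked {h : k ≤ N} {z : Fin N} (hz : z ∈ (leftPacked h).1) : (z : ℕ) < k := by
  unfold leftPacked at hz
  rw [Finset.mem_map] at hz
  obtain ⟨j, _, rfl⟩ := hz
  simp

lemma Zn_pos {ω : Fin N → ℝ} (hω : ∀ i, 0 < ω i ∧ ω i < 1) (h : k ≤ N) : 0 < Zn ω k :=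
  Finset.sum_pos (fun η _ => wt_pos hω η) ⟨leftPacked h, Finset.mem_univ _⟩

lemma isStationary_pi0 {ω : Fin N → ℝ} (hω : ∀ i, 0 < ω i ∧ ω i < 1) (h : k ≤ N) :
    IsStationary ω (pi0 ω : Config N k → ℝ) where
  nonneg := fun η => div_nonneg (wt_pos hω η).le (Zn_pos hω h).le
  sum_one := by
    unfold pi0
    rw [← Finset.sum_div]
    exact div_self (Zn_pos hω h).ne'
  invariant := by
    intro t _ ζ
    refine exp_stationary ?_ t ζ
    intro ξ
    have h1 := wt_gen hω ξ
    have h2 : ∑ η, pi0 ω η * gen ω η ξ = (∑ η, wt ω η * gen ω η ξ) / Zn ω k := by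
      rw [Finset.sum_div]
      refine Finset.sum_congr rfl fun η _ => ?_
      unfold pi0
      ring
    rw [h2, h1, zero_div]

/-- the total ratio of weights of left sites to right sites -/
noncomputable def ratioSum (ω : Fin N → ℝ) (k : ℕ) : ℝ :=
  ∑ y : Fin N, if (y : ℕ) < 2 * k then ∑ z : Fin N, if 3 * k ≤ (z : ℕ) then mm ω y / mm ω z else 0
    else 0

lemma sum_wt_swap {ω : Fin N → ℝ} (hω : ∀ i, 0 < ω i ∧ ω i < 1) (y z : Fin N) :
    ∑ η : Config N k, (if y ∈ η.1 ∧ z ∉ η.1 then wt ω η else 0) ≤ mm ω y / mm ω z * Zn ω k := by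
  have hy := mm_pos hω y
  have hz := mm_pos hω z
  have h1 : ∑ η : Config N k, (if y ∈ η.1 ∧ z ∉ η.1 then wt ω η else 0) ≤
      ∑ η : Config N k, mm ω y / mm ω z * wt ω (swapEquiv y z η) := by
    refine Finset.sum_le_sum fun η _ => ?_
    split_ifs with h
    · have h2 := wt_act_swap (ω := ω) h.1 h.2
      have h3 : mm ω y / mm ω z * wt ω (swapEquiv y z η) = wt ω η := by
        have : wt ω (swapEquiv y z η) = wt ω (act (Equiv.swap y z) η) := rfl
        rw [this]
        field_simp
        linarith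
      rw [h3]
    · exact mul_nonneg (div_nonneg hy.le hz.le) (wt_pos hω _).le
  refine h1.trans (le_of_eq ?_)
  rw [← Finset.mul_sum, Equiv.sum_comp (swapEquiv y z) (fun η : Config N k => wt ω η)]
  rfl

lemma sum_wt_left {ω : Fin N → ℝ} (hω : ∀ i, 0 < ω i ∧ ω i < 1) (hkN : 4 * k ≤ N) (y : Fin N)
    (hy : (y : ℕ) < 2 * k) :
    ∑ η : Config N k, (if y ∈ η.1 then wt ω η else 0) ≤
      ∑ z : Fin N, if 3 * k ≤ (z : ℕ) then mm ω y / mm ω z * Zn ω k else 0 := by
  have h1 : ∀ η : Config N k, (if y ∈ η.1 then wt ω η else 0) ≤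
      ∑ z : Fin N, if 3 * k ≤ (z : ℕ) then (if y ∈ η.1 ∧ z ∉ η.1 then wt ω η else 0) else 0 := by
    intro η
    have hnn : ∀ z : Fin N, 0 ≤ (if 3 * k ≤ (z : ℕ) then
        (if y ∈ η.1 ∧ z ∉ η.1 then wt ω η else 0) else 0) := by
      intro z
      split_ifs
      · exact (wt_pos hω η).le
      · exact le_rfl
      · exact le_rfl
    by_cases hyη : y ∈ η.1
    · rw [if_pos hyη]
      -- there is an empty site on the right
      have hex : ∃ z : Fin N, 3 * k ≤ (z : ℕ) ∧ z ∉ η.1 := by
        by_contra hcon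
        push Not at hcon
        have hinj : Function.Injective (fun j : Fin (k + 1) =>
            if h : (j : ℕ) < k then (⟨3 * k + j, by omega⟩ : Fin N) else y) := by
          intro a b hab
          by_cases ha : (a : ℕ) < k
          · by_cases hb : (b : ℕ) < k
            · simp only [dif_pos ha, dif_pos hb, Fin.mk.injEq] at hab
              exact Fin.ext (by omega)
            · simp only [dif_pos ha, dif_neg hb] at hab
              exfalso
              have := congrArg Fin.val hab
              simp only at this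
              omega
          · by_cases hb : (b : ℕ) < k
            · simp only [dif_neg ha, dif_pos hb] at hab
              exfalso
              have := congrArg Fin.val hab
              simp only at this
              omega
            · exact Fin.ext (by omega)
        have hsub : ∀ j : Fin (k + 1), (if h : (j : ℕ) < k then
            (⟨3 * k + j, by omega⟩ : Fin N) else y) ∈ η.1 := by
          intro j
          split_ifs with h
          · exact hcon _ (by simp)
          · exact hyη
        have := Finset.card_le_card_of_injOn (s := (Finset.univ : Finset (Fin (k + 1))))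
          (t := η.1) _ (fun j _ => hsub j) (fun a _ b _ hab => hinj hab)
        rw [η.2, Finset.card_fin] at this
        omega
      obtain ⟨z, hz1, hz2⟩ := hex
      refine le_trans ?_ (Finset.single_le_sum (fun z _ => hnn z) (Finset.mem_univ z))
      rw [if_pos hz1, if_pos ⟨hyη, hz2⟩]
    · rw [if_neg hyη]
      exact Finset.sum_nonneg fun z _ => hnn z
  refine (Finset.sum_le_sum fun η _ => h1 η).trans ?_
  rw [Finset.sum_comm]
  refine Finset.sum_le_sum fun z _ => ?_
  by_cases hz : 3 * k ≤ (z : ℕ)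
  · simp only [if_pos hz]
    exact sum_wt_swap hω y z
  · simp [if_neg hz]

/-- Under the reversible law almost all particles are to the right of `x₀`. -/
lemma pi0_rightCount {ω : Fin N → ℝ} (hω : ∀ i, 0 < ω i ∧ ω i < 1) (hkN : 4 * k ≤ N) (x₀ : Fin N)
    (hx₀ : (x₀ : ℕ) < 2 * k) :
    (k : ℝ) - ratioSum ω k ≤ ∑ η : Config N k, pi0 ω η * rightCount x₀ η := by
  have hkN' : k ≤ N := by omega
  have hZ := Zn_pos (k := k) hω hkN'
  have hsum := (isStationary_pi0 (k := k) hω hkN').sum_one
  have h1 : ∀ η : Config N k, rightCount x₀ η = k - ∑ y : Fin N,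
      if y ≤ x₀ then (if y ∈ η.1 then (1 : ℝ) else 0) else 0 := by
    intro η
    have h2 : ∑ y : Fin N, (if y ≤ x₀ then (if y ∈ η.1 then (1 : ℝ) else 0) else 0) =
        ∑ y ∈ η.1, if y ≤ x₀ then (1 : ℝ) else 0 := by
      rw [← Finset.sum_filter_add_sum_filter_not (Finset.univ : Finset (Fin N)) (fun y => y ∈ η.1)]
      have h3 : (Finset.univ.filter fun y : Fin N => y ∈ η.1) = η.1 := by ext; simp
      rw [h3]
      have h4 : ∑ y ∈ Finset.univ.filter (fun y : Fin N => y ∉ η.1),
          (if y ≤ x₀ then (if y ∈ η.1 then (1 : ℝ) else 0) else 0) = 0 := by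
        refine Finset.sum_eq_zero fun y hy => ?_
        rw [Finset.mem_filter] at hy
        simp [hy.2]
      rw [h4, add_zero]
      refine Finset.sum_congr rfl fun y hy => ?_
      simp [hy]
    have h5 : (k : ℝ) = ∑ y ∈ η.1, (1 : ℝ) := by
      rw [Finset.sum_const, η.2]; simp
    unfold rightCount
    rw [h2, h5, ← Finset.sum_sub_distrib]
    refine Finset.sum_congr rfl fun y _ => ?_
    by_cases hy : x₀ < y
    · rw [if_pos hy, if_neg (not_le.mpr hy)]; ring
    · rw [if_neg hy, if_pos (not_lt.mp hy)]; ring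
  have h6 : ∑ η : Config N k, pi0 ω η * rightCount x₀ η = k - ∑ y : Fin N,
      if y ≤ x₀ then (∑ η : Config N k, if y ∈ η.1 then pi0 ω η else 0) else 0 := by
    simp_rw [h1, mul_sub]
    rw [Finset.sum_sub_distrib, ← Finset.sum_mul, hsum, one_mul]
    congr 1
    simp_rw [Finset.mul_sum]
    rw [Finset.sum_comm]
    refine Finset.sum_congr rfl fun y _ => ?_
    by_cases hy : y ≤ x₀
    · simp only [if_pos hy]
      refine Finset.sum_congr rfl fun η _ => ?_
      split_ifs <;> simp
    · simp [if_neg hy]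
  rw [h6]
  have h7 : ∑ y : Fin N, (if y ≤ x₀ then (∑ η : Config N k, if y ∈ η.1 then pi0 ω η else 0) else 0)
      ≤ ratioSum ω k := by
    unfold ratioSum
    refine Finset.sum_le_sum fun y _ => ?_
    by_cases hy : y ≤ x₀
    · have hy' : (y : ℕ) ≤ x₀ := hy
      rw [if_pos hy, if_pos (by omega : (y : ℕ) < 2 * k)]
      have h8 := sum_wt_left (k := k) hω hkN y (by omega)
      have h9 : (∑ η : Config N k, if y ∈ η.1 then pi0 ω η else 0) =
          (∑ η : Config N k, if y ∈ η.1 then wt ω η else 0) / Zn ω k := by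
        rw [Finset.sum_div]
        refine Finset.sum_congr rfl fun η _ => ?_
        unfold pi0
        split_ifs <;> simp
      rw [h9, div_le_iff₀ hZ]
      refine h8.trans (le_of_eq ?_)
      rw [Finset.sum_mul]
      refine Finset.sum_congr rfl fun z _ => ?_
      split_ifs <;> simp
    · rw [if_neg hy]
      split_ifs
      · refine Finset.sum_nonneg fun z _ => ?_
        split_ifs
        · exact div_nonneg (mm_pos hω y).le (mm_pos hω z).le
        · exact le_rfl
      · exact le_rfl
  linarith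

lemma tv_bound {S : Type*} [Fintype S] {p q F : S → ℝ} (hpq : ∑ s, p s = ∑ s, q s) {K : ℝ}
    (hF0 : ∀ s, 0 ≤ F s) (hFK : ∀ s, F s ≤ K) :
    |∑ s, p s * F s - ∑ s, q s * F s| ≤ K * tv p q := by
  have h1 : ∑ s, p s * F s - ∑ s, q s * F s = ∑ s, (p s - q s) * (F s - K / 2) := by
    have h2 : ∑ s, (p s - q s) * (F s - K / 2) =
        (∑ s, p s * F s - ∑ s, q s * F s) - (∑ s, p s - ∑ s, q s) * (K / 2) := by
      rw [← Finset.sum_sub_distrib, ← Finset.sum_sub_distrib, Finset.sum_mul,
        ← Finset.sum_sub_distrib]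
      refine Finset.sum_congr rfl fun s _ => ?_
      ring
    rw [h2, hpq]; ring
  rw [h1]
  unfold tv
  calc |∑ s, (p s - q s) * (F s - K / 2)| ≤ ∑ s, |(p s - q s) * (F s - K / 2)| :=
        Finset.abs_sum_le_sum_abs _ _
    _ ≤ ∑ s, |p s - q s| * (K / 2) := by
        refine Finset.sum_le_sum fun s _ => ?_
        rw [abs_mul]
        refine mul_le_mul_of_nonneg_left ?_ (abs_nonneg _)
        rw [abs_le]
        constructor <;> linarith [hF0 s, hFK s]
    _ = K * (1 / 2 * ∑ s, |p s - q s|) := by rw [← Finset.sum_mul]; ring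

/-- **Deterministic lower bound**: a site with a small rate to the right is a bottleneck. -/
theorem det_bound {ω : Fin N → ℝ} (hω : ∀ i, 0 < ω i ∧ ω i < 1) (hk : 1 ≤ k) (hkN : 4 * k ≤ N)
    (x₀ : Fin N) (hx₀ : k ≤ (x₀ : ℕ)) (hx₀' : (x₀ : ℕ) < 2 * k) {δ : ℝ} (hδ : ω x₀ ≤ δ)
    (hS : ratioSum ω k ≤ 1 / 4) {π : Config N k → ℝ} (hπ : ∑ η, π η = 1) {t : ℝ} (ht : 0 ≤ t)
    (hmix : ∀ η : Config N k, tv (trans ω t η) π ≤ 1 / 4) : (k : ℝ) / 4 ≤ δ * t := by
  have hkN' : k ≤ N := by omega
  have hst := isStationary_pi0 (k := k) hω hkN'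
  have hG := isGen (k := k) hω
  have hF0 : ∀ η : Config N k, 0 ≤ rightCount x₀ η := by
    intro η
    unfold rightCount
    refine Finset.sum_nonneg fun z _ => ?_
    split_ifs <;> norm_num
  have hFk : ∀ η : Config N k, rightCount x₀ η ≤ k := by
    intro η
    have h5 : (k : ℝ) = ∑ y ∈ η.1, (1 : ℝ) := by
      rw [Finset.sum_const, η.2]; simp
    unfold rightCount
    rw [h5]
    refine Finset.sum_le_sum fun z _ => ?_
    split_ifs <;> norm_num
  have hk0 : (1 : ℝ) ≤ k := by exact_mod_cast hk
  -- closeness of `P_t F (η)` and `π F`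
  have hclose : ∀ η : Config N k,
      |∑ ζ, trans ω t η ζ * rightCount x₀ ζ - ∑ ζ, π ζ * rightCount x₀ ζ| ≤ k * (1 / 4) := by
    intro η
    have h1 : ∑ ζ, trans ω t η ζ = ∑ ζ, π ζ := by
      rw [hπ]; exact hG.exp_row t η
    refine (tv_bound h1 hF0 hFk).trans ?_
    exact mul_le_mul_of_nonneg_left (hmix η) (by positivity)
  -- start from the left-packed configuration
  have hleft : ∑ ζ, trans ω t (leftPacked hkN') ζ * rightCount x₀ ζ ≤ δ * t := by
    have h1 := hG.exp_drift ht (rightCount x₀) δ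
      (fun s => (gen_rightCount_le hω x₀ s).trans hδ) (leftPacked hkN')
    have h2 : rightCount x₀ (leftPacked (k := k) hkN') = 0 := by
      unfold rightCount
      refine Finset.sum_eq_zero fun z hz => ?_
      have := mem_leftPacked hz
      rw [if_neg]
      intro hlt
      have : (x₀ : ℕ) < z := hlt
      omega
    rw [h2, zero_add] at h1
    exact h1
  -- stationary start
  have hstat : ∑ η : Config N k, pi0 ω η * (∑ ζ, trans ω t η ζ * rightCount x₀ ζ) =
      ∑ ζ : Config N k, pi0 ω ζ * rightCount x₀ ζ := by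
    simp_rw [Finset.mul_sum]
    rw [Finset.sum_comm]
    refine Finset.sum_congr rfl fun ζ _ => ?_
    rw [← hst.invariant t ht ζ, Finset.sum_mul]
    refine Finset.sum_congr rfl fun η _ => ?_
    ring
  have h3 : ∑ η : Config N k, pi0 ω η * (∑ ζ, trans ω t η ζ * rightCount x₀ ζ) ≤
      ∑ η : Config N k, pi0 ω η * (∑ ζ, π ζ * rightCount x₀ ζ + k * (1 / 4)) := by
    refine Finset.sum_le_sum fun η _ => mul_le_mul_of_nonneg_left ?_ (hst.nonneg η)
    have := (abs_le.mp (hclose η)).2
    linarith
  rw [hstat, ← Finset.sum_mul, hst.sum_one, one_mul] at h3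
  have h4 := pi0_rightCount (k := k) hω hkN x₀ hx₀'
  have h5 := (abs_le.mp (hclose (leftPacked hkN'))).1
  linarith

end Q294.ExclRE
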