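import Mathlib
import Pool.Agent.Q294.ExclRE

/-!
# Exclusion in a random environment: probabilistic estimates
-/

namespace Q294.ExclRE

open MeasureTheory Finset ProbabilityTheory Filter
open scoped ENNReal Topology

variable {N k : ℕ}

/-- the ratio `(1 - x) / x`, with value `∞` at `x = 0` -/
noncomputable def rho (x : ℝ) : ℝ≥0∞ := ENNReal.ofReal (1 - x) / ENNReal.ofReal x

lemma measurable_rho : Measurable rho := by
  unfold rho
  fun_prop

lemma rho_eq {x : ℝ} (hx : 0 < x) : rho x = ENNReal.ofReal ((1 - x) / x) := by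
  unfold rho
  rw [ENNReal.ofReal_div_of_pos hx]

/-- the law of the environment -/
noncomputable abbrev envLaw (μ : Measure ℝ) (N : ℕ) : Measure (Fin N → ℝ) :=
  Measure.pi fun _ : Fin N => μ

/-- the bound for the ratio of two weights -/
noncomputable def GG (ω : Fin N → ℝ) (y z : Fin N) : ℝ≥0∞ :=
  ENNReal.ofReal (1 / ω y) * ∏ i ∈ Finset.Ioc y z, rho (ω i)

lemma ofReal_mm_div_le {ω : Fin N → ℝ} (hω : ∀ i, 0 < ω i ∧ ω i < 1) {y z : Fin N} (hyz : y < z) :
    ENNReal.ofReal (mm ω y / mm ω z) ≤ GG ω y z := by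
  have hz := mm_pos hω z
  have h1 : mm ω y / mm ω z ≤ (1 / ω y) * ∏ i ∈ Finset.Ioc y z, ((1 - ω i) / ω i) := by
    rw [div_le_iff₀ hz, mul_comm]
    exact mm_le hω hyz
  refine (ENNReal.ofReal_le_ofReal h1).trans (le_of_eq ?_)
  unfold GG
  rw [ENNReal.ofReal_mul (by have := (hω y).1; positivity), ENNReal.ofReal_prod_of_nonneg]
  · congr 1
    exact Finset.prod_congr rfl fun i _ => (rho_eq (hω i).1).symm
  · intro i _
    exact div_nonneg (by linarith [(hω i).2]) (hω i).1.le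

lemma measurable_GG (y z : Fin N) : Measurable fun ω : Fin N → ℝ => GG ω y z := by
  unfold GG
  refine Measurable.mul (by fun_prop) ?_
  exact Finset.measurable_prod _ fun i _ => measurable_rho.comp (measurable_pi_apply i)

lemma lintegral_GG (μ : Measure ℝ) [IsProbabilityMeasure μ] {y z : Fin N} (hyz : y < z) :
    ∫⁻ ω, GG ω y z ∂(envLaw μ N) =
      (∫⁻ x, ENNReal.ofReal (1 / x) ∂μ) * (∫⁻ x, rho x ∂μ) ^ ((z : ℕ) - y) := by
  set f : Fin N → ℝ → ℝ≥0∞ := fun i x => if i = y then ENNReal.ofReal (1 / x) else rho x with hf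
  have hfm : ∀ i, Measurable (f i) := by
    intro i
    simp only [hf]
    split_ifs
    · fun_prop
    · exact measurable_rho
  have hind : iIndepFun (fun i (ω : Fin N → ℝ) => f i (ω i)) (envLaw μ N) :=
    iIndepFun_pi (X := fun i => f i) fun i => (hfm i).aemeasurable
  have h1 := lintegral_prod_eq_prod_lintegral_of_indepFun (insert y (Finset.Ioc y z))
    (fun i (ω : Fin N → ℝ) => f i (ω i)) hind (fun i => (hfm i).comp (measurable_pi_apply i))
  have hnot : y ∉ Finset.Ioc y z := by simp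
  have h2 : ∀ ω : Fin N → ℝ, ∏ i ∈ insert y (Finset.Ioc y z), f i (ω i) = GG ω y z := by
    intro ω
    rw [Finset.prod_insert hnot]
    unfold GG
    congr 1
    · simp [hf]
    · refine Finset.prod_congr rfl fun i hi => ?_
      have : i ≠ y := fun h => hnot (h ▸ hi)
      simp [hf, this]
  simp_rw [h2] at h1
  rw [h1]
  have h3 : ∀ i, ∫⁻ ω, f i (ω i) ∂(envLaw μ N) = ∫⁻ x, f i x ∂μ := by
    intro i
    exact (measurePreserving_eval (fun _ : Fin N => μ) i).lintegral_comp (hfm i)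
  simp_rw [h3]
  rw [Finset.prod_insert hnot]
  congr 1
  · simp [hf]
  · have h4 : ∀ i ∈ Finset.Ioc y z, ∫⁻ x, f i x ∂μ = ∫⁻ x, rho x ∂μ := by
      intro i hi
      have : i ≠ y := fun h => hnot (h ▸ hi)
      simp [hf, this]
    rw [Finset.prod_congr rfl h4, Finset.prod_const, Fin.card_Ioc]

lemma lintegral_inv_le (μ : Measure ℝ) [IsProbabilityMeasure μ] (hμ : μ (Set.Ioo 0 1)ᶜ = 0) :
    ∫⁻ x, ENNReal.ofReal (1 / x) ∂μ ≤ 1 + ∫⁻ x, rho x ∂μ := by
  have h : ∀ᵐ x ∂μ, x ∈ Set.Ioo (0 : ℝ) 1 := by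
    rw [ae_iff]; exact hμ
  calc ∫⁻ x, ENNReal.ofReal (1 / x) ∂μ ≤ ∫⁻ x, (1 + rho x) ∂μ := by
        refine lintegral_mono_ae ?_
        filter_upwards [h] with x hx
        rw [rho_eq hx.1]
        have h1 : (1 : ℝ) / x = 1 + (1 - x) / x := by
          have := hx.1.ne'
          field_simp
          ring
        rw [h1, ENNReal.ofReal_add zero_le_one (div_nonneg (by linarith [hx.2]) hx.1.le),
          ENNReal.ofReal_one]
    _ = 1 + ∫⁻ x, rho x ∂μ := by
        rw [lintegral_add_left measurable_const]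
        simp

/-- the sum of the bounds of the ratios -/
noncomputable def GS (ω : Fin N → ℝ) (k : ℕ) : ℝ≥0∞ :=
  ∑ y : Fin N, ∑ z : Fin N, if (y : ℕ) < 2 * k ∧ 3 * k ≤ (z : ℕ) then GG ω y z else 0

lemma ofReal_ratioSum_le {ω : Fin N → ℝ} (hω : ∀ i, 0 < ω i ∧ ω i < 1) (hk : 1 ≤ k) :
    ENNReal.ofReal (ratioSum ω k) ≤ GS ω k := by
  unfold ratioSum GS
  have hnn : ∀ y z : Fin N, 0 ≤ (if 3 * k ≤ (z : ℕ) then mm ω y / mm ω z else 0) := by
    intro y z
    split_ifs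
    · exact div_nonneg (mm_pos hω y).le (mm_pos hω z).le
    · exact le_rfl
  rw [ENNReal.ofReal_sum_of_nonneg]
  · refine Finset.sum_le_sum fun y _ => ?_
    by_cases hy : (y : ℕ) < 2 * k
    · simp only [hy, if_true, true_and]
      rw [ENNReal.ofReal_sum_of_nonneg (fun z _ => hnn y z)]
      refine Finset.sum_le_sum fun z _ => ?_
      by_cases hz : 3 * k ≤ (z : ℕ)
      · rw [if_pos hz, if_pos hz]
        refine ofReal_mm_div_le hω ?_
        rw [Fin.lt_def]; omega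
      · rw [if_neg hz]; simp
    · simp [hy]
  · intro y _
    split_ifs
    · exact Finset.sum_nonneg fun z _ => hnn y z
    · exact le_rfl

lemma measurable_GS (k : ℕ) : Measurable fun ω : Fin N → ℝ => GS ω k := by
  unfold GS
  refine Finset.measurable_sum _ fun y _ => Finset.measurable_sum _ fun z _ => ?_
  split_ifs
  · exact measurable_GG y z
  · exact measurable_const

lemma lintegral_GS (μ : Measure ℝ) [IsProbabilityMeasure μ] (hμ : μ (Set.Ioo 0 1)ᶜ = 0)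
    (hr : ∫⁻ x, rho x ∂μ ≤ 1) (hk : 1 ≤ k) :
    ∫⁻ ω, GS ω k ∂(envLaw μ N) ≤ 2 * (N : ℝ≥0∞) ^ 2 * (∫⁻ x, rho x ∂μ) ^ k := by
  unfold GS
  rw [lintegral_finsetSum _ (fun y _ => Finset.measurable_sum _ fun z _ => by
    split_ifs
    · exact measurable_GG y z
    · exact measurable_const)]
  calc ∑ y : Fin N, ∫⁻ ω, ∑ z : Fin N, (if (y : ℕ) < 2 * k ∧ 3 * k ≤ (z : ℕ) then GG ω y z else 0)
        ∂(envLaw μ N) ≤ ∑ y : Fin N, ∑ z : Fin N, 2 * (∫⁻ x, rho x ∂μ) ^ k := by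
        refine Finset.sum_le_sum fun y _ => ?_
        rw [lintegral_finsetSum _ (fun z _ => by
          split_ifs
          · exact measurable_GG y z
          · exact measurable_const)]
        refine Finset.sum_le_sum fun z _ => ?_
        by_cases h : (y : ℕ) < 2 * k ∧ 3 * k ≤ (z : ℕ)
        · simp only [if_pos h]
          have hyz : y < z := by rw [Fin.lt_def]; omega
          rw [lintegral_GG μ hyz]
          have h1 : ∫⁻ x, ENNReal.ofReal (1 / x) ∂μ ≤ 2 := by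
            refine (lintegral_inv_le μ hμ).trans ?_
            calc (1 : ℝ≥0∞) + ∫⁻ x, rho x ∂μ ≤ 1 + 1 := by gcongr
              _ = 2 := by norm_num
          have h2 : (∫⁻ x, rho x ∂μ) ^ ((z : ℕ) - y) ≤ (∫⁻ x, rho x ∂μ) ^ k :=
            pow_le_pow_right_of_le_one' hr (by omega)
          exact mul_le_mul' h1 h2
        · simp [if_neg h]
    _ = 2 * (N : ℝ≥0∞) ^ 2 * (∫⁻ x, rho x ∂μ) ^ k := by
        simp only [Finset.sum_const, Finset.card_univ, Fintype.card_fin, nsmul_eq_mul]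
        ring

lemma prob_no_bottleneck (μ : Measure ℝ) [IsProbabilityMeasure μ] (δ : ℝ) (hkN : 4 * k ≤ N) :
    envLaw μ N {ω | ∀ x : Fin N, k ≤ (x : ℕ) → (x : ℕ) < 2 * k → δ < ω x} ≤
      (μ (Set.Ioi δ)) ^ k := by
  have h1 : {ω : Fin N → ℝ | ∀ x : Fin N, k ≤ (x : ℕ) → (x : ℕ) < 2 * k → δ < ω x} =
      Set.pi Set.univ (fun x : Fin N => if k ≤ (x : ℕ) ∧ (x : ℕ) < 2 * k then Set.Ioi δ
        else Set.univ) := by
    ext ω
    simp only [Set.mem_ofPred_eq, Set.mem_pi, Set.mem_univ, true_implies]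
    refine forall_congr' fun x => ?_
    by_cases h : k ≤ (x : ℕ) ∧ (x : ℕ) < 2 * k
    · simp [h]
    · rw [if_neg h]
      simp only [Set.mem_univ, iff_true]
      intro h1 h2
      exact absurd ⟨h1, h2⟩ h
  rw [h1, Measure.pi_pi]
  have h2 : ∀ x : Fin N, μ (if k ≤ (x : ℕ) ∧ (x : ℕ) < 2 * k then Set.Ioi δ else Set.univ) =
      if k ≤ (x : ℕ) ∧ (x : ℕ) < 2 * k then μ (Set.Ioi δ) else 1 := by
    intro x
    split_ifs
    · rfl
    · exact measure_univ
  simp_rw [h2]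
  rw [← Finset.prod_filter, Finset.prod_const]
  refine pow_le_pow_right_of_le_one' prob_le_one ?_
  have h3 := Finset.card_le_card_of_injOn (s := (Finset.univ : Finset (Fin k)))
    (t := Finset.univ.filter fun x : Fin N => k ≤ (x : ℕ) ∧ (x : ℕ) < 2 * k)
    (fun j => (⟨k + j, by omega⟩ : Fin N)) (fun j _ => by
      simp only [Finset.coe_filter, Finset.mem_univ, true_and, Set.mem_ofPred_eq]
      omega) (fun a _ b _ hab => by
      simp only [Fin.mk.injEq] at hab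
      exact Fin.ext (by omega))
  simpa using h3

/-- **The main probability estimate.** -/
theorem prob_bound (μ : Measure ℝ) [IsProbabilityMeasure μ] (hμ : μ (Set.Ioo 0 1)ᶜ = 0)
    (hr : ∫⁻ x, rho x ∂μ ≤ 1) (hk : 1 ≤ k) (hkN : 4 * k ≤ N) {δ : ℝ} (hδ : 0 < δ) :
    envLaw μ N {ω | ∃ π : Config N k → ℝ, IsStationary ω π ∧
      mixTime ω π < ENNReal.ofReal (k / (4 * δ))} ≤
      (μ (Set.Ioi δ)) ^ k + 8 * (N : ℝ≥0∞) ^ 2 * (∫⁻ x, rho x ∂μ) ^ k := by
  have hsub : {ω : Fin N → ℝ | ∃ π : Config N k → ℝ, IsStationary ω π ∧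
      mixTime ω π < ENNReal.ofReal (k / (4 * δ))} ⊆
      {ω | ¬ ∀ i, ω i ∈ Set.Ioo (0 : ℝ) 1} ∪
      ({ω | ∀ x : Fin N, k ≤ (x : ℕ) → (x : ℕ) < 2 * k → δ < ω x} ∪
      {ω | ENNReal.ofReal (1 / 4) ≤ GS ω k}) := by
    rintro ω ⟨π, hst, hmix⟩
    by_contra hcon
    simp only [Set.mem_union, Set.mem_ofPred_eq, not_or, not_not, not_forall, not_le] at hcon
    obtain ⟨hω, ⟨x₀, hx1, hx2, hx3⟩, hG⟩ := hcon
    have hω' : ∀ i, 0 < ω i ∧ ω i < 1 := by
      intro i
      by_contra h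
      exact hω ⟨i, h⟩
    have hS : ratioSum ω k ≤ 1 / 4 := by
      have h1 := (ofReal_ratioSum_le hω' hk).trans_lt hG
      by_contra h2
      push Not at h2
      exact absurd (ENNReal.ofReal_le_ofReal h2.le) (not_le.mpr h1)
    unfold mixTime at hmix
    rw [iInf_lt_iff] at hmix
    obtain ⟨t, ht⟩ := hmix
    rw [iInf_lt_iff] at ht
    obtain ⟨ht0, ht⟩ := ht
    rw [iInf_lt_iff] at ht
    obtain ⟨htm, ht⟩ := ht
    have ht2 : t < k / (4 * δ) := by
      by_contra h2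
      push Not at h2
      exact absurd (ENNReal.ofReal_le_ofReal h2) (not_le.mpr ht)
    have h3 := det_bound hω' hk hkN x₀ hx1 hx2 (not_lt.mp hx3) hS hst.sum_one ht0 htm
    rw [lt_div_iff₀ (by positivity)] at ht2
    linarith
  refine (measure_mono hsub).trans ?_
  refine (measure_union_le _ _).trans ?_
  have h0 : envLaw μ N {ω | ¬ ∀ i, ω i ∈ Set.Ioo (0 : ℝ) 1} = 0 := by
    have h1 : ∀ᵐ ω ∂(envLaw μ N), ∀ i, ω i ∈ Set.Ioo (0 : ℝ) 1 := by
      rw [ae_all_iff]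
      intro i
      have h2 : ∀ᵐ x ∂μ, x ∈ Set.Ioo (0 : ℝ) 1 := by
        rw [ae_iff]; exact hμ
      exact (Measure.quasiMeasurePreserving_eval (fun _ : Fin N => μ) i).ae h2
    exact ae_iff.mp h1
  rw [h0, zero_add]
  refine (measure_union_le _ _).trans ?_
  refine add_le_add (prob_no_bottleneck μ δ hkN) ?_
  have h4 := meas_ge_le_lintegral_div (μ := envLaw μ N) (measurable_GS (N := N) k).aemeasurable
    (ε := ENNReal.ofReal (1 / 4)) (by simp) ENNReal.ofReal_ne_top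
  refine h4.trans ?_
  rw [ENNReal.div_le_iff (by simp) ENNReal.ofReal_ne_top]
  refine (lintegral_GS μ hμ hr hk).trans (le_of_eq ?_)
  have h5 : (8 : ℝ≥0∞) * ENNReal.ofReal (1 / 4) = 2 := by
    have : (8 : ℝ≥0∞) = ENNReal.ofReal 8 := by norm_num
    rw [this, ← ENNReal.ofReal_mul (by norm_num)]
    norm_num
  calc 2 * (N : ℝ≥0∞) ^ 2 * (∫⁻ x, rho x ∂μ) ^ k
      = (8 * ENNReal.ofReal (1 / 4)) * (N : ℝ≥0∞) ^ 2 * (∫⁻ x, rho x ∂μ) ^ k := by rw [h5]
    _ = 8 * (N : ℝ≥0∞) ^ 2 * (∫⁻ x, rho x ∂μ) ^ k * ENNReal.ofReal (1 / 4) := by ring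

end Q294.ExclRE
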