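import Mathlib
import Pool.Agent.Q294.ExclREProb

/-!
# A ballistic law with strong single-site bottlenecks
-/

namespace Q294.ExclRE

open MeasureTheory Finset ProbabilityTheory Filter
open scoped ENNReal Topology

/-- small jump rates `n² / 2^(n+2)`, with `n = j + 1` -/
noncomputable def hh (j : ℕ) : ℝ := ((j : ℝ) + 1) ^ 2 / 2 ^ (j + 3)

lemma hh_pos (j : ℕ) : 0 < hh j := by unfold hh; positivity

lemma hh_lt_one (j : ℕ) : hh j < 1 := by
  unfold hh
  rw [div_lt_one (by positivity)]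
  induction j with
  | zero => norm_num
  | succ j ih =>
    rcases Nat.lt_or_ge j 2 with h | h
    · interval_cases j <;> norm_num
    · have hj : (2 : ℝ) ≤ j := by exact_mod_cast h
      have h1 : (2 : ℝ) ^ (j + 1 + 3) = 2 * 2 ^ (j + 3) := by rw [pow_add]; ring
      rw [h1]
      push_cast
      nlinarith

/-- the heavy part of the law -/
noncomputable def nu : Measure ℝ :=
  Measure.sum fun j : ℕ => ((2 : ℝ≥0∞)⁻¹) ^ (j + 1) • Measure.dirac (hh j)

/-- the law of the environment: `9/10` with probability `31/32`, and `n² / 2^(n+2)` with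
probability `2^(-n) / 32` for `n = 1, 2, …` -/
noncomputable def mu : Measure ℝ :=
  ENNReal.ofReal (31 / 32) • Measure.dirac (9 / 10) + ENNReal.ofReal (1 / 32) • nu

lemma nu_univ : nu Set.univ = 1 := by
  unfold nu
  rw [Measure.sum_apply _ MeasurableSet.univ]
  simp only [Measure.smul_apply, measure_univ, smul_eq_mul, mul_one]
  rw [ENNReal.tsum_geometric_add_one, ENNReal.one_sub_inv_two, inv_inv]
  exact ENNReal.inv_mul_cancel (by norm_num) (by norm_num)

instance : IsProbabilityMeasure mu where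
  measure_univ := by
    unfold mu
    simp only [Measure.add_apply, Measure.smul_apply, measure_univ, smul_eq_mul, mul_one, nu_univ]
    rw [← ENNReal.ofReal_add (by norm_num) (by norm_num)]
    norm_num

lemma mu_supp : mu (Set.Ioo 0 1)ᶜ = 0 := by
  unfold mu nu
  have hm : MeasurableSet (Set.Ioo (0 : ℝ) 1)ᶜ := measurableSet_Ioo.compl
  simp only [Measure.add_apply, Measure.smul_apply, smul_eq_mul, Measure.sum_apply _ hm]
  have h1 : (Measure.dirac (9 / 10 : ℝ)) (Set.Ioo (0 : ℝ) 1)ᶜ = 0 := by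
    rw [Measure.dirac_apply' _ hm, Set.indicator_of_notMem]
    norm_num
  have h2 : ∀ j, (Measure.dirac (hh j)) (Set.Ioo (0 : ℝ) 1)ᶜ = 0 := by
    intro j
    rw [Measure.dirac_apply' _ hm, Set.indicator_of_notMem]
    simp [hh_pos j, hh_lt_one j]
  simp [h1, h2]

lemma sum_inv_sq_le (n : ℕ) : ∑ j ∈ Finset.range n, (4 : ℝ) / ((j : ℝ) + 1) ^ 2 ≤ 8 := by
  have h : ∀ n : ℕ, ∑ j ∈ Finset.range (n + 1), (4 : ℝ) / ((j : ℝ) + 1) ^ 2 ≤
      8 - 4 / ((n : ℝ) + 1) := by
    intro n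
    induction n with
    | zero => norm_num
    | succ n ih =>
      rw [Finset.sum_range_succ]
      refine (add_le_add_left ih _).trans ?_
      push_cast
      have hn : (0 : ℝ) < (n : ℝ) + 1 := by positivity
      have hn2 : (0 : ℝ) < (n : ℝ) + 1 + 1 := by positivity
      have key : 4 / ((n : ℝ) + 1 + 1) ^ 2 ≤ 4 / ((n : ℝ) + 1) - 4 / ((n : ℝ) + 1 + 1) := by
        rw [div_sub_div _ _ hn.ne' hn2.ne', div_le_div_iff₀ (by positivity) (by positivity)]
        nlinarith
      linarith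
  refine le_trans ?_ ((h n).trans ?_)
  · rw [Finset.sum_range_succ]
    have : (0 : ℝ) ≤ 4 / ((n : ℝ) + 1) ^ 2 := by positivity
    linarith
  · have : (0 : ℝ) ≤ 4 / ((n : ℝ) + 1) := by positivity
    linarith

lemma lintegral_nu_rho : ∫⁻ x, rho x ∂nu ≤ ENNReal.ofReal 8 := by
  unfold nu
  rw [lintegral_sum_measure]
  have h1 : ∀ j : ℕ, ∫⁻ x, rho x ∂(((2 : ℝ≥0∞)⁻¹) ^ (j + 1) • Measure.dirac (hh j)) ≤
      ENNReal.ofReal (4 / ((j : ℝ) + 1) ^ 2) := by
    intro j
    rw [lintegral_smul_measure, lintegral_dirac' _ measurable_rho, rho_eq (hh_pos j), smul_eq_mul]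
    have h2 : ((2 : ℝ≥0∞)⁻¹) ^ (j + 1) = ENNReal.ofReal ((1 / 2) ^ (j + 1)) := by
      rw [ENNReal.ofReal_pow (by norm_num)]
      congr 1
      rw [one_div, ENNReal.ofReal_inv_of_pos (by norm_num)]
      norm_num
    rw [h2, ← ENNReal.ofReal_mul (by positivity)]
    refine ENNReal.ofReal_le_ofReal ?_
    have h3 := hh_pos j
    have h4 : (1 - hh j) / hh j ≤ 1 / hh j := by
      rw [div_le_div_iff_of_pos_right h3]; linarith
    calc (1 / 2 : ℝ) ^ (j + 1) * ((1 - hh j) / hh j) ≤ (1 / 2) ^ (j + 1) * (1 / hh j) :=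
          mul_le_mul_of_nonneg_left h4 (by positivity)
      _ = 4 / ((j : ℝ) + 1) ^ 2 := by
          unfold hh
          rw [one_div_pow, one_div_div]
          have : (2 : ℝ) ^ (j + 3) = 4 * 2 ^ (j + 1) := by rw [pow_add, pow_add]; ring
          rw [this]
          field_simp
  refine (ENNReal.tsum_le_tsum h1).trans ?_
  refine ENNReal.tsum_le_of_sum_range_le fun n => ?_
  rw [← ENNReal.ofReal_sum_of_nonneg (fun j _ => by positivity)]
  exact ENNReal.ofReal_le_ofReal (sum_inv_sq_le n)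

lemma lintegral_mu_rho : ∫⁻ x, rho x ∂mu ≤ ENNReal.ofReal (1 / 2) := by
  unfold mu
  rw [lintegral_add_measure, lintegral_smul_measure, lintegral_smul_measure,
    lintegral_dirac' _ measurable_rho, rho_eq (by norm_num), smul_eq_mul, smul_eq_mul]
  calc ENNReal.ofReal (31 / 32) * ENNReal.ofReal ((1 - 9 / 10) / (9 / 10)) +
        ENNReal.ofReal (1 / 32) * ∫⁻ x, rho x ∂nu
      ≤ ENNReal.ofReal (31 / 32) * ENNReal.ofReal ((1 - 9 / 10) / (9 / 10)) +
        ENNReal.ofReal (1 / 32) * ENNReal.ofReal 8 := by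
        gcongr
        exact lintegral_nu_rho
    _ = ENNReal.ofReal (31 / 32 * ((1 - 9 / 10) / (9 / 10)) + 1 / 32 * 8) := by
        rw [← ENNReal.ofReal_mul (by norm_num), ← ENNReal.ofReal_mul (by norm_num),
          ← ENNReal.ofReal_add (by norm_num) (by norm_num)]
    _ ≤ ENNReal.ofReal (1 / 2) := ENNReal.ofReal_le_ofReal (by norm_num)

/-- probability of a bottleneck -/
lemma mu_Ioi_le (j : ℕ) (k : ℕ) : (mu (Set.Ioi (hh j))) ^ k ≤
    ENNReal.ofReal (Real.exp (-((k : ℝ) / (32 * 2 ^ (j + 1))))) := by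
  have h1 : ENNReal.ofReal (1 / (32 * 2 ^ (j + 1))) ≤ mu (Set.Iic (hh j)) := by
    unfold mu nu
    have hm : MeasurableSet (Set.Iic (hh j)) := measurableSet_Iic
    simp only [Measure.add_apply, Measure.smul_apply, smul_eq_mul, Measure.sum_apply _ hm]
    refine le_trans ?_ (le_add_left le_rfl)
    have h2 : ((2 : ℝ≥0∞)⁻¹) ^ (j + 1) ≤
        ∑' i : ℕ, ((2 : ℝ≥0∞)⁻¹) ^ (i + 1) * (Measure.dirac (hh i)) (Set.Iic (hh j)) := by
      refine le_trans ?_ (ENNReal.le_tsum j)
      rw [Measure.dirac_apply' _ hm, Set.indicator_of_mem (by simp)]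
      simp
    refine le_trans ?_ (mul_le_mul_right h2 _)
    have h3 : ((2 : ℝ≥0∞)⁻¹) ^ (j + 1) = ENNReal.ofReal ((1 / 2) ^ (j + 1)) := by
      rw [ENNReal.ofReal_pow (by norm_num)]
      congr 1
      rw [one_div, ENNReal.ofReal_inv_of_pos (by norm_num)]
      norm_num
    rw [h3, ← ENNReal.ofReal_mul (by positivity)]
    refine ENNReal.ofReal_le_ofReal (le_of_eq ?_)
    rw [one_div_pow]
    field_simp
  have h4 : mu (Set.Ioi (hh j)) ≤ ENNReal.ofReal (1 - 1 / (32 * 2 ^ (j + 1))) := by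
    have h5 : mu (Set.Ioi (hh j)) = 1 - mu (Set.Iic (hh j)) := by
      rw [← prob_compl_eq_one_sub measurableSet_Iic, Set.compl_Iic]
    rw [h5, ENNReal.ofReal_sub _ (by positivity), ENNReal.ofReal_one]
    exact tsub_le_tsub_left h1 1
  have hx : (0 : ℝ) ≤ 1 - 1 / (32 * 2 ^ (j + 1)) := by
    have : (1 : ℝ) / (32 * 2 ^ (j + 1)) ≤ 1 := by
      rw [div_le_one (by positivity)]
      have : (1 : ℝ) ≤ 2 ^ (j + 1) := one_le_pow₀ (by norm_num)
      linarith
    linarith
  calc (mu (Set.Ioi (hh j))) ^ k ≤ (ENNReal.ofReal (1 - 1 / (32 * 2 ^ (j + 1)))) ^ k :=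
        pow_le_pow_left' h4 k
    _ = ENNReal.ofReal ((1 - 1 / (32 * 2 ^ (j + 1))) ^ k) := by rw [ENNReal.ofReal_pow hx]
    _ ≤ ENNReal.ofReal (Real.exp (-((k : ℝ) / (32 * 2 ^ (j + 1))))) := by
        refine ENNReal.ofReal_le_ofReal ?_
        have h6 : (1 : ℝ) - 1 / (32 * 2 ^ (j + 1)) ≤ Real.exp (-(1 / (32 * 2 ^ (j + 1)))) := by
          have := Real.add_one_le_exp (-(1 / (32 * 2 ^ (j + 1)) : ℝ))
          linarith
        refine (pow_le_pow_left₀ hx h6 k).trans (le_of_eq ?_)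
        rw [← Real.exp_nat_mul]
        congr 1
        ring

end Q294.ExclRE
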