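import Mathlib
import Pool.Agent.Q294.ExclRELaw

/-!
# Exclusion in a ballistic random environment: conclusion
-/

namespace Q294.ExclRE

open MeasureTheory Finset ProbabilityTheory Filter
open scoped ENNReal Topology

/-- the level of the bottleneck -/
def lev (N : ℕ) : ℕ := Nat.log 2 N - Nat.log 2 (Nat.log 2 N)

lemma lev_facts {N : ℕ} (hN : 4 ≤ N) :
    1 ≤ lev N ∧ lev N ≤ Nat.log 2 N ∧
      2 ^ lev N * 2 ^ (Nat.log 2 (Nat.log 2 N)) = 2 ^ (Nat.log 2 N) ∧
      2 ^ (Nat.log 2 (Nat.log 2 N)) ≤ Nat.log 2 N ∧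
      Nat.log 2 N < 2 * 2 ^ (Nat.log 2 (Nat.log 2 N)) ∧ 2 ^ (Nat.log 2 N) ≤ N ∧
      N < 2 * 2 ^ (Nat.log 2 N) := by
  have hL : 2 ≤ Nat.log 2 N := by
    have : Nat.log 2 4 ≤ Nat.log 2 N := Nat.log_mono_right hN
    have h4 : Nat.log 2 4 = 2 := by decide
    omega
  have h1 : 2 ^ (Nat.log 2 (Nat.log 2 N)) ≤ Nat.log 2 N := Nat.pow_log_le_self 2 (by omega)
  have h2 : Nat.log 2 N < 2 ^ (Nat.log 2 (Nat.log 2 N)).succ := Nat.lt_pow_succ_log_self (by norm_num) _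
  have h3 : 2 ^ (Nat.log 2 N) ≤ N := Nat.pow_log_le_self 2 (by omega)
  have h4 : N < 2 ^ (Nat.log 2 N).succ := Nat.lt_pow_succ_log_self (by norm_num) _
  have h5 : Nat.log 2 (Nat.log 2 N) < Nat.log 2 N :=
    lt_of_lt_of_le Nat.lt_two_pow_self h1
  refine ⟨by unfold lev; omega, by unfold lev; omega, ?_, h1, ?_, h3, ?_⟩
  · rw [← pow_add]
    congr 1
    unfold lev
    omega
  · rw [Nat.succ_eq_add_one, pow_succ] at h2; omega
  · rw [Nat.succ_eq_add_one, pow_succ] at h4; omega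

/-- the particle number -/
def kk (N : ℕ) : ℕ := max 1 (N / 4)

lemma kk_facts {N : ℕ} (hN : 4 ≤ N) : 1 ≤ kk N ∧ 4 * kk N ≤ N ∧ N ≤ 8 * kk N := by
  unfold kk
  omega

/-- time scale -/
lemma time_lt {N : ℕ} (hN : 4 ≤ N) :
    (N : ℝ) ^ 2 / (50 * (Real.log N) ^ 3) < (kk N : ℝ) / (4 * hh (lev N - 1)) := by
  obtain ⟨h1, h2, h3, h4, h5, h6, h7⟩ := lev_facts hN
  obtain ⟨k1, k2, k3⟩ := kk_facts hN
  set L := Nat.log 2 N with hL
  set l := Nat.log 2 L with hl
  have hL2 : 2 ≤ L := by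
    have : Nat.log 2 4 ≤ Nat.log 2 N := Nat.log_mono_right hN
    have h4 : Nat.log 2 4 = 2 := by decide
    omega
  have hhe : hh (lev N - 1) = (lev N : ℝ) ^ 2 / (4 * 2 ^ (lev N)) := by
    unfold hh
    have e1 : ((lev N - 1 : ℕ) : ℝ) + 1 = lev N := by
      have : lev N - 1 + 1 = lev N := by omega
      exact_mod_cast this
    have e2 : lev N - 1 + 3 = lev N + 2 := by omega
    rw [e1, e2, pow_add]
    norm_num
    ring
  rw [hhe]
  have R3 : (2 : ℝ) ^ lev N * 2 ^ l = 2 ^ L := by exact_mod_cast h3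
  have R4 : (2 : ℝ) ^ l ≤ L := by exact_mod_cast h4
  have R7 : (N : ℝ) ≤ 2 * 2 ^ L := by exact_mod_cast h7.le
  have R2 : (lev N : ℝ) ≤ L := by exact_mod_cast h2
  have R1 : (1 : ℝ) ≤ lev N := by exact_mod_cast h1
  have K3 : (N : ℝ) ≤ 8 * kk N := by exact_mod_cast k3
  have hNpos : (0 : ℝ) < N := by
    have : 0 < N := by omega
    exact_mod_cast this
  have hLpos : (0 : ℝ) < L := by
    have : 0 < L := by omega
    exact_mod_cast this
  -- `N / (2 L) ≤ 2 ^ n`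
  have hA : (N : ℝ) ≤ 2 * L * 2 ^ lev N := by
    calc (N : ℝ) ≤ 2 * 2 ^ L := R7
      _ = 2 * (2 ^ lev N * 2 ^ l) := by rw [R3]
      _ ≤ 2 * (2 ^ lev N * L) := by
          have : (0 : ℝ) < 2 ^ lev N := by positivity
          nlinarith
      _ = 2 * L * 2 ^ lev N := by ring
  -- logs
  have hlog : (L : ℝ) * Real.log 2 ≤ Real.log N := by
    have h8 : ((2 : ℝ) ^ L) ≤ N := by exact_mod_cast h6
    have h9 := Real.log_le_log (by positivity) h8
    rwa [Real.log_pow] at h9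
  have hlog2 : (0.69 : ℝ) < Real.log 2 := by have := Real.log_two_gt_d9; linarith
  have hlogN : 0.69 * (L : ℝ) ≤ Real.log N := by nlinarith
  have hlog3 : 0.328 * (L : ℝ) ^ 3 ≤ (Real.log N) ^ 3 := by
    calc 0.328 * (L : ℝ) ^ 3 ≤ (0.69 * (L : ℝ)) ^ 3 := by
          have : (0 : ℝ) < (L : ℝ) ^ 3 := by positivity
          nlinarith
      _ ≤ (Real.log N) ^ 3 := pow_le_pow_left₀ (by positivity) hlogN 3
  have hlogpos : 0 < (Real.log N) ^ 3 := lt_of_lt_of_le (by positivity) hlog3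
  -- main comparison
  have hB : (kk N : ℝ) / (4 * ((lev N : ℝ) ^ 2 / (4 * 2 ^ (lev N)))) =
      kk N * 2 ^ lev N / (lev N : ℝ) ^ 2 := by
    field_simp
  rw [hB, div_lt_div_iff₀ (by positivity) (by positivity)]
  have hn2 : (lev N : ℝ) ^ 2 ≤ (L : ℝ) ^ 2 := pow_le_pow_left₀ (by positivity) R2 2
  have hkey : (N : ℝ) ^ 2 ≤ 16 * L * (kk N * 2 ^ lev N) := by
    calc (N : ℝ) ^ 2 = N * N := by ring
      _ ≤ (8 * kk N) * (2 * L * 2 ^ lev N) := by
          apply mul_le_mul K3 hA hNpos.le (by positivity)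
      _ = 16 * L * (kk N * 2 ^ lev N) := by ring
  have hX : (0 : ℝ) < kk N * 2 ^ lev N := by
    have : (0 : ℝ) < kk N := by
      have : 0 < kk N := by omega
      exact_mod_cast this
    positivity
  calc (N : ℝ) ^ 2 * (lev N : ℝ) ^ 2 ≤ (16 * L * (kk N * 2 ^ lev N)) * (L : ℝ) ^ 2 :=
        mul_le_mul hkey hn2 (by positivity) (by positivity)
    _ = 16 * (L : ℝ) ^ 3 * (kk N * 2 ^ lev N) := by ring
    _ < (50 * (0.328 * (L : ℝ) ^ 3)) * (kk N * 2 ^ lev N) := by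
        apply mul_lt_mul_of_pos_right _ hX
        have : (0 : ℝ) < (L : ℝ) ^ 3 := by positivity
        linarith
    _ ≤ (50 * (Real.log N) ^ 3) * (kk N * 2 ^ lev N) := by
        apply mul_le_mul_of_nonneg_right _ hX.le
        linarith
    _ = (kk N * 2 ^ lev N) * (50 * (Real.log N) ^ 3) := by ring

/-- the exponent in the probability of having no bottleneck -/
lemma expo_ge {N : ℕ} (hN : 4 ≤ N) :
    (Nat.log 2 N : ℝ) / 512 ≤ (kk N : ℝ) / (32 * 2 ^ (lev N - 1 + 1)) := by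
  obtain ⟨h1, h2, h3, h4, h5, h6, h7⟩ := lev_facts hN
  obtain ⟨k1, k2, k3⟩ := kk_facts hN
  set L := Nat.log 2 N with hL
  set l := Nat.log 2 L with hl
  have e1 : lev N - 1 + 1 = lev N := by omega
  rw [e1, le_div_iff₀ (by positivity)]
  have R3 : (2 : ℝ) ^ lev N * 2 ^ l = 2 ^ L := by exact_mod_cast h3
  have R5 : (L : ℝ) ≤ 2 * 2 ^ l := by exact_mod_cast h5.le
  have R6 : (2 : ℝ) ^ L ≤ N := by exact_mod_cast h6
  have K3 : (N : ℝ) ≤ 8 * kk N := by exact_mod_cast k3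
  have hp : (0 : ℝ) < 2 ^ lev N := by positivity
  calc (L : ℝ) / 512 * (32 * 2 ^ lev N) = L * 2 ^ lev N / 16 := by ring
    _ ≤ (2 * 2 ^ l) * 2 ^ lev N / 16 := by
        have := mul_le_mul_of_nonneg_right R5 hp.le
        linarith
    _ = 2 ^ L / 8 := by rw [← R3]; ring
    _ ≤ kk N := by linarith

lemma tendsto_log2 : Tendsto (fun N : ℕ => Nat.log 2 N) atTop atTop := by
  rw [tendsto_atTop_atTop]
  intro b
  refine ⟨2 ^ b, fun N hN => ?_⟩
  calc b = Nat.log 2 (2 ^ b) := (Nat.log_pow (by norm_num) b).symm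
    _ ≤ Nat.log 2 N := Nat.log_mono_right hN

lemma tendsto_kk : Tendsto kk atTop atTop := by
  rw [tendsto_atTop_atTop]
  intro b
  refine ⟨4 * b, fun N hN => ?_⟩
  unfold kk
  omega

/-- **Main theorem.** -/
theorem main : Tendsto (fun N : ℕ => envLaw mu N {ω | ∃ π : Config N (kk N) → ℝ,
    IsStationary ω π ∧
      mixTime ω π ≤ ENNReal.ofReal ((N : ℝ) ^ 2 / (50 * (Real.log N) ^ 3))}) atTop (𝓝 0) := by
  have hub : ∀ᶠ N : ℕ in atTop, envLaw mu N {ω | ∃ π : Config N (kk N) → ℝ,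
      IsStationary ω π ∧
      mixTime ω π ≤ ENNReal.ofReal ((N : ℝ) ^ 2 / (50 * (Real.log N) ^ 3))} ≤
      ENNReal.ofReal (Real.exp (-((Nat.log 2 N : ℝ) / 512)) +
        512 * ((kk N : ℝ) ^ 2 * (1 / 2) ^ (kk N))) := by
    filter_upwards [eventually_ge_atTop 4] with N hN
    obtain ⟨k1, k2, k3⟩ := kk_facts hN
    have h1 : envLaw mu N {ω | ∃ π : Config N (kk N) → ℝ,
      IsStationary ω π ∧
      mixTime ω π ≤ ENNReal.ofReal ((N : ℝ) ^ 2 / (50 * (Real.log N) ^ 3))} ≤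
      envLaw mu N {ω | ∃ π : Config N (kk N) → ℝ, IsStationary ω π ∧
      mixTime ω π < ENNReal.ofReal (kk N / (4 * hh (lev N - 1)))} := by
      refine measure_mono ?_
      rintro ω ⟨π, hst, hmix⟩
      refine ⟨π, hst, lt_of_le_of_lt hmix ?_⟩
      have h2 := time_lt hN
      have hpos : 0 < (kk N : ℝ) / (4 * hh (lev N - 1)) := by
        have : (0 : ℝ) < kk N := by
          have : 0 < kk N := by omega
          exact_mod_cast this
        have h3 := hh_pos (lev N - 1)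
        positivity
      exact (ENNReal.ofReal_lt_ofReal_iff hpos).mpr h2
    have hr1 : ∫⁻ x, rho x ∂mu ≤ 1 := by
      refine lintegral_mu_rho.trans ?_
      rw [← ENNReal.ofReal_one]
      exact ENNReal.ofReal_le_ofReal (by norm_num)
    have h2 := prob_bound mu mu_supp hr1 k1 k2 (hh_pos (lev N - 1))
    refine (h1.trans h2).trans ?_
    rw [ENNReal.ofReal_add (Real.exp_pos _).le (by positivity)]
    refine add_le_add ?_ ?_
    · refine (mu_Ioi_le (lev N - 1) (kk N)).trans (ENNReal.ofReal_le_ofReal ?_)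
      rw [Real.exp_le_exp]
      have := expo_ge hN
      linarith
    · calc 8 * (N : ℝ≥0∞) ^ 2 * (∫⁻ x, rho x ∂mu) ^ kk N
          ≤ 8 * (8 * (kk N : ℝ≥0∞)) ^ 2 * (ENNReal.ofReal (1 / 2)) ^ kk N := by
            gcongr
            · exact_mod_cast k3
            · exact lintegral_mu_rho
        _ = ENNReal.ofReal (512 * ((kk N : ℝ) ^ 2 * (1 / 2) ^ (kk N))) := by
            rw [ENNReal.ofReal_mul (by norm_num), ENNReal.ofReal_mul (by positivity),
              ENNReal.ofReal_pow (by norm_num), ENNReal.ofReal_pow (by positivity),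
              ENNReal.ofReal_natCast]
            have : ENNReal.ofReal 512 = 512 := by norm_num
            rw [this]
            ring
  have hlim : Tendsto (fun N : ℕ => ENNReal.ofReal (Real.exp (-((Nat.log 2 N : ℝ) / 512)) +
        512 * ((kk N : ℝ) ^ 2 * (1 / 2) ^ (kk N)))) atTop (𝓝 0) := by
    rw [← ENNReal.ofReal_zero]
    refine ENNReal.tendsto_ofReal ?_
    have h1 : Tendsto (fun N : ℕ => Real.exp (-((Nat.log 2 N : ℝ) / 512))) atTop (𝓝 0) := by
      refine Real.tendsto_exp_neg_atTop_nhds_zero.comp ?_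
      exact (tendsto_natCast_atTop_atTop.comp tendsto_log2).atTop_div_const (by norm_num)
    have h2 : Tendsto (fun N : ℕ => 512 * ((kk N : ℝ) ^ 2 * (1 / 2) ^ (kk N))) atTop
        (𝓝 (512 * 0)) :=
      ((tendsto_pow_const_mul_const_pow_of_lt_one 2 (by norm_num : (0 : ℝ) ≤ 1 / 2)
        (by norm_num)).comp tendsto_kk).const_mul 512
    have := h1.add h2
    simpa using this
  exact tendsto_of_tendsto_of_tendsto_of_le_of_le' tendsto_const_nhds hlim
    (Eventually.of_forall fun _ => bot_le) hub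

/-- comparison of time scales -/
lemma scale_le (C : ℝ) : ∀ᶠ N : ℕ in atTop,
    C * (N : ℝ) ^ (3 / 2 : ℝ) ≤ (N : ℝ) ^ 2 / (50 * (Real.log N) ^ 3) := by
  have h1 := isLittleO_log_rpow_rpow_atTop (s := 1 / 2) 3 (by norm_num)
  have hc : (0 : ℝ) < 1 / (50 * (|C| + 1)) := by positivity
  have h2 := (h1.bound hc)
  have h3 := tendsto_natCast_atTop_atTop (R := ℝ) |>.eventually h2
  filter_upwards [h3, eventually_ge_atTop 3] with N hN hN3
  have hN3' : (3 : ℝ) ≤ N := by exact_mod_cast hN3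
  have hNpos : (0 : ℝ) < N := by linarith
  have hlog : 0 < Real.log N := Real.log_pos (by linarith)
  have h4 : ‖Real.log (N : ℝ) ^ (3 : ℝ)‖ = (Real.log N) ^ 3 := by
    rw [Real.norm_of_nonneg (by positivity)]
    exact_mod_cast Real.rpow_natCast (Real.log N) 3
  rw [h4, Real.norm_of_nonneg (by positivity)] at hN
  have h5 : 50 * (|C| + 1) * (Real.log N) ^ 3 ≤ (N : ℝ) ^ (1 / 2 : ℝ) := by
    calc 50 * (|C| + 1) * (Real.log N) ^ 3
        ≤ 50 * (|C| + 1) * (1 / (50 * (|C| + 1)) * (N : ℝ) ^ (1 / 2 : ℝ)) :=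
          mul_le_mul_of_nonneg_left hN (by positivity)
      _ = (N : ℝ) ^ (1 / 2 : ℝ) := by field_simp
  rw [le_div_iff₀ (by positivity)]
  have h6 : (N : ℝ) ^ (3 / 2 : ℝ) * (N : ℝ) ^ (1 / 2 : ℝ) = (N : ℝ) ^ 2 := by
    rw [← Real.rpow_add hNpos]
    norm_num
  have h7 : (0 : ℝ) < (N : ℝ) ^ (3 / 2 : ℝ) := by positivity
  calc C * (N : ℝ) ^ (3 / 2 : ℝ) * (50 * (Real.log N) ^ 3)
      ≤ (|C| + 1) * (N : ℝ) ^ (3 / 2 : ℝ) * (50 * (Real.log N) ^ 3) := by
        have : C ≤ |C| + 1 := by linarith [le_abs_self C]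
        gcongr
    _ = (N : ℝ) ^ (3 / 2 : ℝ) * (50 * (|C| + 1) * (Real.log N) ^ 3) := by ring
    _ ≤ (N : ℝ) ^ (3 / 2 : ℝ) * (N : ℝ) ^ (1 / 2 : ℝ) := mul_le_mul_of_nonneg_left h5 h7.le
    _ = (N : ℝ) ^ 2 := h6

/-- **The question Q1**: for every ballistic law of the environment on `[0, 1]` and all particle
numbers, the mixing time is at most `C N^(3/2)` with probability tending to one. -/
def Q1 : Prop :=
  ∀ μ : Measure ℝ, IsProbabilityMeasure μ → μ (Set.Icc 0 1)ᶜ = 0 → ∫⁻ x, rho x ∂μ < 1 →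
    ∀ k : ℕ → ℕ, (∀ N, 2 ≤ N → 1 ≤ k N ∧ k N ≤ N - 1) →
      ∃ C : ℝ, Tendsto (fun N : ℕ => envLaw μ N {ω | ∃ π : Config N (k N) → ℝ,
        IsStationary ω π ∧ mixTime ω π ≤ ENNReal.ofReal (C * (N : ℝ) ^ (3 / 2 : ℝ))}) atTop (𝓝 1)

theorem not_Q1 : ¬ Q1 := by
  intro hQ
  have hsupp : mu (Set.Icc 0 1)ᶜ = 0 :=
    measure_mono_null (Set.compl_subset_compl.mpr Set.Ioo_subset_Icc_self) mu_supp
  have hball : ∫⁻ x, rho x ∂mu < 1 := by
    refine lintegral_mu_rho.trans_lt ?_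
    rw [← ENNReal.ofReal_one, ENNReal.ofReal_lt_ofReal_iff (by norm_num)]
    norm_num
  obtain ⟨C, hC⟩ := hQ mu inferInstance hsupp hball kk (by
    intro N hN
    unfold kk
    omega)
  have h0 : Tendsto (fun N : ℕ => envLaw mu N {ω | ∃ π : Config N (kk N) → ℝ,
      IsStationary ω π ∧ mixTime ω π ≤ ENNReal.ofReal (C * (N : ℝ) ^ (3 / 2 : ℝ))}) atTop (𝓝 0) := by
    refine tendsto_of_tendsto_of_tendsto_of_le_of_le' tendsto_const_nhds main
      (Eventually.of_forall fun _ => bot_le) ?_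
    filter_upwards [scale_le C] with N hN
    refine measure_mono ?_
    rintro ω ⟨π, hst, hmix⟩
    exact ⟨π, hst, hmix.trans (ENNReal.ofReal_le_ofReal hN)⟩
  exact zero_ne_one (tendsto_nhds_unique h0 hC)

end Q294.ExclRE
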