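import Pool.Agent.Q294.Sl4

set_option autoImplicit false

/-! Numbers, and the translation to lists of vertices. -/

namespace Q294.Sl

open H978R2.Hex
open Pool.Agent.W818.TD
open Pool.Agent.Y981.GP (bb bb_le_one bb_zero_ge uu tt S_ONE S_REN)
open Pool.Agent.H976R3.HPL (CW hexA mem_CW cc)
open Pool.Agent.W832.HR (Traj HP Nbr nbr_iff xc xc_ne_zero xc_ne_top xc_eq Br Br_nonneg)
open Filter Topology
open scoped ENNReal

/-! ### the gap -/

theorem GG_le {k T N : ℕ} (hN : 2 * N ≤ T) (hk : k ≤ N) :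
    (GG k T).toReal ≤ uu k * tt (N - k) := by
  have hren : S_REN := Pool.Agent.Y988.GP.ren Pool.Agent.Y67.GP.one
  unfold uu tt
  rw [← ENNReal.toReal_mul]
  have hU : U (2 * (k : ℤ)) ≠ ⊤ := U_ne_top _
  have hM : M {β | Fst 0 β ∧ 2 * (((N - k : ℕ) : ℤ)) < hl β} ≠ ⊤ :=
    ne_top_of_le_ne_top ENNReal.one_ne_top ((M_mono fun β hβ => hβ.1).trans
      (Pool.Agent.Y67.GP.one 0 le_rfl))
  refine ENNReal.toReal_mono (ENNReal.mul_ne_top hU hM) ?_
  unfold GG U
  apply M_le_mul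
  · intro β hβ
    exact hβ.1.ne
  · intro β hβ
    exact hβ.1.1.ne
  · rintro ζ ⟨h1, h2⟩
    obtain ⟨b1, η, a1, a2, a3, a4⟩ := Pool.Agent.Y988.GP.fst_split (by positivity) h1
    refine ⟨b1, ⟨a1, a2⟩, η, ⟨a3, ?_⟩, a4⟩
    have h3 := hl_cat (β := b1) a3.1
    rw [← a4] at h3
    have h4 : ((N - k : ℕ) : ℤ) = (N : ℤ) - k := by
      push_cast [Nat.cast_sub hk]
      rfl
    rw [h4]
    have h5 : (2 * (N : ℤ)) ≤ T := by exact_mod_cast hN
    omega

theorem uu_le {k : ℕ} (hk : 1 ≤ k) : uu k ≤ 9 * (k : ℝ) ^ ((177 : ℝ) / 200) := by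
  unfold uu
  have hk1 : (1 : ℝ) ≤ (k : ℝ) ^ ((177 : ℝ) / 200) :=
    Real.one_le_rpow (by exact_mod_cast hk) (by norm_num)
  refine ENNReal.toReal_le_of_le_ofReal (by positivity) ?_
  refine (Pool.Agent.Y981.GP.U_le_sum k).trans ?_
  have h1 : ∑ j ∈ Finset.Icc 1 k, bb j ≤
      ENNReal.ofReal (1300 / 177 * (k : ℝ) ^ ((177 : ℝ) / 200)) := by
    have e : Finset.Icc 1 k = (Finset.range k).image (fun j => j + 1) := by
      ext j
      simp only [Finset.mem_Icc, Finset.mem_image, Finset.mem_range]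
      constructor
      · rintro ⟨h1, h2⟩
        exact ⟨j - 1, by omega, by omega⟩
      · rintro ⟨i, h1, rfl⟩
        omega
    rw [e, Finset.sum_image (by intro a _ b _ h; simpa using h)]
    have h2 : ∀ j ∈ Finset.range k, bb (j + 1) ≤
        ENNReal.ofReal (13 / 2 * ((j : ℝ) + 1) ^ ((177 : ℝ) / 200 - 1)) := by
      intro j _
      have := Pool.Agent.TH232.WX.M_bridge (((j + 1 : ℕ) : ℤ)) (by push_cast; omega)
      refine this.trans (le_of_eq ?_)
      push_cast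
      norm_num
    refine (Finset.sum_le_sum h2).trans ?_
    rw [← ENNReal.ofReal_sum_of_nonneg (fun n _ => by positivity)]
    apply ENNReal.ofReal_le_ofReal
    rw [← Finset.mul_sum]
    have h3 := Pool.Agent.TH232.WX.Cut.sum_rpow (177 / 200) (by norm_num) (by norm_num) k
    calc 13 / 2 * ∑ i ∈ Finset.range k, ((i : ℝ) + 1) ^ ((177 : ℝ) / 200 - 1)
        ≤ 13 / 2 * ((k : ℝ) ^ ((177 : ℝ) / 200) / (177 / 200)) := by gcongr
      _ = _ := by ring
  refine (add_le_add le_rfl h1).trans ?_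
  rw [← ENNReal.ofReal_one, ← ENNReal.ofReal_add (by norm_num) (by positivity)]
  apply ENNReal.ofReal_le_ofReal
  linarith

theorem harm (N : ℕ) : 1 + 1 / 4 * Real.log (N + 1) ≤
    1 + ∑ j ∈ Finset.range N, 1 / (4 * ((j : ℝ) + 1)) := by
  induction N with
  | zero => simp
  | succ N ih =>
    rw [Finset.sum_range_succ]
    have h1 : (0 : ℝ) < (N : ℝ) + 1 := by positivity
    have h2 := Real.log_le_sub_one_of_pos (x := ((N : ℝ) + 1 + 1) / (N + 1)) (by positivity)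
    rw [Real.log_div (by positivity) (by positivity)] at h2
    have h3 : ((N : ℝ) + 1 + 1) / (N + 1) - 1 = 1 / (N + 1) := by field_simp; ring
    have h4 : 1 / (4 * ((N : ℝ) + 1)) = 1 / 4 * (1 / (N + 1)) := by field_simp
    push_cast
    rw [h4]
    linarith

theorem uu_ge (N : ℕ) : 1 + 1 / 4 * Real.log (N + 1) ≤ uu N := by
  refine (harm N).trans ?_
  unfold uu
  have h1 := Pool.Agent.Y981.GP.sum_le_U N
  rw [Finset.sum_range_succ'] at h1
  have h2 : ENNReal.ofReal (1 + ∑ j ∈ Finset.range N, 1 / (4 * ((j : ℝ) + 1))) ≤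
      U (2 * (N : ℤ)) := by
    refine le_trans ?_ h1
    rw [ENNReal.ofReal_add (by norm_num) (by positivity), ENNReal.ofReal_one, add_comm]
    refine add_le_add ?_ bb_zero_ge
    rw [ENNReal.ofReal_sum_of_nonneg (fun n _ => by positivity)]
    refine Finset.sum_le_sum fun j _ => ?_
    rw [bb_eq (by omega)]
    apply ENNReal.ofReal_le_ofReal
    have := Pool.Agent.W832.HR.Br_ge (T := j + 1) (by omega)
    push_cast at this
    exact this
  exact (ENNReal.ofReal_le_iff_le_toReal (U_ne_top _)).1 h2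

/-- **the size of the gap probability** -/
theorem GG_num {k T : ℕ} (hk : 1 ≤ k) (hT : 4 * k ≤ T) :
    4 * (GG k T).toReal ≤ 144 * (k : ℝ) ^ ((177 : ℝ) / 200) / Real.log T := by
  have hren : S_REN := Pool.Agent.Y988.GP.ren Pool.Agent.Y67.GP.one
  obtain ⟨r1, r2, r3, r4, r5, r6, r7⟩ := hren
  obtain ⟨N, hN⟩ : ∃ N, N = T / 2 := ⟨_, rfl⟩
  have h1 := GG_le (k := k) (T := T) (N := N) (by omega) (by omega)
  have h2 := uu_le hk
  have h3 := uu_ge (N - k)
  have h4 := r6 (N - k)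
  have hT0 : (4 : ℝ) ≤ T := by exact_mod_cast (by omega : 4 ≤ T)
  have hlog : 0 < Real.log T := Real.log_pos (by linarith)
  have h5 : Real.log T / 4 ≤ uu (N - k) := by
    refine le_trans ?_ h3
    have h6 : (T : ℝ) / 4 ≤ ((N - k : ℕ) : ℝ) + 1 := by
      have : T ≤ 4 * ((N - k) + 1) := by omega
      have : (T : ℝ) ≤ 4 * (((N - k : ℕ) : ℝ) + 1) := by exact_mod_cast this
      linarith
    have h7 : Real.log ((T : ℝ) / 4) ≤ Real.log (((N - k : ℕ) : ℝ) + 1) :=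
      Real.log_le_log (by positivity) h6
    rw [Real.log_div (by positivity) (by norm_num)] at h7
    have h8 : Real.log 4 ≤ 4 - 1 := Real.log_le_sub_one_of_pos (by norm_num)
    linarith
  have h9 : tt (N - k) ≤ 4 / Real.log T := by
    have h10 := r3 (N - k)
    rw [le_div_iff₀ hlog]
    have h11 : Real.log T / 4 * tt (N - k) ≤ uu (N - k) * tt (N - k) :=
      mul_le_mul_of_nonneg_right h5 h10
    linarith
  have h12 : 0 ≤ (k : ℝ) ^ ((177 : ℝ) / 200) := by positivity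
  have h13 : (GG k T).toReal ≤ 9 * (k : ℝ) ^ ((177 : ℝ) / 200) * (4 / Real.log T) :=
    h1.trans (mul_le_mul h2 h9 (r3 _) (by positivity))
  calc 4 * (GG k T).toReal ≤ 4 * (9 * (k : ℝ) ^ ((177 : ℝ) / 200) * (4 / Real.log T)) := by linarith
    _ = _ := by ring

/-! ### lists of vertices -/

/-- the walks which cross the strip with `2 T` levels -/
def Cross (T : ℕ) : Set (List (ℤ × ℤ)) :=
  {l | ∃ x : ℤ, l ∈ Traj (Pool.Agent.W832.HR.Strip T) (1, 0) (2 * T + x, x)}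

/-- critical mass -/
noncomputable def mass (S : Set (List (ℤ × ℤ))) : ℝ≥0∞ := ∑' l : S, xc ^ (l.1.length - 1)

theorem cross_of {T : ℕ} (hT : 1 ≤ T) {ζ : List V} (h : EBr ζ) (hh : hl ζ = 2 * (T : ℤ)) :
    ζ.tail ∈ Cross T := by
  obtain ⟨t, rfl⟩ := two_cons h (by omega)
  have hla : la ((1, 0) :: t) = la ((0, 0) :: (1, 0) :: t) := (la_cons (by simp)).symm
  refine ⟨(la ((0, 0) :: (1, 0) :: t)).2, rfl, ?_, h.nd.tail, ?_, ?_⟩
  · rw [List.tail_cons, List.getLast?_eq_getLast_of_ne_nil (by simp), ← la_eq, hla]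
    congr 1
    unfold hl at hh
    apply Prod.ext
    · simp only; omega
    · rfl
  · exact h.ch.tail.imp fun {a b} hab => nbr_iff.2 hab
  · intro v hv
    refine ⟨h.pos v hv, ?_⟩
    have := h.top v (List.mem_of_mem_tail hv)
    omega

theorem transfer' {T : ℕ} (hT : 1 ≤ T) (P : List (ℤ × ℤ) → Prop) :
    xc * mass {l | l ∈ Cross T ∧ P l} = M {ζ | (EBr ζ ∧ hl ζ = 2 * (T : ℤ)) ∧ P ζ.tail} := by
  unfold mass M
  rw [← ENNReal.tsum_mul_left]
  have hspec : ∀ l ∈ Cross T, EBr ((0, 0) :: l) ∧ hl ((0, 0) :: l) = 2 * T := by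
    rintro l ⟨x, hx⟩
    exact Q294.Bd.br_of hx
  let e : {l | l ∈ Cross T ∧ P l} ≃ {ζ | (EBr ζ ∧ hl ζ = 2 * (T : ℤ)) ∧ P ζ.tail} :=
    { toFun := fun l => ⟨(0, 0) :: l.1, hspec _ l.2.1, l.2.2⟩
      invFun := fun ζ => ⟨ζ.1.tail, cross_of hT ζ.2.1.1 ζ.2.1.2, ζ.2.2⟩
      left_inv := fun l => rfl
      right_inv := by
        rintro ⟨ζ, ⟨h1, h2⟩, h3⟩
        obtain ⟨t, rfl⟩ := h1.cons
        rfl }
  rw [← Equiv.tsum_eq e]
  refine tsum_congr fun l => ?_
  obtain ⟨⟨x, hx⟩, -⟩ := l.2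
  exact (Q294.Bd.Wt_cons (0, 0) (Q294.Bd.traj_ne hx)).symm

theorem mass_cross {T : ℕ} (hT : 1 ≤ T) : xc * mass (Cross T) = bb T := by
  have h := transfer' hT (fun _ => True)
  have e1 : {l | l ∈ Cross T ∧ True} = Cross T := by
    ext l
    simp
  have e2 : {ζ | (EBr ζ ∧ hl ζ = 2 * (T : ℤ)) ∧ True} = {ζ | EBr ζ ∧ hl ζ = 2 * (T : ℤ)} := by
    ext ζ
    simp
  rw [e1, e2] at h
  exact h

/-- the joint law of the two ends -/
noncomputable def qq (T : ℕ) (η η' : List (ℤ × ℤ)) : ℝ :=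
  (mass {l | l ∈ Cross T ∧ (η <+: l ∧ η' <+: turn l)} / mass (Cross T)).toReal

theorem qq_eq {T : ℕ} (hT : 1 ≤ T) (η η' : List V) : qq T η η' = Q T η η' := by
  unfold qq Q
  congr 1
  have h1 := transfer' hT (fun l => η <+: l ∧ η' <+: turn l)
  have h2 := mass_cross hT
  have h3 : M (N2 T η η') = xc * mass {l | l ∈ Cross T ∧ (η <+: l ∧ η' <+: turn l)} := by
    rw [h1]
    rfl
  rw [h3, ← h2, ENNReal.mul_div_mul_left _ _ xc_ne_zero xc_ne_top]

/-- the half-plane walks with `n` steps -/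
def Walks (n : ℕ) : Set (List (ℤ × ℤ)) :=
  {l | l.length = n + 1 ∧ l.head? = some (1, 0) ∧ l.Nodup ∧ l.IsChain Nbr ∧ ∀ v ∈ l, v ∈ HP}

theorem walks_eq (n : ℕ) : Walks n = (CW hexA n (vv 1) : Set (List V)) := by
  ext l
  rw [Finset.mem_coe, mem_CW, vv1]
  constructor
  · rintro ⟨h1, h2, h3, h4, h5⟩
    refine ⟨h1, h2, h4.imp fun {a b} hab => nbr_iff.1 hab, h3, fun v hv => ?_⟩
    have h6 : 1 ≤ v.1 - v.2 := h5 v hv
    rw [hA, hA]
    simpa using h6
  · rintro ⟨h1, h2, h3, h4, h5⟩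
    refine ⟨h1, h2, h4, h3.imp fun {a b} hab => nbr_iff.2 hab, fun v hv => ?_⟩
    have h6 := h5 v hv
    rw [hA, hA] at h6
    show 1 ≤ v.1 - v.2
    simpa using h6

theorem p_lim' (η : List (ℤ × ℤ)) : Tendsto (fun n => ({l | l ∈ Walks n ∧ η <+: l}.ncard : ℝ) /
    ((Walks n).ncard : ℝ)) atTop (𝓝 (p η)) := by
  classical
  refine (p_lim η).congr fun n => ?_
  have h1 : (Walks n).ncard = (CW hexA n (vv 1)).card := by
    rw [walks_eq, Set.ncard_coe_finset]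
  have h2 : {l | l ∈ Walks n ∧ η <+: l}.ncard = cc hexA (vv 1) n η := by
    unfold cc
    rw [← Set.ncard_coe_finset]
    congr 1
    ext l
    rw [Finset.mem_coe, Finset.mem_filter, Set.mem_ofPred_eq, walks_eq, Finset.mem_coe]
  rw [h1, h2]

theorem fin_walks (k : ℕ) : (Walks k).Finite := by
  rw [walks_eq]
  exact Finset.finite_toSet _

theorem finsum_walks (k : ℕ) (f : List (ℤ × ℤ) → ℝ) :
    ∑ᶠ η ∈ Walks k, f η = ∑ η ∈ CW hexA k (vv 1), f η := by
  rw [walks_eq, finsum_mem_coe_finset]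

/-- **the local limit at both ends** -/
theorem main {k T : ℕ} (hk : 1 ≤ k) (hT : 4 * k ≤ T) :
    ∑ᶠ η ∈ Walks k, ∑ᶠ η' ∈ Walks k, |qq T η η' - p η * p η'| ≤
      144 * (k : ℝ) ^ ((177 : ℝ) / 200) / Real.log T := by
  rw [finsum_walks]
  simp only [finsum_walks, qq_eq (show 1 ≤ T by omega)]
  exact (l1_le k T).trans (GG_num hk hT)

theorem main_p (k : ℕ) : ∑ᶠ η ∈ Walks k, p η = 1 := by
  rw [finsum_walks]
  exact p_sum k

/-- all crossing walks have pieces with `k` steps at both ends -/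
theorem main_cover {k T : ℕ} (hk : k ≤ T) {l : List (ℤ × ℤ)} (hl : l ∈ Cross T) :
    (∃ η ∈ Walks k, η <+: l) ∧ ∃ η' ∈ Walks k, η' <+: turn l := by
  obtain ⟨x, hx⟩ := hl
  have hT : 1 ≤ T := by
    have hne := Q294.Bd.traj_ne hx
    obtain ⟨a, t, ht⟩ := List.exists_cons_of_ne_nil hne
    have := hx.2.2.2.2 a (by rw [ht]; simp)
    have h1 := this.1
    have h2 := this.2
    omega
  obtain ⟨h1, h2⟩ := Q294.Bd.br_of hx
  have h3 := Rv_EBr h1 (by omega)
  have h4 := hl_Rv h1 (by omega)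
  obtain ⟨η, a1, a2⟩ := long_prefix h1 (k := k) (by omega) (by omega) (by omega)
  obtain ⟨η', b1, b2⟩ := long_prefix h3 (k := k) (by omega) (by omega) (by omega)
  rw [walks_eq]
  exact ⟨⟨η, a1, a2⟩, ⟨η', b1, b2⟩⟩

/-- **the masses** -/
theorem main_mass {T : ℕ} (hT : 1 ≤ T) :
    0 < mass (Cross (T + 1)) ∧ mass (Cross (T + 1)) ≤ mass (Cross T) ∧ mass (Cross T) < ⊤ ∧
      mass (Cross T) ≤
        ENNReal.ofReal (1 + 5 * (T : ℝ) ^ (-(23 / 200) : ℝ)) * mass (Cross (T + 1)) := by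
  have h1 := mass_cross hT
  have h2 := mass_cross (T := T + 1) (by omega)
  refine ⟨?_, ?_, ?_, ?_⟩
  · rw [pos_iff_ne_zero]
    intro h
    rw [h, mul_zero] at h2
    exact bb_pos (T + 1) h2.symm
  · rw [← ENNReal.mul_le_mul_iff_right xc_ne_zero xc_ne_top, h1, h2]
    exact bb_anti (by omega)
  · rw [lt_top_iff_ne_top]
    intro h
    rw [h, ENNReal.mul_top xc_ne_zero] at h1
    exact bb_ne_top T h1.symm
  · rw [← ENNReal.mul_le_mul_iff_right xc_ne_zero xc_ne_top, h1]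
    have e : xc * (ENNReal.ofReal (1 + 5 * (T : ℝ) ^ (-(23 / 200) : ℝ)) * mass (Cross (T + 1))) =
        ENNReal.ofReal (1 + 5 * (T : ℝ) ^ (-(23 / 200) : ℝ)) * (xc * mass (Cross (T + 1))) := by
      ring
    rw [e, h2, bb_eq hT, bb_eq (by omega), ← ENNReal.ofReal_mul (by positivity)]
    apply ENNReal.ofReal_le_ofReal
    have h3 := Pool.Agent.W832.HR.br_step hT
    have h4 : 0 ≤ Br (T + 1) := Br_nonneg _
    have h5 : Br (T + 1) ≤ 13 / 2 * (T : ℝ) ^ (-(23 / 200) : ℝ) := by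
      have h6 := Pool.Agent.TH232.WX.M_bridge (((T + 1 : ℕ) : ℤ)) (by push_cast; omega)
      have h7 : ENNReal.ofReal (Br (T + 1)) ≤
          ENNReal.ofReal (13 / 2 * (((T + 1 : ℕ) : ℤ) : ℝ) ^ (-(23 / 200) : ℝ)) := by
        rw [← bb_eq (by omega)]
        exact h6
      rw [ENNReal.ofReal_le_ofReal_iff (by positivity)] at h7
      refine h7.trans ?_
      have hT0 : (0 : ℝ) < T := by exact_mod_cast hT
      have h8 : (((T + 1 : ℕ) : ℤ) : ℝ) ^ (-(23 / 200) : ℝ) ≤ (T : ℝ) ^ (-(23 / 200) : ℝ) := by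
        apply Real.rpow_le_rpow_of_nonpos hT0 _ (by norm_num)
        push_cast
        linarith
      linarith
    have h9 : Br (T + 1) * Br (T + 1) ≤ 13 / 2 * (T : ℝ) ^ (-(23 / 200) : ℝ) * Br (T + 1) :=
      mul_le_mul_of_nonneg_right h5 h4
    have h10 : 0 ≤ (T : ℝ) ^ (-(23 / 200) : ℝ) * Br (T + 1) := by positivity
    linarith

end Q294.Sl
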