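import Pool.Agent.Q294.Sl5

set_option autoImplicit false

/-! Arcs which reach the top of the strip, and pairs of crossing walks which avoid each other. -/

namespace Q294.Ni

open H978R2.Hex
open Pool.Agent.W818.TD
open Pool.Agent.W832.HR (Traj HP Nbr nbr_iff xc xc_ne_zero xc_ne_top xc_eq Br Br_nonneg)
open Q294.Sl (Cross mass)
open scoped ENNReal

/-- the crossing walks which do not return to the first level -/
def Up (T : ℕ) : Set (List (ℤ × ℤ)) := {l | l ∈ Cross T ∧ ∀ v ∈ l.tail, 2 ≤ v.1 - v.2}

/-- pairs of crossing walks which have only their first vertex in common -/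
def Apart (T : ℕ) : Set (List (ℤ × ℤ) × List (ℤ × ℤ)) :=
  {p | p.1 ∈ Cross T ∧ p.2 ∈ Up T ∧ ∀ v ∈ p.1.tail, v ∉ p.2}

/-- mass of pairs -/
noncomputable def mass2 (S : Set (List (ℤ × ℤ) × List (ℤ × ℤ))) : ℝ≥0∞ :=
  ∑' p : S, xc ^ (p.1.1.length - 1) * xc ^ (p.1.2.length - 1)

/-- arcs which reach the top level -/
def TopArcs (T : ℕ) : Set (List V) :=
  {l | (∃ j : ℤ, l ∈ Traj (Pool.Agent.W832.HR.Strip T) (1, 0) (1 + j, j)) ∧
    ∃ v ∈ l, v.1 - v.2 = 2 * (T : ℤ)}

/-- reflection -/
def rho (v x : V) : V := v + (1, 0) - x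

theorem rho_rho (v x : V) : rho v (rho v x) = x := by
  unfold rho
  abel

theorem rho_inj (v : V) : Function.Injective (rho v) := by
  intro x y h
  rw [← rho_rho v x, h, rho_rho]

theorem rho_lev (v x : V) : (rho v x).1 - (rho v x).2 = (v.1 - v.2) + 1 - (x.1 - x.2) := by
  unfold rho
  simp only [Prod.fst_sub, Prod.snd_sub, Prod.fst_add, Prod.snd_add]
  ring

theorem rho_v (v : V) : rho v v = (1, 0) := by
  unfold rho
  abel

theorem rho_one (v : V) : rho v (1, 0) = v := by
  unfold rho
  abel

theorem rho_nbr {v x y : V} (hv : (v.1 - v.2) % 2 = 0) (h : Nbr x y) : Nbr (rho v x) (rho v y) := by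
  rw [nbr_iff] at h ⊢
  unfold rho
  have h' : Adj y x := by
    rw [adj_iff] at h ⊢
    omega
  exact adj_rf (by simp only [Prod.fst_add, Prod.snd_add]; omega) h'

theorem nbr_symm {x y : V} (h : Nbr x y) : Nbr y x := by
  rw [nbr_iff, adj_iff] at h ⊢
  omega

/-- the pasting map -/
def paste (p : List V × List V) : List V :=
  (p.1.map (rho (la p.1))).reverse ++ p.2.tail.map (rho (la p.1))

/-- the last vertex with a property -/
theorem last_split {P : V → Prop} : ∀ {l : List V}, (∃ v ∈ l, P v) →
    ∃ l1 v l2, l = l1 ++ v :: l2 ∧ P v ∧ ∀ x ∈ l2, ¬ P x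
  | [], h => by
    obtain ⟨v, hv, -⟩ := h
    simp at hv
  | a :: t, h => by
    by_cases h1 : ∃ v ∈ t, P v
    · obtain ⟨l1, v, l2, e, h2, h3⟩ := last_split h1
      exact ⟨a :: l1, v, l2, by rw [e]; rfl, h2, h3⟩
    · push Not at h1
      obtain ⟨v, hv, hPv⟩ := h
      rcases List.mem_cons.1 hv with rfl | hv
      · exact ⟨[], v, t, rfl, hPv, h1⟩
      · exact absurd hPv (h1 v hv)

theorem split_unique {P : V → Prop} {l1 l2 l1' l2' : List V} {v v' : V}
    (h : l1 ++ v :: l2 = l1' ++ v' :: l2') (hv : P v) (hv' : P v') (h2 : ∀ x ∈ l2, ¬ P x)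
    (h2' : ∀ x ∈ l2', ¬ P x) : l1 = l1' ∧ v = v' ∧ l2 = l2' := by
  rcases List.append_eq_append_iff.1 h with ⟨a, ha, hb⟩ | ⟨a, ha, hb⟩
  · match a, ha, hb with
    | [], ha, hb =>
      rw [List.nil_append, List.cons.injEq] at hb
      rw [List.append_nil] at ha
      exact ⟨ha.symm, hb.1, hb.2⟩
    | x :: a, ha, hb =>
      rw [List.cons_append, List.cons.injEq] at hb
      exact absurd hv' (h2 v' (by rw [hb.2]; simp))
  · match a, ha, hb with
    | [], ha, hb =>
      rw [List.nil_append, List.cons.injEq] at hb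
      rw [List.append_nil] at ha
      exact ⟨ha, hb.1.symm, hb.2.symm⟩
    | x :: a, ha, hb =>
      rw [List.cons_append, List.cons.injEq] at hb
      exact absurd hv (h2' v (by rw [hb.2]; simp))

theorem la_last {l : List V} {b : V} (h : l.getLast? = some b) : la l = b := by
  unfold la
  rw [List.getLastD_eq_getLast?, h]
  rfl

theorem head_cons {l : List V} {a : V} (h : l.head? = some a) : l = a :: l.tail := by
  match l, h with
  | b :: t, h =>
    simp only [List.head?_cons, Option.some.injEq] at h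
    rw [h, List.tail_cons]

theorem last_append {l : List V} {b : V} (h : l.getLast? = some b) : l = l.dropLast ++ [b] := by
  have hne : l ≠ [] := by
    rintro rfl
    simp at h
  rw [List.getLast?_eq_getLast_of_ne_nil hne, Option.some.injEq] at h
  rw [← h, List.dropLast_append_getLast]

/-- shape of the pasted list -/
theorem paste_shape {T : ℕ} {p : List V × List V} (hp : p ∈ Apart T) :
    paste p = ((p.1.tail.map (rho (la p.1))).reverse) ++ la p.1 :: (p.2.tail.map (rho (la p.1))) ∧
    (la p.1).1 - (la p.1).2 = 2 * T ∧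
    (∀ x ∈ p.2.tail.map (rho (la p.1)), ¬ (x.1 - x.2 = 2 * (T : ℤ))) := by
  obtain ⟨⟨x, hx⟩, ⟨⟨y, hy⟩, hup⟩, hd⟩ := hp
  have hla := la_last hx.2.1
  have h1 := head_cons hx.1
  refine ⟨?_, ?_, ?_⟩
  · have e : ∀ v : V, p.1.map (rho v) = v :: p.1.tail.map (rho v) := by
      intro v
      conv_lhs => rw [h1, List.map_cons, rho_one]
    unfold paste
    rw [e, List.reverse_cons, List.append_assoc]
    rfl
  · rw [hla]
    simp only
    ring
  · intro z hz
    obtain ⟨w, hw, rfl⟩ := List.mem_map.1 hz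
    rw [rho_lev, hla]
    have := hup w hw
    simp only
    omega

theorem paste_inj {T : ℕ} {p q : List V × List V} (hp : p ∈ Apart T) (hq : q ∈ Apart T)
    (h : paste p = paste q) : p = q := by
  obtain ⟨a1, a2, a3⟩ := paste_shape hp
  obtain ⟨b1, b2, b3⟩ := paste_shape hq
  rw [a1, b1] at h
  obtain ⟨c1, c2, c3⟩ := split_unique (P := fun x : V => x.1 - x.2 = 2 * (T : ℤ)) h a2 b2 a3 b3
  rw [← c2] at c1 c3
  have d1 := List.map_injective_iff.2 (rho_inj _) (List.reverse_injective c1)
  have d2 := List.map_injective_iff.2 (rho_inj _) c3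
  obtain ⟨⟨x, hx⟩, ⟨⟨y, hy⟩, -⟩, -⟩ := hp
  obtain ⟨⟨x', hx'⟩, ⟨⟨y', hy'⟩, -⟩, -⟩ := hq
  apply Prod.ext
  · rw [head_cons hx.1, head_cons hx'.1, d1]
  · rw [head_cons hy.1, head_cons hy'.1, d2]

theorem paste_mem {T : ℕ} {p : List V × List V} (hp : p ∈ Apart T) :
    paste p ∈ TopArcs T := by
  obtain ⟨s1, s2, s3⟩ := paste_shape hp
  obtain ⟨⟨x, hx⟩, ⟨⟨y, hy⟩, hup⟩, hd⟩ := hp
  have hla := la_last hx.2.1
  obtain ⟨v, hv⟩ : ∃ v, v = la p.1 := ⟨_, rfl⟩
  rw [← hv] at s1 s2 s3 hla
  have hev : (v.1 - v.2) % 2 = 0 := by omega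
  have e1 := head_cons hx.1
  have e2 := head_cons hy.1
  have e3 := last_append hx.2.1
  have e4 := last_append hy.2.1
  have ht2 : p.2.tail ≠ [] := by
    intro h
    rw [h] at e2
    have := hy.2.1
    rw [e2] at this
    simp only [List.getLast?_singleton, Option.some.injEq, Prod.mk.injEq] at this
    omega
  have hpa : paste p = (p.1.map (rho v)).reverse ++ p.2.tail.map (rho v) := by
    unfold paste
    rw [hv]
  refine ⟨⟨v.2 - y, ?_, ?_, ?_, ?_, ?_⟩, v, ?_, s2⟩
  · rw [hpa, e3, hla]
    simp only [List.map_append, List.map_cons, List.map_nil, List.reverse_append, List.reverse_cons,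
      List.reverse_nil, List.nil_append, List.cons_append, List.head?_cons, rho_v]
  · rw [hpa, List.getLast?_append_of_ne_nil _ (fun h => ht2 (List.map_eq_nil_iff.1 h)),
      List.getLast?_map]
    have : p.2.tail.getLast? = some (2 * (T : ℤ) + y, y) := by
      have h := hy.2.1
      rw [e2, List.getLast?_cons_of_ne_nil ht2] at h
      exact h
    rw [this]
    simp only [Option.map_some, Option.some.injEq]
    unfold rho
    apply Prod.ext
    · simp only [Prod.fst_sub, Prod.fst_add]; omega
    · simp only [Prod.snd_sub, Prod.snd_add]; omega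
  · rw [hpa, List.nodup_append]
    refine ⟨List.nodup_reverse.2 (hx.2.2.1.map (rho_inj v)), ?_, ?_⟩
    · exact (hy.2.2.1.tail).map (rho_inj v)
    · intro a ha b hb hab
      rw [List.mem_reverse, List.mem_map] at ha
      rw [List.mem_map] at hb
      obtain ⟨a', ha', rfl⟩ := ha
      obtain ⟨b', hb', rfl⟩ := hb
      have := rho_inj v hab
      subst this
      rw [e1, List.mem_cons] at ha'
      rcases ha' with rfl | ha'
      · have h := hy.2.2.1
        rw [e2, List.nodup_cons] at h
        exact h.1 hb'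
      · exact hd _ ha' (List.mem_of_mem_tail hb')
  · rw [s1, List.isChain_append]
    refine ⟨?_, ?_, ?_⟩
    · rw [List.isChain_reverse, List.isChain_map]
      have h := hx.2.2.2.1
      rw [e1] at h
      exact (h.tail).imp fun {a b} hab => nbr_symm (rho_nbr hev hab)
    · have e : v :: p.2.tail.map (rho v) = p.2.map (rho v) := by
        conv_rhs => rw [e2, List.map_cons, rho_one]
      rw [e, List.isChain_map]
      exact hy.2.2.2.1.imp fun {a b} hab => rho_nbr hev hab
    · intro a ha b hb
      simp only [List.head?_cons, Option.mem_def, Option.some.injEq] at hb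
      rw [List.getLast?_reverse, List.head?_map, Option.mem_def] at ha
      subst hb
      match hpt : p.1.tail, ha with
      | [], ha => simp at ha
      | c :: t, ha =>
        simp only [List.head?_cons, Option.map_some, Option.some.injEq] at ha
        rw [← ha]
        have h := hx.2.2.2.1
        rw [e1, hpt, List.isChain_cons_cons] at h
        have h2 := rho_nbr hev (nbr_symm h.1)
        rw [rho_one] at h2
        exact h2
  · intro q hq
    rw [hpa, List.mem_append, List.mem_reverse, List.mem_map, List.mem_map] at hq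
    rcases hq with ⟨a, ha, rfl⟩ | ⟨a, ha, rfl⟩
    · have h1 := hx.2.2.2.2 a ha
      have h2 := h1.1
      have h3 := h1.2
      have h4 := rho_lev v a
      refine ⟨?_, ?_⟩
      · show 1 ≤ (rho v a).1 - (rho v a).2
        omega
      · show (rho v a).1 - (rho v a).2 ≤ 2 * (T : ℤ)
        omega
    · have h1 := hy.2.2.2.2 a (List.mem_of_mem_tail ha)
      have h2 := h1.1
      have h3 := h1.2
      have h4 := rho_lev v a
      refine ⟨?_, ?_⟩
      · show 1 ≤ (rho v a).1 - (rho v a).2
        omega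
      · show (rho v a).1 - (rho v a).2 ≤ 2 * (T : ℤ)
        omega
  · rw [s1]
    simp

end Q294.Ni
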