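import Pool.Agent.Q294.Ni1

set_option autoImplicit false

/-! Arcs which reach the top of the strip, and pairs of crossing walks: the bijection. -/

namespace Q294.Ni

open H978R2.Hex
open Pool.Agent.W818.TD
open Pool.Agent.W832.HR (Traj HP Nbr nbr_iff xc xc_ne_zero xc_ne_top xc_eq Br Br_nonneg ma Ac Dm
  path back path_mem back_mem path_back)
open Q294.Sl (Cross mass)
open scoped ENNReal

theorem paste_surj {T : ℕ} {l : List V} (hl : l ∈ TopArcs T) : ∃ p ∈ Apart T, paste p = l := by
  obtain ⟨⟨j, h1, h2, h3, h4, h5⟩, hex⟩ := hl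
  obtain ⟨l1, v, l2, e, hv, hl2⟩ := last_split (P := fun x : V => x.1 - x.2 = 2 * (T : ℤ)) hex
  have hev : (v.1 - v.2) % 2 = 0 := by omega
  have hT : 1 ≤ T := by
    have := (h5 v (by rw [e]; simp)).1
    omega
  have e1 : l = (l1 ++ [v]) ++ l2 := by rw [e]; simp
  have hhd : (l1 ++ [v]).head? = some (1, 0) := by
    rw [← h1, e]
    cases l1 <;> simp
  have hd1 := head_cons hhd
  have hnd := h3
  rw [e1, List.nodup_append] at hnd
  obtain ⟨n1, n2, n3⟩ := hnd
  have hch := h4
  rw [e, List.isChain_append] at hch
  obtain ⟨c1, c2, c3⟩ := hch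
  have hch' := h4
  rw [e1, List.isChain_append] at hch'
  obtain ⟨c1', -, -⟩ := hch'
  have hl2ne : l2 ≠ [] := by
    rintro rfl
    rw [e, List.getLast?_append_of_ne_nil _ (by simp)] at h2
    simp only [List.getLast?_singleton, Option.some.injEq] at h2
    rw [h2] at hv
    simp only at hv
    omega
  have hl2last : l2.getLast? = some (1 + j, j) := by
    rw [e1, List.getLast?_append_of_ne_nil _ hl2ne] at h2
    exact h2
  have hla : la ((l1 ++ [v]).map (rho v)).reverse = v := by
    apply la_last
    rw [List.getLast?_reverse, List.head?_map, hhd, Option.map_some, rho_one]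
  have hvmem : v ∈ l := by rw [e]; simp
  have hlev : ∀ x ∈ l, 1 ≤ (rho v x).1 - (rho v x).2 ∧ (rho v x).1 - (rho v x).2 ≤ 2 * (T : ℤ) := by
    intro x hx
    have a1 := (h5 x hx).1
    have a2 := (h5 x hx).2
    rw [rho_lev]
    omega
  refine ⟨(((l1 ++ [v]).map (rho v)).reverse, (v :: l2).map (rho v)), ⟨?_, ⟨?_, ?_⟩, ?_⟩, ?_⟩
  · refine ⟨v.2, ?_, ?_, ?_, ?_, ?_⟩
    · simp only
      rw [List.head?_reverse, List.getLast?_map, List.getLast?_append_of_ne_nil _ (by simp)]
      simp [rho_v]
    · simp only
      rw [List.getLast?_reverse, List.head?_map, hhd, Option.map_some, rho_one, Option.some.injEq]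
      apply Prod.ext
      · simp only; omega
      · rfl
    · exact List.nodup_reverse.2 (n1.map (rho_inj v))
    · simp only
      rw [List.isChain_reverse, List.isChain_map]
      exact c1'.imp fun {a b} hab => nbr_symm (rho_nbr hev hab)
    · intro q hq
      simp only [List.mem_reverse, List.mem_map] at hq
      obtain ⟨a, ha, rfl⟩ := hq
      exact hlev a (by rw [e1]; exact List.mem_append_left _ ha)
  · refine ⟨v.2 - j, ?_, ?_, ?_, ?_, ?_⟩
    · simp [rho_v]
    · simp only
      rw [List.getLast?_map, List.getLast?_cons_of_ne_nil hl2ne, hl2last, Option.map_some,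
        Option.some.injEq]
      unfold rho
      apply Prod.ext
      · simp only [Prod.fst_sub, Prod.fst_add]; omega
      · simp only [Prod.snd_sub, Prod.snd_add]; omega
    · have := h3
      rw [e, List.nodup_append] at this
      exact this.2.1.map (rho_inj v)
    · simp only
      rw [List.isChain_map]
      exact c2.imp fun {a b} hab => rho_nbr hev hab
    · intro q hq
      simp only [List.mem_map] at hq
      obtain ⟨a, ha, rfl⟩ := hq
      exact hlev a (by rw [e]; exact List.mem_append_right _ ha)
  · intro q hq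
    simp only [List.map_cons, List.tail_cons, List.mem_map] at hq
    obtain ⟨a, ha, rfl⟩ := hq
    have a1 := hl2 a ha
    have a2 := (h5 a (by rw [e1]; exact List.mem_append_right _ ha)).2
    rw [rho_lev]
    omega
  · intro q hq hq2
    simp only [List.map_append, List.map_cons, List.map_nil, List.reverse_append,
      List.reverse_cons, List.reverse_nil, List.nil_append, List.cons_append,
      List.tail_cons, List.mem_reverse, List.mem_map] at hq
    obtain ⟨a, ha, rfl⟩ := hq
    simp only [List.mem_map] at hq2
    obtain ⟨b, hb, hab⟩ := hq2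
    have hab' := rho_inj v hab
    subst hab'
    have := h3
    rw [e, List.nodup_append] at this
    exact this.2.2 b ha b hb rfl
  · unfold paste
    simp only
    rw [hla, List.map_reverse, List.reverse_reverse, List.map_map]
    have : (rho v ∘ rho v) = id := by
      funext x
      exact rho_rho v x
    rw [this, List.map_id, List.map_cons, List.tail_cons, List.map_map, this, List.map_id, e1]

theorem cross_ne {T : ℕ} {l : List V} (h : l ∈ Cross T) : l ≠ [] := by
  obtain ⟨x, hx⟩ := h
  exact Q294.Bd.traj_ne hx

theorem paste_length {T : ℕ} {p : List V × List V} (hp : p ∈ Apart T) :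
    (paste p).length - 1 = (p.1.length - 1) + (p.2.length - 1) := by
  have h1 := List.length_pos_of_ne_nil (cross_ne hp.1)
  have h2 := List.length_pos_of_ne_nil (cross_ne hp.2.1.1)
  unfold paste
  rw [List.length_append, List.length_reverse, List.length_map, List.length_map, List.length_tail]
  omega

theorem mass2_eq (T : ℕ) : mass2 (Apart T) = mass (TopArcs T) := by
  unfold mass2 mass
  let f : Apart T → TopArcs T := fun p => ⟨paste p.1, paste_mem p.2⟩
  have hf : Function.Bijective f := by
    constructor
    · intro p q h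
      exact Subtype.ext (paste_inj p.2 q.2 (congrArg Subtype.val h))
    · intro l
      obtain ⟨p, hp, h⟩ := paste_surj l.2
      exact ⟨⟨p, hp⟩, Subtype.ext h⟩
  rw [← Equiv.tsum_eq (Equiv.ofBijective f hf)]
  refine tsum_congr fun p => ?_
  show _ = xc ^ ((paste p.1).length - 1)
  rw [paste_length p.2, pow_add]

/-! ### the transfer to the walks of the strip identity -/

theorem ma_E {T : ℕ} (hT : 1 ≤ T) :
    ma (Ac (T + 1) .no .no \ Ac T .no .no) = xc * mass (TopArcs (T + 1)) := by
  have hspec : ∀ w ∈ Ac (T + 1) .no .no \ Ac T .no .no, ∃ j : ℤ, j ≠ 0 ∧ w.headD (0, 0) = (j, j) ∧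
      path w ∈ Traj (Pool.Agent.W832.HR.Strip (T + 1)) (1, 0) (1 + j, j) ∧
      back (j, j) (path w) = w ∧ w.length = (path w).length + 2 := by
    intro w hw
    have hLW : w ∈ Pool.Agent.W832.HR.LW Pool.Agent.W832.HR.Hp :=
      ⟨Val_mono (fun v hv => Pool.Agent.W832.HR.Dm_Hp hv) hw.1.1, hw.1.2⟩
    obtain ⟨h1, h2⟩ := Pool.Agent.W832.HR.head_Hp' hLW
    obtain ⟨j, hj⟩ : ∃ j, j = (w.headD (0, 0)).2 := ⟨_, rfl⟩
    have hz : w.headD (0, 0) = (j, j) := Prod.ext (by rw [h1, hj]) hj.symm
    rw [← hj] at h2
    have h3 := path_mem (D := Dm (T + 1) .no .no) (z := (j, j)) (v := (1 + j, j)) (by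
      intro v' hv' ha
      have b1 := hv'.1
      rw [adj_iff] at ha
      simp only at ha
      apply Prod.ext
      · simp only; omega
      · simp only; omega) (by
      intro h
      simp only [Prod.mk.injEq] at h
      omega) hw.1.1 hz
    refine ⟨j, h2, hz, ?_, h3.2.1, h3.2.2⟩
    obtain ⟨a1, a2, a3, a4, a5⟩ := h3.1
    refine ⟨a1, a2, a3, a4, fun q hq => ?_⟩
    have := a5 q hq
    exact ⟨this.1, this.2.1⟩
  have hmem : ∀ w ∈ Ac (T + 1) .no .no \ Ac T .no .no, path w ∈ TopArcs (T + 1) := by
    intro w hw
    obtain ⟨j, -, -, h1, -, -⟩ := hspec w hw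
    refine ⟨⟨j, h1⟩, ?_⟩
    obtain ⟨v, hv, hv2⟩ := Pool.Agent.W832.HR.exists_top hT hw
    refine ⟨v, ?_, by rw [hv2]; push_cast; ring⟩
    unfold Pool.Agent.W832.HR.path
    rw [List.mem_reverse]
    exact hv
  let f : (Ac (T + 1) .no .no \ Ac T .no .no : Set (List V)) → TopArcs (T + 1) :=
    fun w => ⟨path w.1, hmem w.1 w.2⟩
  have hf : Function.Bijective f := by
    constructor
    · intro w w' h
      have h1 := congrArg Subtype.val h
      simp only [f] at h1
      obtain ⟨j, -, -, a1, a2, -⟩ := hspec w.1 w.2
      obtain ⟨j', -, -, b1, b2, -⟩ := hspec w'.1 w'.2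
      rw [h1] at a1 a2
      have : j = j' := by
        have c1 := a1.2.1
        rw [b1.2.1] at c1
        simp only [Option.some.injEq, Prod.mk.injEq] at c1
        exact c1.2.symm
      subst this
      exact Subtype.ext (a2.symm.trans b2)
    · intro l
      obtain ⟨⟨j, hj⟩, v, hv, hv2⟩ := l.2
      have hj0 : j ≠ 0 := by
        rintro rfl
        have e1 := head_cons hj.1
        have h2 := hj.2.1
        have h3 := hj.2.2.1
        rw [e1] at h2 h3 hv
        simp only [add_zero] at h2
        rcases List.mem_cons.1 hv with rfl | hv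
        · simp only at hv2
          omega
        · have hne : l.1.tail ≠ [] := List.ne_nil_of_mem hv
          rw [List.getLast?_cons_of_ne_nil hne] at h2
          rw [List.nodup_cons] at h3
          exact h3.1 (List.mem_of_getLast? h2)
      have hb := back_mem (D := Dm (T + 1) .no .no) (z := (j, j)) (v := (1 + j, j)) (by
        intro h
        have := h.1
        simp only at this
        omega) (by
        rw [adj_iff]
        simp only
        omega) (by
        intro h
        simp only [Prod.mk.injEq] at h
        omega) (by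
        intro h
        have := h.1
        simp only at this
        omega) (l := l.1) (by
        obtain ⟨a1, a2, a3, a4, a5⟩ := hj
        refine ⟨a1, a2, a3, a4, fun q hq => ?_⟩
        have := a5 q hq
        exact ⟨this.1, this.2, trivial, trivial⟩)
      refine ⟨⟨back (j, j) l.1, ⟨hb.1, ?_⟩, ?_⟩, Subtype.ext (path_back _ _)⟩
      · rw [hb.2]
        unfold Pool.Agent.W832.HR.Hp
        simp only
        omega
      · rintro ⟨h1, -⟩
        have h2 := (Val_tail h1).2 v (by
          unfold Pool.Agent.W832.HR.back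
          rw [List.tail_cons, List.dropLast_concat, List.mem_reverse]
          exact hv)
        have h3 := h2.2.1
        push_cast at hv2
        omega
  unfold ma mass
  rw [← ENNReal.tsum_mul_left, ← Equiv.tsum_eq (Equiv.ofBijective f hf)]
  refine tsum_congr fun w => ?_
  obtain ⟨j, -, -, h1, -, h2⟩ := hspec w.1 w.2
  have hlen := List.length_pos_of_ne_nil (Q294.Bd.traj_ne h1)
  show ENNReal.ofReal (wt w.1) = xc * xc ^ ((path w.1).length - 1)
  unfold Pool.Agent.W818.TD.wt
  rw [h2, ← pow_succ', xc_eq, ENNReal.ofReal_pow (inv_pos.2 mu0_pos).le]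
  congr 1
  omega

end Q294.Ni
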