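import Pool.Agent.Q294.Ni2

set_option autoImplicit false

/-! The mass of the walks which do not return to the first level, and the identity. -/

namespace Q294.Ni

open H978R2.Hex
open Pool.Agent.W818.TD
open Pool.Agent.W832.HR (Traj HP Nbr nbr_iff xc xc_ne_zero xc_ne_top xc_eq Br Br_nonneg ma Ac Dm
  c3 c3_pos c3_eq s8sq Ac_ma Ac_ne_top strip_id ma_diff Ar)
open Q294.Sl (Cross mass bb_eq mass_cross)
open Pool.Agent.Y981.GP (bb)
open scoped ENNReal

theorem lev3 : ∀ (s : List V), s.IsChain Nbr → s.Nodup → (∀ v ∈ s, 2 ≤ v.1 - v.2) →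
    (∀ a, s.head? = some a → 3 ≤ a.1 - a.2) → (∀ a, s.getLast? = some a → 3 ≤ a.1 - a.2) →
    ∀ v ∈ s, 3 ≤ v.1 - v.2
  | [], _, _, _, _, _ => by simp
  | [a], _, _, _, h, _ => by
    intro v hv
    rw [List.mem_singleton] at hv
    subst hv
    exact h _ rfl
  | a :: b :: t, h1, h2, h3, h4, h5 => by
    have ha := h4 a rfl
    have hb : 3 ≤ b.1 - b.2 := by
      by_contra hc
      have hb2 := h3 b (by simp)
      match t, h1, h2, h3, h5 with
      | [], _, _, _, h5 =>
        have := h5 b (by simp)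
        omega
      | c :: t, h1, h2, h3, _ =>
        have hc2 := h3 c (by simp)
        rw [List.isChain_cons_cons, List.isChain_cons_cons] at h1
        obtain ⟨e1, e2, -⟩ := h1
        rw [nbr_iff, adj_iff] at e1 e2
        have hac : a = c := by
          apply Prod.ext
          · omega
          · omega
        rw [List.nodup_cons] at h2
        apply h2.1
        rw [hac]
        simp
    have ih := lev3 (b :: t) (List.isChain_cons_cons.1 h1).2 (List.nodup_cons.1 h2).2
      (fun v hv => h3 v (List.mem_cons_of_mem _ hv)) (fun x hx => by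
        simp only [List.head?_cons, Option.some.injEq] at hx
        rw [← hx]
        exact hb) (fun x hx => h5 x (by
        rw [List.getLast?_cons_of_ne_nil (by simp)]
        exact hx))
    intro v hv
    rcases List.mem_cons.1 hv with rfl | hv
    · exact ha
    · exact ih v hv

/-- the second vertex -/
def uu2 : Bool → V
  | true => (2, 0)
  | false => (1, -1)

/-- continuation -/
def lift (b : Bool) (l : List V) : List V := (1, 0) :: uu2 b :: l.map (fun v => v + uu2 b)

theorem uu2_lev (b : Bool) : (uu2 b).1 - (uu2 b).2 = 2 := by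
  cases b <;> simp [uu2]

theorem nbr_add {c x y : V} (hc : (c.1 - c.2) % 2 = 0) (h : Nbr x y) : Nbr (x + c) (y + c) := by
  rw [nbr_iff] at *
  exact Pool.Agent.W832.HR.adj_add (by omega) h

theorem lift_mem {T : ℕ} (b : Bool) {l : List V} (hl : l ∈ Cross T) : lift b l ∈ Up (T + 1) := by
  obtain ⟨x, h1, h2, h3, h4, h5⟩ := hl
  have hu := uu2_lev b
  have hne : l ≠ [] := by
    rintro rfl
    simp at h1
  have hne' : l.map (fun v => v + uu2 b) ≠ [] := by simpa using hne
  have hlevl : ∀ v ∈ l, 1 ≤ v.1 - v.2 ∧ v.1 - v.2 ≤ 2 * (T : ℤ) := fun v hv =>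
    ⟨(h5 v hv).1, (h5 v hv).2⟩
  have hlev : ∀ v ∈ l.map (fun v => v + uu2 b), 3 ≤ v.1 - v.2 ∧ v.1 - v.2 ≤ 2 * (T : ℤ) + 2 := by
    intro v hv
    obtain ⟨w, hw, rfl⟩ := List.mem_map.1 hv
    have := hlevl w hw
    simp only [Prod.fst_add, Prod.snd_add]
    omega
  have hT : 1 ≤ T := by
    obtain ⟨a, ha⟩ := List.exists_mem_of_ne_nil _ hne
    have := hlevl a ha
    omega
  refine ⟨⟨x + (uu2 b).2, rfl, ?_, ?_, ?_, ?_⟩, ?_⟩
  · unfold lift
    rw [List.getLast?_cons_of_ne_nil (by simp), List.getLast?_cons_of_ne_nil hne',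
      List.getLast?_map, h2, Option.map_some, Option.some.injEq]
    apply Prod.ext
    · simp only [Prod.fst_add]
      push_cast
      omega
    · rfl
  · unfold lift
    rw [List.nodup_cons, List.nodup_cons]
    refine ⟨?_, ?_, ?_⟩
    · intro h
      rcases List.mem_cons.1 h with h | h
      · rw [← h] at hu
        simp at hu
      · have := (hlev _ h).1
        simp at this
    · intro h
      have := (hlev _ h).1
      omega
    · exact h3.map (fun a b' h => add_right_cancel h)
  · unfold lift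
    obtain ⟨t, ht⟩ : ∃ t, l = (1, 0) :: t := ⟨l.tail, head_cons h1⟩
    rw [List.isChain_cons_cons]
    refine ⟨?_, ?_⟩
    · rw [nbr_iff, adj_iff]
      cases b <;> simp [uu2]
    · have h6 : (l.map (fun v => v + uu2 b)).IsChain Nbr := by
        rw [List.isChain_map]
        exact h4.imp fun {a b'} hab => nbr_add (by omega) hab
      rw [ht] at h6 ⊢
      rw [List.map_cons, List.isChain_cons_cons]
      refine ⟨?_, by rw [List.map_cons] at h6; exact h6⟩
      rw [nbr_iff, adj_iff]
      cases b <;> simp [uu2]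
  · intro v hv
    unfold lift at hv
    show 1 ≤ v.1 - v.2 ∧ v.1 - v.2 ≤ 2 * ((T + 1 : ℕ) : ℤ)
    push_cast
    rcases List.mem_cons.1 hv with rfl | hv
    · simp only
      omega
    rcases List.mem_cons.1 hv with rfl | hv
    · omega
    · have := hlev v hv
      omega
  · intro v hv
    unfold lift at hv
    rw [List.tail_cons] at hv
    rcases List.mem_cons.1 hv with rfl | hv
    · omega
    · have := hlev v hv
      omega

theorem lift_surj {T : ℕ} (hT : 1 ≤ T) {l : List V} (hl : l ∈ Up (T + 1)) :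
    ∃ b, ∃ l' ∈ Cross T, lift b l' = l := by
  obtain ⟨⟨x, h1, h2, h3, h4, h5⟩, hup⟩ := hl
  have e1 := head_cons h1
  obtain ⟨t, ht⟩ : ∃ t, t = l.tail := ⟨_, rfl⟩
  rw [← ht] at e1 hup
  have htne : t ≠ [] := by
    rintro rfl
    rw [e1] at h2
    simp only [List.getLast?_singleton, Option.some.injEq, Prod.mk.injEq] at h2
    push_cast at h2
    omega
  obtain ⟨u, s, rfl⟩ := List.exists_cons_of_ne_nil htne
  rw [e1, List.isChain_cons_cons] at h4
  obtain ⟨c1, c2⟩ := h4
  rw [e1, List.getLast?_cons_of_ne_nil (by simp)] at h2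
  have hu := hup u (by simp)
  rw [nbr_iff, adj_iff] at c1
  simp only at c1
  obtain ⟨b, hb⟩ : ∃ b, uu2 b = u := by
    by_cases h : u.2 = 0
    · exact ⟨true, by apply Prod.ext <;> simp only [uu2] <;> omega⟩
    · exact ⟨false, by apply Prod.ext <;> simp only [uu2] <;> omega⟩
  have hlu := uu2_lev b
  rw [hb] at hlu
  have hsne : s ≠ [] := by
    rintro rfl
    simp only [List.getLast?_singleton, Option.some.injEq] at h2
    rw [h2] at hlu
    simp only at hlu
    push_cast at hlu
    omega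
  rw [List.getLast?_cons_of_ne_nil hsne] at h2
  obtain ⟨w, r, rfl⟩ := List.exists_cons_of_ne_nil hsne
  rw [List.isChain_cons_cons] at c2
  obtain ⟨c2, c3'⟩ := c2
  rw [e1] at h3
  have hw := hup w (by simp)
  have hw1 : w = (1, 0) + u := by
    rw [nbr_iff, adj_iff] at c2
    have : w ≠ (1, 0) := by
      rintro rfl
      rw [List.nodup_cons] at h3
      exact h3.1 (by simp)
    have hne : ¬ (w.1 = 1 ∧ w.2 = 0) := fun h => this (Prod.ext h.1 h.2)
    apply Prod.ext
    · simp only [Prod.fst_add]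
      omega
    · simp only [Prod.snd_add]
      omega
  have hnd : (w :: r).Nodup := (List.nodup_cons.1 (List.nodup_cons.1 h3).2).2
  have hlev := lev3 (w :: r) c3' hnd (fun v hv => hup v (List.mem_cons_of_mem _ hv)) (by
    intro a ha
    simp only [List.head?_cons, Option.some.injEq] at ha
    rw [← ha, hw1]
    simp only [Prod.fst_add, Prod.snd_add]
    omega) (by
    intro a ha
    rw [h2] at ha
    simp only [Option.some.injEq] at ha
    rw [← ha]
    push_cast
    omega)
  refine ⟨b, (w :: r).map (fun v => v - u), ⟨x - u.2, ?_, ?_, ?_, ?_, ?_⟩, ?_⟩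
  · simp only [List.map_cons, List.head?_cons, Option.some.injEq]
    rw [hw1, add_sub_cancel_right]
  · rw [List.getLast?_map, h2, Option.map_some, Option.some.injEq]
    apply Prod.ext
    · simp only [Prod.fst_sub]
      push_cast
      omega
    · rfl
  · exact hnd.map (fun a b' h => sub_left_injective h)
  · rw [List.isChain_map]
    refine c3'.imp fun {a b'} hab => ?_
    have := nbr_add (c := -u) (by simp only [Prod.fst_neg, Prod.snd_neg]; omega) hab
    rwa [← sub_eq_add_neg, ← sub_eq_add_neg] at this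
  · intro q hq
    obtain ⟨a, ha, rfl⟩ := List.mem_map.1 hq
    have a1 := hlev a ha
    have a2 := (h5 a (by rw [e1]; exact List.mem_cons_of_mem _ (List.mem_cons_of_mem _ ha))).2
    show 1 ≤ (a - u).1 - (a - u).2 ∧ (a - u).1 - (a - u).2 ≤ 2 * (T : ℤ)
    simp only [Prod.fst_sub, Prod.snd_sub]
    push_cast at a2
    omega
  · unfold lift
    rw [List.map_map, hb, e1]
    congr 2
    have : ((fun v : V => v + u) ∘ fun v => v - u) = id := by
      funext v
      simp
    rw [this, List.map_id]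

theorem mass_up {T : ℕ} (hT : 1 ≤ T) : mass (Up (T + 1)) = 2 * xc ^ 2 * mass (Cross T) := by
  let f : Bool × Cross T → Up (T + 1) := fun p => ⟨lift p.1 p.2, lift_mem p.1 p.2.2⟩
  have hf : Function.Bijective f := by
    constructor
    · rintro ⟨b, l⟩ ⟨b', l'⟩ h
      have h1 := congrArg Subtype.val h
      simp only [f, lift, List.cons.injEq, true_and] at h1
      obtain ⟨h2, h3⟩ := h1
      have hb : b = b' := by
        cases b <;> cases b' <;> simp [uu2] at h2 <;> rfl
      subst hb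
      have := List.map_injective_iff.2 (fun (a b' : V) (h : a + uu2 b = b' + uu2 b) =>
        add_right_cancel h) h3
      rw [Subtype.ext this]
    · intro l
      obtain ⟨b, l', hl', h⟩ := lift_surj hT l.2
      exact ⟨(b, ⟨l', hl'⟩), Subtype.ext h⟩
  unfold mass
  rw [← Equiv.tsum_eq (Equiv.ofBijective f hf)]
  have h1 : ∀ p : Bool × Cross T, xc ^ (((Equiv.ofBijective f hf) p : List V).length - 1) =
      xc ^ 2 * xc ^ ((p.2 : List V).length - 1) := by
    intro p
    have hlen := List.length_pos_of_ne_nil (cross_ne p.2.2)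
    show xc ^ ((lift p.1 p.2).length - 1) = _
    unfold lift
    rw [List.length_cons, List.length_cons, List.length_map, ← pow_add]
    congr 1
    omega
  rw [tsum_congr h1, ENNReal.tsum_mul_left,
    ENNReal.tsum_prod (f := fun (_ : Bool) (l : Cross T) => xc ^ ((l : List V).length - 1)),
    tsum_bool]
  ring

/-- the probability that the two walks avoid each other -/
noncomputable def prb (T : ℕ) : ℝ :=
  (mass2 (Apart T) / (mass (Cross T) * mass (Up T))).toReal

theorem mass2_le (T : ℕ) : mass2 (Apart T) ≤ mass (Cross T) * mass (Up T) := by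
  unfold mass2 mass
  let f : Apart T → Cross T × Up T := fun p => (⟨p.1.1, p.2.1⟩, ⟨p.1.2, p.2.2.1⟩)
  have hf : Function.Injective f := by
    intro p q h
    simp only [f, Prod.mk.injEq, Subtype.mk.injEq] at h
    exact Subtype.ext (Prod.ext h.1 h.2)
  refine (ENNReal.tsum_comp_le_tsum_of_injective hf (fun q : Cross T × Up T =>
    xc ^ ((q.1 : List V).length - 1) * xc ^ ((q.2 : List V).length - 1))).trans (le_of_eq ?_)
  rw [ENNReal.tsum_prod (f := fun (a : Cross T) (b : Up T) =>
    xc ^ ((a : List V).length - 1) * xc ^ ((b : List V).length - 1))]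
  simp only [ENNReal.tsum_mul_left, ENNReal.tsum_mul_right]

theorem cx : 2 * c3 * mu0⁻¹ = Real.sqrt 2 - 1 := by
  have h1 := s8sq
  have h2 := Pool.Agent.W832.HR.mu0_sq
  have h3 := mu0_pos
  have h4 := c3_pos
  have h5 : Real.sqrt 2 * Real.sqrt 2 = 2 := Real.mul_self_sqrt (by norm_num)
  have h6 : (1 : ℝ) < Real.sqrt 2 := by
    rw [Real.lt_sqrt (by norm_num)]
    norm_num
  rw [← c3_eq] at h1
  have h7 : (2 * c3) ^ 2 = ((Real.sqrt 2 - 1) * mu0) ^ 2 := by
    have e1 : (2 * c3) ^ 2 = 4 * (c3 * c3) := by ring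
    have e2 : ((Real.sqrt 2 - 1) * mu0) ^ 2 = (Real.sqrt 2 - 1) ^ 2 * (mu0 * mu0) := by ring
    rw [e1, e2, h1, h2]
    nlinarith
  have h8 : 2 * c3 = (Real.sqrt 2 - 1) * mu0 := by
    rw [sq_eq_sq₀ (by positivity) (mul_nonneg (by linarith) h3.le)] at h7
    exact h7
  rw [h8]
  field_simp

theorem mass_ne_top {T : ℕ} (hT : 1 ≤ T) : mass (Cross T) ≠ ⊤ := (Q294.Sl.main_mass hT).2.2.1.ne

theorem mass_pos {T : ℕ} (hT : 1 ≤ T) : 0 < (mass (Cross T)).toReal := by
  have h := mass_cross hT
  apply ENNReal.toReal_pos _ (mass_ne_top hT)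
  intro h0
  rw [h0, mul_zero] at h
  exact Q294.Sl.bb_pos T h.symm

theorem Br_mass {T : ℕ} (hT : 1 ≤ T) : Br T = mu0⁻¹ * (mass (Cross T)).toReal := by
  have h := congrArg ENNReal.toReal (mass_cross hT)
  rw [bb_eq hT, ENNReal.toReal_ofReal (Br_nonneg _), ENNReal.toReal_mul, xc_eq,
    ENNReal.toReal_ofReal (inv_pos.2 mu0_pos).le] at h
  exact h.symm

theorem Br_diff {T : ℕ} (hT : 1 ≤ T) :
    Br T - Br (T + 1) = c3 * (mu0⁻¹ * (mass2 (Apart (T + 1))).toReal) := by
  have hT1 : 1 ≤ T + 1 := by omega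
  have s1 : Ac T .no .no ⊆ Ac (T + 1) .no .no := fun w hw =>
    ⟨Val_mono (fun v hv => Pool.Agent.W832.HR.Dm_mono (Nat.le_succ T) hv) hw.1, hw.2⟩
  have h2 := congrArg ENNReal.toReal (ma_E hT)
  rw [ma_diff s1 (Ac_ne_top hT1 _ _), Ac_ma hT, Ac_ma hT1, (strip_id hT).1, (strip_id hT1).1,
    ENNReal.toReal_mul, xc_eq, ENNReal.toReal_ofReal (inv_pos.2 mu0_pos).le, ← mass2_eq] at h2
  have e1 : Pool.Agent.W832.HR.mq (Dm T .no .no) 3 = Ar T := rfl
  have e2 : Pool.Agent.W832.HR.mq (Dm (T + 1) .no .no) 3 = Ar (T + 1) := rfl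
  rw [e1, e2] at h2
  have g1 := (strip_id hT).2
  have g2 := (strip_id hT1).2
  rw [← h2]
  linarith

/-- **the identity** -/
theorem identity {T : ℕ} (hT : 1 ≤ T) :
    1 / (mass (Cross (T + 1))).toReal - 1 / (mass (Cross T)).toReal =
      (Real.sqrt 2 - 1) * mu0⁻¹ * prb (T + 1) := by
  have hT1 : 1 ≤ T + 1 := by omega
  have h1 := mass_pos hT
  have h2 := mass_pos hT1
  have h3 := Br_diff hT
  rw [Br_mass hT, Br_mass hT1] at h3
  have hm := mu0_pos
  have hm' : 0 < mu0⁻¹ := inv_pos.2 hm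
  have h4 : (mass2 (Apart (T + 1))).toReal = prb (T + 1) * ((mass (Cross (T + 1))).toReal *
      (2 * (mu0⁻¹) ^ 2 * (mass (Cross T)).toReal)) := by
    unfold prb
    rw [ENNReal.toReal_div, mass_up hT, ENNReal.toReal_mul, ENNReal.toReal_mul, ENNReal.toReal_mul,
      ENNReal.toReal_pow, xc_eq, ENNReal.toReal_ofReal hm'.le, ENNReal.toReal_ofNat,
      div_mul_cancel₀]
    positivity
  rw [h4] at h3
  have h5 := cx
  obtain ⟨a, ha⟩ : ∃ a, a = (mass (Cross T)).toReal := ⟨_, rfl⟩
  obtain ⟨b, hb⟩ : ∃ b, b = (mass (Cross (T + 1))).toReal := ⟨_, rfl⟩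
  rw [← ha] at h1 h3 ⊢
  rw [← hb] at h2 h3 ⊢
  have h6 : a - b = (2 * c3 * mu0⁻¹) * mu0⁻¹ * prb (T + 1) * (a * b) := by
    have h7 : mu0⁻¹ * (a - b) = mu0⁻¹ * ((2 * c3 * mu0⁻¹) * mu0⁻¹ * prb (T + 1) * (a * b)) := by
      rw [mul_sub, h3]
      ring
    exact mul_left_cancel₀ hm'.ne' h7
  rw [h5] at h6
  have h8 : 1 / b - 1 / a = (a - b) / (a * b) := by
    field_simp
  rw [h8, h6]
  field_simp

theorem prb_nonneg (T : ℕ) : 0 ≤ prb T := ENNReal.toReal_nonneg

theorem prb_le (T : ℕ) : prb T ≤ 1 := by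
  unfold prb
  apply ENNReal.toReal_le_of_le_ofReal zero_le_one
  rw [ENNReal.ofReal_one]
  exact ENNReal.div_le_of_le_mul (by rw [one_mul]; exact mass2_le T)

end Q294.Ni
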