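import Pool.Agent.Q294.Ni3

set_option autoImplicit false

/-! Consequences of the identity. -/

namespace Q294.Ni

open H978R2.Hex
open Pool.Agent.W818.TD
open Pool.Agent.W832.HR (Traj HP Nbr nbr_iff xc xc_ne_zero xc_ne_top xc_eq Br Br_nonneg)
open Q294.Sl (Cross mass bb_eq mass_cross)
open Pool.Agent.Y981.GP (bb)
open Filter Topology
open scoped ENNReal

theorem mass_gt {T : ℕ} (hT : 1 ≤ T) : 0 < mass (Cross T) :=
  (ENNReal.toReal_pos_iff.1 (mass_pos hT)).1

theorem up_fin {T : ℕ} (hT : 1 ≤ T) : 0 < mass (Up (T + 1)) ∧ mass (Up (T + 1)) < ⊤ := by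
  rw [mass_up hT]
  refine ⟨?_, ?_⟩
  · rw [pos_iff_ne_zero]
    exact mul_ne_zero (mul_ne_zero two_ne_zero (pow_ne_zero _ xc_ne_zero)) (mass_gt hT).ne'
  · rw [lt_top_iff_ne_top]
    exact ENNReal.mul_ne_top (ENNReal.mul_ne_top ENNReal.ofNat_ne_top
      (ENNReal.pow_ne_top xc_ne_top)) (mass_ne_top hT)

/-- mass of the crossing walks -/
noncomputable def ZZ (T : ℕ) : ℝ := (mass (Cross T)).toReal

/-- sum of the probabilities -/
noncomputable def SS (N : ℕ) : ℝ := ∑ T ∈ Finset.Icc 2 N, prb T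

theorem s2_lt : (1 : ℝ) < Real.sqrt 2 := by
  rw [Real.lt_sqrt (by norm_num)]
  norm_num

theorem sum_id {N : ℕ} (hN : 1 ≤ N) :
    1 / ZZ N - 1 / ZZ 1 = (Real.sqrt 2 - 1) * mu0⁻¹ * SS N := by
  induction N, hN using Nat.le_induction with
  | base => simp [SS]
  | succ N hN ih =>
    have h1 := identity hN
    have h2 : SS (N + 1) = SS N + prb (N + 1) := by
      unfold SS
      rw [Finset.sum_Icc_succ_top (by omega)]
    rw [h2, mul_add, ← ih, ← h1]
    unfold ZZ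
    ring

theorem Z_le {N : ℕ} (hN : 1 ≤ N) : mu0⁻¹ * ZZ N ≤ 13 / 2 * (N : ℝ) ^ (-(23 / 200) : ℝ) := by
  have h1 := Br_mass hN
  have h6 := Pool.Agent.TH232.WX.M_bridge ((N : ℕ) : ℤ) (by exact_mod_cast hN)
  have h7 : ENNReal.ofReal (Br N) ≤
      ENNReal.ofReal (13 / 2 * (((N : ℕ) : ℤ) : ℝ) ^ (-(23 / 200) : ℝ)) := by
    rw [← bb_eq hN]
    exact h6
  rw [ENNReal.ofReal_le_ofReal_iff (by positivity), h1] at h7
  exact_mod_cast h7

theorem ZZ_pos {N : ℕ} (hN : 1 ≤ N) : 0 < ZZ N := mass_pos hN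

/-- lower bound for the sums -/
theorem SS_ge {N : ℕ} (hN : 1 ≤ N) : 9 / 25 * (N : ℝ) ^ ((23 : ℝ) / 200) - 9 ≤ SS N := by
  have h1 := sum_id hN
  have h2 := Z_le hN
  have h3 := ZZ_pos hN
  have hx : 0 < mu0⁻¹ := inv_pos.2 mu0_pos
  have hN0 : (0 : ℝ) < N := by exact_mod_cast hN
  have h4 : 0 < (N : ℝ) ^ ((23 : ℝ) / 200) := by positivity
  have h5 : (N : ℝ) ^ (-(23 / 200) : ℝ) = ((N : ℝ) ^ ((23 : ℝ) / 200))⁻¹ :=
    Real.rpow_neg hN0.le _
  rw [h5] at h2
  have h6 : 2 / 13 * mu0⁻¹ * (N : ℝ) ^ ((23 : ℝ) / 200) ≤ 1 / ZZ N := by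
    rw [le_div_iff₀ h3]
    have := mul_le_mul_of_nonneg_right h2 h4.le
    rw [mul_assoc (13 / 2 : ℝ), inv_mul_cancel₀ h4.ne'] at this
    linarith
  have h7 : 1 / ZZ 1 ≤ 7 / 2 * mu0⁻¹ := by
    obtain ⟨a1, a2⟩ := Pool.Agent.W832.HR.br_lower (T := 1) le_rfl
    have a3 := Br_mass (T := 1) le_rfl
    have a4 : (mass (Cross 1)).toReal = ZZ 1 := rfl
    rw [a4] at a3
    have a5 := ZZ_pos (N := 1) le_rfl
    rw [a3, div_le_iff₀ (by positivity)] at a2
    rw [div_le_iff₀ a5]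
    push_cast at a2
    linarith
  have h8 : (Real.sqrt 2 - 1) * SS N * mu0⁻¹ ≥
      (2 / 13 * (N : ℝ) ^ ((23 : ℝ) / 200) - 7 / 2) * mu0⁻¹ := by
    have : (Real.sqrt 2 - 1) * SS N * mu0⁻¹ = (Real.sqrt 2 - 1) * mu0⁻¹ * SS N := by ring
    rw [this, ← h1]
    linarith
  have h9 := le_of_mul_le_mul_right h8 hx
  have h10 : Real.sqrt 2 * Real.sqrt 2 = 2 := Real.mul_self_sqrt (by norm_num)
  have h11 := s2_lt
  have h12 : SS N = (Real.sqrt 2 + 1) * ((Real.sqrt 2 - 1) * SS N) := by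
    have : (Real.sqrt 2 + 1) * ((Real.sqrt 2 - 1) * SS N) =
        (Real.sqrt 2 * Real.sqrt 2 - 1) * SS N := by ring
    rw [this, h10]
    ring
  have h13 : (1.414 : ℝ) ≤ Real.sqrt 2 := Real.le_sqrt_of_sq_le (by norm_num)
  have h14 : Real.sqrt 2 ≤ 1.415 := by
    rw [Real.sqrt_le_left (by norm_num)]
    norm_num
  rw [h12]
  have h15 := mul_le_mul_of_nonneg_left h9 (by linarith : 0 ≤ Real.sqrt 2 + 1)
  have h16 : (Real.sqrt 2 + 1) * (2 / 13 * (N : ℝ) ^ ((23 : ℝ) / 200)) ≥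
      2.414 * (2 / 13 * (N : ℝ) ^ ((23 : ℝ) / 200)) :=
    mul_le_mul_of_nonneg_right (by linarith) (by positivity)
  nlinarith

/-- infinitely many large probabilities -/
theorem freq : ∃ᶠ T : ℕ in atTop, 1 / 25 * (T : ℝ) ^ (-(177 / 200) : ℝ) ≤ prb T := by
  rw [Filter.Frequently]
  intro hcon
  rw [eventually_atTop] at hcon
  obtain ⟨T0, hT0⟩ := hcon
  push Not at hT0
  have h1 : ∀ N, SS N ≤ T0 + 1 / 25 * ((N : ℝ) ^ ((23 : ℝ) / 200) / (23 / 200)) := by
    intro N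
    have h2 : SS N ≤ ∑ i ∈ Finset.range N, prb (i + 1) := by
      unfold SS
      have e : ∑ i ∈ Finset.range N, prb (i + 1) = ∑ T ∈ (Finset.range N).image (fun i => i + 1),
          prb T := by
        rw [Finset.sum_image (by intro a _ b _ h; simpa using h)]
      rw [e]
      apply Finset.sum_le_sum_of_subset_of_nonneg
      · intro T hT
        rw [Finset.mem_Icc] at hT
        rw [Finset.mem_image]
        exact ⟨T - 1, by rw [Finset.mem_range]; omega, by omega⟩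
      · intro T _ _
        exact prb_nonneg T
    have h3 : ∀ i ∈ Finset.range N, prb (i + 1) ≤ (if i < T0 then (1 : ℝ) else 0) +
        1 / 25 * ((i : ℝ) + 1) ^ ((23 : ℝ) / 200 - 1) := by
      intro i _
      have h4 : 0 ≤ 1 / 25 * ((i : ℝ) + 1) ^ ((23 : ℝ) / 200 - 1) := by positivity
      split_ifs with h
      · have := prb_le (i + 1)
        linarith
      · have := hT0 (i + 1) (by omega)
        rw [zero_add]
        refine this.le.trans (le_of_eq ?_)
        push_cast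
        norm_num
    have h5 := Pool.Agent.TH232.WX.Cut.sum_rpow (23 / 200) (by norm_num) (by norm_num) N
    have h6 : ∑ i ∈ Finset.range N, (if i < T0 then (1 : ℝ) else 0) ≤ T0 := by
      rw [← Finset.sum_filter, Finset.sum_const, nsmul_eq_mul, mul_one]
      have : ((Finset.range N).filter (fun i => i < T0)).card ≤ (Finset.range T0).card := by
        apply Finset.card_le_card
        intro i hi
        rw [Finset.mem_filter] at hi
        exact Finset.mem_range.2 hi.2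
      rw [Finset.card_range] at this
      exact_mod_cast this
    refine h2.trans ((Finset.sum_le_sum h3).trans ?_)
    rw [Finset.sum_add_distrib, ← Finset.mul_sum]
    have h7 := mul_le_mul_of_nonneg_left h5 (by norm_num : (0 : ℝ) ≤ 1 / 25)
    linarith
  -- contradiction
  have h2 : Tendsto (fun N : ℕ => (N : ℝ) ^ ((23 : ℝ) / 200)) atTop atTop :=
    (tendsto_rpow_atTop (by norm_num)).comp tendsto_natCast_atTop_atTop
  obtain ⟨N, hN, hN1⟩ := ((h2.eventually_ge_atTop (575 / 7 * (T0 + 10))).and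
    (eventually_ge_atTop 1)).exists
  have h3 := SS_ge hN1
  have h4 := h1 N
  have h5 : 0 ≤ (T0 : ℝ) := Nat.cast_nonneg _
  have h6 : 1 / 25 * ((N : ℝ) ^ ((23 : ℝ) / 200) / (23 / 200)) =
      8 / 23 * (N : ℝ) ^ ((23 : ℝ) / 200) := by ring
  rw [h6] at h4
  linarith

theorem Z_tend : Tendsto ZZ atTop (𝓝 0) := by
  have h2 : Tendsto (fun N : ℕ => (N : ℝ) ^ (-(23 / 200) : ℝ)) atTop (𝓝 0) :=
    (tendsto_rpow_neg_atTop (by norm_num)).comp tendsto_natCast_atTop_atTop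
  have h3 : Tendsto (fun N : ℕ => mu0 * (13 / 2) * (N : ℝ) ^ (-(23 / 200) : ℝ)) atTop (𝓝 0) := by
    have := h2.const_mul (mu0 * (13 / 2))
    rwa [mul_zero] at this
  refine tendsto_of_tendsto_of_tendsto_of_le_of_le' tendsto_const_nhds h3 ?_ ?_
  · filter_upwards [eventually_ge_atTop 1] with N hN
    exact (ZZ_pos hN).le
  · filter_upwards [eventually_ge_atTop 1] with N hN
    have h4 := Z_le hN
    have h5 := mul_le_mul_of_nonneg_left h4 mu0_pos.le
    rw [← mul_assoc, mul_inv_cancel₀ mu0_pos.ne', one_mul] at h5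
    linarith

theorem kap_pos : 0 < (Real.sqrt 2 - 1) * mu0⁻¹ :=
  mul_pos (by have := s2_lt; linarith) (inv_pos.2 mu0_pos)

theorem prod_tend : Tendsto (fun N => ZZ N * SS N) atTop (𝓝 (1 / ((Real.sqrt 2 - 1) * mu0⁻¹))) := by
  have h1 : Tendsto (fun N => (1 - ZZ N / ZZ 1) / ((Real.sqrt 2 - 1) * mu0⁻¹)) atTop
      (𝓝 ((1 - 0 / ZZ 1) / ((Real.sqrt 2 - 1) * mu0⁻¹))) :=
    (tendsto_const_nhds.sub (Z_tend.div_const _)).div_const _
  rw [zero_div, sub_zero] at h1
  refine h1.congr' ?_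
  filter_upwards [eventually_ge_atTop 1] with N hN
  have h2 := sum_id hN
  have h3 := ZZ_pos hN
  have h4 := ZZ_pos (N := 1) le_rfl
  rw [div_eq_iff kap_pos.ne']
  have h5 : ZZ N * SS N * ((Real.sqrt 2 - 1) * mu0⁻¹) = ZZ N * ((Real.sqrt 2 - 1) * mu0⁻¹ * SS N) := by
    ring
  rw [h5, ← h2]
  field_simp

theorem logs : Tendsto (fun N : ℕ => Real.log (ZZ N) / Real.log N + Real.log (SS N) / Real.log N)
    atTop (𝓝 0) := by
  have hk : 0 < 1 / ((Real.sqrt 2 - 1) * mu0⁻¹) := one_div_pos.2 kap_pos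
  have h1 : Tendsto (fun N => Real.log (ZZ N * SS N)) atTop
      (𝓝 (Real.log (1 / ((Real.sqrt 2 - 1) * mu0⁻¹)))) := prod_tend.log hk.ne'
  have h2 : Tendsto (fun N : ℕ => Real.log (N : ℝ)) atTop atTop :=
    Real.tendsto_log_atTop.comp tendsto_natCast_atTop_atTop
  have h3 := h1.div_atTop h2
  refine h3.congr' ?_
  filter_upwards [eventually_ge_atTop 1, prod_tend.eventually (lt_mem_nhds hk)] with N hN hpos
  have h4 := ZZ_pos hN
  have h5 : SS N ≠ 0 := by
    intro h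
    rw [h, mul_zero] at hpos
    exact lt_irrefl _ hpos
  rw [Real.log_mul h4.ne' h5, add_div]

theorem expo (β : ℝ) : Tendsto (fun N : ℕ => Real.log (ZZ N) / Real.log N) atTop (𝓝 (-β)) ↔
    Tendsto (fun N : ℕ => Real.log (SS N) / Real.log N) atTop (𝓝 β) := by
  constructor
  · intro h
    have := logs.sub h
    simp only [zero_sub, neg_neg] at this
    refine this.congr fun N => ?_
    ring
  · intro h
    have := logs.sub h
    simp only [zero_sub] at this
    refine this.congr fun N => ?_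
    ring

end Q294.Ni
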