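import Mathlib

/-!
Variation of continuous curves: deterministic lemmas.
-/

set_option autoImplicit false

namespace Q294.PVar

open MeasureTheory Filter Topology

/-- `∑_{i < n} ψ (|γ (u (i+1)) - γ (u i)|)` -/
noncomputable def varSum (γ : C(unitInterval, ℂ)) (ψ : ℝ → ℝ) (n : ℕ) (u : ℕ → unitInterval) : ℝ :=
  ∑ i ∈ Finset.range n, ψ (dist (γ (u i)) (γ (u (i + 1))))

theorem tele (n : ℕ) (u : ℕ → unitInterval) (hu : Monotone u) :
    ∑ i ∈ Finset.range n, |((u i : unitInterval) : ℝ) - u (i + 1)| = (u n : ℝ) - u 0 := by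
  have h : ∀ i ∈ Finset.range n, |((u i : unitInterval) : ℝ) - u (i + 1)| =
      (u (i + 1) : ℝ) - u i := by
    intro i _
    have : ((u i : unitInterval) : ℝ) ≤ u (i + 1) := hu (Nat.le_succ i)
    rw [abs_sub_comm, abs_of_nonneg (by linarith)]
  rw [Finset.sum_congr rfl h, Finset.sum_range_sub (fun i => ((u i : unitInterval) : ℝ))]

theorem tele_le (n : ℕ) (u : ℕ → unitInterval) (hu : Monotone u) :
    ∑ i ∈ Finset.range n, |((u i : unitInterval) : ℝ) - u (i + 1)| ≤ 1 := by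
  rw [tele n u hu]
  have h1 := (u n).2.2
  have h2 := (u 0).2.1
  linarith

theorem varSum_le_of {γ : C(unitInterval, ℂ)} {ψ : ℝ → ℝ} {K : ℝ}
    (h : ∀ s t : unitInterval, ψ (dist (γ s) (γ t)) ≤ K * |(s : ℝ) - t|)
    (n : ℕ) (u : ℕ → unitInterval) (hu : Monotone u) :
    varSum γ ψ n u ≤ K * ((u n : ℝ) - u 0) := by
  unfold varSum
  rw [← tele n u hu, Finset.mul_sum]
  exact Finset.sum_le_sum fun i _ => h _ _

/-- a Hölder continuous curve of exponent `1/q` has finite `q`-variation -/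
theorem holder_var {γ : C(unitInterval, ℂ)} {Λ q : ℝ} (hq : 0 < q) (hΛ : 0 ≤ Λ)
    (h : ∀ s t : unitInterval, dist (γ s) (γ t) ≤ Λ * |(s : ℝ) - t| ^ (1 / q))
    (n : ℕ) (u : ℕ → unitInterval) (hu : Monotone u) :
    varSum γ (fun x => x ^ q) n u ≤ Λ ^ q := by
  have h1 : ∀ s t : unitInterval, (fun x : ℝ => x ^ q) (dist (γ s) (γ t)) ≤
      Λ ^ q * |(s : ℝ) - t| := by
    intro s t
    have h2 := Real.rpow_le_rpow dist_nonneg (h s t) hq.le
    rw [Real.mul_rpow hΛ (by positivity), ← Real.rpow_mul (abs_nonneg _),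
      one_div_mul_cancel hq.ne', Real.rpow_one] at h2
    exact h2
  refine (varSum_le_of h1 n u hu).trans ?_
  have h3 := (u n).2.2
  have h4 := (u 0).2.1
  have h5 : 0 ≤ Λ ^ q := Real.rpow_nonneg hΛ q
  nlinarith

/-- the gauge function `x^(7/4) / (log (e + 1/x))^(3/4)` -/
noncomputable def gauge (x : ℝ) : ℝ :=
  x ^ (7/4 : ℝ) / Real.log (Real.exp 1 + 1 / x) ^ (3/4 : ℝ)

theorem one_le_log {x : ℝ} (hx : 0 ≤ x) : 1 ≤ Real.log (Real.exp 1 + 1 / x) := by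
  have h1 : 0 ≤ 1 / x := by positivity
  rw [Real.le_log_iff_exp_le (by positivity)]
  linarith

theorem gauge_nonneg {x : ℝ} (hx : 0 ≤ x) : 0 ≤ gauge x := by
  unfold gauge
  have := one_le_log hx
  positivity

theorem gauge_le {x : ℝ} (hx : 0 ≤ x) : gauge x ≤ x ^ (7/4 : ℝ) := by
  unfold gauge
  have h1 := one_le_log hx
  have h2 : (1 : ℝ) ≤ Real.log (Real.exp 1 + 1 / x) ^ (3/4 : ℝ) :=
    Real.one_le_rpow h1 (by norm_num)
  exact div_le_self (by positivity) h2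

/-- For small `h` the bound `C h^(4/7) log(1/h)^(3/7)` is at most `h^(1/2)`. -/
theorem small (C : ℝ) : ∃ h1 : ℝ, 0 < h1 ∧ h1 < 1 ∧ ∀ h : ℝ, 0 < h → h < h1 →
    C * (h ^ (4/7 : ℝ) * Real.log (1 / h) ^ (3/7 : ℝ)) ≤ h ^ (1/2 : ℝ) := by
  have h1 : Tendsto (fun x : ℝ => Real.log x ^ (3/7 : ℝ) / x ^ (1/14 : ℝ)) atTop (𝓝 0) := by
    have h2 := isLittleO_log_rpow_rpow_atTop (3/7 : ℝ) (show (0 : ℝ) < 1/14 by norm_num)
    exact h2.tendsto_div_nhds_zero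
  have h3 : Tendsto (fun x : ℝ => |C| * (Real.log x ^ (3/7 : ℝ) / x ^ (1/14 : ℝ))) atTop
      (𝓝 0) := by
    simpa using h1.const_mul |C|
  have h4 : ∀ᶠ x : ℝ in atTop, |C| * (Real.log x ^ (3/7 : ℝ) / x ^ (1/14 : ℝ)) < 1 :=
    h3.eventually (gt_mem_nhds one_pos)
  obtain ⟨A, hA⟩ := (h4.and (eventually_ge_atTop 2)).exists_forall_of_atTop
  have hA2 : 2 ≤ A := (hA A le_rfl).2
  refine ⟨1 / A, by positivity, by rw [div_lt_one (by linarith)]; linarith, fun h hh hlt => ?_⟩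
  have hx : A ≤ 1 / h := by
    rw [le_div_iff₀ hh]
    have := (lt_div_iff₀ (by linarith : (0:ℝ) < A)).1 hlt
    linarith
  have h5 := (hA _ hx).1.le
  have h6 : 0 < (1 / h) ^ (1/14 : ℝ) := by positivity
  have h7 : 0 ≤ Real.log (1 / h) := Real.log_nonneg (by linarith)
  have h8 : |C| * Real.log (1 / h) ^ (3/7 : ℝ) ≤ (1 / h) ^ (1/14 : ℝ) := by
    rw [← mul_div_assoc, div_le_one h6] at h5
    exact h5
  have h9 : h ^ (4/7 : ℝ) * (1 / h) ^ (1/14 : ℝ) = h ^ (1/2 : ℝ) := by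
    rw [one_div, Real.inv_rpow hh.le, ← Real.rpow_neg hh.le, ← Real.rpow_add hh]
    norm_num
  calc C * (h ^ (4/7 : ℝ) * Real.log (1 / h) ^ (3/7 : ℝ))
      ≤ |C| * (h ^ (4/7 : ℝ) * Real.log (1 / h) ^ (3/7 : ℝ)) := by
        apply mul_le_mul_of_nonneg_right (le_abs_self C); positivity
    _ = h ^ (4/7 : ℝ) * (|C| * Real.log (1 / h) ^ (3/7 : ℝ)) := by ring
    _ ≤ h ^ (4/7 : ℝ) * (1 / h) ^ (1/14 : ℝ) := by
        apply mul_le_mul_of_nonneg_left h8; positivity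
    _ = _ := h9

/-- the gauge of the modulus -/
theorem gauge_mod {C h1 : ℝ} (hC : 0 ≤ C) (h1lt : h1 < 1)
    (hs : ∀ h : ℝ, 0 < h → h < h1 →
      C * (h ^ (4/7 : ℝ) * Real.log (1 / h) ^ (3/7 : ℝ)) ≤ h ^ (1/2 : ℝ))
    {h d : ℝ} (hh : 0 < h) (hlt : h < h1) (hd0 : 0 ≤ d)
    (hd : d ≤ C * (h ^ (4/7 : ℝ) * Real.log (1 / h) ^ (3/7 : ℝ))) :
    gauge d ≤ (C ^ (7/4 : ℝ) * 2 ^ (3/4 : ℝ)) * h := by
  rcases hd0.eq_or_lt with h0 | hdpos
  · rw [← h0]
    unfold gauge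
    rw [Real.zero_rpow (by norm_num), zero_div]
    positivity
  have hL : 0 < Real.log (1 / h) := Real.log_pos (by
    rw [lt_div_iff₀ hh]; linarith)
  have hd2 : d ≤ h ^ (1/2 : ℝ) := hd.trans (hs h hh hlt)
  have hlog : Real.log (1 / h) / 2 ≤ Real.log (Real.exp 1 + 1 / d) := by
    have e1 : Real.log (1 / h) / 2 = Real.log (1 / h ^ (1/2 : ℝ)) := by
      rw [one_div, one_div, Real.log_inv, Real.log_inv, Real.log_rpow hh]; ring
    rw [e1]
    apply Real.log_le_log (by positivity)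
    have : 1 / h ^ (1/2 : ℝ) ≤ 1 / d := one_div_le_one_div_of_le hdpos hd2
    have := Real.exp_pos 1
    linarith
  unfold gauge
  rw [div_le_iff₀ (Real.rpow_pos_of_pos (by linarith [one_le_log hd0]) _)]
  have hnum : d ^ (7/4 : ℝ) ≤ C ^ (7/4 : ℝ) * (h * Real.log (1 / h) ^ (3/4 : ℝ)) := by
    have g1 := Real.rpow_le_rpow hd0 hd (show (0:ℝ) ≤ 7/4 by norm_num)
    rw [Real.mul_rpow hC (by positivity), Real.mul_rpow (by positivity) (by positivity),
      ← Real.rpow_mul hh.le, ← Real.rpow_mul hL.le] at g1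
    rw [show (4/7 : ℝ) * (7/4) = 1 by norm_num, show (3/7 : ℝ) * (7/4) = 3/4 by norm_num,
      Real.rpow_one] at g1
    exact g1
  have hden : Real.log (1 / h) ^ (3/4 : ℝ) ≤
      2 ^ (3/4 : ℝ) * Real.log (Real.exp 1 + 1 / d) ^ (3/4 : ℝ) := by
    rw [← Real.mul_rpow (by norm_num) (by linarith [one_le_log hd0])]
    apply Real.rpow_le_rpow hL.le _ (by norm_num)
    linarith
  calc d ^ (7/4 : ℝ) ≤ C ^ (7/4 : ℝ) * (h * Real.log (1 / h) ^ (3/4 : ℝ)) := hnum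
    _ ≤ C ^ (7/4 : ℝ) * (h * (2 ^ (3/4 : ℝ) * Real.log (Real.exp 1 + 1 / d) ^ (3/4 : ℝ))) := by
        gcongr
    _ = _ := by ring

/-- The modulus of continuity `C h^(4/7) log(1/h)^(3/7)` in the time `T s` implies that the
increments measured with the gauge are controlled by the time: sharp constant at small scales, some
constant at all scales. -/
theorem gauge_of_mod {C : ℝ} (hC : 0 ≤ C) (γ : C(unitInterval, ℂ)) {T h0 : ℝ} (hT : 0 < T)
    (h0pos : 0 < h0)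
    (hm : ∀ h : ℝ, 0 < h → h < h0 → ∀ s t : unitInterval, |(s : ℝ) - t| * T ≤ h →
      dist (γ s) (γ t) ≤ C * (h ^ (4/7 : ℝ) * Real.log (1 / h) ^ (3/7 : ℝ))) :
    (∃ η : ℝ, 0 < η ∧ ∀ s t : unitInterval, |(s : ℝ) - t| < η →
      gauge (dist (γ s) (γ t)) ≤ (C ^ (7/4 : ℝ) * 2 ^ (3/4 : ℝ)) * T * |(s : ℝ) - t|) ∧
    ∃ K : ℝ, ∀ s t : unitInterval, gauge (dist (γ s) (γ t)) ≤ K * |(s : ℝ) - t| := by
  obtain ⟨h1, h1pos, h1lt, hs⟩ := small C
  have key : ∀ s t : unitInterval, |(s : ℝ) - t| < min h0 h1 / T →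
      gauge (dist (γ s) (γ t)) ≤ (C ^ (7/4 : ℝ) * 2 ^ (3/4 : ℝ)) * T * |(s : ℝ) - t| := by
    intro s t hst
    have hst' : |(s : ℝ) - t| * T < min h0 h1 := (lt_div_iff₀ hT).1 hst
    rcases (abs_nonneg ((s : ℝ) - t)).eq_or_lt with h | h
    · have : s = t := Subtype.ext (sub_eq_zero.1 (abs_eq_zero.1 h.symm))
      rw [this, dist_self]
      unfold gauge
      rw [Real.zero_rpow (by norm_num), zero_div]
      positivity
    · have hpos : 0 < |(s : ℝ) - t| * T := by positivity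
      have g1 := hm _ hpos (lt_of_lt_of_le hst' (min_le_left _ _)) s t le_rfl
      have g2 := gauge_mod hC h1lt hs hpos (lt_of_lt_of_le hst' (min_le_right _ _))
        dist_nonneg g1
      calc gauge (dist (γ s) (γ t)) ≤ _ := g2
        _ = _ := by ring
  refine ⟨⟨min h0 h1 / T, by positivity, key⟩, ?_⟩
  obtain ⟨B, hB⟩ : ∃ B : ℝ, ∀ s t : unitInterval, dist (γ s) (γ t) ≤ B := by
    have hc : IsCompact (Set.range γ) := isCompact_range γ.continuous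
    obtain ⟨B, hB⟩ := Metric.isBounded_iff.1 hc.isBounded
    exact ⟨B, fun s t => hB ⟨s, rfl⟩ ⟨t, rfl⟩⟩
  set η := min h0 h1 / T with hη
  have hηpos : 0 < η := by positivity
  have hB0 : 0 ≤ B := dist_nonneg.trans (hB 0 0)
  refine ⟨max ((C ^ (7/4 : ℝ) * 2 ^ (3/4 : ℝ)) * T) (B ^ (7/4 : ℝ) / η), fun s t => ?_⟩
  rcases lt_or_ge |(s : ℝ) - t| η with h | h
  · refine (key s t h).trans ?_
    gcongr
    exact le_max_left _ _
  · have g1 : gauge (dist (γ s) (γ t)) ≤ B ^ (7/4 : ℝ) :=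
      (gauge_le dist_nonneg).trans (Real.rpow_le_rpow dist_nonneg (hB s t) (by norm_num))
    refine g1.trans ?_
    calc B ^ (7/4 : ℝ) = B ^ (7/4 : ℝ) / η * η := by field_simp
      _ ≤ B ^ (7/4 : ℝ) / η * |(s : ℝ) - t| := by gcongr
      _ ≤ _ := by gcongr; exact le_max_right _ _

end Q294.PVar
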