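import Pool.Agent.Q294.PVar

/-!
Variation of continuous curves: a subarc of Hausdorff dimension `> q` has infinite `q`-variation.
-/

set_option autoImplicit false

namespace Q294.PVar

open MeasureTheory Filter Topology
open scoped ENNReal

theorem even_sum_le (f : ℕ → ℝ) (hf : ∀ i, 0 ≤ f i) (N : ℕ) :
    ∑ k ∈ Finset.range N, f (2 * k) ≤ ∑ i ∈ Finset.range (2 * N), f i := by
  induction N with
  | zero => simp
  | succ N ih =>
    rw [Finset.sum_range_succ, show 2 * (N + 1) = 2 * N + 1 + 1 by ring, Finset.sum_range_succ,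
      Finset.sum_range_succ]
    have := hf (2 * N + 1)
    linarith

/-- the `k`-th of `N` equal pieces of `[a, b]` -/
def piece (a b : unitInterval) (N k : ℕ) : Set unitInterval :=
  {x | (a : ℝ) + k * ((b - a) / N) ≤ x ∧ (x : ℝ) ≤ a + (k + 1) * ((b - a) / N)}

theorem piece_compact (a b : unitInterval) (N k : ℕ) : IsCompact (piece a b N k) := by
  apply IsClosed.isCompact
  have h1 : IsClosed {x : unitInterval | (a : ℝ) + k * ((b - a) / N) ≤ x} :=
    isClosed_le continuous_const continuous_subtype_val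
  have h2 : IsClosed {x : unitInterval | (x : ℝ) ≤ a + (k + 1) * ((b - a) / N)} :=
    isClosed_le continuous_subtype_val continuous_const
  exact h1.inter h2

theorem piece_ends {a b : unitInterval} (hab : a < b) {N k : ℕ} (hk : k < N) :
    ∃ x : unitInterval, (x : ℝ) = a + k * ((b - a) / N) ∧ x ∈ piece a b N k := by
  have hab' : (a : ℝ) < b := hab
  have hN : (0 : ℝ) < N := by exact_mod_cast (by omega : 0 < N)
  have hk' : (k : ℝ) ≤ N := by exact_mod_cast hk.le
  have h0 : 0 ≤ ((b : ℝ) - a) / N := div_nonneg (by linarith) hN.le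
  have h1 : (k : ℝ) * ((b - a) / N) ≤ b - a := by
    calc (k : ℝ) * ((b - a) / N) ≤ N * ((b - a) / N) := by gcongr
      _ = b - a := by field_simp
  have h2 : 0 ≤ (k : ℝ) * ((b - a) / N) := by positivity
  have ha := a.2.1
  have hb := b.2.2
  refine ⟨⟨a + k * ((b - a) / N), by linarith, by linarith⟩, rfl, le_rfl, ?_⟩
  show (a : ℝ) + k * ((b - a) / N) ≤ a + (k + 1) * ((b - a) / N)
  nlinarith

theorem piece_sub {a b : unitInterval} (hab : a < b) {N k : ℕ} (hk : k < N) :
    piece a b N k ⊆ Set.Icc a b := by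
  have hab' : (a : ℝ) < b := hab
  have hN : (0 : ℝ) < N := by exact_mod_cast (by omega : 0 < N)
  have hk' : (k : ℝ) + 1 ≤ N := by exact_mod_cast hk
  have h0 : 0 ≤ ((b : ℝ) - a) / N := div_nonneg (by linarith) hN.le
  intro x hx
  obtain ⟨h1, h2⟩ := hx
  have h3 : ((k : ℝ) + 1) * ((b - a) / N) ≤ b - a := by
    calc ((k : ℝ) + 1) * ((b - a) / N) ≤ N * ((b - a) / N) := by gcongr
      _ = b - a := by field_simp
  have h4 : 0 ≤ (k : ℝ) * ((b - a) / N) := by positivity
  exact ⟨show (a : ℝ) ≤ x by linarith, show (x : ℝ) ≤ b by linarith⟩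

theorem cover {a b : unitInterval} (hab : a < b) {N : ℕ} (hN : 0 < N) {x : unitInterval}
    (hx : x ∈ Set.Icc a b) : ∃ k : Fin N, x ∈ piece a b N k := by
  have hab' : (a : ℝ) < b := hab
  have hN' : (0 : ℝ) < N := by exact_mod_cast hN
  have hd : 0 < ((b : ℝ) - a) / N := div_pos (by linarith) hN'
  have hax : (a : ℝ) ≤ x := hx.1
  have hxb : (x : ℝ) ≤ b := hx.2
  by_cases hxe : (x : ℝ) = b
  · refine ⟨⟨N - 1, by omega⟩, ?_, ?_⟩
    · show (a : ℝ) + ((N - 1 : ℕ) : ℝ) * ((b - a) / N) ≤ x
      rw [Nat.cast_sub hN, hxe]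
      have : (N : ℝ) * ((b - a) / N) = b - a := by field_simp
      push_cast
      nlinarith
    · show (x : ℝ) ≤ a + (((N - 1 : ℕ) : ℝ) + 1) * ((b - a) / N)
      rw [Nat.cast_sub hN, hxe]
      have : (N : ℝ) * ((b - a) / N) = b - a := by field_simp
      push_cast
      nlinarith
  · have hlt : (x : ℝ) < b := lt_of_le_of_ne hxb hxe
    set y : ℝ := ((x : ℝ) - a) / ((b - a) / N) with hy
    have hy0 : 0 ≤ y := div_nonneg (by linarith) hd.le
    have hyN : y < N := by
      rw [hy, div_lt_iff₀ hd]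
      have : (N : ℝ) * ((b - a) / N) = b - a := by field_simp
      linarith
    have hf1 := Nat.floor_le hy0
    have hf2 := Nat.lt_floor_add_one y
    have hxy : (x : ℝ) - a = y * ((b - a) / N) := by rw [hy, div_mul_cancel₀ _ hd.ne']
    refine ⟨⟨⌊y⌋₊, (Nat.floor_lt hy0).2 hyN⟩, ?_, ?_⟩
    · show (a : ℝ) + (⌊y⌋₊ : ℝ) * ((b - a) / N) ≤ x
      nlinarith
    · show (x : ℝ) ≤ a + ((⌊y⌋₊ : ℝ) + 1) * ((b - a) / N)
      nlinarith

theorem farthest (γ : C(unitInterval, ℂ)) {a b : unitInterval} (hab : a < b) {N k : ℕ}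
    (hk : k < N) : ∃ v w : unitInterval, v ∈ piece a b N k ∧ w ∈ piece a b N k ∧ v ≤ w ∧
      Metric.ediam (γ '' piece a b N k) ≤ ENNReal.ofReal (dist (γ v) (γ w)) := by
  obtain ⟨x, -, hx⟩ := piece_ends hab hk
  have hc := piece_compact a b N k
  obtain ⟨z, hz, hmax⟩ := (hc.prod hc).exists_isMaxOn ⟨(x, x), hx, hx⟩
    (f := fun q : unitInterval × unitInterval => dist (γ q.1) (γ q.2)) (by fun_prop)
  have hle : Metric.ediam (γ '' piece a b N k) ≤ ENNReal.ofReal (dist (γ z.1) (γ z.2)) := by
    apply Metric.ediam_le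
    rintro _ ⟨p, hp, rfl⟩ _ ⟨q, hq, rfl⟩
    rw [edist_dist]
    exact ENNReal.ofReal_le_ofReal (hmax (show (p, q) ∈ _ from ⟨hp, hq⟩))
  rcases le_total z.1 z.2 with h | h
  · exact ⟨z.1, z.2, hz.1, hz.2, h, hle⟩
  · exact ⟨z.2, z.1, hz.2, hz.1, h, by rw [dist_comm]; exact hle⟩

theorem partition_ge (γ : C(unitInterval, ℂ)) {a b : unitInterval} (hab : a < b) {q : ℝ}
    (hq : 0 < q) {N : ℕ} (hN : 0 < N) : ∃ u : ℕ → unitInterval, Monotone u ∧
      (∀ i, u i ∈ Set.Icc a b) ∧
      ∑ k : Fin N, Metric.ediam (γ '' piece a b N k) ^ q ≤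
        ENNReal.ofReal (varSum γ (fun x => x ^ q) (2 * N) u) := by
  have hab' : (a : ℝ) < b := hab
  have hN' : (0 : ℝ) < N := by exact_mod_cast hN
  have hd : 0 < ((b : ℝ) - a) / N := div_pos (by linarith) hN'
  choose! v w hv hw hvw hdi using fun k (hk : k < N) => farthest γ hab hk
  let vv : ℕ → unitInterval := fun k => if k < N then v k else b
  let ww : ℕ → unitInterval := fun k => if k < N then w k else b
  let u : ℕ → unitInterval := fun i => if i % 2 = 0 then vv (i / 2) else ww (i / 2)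
  have hvI : ∀ k, vv k ∈ Set.Icc a b := by
    intro k
    by_cases h : k < N
    · simp only [vv, if_pos h]; exact piece_sub hab h (hv k h)
    · simp only [vv, if_neg h]; exact ⟨hab.le, le_rfl⟩
  have hwI : ∀ k, ww k ∈ Set.Icc a b := by
    intro k
    by_cases h : k < N
    · simp only [ww, if_pos h]; exact piece_sub hab h (hw k h)
    · simp only [ww, if_neg h]; exact ⟨hab.le, le_rfl⟩
  have h1 : ∀ k, vv k ≤ ww k := by
    intro k
    by_cases h : k < N
    · simp only [vv, ww, if_pos h]; exact hvw k h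
    · simp only [vv, ww, if_neg h]; exact le_rfl
  have h2 : ∀ k, ww k ≤ vv (k + 1) := by
    intro k
    by_cases h : k + 1 < N
    · have h' : k < N := by omega
      simp only [vv, ww, if_pos h, if_pos h']
      have e1 := (hw k h').2
      have e2 := (hv (k + 1) h).1
      show (w k : ℝ) ≤ v (k + 1)
      push_cast at e2
      linarith
    · simp only [vv, if_neg h]
      exact (hwI k).2
  have hmono : Monotone u := by
    apply monotone_nat_of_le_succ
    intro i
    rcases Nat.even_or_odd' i with ⟨k, rfl | rfl⟩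
    · have e1 : u (2 * k) = vv k := by simp [u]
      have e2 : u (2 * k + 1) = ww k := by
        have : (2 * k + 1) / 2 = k := by omega
        have h3 : (2 * k + 1) % 2 = 1 := by omega
        simp only [u, this, h3]; rfl
      rw [e1, e2]; exact h1 k
    · have e1 : u (2 * k + 1) = ww k := by
        have : (2 * k + 1) / 2 = k := by omega
        have h3 : (2 * k + 1) % 2 = 1 := by omega
        simp only [u, this, h3]; rfl
      have e2 : u (2 * k + 1 + 1) = vv (k + 1) := by
        have : (2 * k + 1 + 1) / 2 = k + 1 := by omega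
        have h3 : (2 * k + 1 + 1) % 2 = 0 := by omega
        simp only [u, this, h3]; rfl
      rw [e1, e2]; exact h2 k
  refine ⟨u, hmono, ?_, ?_⟩
  · intro i
    by_cases h : i % 2 = 0
    · simp only [u, if_pos h]; exact hvI _
    · simp only [u, if_neg h]; exact hwI _
  · have e1 : ∀ k, u (2 * k) = vv k := fun k => by simp [u]
    have e2 : ∀ k, u (2 * k + 1) = ww k := fun k => by
      have : (2 * k + 1) / 2 = k := by omega
      have h3 : (2 * k + 1) % 2 = 1 := by omega
      simp only [u, this, h3]; rfl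
    have h3 : ∑ k ∈ Finset.range N, dist (γ (vv k)) (γ (ww k)) ^ q ≤
        varSum γ (fun x => x ^ q) (2 * N) u := by
      have := even_sum_le (fun i => dist (γ (u i)) (γ (u (i + 1))) ^ q)
        (fun i => by positivity) N
      simp only [e1, e2] at this
      exact this
    refine le_trans ?_ (ENNReal.ofReal_le_ofReal h3)
    rw [ENNReal.ofReal_sum_of_nonneg (fun _ _ => by positivity), Finset.sum_range]
    apply Finset.sum_le_sum
    intro k _
    have hk := k.2
    simp only [vv, ww, if_pos hk]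
    rw [← ENNReal.ofReal_rpow_of_nonneg dist_nonneg hq.le]
    exact ENNReal.rpow_le_rpow (hdi k hk) hq.le

/-- A subarc of dimension larger than `q` has infinite `q`-variation. -/
theorem inf_var (γ : C(unitInterval, ℂ)) {a b : unitInterval} (hab : a < b) {q : ℝ}
    (hq : 0 < q) (hd : ENNReal.ofReal q < dimH (γ '' Set.Icc a b)) (M : ℝ) :
    ∃ (n : ℕ) (u : ℕ → unitInterval), Monotone u ∧ (∀ i, u i ∈ Set.Icc a b) ∧
      M ≤ varSum γ (fun x => x ^ q) n u := by
  by_contra hcon
  push Not at hcon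
  have h1 : μH[q] (γ '' Set.Icc a b) ≤ ENNReal.ofReal M := by
    let r : ℕ → ℝ≥0∞ := fun N => ⨆ k : Fin N, Metric.ediam (γ '' piece a b N k)
    have hr : Tendsto r atTop (𝓝 0) := by
      rw [ENNReal.tendsto_atTop_zero]
      intro ε hε
      have huc := CompactSpace.uniformContinuous_of_continuous γ.continuous
      obtain ⟨δ, hδ, hδ'⟩ := EMetric.uniformContinuous_iff.1 huc ε hε
      obtain ⟨n0, hn0⟩ : ∃ n0 : ℕ, ENNReal.ofReal (1 / (n0 + 1 : ℕ)) < δ := by
        have ht : Tendsto (fun n : ℕ => ENNReal.ofReal (1 / (n + 1 : ℕ))) atTop (𝓝 0) := by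
          have := tendsto_one_div_add_atTop_nhds_zero_nat (𝕜 := ℝ)
          have h2 := ENNReal.tendsto_ofReal this
          rw [ENNReal.ofReal_zero] at h2
          refine h2.congr fun n => ?_
          push_cast; rfl
        exact (ht.eventually (gt_mem_nhds hδ)).exists
      refine ⟨n0 + 1, fun N hN => iSup_le fun k => Metric.ediam_le ?_⟩
      rintro _ ⟨x, hx, rfl⟩ _ ⟨y, hy, rfl⟩
      refine (hδ' ?_).le
      refine lt_of_le_of_lt ?_ hn0
      rw [edist_dist]
      apply ENNReal.ofReal_le_ofReal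
      have hN' : (0 : ℝ) < N := by exact_mod_cast (by omega : 0 < N)
      have hab' : (a : ℝ) < b := hab
      have hd1 : |(x : ℝ) - y| ≤ ((b : ℝ) - a) / N := by
        obtain ⟨x1, x2⟩ := hx
        obtain ⟨y1, y2⟩ := hy
        rw [abs_le]
        constructor <;> nlinarith
      have hd2 : ((b : ℝ) - a) / N ≤ 1 / (n0 + 1 : ℕ) := by
        have ha := a.2.1
        have hb := b.2.2
        have : ((n0 + 1 : ℕ) : ℝ) ≤ N := by exact_mod_cast hN
        apply div_le_div₀ (by norm_num) (by linarith) (by positivity) this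
      rw [Subtype.dist_eq, Real.dist_eq]
      exact hd1.trans hd2
    have hm := Measure.hausdorffMeasure_le_liminf_sum (ι := fun N : ℕ => Fin N) q
      (γ '' Set.Icc a b) (l := atTop) r hr
      (fun N k => γ '' piece a b N k)
      (Eventually.of_forall fun N k => le_iSup (fun k : Fin N => Metric.ediam (γ '' piece a b N k)) k)
      ((eventually_gt_atTop 0).mono fun N hN => by
        rintro _ ⟨x, hx, rfl⟩
        obtain ⟨k, hk⟩ := cover hab hN hx
        exact Set.mem_iUnion.2 ⟨k, x, hk, rfl⟩)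
    refine hm.trans (liminf_le_of_frequently_le' ?_)
    apply Eventually.frequently
    filter_upwards [eventually_gt_atTop 0] with N hN
    obtain ⟨u, hu1, hu2, hu3⟩ := partition_ge γ hab hq hN
    exact hu3.trans (ENNReal.ofReal_le_ofReal (hcon _ u hu1 hu2).le)
  have h2 : μH[((q.toNNReal : NNReal) : ℝ)] (γ '' Set.Icc a b) = ∞ := by
    apply hausdorffMeasure_of_lt_dimH
    exact hd
  rw [Real.coe_toNNReal q hq.le] at h2
  rw [h2] at h1
  exact absurd h1 (by simp)

end Q294.PVar
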