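import Pool.Agent.TH966.AK.Conv

set_option autoImplicit false

/-! Kesten's inequality for systems with local moves, uniformly in the system. -/

namespace Q294.Rs

open Finset Filter Topology TH966.AK
open scoped Classical

variable {α σ : Type}

/-- few upward moves and many downward moves are rare -/
theorem few (Y : Sys α σ) (M0 k M : ℕ) (hM0 : 1 ≤ M0)
    (hk : k = 5 * Y.C + 4 + 2 * Y.s + 2 * Y.n0 + 1) (hM : M = M0 * k) {ν C1 : ℝ} (hν : 1 ≤ ν)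
    (hC1 : 0 ≤ C1) (hc : ∀ n, ((Y.K n).card : ℝ) ≤ C1 * ν ^ n) (n : ℕ) (D : Finset α)
    (hDK : D ⊆ Y.K n) (hD : ∀ w ∈ D, M * (Y.S w).card ≤ n ∧ ¬ M0 * (Y.B w).card ≤ n) :
    (D.card : ℝ) ≤ C1 * ν ^ n * (1 / 4) ^ (n / M) := by
  have hkM : k ≤ M := by rw [hM]; exact Nat.le_mul_of_pos_left _ hM0
  have hM1 : 1 ≤ M := by omega
  obtain ⟨j, hj⟩ : ∃ j, j = n / M := ⟨_, rfl⟩
  rw [← hj]
  have hjn : M * j ≤ n := by rw [hj]; exact Nat.mul_div_le n M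
  rcases Nat.eq_zero_or_pos j with h0 | h0
  · rw [h0, pow_zero, mul_one]
    refine le_trans ?_ (hc n)
    exact_mod_cast card_le_card hDK
  · have hkj : k * j ≤ n := (Nat.mul_le_mul_right j hkM).trans hjn
    have hsj : Y.s * j + Y.n0 ≤ n := by
      have h1 : (2 * Y.s + 2 * Y.n0) * j ≤ k * j := Nat.mul_le_mul_right j (by omega)
      have h2 : Y.n0 ≤ Y.n0 * j := Nat.le_mul_of_pos_right _ h0
      nlinarith
    have hβ : k * j ≤ n / M0 := by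
      rw [Nat.le_div_iff_mul_le (by omega)]
      calc k * j * M0 = M0 * k * j := by ring
        _ ≤ n := by rw [← hM]; exact hjn
    have h1 := Y.down ((1 + Y.C) * j) (4 * ((1 + Y.C) * j)) j (n - Y.s * j) (n / M0) j D
      (by omega) (by
        refine le_trans ?_ hβ
        rw [hk]
        nlinarith) (by nlinarith) (by
        rw [Nat.sub_add_cancel (by omega)]; exact hDK) (by
        intro w hw
        obtain ⟨h2, h3⟩ := hD w hw
        constructor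
        · have h4 : n < M0 * (Y.B w).card := not_le.1 h3
          have h5 := Nat.div_mul_le_self n M0
          by_contra hcon
          have h6 : (Y.B w).card + 1 ≤ n / M0 := by omega
          have h7 : M0 * ((Y.B w).card + 1) ≤ M0 * (n / M0) := Nat.mul_le_mul_left _ h6
          nlinarith
        · rw [hj, Nat.le_div_iff_mul_le (by omega), mul_comm]
          exact h2)
    have hpos : 0 < ((1 + Y.C) * j) ^ j := by positivity
    have h2 : D.card * 4 ^ j ≤ (Y.K (n - Y.s * j)).card := by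
      refine Nat.le_of_mul_le_mul_right ?_ hpos
      calc D.card * 4 ^ j * ((1 + Y.C) * j) ^ j = D.card * (4 * ((1 + Y.C) * j)) ^ j := by
            rw [mul_pow 4]; ring
        _ ≤ _ := h1
    have h2' : (D.card : ℝ) * 4 ^ j ≤ ((Y.K (n - Y.s * j)).card : ℝ) := by exact_mod_cast h2
    have h8 := hc (n - Y.s * j)
    have h9 : C1 * ν ^ (n - Y.s * j) ≤ C1 * ν ^ n := by
      apply mul_le_mul_of_nonneg_left _ hC1
      exact pow_le_pow_right₀ hν (Nat.sub_le _ _)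
    have h10 : (D.card : ℝ) * 4 ^ j ≤ (C1 * ν ^ n * (1 / 4) ^ j) * 4 ^ j := by
      refine le_trans h2' (le_trans h8 (le_trans h9 (le_of_eq ?_)))
      rw [mul_assoc (C1 * ν ^ n), ← mul_pow]
      norm_num
    exact le_of_mul_le_mul_right h10 (by positivity)

/-- the same with an exponential rate -/
theorem few_exp (C s n0 M0 : ℕ) (hM0 : 1 ≤ M0) {μ : ℝ} (hμ : 1 ≤ μ) {u : ℕ → ℝ}
    (hup : ∀ τ : ℝ, 0 < τ → ∃ C1 : ℝ, ∀ n : ℕ, u n ≤ C1 * ((1 + τ) * μ) ^ n) :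
    ∃ (M : ℕ) (θ C' : ℝ), M0 ≤ M ∧ 0 < θ ∧ θ < 1 ∧ 0 ≤ C' ∧ ∀ Y : Sys α σ, Y.C = C → Y.s = s →
      Y.n0 = n0 → (∀ n, ((Y.K n).card : ℝ) ≤ u n) → ∀ (n : ℕ) (D : Finset α), D ⊆ Y.K n →
      (∀ w ∈ D, M * (Y.S w).card ≤ n ∧ ¬ M0 * (Y.B w).card ≤ n) →
      (D.card : ℝ) ≤ C' * (θ * μ) ^ n := by
  obtain ⟨k, hk⟩ : ∃ k, k = 5 * C + 4 + 2 * s + 2 * n0 + 1 := ⟨_, rfl⟩
  obtain ⟨M, hM⟩ : ∃ M, M = M0 * k := ⟨_, rfl⟩
  have hkM : k ≤ M := by rw [hM]; exact Nat.le_mul_of_pos_left _ hM0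
  have hM1 : 1 ≤ M := by omega
  have hM0M : M0 ≤ M := by rw [hM]; exact Nat.le_mul_of_pos_right _ (by omega)
  obtain ⟨τ, hτ⟩ : ∃ τ : ℝ, τ = 1 / (2 * M) := ⟨_, rfl⟩
  obtain ⟨θ₁, hθ₁⟩ : ∃ θ₁ : ℝ, θ₁ = 1 - 1 / (2 * M) := ⟨_, rfl⟩
  have hM' : (1 : ℝ) ≤ M := by exact_mod_cast hM1
  have hτ0 : 0 < τ := by rw [hτ]; positivity
  have hθ2 : 1 / (2 * (M : ℝ)) ≤ 1 / 2 := by
    rw [div_le_div_iff₀ (by positivity) (by norm_num)]; linarith
  have hθ0 : 0 < θ₁ := by rw [hθ₁]; linarith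
  have hθ1 : θ₁ < 1 := by
    rw [hθ₁]
    have : 0 < 1 / (2 * (M : ℝ)) := by positivity
    linarith
  obtain ⟨C1, hC1⟩ := hup τ hτ0
  have hMμ : 1 ≤ (1 + τ) * μ := by nlinarith
  refine ⟨M, θ₁, 4 * |C1|, hM0M, hθ0, hθ1, by positivity, ?_⟩
  intro Y hYC hYs hYn hYu n D hDK hD
  have h1 := few Y M0 k M hM0 (by rw [hYC, hYs, hYn, hk]) hM hMμ (abs_nonneg C1)
    (fun n => (hYu n).trans ((hC1 n).trans
      (mul_le_mul_of_nonneg_right (le_abs_self _) (by positivity)))) n D hDK hD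
  have h2 := Sys.expo hM1 hτ hθ₁ n
  calc (D.card : ℝ) ≤ |C1| * ((1 + τ) * μ) ^ n * (1 / 4) ^ (n / M) := h1
    _ = |C1| * μ ^ n * ((1 + τ) ^ n * (1 / 4 : ℝ) ^ (n / M)) := by rw [mul_pow]; ring
    _ ≤ |C1| * μ ^ n * (4 * θ₁ ^ n) := by
        apply mul_le_mul_of_nonneg_left _ (by positivity)
        exact h2
    _ = 4 * |C1| * (θ₁ * μ) ^ n := by rw [mul_pow]; ring

/-- the pattern theorem, uniformly in the system -/
theorem patternU (C s n0 M0 : ℕ) (hM0 : 1 ≤ M0) {μ ρ C0 : ℝ} (hμ : 1 ≤ μ) (hρ0 : 0 ≤ ρ)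
    (hρ : ρ < μ) {u : ℕ → ℝ}
    (hup : ∀ τ : ℝ, 0 < τ → ∃ C1 : ℝ, ∀ n : ℕ, u n ≤ C1 * ((1 + τ) * μ) ^ n) :
    ∃ (M : ℕ) (θ C' : ℝ), 1 ≤ M ∧ 0 < θ ∧ θ < 1 ∧ 0 ≤ C' ∧ ∀ Y : Sys α σ, Y.C = C → Y.s = s →
      Y.n0 = n0 → (∀ n, ((Y.K n).card : ℝ) ≤ u n) →
      (∀ n : ℕ, (((Y.K n).filter (fun w => M0 * (Y.B w).card ≤ n)).card : ℝ) ≤ C0 * ρ ^ n) →
      ∀ n : ℕ, ((Y.bad M n).card : ℝ) ≤ C' * (θ * μ) ^ n := by
  obtain ⟨M, θ₁, C1, hM, hθ0, hθ1, hC1, h⟩ := few_exp (α := α) (σ := σ) C s n0 M0 hM0 hμ hup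
  have hμ0 : 0 < μ := by linarith
  have hθρ : ρ / μ < 1 := by rw [div_lt_one hμ0]; exact hρ
  refine ⟨M, max θ₁ (ρ / μ), |C0| + C1, hM0.trans hM, lt_max_of_lt_left hθ0, max_lt hθ1 hθρ,
    by positivity, ?_⟩
  intro Y hYC hYs hYn hYu hP n
  obtain ⟨θ, hθ⟩ : ∃ θ, θ = max θ₁ (ρ / μ) := ⟨_, rfl⟩
  rw [← hθ]
  have hθ0 : 0 < θ := by rw [hθ]; exact lt_max_of_lt_left hθ0
  have hcov : Y.bad M n ⊆ (Y.K n).filter (fun w => M0 * (Y.B w).card ≤ n) ∪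
      (Y.K n).filter (fun w => M * (Y.S w).card ≤ n ∧ ¬ M0 * (Y.B w).card ≤ n) := by
    intro w hw
    unfold Sys.bad at hw
    rw [mem_filter] at hw
    simp only [mem_union, mem_filter]
    obtain ⟨h1, h2⟩ := hw
    by_cases h3 : M0 * (Y.B w).card ≤ n
    · exact Or.inl ⟨h1, h3⟩
    · refine Or.inr ⟨h1, ?_, h3⟩
      rcases h2 with h2 | h2
      · exact h2
      · exact absurd ((Nat.mul_le_mul_right _ hM).trans h2) h3
  have hcard : ((Y.bad M n).card : ℝ) ≤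
      (((Y.K n).filter (fun w => M0 * (Y.B w).card ≤ n)).card : ℝ) +
      (((Y.K n).filter (fun w => M * (Y.S w).card ≤ n ∧ ¬ M0 * (Y.B w).card ≤ n)).card : ℝ) := by
    exact_mod_cast (card_le_card hcov).trans (card_union_le _ _)
  have hX : C1 * (θ₁ * μ) ^ n ≤ C1 * (θ * μ) ^ n := by
    apply mul_le_mul_of_nonneg_left _ hC1
    apply pow_le_pow_left₀ (by positivity)
    apply mul_le_mul_of_nonneg_right _ hμ0.le
    rw [hθ]; exact le_max_left _ _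
  have hY : ρ ^ n ≤ (θ * μ) ^ n := by
    apply pow_le_pow_left₀ hρ0
    have h1 : ρ / μ ≤ θ := by rw [hθ]; exact le_max_right _ _
    rwa [div_le_iff₀ hμ0] at h1
  have hZ : C0 * ρ ^ n ≤ |C0| * (θ * μ) ^ n :=
    (mul_le_mul_of_nonneg_right (le_abs_self C0) (by positivity)).trans
      (mul_le_mul_of_nonneg_left hY (abs_nonneg _))
  have q1 := hP n
  have q2 := h Y hYC hYs hYn hYu n _ (filter_subset
    (fun w => M * (Y.S w).card ≤ n ∧ ¬ M0 * (Y.B w).card ≤ n) (Y.K n))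
    (fun w hw => (mem_filter.1 hw).2)
  calc ((Y.bad M n).card : ℝ) ≤ _ := hcard
    _ ≤ |C0| * (θ * μ) ^ n + C1 * (θ * μ) ^ n :=
        add_le_add (q1.trans hZ) (q2.trans hX)
    _ = (|C0| + C1) * (θ * μ) ^ n := by ring

theorem errorsU (C s : ℕ) (μ θ θ₁ C' : ℝ) (hμ : 0 < μ) (hθ : 0 < θ) (hθ₁ : θ < θ₁) :
    ∀ᶠ n : ℕ in atTop, (n : ℝ) * (C' * (θ * μ) ^ (n + s) +
      C * (n + 1) * (C' * (θ * μ) ^ n)) ≤ (θ₁ * μ) ^ (n + s) := by
  have hθ1' : 0 < θ₁ := hθ.trans hθ₁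
  obtain ⟨r, hr⟩ : ∃ r : ℝ, r = θ / θ₁ := ⟨_, rfl⟩
  have hr0 : 0 ≤ r := by rw [hr]; positivity
  have hr1 : r < 1 := by rw [hr, div_lt_one hθ1']; exact hθ₁
  have t1 := tendsto_pow_const_mul_const_pow_of_lt_one 1 hr0 hr1
  have t2 := tendsto_pow_const_mul_const_pow_of_lt_one 2 hr0 hr1
  have t3 : Tendsto (fun n : ℕ => (C' * r ^ s + C * C' / (θ₁ * μ) ^ s) *
      ((n : ℝ) ^ 1 * r ^ n) +
      (C * C' / (θ₁ * μ) ^ s) * ((n : ℝ) ^ 2 * r ^ n)) atTop (𝓝 0) := by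
    have := (t1.const_mul (C' * r ^ s + C * C' / (θ₁ * μ) ^ s)).add
      (t2.const_mul (C * C' / (θ₁ * μ) ^ s))
    simpa using this
  filter_upwards [t3.eventually_le_const (show (0 : ℝ) < 1 by norm_num)] with n hn
  have hp : 0 < (θ₁ * μ) ^ (n + s) := by positivity
  have hrn : ∀ m, (θ * μ) ^ m = r ^ m * (θ₁ * μ) ^ m := by
    intro m
    rw [hr, ← mul_pow]; congr 1; field_simp
  have e : (n : ℝ) * (C' * (θ * μ) ^ (n + s) + C * (n + 1) * (C' * (θ * μ) ^ n)) =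
      ((C' * r ^ s + C * C' / (θ₁ * μ) ^ s) * ((n : ℝ) ^ 1 * r ^ n) +
      (C * C' / (θ₁ * μ) ^ s) * ((n : ℝ) ^ 2 * r ^ n)) * (θ₁ * μ) ^ (n + s) := by
    rw [hrn, hrn, pow_add, pow_add]
    have : (θ₁ * μ) ^ s ≠ 0 := by positivity
    field_simp
    ring
  rw [e]
  calc _ ≤ 1 * (θ₁ * μ) ^ (n + s) := mul_le_mul_of_nonneg_right hn hp.le
    _ = _ := one_mul _

/-- approximate logarithmic convexity, uniformly in the system and in the weight -/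
theorem convexU (C s n0 M : ℕ) (hM : 1 ≤ M) (μ θ θ₁ C' : ℝ) (hμ : 0 < μ) (hθ : 0 < θ)
    (hθ₁ : θ < θ₁) :
    ∀ᶠ n : ℕ in atTop, ∀ Y : Sys α σ, Y.C = C → Y.s = s → Y.n0 = n0 →
    ∀ f : α → ℝ, Y.Wt f → (∀ n : ℕ, Y.badf f M n ≤ C' * (θ * μ) ^ n) →
    (θ₁ * μ) ^ (n + s) ≤ Y.af f (n + s) →
    Y.af f (n + s) ^ 2 ≤ Y.af f n * Y.af f (n + s + s) *
      (1 + (8 * (6 * C * M + 1)) / n) := by
  filter_upwards [errorsU C s μ θ θ₁ C' hμ hθ hθ₁, eventually_ge_atTop n0,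
    eventually_ge_atTop (4 * M * C), eventually_ge_atTop (10 * (6 * C * M + 1))]
    with n hk1 hn1 hn2 hn3 Y hYC hYs hYn f hf hbad hbig
  subst hYC
  subst hYs
  subst hYn
  have hC : (1 : ℝ) ≤ Y.C := by exact_mod_cast Y.hC
  have hM' : (1 : ℝ) ≤ M := by exact_mod_cast hM
  have hn3' : (10 * (6 * Y.C * M + 1) : ℝ) ≤ n := by exact_mod_cast hn3
  have hn2' : (4 * M * Y.C : ℝ) ≤ n := by exact_mod_cast hn2
  have hn0 : (0 : ℝ) < n := by nlinarith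
  have up := Y.upperW hf M n hn1 hn2
  have lo := Y.lowerW hf M n hn1 hn2
  have hpos : ∀ m, 0 ≤ Y.af f m := fun m => sum_nonneg fun w hw => hf.1 m w hw
  set G := (Y.K n).filter (Y.good M n) with hG
  have hf0 : ∀ w ∈ G, 0 ≤ f w := fun w hw => hf.1 n w (mem_filter.1 hw).1
  set S1 : ℝ := ∑ w ∈ G, f w * (((Y.S w).card : ℝ) / ((Y.B w).card : ℝ)) with hS1
  set S2 : ℝ := ∑ w ∈ G, f w * (((Y.S w).card : ℝ) / ((Y.B w).card : ℝ)) ^ 2 with hS2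
  have hgood : ∀ w ∈ G, ((n : ℝ) < M * (Y.S w).card ∧ (n : ℝ) < M * (Y.B w).card) ∧
      (4 * Y.C : ℝ) < (Y.S w).card ∧ (4 * Y.C : ℝ) < (Y.B w).card := by
    intro w hw
    have := (mem_filter.mp hw).2
    exact ⟨⟨by exact_mod_cast this.1, by exact_mod_cast this.2⟩,
      by exact_mod_cast Y.big hn2 this.1, by exact_mod_cast Y.big hn2 this.2⟩
  have hS2' : 0 ≤ S2 := by
    apply sum_nonneg; intro w hw
    exact mul_nonneg (hf0 w hw) (by positivity)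
  have hcs : S1 ^ 2 ≤ Y.af f n * S2 := by
    have h1 : S1 ^ 2 ≤ (∑ w ∈ G, f w) * S2 := by
      have h2 := Finset.sum_mul_sq_le_sq_mul_sq G (fun w => √(f w))
        (fun w => √(f w) * (((Y.S w).card : ℝ) / ((Y.B w).card : ℝ)))
      have e1 : ∑ w ∈ G, √(f w) * (√(f w) * (((Y.S w).card : ℝ) / ((Y.B w).card : ℝ))) =
          S1 := by
        rw [hS1]
        refine Finset.sum_congr rfl fun w hw => ?_
        rw [← mul_assoc, Real.mul_self_sqrt (hf0 w hw)]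
      have e2 : ∑ w ∈ G, √(f w) ^ 2 = ∑ w ∈ G, f w :=
        Finset.sum_congr rfl fun w hw => Real.sq_sqrt (hf0 w hw)
      have e3 : ∑ w ∈ G, (√(f w) * (((Y.S w).card : ℝ) / ((Y.B w).card : ℝ))) ^ 2 = S2 := by
        rw [hS2]
        refine Finset.sum_congr rfl fun w hw => ?_
        rw [mul_pow, Real.sq_sqrt (hf0 w hw)]
      rw [e1, e2, e3] at h2
      exact h2
    refine h1.trans ?_
    apply mul_le_mul_of_nonneg_right _ hS2'
    exact sum_le_sum_of_subset_of_nonneg (filter_subset _ _)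
      fun w hw _ => hf.1 n w hw
  have u1 : Y.af f (n + Y.s) - (Y.badf f M (n + Y.s) + Y.C * (n + 1) * Y.badf f M n) ≤
      (1 + 2 * Y.C * M / n) * S1 := by
    have : ∑ w ∈ G, f w * (((Y.S w).card : ℝ) / (((Y.B w).card : ℝ) - Y.C)) ≤
        (1 + 2 * Y.C * M / n) * S1 := by
      rw [hS1, mul_sum]
      apply sum_le_sum
      intro w hw
      have hg := hgood w hw
      have h3 := Sys.term1 ((Y.S w).card : ℝ) ((Y.B w).card : ℝ) Y.C M n hC hn0 (by positivity)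
        hg.1.2 hg.2.2
      calc f w * (((Y.S w).card : ℝ) / (((Y.B w).card : ℝ) - Y.C)) ≤
            f w * ((1 + 2 * Y.C * M / n) * (((Y.S w).card : ℝ) / ((Y.B w).card : ℝ))) :=
            mul_le_mul_of_nonneg_left h3 (hf0 w hw)
        _ = _ := by ring
    linarith
  have u2 : (1 - 4 * Y.C * M / n) * S2 ≤ Y.af f (n + Y.s + Y.s) := by
    refine le_trans ?_ lo
    rw [hS2, mul_sum]
    apply sum_le_sum
    intro w hw
    have hg := hgood w hw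
    have h3 := Sys.term2 ((Y.S w).card : ℝ) ((Y.B w).card : ℝ) Y.C M n hC hM' hn2'
      hg.1.1 hg.1.2 hg.2.1 hg.2.2
    calc (1 - 4 * Y.C * M / (n : ℝ)) *
          (f w * (((Y.S w).card : ℝ) / ((Y.B w).card : ℝ)) ^ 2) =
          f w * ((1 - 4 * Y.C * M / n) * (((Y.S w).card : ℝ) / ((Y.B w).card : ℝ)) ^ 2) := by
            ring
      _ ≤ _ := mul_le_mul_of_nonneg_left h3 (hf0 w hw)
  have u3 : (Y.badf f M (n + Y.s) + Y.C * (n + 1) * Y.badf f M n : ℝ) ≤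
      Y.af f (n + Y.s) * (1 / n) := by
    rw [mul_one_div, le_div_iff₀ hn0]
    have b1 := hbad (n + Y.s)
    have b2 := hbad n
    calc (Y.badf f M (n + Y.s) + Y.C * (n + 1) * Y.badf f M n : ℝ) * n
        ≤ (C' * (θ * μ) ^ (n + Y.s) + Y.C * (n + 1) * (C' * (θ * μ) ^ n)) * n := by
          apply mul_le_mul_of_nonneg_right _ hn0.le
          apply add_le_add b1
          exact mul_le_mul_of_nonneg_left b2 (by positivity)
      _ = n * (C' * (θ * μ) ^ (n + Y.s) + Y.C * (n + 1) * (C' * (θ * μ) ^ n)) := mul_comm _ _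
      _ ≤ (θ₁ * μ) ^ (n + Y.s) := hk1
      _ ≤ _ := hbig
  have hfin := Sys.fin_ineq (Y.af f n) (Y.af f (n + Y.s)) (Y.af f (n + Y.s + Y.s))
    (Y.badf f M (n + Y.s) + Y.C * (n + 1) * Y.badf f M n) S1 S2 (2 * Y.C * M / n)
    (4 * Y.C * M / n) (1 / n) (hpos _) (hpos _) hcs (by positivity) (by positivity)
    (by positivity) (by
      have e : 2 * (Y.C : ℝ) * M / n + 4 * Y.C * M / n + 1 / n = (6 * Y.C * M + 1) / n := by
        ring
      rw [e, div_le_div_iff₀ hn0 (by norm_num)]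
      linarith) u1 u3 u2 (hpos _)
  have e : 1 + 8 * (2 * (Y.C : ℝ) * M / n + 4 * Y.C * M / n + 1 / n) =
      1 + (8 * (6 * Y.C * M + 1)) / n := by ring
  rw [e] at hfin
  exact hfin

end Q294.Rs
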