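import Pool.Agent.Q294.Rs1
import Pool.Agent.TH966.AK.Weight

set_option autoImplicit false

/-! Kesten's inequality for restricted walks, uniformly in the restriction. -/

namespace Q294.Rs

open Finset Filter Topology TH966.AK
open scoped Classical

variable {A : P → P → Prop} (Z : Rule A)

/-- restricted moves -/
structure Sub where
  K : ℕ → Finset (List P)
  Q : P → List P × List P → Prop
  sub : ∀ n, K n ⊆ Kw A n
  up : ∀ n w q, w ∈ K n → q ∈ Z.S w → Q (lst w) q → Rule.rep w q.1 q.2 ∈ K (n + Z.s)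
  dn : ∀ n w q, w ∈ K (n + Z.s) → q ∈ Z.B w → Q (lst w) q → Rule.rep w q.2 q.1 ∈ K n

variable {Z}

/-- the last point does not change under a replacement -/
theorem lst_rep {U U' w : List P} (h : Pair A U U') (hw : Walk A w) (hf : Free U U' w) :
    lst (Rule.rep w U U') = lst w := by
  obtain ⟨L, R, h1, h2, -⟩ := Rule.rep_all h hw hf
  rw [h2, h1, lst_append _ _ _ (Rule.ne_nil h), lst_append _ _ _ (Rule.ne_nil h.symm),
    lst_pair h]

theorem lst_ins {n : ℕ} {w : List P} {q : List P × List P} (hw : w ∈ Kw A n) (hq : q ∈ Z.S w) :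
    lst (Rule.rep w q.1 q.2) = lst w := by
  rw [Z.mem_K] at hw
  rw [Rule.mem_S] at hq
  exact lst_rep (Z.pair _ _ hq.1) hw.2 hq.2

theorem lst_rem {n : ℕ} {w : List P} {q : List P × List P} (hw : w ∈ Kw A n) (hq : q ∈ Z.B w) :
    lst (Rule.rep w q.2 q.1) = lst w := by
  rw [Z.mem_K] at hw
  rw [Rule.mem_B] at hq
  exact lst_rep (Z.pair _ _ hq.1).symm hw.2 hq.2

theorem card_filter_diff {S1 S2 N : Finset (List P × List P)} {C : ℕ}
    (p : List P × List P → Prop) (h : ∀ q ∈ S1, q ∉ S2 → q ∈ N) (hN : N.card ≤ C) :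
    (S1.filter p).card ≤ (S2.filter p).card + C := by
  refine Rule.card_le_of_diff (N := N) ?_ hN
  intro q hq hq'
  rw [mem_filter] at hq
  refine h q hq.1 fun hc => hq' ?_
  rw [mem_filter]
  exact ⟨hc, hq.2⟩

/-- the change of the numbers of moves, as sets -/
theorem change_mem {U U' L R : List P} (hT : Z.T U U' ∨ Z.T U' U) (h : Pair A U U') :
    ∃ N : Finset (List P × List P), N.card ≤ Z.CC ∧
      (∀ q ∈ Z.S (L ++ U ++ R), q ∉ Z.S (L ++ U' ++ R) → q ∈ N) ∧
      (∀ q ∈ Z.B (L ++ U ++ R), q ∉ Z.B (L ++ U' ++ R) → q ∈ N) := by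
  obtain ⟨p, U0, h3⟩ := List.exists_cons_of_ne_nil (Rule.ne_nil h)
  have hnear : ∀ V V', Z.T V V' → ∀ x ∈ U ++ U', x ∈ V ++ V' → (V, V') ∈ Z.near p := by
    intro V V' hV x hx hx'
    rcases hT with hT | hT
    · exact Z.mem_near hT hV (by rw [h3]; simp) hx hx'
    · refine Z.mem_near hT hV (by rw [h3]; simp) ?_ hx'
      rw [List.mem_append] at hx ⊢
      exact hx.symm
  refine ⟨Z.near p, Z.card_near p, ?_, ?_⟩
  · rintro ⟨V, V'⟩ hq hq'
    rw [Rule.mem_S] at hq hq'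
    by_contra hcon
    refine hq' ⟨hq.1, keep h (Rule.ne_nil (Z.pair _ _ hq.1)) hq.2 fun x hx hc => ?_⟩
    exact hcon (hnear V V' hq.1 x hx hc)
  · rintro ⟨V, V'⟩ hq hq'
    rw [Rule.mem_B] at hq hq'
    by_contra hcon
    refine hq' ⟨hq.1, keep h (Rule.ne_nil (Z.pair _ _ hq.1).symm) hq.2 fun x hx hc => ?_⟩
    refine hcon (hnear V V' hq.1 x hx ?_)
    rw [List.mem_append] at hc ⊢
    exact hc.symm

/-- the four inequalities -/
theorem changes {n : ℕ} {w : List P} {q : List P × List P} (p : List P × List P → Prop)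
    (hw : w ∈ Kw A n) (hq : q ∈ Z.S w) :
    ((Z.S w).filter p).card ≤ ((Z.S (Rule.rep w q.1 q.2)).filter p).card + Z.CC ∧
    ((Z.S (Rule.rep w q.1 q.2)).filter p).card ≤ ((Z.S w).filter p).card + Z.CC ∧
    ((Z.B w).filter p).card ≤ ((Z.B (Rule.rep w q.1 q.2)).filter p).card + Z.CC ∧
    ((Z.B (Rule.rep w q.1 q.2)).filter p).card ≤ ((Z.B w).filter p).card + Z.CC := by
  obtain ⟨U, U'⟩ := q
  rw [Z.mem_K] at hw
  rw [Rule.mem_S] at hq
  obtain ⟨L, R, h1, h2, -⟩ := Rule.rep_all (Z.pair _ _ hq.1) hw.2 hq.2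
  simp only at h1 h2 ⊢
  rw [h2, h1]
  obtain ⟨N, hN, a1, a2⟩ := change_mem (L := L) (R := R) (Or.inl hq.1) (Z.pair _ _ hq.1)
  obtain ⟨N', hN', b1, b2⟩ := change_mem (L := L) (R := R) (Or.inr hq.1) (Z.pair _ _ hq.1).symm
  exact ⟨card_filter_diff p a1 hN, card_filter_diff p b1 hN', card_filter_diff p a2 hN,
    card_filter_diff p b2 hN'⟩

noncomputable section

/-- the system of the restricted moves -/
def Sub.sys (X : Sub Z) : Sys (List P) (List P × List P) where
  K := X.K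
  S w := (Z.S w).filter (X.Q (lst w))
  B w := (Z.B w).filter (X.Q (lst w))
  ins w q := Rule.rep w q.1 q.2
  rem w q := Rule.rep w q.2 q.1
  s := Z.s
  C := Z.CC
  n0 := 0
  hC := Z.sys.hC
  ins_K := by
    intro n w q hw hq
    rw [mem_filter] at hq
    exact X.up n w q hw hq.1 hq.2
  ins_B := by
    intro n w q hw hq
    rw [mem_filter] at hq ⊢
    refine ⟨Z.sys.ins_B n w q (X.sub n hw) hq.1, ?_⟩
    rw [lst_ins (X.sub n hw) hq.1]
    exact hq.2
  rem_ins := by
    intro n w q hw hq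
    rw [mem_filter] at hq
    exact Z.sys.rem_ins n w q (X.sub n hw) hq.1
  rem_K := by
    intro n w q _ hw hq
    rw [mem_filter] at hq
    exact X.dn n w q hw hq.1 hq.2
  rem_S := by
    intro n w q _ hw hq
    rw [mem_filter] at hq ⊢
    refine ⟨Z.sys.rem_S n w q (Nat.zero_le _) (X.sub _ hw) hq.1, ?_⟩
    rw [lst_rem (X.sub _ hw) hq.1]
    exact hq.2
  ins_rem := by
    intro n w q _ hw hq
    rw [mem_filter] at hq
    exact Z.sys.ins_rem n w q (Nat.zero_le _) (X.sub _ hw) hq.1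
  chS1 := by
    intro n w q hw hq
    rw [mem_filter] at hq
    rw [lst_ins (X.sub n hw) hq.1]
    exact (changes _ (X.sub n hw) hq.1).1
  chS2 := by
    intro n w q hw hq
    rw [mem_filter] at hq
    rw [lst_ins (X.sub n hw) hq.1]
    exact (changes _ (X.sub n hw) hq.1).2.1
  chB1 := by
    intro n w q hw hq
    rw [mem_filter] at hq
    rw [lst_ins (X.sub n hw) hq.1]
    exact (changes _ (X.sub n hw) hq.1).2.2.1
  chB2 := by
    intro n w q hw hq
    rw [mem_filter] at hq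
    rw [lst_ins (X.sub n hw) hq.1]
    exact (changes _ (X.sub n hw) hq.1).2.2.2
  S_le := by
    intro n w hw
    exact (card_filter_le _ _).trans (Z.sys.S_le n w (X.sub n hw))

theorem mem_sysS (X : Sub Z) {w : List P} {q : List P × List P} :
    q ∈ X.sys.S w ↔ q ∈ Z.S w ∧ X.Q (lst w) q := by
  show q ∈ (Z.S w).filter (X.Q (lst w)) ↔ _
  rw [mem_filter]

theorem mem_sysB (X : Sub Z) {w : List P} {q : List P × List P} :
    q ∈ X.sys.B w ↔ q ∈ Z.B w ∧ X.Q (lst w) q := by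
  show q ∈ (Z.B w).filter (X.Q (lst w)) ↔ _
  rw [mem_filter]

/-- walks all of whose vertices are in a relation to the last vertex -/
def KR (A : P → P → Prop) (R : P → P → Prop) (n : ℕ) : Finset (List P) :=
  (Kw A n).filter (fun w => ∀ x ∈ w, R (lst w) x)

theorem mem_KR {R : P → P → Prop} {n : ℕ} {w : List P} :
    w ∈ KR A R n ↔ w ∈ Kw A n ∧ ∀ x ∈ w, R (lst w) x := by
  unfold KR
  exact mem_filter

/-- the restricted moves for the class `KR` -/
def inn (Z : Rule A) (R : P → P → Prop) : Sub Z where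
  K := KR A R
  Q e q := (∀ x ∈ q.1, R e x) ∧ ∀ x ∈ q.2, R e x
  sub _ := filter_subset _ _
  up := by
    intro n w q hw hq hQ
    unfold KR at hw ⊢
    rw [mem_filter] at hw ⊢
    refine ⟨Z.sys.ins_K n w q hw.1 hq, ?_⟩
    rw [lst_ins hw.1 hq]
    have hw1 := hw.1
    rw [Z.mem_K] at hw1
    rw [Rule.mem_S] at hq
    obtain ⟨L, R', h1, h2, -⟩ := Rule.rep_all (Z.pair _ _ hq.1) hw1.2 hq.2
    rw [h2]
    intro x hx
    rw [List.mem_append, List.mem_append] at hx
    rcases hx with (hx | hx) | hx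
    · exact hw.2 x (by rw [h1]; simp [hx])
    · exact hQ.2 x hx
    · exact hw.2 x (by rw [h1]; simp [hx])
  dn := by
    intro n w q hw hq hQ
    unfold KR at hw ⊢
    rw [mem_filter] at hw ⊢
    refine ⟨Z.sys.rem_K n w q (Nat.zero_le _) hw.1 hq, ?_⟩
    rw [lst_rem hw.1 hq]
    have hw1 := hw.1
    rw [Z.mem_K] at hw1
    rw [Rule.mem_B] at hq
    obtain ⟨L, R', h1, h2, -⟩ := Rule.rep_all (Z.pair _ _ hq.1).symm hw1.2 hq.2
    rw [h2]
    intro x hx
    rw [List.mem_append, List.mem_append] at hx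
    rcases hx with (hx | hx) | hx
    · exact hw.2 x (by rw [h1]; simp [hx])
    · exact hQ.1 x hx
    · exact hw.2 x (by rw [h1]; simp [hx])

/-- the moves whose short window leaves the class -/
def out (Z : Rule A) (R : P → P → Prop) : Sub Z where
  K := Kw A
  Q e q := ¬ ∀ x ∈ q.1, R e x
  sub _ := subset_rfl
  up := fun n w q hw hq _ => Z.sys.ins_K n w q hw hq
  dn := fun n w q hw hq _ => Z.sys.rem_K n w q (Nat.zero_le _) hw hq

/-- assumptions -/
structure Loc (Z : Rule A) (μ : ℝ) : Prop where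
  hs : 1 ≤ Z.s
  hμ : 1 ≤ μ
  up : ∀ τ : ℝ, 0 < τ → ∃ C1 : ℝ, ∀ n : ℕ, ((Kw A n).card : ℝ) ≤ C1 * ((1 + τ) * μ) ^ n
  poor : ∃ (M0 : ℕ) (ρ C0 : ℝ), 1 ≤ M0 ∧ 0 ≤ ρ ∧ ρ < μ ∧ ∀ n : ℕ,
      (((Kw A n).filter (fun w => M0 * (Z.B w).card ≤ n)).card : ℝ) ≤ C0 * ρ ^ n

theorem loc_of {μ K : ℝ} (G : Growth Z μ K) : Loc Z μ := ⟨G.hs, G.hμ, G.hup, G.poor⟩

theorem card_KR (R : P → P → Prop) (n : ℕ) : ((KR A R n).card : ℝ) ≤ (Kw A n).card := by
  exact_mod_cast card_le_card (filter_subset _ _)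

/-- restricted walks with few restricted downward moves are rare -/
theorem poorR {μ : ℝ} (G : Loc Z μ) : ∃ (M0 : ℕ) (ρ C0 : ℝ), 1 ≤ M0 ∧ 0 ≤ ρ ∧ ρ < μ ∧
    ∀ R : P → P → Prop, ∀ n : ℕ,
      (((KR A R n).filter (fun w => M0 * ((inn Z R).sys.B w).card ≤ n)).card : ℝ) ≤
        C0 * ρ ^ n := by
  obtain ⟨M0, ρ, C0, hM0, hρ0, hρ, hP⟩ := G.poor
  have hμ0 : 0 < μ := by linarith [G.hμ]
  obtain ⟨M, θ, C', hM, hθ0, hθ1, hC', h⟩ := few_exp (α := List P) (σ := List P × List P)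
    Z.CC Z.s 0 (2 * M0) (by omega) G.hμ (u := fun n => ((Kw A n).card : ℝ)) G.up
  refine ⟨2 * M0, max ρ (θ * μ), |C0| + C', by omega, le_max_of_le_left hρ0,
    max_lt hρ (by nlinarith), fun R n => ?_⟩
  have hcov : (KR A R n).filter (fun w => 2 * M0 * ((inn Z R).sys.B w).card ≤ n) ⊆
      (Kw A n).filter (fun w => M0 * (Z.B w).card ≤ n) ∪
      (KR A R n).filter (fun w => M * ((out Z R).sys.S w).card ≤ n ∧
        ¬ 2 * M0 * ((out Z R).sys.B w).card ≤ n) := by
    intro w hw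
    rw [mem_filter] at hw
    obtain ⟨hw, hb⟩ := hw
    rw [mem_union, mem_filter, mem_filter]
    have hw' := hw
    unfold KR at hw'
    rw [mem_filter] at hw'
    by_cases h1 : M0 * (Z.B w).card ≤ n
    · exact Or.inl ⟨hw'.1, h1⟩
    · refine Or.inr ⟨hw, ?_, ?_⟩
      · have h2 : (out Z R).sys.S w = ∅ := by
          rw [Finset.eq_empty_iff_forall_notMem]
          intro q hq
          rw [mem_sysS, Rule.mem_S] at hq
          exact hq.2 fun x hx => hw'.2 x (hq.1.2.1.subset hx)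
        rw [h2, card_empty, mul_zero]
        exact Nat.zero_le _
      · have h2 : (Z.B w).card ≤ ((inn Z R).sys.B w).card + ((out Z R).sys.B w).card := by
          have h3 : Z.B w ⊆ (inn Z R).sys.B w ∪ (out Z R).sys.B w := by
            intro q hq
            rw [mem_union, mem_sysB, mem_sysB]
            by_cases h4 : ∀ x ∈ q.1, R (lst w) x
            · refine Or.inl ⟨hq, h4, ?_⟩
              rw [Rule.mem_B] at hq
              exact fun x hx => hw'.2 x (hq.2.1.subset hx)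
            · exact Or.inr ⟨hq, h4⟩
          exact (card_le_card h3).trans (card_union_le _ _)
        have h3 := Nat.mul_le_mul_left M0 h2
        intro hc
        rw [mul_add] at h3
        have e1 : 2 * M0 * ((inn Z R).sys.B w).card = 2 * (M0 * ((inn Z R).sys.B w).card) := by
          ring
        have e2 : 2 * M0 * ((out Z R).sys.B w).card = 2 * (M0 * ((out Z R).sys.B w).card) := by
          ring
        omega
  have hcard : (((KR A R n).filter (fun w => 2 * M0 * ((inn Z R).sys.B w).card ≤ n)).card : ℝ) ≤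
      (((Kw A n).filter (fun w => M0 * (Z.B w).card ≤ n)).card : ℝ) +
      (((KR A R n).filter (fun w => M * ((out Z R).sys.S w).card ≤ n ∧
        ¬ 2 * M0 * ((out Z R).sys.B w).card ≤ n)).card : ℝ) := by
    exact_mod_cast (card_le_card hcov).trans (card_union_le _ _)
  have q1 := hP n
  have q2 := h (out Z R).sys rfl rfl rfl (fun _ => le_rfl) n
    ((KR A R n).filter (fun w => M * ((out Z R).sys.S w).card ≤ n ∧
        ¬ 2 * M0 * ((out Z R).sys.B w).card ≤ n))
    ((filter_subset _ _).trans (filter_subset _ _)) (fun w hw => (mem_filter.1 hw).2)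
  have h1 : C0 * ρ ^ n ≤ |C0| * (max ρ (θ * μ)) ^ n :=
    mul_le_mul (le_abs_self _) (pow_le_pow_left₀ hρ0 (le_max_left _ _) n) (by positivity)
      (abs_nonneg _)
  have h2 : C' * (θ * μ) ^ n ≤ C' * (max ρ (θ * μ)) ^ n :=
    mul_le_mul_of_nonneg_left (pow_le_pow_left₀ (by positivity) (le_max_right _ _) n) hC'
  calc _ ≤ _ := hcard
    _ ≤ |C0| * (max ρ (θ * μ)) ^ n + C' * (max ρ (θ * μ)) ^ n :=
        add_le_add (q1.trans h1) (q2.trans h2)
    _ = _ := by ring

/-- **Kesten's inequality for restricted walks, uniformly in the restriction** -/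
theorem kesR {μ : ℝ} (G : Loc Z μ) : ∃ (D θ : ℝ) (N : ℕ), 0 ≤ D ∧ 0 < θ ∧ θ < 1 ∧ 1 ≤ N ∧
    ∀ R : P → P → Prop, ∀ n : ℕ, N ≤ n → (θ * μ) ^ (n + Z.s) ≤ ((KR A R (n + Z.s)).card : ℝ) →
      ((KR A R (n + Z.s)).card : ℝ) ^ 2 ≤
        (KR A R n).card * (KR A R (n + Z.s + Z.s)).card * (1 + D / n) := by
  have hμ0 : 0 < μ := by linarith [G.hμ]
  obtain ⟨M0, ρ, C0, hM0, hρ0, hρ, hP⟩ := poorR G
  obtain ⟨M, θ, C', hM, hθ0, hθ1, hC', hbad⟩ := patternU (α := List P) (σ := List P × List P)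
    (C0 := C0) Z.CC Z.s 0 M0 hM0 G.hμ hρ0 hρ (u := fun n => ((Kw A n).card : ℝ)) G.up
  have hconv := convexU (α := List P) (σ := List P × List P) Z.CC Z.s 0 M hM μ θ ((1 + θ) / 2) C'
    hμ0 hθ0 (by linarith)
  obtain ⟨N, hN⟩ := eventually_atTop.1 hconv
  refine ⟨8 * (6 * Z.CC * M + 1), (1 + θ) / 2, max N 1, by positivity, by linarith, by linarith,
    le_max_right _ _, fun R n hn hbig => ?_⟩
  have hb := hbad (inn Z R).sys rfl rfl rfl (card_KR R) (hP R)
  have h1 := hN n (le_trans (le_max_left _ _) hn) (inn Z R).sys rfl rfl rfl (fun _ => 1)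
    ⟨fun _ _ _ => zero_le_one, fun _ _ _ _ _ => rfl⟩ (fun n => by
      have := hb n
      unfold Sys.badf
      simpa using this)
  have haf : ∀ n, (inn Z R).sys.af (fun _ => 1) n = ((KR A R n).card : ℝ) := by
    intro n
    unfold Sys.af
    rw [Finset.sum_const, nsmul_eq_mul, mul_one]
    rfl
  rw [haf, haf, haf] at h1
  exact h1 hbig

end

end Q294.Rs
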