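import Pool.Agent.Q294.Bd1
import Pool.Agent.Y981.GP.FinG
import Pool.Agent.Y988.GP.Ren
import Pool.Agent.Y153.GP.Eq
import Pool.Agent.Y67.GP.One

set_option autoImplicit false

/-! The local limit of the half-plane walk from a vertex of the lowest level, in terms of the masses
of the first cuts. -/

namespace Q294.Sl

open Pool.Agent.H976R3.HPL
open Pool.Agent.W818.TD
open Filter Topology Finset MeasureTheory Complex
open scoped ENNReal

/-- positions -/
noncomputable def pos1 (p : V) : ℂ := G4_K * G4_pos p - I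

theorem pos1_im (p : V) : (pos1 p).im =
    1 / 4 * ((3 * (p.1 - p.2) + (p.1 + p.2) % 2 - 4 : ℤ) : ℝ) := by
  unfold pos1
  rw [sub_im, I_im, G4_Kim]
  unfold G4_par
  push_cast
  ring

theorem vv1 : vv 1 = (1, 0) := by unfold vv; simp

/-- an embedding -/
noncomputable def E1 : Emb hexA (vv 1) (Set.range pos1) 1 where
  pos := pos1
  pos_v := by
    unfold pos1
    have : G4_K * G4_pos (1, 0) = I := by
      apply Complex.ext
      · simp only [mul_re, G4_K, G4_pos, G4_par, I_re]
        norm_num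
        ring
      · rw [G4_Kim]
        simp [G4_par]
    rw [vv1, this, sub_self]
  inj := by
    intro p q h
    apply G4_inj
    unfold pos1 at h
    have h1 : G4_K * (G4_pos p - G4_pos q) = 0 := by linear_combination h
    have h2 : ‖G4_K * (G4_pos p - G4_pos q)‖ = 0 := by rw [h1, norm_zero]
    rw [norm_mul, G4_Knorm, one_mul] at h2
    exact sub_eq_zero.1 (norm_eq_zero.1 h2)
  range := fun z => Iff.rfl
  adj := by
    intro p q
    have : hexA.Adj p q ↔ HAdj p q := Iff.rfl
    rw [this, G4_adj]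
    unfold pos1
    rw [sub_sub_sub_cancel_right, ← mul_sub, norm_mul, G4_Knorm, one_mul]
  im := by
    intro p
    rw [pos1_im, mul_nonneg_iff_of_pos_left (by positivity)]
    simp only [vv1, hexA, hexS]
    constructor
    · intro h
      have : (0 : ℤ) ≤ 3 * (p.1 - p.2) + (p.1 + p.2) % 2 - 4 := by omega
      exact_mod_cast this
    · intro h
      have : (0 : ℤ) ≤ 3 * (p.1 - p.2) + (p.1 + p.2) % 2 - 4 := by exact_mod_cast h
      omega

/-- the limit law of the initial pieces -/
noncomputable def p (η : List V) : ℝ := (closed_limit facts_hexA (vv 1) η).choose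

theorem p_lim (η : List V) : Tendsto (fun n => (cc hexA (vv 1) n η : ℝ) /
    ((CW hexA n (vv 1)).card : ℝ)) atTop (𝓝 (p η)) :=
  (closed_limit facts_hexA (vv 1) η).choose_spec

theorem p_nonneg (η : List V) : 0 ≤ p η :=
  ge_of_tendsto' (p_lim η) fun n => by positivity

theorem CW_pos (n : ℕ) : (0 : ℝ) < ((CW hexA n (vv 1)).card : ℝ) := by
  exact_mod_cast Finset.card_pos.2 (CW_nonempty (G := hexA) (vv 1) n)

theorem take_mem {k n : ℕ} (h : k ≤ n) {l : List V} (hl : l ∈ CW hexA n (vv 1)) :
    l.take (k + 1) ∈ CW hexA k (vv 1) := by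
  obtain ⟨c1, c2, c3, c4, c5⟩ := mem_CW.1 hl
  refine mem_CW.2 ⟨?_, ?_, c3.take _, c4.sublist (List.take_sublist _ _), ?_⟩
  · rw [List.length_take]
    omega
  · rw [List.head?_take]
    simp [c2]
  · intro w hw
    exact c5 w (List.mem_of_mem_take hw)

theorem p_sum (k : ℕ) : ∑ η ∈ CW hexA k (vv 1), p η = 1 := by
  classical
  have h1 : Tendsto (fun n => ∑ η ∈ CW hexA k (vv 1), (cc hexA (vv 1) n η : ℝ) /
      ((CW hexA n (vv 1)).card : ℝ)) atTop (𝓝 (∑ η ∈ CW hexA k (vv 1), p η)) :=
    tendsto_finsetSum _ fun η _ => p_lim η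
  refine tendsto_nhds_unique h1 (tendsto_const_nhds.congr' ?_)
  filter_upwards [eventually_ge_atTop k] with n hn
  rw [← Finset.sum_div, eq_comm, div_eq_one_iff_eq (CW_pos n).ne']
  have h2 : (CW hexA n (vv 1)).card = ∑ η ∈ CW hexA k (vv 1), cc hexA (vv 1) n η := by
    rw [Finset.card_eq_sum_card_fiberwise (f := fun l : List V => l.take (k + 1))
      (t := CW hexA k (vv 1)) (fun l hl => take_mem hn hl)]
    refine Finset.sum_congr rfl fun η hη => ?_
    unfold cc
    congr 1
    refine Finset.filter_congr fun l hl => ?_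
    have h3 := (mem_CW.1 hη).1
    have h4 := (mem_CW.1 hl).1
    rw [List.prefix_iff_eq_take, h3, eq_comm]
  rw [h2]
  push_cast
  rfl

/-- the first cuts above the height `2 k` which begin with `η` -/
def A (k : ℕ) (η : List V) : Set (List V) := {β | Fst (2 * (k : ℤ)) β ∧ η <+: β.tail}

theorem p_ge {k : ℕ} {η : List V} (hη : η.length = k + 1) :
    M (A k η) ≤ ENNReal.ofReal (p η) := by
  obtain ⟨μ, h1, h2, h3, h4⟩ := concl_of_emb E1 facts_hexA
  have := h1
  have hp : μ.real {γ | ∀ i ≤ k, γ i = E1.pos (η.getD i (vv 1))} = p η := by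
    refine tendsto_nhds_unique (h3 k _) ((p_lim η).congr' ?_)
    filter_upwards [eventually_ge_atTop k] with n hn
    rw [Tr.cyl_count E1 hn hη, (emb_count E1 n).2]
  rw [← hp, ofReal_measureReal]
  refine (Pool.Agent.Y981.GP.fam_ge le_rfl E1 μ h3 (H := 2 * (k : ℤ)) (by positivity) (A k η)
    fun β hβ => hβ.1).trans (measure_mono ?_)
  intro γ hγ
  rw [Set.mem_iUnion] at hγ
  obtain ⟨⟨β, hβ, ⟨s, hs⟩⟩, hγ⟩ := hγ
  intro i hi
  have hlen : (β.drop 1).length = β.length - 1 := List.length_drop
  have e : β.drop 1 = η ++ s := by rw [List.drop_one, hs]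
  have hl2 : (η ++ s).length = k + 1 + s.length := by rw [List.length_append, hη]
  rw [← e] at hl2
  have hγ' : γ ∈ EB E1 β := hγ
  rw [hγ'.1 i (by omega), e]
  congr 1
  rw [List.getD_append _ _ _ _ (by omega)]

end Q294.Sl
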