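import Pool.Agent.Q294.Sl1

set_option autoImplicit false

/-! Walks which cross a strip, seen from the other end. -/

namespace Q294.Sl

open H978R2.Hex
open Pool.Agent.W818.TD
open Pool.Agent.Y988.GP (triv_cat hl_triv cat_cancel)
open scoped ENNReal

/-- the walk seen from its other end -/
def turn (l : List V) : List V := (l.map (fun v => la l + (1, 0) - v)).reverse

/-- the bridge seen from its other end -/
def Rv (ζ : List V) : List V := (0, 0) :: turn ζ.tail

theorem two_cons {ζ : List V} (h : EBr ζ) (h1 : 1 ≤ hl ζ) : ∃ t, ζ = (0, 0) :: (1, 0) :: t := by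
  obtain ⟨t, ht⟩ := h.cons
  have htne : t ≠ [] := by
    rintro rfl
    rw [ht] at h1
    simp [hl, la] at h1
  obtain ⟨b, t', ht'⟩ := List.exists_cons_of_ne_nil htne
  have hb : b = (1, 0) := by
    have h1 := h.ch
    rw [ht, ht', List.isChain_cons_cons] at h1
    have h2 := h.pos b (by rw [ht, ht']; simp)
    have h3 := h1.1
    rw [adj_iff] at h3
    simp only at h3
    apply Prod.ext
    · simp only; omega
    · simp only; omega
  exact ⟨t', by rw [ht, ht', hb]⟩

theorem turn_length (l : List V) : (turn l).length = l.length := by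
  unfold turn
  simp

theorem turn_ne {l : List V} (h : l ≠ []) : turn l ≠ [] := by
  unfold turn
  simpa using h

theorem la_turn {t : List V} : la (turn ((1, 0) :: t)) = la ((1, 0) :: t) := by
  unfold turn
  rw [la_eq (by simp), List.getLast_reverse]
  simp

theorem turn_head {l : List V} (h : l ≠ []) : (turn l).head? = some (1, 0) := by
  unfold turn
  rw [List.head?_reverse, List.getLast?_map, List.getLast?_eq_getLast_of_ne_nil h, ← la_eq h]
  simp

theorem turn_turn {t : List V} : turn (turn ((1, 0) :: t)) = (1, 0) :: t := by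
  obtain ⟨c, hc⟩ : ∃ c, c = la ((1, 0) :: t) := ⟨_, rfl⟩
  have h1 : turn (turn ((1, 0) :: t)) =
      ((turn ((1, 0) :: t)).map (fun v => c + (1, 0) - v)).reverse := by
    conv_lhs => unfold turn
    rw [show la (((1, 0) :: t).map (fun v => la ((1, 0) :: t) + (1, 0) - v)).reverse = c from by
      rw [hc]; exact la_turn]
    rfl
  rw [h1]
  unfold turn
  rw [← hc, List.map_reverse, List.reverse_reverse, List.map_map]
  have : ((fun v : V => c + (1, 0) - v) ∘ fun v : V => c + (1, 0) - v) = id := by
    funext v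
    simp
  rw [this, List.map_id]

theorem Rv_tail {ζ : List V} : (Rv ζ).tail = turn ζ.tail := rfl

theorem la_Rv {ζ : List V} (h : EBr ζ) (h1 : 1 ≤ hl ζ) : la (Rv ζ) = la ζ := by
  obtain ⟨t, rfl⟩ := two_cons h h1
  unfold Rv
  rw [List.tail_cons, la_cons (turn_ne (by simp)), la_turn]
  exact (la_cons (by simp)).symm

theorem hl_Rv {ζ : List V} (h : EBr ζ) (h1 : 1 ≤ hl ζ) : hl (Rv ζ) = hl ζ := by
  unfold hl
  rw [la_Rv h h1]

theorem Rv_length {ζ : List V} (h : ζ ≠ []) : (Rv ζ).length = ζ.length := by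
  unfold Rv
  rw [List.length_cons, turn_length, List.length_tail]
  have := List.length_pos_of_ne_nil h
  omega

theorem Wt_Rv {ζ : List V} (h : ζ ≠ []) : Wt (Rv ζ) = Wt ζ := by
  unfold Wt
  rw [Rv_length h]

theorem Rv_Rv {ζ : List V} (h : EBr ζ) (h1 : 1 ≤ hl ζ) : Rv (Rv ζ) = ζ := by
  obtain ⟨t, rfl⟩ := two_cons h h1
  unfold Rv
  rw [List.tail_cons, List.tail_cons, turn_turn]

theorem mem_turn {l : List V} {v : V} : v ∈ turn l ↔ la l + (1, 0) - v ∈ l := by
  unfold turn
  rw [List.mem_reverse, List.mem_map]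
  constructor
  · rintro ⟨a, ha, rfl⟩
    simpa using ha
  · intro h
    exact ⟨_, h, by simp⟩

theorem Rv_EBr {ζ : List V} (h : EBr ζ) (h1 : 1 ≤ hl ζ) : EBr (Rv ζ) := by
  have hhl := hl_Rv h h1
  have hev := h.la_even
  have hch := h.ch
  have hnd := h.nd
  have hpos := h.pos
  have htop := h.top
  have hhev := h.ev
  obtain ⟨t, rfl⟩ := two_cons h h1
  obtain ⟨b, hb⟩ : ∃ b, b = la ((0, 0) :: (1, 0) :: t) := ⟨_, rfl⟩
  have hb' : la ((1, 0) :: t) = b := by rw [hb]; exact (la_cons (by simp)).symm
  have hmem : ∀ v ∈ turn ((1, 0) :: t), b + (1, 0) - v ∈ (1, 0) :: t := by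
    intro v hv
    rw [mem_turn, hb'] at hv
    exact hv
  have hbl : b.1 - b.2 = hl ((0, 0) :: (1, 0) :: t) := by rw [hb]; rfl
  refine ⟨rfl, ?_, ?_, ?_, ?_, ?_⟩
  · unfold Rv
    rw [List.tail_cons]
    obtain ⟨a, s, hs⟩ := List.exists_cons_of_ne_nil (turn_ne (l := (1, 0) :: t) (by simp))
    have hh := turn_head (l := (1, 0) :: t) (by simp)
    rw [hs] at hh ⊢
    simp only [List.head?_cons, Option.some.injEq] at hh
    refine List.isChain_cons_cons.2 ⟨?_, ?_⟩
    · rw [hh, adj_iff]
      simp
    · rw [← hs]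
      unfold turn
      rw [List.isChain_reverse, List.isChain_map, hb']
      refine hch.tail.imp ?_
      intro x y hxy
      have hz : ((b + (1, 0)).1 + (b + (1, 0)).2) % 2 = 1 := by
        rw [← hb] at hev
        simp only [Prod.fst_add, Prod.snd_add]
        omega
      exact adj_rf hz hxy
  · unfold Rv
    rw [List.tail_cons, List.nodup_cons]
    refine ⟨?_, ?_⟩
    · intro h0
      have h2 := hmem _ h0
      have h3 := htop _ (List.mem_cons_of_mem _ h2)
      simp only [Prod.fst_sub, Prod.snd_sub, Prod.fst_add, Prod.snd_add] at h3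
      omega
    · unfold turn
      rw [List.nodup_reverse]
      exact hnd.tail.map (fun x y hxy => by simpa using hxy)
  · intro v hv
    rw [Rv_tail, List.tail_cons] at hv
    have h3 := htop _ (List.mem_cons_of_mem _ (hmem _ hv))
    simp only [Prod.fst_sub, Prod.snd_sub, Prod.fst_add, Prod.snd_add] at h3
    omega
  · intro v hv
    rw [hhl]
    unfold Rv at hv
    rcases List.mem_cons.1 hv with rfl | hv
    · simp only
      omega
    · rw [List.tail_cons] at hv
      have h3 := hpos _ (hmem _ hv)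
      simp only [Prod.fst_sub, Prod.snd_sub, Prod.fst_add, Prod.snd_add] at h3
      omega
  · rw [hhl]
    exact hhev

theorem Rv_cat {β η : List V} (hβ : EBr β) (hη : EBr η) (h1 : 1 ≤ hl β) (h2 : 1 ≤ hl η) :
    Rv (cat β η) = cat (Rv η) (Rv β) := by
  have hla := la_Rv hη h2
  obtain ⟨t, rfl⟩ := two_cons hβ h1
  obtain ⟨s, rfl⟩ := two_cons hη h2
  obtain ⟨b, hb⟩ : ∃ b, b = la ((0, 0) :: (1, 0) :: t) := ⟨_, rfl⟩
  obtain ⟨c, hc⟩ : ∃ c, c = la ((0, 0) :: (1, 0) :: s) := ⟨_, rfl⟩
  have hb' : la ((1, 0) :: t) = b := by rw [hb]; exact (la_cons (by simp)).symm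
  have hc' : la ((1, 0) :: s) = c := by rw [hc]; exact (la_cons (by simp)).symm
  unfold cat
  rw [← hb, hla, ← hc, Rv_tail]
  simp only [List.tail_cons]
  unfold Rv
  simp only [List.cons_append, List.tail_cons]
  congr 1
  have hne : tr b ((1, 0) :: s) ≠ [] := tr_ne (by simp)
  have e1 : la ((1, 0) :: (t ++ tr b ((1, 0) :: s))) = c + b := by
    rw [← List.cons_append, la_append hne, la_tr (by simp), hc']
  unfold turn
  rw [e1, hb', hc', ← List.cons_append, List.map_append, List.reverse_append]
  congr 1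
  · congr 1
    unfold tr
    rw [List.map_map]
    apply List.map_congr_left
    intro v _
    simp only [Function.comp_apply]
    abel
  · unfold tr
    rw [List.map_reverse, List.map_map]
    congr 1
    apply List.map_congr_left
    intro v _
    simp only [Function.comp_apply]
    abel

end Q294.Sl
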