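import Pool.Agent.Q294.Sl2

set_option autoImplicit false

/-! The mass of the crossing walks with given pieces at both ends. -/

namespace Q294.Sl

open H978R2.Hex
open Pool.Agent.W818.TD
open Pool.Agent.Y988.GP (triv_cat hl_triv cat_cancel)
open Pool.Agent.Y981.GP (bb bb_le_one bb_zero_ge)
open Pool.Agent.H976R3.HPL (CW hexA mem_CW)
open scoped ENNReal

theorem M_sum_le' {ι : Type*} (I : Finset ι) (S : ι → Set (List V)) (T : Set (List V))
    (hsub : ∀ d ∈ I, S d ⊆ T) (hdis : ∀ d ∈ I, ∀ d' ∈ I, ∀ β, β ∈ S d → β ∈ S d' → d = d') :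
    ∑ d ∈ I, M (S d) ≤ M T := by
  classical
  simp only [M_ind]
  rw [← Summable.tsum_finsetSum (fun _ _ => ENNReal.summable)]
  refine ENNReal.tsum_le_tsum fun β => ?_
  by_cases h : ∃ d ∈ I, β ∈ S d
  · obtain ⟨d, hd, hβ⟩ := h
    rw [Finset.sum_eq_single_of_mem d hd]
    · rw [Set.indicator_of_mem hβ, Set.indicator_of_mem (hsub d hd hβ)]
    · intro d' hd' hne
      apply Set.indicator_of_notMem
      intro hβ'
      exact hne (hdis d' hd' d hd β hβ' hβ)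
  · push Not at h
    rw [Finset.sum_eq_zero (fun d hd => Set.indicator_of_notMem (h d hd) _)]
    exact zero_le

theorem M_le_sum' {ι : Type*} (I : Finset ι) (S : ι → Set (List V)) (T : Set (List V))
    (hsub : ∀ β ∈ T, ∃ d ∈ I, β ∈ S d) : M T ≤ ∑ d ∈ I, M (S d) := by
  classical
  simp only [M_ind]
  rw [← Summable.tsum_finsetSum (fun _ _ => ENNReal.summable)]
  refine ENNReal.tsum_le_tsum fun β => ?_
  by_cases h : β ∈ T
  · obtain ⟨d, hd, hβ⟩ := hsub β h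
    have := Finset.single_le_sum (f := fun d => (S d).indicator Wt β) (fun i _ => zero_le) hd
    simp only [Set.indicator_of_mem hβ] at this
    rw [Set.indicator_of_mem h]
    exact this
  · rw [Set.indicator_of_notMem h]
    exact zero_le

/-! ### the masses of the bridges -/

theorem bb_eq {T : ℕ} (hT : 1 ≤ T) : bb T = ENNReal.ofReal (Pool.Agent.W832.HR.Br T) :=
  Pool.Agent.Y153.GP.eq T hT

theorem bb_anti {j T : ℕ} (h : j ≤ T) : bb T ≤ bb j := by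
  rcases Nat.eq_zero_or_pos j with rfl | hj
  · exact (bb_le_one T).trans bb_zero_ge
  · rw [bb_eq hj, bb_eq (by omega)]
    exact ENNReal.ofReal_le_ofReal (Pool.Agent.W832.HR.Br_anti hj h)

theorem bb_pos (T : ℕ) : bb T ≠ 0 := by
  rcases Nat.eq_zero_or_pos T with rfl | hj
  · have := bb_zero_ge
    intro h
    rw [h] at this
    simp at this
  · rw [bb_eq hj]
    have h1 := Pool.Agent.W832.HR.Br_ge hj
    have h2 : (0 : ℝ) < 1 / (4 * (T : ℝ)) := by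
      have : (0 : ℝ) < T := by exact_mod_cast hj
      positivity
    simp only [ne_eq, ENNReal.ofReal_eq_zero, not_le]
    linarith

theorem bb_ne_top (T : ℕ) : bb T ≠ ⊤ := ne_top_of_le_ne_top ENNReal.one_ne_top (bb_le_one T)

/-! ### two pieces -/

/-- the crossing walks with given pieces at both ends -/
def N2 (T : ℕ) (η η' : List V) : Set (List V) :=
  {ζ | (EBr ζ ∧ hl ζ = 2 * (T : ℤ)) ∧ η <+: ζ.tail ∧ η' <+: (Rv ζ).tail}

theorem tail_prefix {β X : List V} (hβ : β ≠ []) : β.tail <+: (cat β X).tail := by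
  unfold cat
  rw [List.tail_append_of_ne_nil hβ]
  exact List.prefix_append _ _

theorem Rv3 {β κ β' : List V} (hβ : EBr β) (h1 : 1 ≤ hl β) (hκ : EBr κ) (hβ' : EBr β')
    (h1' : 1 ≤ hl β') : Rv (cat (cat β κ) (Rv β')) = cat β' (Rv (cat β κ)) := by
  have h2 := hκ.hl_nonneg
  have h3 := hl_cat (β := β) hκ
  rw [Rv_cat (cat_EBr hβ hκ) (Rv_EBr hβ' h1') (by omega) (by rw [hl_Rv hβ' h1']; exact h1'),
    Rv_Rv hβ' h1']

theorem N2_mem {T k : ℕ} {η η' β κ β' : List V} (hβ : β ∈ A k η) (hβ' : β' ∈ A k η')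
    (hκ : EBr κ) (hl1 : hl κ = 2 * (T : ℤ) - hl β - hl β') :
    cat (cat β κ) (Rv β') ∈ N2 T η η' := by
  obtain ⟨⟨b1, b2, -⟩, b3⟩ := hβ
  obtain ⟨⟨c1, c2, -⟩, c3⟩ := hβ'
  have e1 : 1 ≤ hl β := by omega
  have e2 : 1 ≤ hl β' := by omega
  have hR := Rv_EBr c1 e2
  refine ⟨⟨cat_EBr (cat_EBr b1 hκ) hR, ?_⟩, ?_, ?_⟩
  · rw [hl_cat hR, hl_cat hκ, hl_Rv c1 e2]
    omega
  · rw [cat_assoc b1 hκ]
    exact b3.trans (tail_prefix b1.ne)
  · rw [Rv3 b1 e1 hκ c1 e2]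
    exact c3.trans (tail_prefix c1.ne)

theorem N2_inj {k : ℕ} {β κ β' β₁ κ₁ β₁' : List V}
    (hβ : Fst (2 * (k : ℤ)) β) (hβ' : Fst (2 * (k : ℤ)) β') (hκ : EBr κ)
    (hβ₁ : Fst (2 * (k : ℤ)) β₁) (hβ₁' : Fst (2 * (k : ℤ)) β₁') (hκ₁ : EBr κ₁)
    (h : cat (cat β κ) (Rv β') = cat (cat β₁ κ₁) (Rv β₁')) : β = β₁ ∧ β' = β₁' ∧ κ = κ₁ := by
  have e1 : 1 ≤ hl β := by have := hβ.2.1; omega
  have e2 : 1 ≤ hl β' := by have := hβ'.2.1; omega
  have e3 : 1 ≤ hl β₁ := by have := hβ₁.2.1; omega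
  have e4 : 1 ≤ hl β₁' := by have := hβ₁'.2.1; omega
  have h1 := congrArg Rv h
  rw [Rv3 hβ.1 e1 hκ hβ'.1 e2, Rv3 hβ₁.1 e3 hκ₁ hβ₁'.1 e4] at h1
  have f1 : 1 ≤ hl (cat β κ) := by
    rw [hl_cat hκ]
    have := hκ.hl_nonneg
    omega
  have f2 : 1 ≤ hl (cat β₁ κ₁) := by
    rw [hl_cat hκ₁]
    have := hκ₁.hl_nonneg
    omega
  have h2 := (fst_unique hβ' hβ₁' (Rv_EBr (cat_EBr hβ.1 hκ) f1)
    (Rv_EBr (cat_EBr hβ₁.1 hκ₁) f2) h1).1
  rw [cat_assoc hβ.1 hκ, cat_assoc hβ₁.1 hκ₁] at h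
  have hR := Rv_EBr hβ'.1 e2
  have hR₁ := Rv_EBr hβ₁'.1 e4
  obtain ⟨h3, h4⟩ := fst_unique hβ hβ₁ (cat_EBr hκ hR) (cat_EBr hκ₁ hR₁) h
  refine ⟨h3, h2, ?_⟩
  rw [← h2] at h4
  have h5 := congrArg List.length h4
  rw [cat_length hR.ne, cat_length hR.ne] at h5
  have h6 := List.length_pos_of_ne_nil hR.ne
  unfold cat at h4
  exact (List.append_inj h4 (by omega)).1

theorem M_N2_ge {T k : ℕ} (η η' : List V) :
    M {β | β ∈ A k η ∧ hl β ≤ T} * M {β | β ∈ A k η' ∧ hl β ≤ T} * bb T ≤ M (N2 T η η') := by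
  set A1 : Set (List V) := {β | β ∈ A k η ∧ hl β ≤ T} with hA1
  set A2 : Set (List V) := {β | β ∈ A k η' ∧ hl β ≤ T} with hA2
  let K : A1 × A2 → Set (List V) := fun q =>
    {κ | EBr κ ∧ hl κ = 2 * (T : ℤ) - hl (q.1 : List V) - hl (q.2 : List V)}
  have hK : ∀ q : A1 × A2, bb T ≤ M (K q) := by
    rintro ⟨⟨β, hβ, hβl⟩, ⟨β', hβ', hβl'⟩⟩
    have h1 := hβ.1.1.ev
    have h2 := hβ'.1.1.ev
    have h3 := hβ.1.1.hl_nonneg
    have h4 := hβ'.1.1.hl_nonneg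
    obtain ⟨j, hj⟩ : ∃ j : ℕ, 2 * (j : ℤ) = 2 * (T : ℤ) - hl β - hl β' :=
      ⟨((2 * (T : ℤ) - hl β - hl β') / 2).toNat, by omega⟩
    have h5 : K ⟨⟨β, hβ, hβl⟩, ⟨β', hβ', hβl'⟩⟩ = {κ | EBr κ ∧ hl κ = 2 * (j : ℤ)} := by
      ext κ
      simp only [K, Set.mem_ofPred_eq]
      rw [hj]
    rw [h5]
    exact bb_anti (j := j) (by omega)
  have e1 : M A1 * M A2 * bb T = ∑' q : A1 × A2, Wt (q.1 : List V) * Wt (q.2 : List V) * bb T := by
    rw [ENNReal.tsum_mul_right, ENNReal.tsum_prod (f := fun (a : A1) (b : A2) =>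
      Wt (a : List V) * Wt (b : List V))]
    congr 1
    unfold M
    rw [← ENNReal.tsum_mul_right]
    refine tsum_congr fun a => ?_
    rw [ENNReal.tsum_mul_left]
  rw [e1]
  calc ∑' q : A1 × A2, Wt (q.1 : List V) * Wt (q.2 : List V) * bb T
      ≤ ∑' q : A1 × A2, Wt (q.1 : List V) * Wt (q.2 : List V) * M (K q) := by
        refine ENNReal.tsum_le_tsum fun q => ?_
        gcongr
        exact hK q
    _ = ∑' q : A1 × A2, ∑' κ : K q, Wt (cat (cat (q.1 : List V) κ) (Rv (q.2 : List V))) := by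
        refine tsum_congr fun q => ?_
        unfold M
        rw [← ENNReal.tsum_mul_left]
        refine tsum_congr fun κ => ?_
        have h1 : EBr (q.1 : List V) := q.1.2.1.1.1
        have h2 : EBr (q.2 : List V) := q.2.2.1.1.1
        have h3 : 1 ≤ hl (q.2 : List V) := by have := q.2.2.1.1.2.1; omega
        rw [Wt_cat (cat_EBr h1 κ.2.1).ne (Rv_EBr h2 h3).ne, Wt_cat h1.ne κ.2.1.ne,
          Wt_Rv h2.ne]
        ring
    _ = ∑' z : (Σ q : A1 × A2, K q), Wt (cat (cat (z.1.1 : List V) z.2) (Rv (z.1.2 : List V))) :=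
        (ENNReal.tsum_sigma' (f := fun z : (Σ q : A1 × A2, K q) =>
          Wt (cat (cat (z.1.1 : List V) z.2) (Rv (z.1.2 : List V))))).symm
    _ ≤ M (N2 T η η') := by
        let f : (Σ q : A1 × A2, K q) → N2 T η η' := fun z =>
          ⟨cat (cat (z.1.1 : List V) z.2) (Rv (z.1.2 : List V)),
            N2_mem z.1.1.2.1 z.1.2.2.1 z.2.2.1 z.2.2.2⟩
        have hf : Function.Injective f := by
          rintro ⟨⟨⟨β, hβ⟩, ⟨β', hβ'⟩⟩, ⟨κ, hκ⟩⟩ ⟨⟨⟨β₁, hβ₁⟩, ⟨β₁', hβ₁'⟩⟩, ⟨κ₁, hκ₁⟩⟩ h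
          have h1 := congrArg Subtype.val h
          simp only [f] at h1
          obtain ⟨rfl, rfl, rfl⟩ := N2_inj hβ.1.1 hβ'.1.1 hκ.1 hβ₁.1.1 hβ₁'.1.1 hκ₁.1 h1
          rfl
        exact ENNReal.tsum_comp_le_tsum_of_injective hf (fun ζ => Wt (ζ : List V))

end Q294.Sl
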