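import Pool.Agent.Q294.Sl3

set_option autoImplicit false

/-! The distance of the law of the two ends of the crossing walk from the limit law. -/

namespace Q294.Sl

open H978R2.Hex
open Pool.Agent.W818.TD
open Pool.Agent.Y981.GP (bb bb_le_one bb_zero_ge uu tt S_ONE S_REN)
open Pool.Agent.H976R3.HPL (CW hexA mem_CW)
open scoped ENNReal

theorem lev_le {l : List V} (h : l.IsChain Adj) : ∀ (i : ℕ) (hi : i < l.length),
    (l[i]).1 - (l[i]).2 ≤ (l[0]'(by omega)).1 - (l[0]'(by omega)).2 + i := by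
  intro i
  induction i with
  | zero => intro _; simp
  | succ i ih =>
    intro hi
    have h1 := ih (by omega)
    have h2 := List.isChain_iff_getElem.1 h i (by omega)
    rw [adj_iff] at h2
    push_cast
    omega

theorem hl_lt_length {β : List V} (h : EBr β) : hl β + 1 ≤ β.length := by
  have hne := h.ne
  have hpos := List.length_pos_of_ne_nil hne
  have h1 := lev_le h.ch (β.length - 1) (by omega)
  have h2 : la β = β[β.length - 1]'(by omega) := by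
    rw [la_eq hne, List.getLast_eq_getElem]
  have h3 : β[0]'(by omega) = (0, 0) := by
    obtain ⟨t, rfl⟩ := h.cons
    rfl
  unfold hl
  rw [h2]
  rw [h3] at h1
  simp only at h1
  omega

theorem prefix_eq {k : ℕ} {η η₁ l : List V} (h1 : η ∈ CW hexA k (vv 1))
    (h2 : η₁ ∈ CW hexA k (vv 1)) (h3 : η <+: l) (h4 : η₁ <+: l) : η = η₁ := by
  have e1 := (mem_CW.1 h1).1
  have e2 := (mem_CW.1 h2).1
  rw [List.prefix_iff_eq_take] at h3 h4
  rw [h3, h4, e1, e2]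

theorem long_prefix {k : ℕ} {β : List V} (h : EBr β) (hk : 2 * (k : ℤ) ≤ hl β) (h1 : 1 ≤ hl β)
    (_hk1 : (k : ℤ) + 1 ≤ hl β) :
    ∃ η ∈ CW hexA k (vv 1), η <+: β.tail := by
  obtain ⟨c1, -, -⟩ := drop_spec h h1 (c0 := 1) le_rfl
  have h2 := hl_lt_length h
  refine ⟨(β.drop 1).take (k + 1), take_mem (by omega) c1, ?_⟩
  rw [List.drop_one]
  exact List.take_prefix _ _

theorem A_cover {k : ℕ} : (1 : ℝ≥0∞) ≤ ∑ η ∈ CW hexA k (vv 1), M (A k η) := by
  refine (M_fst_ge (2 * (k : ℤ))).trans (M_le_sum' _ _ _ ?_)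
  intro β hβ
  have hβ' : Fst (2 * (k : ℤ)) β := hβ
  have h1 := hβ'.2.1
  obtain ⟨η, h2, h3⟩ := long_prefix hβ'.1 (k := k) (by omega) (by omega) (by omega)
  exact ⟨η, h2, hβ', h3⟩

theorem A_ne_top {k : ℕ} (η : List V) {S : Set (List V)} (hS : S ⊆ A k η) : M S ≠ ⊤ := by
  refine ne_top_of_le_ne_top ENNReal.one_ne_top ((M_mono (hS.trans fun β hβ => ?_)).trans
    (Pool.Agent.Y67.GP.one (2 * (k : ℤ)) (by positivity)))
  exact hβ.1

theorem A_eq {k : ℕ} {η : List V} (hη : η ∈ CW hexA k (vv 1)) : (M (A k η)).toReal = p η := by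
  have h1 : ∀ η ∈ CW hexA k (vv 1), (M (A k η)).toReal ≤ p η := by
    intro η hη
    exact ENNReal.toReal_le_of_le_ofReal (p_nonneg η) (p_ge (mem_CW.1 hη).1)
  have h2 : ∑ η ∈ CW hexA k (vv 1), p η ≤ ∑ η ∈ CW hexA k (vv 1), (M (A k η)).toReal := by
    rw [p_sum k, ← ENNReal.toReal_sum (fun η _ => A_ne_top η subset_rfl)]
    rw [← ENNReal.toReal_one]
    refine ENNReal.toReal_mono ?_ A_cover
    exact ENNReal.sum_ne_top.2 fun η _ => A_ne_top η subset_rfl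
  have h3 := (Finset.sum_eq_sum_iff_of_le h1).1 (le_antisymm (Finset.sum_le_sum h1) h2)
  exact h3 η hη

/-- the mass of the first cuts above `2 k` which are higher than `T` -/
noncomputable def GG (k T : ℕ) : ℝ≥0∞ := M {β | Fst (2 * (k : ℤ)) β ∧ (T : ℤ) < hl β}

theorem GG_ne_top (k T : ℕ) : GG k T ≠ ⊤ := by
  refine ne_top_of_le_ne_top ENNReal.one_ne_top ((M_mono fun β hβ => ?_).trans
    (Pool.Agent.Y67.GP.one (2 * (k : ℤ)) (by positivity)))
  exact hβ.1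

/-- the law of the two ends -/
noncomputable def Q (T : ℕ) (η η' : List V) : ℝ := (M (N2 T η η') / bb T).toReal

theorem div_ne_top' {T : ℕ} (η η' : List V) : M (N2 T η η') / bb T ≠ ⊤ := by
  refine ENNReal.div_ne_top (ne_top_of_le_ne_top (bb_ne_top T) (M_mono fun β hβ => ?_)) (bb_pos T)
  exact hβ.1

theorem Q_sum (k T : ℕ) : ∑ η ∈ CW hexA k (vv 1), ∑ η' ∈ CW hexA k (vv 1), Q T η η' ≤ 1 := by
  rw [← Finset.sum_product']
  unfold Q
  rw [← ENNReal.toReal_sum (fun q _ => div_ne_top' q.1 q.2)]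
  have h1 : ∑ q ∈ CW hexA k (vv 1) ×ˢ CW hexA k (vv 1), M (N2 T q.1 q.2) ≤ bb T := by
    refine M_sum_le' _ (fun q : List V × List V => N2 T q.1 q.2) _ (fun q _ β hβ => hβ.1) ?_
    rintro ⟨η, η'⟩ h ⟨η₁, η₁'⟩ h' β hβ hβ'
    rw [Finset.mem_product] at h h'
    exact Prod.ext (prefix_eq h.1 h'.1 hβ.2.1 hβ'.2.1) (prefix_eq h.2 h'.2 hβ.2.2 hβ'.2.2)
  have h2 : ∑ q ∈ CW hexA k (vv 1) ×ˢ CW hexA k (vv 1), M (N2 T q.1 q.2) / bb T ≤ 1 := by
    simp only [div_eq_mul_inv]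
    rw [← Finset.sum_mul, ← div_eq_mul_inv]
    exact ENNReal.div_le_of_le_mul (by rw [one_mul]; exact h1)
  have h3 := ENNReal.toReal_mono ENNReal.one_ne_top h2
  rwa [ENNReal.toReal_one] at h3

theorem Q_ge {k T : ℕ} (η η' : List V) :
    (M {β | β ∈ A k η ∧ hl β ≤ T}).toReal * (M {β | β ∈ A k η' ∧ hl β ≤ T}).toReal ≤ Q T η η' := by
  unfold Q
  rw [← ENNReal.toReal_mul]
  refine ENNReal.toReal_mono (div_ne_top' η η') ?_
  rw [ENNReal.le_div_iff_mul_le (Or.inl (bb_pos T)) (Or.inl (bb_ne_top T))]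
  exact M_N2_ge η η'

/-- **the distance of the laws** -/
theorem l1_le (k T : ℕ) :
    ∑ η ∈ CW hexA k (vv 1), ∑ η' ∈ CW hexA k (vv 1), |Q T η η' - p η * p η'| ≤
      4 * (GG k T).toReal := by
  classical
  obtain ⟨C, hC⟩ : ∃ C, C = CW hexA k (vv 1) := ⟨_, rfl⟩
  let s : List V → ℝ := fun η => (M {β | β ∈ A k η ∧ hl β ≤ T}).toReal
  let g : List V → ℝ := fun η => (M {β | β ∈ A k η ∧ (T : ℤ) < hl β}).toReal
  have hs0 : ∀ η, 0 ≤ s η := fun η => ENNReal.toReal_nonneg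
  have hg0 : ∀ η, 0 ≤ g η := fun η => ENNReal.toReal_nonneg
  have hsp : ∀ η ∈ C, s η ≤ p η := by
    intro η hη
    rw [hC] at hη
    rw [← A_eq hη]
    exact ENNReal.toReal_mono (A_ne_top η subset_rfl) (M_mono fun β hβ => hβ.1)
  have hpsg : ∀ η ∈ C, p η ≤ s η + g η := by
    intro η hη
    rw [hC] at hη
    rw [← A_eq hη]
    simp only [s, g]
    have n1 : M {β | β ∈ A k η ∧ hl β ≤ T} ≠ ⊤ := A_ne_top η fun β hβ => hβ.1
    have n2 : M {β | β ∈ A k η ∧ (T : ℤ) < hl β} ≠ ⊤ := A_ne_top η fun β hβ => hβ.1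
    rw [← ENNReal.toReal_add n1 n2]
    refine ENNReal.toReal_mono (ENNReal.add_ne_top.2 ⟨n1, n2⟩) ?_
    refine le_trans (M_mono fun β hβ => ?_) (M_union_le _ _)
    rcases le_or_gt (hl β) T with h | h
    · exact Or.inl ⟨hβ, h⟩
    · exact Or.inr ⟨hβ, h⟩
  have hgG : ∑ η ∈ C, g η ≤ (GG k T).toReal := by
    simp only [g]
    rw [← ENNReal.toReal_sum (fun η _ => A_ne_top η fun β hβ => hβ.1)]
    refine ENNReal.toReal_mono (GG_ne_top k T) ?_
    refine M_sum_le' C (fun η => {β | β ∈ A k η ∧ (T : ℤ) < hl β}) _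
      (fun η _ β hβ => ⟨hβ.1.1, hβ.2⟩) ?_
    intro η hη η₁ hη₁ β hβ hβ₁
    rw [hC] at hη hη₁
    exact prefix_eq hη hη₁ hβ.1.2 hβ₁.1.2
  have hp1 : ∑ η ∈ C, p η = 1 := by rw [hC]; exact p_sum k
  have hterm : ∀ η ∈ C, ∀ η' ∈ C, |Q T η η' - p η * p η'| ≤
      (Q T η η' - p η * p η') + 2 * (g η * p η' + p η * g η') := by
    intro η hη η' hη'
    have h1 := Q_ge (k := k) (T := T) η η'
    have h2 : s η * s η' ≤ Q T η η' := h1
    have h3 := hsp η hη
    have h4 := hsp η' hη'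
    have h5 := hpsg η hη
    have h6 := hpsg η' hη'
    have h7 := p_nonneg η
    have h8 := p_nonneg η'
    have h9 := hg0 η
    have h10 := hg0 η'
    have h11 : (p η - s η) * p η' ≤ g η * p η' := mul_le_mul_of_nonneg_right (by linarith) h8
    have h12 : s η * (p η' - s η') ≤ p η * g η' :=
      mul_le_mul h3 (by linarith) (by linarith) h7
    have h13 : 0 ≤ g η * p η' := mul_nonneg h9 h8
    have h14 : 0 ≤ p η * g η' := mul_nonneg h7 h10
    rw [abs_le]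
    constructor
    · nlinarith
    · linarith
  rw [← hC]
  calc ∑ η ∈ C, ∑ η' ∈ C, |Q T η η' - p η * p η'|
      ≤ ∑ η ∈ C, ∑ η' ∈ C, ((Q T η η' - p η * p η') + 2 * (g η * p η' + p η * g η')) :=
        Finset.sum_le_sum fun η hη => Finset.sum_le_sum fun η' hη' => hterm η hη η' hη'
    _ = (∑ η ∈ C, ∑ η' ∈ C, Q T η η') - (∑ η ∈ C, p η) * (∑ η' ∈ C, p η') +
        2 * ((∑ η ∈ C, g η) * (∑ η' ∈ C, p η') + (∑ η ∈ C, p η) * (∑ η' ∈ C, g η')) := by
        simp only [Finset.sum_add_distrib, Finset.sum_sub_distrib, Finset.sum_mul_sum,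
          ← Finset.mul_sum]
    _ ≤ 4 * (GG k T).toReal := by
        rw [hp1]
        have := Q_sum k T
        rw [← hC] at this
        linarith

end Q294.Sl
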