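import Mathlib

/-!
# Excited random walk in a critical environment with slowly decaying cookies

Helper file for MP_3ce60b.  A deterministic environment `ω(z,i) = (1 + a i) / 2` with
`a 1 + … + a n = 1 - 1 / √(1 + log (n + 1))` has `δ = 1` and satisfies all assumptions, but
`X_n / (√n log n) → 0` in probability.
-/

open MeasureTheory ProbabilityTheory Filter Topology
open scoped ENNReal NNReal

namespace Q294.SlowCookies

/-! ## Excited random walks -/

/-- A cookie environment: `w z i` is the probability to step to the right at the `i`-th visit to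
`z`, `i ≥ 1` (the value at `i = 0` plays no role). -/
abbrev Env := ℤ → ℕ → ℝ

/-- The pair (position, number of visits to each site up to now, the present visit included) of the
excited random walk in the environment `w` driven by the uniform random variables `u`. -/
noncomputable def state (w : Env) (u : ℕ → ℝ) : ℕ → ℤ × (ℤ → ℕ)
  | 0 => (0, Function.update (fun _ => 0) 0 1)
  | n + 1 =>
    let s := state w u n
    let y := s.1 + if u n < w s.1 (s.2 s.1) then 1 else -1
    (y, Function.update s.2 y (s.2 y + 1))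

/-- The excited random walk. -/
noncomputable def walk (w : Env) (u : ℕ → ℝ) (n : ℕ) : ℤ := (state w u n).1

/-- `visits x n = #{0 ≤ j ≤ n : x j = x n}`. -/
def visits (x : ℕ → ℤ) (n : ℕ) : ℕ := ((Finset.range (n + 1)).filter (fun j => x j = x n)).card

theorem walk_zero (w : Env) (u : ℕ → ℝ) : walk w u 0 = 0 := rfl

theorem state_snd (w : Env) (u : ℕ → ℝ) (n : ℕ) (z : ℤ) :
    (state w u n).2 z = ((Finset.range (n + 1)).filter (fun j => walk w u j = z)).card := by
  induction n with
  | zero =>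
    by_cases hz : z = 0
    · subst hz
      simp [state, Finset.filter_singleton, walk_zero]
    · simp [state, Finset.filter_singleton, walk_zero, Function.update_of_ne hz, Ne.symm hz]
  | succ n ih =>
    rw [Finset.range_add_one, Finset.filter_insert]
    have h1 : (state w u (n + 1)).2
        = Function.update (state w u n).2 (walk w u (n + 1))
            ((state w u n).2 (walk w u (n + 1)) + 1) := rfl
    rw [h1]
    by_cases hz : walk w u (n + 1) = z
    · rw [if_pos hz, Finset.card_insert_of_notMem (by simp), ← ih, hz, Function.update_self]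
    · rw [if_neg hz, ← ih, Function.update_of_ne (Ne.symm hz)]

/-- The transition rule of the excited random walk. -/
theorem walk_succ (w : Env) (u : ℕ → ℝ) (n : ℕ) :
    walk w u (n + 1) = walk w u n +
      if u n < w (walk w u n) (visits (walk w u) n) then 1 else -1 := by
  have h1 : walk w u (n + 1) = walk w u n +
      if u n < w (walk w u n) ((state w u n).2 (walk w u n)) then 1 else -1 := rfl
  rw [h1, state_snd]
  rfl

theorem visits_pos (x : ℕ → ℤ) (n : ℕ) : 1 ≤ visits x n := by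
  refine Finset.card_pos.2 ⟨n, ?_⟩
  simp

theorem visits_le (x : ℕ → ℤ) (n : ℕ) : visits x n ≤ n + 1 := by
  refine (Finset.card_filter_le _ _).trans ?_
  simp

theorem visits_lt (x : ℕ → ℤ) {i j : ℕ} (hij : i < j) (hx : x i = x j) :
    visits x i < visits x j := by
  refine Finset.card_lt_card ?_
  rw [Finset.ssubset_iff_subset_ne]
  constructor
  · intro k hk
    simp only [Finset.mem_filter, Finset.mem_range] at hk ⊢
    exact ⟨by omega, by rw [hk.2, hx]⟩
  · intro h
    have : j ∈ (Finset.range (i + 1)).filter (fun k => x k = x i) := by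
      rw [h]; simp
    simp only [Finset.mem_filter, Finset.mem_range] at this
    omega

/-! ## The deterministic bound -/

/-- The drift consumed in the first `n` steps, in an environment `w z i = (1 + a i) / 2`. -/
noncomputable def cons (a : ℕ → ℝ) (x : ℕ → ℤ) (n : ℕ) : ℝ := ∑ j ∈ Finset.range n, a (visits x j)

theorem cons_nonneg {a : ℕ → ℝ} (ha : ∀ i, 0 ≤ a i) (x : ℕ → ℤ) (n : ℕ) : 0 ≤ cons a x n :=
  Finset.sum_nonneg fun _ _ => ha _

theorem cons_le {a : ℕ → ℝ} (ha : ∀ i, 0 ≤ a i) (x : ℕ → ℤ) {k n : ℕ} (hk : k ≤ n) :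
    cons a x k ≤ (((Finset.range k).image x).card : ℝ) * ∑ i ∈ Finset.range (n + 1), a i := by
  unfold cons
  rw [← Finset.sum_fiberwise_of_maps_to (g := x) (t := (Finset.range k).image x)
    (fun j hj => Finset.mem_image_of_mem x hj)]
  rw [← nsmul_eq_mul]
  refine Finset.sum_le_card_nsmul _ _ _ fun z _ => ?_
  have hinj : Set.InjOn (visits x) ((Finset.range k).filter (fun j => x j = z) : Finset ℕ) := by
    intro i hi j hj hij
    simp only [Finset.coe_filter, Finset.mem_range, Set.mem_ofPred_eq] at hi hj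
    rcases lt_trichotomy i j with h | h | h
    · exact absurd hij (visits_lt x h (by rw [hi.2, hj.2])).ne
    · exact h
    · exact absurd hij (visits_lt x h (by rw [hi.2, hj.2])).ne'
  rw [← Finset.sum_image (f := a) hinj]
  refine Finset.sum_le_sum_of_subset_of_nonneg ?_ fun _ _ _ => ha _
  intro i hi
  rw [Finset.mem_image] at hi
  obtain ⟨j, hj, rfl⟩ := hi
  simp only [Finset.mem_filter, Finset.mem_range] at hj
  have := visits_le x j
  rw [Finset.mem_range]
  omega

/-- If the martingale part stays below `A` up to time `n`, then the walk stays below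
`(2 A + 1) / (1 - g)`, where `g` is the total drift in the first `n` cookies. -/
theorem walk_bound {a : ℕ → ℝ} (ha : ∀ i, 0 ≤ a i) (x : ℕ → ℤ) (hx0 : x 0 = 0) (n : ℕ) {g A : ℝ}
    (hg : ∑ i ∈ Finset.range (n + 1), a i ≤ g) (hg1 : g < 1) (hA : 0 ≤ A)
    (hM : ∀ k ≤ n, |(x k : ℝ) - cons a x k| ≤ A) :
    ∀ k ≤ n, |(x k : ℝ)| ≤ (2 * A + 1) / (1 - g) := by
  have hg0 : 0 ≤ g := (Finset.sum_nonneg fun i _ => ha i).trans hg
  have hlow : ∀ k ≤ n, -A ≤ (x k : ℝ) := fun k hk => by
    have h1 := (abs_le.1 (hM k hk)).1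
    have h2 := cons_nonneg ha x k
    linarith
  obtain ⟨m, hm, hmax⟩ := Finset.exists_max_image (Finset.range (n + 1)) x ⟨0, by simp⟩
  rw [Finset.mem_range] at hm
  have hxm0 : 0 ≤ x m := by
    have := hmax 0 (by simp)
    rwa [hx0] at this
  have hcard : (((Finset.range m).image x).card : ℝ) ≤ x m + A + 1 := by
    have hsub : (Finset.range m).image x ⊆ Finset.Icc ⌈-A⌉ (x m) := by
      intro z hz
      rw [Finset.mem_image] at hz
      obtain ⟨j, hj, rfl⟩ := hz
      rw [Finset.mem_range] at hj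
      rw [Finset.mem_Icc]
      exact ⟨Int.ceil_le.2 (hlow j (by omega)), hmax j (by rw [Finset.mem_range]; omega)⟩
    have h1 := Finset.card_le_card hsub
    rw [Int.card_Icc] at h1
    have h2 : ⌈-A⌉ ≤ x m := by
      refine Int.ceil_le.2 ?_
      have : (0 : ℝ) ≤ x m := by exact_mod_cast hxm0
      linarith
    have h3 : (((x m + 1 - ⌈-A⌉).toNat : ℕ) : ℤ) = x m + 1 - ⌈-A⌉ := by
      rw [Int.toNat_of_nonneg]; omega
    have h4 : (((x m + 1 - ⌈-A⌉).toNat : ℕ) : ℝ) = x m + 1 - ⌈-A⌉ := by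
      exact_mod_cast h3
    have h5 : (((Finset.range m).image x).card : ℝ) ≤ ((x m + 1 - ⌈-A⌉).toNat : ℕ) := by
      exact_mod_cast h1
    have h6 := Int.le_ceil (-A)
    linarith
  have hD : cons a x m ≤ g * (x m + A + 1) := by
    refine (cons_le ha x (show m ≤ n by omega)).trans ?_
    rw [mul_comm g]
    exact mul_le_mul hcard hg (Finset.sum_nonneg fun i _ => ha i) (by
      have : (0 : ℝ) ≤ x m := by exact_mod_cast hxm0
      linarith)
  have hxm : (x m : ℝ) ≤ A + g * (x m + A + 1) := by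
    have h1 := (abs_le.1 (hM m (by omega))).2
    linarith
  have h1g : 0 < 1 - g := by linarith
  have hxm' : (x m : ℝ) ≤ (2 * A + 1) / (1 - g) := by
    rw [le_div_iff₀ h1g]
    nlinarith
  have hA' : A ≤ (2 * A + 1) / (1 - g) := by
    rw [le_div_iff₀ h1g]
    nlinarith
  intro k hk
  rw [abs_le]
  constructor
  · have := hlow k hk
    linarith
  · have h1 : (x k : ℝ) ≤ x m := by exact_mod_cast hmax k (by rw [Finset.mem_range]; omega)
    linarith

/-! ## The probability space -/

/-- The uniform distribution on `[0,1]`. -/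
noncomputable def unif : Measure ℝ := volume.restrict (Set.Icc 0 1)

instance : IsProbabilityMeasure unif := ⟨by simp [unif]⟩

/-- The law of a sequence of independent uniform variables on `[0,1]`. -/
noncomputable def noise : Measure (ℕ → ℝ) := Measure.infinitePi (fun _ => unif)

instance : IsProbabilityMeasure noise := by unfold noise; infer_instance

/-- The σ-algebra of the first `n` uniform variables. -/
def filt : Filtration ℕ (inferInstance : MeasurableSpace (ℕ → ℝ)) where
  seq n := MeasurableSpace.comap (fun u : ℕ → ℝ => (Finset.range n).restrict u) inferInstance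
  mono' m n hmn := by
    refine Measurable.comap_le ?_
    rw [@measurable_pi_iff]
    intro i
    have hi : (i : ℕ) ∈ Finset.range n := by
      have := i.2
      rw [Finset.mem_range] at this ⊢
      omega
    exact (measurable_pi_apply (⟨i, hi⟩ : Finset.range n)).comp
      (comap_measurable (fun u : ℕ → ℝ => (Finset.range n).restrict u))
  le' n := (by fun_prop : Measurable (fun u : ℕ → ℝ => (Finset.range n).restrict u)).comap_le

theorem measurable_eval {i n : ℕ} (hi : i < n) : Measurable[filt n] (fun u : ℕ → ℝ => u i) :=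
  (measurable_pi_apply (⟨i, Finset.mem_range.2 hi⟩ : Finset.range n)).comp
    (comap_measurable (fun u : ℕ → ℝ => (Finset.range n).restrict u))

theorem measurable_visits {m : MeasurableSpace (ℕ → ℝ)} {X : (ℕ → ℝ) → ℕ → ℤ} {n : ℕ}
    (hX : ∀ j ≤ n, Measurable[m] (fun u => X u j)) :
    Measurable[m] (fun u => visits (X u) n) := by
  simp only [visits, Finset.card_filter]
  refine Finset.measurable_sum _ fun j hj => ?_
  rw [Finset.mem_range] at hj
  exact Measurable.ite (measurableSet_eq_fun (hX j (by omega)) (hX n le_rfl)) measurable_const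
    measurable_const

theorem measurable_walk_aux (w : Env) (n : ℕ) :
    ∀ j ≤ n, Measurable[filt n] (fun u => walk w u j) := by
  induction n with
  | zero =>
    intro j hj
    obtain rfl : j = 0 := by omega
    simp only [walk_zero]
    exact measurable_const
  | succ n ih =>
    have ih' : ∀ j ≤ n, Measurable[filt (n + 1)] (fun u => walk w u j) := fun j hj =>
      (ih j hj).mono (filt.mono (Nat.le_succ n)) le_rfl
    intro j hj
    rcases Nat.lt_or_ge j (n + 1) with h | h
    · exact ih' j (by omega)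
    · obtain rfl : j = n + 1 := by omega
      simp only [walk_succ]
      have hV : Measurable[filt (n + 1)] (fun u => visits (walk w u) n) := measurable_visits ih'
      have hp : Measurable[filt (n + 1)] (fun u => w (walk w u n) (visits (walk w u) n)) := by
        have h1 : Measurable (fun q : ℤ × ℕ => w q.1 q.2) := Measurable.of_discrete
        exact h1.comp ((ih' n le_rfl).prodMk hV)
      refine (ih' n le_rfl).add (Measurable.ite ?_ measurable_const measurable_const)
      exact measurableSet_lt (measurable_eval (Nat.lt_succ_self n)) hp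

theorem measurable_walk (w : Env) {j n : ℕ} (hj : j ≤ n) :
    Measurable[filt n] (fun u => walk w u j) := measurable_walk_aux w n j hj

theorem measurable_walk' (w : Env) (j : ℕ) : Measurable (fun u => walk w u j) :=
  (measurable_walk w le_rfl).mono (filt.le j) le_rfl

theorem indep_filt (n : ℕ) :
    Indep (filt n) (MeasurableSpace.comap (fun u : ℕ → ℝ => u n) inferInstance) noise := by
  have h : iIndepFun (fun (i : ℕ) (u : ℕ → ℝ) => u i) noise :=
    iIndepFun_infinitePi (P := fun _ : ℕ => unif) (X := fun _ x => x) (fun _ => measurable_id)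
  have h2 := h.indepFun_finset (Finset.range n) {n} (by simp) (fun i => measurable_pi_apply i)
  have h3 : IndepFun (fun (u : ℕ → ℝ) (i : Finset.range n) => u i) (fun u : ℕ → ℝ => u n) noise :=
    h2.comp (φ := id) (ψ := fun y : (({n} : Finset ℕ) → ℝ) => y ⟨n, by simp⟩) measurable_id
      (measurable_pi_apply _)
  exact h3

theorem noise_lt (n : ℕ) {c : ℝ} (hc0 : 0 ≤ c) (hc1 : c ≤ 1) :
    ∫ u : ℕ → ℝ, (if u n < c then (1 : ℝ) else 0) ∂noise = c := by
  have h1 : ∫ u : ℕ → ℝ, (if u n < c then (1 : ℝ) else 0) ∂noise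
      = ∫ x, (if x < c then (1 : ℝ) else 0) ∂(noise.map (fun u : ℕ → ℝ => u n)) := by
    rw [integral_map (measurable_pi_apply n).aemeasurable]
    refine Measurable.aestronglyMeasurable ?_
    exact Measurable.ite measurableSet_Iio measurable_const measurable_const
  have h2 : noise.map (fun u : ℕ → ℝ => u n) = unif :=
    Measure.infinitePi_map_eval (fun _ : ℕ => unif) n
  rw [h1, h2]
  have h3 : (fun x : ℝ => if x < c then (1 : ℝ) else 0) = (Set.Iio c).indicator 1 := by
    ext x
    simp [Set.indicator_apply]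
  rw [h3, integral_indicator_one measurableSet_Iio, unif, measureReal_restrict_apply
    measurableSet_Iio]
  have h4 : Set.Iio c ∩ Set.Icc 0 1 = Set.Ico 0 c := by
    ext x
    simp only [Set.mem_inter_iff, Set.mem_Iio, Set.mem_Icc, Set.mem_Ico]
    constructor
    · rintro ⟨h, h', h''⟩; exact ⟨h', h⟩
    · rintro ⟨h, h'⟩; exact ⟨h', h, by linarith⟩
  rw [h4]
  simp [Measure.real, hc0]

/-- A bounded function of the first `n` variables is orthogonal to the centred indicator of
`u n < c`. -/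
theorem integral_orth (n : ℕ) {c : ℝ} (hc0 : 0 ≤ c) (hc1 : c ≤ 1) {G : (ℕ → ℝ) → ℝ}
    (hG : Measurable[filt n] G) :
    ∫ u, G u * ((if u n < c then (1 : ℝ) else 0) - c) ∂noise = 0 := by
  have hH : Measurable (fun x : ℝ => (if x < c then (1 : ℝ) else 0) - c) :=
    (Measurable.ite measurableSet_Iio measurable_const measurable_const).sub_const _
  have hind : IndepFun G (fun u : ℕ → ℝ => (if u n < c then (1 : ℝ) else 0) - c) noise := by
    have h1 := indep_filt n
    refine indep_of_indep_of_le_left (indep_of_indep_of_le_right h1 ?_) hG.comap_le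
    refine Measurable.comap_le ?_
    exact hH.comp (comap_measurable (fun u : ℕ → ℝ => u n))
  rw [hind.integral_fun_mul_eq_mul_integral (hG.mono (filt.le n) le_rfl).aestronglyMeasurable
    (hH.comp (measurable_pi_apply n)).aestronglyMeasurable]
  have h2 : ∫ u : ℕ → ℝ, ((if u n < c then (1 : ℝ) else 0) - c) ∂noise = 0 := by
    rw [integral_sub, noise_lt n hc0 hc1]
    · simp
    · refine Integrable.of_bound (Measurable.aestronglyMeasurable ?_) 1 (ae_of_all _ fun u => ?_)
      · exact Measurable.ite (measurableSet_lt (measurable_pi_apply n) measurable_const)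
          measurable_const measurable_const
      · split_ifs <;> simp
    · exact integrable_const _
  rw [h2, mul_zero]

/-! ## The martingale -/

/-- The homogeneous environment with `i`-th cookie `(1 + a i) / 2`. -/
noncomputable def env (a : ℕ → ℝ) : Env := fun _ i => (1 + a i) / 2

/-- The martingale part of the walk. -/
noncomputable def mart (a : ℕ → ℝ) (n : ℕ) (u : ℕ → ℝ) : ℝ :=
  (walk (env a) u n : ℝ) - cons a (walk (env a) u) n

/-- The increments of `mart`. -/
noncomputable def incr (a : ℕ → ℝ) (n : ℕ) (u : ℕ → ℝ) : ℝ :=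
  2 * ((if u n < (1 + a (visits (walk (env a) u) n)) / 2 then (1 : ℝ) else 0)
    - (1 + a (visits (walk (env a) u) n)) / 2)

theorem mart_succ (a : ℕ → ℝ) (n : ℕ) (u : ℕ → ℝ) :
    mart a (n + 1) u = mart a n u + incr a n u := by
  unfold mart incr cons
  have h : env a (walk (env a) u n) (visits (walk (env a) u) n)
      = (1 + a (visits (walk (env a) u) n)) / 2 := rfl
  rw [Finset.sum_range_succ, walk_succ, h]
  by_cases hu : u n < (1 + a (visits (walk (env a) u) n)) / 2
  · rw [if_pos hu, if_pos hu]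
    push_cast
    ring
  · rw [if_neg hu, if_neg hu]
    push_cast
    ring

theorem mart_zero (a : ℕ → ℝ) (u : ℕ → ℝ) : mart a 0 u = 0 := by
  simp [mart, cons, walk_zero]

variable {a : ℕ → ℝ}

theorem abs_incr_le (ha0 : ∀ i, 0 ≤ a i) (ha1 : ∀ i, a i ≤ 1) (n : ℕ) (u : ℕ → ℝ) :
    |incr a n u| ≤ 2 := by
  have h0 := ha0 (visits (walk (env a) u) n)
  have h1 := ha1 (visits (walk (env a) u) n)
  unfold incr
  rw [abs_le]
  split_ifs <;> constructor <;> linarith

theorem abs_mart_le (ha0 : ∀ i, 0 ≤ a i) (ha1 : ∀ i, a i ≤ 1) (n : ℕ) (u : ℕ → ℝ) :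
    |mart a n u| ≤ 2 * n := by
  induction n with
  | zero => simp [mart_zero]
  | succ n ih =>
    rw [mart_succ]
    push_cast
    have := abs_incr_le ha0 ha1 n u
    have := abs_add_le (mart a n u) (incr a n u)
    linarith

theorem measurable_vis (w : Env) {j n : ℕ} (hj : j ≤ n) :
    Measurable[filt n] (fun u => visits (walk w u) j) :=
  measurable_visits fun i hi => measurable_walk w (hi.trans hj)

theorem measurable_mart (a : ℕ → ℝ) (n : ℕ) : Measurable[filt n] (mart a n) := by
  have h1 : Measurable[filt n] (fun u => (walk (env a) u n : ℝ)) :=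
    (Measurable.of_discrete (f := fun z : ℤ => (z : ℝ))).comp (measurable_walk (env a) le_rfl)
  have h2 : Measurable[filt n] (fun u => cons a (walk (env a) u) n) := by
    unfold cons
    refine Finset.measurable_sum _ fun j hj => ?_
    rw [Finset.mem_range] at hj
    exact (Measurable.of_discrete (f := a)).comp (measurable_vis (env a) hj.le)
  exact h1.sub h2

theorem measurable_mart' (a : ℕ → ℝ) (n : ℕ) : Measurable (mart a n) :=
  (measurable_mart a n).mono (filt.le n) le_rfl

theorem measurable_incr (a : ℕ → ℝ) (n : ℕ) : Measurable (incr a n) := by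
  have h : incr a n = fun u => mart a (n + 1) u - mart a n u := by
    funext u
    rw [mart_succ]; ring
  rw [h]
  exact (measurable_mart' a _).sub (measurable_mart' a _)

theorem orth (ha0 : ∀ i, 0 ≤ a i) (ha1 : ∀ i, a i ≤ 1) (n : ℕ) {G : (ℕ → ℝ) → ℝ} {K : ℝ}
    (hG : Measurable[filt n] G) (hK : ∀ u, |G u| ≤ K) :
    ∫ u, G u * incr a n u ∂noise = 0 := by
  have hK0 : 0 ≤ K := (abs_nonneg _).trans (hK 0)
  set V : (ℕ → ℝ) → ℕ := fun u => visits (walk (env a) u) n with hVdef
  have hV : Measurable[filt n] V := measurable_vis (env a) le_rfl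
  have hset : ∀ i, MeasurableSet[filt n] {u | V u = i} := fun i =>
    hV (measurableSet_singleton i)
  have hG' : ∀ i : ℕ, Measurable[filt n] (fun u => G u * (if V u = i then (2 : ℝ) else 0)) :=
    fun i => hG.mul (Measurable.ite (hset i) measurable_const measurable_const)
  have hsum : ∀ u, G u * incr a n u = ∑ i ∈ Finset.range (n + 2),
      (G u * (if V u = i then (2 : ℝ) else 0)) *
        ((if u n < (1 + a i) / 2 then (1 : ℝ) else 0) - (1 + a i) / 2) := by
    intro u
    rw [Finset.sum_eq_single (V u)]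
    · simp only [if_true, incr, hVdef]
      ring
    · intro i _ hi
      rw [if_neg (Ne.symm hi)]
      ring
    · intro h
      exact absurd (Finset.mem_range.2 (by have := visits_le (walk (env a) u) n; simp only [hVdef]; omega)) h
  simp_rw [hsum]
  rw [integral_finsetSum]
  · refine Finset.sum_eq_zero fun i _ => ?_
    exact integral_orth n (by have := ha0 i; linarith) (by have := ha1 i; linarith) (hG' i)
  · intro i _
    refine Integrable.of_bound (Measurable.aestronglyMeasurable ?_) (K * 2 * 2)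
      (ae_of_all _ fun u => ?_)
    · refine ((hG' i).mono (filt.le n) le_rfl).mul (Measurable.sub_const ?_ _)
      exact Measurable.ite (measurableSet_lt (measurable_pi_apply n) measurable_const)
          measurable_const measurable_const
    · have h0 := ha0 i
      have h1 := ha1 i
      rw [Real.norm_eq_abs, abs_mul, abs_mul]
      refine mul_le_mul (mul_le_mul (hK u) ?_ (abs_nonneg _) hK0) ?_ (abs_nonneg _) (by positivity)
      · split_ifs <;> simp
      · rw [abs_le]
        split_ifs <;> constructor <;> linarith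

theorem integrable_sq (ha0 : ∀ i, 0 ≤ a i) (ha1 : ∀ i, a i ≤ 1) (n : ℕ) :
    Integrable (fun u => mart a n u ^ 2) noise := by
  refine Integrable.of_bound ((measurable_mart' a n).pow_const 2).aestronglyMeasurable
    ((2 * n) ^ 2) (ae_of_all _ fun u => ?_)
  rw [Real.norm_eq_abs, abs_pow]
  exact pow_le_pow_left₀ (abs_nonneg _) (abs_mart_le ha0 ha1 n u) 2

theorem integrable_mul (ha0 : ∀ i, 0 ≤ a i) (ha1 : ∀ i, a i ≤ 1) (n : ℕ) :
    Integrable (fun u => mart a n u * incr a n u) noise := by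
  refine Integrable.of_bound ((measurable_mart' a n).mul (measurable_incr a n)).aestronglyMeasurable
    ((2 * n) * 2) (ae_of_all _ fun u => ?_)
  rw [Real.norm_eq_abs, abs_mul]
  exact mul_le_mul (abs_mart_le ha0 ha1 n u) (abs_incr_le ha0 ha1 n u) (abs_nonneg _)
    (by positivity)

theorem integrable_incr_sq (ha0 : ∀ i, 0 ≤ a i) (ha1 : ∀ i, a i ≤ 1) (n : ℕ) :
    Integrable (fun u => incr a n u ^ 2) noise := by
  refine Integrable.of_bound ((measurable_incr a n).pow_const 2).aestronglyMeasurable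
    (2 ^ 2) (ae_of_all _ fun u => ?_)
  rw [Real.norm_eq_abs, abs_pow]
  exact pow_le_pow_left₀ (abs_nonneg _) (abs_incr_le ha0 ha1 n u) 2

theorem integral_sq_le (ha0 : ∀ i, 0 ≤ a i) (ha1 : ∀ i, a i ≤ 1) (n : ℕ) :
    ∫ u, mart a n u ^ 2 ∂noise ≤ 4 * n := by
  induction n with
  | zero => simp [mart_zero]
  | succ n ih =>
    have h1 : ∀ u, mart a (n + 1) u ^ 2
        = mart a n u ^ 2 + 2 * (mart a n u * incr a n u) + incr a n u ^ 2 := fun u => by
      rw [mart_succ]; ring
    simp_rw [h1]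
    rw [integral_add, integral_add, integral_const_mul,
      orth ha0 ha1 n (measurable_mart a n) (abs_mart_le ha0 ha1 n)]
    · have h2 : ∫ u, incr a n u ^ 2 ∂noise ≤ 4 := by
        have h3 : ∫ u, incr a n u ^ 2 ∂noise ≤ ∫ _u, (4 : ℝ) ∂noise := by
          refine integral_mono (integrable_incr_sq ha0 ha1 n) (integrable_const _) fun u => ?_
          have := abs_incr_le ha0 ha1 n u
          have h4 : |incr a n u| ^ 2 ≤ 2 ^ 2 := pow_le_pow_left₀ (abs_nonneg _) this 2
          rw [sq_abs] at h4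
          simpa using h4.trans (by norm_num)
        simpa using h3
      push_cast
      linarith
    · exact integrable_sq ha0 ha1 n
    · exact (integrable_mul ha0 ha1 n).const_mul 2
    · exact (integrable_sq ha0 ha1 n).add ((integrable_mul ha0 ha1 n).const_mul 2)
    · exact integrable_incr_sq ha0 ha1 n

theorem submart (ha0 : ∀ i, 0 ≤ a i) (ha1 : ∀ i, a i ≤ 1) :
    Submartingale (fun n u => mart a n u ^ 2) filt noise := by
  refine submartingale_of_setIntegral_le_succ (fun n => ?_) (integrable_sq ha0 ha1) ?_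
  · exact ((measurable_mart a n).pow_const 2).stronglyMeasurable
  · intro n s hs
    have hs' : MeasurableSet s := filt.le n _ hs
    have h1 : ∀ u, mart a (n + 1) u ^ 2
        = mart a n u ^ 2 + 2 * (mart a n u * incr a n u) + incr a n u ^ 2 := fun u => by
      rw [mart_succ]; ring
    have h2 : ∫ u in s, mart a n u * incr a n u ∂noise = 0 := by
      rw [← integral_indicator hs']
      have h3 : (fun u => s.indicator (fun u => mart a n u * incr a n u) u)
          = fun u => s.indicator (mart a n) u * incr a n u := by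
        funext u
        by_cases hu : u ∈ s
        · simp [hu]
        · simp [hu]
      rw [h3]
      refine orth ha0 ha1 n (K := 2 * n) ((measurable_mart a n).indicator hs) fun u => ?_
      by_cases hu : u ∈ s
      · simpa [hu] using abs_mart_le ha0 ha1 n u
      · simp [hu]
    simp_rw [h1]
    rw [integral_add, integral_add, integral_const_mul, h2, mul_zero, add_zero]
    · have : 0 ≤ ∫ u in s, incr a n u ^ 2 ∂noise := integral_nonneg fun u => sq_nonneg _
      linarith
    · exact (integrable_sq ha0 ha1 n).integrableOn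
    · exact ((integrable_mul ha0 ha1 n).const_mul 2).integrableOn
    · exact ((integrable_sq ha0 ha1 n).add ((integrable_mul ha0 ha1 n).const_mul 2)).integrableOn
    · exact (integrable_incr_sq ha0 ha1 n).integrableOn

/-- Doob's maximal inequality for the martingale. -/
theorem maximal (ha0 : ∀ i, 0 ≤ a i) (ha1 : ∀ i, a i ≤ 1) (n : ℕ) {A : ℝ} (hA : 0 < A) :
    noise {u | ∃ k ≤ n, A < |mart a k u|} ≤ ENNReal.ofReal (4 * n / A ^ 2) := by
  obtain ⟨ε, hε, hε'⟩ : ∃ ε : ℝ≥0, (ε : ℝ) = A ^ 2 ∧ (ε : ℝ≥0∞) = ENNReal.ofReal (A ^ 2) :=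
    ⟨(A ^ 2).toNNReal, Real.coe_toNNReal _ (sq_nonneg _), rfl⟩
  have h := maximal_ineq (submart ha0 ha1) (fun n u => sq_nonneg _) (ε := ε) n
  have hsub : {u | ∃ k ≤ n, A < |mart a k u|} ⊆ {u | (ε : ℝ)
      ≤ (Finset.range (n + 1)).sup' Finset.nonempty_range_add_one fun k => mart a k u ^ 2} := by
    rintro u ⟨k, hk, hku⟩
    simp only [Set.mem_ofPred_eq, hε]
    refine le_trans ?_ (Finset.le_sup' (fun k => mart a k u ^ 2)
      (Finset.mem_range.2 (Nat.lt_succ_of_le hk)))
    rw [← sq_abs (mart a k u)]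
    exact pow_le_pow_left₀ hA.le hku.le 2
  have h2 : ENNReal.ofReal (∫ u in {u | (ε : ℝ)
      ≤ (Finset.range (n + 1)).sup' Finset.nonempty_range_add_one fun k => mart a k u ^ 2},
      mart a n u ^ 2 ∂noise) ≤ ENNReal.ofReal (4 * n) := by
    refine ENNReal.ofReal_le_ofReal ?_
    exact (setIntegral_le_integral (integrable_sq ha0 ha1 n)
      (ae_of_all _ fun u => sq_nonneg _)).trans (integral_sq_le ha0 ha1 n)
  have h3 : (ε : ℝ≥0∞) * noise {u | ∃ k ≤ n, A < |mart a k u|} ≤ ENNReal.ofReal (4 * n) :=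
    (by gcongr : (ε : ℝ≥0∞) * noise {u | ∃ k ≤ n, A < |mart a k u|} ≤ _).trans (h.trans h2)
  rw [hε'] at h3
  rw [ENNReal.ofReal_div_of_pos (by positivity), ENNReal.le_div_iff_mul_le, mul_comm]
  · exact h3
  · left
    simpa using hA.ne'
  · left
    exact ENNReal.ofReal_ne_top

/-! ## The environment -/

/-- `r n = 1 / √(1 + log (n + 1))`. -/
noncomputable def rr (n : ℕ) : ℝ := 1 / √(1 + Real.log (n + 1))

/-- The cookies: `a 1 + … + a n = 1 - r n`. -/
noncomputable def aa (i : ℕ) : ℝ := rr (i - 1) - rr i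

theorem log_nonneg' (n : ℕ) : 0 ≤ Real.log ((n : ℝ) + 1) :=
  Real.log_nonneg (by have : (0 : ℝ) ≤ n := n.cast_nonneg; linarith)

theorem rr_pos (n : ℕ) : 0 < rr n := by
  have := log_nonneg' n
  unfold rr
  positivity

theorem rr_zero : rr 0 = 1 := by simp [rr]

theorem rr_strictAnti : StrictAnti rr := by
  refine strictAnti_nat_of_succ_lt fun n => ?_
  unfold rr
  have h0 := log_nonneg' n
  have h1 : Real.log ((n : ℝ) + 1) < Real.log (((n + 1 : ℕ) : ℝ) + 1) := by
    refine Real.log_lt_log (by positivity) ?_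
    push_cast
    linarith
  refine one_div_lt_one_div_of_lt (by positivity) ?_
  exact Real.sqrt_lt_sqrt (by linarith) (by linarith)

theorem rr_tendsto : Tendsto rr atTop (𝓝 0) := by
  unfold rr
  simp_rw [one_div]
  refine tendsto_inv_atTop_zero.comp (Real.tendsto_sqrt_atTop.comp ?_)
  refine tendsto_atTop_add_const_left _ _ (Real.tendsto_log_atTop.comp ?_)
  exact tendsto_atTop_add_const_right _ _ tendsto_natCast_atTop_atTop

theorem aa_nonneg (i : ℕ) : 0 ≤ aa i := by
  unfold aa
  have := rr_strictAnti.antitone (Nat.sub_le i 1)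
  linarith

/-- A common upper bound of the cookies, smaller than one. -/
noncomputable def qq : ℝ := max (1 - rr 1) (rr 1)

theorem qq_lt : qq < 1 := by
  refine max_lt ?_ ?_
  · have := rr_pos 1
    linarith
  · have := rr_strictAnti (show 0 < 1 by norm_num)
    rwa [rr_zero] at this

theorem aa_le (i : ℕ) : aa i ≤ qq := by
  unfold aa qq
  have hi := rr_pos i
  rcases Nat.lt_or_ge i 2 with h | h
  · have h0 : i - 1 = 0 := by omega
    rw [h0, rr_zero]
    refine le_max_of_le_left ?_
    have := rr_strictAnti.antitone (show i ≤ 1 by omega)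
    linarith
  · refine le_max_of_le_right ?_
    have := rr_strictAnti.antitone (show 1 ≤ i - 1 by omega)
    linarith

theorem aa_le_one (i : ℕ) : aa i ≤ 1 := (aa_le i).trans qq_lt.le

theorem sum_aa (n : ℕ) : ∑ i ∈ Finset.range (n + 1), aa i = 1 - rr n := by
  induction n with
  | zero => simp [aa, rr_zero]
  | succ n ih =>
    rw [Finset.sum_range_succ, ih]
    simp [aa]

/-! ## The walk is small -/

theorem small_aux {K c C : ℝ} (hc : 0 < c) :
    ∀ᶠ n : ℕ in atTop, (2 * K * √n + 1) * √(C + Real.log n) < c * (√n * Real.log n) ∧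
      0 < Real.log n ∧ 1 ≤ n := by
  have h1 : Tendsto (fun n : ℕ => Real.log n) atTop atTop :=
    Real.tendsto_log_atTop.comp tendsto_natCast_atTop_atTop
  filter_upwards [h1.eventually_ge_atTop (max (max 1 |C|) (2 * (2 * |K| + 1) ^ 2 / c ^ 2 + 1)),
    eventually_ge_atTop 1] with n hn hn1
  set L := Real.log n
  have hL1 : 1 ≤ L := (le_max_left _ _).trans ((le_max_left _ _).trans hn)
  have hLC : |C| ≤ L := (le_max_right _ _).trans ((le_max_left _ _).trans hn)
  have hLK : 2 * (2 * |K| + 1) ^ 2 / c ^ 2 + 1 ≤ L := (le_max_right _ _).trans hn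
  refine ⟨?_, by linarith, hn1⟩
  have hs : 1 ≤ √(n : ℝ) := Real.one_le_sqrt.2 (by exact_mod_cast hn1)
  have h2 : 2 * K * √(n : ℝ) + 1 ≤ (2 * |K| + 1) * √(n : ℝ) := by
    have := le_abs_self K
    nlinarith
  have h3 : √(C + L) ≤ √(2 * L) := Real.sqrt_le_sqrt (by
    have := le_abs_self C
    linarith)
  have h4 : (2 * |K| + 1) * √(2 * L) < c * L := by
    have hpos : 0 ≤ 2 * |K| + 1 := by positivity
    rw [← Real.sqrt_sq hpos, ← Real.sqrt_mul (sq_nonneg _)]
    rw [show c * L = √((c * L) ^ 2) from (Real.sqrt_sq (by positivity)).symm]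
    refine Real.sqrt_lt_sqrt (by positivity) ?_
    have h5 : 2 * (2 * |K| + 1) ^ 2 / c ^ 2 < L := by linarith
    rw [div_lt_iff₀ (by positivity)] at h5
    nlinarith
  calc (2 * K * √(n : ℝ) + 1) * √(C + L) ≤ (2 * |K| + 1) * √(n : ℝ) * √(2 * L) :=
        mul_le_mul h2 h3 (Real.sqrt_nonneg _) (by positivity)
    _ = √(n : ℝ) * ((2 * |K| + 1) * √(2 * L)) := by ring
    _ < √(n : ℝ) * (c * L) := by
        refine mul_lt_mul_of_pos_left h4 (by linarith)
    _ = c * (√(n : ℝ) * L) := by ring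

/-- The rescaled walk. -/
noncomputable def scaled (b : ℝ) (w : Env) (n : ℕ) (u : ℕ → ℝ) (t : ℝ≥0) : ℝ :=
  (walk w u ⌊(n : ℝ≥0) * t⌋₊ : ℝ) / (b * √n * Real.log n)

/-- The rescaled walk tends to zero in probability, uniformly on compact time intervals. -/
theorem small {b ε : ℝ} (hb : 0 < b) (hε : 0 < ε) (T : ℝ≥0) :
    Tendsto (fun n : ℕ => noise {u | ∃ t ≤ T, ε ≤ |scaled b (env aa) n u t|}) atTop (𝓝 0) := by
  rw [ENNReal.tendsto_nhds_zero]
  intro η hη
  obtain ⟨δ, hδ0, hδη⟩ : ∃ δ : ℝ, 0 < δ ∧ ENNReal.ofReal δ ≤ η := by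
    by_cases h : η = ∞
    · exact ⟨1, one_pos, by rw [h]; exact le_top⟩
    · exact ⟨η.toReal, ENNReal.toReal_pos hη.ne' h, by rw [ENNReal.ofReal_toReal h]⟩
  set K : ℝ := √(4 * (T + 1) / δ) with hKdef
  have hK : 0 < K := Real.sqrt_pos.2 (by positivity)
  have hK2 : K ^ 2 = 4 * (T + 1) / δ := Real.sq_sqrt (by positivity)
  filter_upwards [small_aux (K := K) (C := 1 + Real.log (T + 1)) (c := ε * b)
    (mul_pos hε hb)] with n hn
  obtain ⟨hn, hlog, hn1⟩ := hn
  have hn0 : (0 : ℝ) < n := by exact_mod_cast hn1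
  set N := ⌊(n : ℝ≥0) * T⌋₊ with hN
  have hNle : (N : ℝ) ≤ n * T := by
    have := Nat.floor_le (show (0 : ℝ≥0) ≤ n * T from zero_le)
    exact_mod_cast this
  have hA : 0 < K * √(n : ℝ) := mul_pos hK (Real.sqrt_pos.2 hn0)
  have hsub : {u | ∃ t ≤ T, ε ≤ |scaled b (env aa) n u t|} ⊆
      {u | ∃ k ≤ N, K * √(n : ℝ) < |mart aa k u|} := by
    rintro u ⟨t, ht, hu⟩
    by_contra hcon
    simp only [Set.mem_ofPred_eq, not_exists, not_and, not_lt] at hcon
    have hk : ⌊(n : ℝ≥0) * t⌋₊ ≤ N := Nat.floor_le_floor (by gcongr)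
    have h1 := walk_bound aa_nonneg (walk (env aa) u) (walk_zero _ _) N (g := 1 - rr N)
      (sum_aa N).le (by have := rr_pos N; linarith) hA.le hcon _ hk
    rw [show 1 - (1 - rr N) = rr N by ring] at h1
    have h2 : (2 * (K * √(n : ℝ)) + 1) / rr N
        ≤ (2 * K * √(n : ℝ) + 1) * √(1 + Real.log (T + 1) + Real.log n) := by
      rw [rr, div_div_eq_mul_div, div_one, ← mul_assoc]
      refine mul_le_mul_of_nonneg_left (Real.sqrt_le_sqrt ?_) (by positivity)
      have h3 : Real.log ((N : ℝ) + 1) ≤ Real.log ((T + 1) * n) := by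
        refine Real.log_le_log (by positivity) ?_
        have : (1 : ℝ) ≤ n := by exact_mod_cast hn1
        nlinarith
      rw [Real.log_mul (by positivity) (by positivity)] at h3
      linarith
    have h4 : |scaled b (env aa) n u t| < ε := by
      unfold scaled
      have hd : 0 < b * √(n : ℝ) * Real.log n :=
        mul_pos (mul_pos hb (Real.sqrt_pos.2 hn0)) hlog
      rw [abs_div, abs_of_pos hd, div_lt_iff₀ hd]
      calc |(walk (env aa) u ⌊(n : ℝ≥0) * t⌋₊ : ℝ)| ≤ _ := h1
        _ ≤ _ := h2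
        _ < ε * b * (√(n : ℝ) * Real.log n) := hn
        _ = ε * (b * √(n : ℝ) * Real.log n) := by ring
    exact absurd hu (not_le.2 h4)
  refine (measure_mono hsub).trans ((maximal aa_nonneg aa_le_one N hA).trans
    (le_trans (ENNReal.ofReal_le_ofReal ?_) hδη))
  rw [mul_pow, Real.sq_sqrt hn0.le, hK2, div_le_iff₀ (by positivity)]
  have : δ * (4 * (T + 1) / δ * n) = 4 * (T + 1) * n := by
    field_simp
  rw [this]
  nlinarith

/-! ## Weak convergence in the Skorokhod space `D[0,∞)` -/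

/-- Right-continuous with left limits. -/
def IsCadlag (x : ℝ≥0 → ℝ) : Prop :=
  ∀ t, ContinuousWithinAt x (Set.Ici t) t ∧ ∃ l, Tendsto x (𝓝[<] t) (𝓝 l)

/-- Convergence in the Skorokhod `J₁` topology of `D[0,∞)`: there are increasing bijections `l n` of
`[0,∞)` such that `l n → id` and `x n ∘ l n → y` uniformly on compact sets. -/
def J1Tendsto (x : ℕ → ℝ≥0 → ℝ) (y : ℝ≥0 → ℝ) : Prop :=
  ∃ l : ℕ → (ℝ≥0 ≃o ℝ≥0), ∀ T : ℝ≥0,
    TendstoUniformlyOn (fun n t => l n t) id atTop (Set.Iic T) ∧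
      TendstoUniformlyOn (fun n t => x n (l n t)) y atTop (Set.Iic T)

/-- Weak convergence of the processes `X n` (on the probability space `(Ω, P)`) to the process `Y`
(on `(Ω', Q)`) in `D[0,∞)` with the `J₁` topology: the expectation of every bounded `J₁`-continuous
functional converges. -/
def WeakJ1 {Ω Ω' : Type*} [MeasurableSpace Ω] [MeasurableSpace Ω'] (P : Measure Ω)
    (X : ℕ → Ω → ℝ≥0 → ℝ) (Q : Measure Ω') (Y : Ω' → ℝ≥0 → ℝ) : Prop :=
  ∀ F : (ℝ≥0 → ℝ) → ℝ, (∃ C, ∀ x, |F x| ≤ C) →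
    (∀ x y, (∀ n, IsCadlag (x n)) → IsCadlag y → J1Tendsto x y →
      Tendsto (fun n => F (x n)) atTop (𝓝 (F y))) →
    Tendsto (fun n => ∫ ω, F (X n ω) ∂P) atTop (𝓝 (∫ ω, F (Y ω) ∂Q))

/-- The test functional `sup_t (2 - t)⁺ min(|x t|, 1)`. -/
noncomputable def test (x : ℝ≥0 → ℝ) : ℝ := ⨆ t : ℝ≥0, ((2 - t : ℝ≥0) : ℝ) * min |x t| 1

theorem term_nonneg (t : ℝ≥0) (v : ℝ) : 0 ≤ ((2 - t : ℝ≥0) : ℝ) * min |v| 1 := by
  have := abs_nonneg v
  positivity

theorem two_sub_le (t : ℝ≥0) : ((2 - t : ℝ≥0) : ℝ) ≤ 2 := by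
  have : (2 - t : ℝ≥0) ≤ 2 := tsub_le_self
  exact_mod_cast this

theorem term_le (t : ℝ≥0) (v : ℝ) : ((2 - t : ℝ≥0) : ℝ) * min |v| 1 ≤ 2 := by
  calc ((2 - t : ℝ≥0) : ℝ) * min |v| 1 ≤ 2 * 1 :=
        mul_le_mul (two_sub_le t) (min_le_right _ _)
          (le_min (abs_nonneg _) zero_le_one) (by norm_num)
    _ = 2 := by norm_num

theorem bdd_test (x : ℝ≥0 → ℝ) :
    BddAbove (Set.range fun t : ℝ≥0 => ((2 - t : ℝ≥0) : ℝ) * min |x t| 1) :=
  ⟨2, by rintro _ ⟨t, rfl⟩; exact term_le t _⟩

theorem test_nonneg (x : ℝ≥0 → ℝ) : 0 ≤ test x := Real.iSup_nonneg fun t => term_nonneg t _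

theorem test_le (x : ℝ≥0 → ℝ) : test x ≤ 2 := ciSup_le fun t => term_le t _

theorem abs_test_le (x : ℝ≥0 → ℝ) : |test x| ≤ 2 := by
  rw [abs_of_nonneg (test_nonneg x)]
  exact test_le x

theorem abs_two_sub (s t : ℝ≥0) :
    |((2 - s : ℝ≥0) : ℝ) - ((2 - t : ℝ≥0) : ℝ)| ≤ |(s : ℝ) - t| := by
  rw [NNReal.coe_sub_def, NNReal.coe_sub_def]
  have h := abs_max_sub_max_le_abs ((2 : ℝ≥0) - s : ℝ) ((2 : ℝ≥0) - t : ℝ) 0
  refine h.trans (le_of_eq ?_)
  rw [show ((2 : ℝ≥0) : ℝ) - s - (((2 : ℝ≥0) : ℝ) - t) = -((s : ℝ) - t) by ring, abs_neg]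

theorem term_diff (s t : ℝ≥0) (v w : ℝ) :
    |((2 - s : ℝ≥0) : ℝ) * min |v| 1 - ((2 - t : ℝ≥0) : ℝ) * min |w| 1|
      ≤ |(s : ℝ) - t| + 2 * |v - w| := by
  have h1 : |min |v| 1 - min |w| 1| ≤ |v - w| :=
    (abs_min_sub_min_le_max |v| 1 |w| 1).trans (by
      rw [sub_self, abs_zero, max_eq_left (abs_nonneg _)]
      exact abs_abs_sub_abs_le v w)
  have h2 := abs_two_sub s t
  have h3 : |min |v| 1| ≤ 1 := by
    rw [abs_of_nonneg (le_min (abs_nonneg _) zero_le_one)]
    exact min_le_right _ _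
  have h4 : |((2 - t : ℝ≥0) : ℝ)| ≤ 2 := by
    rw [abs_of_nonneg (NNReal.coe_nonneg _)]
    exact two_sub_le t
  calc |((2 - s : ℝ≥0) : ℝ) * min |v| 1 - ((2 - t : ℝ≥0) : ℝ) * min |w| 1|
      = |(((2 - s : ℝ≥0) : ℝ) - ((2 - t : ℝ≥0) : ℝ)) * min |v| 1
          + ((2 - t : ℝ≥0) : ℝ) * (min |v| 1 - min |w| 1)| := by ring_nf
    _ ≤ |((2 - s : ℝ≥0) : ℝ) - ((2 - t : ℝ≥0) : ℝ)| * |min |v| 1|
          + |((2 - t : ℝ≥0) : ℝ)| * |min |v| 1 - min |w| 1| := by
        rw [← abs_mul, ← abs_mul]
        exact abs_add_le _ _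
    _ ≤ |(s : ℝ) - t| * 1 + 2 * |v - w| := by
        gcongr
    _ = _ := by ring

theorem two_sub_eq_zero {t : ℝ≥0} (h : 2 ≤ t) : ((2 - t : ℝ≥0) : ℝ) = 0 := by
  rw [tsub_eq_zero_of_le h]
  rfl

theorem test_continuous (x : ℕ → ℝ≥0 → ℝ) (y : ℝ≥0 → ℝ) (h : J1Tendsto x y) :
    Tendsto (fun n => test (x n)) atTop (𝓝 (test y)) := by
  obtain ⟨l, hl⟩ := h
  rw [Metric.tendsto_atTop]
  intro ε hε
  obtain ⟨h1, h2⟩ := hl 4
  rw [Metric.tendstoUniformlyOn_iff] at h1 h2
  have hδ : 0 < min (ε / 4) 1 := by positivity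
  obtain ⟨N, hN⟩ := eventually_atTop.1 ((h1 _ hδ).and (h2 _ hδ))
  refine ⟨N, fun n hn => ?_⟩
  obtain ⟨h3, h4⟩ := hN n hn
  have key : ∀ t : ℝ≥0, |((2 - l n t : ℝ≥0) : ℝ) * min |x n (l n t)| 1
      - ((2 - t : ℝ≥0) : ℝ) * min |y t| 1| ≤ 3 * (ε / 4) := by
    intro t
    rcases le_total t 4 with ht | ht
    · have h5 := h3 t ht
      have h6 := h4 t ht
      rw [dist_comm, NNReal.dist_eq] at h5
      rw [dist_comm, Real.dist_eq] at h6
      have h7 := lt_min_iff.1 h5
      have h8 := lt_min_iff.1 h6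
      have h9 := term_diff (l n t) t (x n (l n t)) (y t)
      simp only [id] at h7
      linarith [h7.1, h8.1]
    · have h5 := h3 4 (le_refl (4 : ℝ≥0))
      rw [NNReal.dist_eq] at h5
      have h6 := (abs_lt.1 (h5.trans_le (min_le_right _ _))).2
      simp only [id, NNReal.coe_ofNat] at h6
      have h7 : (3 : ℝ) ≤ (l n 4 : ℝ≥0) := by linarith
      have h8 : (l n 4 : ℝ≥0) ≤ l n t := (l n).monotone ht
      have h9 : (2 : ℝ≥0) ≤ l n t := by
        refine le_trans ?_ h8
        have : ((2 : ℝ≥0) : ℝ) ≤ (l n 4 : ℝ≥0) := by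
          push_cast
          linarith
        exact_mod_cast this
      have h10 : (2 : ℝ≥0) ≤ t := le_trans (by norm_num) ht
      rw [two_sub_eq_zero h9, two_sub_eq_zero h10]
      simp only [zero_mul, sub_zero, abs_zero]
      positivity
  have hx : test (x n) = ⨆ t : ℝ≥0, ((2 - l n t : ℝ≥0) : ℝ) * min |x n (l n t)| 1 :=
    ((l n).toEquiv.surjective.iSup_comp
      (fun t : ℝ≥0 => ((2 - t : ℝ≥0) : ℝ) * min |x n t| 1)).symm
  have hb : BddAbove (Set.range fun t : ℝ≥0 => ((2 - l n t : ℝ≥0) : ℝ) * min |x n (l n t)| 1) :=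
    ⟨2, by rintro _ ⟨t, rfl⟩; exact term_le _ _⟩
  rw [Real.dist_eq, abs_lt]
  constructor
  · have : test y ≤ test (x n) + 3 * (ε / 4) := by
      refine ciSup_le fun t => ?_
      have h5 := (abs_le.1 (key t)).1
      have h6 := le_ciSup hb t
      rw [← hx] at h6
      linarith
    linarith
  · have : test (x n) ≤ test y + 3 * (ε / 4) := by
      rw [hx]
      refine ciSup_le fun t => ?_
      have h5 := (abs_le.1 (key t)).2
      have h6 := le_ciSup (bdd_test y) t
      unfold test
      linarith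
    linarith

/-- If `|x t| < ε` for `t ≤ 2` then the test functional is at most `2 ε`. -/
theorem test_le_of_small {x : ℝ≥0 → ℝ} {ε : ℝ} (hε : 0 ≤ ε) (h : ∀ t ≤ 2, |x t| < ε) :
    test x ≤ 2 * ε := by
  refine ciSup_le fun t => ?_
  rcases le_total t 2 with ht | ht
  · exact mul_le_mul (two_sub_le t) ((min_le_left _ _).trans (h t ht).le)
      (le_min (abs_nonneg _) zero_le_one) (by norm_num)
  · rw [two_sub_eq_zero ht, zero_mul]
    positivity

/-! ## The running maximum of Brownian motion -/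

/-- `S(t) = max_{s ≤ t} B(s)`. -/
noncomputable def runMax {Ω' : Type*} (B : ℝ≥0 → Ω' → ℝ) (ω : Ω') (t : ℝ≥0) : ℝ :=
  ⨆ s : Set.Iic t, B s ω

theorem runMax_spec {Ω' : Type*} {B : ℝ≥0 → Ω' → ℝ} {ω : Ω'} (hc : Continuous (B · ω))
    (t : ℝ≥0) : (∀ s ≤ t, B s ω ≤ runMax B ω t) ∧ ∃ s ≤ t, B s ω = runMax B ω t := by
  have hcomp : IsCompact (Set.Iic t) := by
    rw [← Set.Icc_bot]
    exact isCompact_Icc
  obtain ⟨m, hm, hmax⟩ := hcomp.exists_isMaxOn ⟨t, Set.mem_Iic.2 le_rfl⟩ hc.continuousOn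
  have hb : BddAbove (Set.range fun s : Set.Iic t => B s ω) :=
    ⟨B m ω, by rintro _ ⟨s, rfl⟩; exact hmax s.2⟩
  have hle : ∀ s ≤ t, B s ω ≤ runMax B ω t := fun s hs => le_ciSup hb ⟨s, hs⟩
  refine ⟨hle, m, hm, le_antisymm (hle m hm) ?_⟩
  have : Nonempty (Set.Iic t) := ⟨⟨m, hm⟩⟩
  exact ciSup_le fun s => hmax s.2

theorem test_runMax {Ω' : Type*} {B : ℝ≥0 → Ω' → ℝ} {ω : Ω'} (hc : Continuous (B · ω))
    (h0 : B 0 ω = 0) :
    test (runMax B ω) =
      ⨆ n : ℕ, ((2 - TopologicalSpace.denseSeq ℝ≥0 n : ℝ≥0) : ℝ)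
        * min (max (B (TopologicalSpace.denseSeq ℝ≥0 n) ω) 0) 1 := by
  have hb : ∀ s : ℝ≥0, ((2 - s : ℝ≥0) : ℝ) * min (max (B s ω) 0) 1 ≤ 2 := fun s => by
    calc ((2 - s : ℝ≥0) : ℝ) * min (max (B s ω) 0) 1 ≤ 2 * 1 :=
          mul_le_mul (two_sub_le s) (min_le_right _ _) (by positivity) (by norm_num)
      _ = 2 := by norm_num
  have hbd : BddAbove (Set.range fun n : ℕ => ((2 - TopologicalSpace.denseSeq ℝ≥0 n : ℝ≥0) : ℝ)
        * min (max (B (TopologicalSpace.denseSeq ℝ≥0 n) ω) 0) 1) :=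
    ⟨2, by rintro _ ⟨n, rfl⟩; exact hb _⟩
  have hS0 : ∀ t, 0 ≤ runMax B ω t := fun t => by
    have := (runMax_spec hc t).1 0 bot_le
    rwa [h0] at this
  have hdense : ∀ s : ℝ≥0, ((2 - s : ℝ≥0) : ℝ) * min (max (B s ω) 0) 1
      ≤ ⨆ n : ℕ, ((2 - TopologicalSpace.denseSeq ℝ≥0 n : ℝ≥0) : ℝ)
        * min (max (B (TopologicalSpace.denseSeq ℝ≥0 n) ω) 0) 1 := by
    intro s
    refine (TopologicalSpace.denseRange_denseSeq ℝ≥0).induction_on (p := fun s : ℝ≥0 =>
      ((2 - s : ℝ≥0) : ℝ) * min (max (B s ω) 0) 1 ≤ ⨆ n : ℕ,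
        ((2 - TopologicalSpace.denseSeq ℝ≥0 n : ℝ≥0) : ℝ)
        * min (max (B (TopologicalSpace.denseSeq ℝ≥0 n) ω) 0) 1) s ?_ (fun n => le_ciSup hbd n)
    refine isClosed_le ?_ continuous_const
    have h1 : Continuous fun s : ℝ≥0 => ((2 - s : ℝ≥0) : ℝ) :=
      NNReal.continuous_coe.comp (continuous_const.sub continuous_id)
    exact h1.mul ((hc.max continuous_const).min continuous_const)
  refine le_antisymm (ciSup_le fun t => ?_) (ciSup_le fun n => ?_)
  · obtain ⟨s, hs, hsB⟩ := (runMax_spec hc t).2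
    refine le_trans ?_ (hdense s)
    rw [abs_of_nonneg (hS0 t), ← hsB, max_eq_left (by rw [hsB]; exact hS0 t)]
    refine mul_le_mul_of_nonneg_right ?_ (le_min (by rw [hsB]; exact hS0 t) zero_le_one)
    have : (2 - t : ℝ≥0) ≤ 2 - s := tsub_le_tsub_left hs 2
    exact_mod_cast this
  · set s := TopologicalSpace.denseSeq ℝ≥0 n
    refine le_trans ?_ (le_ciSup (bdd_test _) s)
    refine mul_le_mul_of_nonneg_left (min_le_min_right _ ?_) (NNReal.coe_nonneg _)
    rw [abs_of_nonneg (hS0 s)]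
    exact max_le ((runMax_spec hc s).1 s le_rfl) (hS0 s)

theorem test_runMax_pos {Ω' : Type*} [MeasurableSpace Ω'] {Q : Measure Ω'} {B : ℝ≥0 → Ω' → ℝ}
    (hB : IsBrownianReal B Q) : 0 < ∫ ω, test (runMax B ω) ∂Q := by
  have hprob : IsProbabilityMeasure Q := hB.isGaussianProcess.isProbabilityMeasure
  have hae : ∀ᵐ ω ∂Q, Continuous (B · ω) ∧ B 0 ω = 0 :=
    hB.cont.and hB.eval_zero_ae_eq_zero
  have hmeas : AEMeasurable (fun ω => test (runMax B ω)) Q := by
    have h1 : AEMeasurable (fun ω => ⨆ n : ℕ,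
        ((2 - TopologicalSpace.denseSeq ℝ≥0 n : ℝ≥0) : ℝ)
        * min (max (B (TopologicalSpace.denseSeq ℝ≥0 n) ω) 0) 1) Q := by
      refine AEMeasurable.iSup fun n => ?_
      exact ((hB.aemeasurable _).max aemeasurable_const).min aemeasurable_const |>.const_mul _
    refine h1.congr ?_
    filter_upwards [hae] with ω hω
    exact (test_runMax hω.1 hω.2).symm
  have hint : Integrable (fun ω => test (runMax B ω)) Q :=
    Integrable.of_bound hmeas.aestronglyMeasurable 2 (ae_of_all _ fun ω => abs_test_le _)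
  have hm1 : AEMeasurable (fun ω => min (max (B 1 ω) 0) 1) Q :=
    ((hB.aemeasurable 1).max aemeasurable_const).min aemeasurable_const
  have hint1 : Integrable (fun ω => min (max (B 1 ω) 0) 1) Q := by
    refine Integrable.of_bound hm1.aestronglyMeasurable 1 (ae_of_all _ fun ω => ?_)
    rw [Real.norm_eq_abs, abs_of_nonneg (by positivity)]
    exact min_le_right _ _
  have hle : ∫ ω, min (max (B 1 ω) 0) 1 ∂Q ≤ ∫ ω, test (runMax B ω) ∂Q := by
    refine integral_mono_ae hint1 hint ?_
    filter_upwards [hae] with ω hω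
    refine le_trans ?_ (le_ciSup (bdd_test _) 1)
    have h1 : ((2 - 1 : ℝ≥0) : ℝ) = 1 := by
      rw [show (2 - 1 : ℝ≥0) = 1 by
        rw [← NNReal.coe_inj, NNReal.coe_sub (by norm_num)]; norm_num]
      rfl
    rw [h1, one_mul]
    have hS0 : 0 ≤ runMax B ω 1 := by
      have := (runMax_spec hω.1 1).1 0 bot_le
      rwa [hω.2] at this
    refine min_le_min_right _ ?_
    rw [abs_of_nonneg hS0]
    exact max_le ((runMax_spec hω.1 1).1 1 le_rfl) hS0
  refine lt_of_lt_of_le ?_ hle
  rw [integral_pos_iff_support_of_nonneg (fun ω => by positivity) hint1]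
  have hlaw := hB.hasLaw_eval 1
  have h1 : gaussianReal 0 1 (Set.Ioi 0) ≠ 0 := by
    intro h
    have h2 := gaussianReal_absolutelyContinuous' 0 (v := 1) one_ne_zero h
    simp at h2
  have h3 : Q.map (B 1) (Set.Ioi 0) ≠ 0 := by
    rw [hlaw.map_eq]
    exact h1
  rw [Measure.map_apply_of_aemeasurable (hB.aemeasurable 1) measurableSet_Ioi] at h3
  refine lt_of_lt_of_le (pos_iff_ne_zero.2 h3) (measure_mono fun ω hω => ?_)
  simp only [Set.mem_preimage, Set.mem_Ioi] at hω
  have : 0 < min (max (B 1 ω) 0) 1 := lt_min (lt_max_of_lt_left hω) one_pos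
  exact this.ne'

/-! ## The assumptions and the statement -/

/-- (SE): the cookie stacks are stationary and ergodic under the shifts of `ℤ`. -/
def SE (P : Measure Env) : Prop := Ergodic (fun (w : Env) (z : ℤ) (i : ℕ) => w (z + 1) i) P

/-- (POS₁): `ω(z,i) ≥ 1/2` for all `z` and all `i ≥ 1`, almost surely. -/
def POS (P : Measure Env) : Prop := ∀ᵐ w ∂P, ∀ z, ∀ i, 1 ≤ i → 1 / 2 ≤ w z i

/-- (UEL): uniform ellipticity. -/
def UEL (P : Measure Env) : Prop :=
  ∃ κ : ℝ, 0 < κ ∧ ∀ᵐ w ∂P, ∀ z, ∀ i, 1 ≤ i → κ ≤ w z i ∧ w z i ≤ 1 - κ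

/-- `N_ε = sup {i ≥ 1 : |ω(0,i) - 1/2| ≥ ε}`, with values in `[0,∞]`, `sup ∅ = 0`. -/
noncomputable def lastBig (ε : ℝ) (w : Env) : ℝ≥0∞ :=
  ⨆ i : ℕ, ⨆ _ : 1 ≤ i ∧ ε ≤ |w 0 i - 1 / 2|, (i : ℝ≥0∞)

/-- (MOM): `E N_ε < ∞` for every `ε > 0`. -/
def MOM (P : Measure Env) : Prop := ∀ ε : ℝ, 0 < ε → ∫⁻ w, lastBig ε w ∂P < ∞

/-- `δ = E ∑_{i ≥ 1} (2 ω(0,i) - 1)`, for environments satisfying (POS₁). -/
noncomputable def delta (P : Measure Env) : ℝ≥0∞ :=
  ∫⁻ w, ∑' i : ℕ, ENNReal.ofReal (2 * w 0 (i + 1) - 1) ∂P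

/-- The environment together with the uniform variables, under the averaged law. -/
noncomputable def avg (P : Measure Env) : Measure (Env × (ℕ → ℝ)) := P.prod noise

/-- (CL) for the environment law `P`, with limit the running maximum of the Brownian motion `B`. -/
def CL (P : Measure Env) {Ω' : Type*} [MeasurableSpace Ω'] (Q : Measure Ω')
    (B : ℝ≥0 → Ω' → ℝ) : Prop :=
  ∃ b : ℝ, 0 < b ∧ WeakJ1 (avg P)
    (fun n ω t => (walk ω.1 ω.2 ⌊(n : ℝ≥0) * t⌋₊ : ℝ) / (b * √n * Real.log n)) Q (runMax B)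

/-- The law of the environment: the Dirac mass at `env aa`. -/
noncomputable def PP : Measure Env := Measure.dirac (env aa)

instance : IsProbabilityMeasure PP := by unfold PP; infer_instance

theorem PP_ae {p : Env → Prop} (h : p (env aa)) : ∀ᵐ w ∂PP, p w := by
  rw [PP, ae_dirac_eq]
  exact h

theorem PP_SE : SE PP := by
  refine ⟨⟨?_, ?_⟩, ⟨fun s _ _ => ?_⟩⟩
  · refine measurable_pi_iff.2 fun z => ?_
    exact measurable_pi_apply (z + 1)
  · rw [PP, Measure.map_dirac']
    · rfl
    · exact measurable_pi_iff.2 fun z => measurable_pi_apply (z + 1)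
  · rw [Filter.eventuallyConst_set]
    by_cases h : env aa ∈ s
    · left
      exact PP_ae h
    · right
      exact PP_ae h

theorem PP_POS : POS PP := by
  refine PP_ae fun z i _ => ?_
  have := aa_nonneg i
  simp only [env]
  linarith

theorem PP_UEL : UEL PP := by
  refine ⟨(1 - qq) / 2, by have := qq_lt; linarith, PP_ae fun z i _ => ?_⟩
  have h0 := aa_nonneg i
  have h1 := aa_le i
  have h2 : 0 < qq := lt_max_of_lt_right (rr_pos 1)
  simp only [env]
  constructor <;> linarith

theorem aa_tendsto : Tendsto aa atTop (𝓝 0) := by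
  have h1 : Tendsto (fun i => rr (i - 1)) atTop (𝓝 0) :=
    rr_tendsto.comp (tendsto_sub_atTop_nat 1)
  have h2 := h1.sub rr_tendsto
  rw [sub_zero] at h2
  exact h2

theorem PP_MOM : MOM PP := by
  intro ε hε
  rw [PP, lintegral_dirac]
  obtain ⟨N, hN⟩ := eventually_atTop.1 (aa_tendsto.eventually_lt_const (show 0 < 2 * ε by linarith))
  have h : lastBig ε (env aa) ≤ N := by
    refine iSup_le fun i => iSup_le fun hi => ?_
    by_contra hcon
    have hiN : N ≤ i := by
      by_contra hlt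
      exact hcon (by exact_mod_cast (not_le.1 hlt).le)
    have h1 := hN i hiN
    have h2 := hi.2
    have h3 := aa_nonneg i
    rw [env, show (1 + aa i) / 2 - 1 / 2 = aa i / 2 by ring, abs_of_nonneg (by linarith)] at h2
    linarith
  exact h.trans_lt (ENNReal.natCast_lt_top N)

theorem PP_delta : delta PP = 1 := by
  rw [delta, PP, lintegral_dirac]
  have h1 : ∀ i : ℕ, 2 * env aa 0 (i + 1) - 1 = aa (i + 1) := fun i => by
    rw [env]; ring
  simp_rw [h1]
  have hs : HasSum (fun i => aa (i + 1)) 1 := by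
    rw [hasSum_iff_tendsto_nat_of_nonneg fun i => aa_nonneg _]
    have h2 : ∀ n, ∑ i ∈ Finset.range n, aa (i + 1) = 1 - rr n := fun n => by
      have h3 := sum_aa n
      rw [Finset.sum_range_succ'] at h3
      have h4 : aa 0 = 0 := by simp [aa]
      rw [h4, add_zero] at h3
      exact h3
    simp_rw [h2]
    simpa using rr_tendsto.const_sub 1
  rw [← ENNReal.ofReal_tsum_of_nonneg (fun i => aa_nonneg _) hs.summable, hs.tsum_eq]
  simp

theorem weak_zero {b : ℝ} (hb : 0 < b) :
    Tendsto (fun n : ℕ => ∫ ω, test (fun t : ℝ≥0 =>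
      (walk ω.1 ω.2 ⌊(n : ℝ≥0) * t⌋₊ : ℝ) / (b * √n * Real.log n)) ∂(avg PP)) atTop (𝓝 0) := by
  rw [Metric.tendsto_atTop]
  intro η hη
  have h1 := (ENNReal.tendsto_toReal ENNReal.zero_ne_top).comp
    (small hb (show 0 < η / 8 by linarith) 2)
  rw [ENNReal.toReal_zero, Metric.tendsto_atTop] at h1
  obtain ⟨N, hN⟩ := h1 (η / 8) (by linarith)
  refine ⟨N, fun n hn => ?_⟩
  have h2 := hN n hn
  rw [Real.dist_0_eq_abs, abs_of_nonneg (by simp)] at h2
  simp only [Function.comp] at h2
  set A : Set (ℕ → ℝ) := {u | ∃ t ≤ 2, η / 8 ≤ |scaled b (env aa) n u t|} with hA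
  set A' := toMeasurable noise A with hA'
  have hA'm : MeasurableSet A' := measurableSet_toMeasurable _ _
  have hae : ∀ᵐ ω ∂(avg PP), ω.1 = env aa := by
    unfold avg
    exact (Measure.quasiMeasurePreserving_fst (μ := PP) (ν := noise)).ae
      (PP_ae (p := fun w => w = env aa) rfl)
  have hle : ∀ᵐ ω ∂(avg PP), test (fun t : ℝ≥0 =>
      (walk ω.1 ω.2 ⌊(n : ℝ≥0) * t⌋₊ : ℝ) / (b * √n * Real.log n))
        ≤ 2 * (η / 8) + 2 * A'.indicator 1 ω.2 := by
    filter_upwards [hae] with ω hω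
    rw [hω]
    by_cases h : ω.2 ∈ A
    · have hmem : ω.2 ∈ A' := subset_toMeasurable noise A h
      rw [Set.indicator_of_mem hmem]
      refine (test_le _).trans ?_
      simp only [Pi.one_apply]
      linarith
    · have h3 : ∀ t ≤ 2, |scaled b (env aa) n ω.2 t| < η / 8 := by
        intro t ht
        by_contra hcon
        exact h ⟨t, ht, not_lt.1 hcon⟩
      refine (test_le_of_small (by linarith) h3).trans ?_
      have : (0 : ℝ) ≤ A'.indicator 1 ω.2 := Set.indicator_nonneg (fun _ _ => by simp) _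
      linarith
  have hintA : Integrable (fun u => A'.indicator (1 : (ℕ → ℝ) → ℝ) u) noise :=
    (integrable_const (1 : ℝ)).indicator hA'm
  have hint2 : Integrable (fun ω : Env × (ℕ → ℝ) => A'.indicator (1 : (ℕ → ℝ) → ℝ) ω.2)
      (avg PP) := by
    unfold avg
    exact hintA.comp_snd PP
  have hup : ∫ ω, test (fun t : ℝ≥0 =>
      (walk ω.1 ω.2 ⌊(n : ℝ≥0) * t⌋₊ : ℝ) / (b * √n * Real.log n)) ∂(avg PP)
        ≤ 2 * (η / 8) + 2 * noise.real A' := by
    have : IsProbabilityMeasure (avg PP) := by unfold avg; infer_instance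
    refine (integral_mono_of_nonneg (ae_of_all _ fun ω => test_nonneg _)
      ((integrable_const _).add (hint2.const_mul 2)) hle).trans (le_of_eq ?_)
    rw [integral_add' (integrable_const _) (hint2.const_mul 2)]
    have h4 : ∫ ω : Env × (ℕ → ℝ), A'.indicator (1 : (ℕ → ℝ) → ℝ) ω.2 ∂(avg PP)
        = noise.real A' := by
      unfold avg
      rw [integral_fun_snd (μ := PP) (ν := noise) (fun u => A'.indicator (1 : (ℕ → ℝ) → ℝ) u),
        integral_indicator_one hA'm]
      simp
    rw [integral_const_mul 2 (fun ω : Env × (ℕ → ℝ) => A'.indicator (1 : (ℕ → ℝ) → ℝ) ω.2), h4]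
    simp
  have h5 : noise.real A' = (noise A).toReal := by
    rw [Measure.real, hA', measure_toMeasurable]
  rw [Real.dist_0_eq_abs, abs_of_nonneg (integral_nonneg fun ω => test_nonneg _)]
  rw [h5] at hup
  linarith

theorem not_CL {Ω' : Type*} [MeasurableSpace Ω'] (Q : Measure Ω') (B : ℝ≥0 → Ω' → ℝ)
    (hB : IsBrownianReal B Q) : ¬ CL PP Q B := by
  rintro ⟨b, hb, h⟩
  have h1 := h test ⟨2, abs_test_le⟩ (fun x y _ _ hxy => test_continuous x y hxy)
  have h2 := tendsto_nhds_unique h1 (weak_zero hb)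
  exact (test_runMax_pos hB).ne' h2

theorem avg_le (S : Set (Env × (ℕ → ℝ))) : avg PP S ≤ noise {u | (env aa, u) ∈ S} := by
  set A := {u | (env aa, u) ∈ S} with hA
  have hsub : S ⊆ ({env aa}ᶜ ×ˢ Set.univ) ∪ (Set.univ ×ˢ toMeasurable noise A) := by
    rintro ⟨w, u⟩ h
    by_cases hw : w = env aa
    · right
      subst hw
      exact ⟨Set.mem_univ _, subset_toMeasurable noise A h⟩
    · left
      exact ⟨hw, Set.mem_univ _⟩
  refine (measure_mono hsub).trans ((measure_union_le _ _).trans (le_of_eq ?_))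
  unfold avg
  rw [Measure.prod_prod, Measure.prod_prod, measure_toMeasurable]
  have h0 : PP ({env aa}ᶜ : Set Env) = 0 := by
    rw [PP, Measure.dirac_apply' _ (measurableSet_singleton _).compl]
    simp
  rw [h0]
  simp

/-- Under the averaged law the rescaled walk tends to zero in probability, uniformly on compact
time intervals. -/
theorem small_avg {b ε : ℝ} (hb : 0 < b) (hε : 0 < ε) (T : ℝ≥0) :
    Tendsto (fun n : ℕ => avg PP {ω | ∃ t ≤ T,
      ε ≤ |(walk ω.1 ω.2 ⌊(n : ℝ≥0) * t⌋₊ : ℝ) / (b * √n * Real.log n)|}) atTop (𝓝 0) :=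
  tendsto_of_tendsto_of_tendsto_of_le_of_le tendsto_const_nhds (small hb hε T)
    (fun _ => bot_le) (fun _ => avg_le _)

end Q294.SlowCookies
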