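import Pool.Agent.TH966.KS.Samp

/-!
# Sequences with Kesten's inequality for both parities: control from a sparse set of lengths
-/

set_option autoImplicit false

namespace Q294.Sp1

open Finset Filter Topology TH966.KS

/-- a nice error function -/
structure Err (E : ℕ → ℝ) : Prop where
  one : ∀ n, 1 ≤ E n
  mono : Monotone E
  two : ∀ n, 1 ≤ n → E (2 * n) ≤ 2 * E n
  lim : Tendsto (fun n : ℕ => E n / n) atTop (𝓝 0)

theorem log_div_nat : Tendsto (fun n : ℕ => Real.log (n : ℝ) / n) atTop (𝓝 0) := by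
  have h1 : Tendsto (fun x : ℝ => Real.log x / x) atTop (𝓝 0) := by
    have := Real.isLittleO_log_id_atTop.tendsto_div_nhds_zero
    exact this
  exact h1.comp tendsto_natCast_atTop_atTop

theorem err_one : Err (fun _ => 1) where
  one := fun _ => le_rfl
  mono := monotone_const
  two := fun _ _ => by norm_num
  lim := tendsto_const_div_atTop_nhds_zero_nat 1

theorem err_log : Err (fun n => 1 + Real.log n) where
  one := fun n => by linarith [Real.log_natCast_nonneg n]
  mono := by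
    intro m n hmn
    rcases Nat.eq_zero_or_pos m with h0 | h0
    · subst h0
      simp only [Nat.cast_zero, Real.log_zero, add_zero]
      linarith [Real.log_natCast_nonneg n]
    · have h1 : (0 : ℝ) < m := by exact_mod_cast h0
      have h2 : (m : ℝ) ≤ n := by exact_mod_cast hmn
      have := Real.log_le_log h1 h2
      simp only
      linarith
  two := by
    intro n hn
    have h1 : (0 : ℝ) < n := by exact_mod_cast (show 0 < n by omega)
    have h2 := Real.log_two_lt_d9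
    push_cast
    rw [Real.log_mul (by norm_num) h1.ne']
    linarith [Real.log_natCast_nonneg n]
  lim := by
    have h1 := (tendsto_const_div_atTop_nhds_zero_nat (1 : ℝ)).add log_div_nat
    rw [add_zero] at h1
    refine h1.congr fun n => ?_
    rw [add_div]

theorem err_shift {E : ℕ → ℝ} (hE : Err E) (s : ℕ) (hs : s ≤ 1) :
    Err (fun k => E (2 * k + s)) where
  one := fun n => hE.one _
  mono := fun m n h => hE.mono (by omega)
  two := fun n hn => by
    refine (hE.mono (show 2 * (2 * n) + s ≤ 2 * (2 * n + s) by omega)).trans ?_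
    exact hE.two _ (by omega)
  lim := by
    have t1 : Tendsto (fun k : ℕ => 2 * k + s) atTop atTop :=
      tendsto_atTop_mono (fun k => by simp only [id]; omega) tendsto_id
    have t2 := (hE.lim.comp t1).mul_const 3
    rw [zero_mul] at t2
    refine squeeze_zero' ?_ ?_ t2
    · filter_upwards with k
      exact div_nonneg (by linarith [hE.one (2 * k + s)]) (Nat.cast_nonneg _)
    · filter_upwards [eventually_ge_atTop 1] with k hk
      have hk0 : (0 : ℝ) < k := by exact_mod_cast hk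
      have h1 : (0 : ℝ) < ((2 * k + s : ℕ) : ℝ) := by exact_mod_cast (by omega : 0 < 2 * k + s)
      have h3 : ((2 * k + s : ℕ) : ℝ) ≤ 3 * k := by exact_mod_cast (by omega : 2 * k + s ≤ 3 * k)
      have h4 : 0 < E (2 * k + s) := by linarith [hE.one (2 * k + s)]
      simp only [Function.comp]
      rw [div_mul_eq_mul_div, div_le_div_iff₀ hk0 h1]
      nlinarith

/-- the hypothesis on the sequence of the normalised counts -/
structure Reg (Y : ℕ → ℝ) (D θ : ℝ) : Prop where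
  pos : ∀ n, 0 < Y n
  D0 : 0 ≤ D
  θ0 : 0 < θ
  θ1 : θ < 1
  kes : ∀ s, s ≤ 1 → ∃ k0, Kes (fun k => Y (2 * k + s)) D θ k0

theorem log_diff (β : ℝ) (c : ℝ) (s m n : ℕ) (hm : 1 ≤ m) (hmn : m ≤ n) :
    |(β * Real.log ((2 * n + s : ℕ) : ℝ) + c) - (β * Real.log ((2 * m + s : ℕ) : ℝ) + c)| ≤
      |β| * ((n : ℝ) - m) / m := by
  have hm0 : (0 : ℝ) < m := by exact_mod_cast (show 0 < m by omega)
  have hM : (0 : ℝ) < ((2 * m + s : ℕ) : ℝ) := by exact_mod_cast (show 0 < 2 * m + s by omega)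
  have hN : (0 : ℝ) < ((2 * n + s : ℕ) : ℝ) := by exact_mod_cast (show 0 < 2 * n + s by omega)
  have hmn' : (m : ℝ) ≤ n := by exact_mod_cast hmn
  have hMN : ((2 * m + s : ℕ) : ℝ) ≤ ((2 * n + s : ℕ) : ℝ) := by
    exact_mod_cast (show 2 * m + s ≤ 2 * n + s by omega)
  have h1 : (β * Real.log ((2 * n + s : ℕ) : ℝ) + c) - (β * Real.log ((2 * m + s : ℕ) : ℝ) + c) =
      β * Real.log (((2 * n + s : ℕ) : ℝ) / ((2 * m + s : ℕ) : ℝ)) := by
    rw [Real.log_div hN.ne' hM.ne']
    ring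
  rw [h1, abs_mul, mul_div_assoc]
  refine mul_le_mul_of_nonneg_left ?_ (abs_nonneg _)
  have h2 : 0 ≤ Real.log (((2 * n + s : ℕ) : ℝ) / ((2 * m + s : ℕ) : ℝ)) :=
    Real.log_nonneg ((one_le_div hM).2 hMN)
  rw [abs_of_nonneg h2]
  have h3 := Real.log_le_sub_one_of_pos (div_pos hN hM)
  refine h3.trans ?_
  rw [div_sub_one hM.ne', div_le_div_iff₀ hM hm0]
  push_cast
  have h5 : (0 : ℝ) ≤ s := Nat.cast_nonneg s
  have h6 : (0 : ℝ) ≤ n - m := by linarith
  nlinarith

theorem psi_zero (β c : ℝ) (s : ℕ) (hs : s ≤ 1) :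
    Tendsto (fun n : ℕ => (β * Real.log ((2 * n + s : ℕ) : ℝ) + c) / n) atTop (𝓝 0) := by
  have h1 := (err_shift err_log s hs).lim
  have h2 : Tendsto (fun n : ℕ => (|β| + |c|) * ((1 + Real.log ((2 * n + s : ℕ) : ℝ)) / n)) atTop
      (𝓝 0) := by
    have := h1.const_mul (|β| + |c|)
    rw [mul_zero] at this
    exact this
  refine squeeze_zero_norm (fun n => ?_) h2
  rw [Real.norm_eq_abs, abs_div, Nat.abs_cast, ← mul_div_assoc]
  refine div_le_div_of_nonneg_right ?_ (Nat.cast_nonneg n)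
  have h3 : 0 ≤ Real.log ((2 * n + s : ℕ) : ℝ) := Real.log_natCast_nonneg _
  refine (abs_add_le _ _).trans ?_
  rw [abs_mul, abs_of_nonneg h3]
  have := abs_nonneg β
  have := abs_nonneg c
  nlinarith [mul_nonneg (abs_nonneg c) h3]

/-- the general form -/
theorem core {Y : ℕ → ℝ} {D θ : ℝ} (hY : Reg Y D θ) {E : ℕ → ℝ} (hE : Err E) {S : Set ℕ}
    {τ δ β c : ℝ} (hτ : 0 < τ) (hδ : 0 < δ)
    (hS : ∀ᶠ n : ℕ in atTop, ∃ k ∈ S, k % 2 = n % 2 ∧ n ≤ k ∧ (k : ℝ) ≤ n + δ * √(n * E n))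
    (hyS : ∀ᶠ k : ℕ in atTop, k ∈ S → |Real.log (Y k) - (β * Real.log k + c)| ≤ τ * E k) :
    ∀ᶠ n : ℕ in atTop,
      |Real.log (Y n) - (β * Real.log n + c)| ≤ (9 * τ + 384 * D * δ ^ 2) * E n := by
  have main : ∀ s : ℕ, s ≤ 1 → ∀ᶠ k : ℕ in atTop,
      |Real.log (Y (2 * k + s)) - (β * Real.log ((2 * k + s : ℕ) : ℝ) + c)| ≤
        (9 * τ + 384 * D * δ ^ 2) * E (2 * k + s) := by
    intro s hs
    obtain ⟨k0, hk0⟩ := hY.kes s hs
    have hE' := err_shift hE s hs
    have t1 : Tendsto (fun k : ℕ => 2 * k + s) atTop atTop :=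
      tendsto_atTop_mono (fun k => by simp only [id]; omega) tendsto_id
    have h := step (y := fun k => Y (2 * k + s)) (E := fun k => E (2 * k + s))
      (ψ := fun k => β * Real.log ((2 * k + s : ℕ) : ℝ) + c) (S := {k | 2 * k + s ∈ S})
      (B := |β|) hk0 (fun k => (hY.pos _).le) hY.D0 hY.θ0 hY.θ1 (fun n _ => hE'.one n) hE'.mono
      hE'.two hE'.lim hτ hδ (abs_nonneg β) (fun m n hm hmn => log_diff β c s m n hm hmn)
      (psi_zero β c s hs) ?_ ?_
    · exact h.mono fun k hk => hk.2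
    · filter_upwards [t1.eventually hS, eventually_ge_atTop 1] with n hn hn1
      obtain ⟨k, hkS, hk2, hk3, hk4⟩ := hn
      obtain ⟨k', rfl⟩ : ∃ k', k = 2 * k' + s := ⟨(k - s) / 2, by omega⟩
      refine ⟨k', hkS, by omega, ?_⟩
      have hn0 : (0 : ℝ) < n := by exact_mod_cast hn1
      have e0 : 0 < E (2 * n + s) := by linarith [hE.one (2 * n + s)]
      have h3 : ((2 * n + s : ℕ) : ℝ) ≤ 4 * n := by exact_mod_cast (by omega : 2 * n + s ≤ 4 * n)
      have h4 : √(((2 * n + s : ℕ) : ℝ) * E (2 * n + s)) ≤ 2 * √(n * E (2 * n + s)) := by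
        have : (2 : ℝ) = √4 := by
          rw [show (4 : ℝ) = 2 ^ 2 by norm_num, Real.sqrt_sq (by norm_num)]
        rw [this, ← Real.sqrt_mul (by norm_num)]
        refine Real.sqrt_le_sqrt ?_
        nlinarith
      have h5 := mul_le_mul_of_nonneg_left h4 hδ.le
      push_cast at hk4 h5 ⊢
      linarith
    · filter_upwards [t1.eventually hyS] with k hk hkS
      exact ⟨hY.pos _, hk hkS⟩
  obtain ⟨N0, h0⟩ := eventually_atTop.1 (main 0 (by norm_num))
  obtain ⟨N1, h1⟩ := eventually_atTop.1 (main 1 le_rfl)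
  filter_upwards [eventually_ge_atTop (2 * N0 + 2 * N1 + 2)] with n hn
  rcases Nat.even_or_odd' n with ⟨k, hk | hk⟩
  · rw [hk]; exact h0 k (by omega)
  · rw [hk]; exact h1 k (by omega)

theorem log_form {Y : ℕ → ℝ} {A β : ℝ} {n : ℕ} (hn : 0 < n) (hy : 0 < Y n) (hA : 0 < A) :
    Real.log (Y n / (n : ℝ) ^ β / A) = Real.log (Y n) - (β * Real.log n + Real.log A) := by
  have hn0 : (0 : ℝ) < n := by exact_mod_cast hn
  have h1 : (0 : ℝ) < (n : ℝ) ^ β := Real.rpow_pos_of_pos hn0 _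
  rw [Real.log_div (div_pos hy h1).ne' hA.ne', Real.log_div hy.ne' h1.ne', Real.log_rpow hn0]
  ring

/-- the asymptotic form along a sparse set of lengths -/
theorem form {Y : ℕ → ℝ} {D θ : ℝ} (hY : Reg Y D θ) (S : Set ℕ)
    (hS : ∀ δ : ℝ, 0 < δ → ∀ᶠ n : ℕ in atTop, ∃ k ∈ S, k % 2 = n % 2 ∧ n ≤ k ∧
      (k : ℝ) ≤ n + δ * √n) (A β : ℝ) (hA : 0 < A)
    (h : Tendsto (fun n : ℕ => Y n / (n : ℝ) ^ β) (atTop ⊓ 𝓟 S) (𝓝 A)) :
    Tendsto (fun n : ℕ => Y n / (n : ℝ) ^ β) atTop (𝓝 A) := by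
  have hD := hY.D0
  have hlog : Tendsto (fun n : ℕ => Real.log (Y n) - (β * Real.log n + Real.log A))
      (atTop ⊓ 𝓟 S) (𝓝 0) := by
    have h2 : Tendsto (fun n : ℕ => Real.log (Y n / (n : ℝ) ^ β / A)) (atTop ⊓ 𝓟 S)
        (𝓝 (Real.log (A / A))) := by
      refine Tendsto.log (h.div_const A) ?_
      rw [div_self hA.ne']; norm_num
    rw [div_self hA.ne', Real.log_one] at h2
    refine h2.congr' ?_
    have : ∀ᶠ n : ℕ in atTop ⊓ 𝓟 S, 0 < n :=
      (eventually_gt_atTop 0).filter_mono inf_le_left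
    filter_upwards [this] with n hn
    exact log_form hn (hY.pos n) hA
  have hall : Tendsto (fun n : ℕ => Real.log (Y n) - (β * Real.log n + Real.log A)) atTop
      (𝓝 0) := by
    rw [Metric.tendsto_atTop']
    intro ε hε
    have hδ : 0 < √(ε / (4 * (384 * D + 1))) := Real.sqrt_pos.2 (by positivity)
    have h3 := core (τ := ε / 36) (δ := √(ε / (4 * (384 * D + 1)))) (β := β)
      (c := Real.log A) (S := S) hY err_one (by positivity) hδ
      (by simpa only [mul_one] using hS _ hδ) (by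
        have h4 := hlog.abs
        rw [abs_zero] at h4
        have h5 := h4.eventually_lt_const (show 0 < ε / 36 by positivity)
        rw [eventually_inf_principal] at h5
        filter_upwards [h5] with k hk hkS
        rw [mul_one]
        exact (hk hkS).le)
    obtain ⟨N, hN⟩ := eventually_atTop.1 h3
    refine ⟨N, fun n hn => ?_⟩
    rw [dist_zero_right, Real.norm_eq_abs]
    refine (hN n hn.le).trans_lt ?_
    rw [Real.sq_sqrt (by positivity), mul_one]
    have h7 : 384 * D * (ε / (4 * (384 * D + 1))) ≤ ε / 4 := by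
      rw [mul_div_assoc', div_le_div_iff₀ (by positivity) (by norm_num)]
      nlinarith
    linarith
  have h8 : Tendsto (fun n : ℕ => Real.exp (Real.log (Y n) -
      (β * Real.log n + Real.log A)) * A) atTop (𝓝 (Real.exp 0 * A)) :=
    ((Real.continuous_exp.tendsto 0).comp hall).mul_const A
  rw [Real.exp_zero, one_mul] at h8
  refine h8.congr' ?_
  filter_upwards [eventually_gt_atTop 0] with n hn
  have hn0 : (0 : ℝ) < n := by exact_mod_cast hn
  rw [← log_form hn (hY.pos n) hA,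
    Real.exp_log (div_pos (div_pos (hY.pos n) (Real.rpow_pos_of_pos hn0 _)) hA),
    div_mul_cancel₀ _ hA.ne']

/-- neighbours have comparable values -/
def Nb (Y : ℕ → ℝ) (M : ℝ) : Prop := 0 ≤ M ∧ ∀ n, |Real.log (Y (n + 1)) - Real.log (Y n)| ≤ M

theorem log_succ (n : ℕ) (hn : 1 ≤ n) : |Real.log ((n + 1 : ℕ) : ℝ) - Real.log n| ≤ 1 := by
  have hn0 : (0 : ℝ) < n := by exact_mod_cast hn
  have h1 : Real.log (n : ℝ) ≤ Real.log ((n + 1 : ℕ) : ℝ) :=
    Real.log_le_log hn0 (by push_cast; linarith)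
  rw [abs_of_nonneg (by linarith)]
  have h2 : ((n + 1 : ℕ) : ℝ) ≤ 2 * n := by
    push_cast
    have : (1 : ℝ) ≤ n := by exact_mod_cast hn
    linarith
  have h3 : Real.log ((n + 1 : ℕ) : ℝ) ≤ Real.log (2 * n) :=
    Real.log_le_log (by push_cast; linarith) h2
  rw [Real.log_mul (by norm_num) hn0.ne'] at h3
  have := Real.log_two_lt_d9
  linarith

/-- the general form, without the condition on the parity -/
theorem core2 {Y : ℕ → ℝ} {D θ M : ℝ} (hY : Reg Y D θ) (hM : Nb Y M) {E : ℕ → ℝ} (hE : Err E)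
    {S : Set ℕ} {τ δ β c : ℝ} (hτ : 0 < τ) (hδ : 0 < δ)
    (hS : ∀ᶠ n : ℕ in atTop, ∃ k ∈ S, n ≤ k ∧ (k : ℝ) ≤ n + δ * √(n * E n))
    (hyS : ∀ᶠ k : ℕ in atTop, k ∈ S → |Real.log (Y k) - (β * Real.log k + c)| + (M + |β|) ≤
      τ * E k) :
    ∀ᶠ n : ℕ in atTop,
      |Real.log (Y n) - (β * Real.log n + c)| ≤ (9 * τ + 384 * D * (2 * δ) ^ 2) * E n := by
  refine core (S := S ∪ {n | n - 1 ∈ S ∧ 2 ≤ n}) hY hE hτ (by positivity) ?_ ?_
  · have ev : ∀ᶠ n : ℕ in atTop, 1 ≤ δ * √(n : ℝ) := by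
      have h1 : Tendsto (fun n : ℕ => δ * √(n : ℝ)) atTop atTop :=
        (Real.tendsto_sqrt_atTop.comp tendsto_natCast_atTop_atTop).const_mul_atTop hδ
      exact h1.eventually_ge_atTop 1
    filter_upwards [hS, ev, eventually_ge_atTop 1] with n hn h1 h2
    obtain ⟨k, hkS, hk1, hk2⟩ := hn
    have h3 : δ * √(n : ℝ) ≤ δ * √(n * E n) :=
      mul_le_mul_of_nonneg_left (Real.sqrt_le_sqrt
        (le_mul_of_one_le_right (Nat.cast_nonneg n) (hE.one n))) hδ.le
    by_cases hp : k % 2 = n % 2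
    · exact ⟨k, Or.inl hkS, hp, hk1, by linarith⟩
    · refine ⟨k + 1, Or.inr ⟨by simpa using hkS, by omega⟩, by omega, by omega, ?_⟩
      push_cast
      linarith
  · obtain ⟨N, hN⟩ := eventually_atTop.1 hyS
    filter_upwards [eventually_ge_atTop (N + 2)] with k hk hkS
    rcases hkS with h | ⟨h, -⟩
    · have := hN k (by omega) h
      have := abs_nonneg β
      linarith [hM.1]
    · obtain ⟨j, rfl⟩ : ∃ j, k = j + 1 := ⟨k - 1, by omega⟩
      rw [Nat.add_sub_cancel] at h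
      have h1 := hN j (by omega) h
      have h2 := hM.2 j
      have h3 := log_succ j (by omega)
      have h4 : E j ≤ E (j + 1) := hE.mono (by omega)
      have h5 : |β * (Real.log ((j + 1 : ℕ) : ℝ) - Real.log j)| ≤ |β| := by
        rw [abs_mul]
        exact mul_le_of_le_one_right (abs_nonneg β) h3
      have h6 : Real.log (Y (j + 1)) - (β * Real.log ((j + 1 : ℕ) : ℝ) + c) =
          (Real.log (Y j) - (β * Real.log j + c)) + ((Real.log (Y (j + 1)) - Real.log (Y j)) -
            β * (Real.log ((j + 1 : ℕ) : ℝ) - Real.log j)) := by ring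
      rw [h6]
      refine (abs_add_le _ _).trans ?_
      have h7 := abs_sub (Real.log (Y (j + 1)) - Real.log (Y j))
        (β * (Real.log ((j + 1 : ℕ) : ℝ) - Real.log j))
      have h8 := mul_le_mul_of_nonneg_left h4 hτ.le
      linarith

/-- two-sided bounds along a sparse set of lengths -/
theorem bounds {Y : ℕ → ℝ} {D θ M : ℝ} (hY : Reg Y D θ) (hM : Nb Y M) (S : Set ℕ) (C : ℝ)
    (hS : ∀ᶠ n : ℕ in atTop, ∃ k ∈ S, n ≤ k ∧ (k : ℝ) ≤ n + C * √n)
    (β c₁ c₂ : ℝ) (hc : 0 < c₁)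
    (h : ∀ᶠ n : ℕ in atTop, n ∈ S → c₁ ≤ Y n / (n : ℝ) ^ β ∧ Y n / (n : ℝ) ^ β ≤ c₂) :
    ∃ c₃ c₄ : ℝ, 0 < c₃ ∧ ∀ᶠ n : ℕ in atTop,
      c₃ ≤ Y n / (n : ℝ) ^ β ∧ Y n / (n : ℝ) ^ β ≤ c₄ := by
  obtain ⟨τ, hτ⟩ : ∃ τ : ℝ, τ = |Real.log c₁| + |Real.log c₂| + 1 + (M + |β|) := ⟨_, rfl⟩
  have hM0 := hM.1
  have hD0 := hY.D0
  have hτ0 : 0 < τ := by rw [hτ]; positivity
  have h3 := core2 (τ := τ) (δ := |C| + 1) (β := β) (c := 0) (S := S) hY hM err_one hτ0
    (by positivity) (by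
      filter_upwards [hS] with n hn
      obtain ⟨k, h1, h2, h4⟩ := hn
      refine ⟨k, h1, h2, h4.trans ?_⟩
      rw [mul_one]
      have h5 : C ≤ |C| + 1 := by linarith [le_abs_self C]
      have h6 := mul_le_mul_of_nonneg_right h5 (Real.sqrt_nonneg (n : ℝ))
      linarith) (by
      filter_upwards [h, eventually_gt_atTop 0] with n h4 h6 hnS
      have h7 := log_form (A := 1) (β := β) h6 (hY.pos n) one_pos
      rw [div_one, Real.log_one] at h7
      rw [← h7, mul_one, hτ]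
      obtain ⟨h41, h42⟩ := h4 hnS
      have h8 : 0 < Y n / (n : ℝ) ^ β := lt_of_lt_of_le hc h41
      have h9 := Real.log_le_log hc h41
      have h10 := Real.log_le_log h8 h42
      have h11 : |Real.log (Y n / (n : ℝ) ^ β)| ≤ |Real.log c₁| + |Real.log c₂| := by
        rw [abs_le]
        constructor
        · linarith [neg_abs_le (Real.log c₁), abs_nonneg (Real.log c₂)]
        · linarith [le_abs_self (Real.log c₂), abs_nonneg (Real.log c₁)]
      linarith)
  obtain ⟨L, hL⟩ : ∃ L : ℝ, L = 9 * τ + 384 * D * (2 * (|C| + 1)) ^ 2 := ⟨_, rfl⟩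
  refine ⟨Real.exp (-L), Real.exp L, Real.exp_pos _, ?_⟩
  filter_upwards [h3, eventually_gt_atTop 0] with n h4 h5
  have hn0 : (0 : ℝ) < n := by exact_mod_cast h5
  have h6 : 0 < Y n / (n : ℝ) ^ β := div_pos (hY.pos n) (Real.rpow_pos_of_pos hn0 _)
  have h7 := log_form (A := 1) (β := β) h5 (hY.pos n) one_pos
  rw [div_one, Real.log_one] at h7
  rw [← h7, mul_one, abs_le, ← hL] at h4
  exact ⟨(Real.le_log_iff_exp_le h6).1 h4.1, (Real.log_le_iff_le_exp h6).1 h4.2⟩

/-- the exponent along a sparse set of lengths -/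
theorem expo {Y : ℕ → ℝ} {D θ M : ℝ} (hY : Reg Y D θ) (hM : Nb Y M) (S : Set ℕ)
    (hS : ∀ δ : ℝ, 0 < δ → ∀ᶠ n : ℕ in atTop, ∃ k ∈ S, n ≤ k ∧
      (k : ℝ) ≤ n + δ * √(n * Real.log n)) (β : ℝ)
    (h : Tendsto (fun n : ℕ => Real.log (Y n) / Real.log n) (atTop ⊓ 𝓟 S) (𝓝 β)) :
    Tendsto (fun n : ℕ => Real.log (Y n) / Real.log n) atTop (𝓝 β) := by
  have hD := hY.D0
  have hM0 := hM.1
  rw [Metric.tendsto_atTop']
  intro ε hε
  have hδ : 0 < √(ε / (16 * (384 * D + 1))) := Real.sqrt_pos.2 (by positivity)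
  have tlog : Tendsto (fun n : ℕ => Real.log (n : ℝ)) atTop atTop :=
    Real.tendsto_log_atTop.comp tendsto_natCast_atTop_atTop
  have h3 := core2 (τ := ε / 72) (δ := √(ε / (16 * (384 * D + 1)))) (β := β) (c := 0) (S := S)
    hY hM err_log (by positivity) hδ (by
      filter_upwards [hS _ hδ, eventually_gt_atTop 1] with n hn h5
      obtain ⟨k, h1, h2, h4⟩ := hn
      refine ⟨k, h1, h2, h4.trans ?_⟩
      have h51 : (1 : ℝ) < n := by exact_mod_cast h5
      have h7 : √(n * Real.log n) ≤ √(n * (1 + Real.log n)) := by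
        refine Real.sqrt_le_sqrt (mul_le_mul_of_nonneg_left (by linarith) (by positivity))
      have h8 := mul_le_mul_of_nonneg_left h7 hδ.le
      linarith) (by
      have h4 := Metric.tendsto_nhds.1 h (ε / 144) (by positivity)
      rw [eventually_inf_principal] at h4
      filter_upwards [h4, eventually_gt_atTop 1, tlog.eventually_ge_atTop
        ((M + |β|) / (ε / 144))] with n h4 h5 h6 hnS
      have h51 : (1 : ℝ) < n := by exact_mod_cast h5
      have h52 : 0 < Real.log (n : ℝ) := Real.log_pos h51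
      have h7 := h4 hnS
      rw [Real.dist_eq] at h7
      have h8 : Real.log (Y n) - (β * Real.log n + 0) =
          (Real.log (Y n) / Real.log n - β) * Real.log n := by
        field_simp
        ring
      rw [h8, abs_mul, abs_of_pos h52]
      have h9 : M + |β| ≤ ε / 144 * Real.log n := by
        rw [div_le_iff₀ (by positivity)] at h6
        linarith
      have h10 := mul_le_mul_of_nonneg_right h7.le h52.le
      have h11 : 0 < ε / 72 := by positivity
      nlinarith)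
  obtain ⟨N, hN⟩ := eventually_atTop.1 (h3.and (tlog.eventually_ge_atTop 1))
  refine ⟨N + 1, fun n hn => ?_⟩
  obtain ⟨h4, h5⟩ := hN n (by omega)
  have hln : 0 < Real.log (n : ℝ) := by linarith
  rw [Real.dist_eq]
  have h6 : Real.log (Y n) / Real.log n - β =
      (Real.log (Y n) - (β * Real.log n + 0)) / Real.log n := by
    field_simp
    ring
  rw [h6, abs_div, abs_of_pos hln, div_lt_iff₀ hln]
  refine h4.trans_lt ?_
  rw [mul_pow, Real.sq_sqrt (by positivity)]
  have h7 : 384 * D * (ε / (16 * (384 * D + 1))) ≤ ε / 16 := by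
    rw [mul_div_assoc', div_le_div_iff₀ (by positivity) (by norm_num)]
    nlinarith
  have h8 : 1 + Real.log (n : ℝ) ≤ 2 * Real.log n := by linarith
  have h9 : (9 * (ε / 72) + 384 * D * (2 ^ 2 * (ε / (16 * (384 * D + 1))))) * (1 + Real.log n) ≤
      (3 * ε / 8) * (2 * Real.log n) :=
    mul_le_mul (by linarith) h8 (by linarith) (by positivity)
  refine h9.trans_lt ?_
  nlinarith

end Q294.Sp1
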