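import Pool.Agent.Q294.Sp1

/-!
# A Tauberian theorem for sequences with Kesten's inequality
-/

set_option autoImplicit false

namespace Q294.Sp2

open Finset Filter Topology TH966.KS Q294.Sp1

/-- iterated approximate logarithmic convexity -/
theorem iter {y : ℕ → ℝ} {D θ : ℝ} {k0 : ℕ} (hK : Kes y D θ k0) (h1 : ∀ k, 1 ≤ y k)
    (hD : 0 ≤ D) (hθ0 : 0 < θ) (hθ1 : θ < 1) {b : ℕ} (hb : k0 ≤ b) (hb0 : 0 < b) (j : ℕ) :
    2 * Real.log (y (b + j)) ≤ Real.log (y b) + Real.log (y (b + 2 * j)) + (j : ℝ) ^ 2 * (D / b) := by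
  have hbR : (0 : ℝ) < b := by exact_mod_cast hb0
  have hpos : ∀ k, 0 < y k := fun k => by linarith [h1 k]
  have hstep : ∀ i, b ≤ i → Real.log (y (i + 1)) - Real.log (y i) ≤
      (Real.log (y (i + 2)) - Real.log (y (i + 1))) + D / b := by
    intro i hi
    have h2 := hK i (hb.trans hi) ((pow_le_one₀ hθ0.le hθ1.le).trans (h1 _))
    have h3 : 0 < 1 + D / (i : ℝ) := by positivity
    have h4 := Real.log_le_log (pow_pos (hpos _) 2) h2
    rw [Real.log_mul (mul_pos (hpos _) (hpos _)).ne' h3.ne',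
      Real.log_mul (hpos _).ne' (hpos _).ne', Real.log_pow] at h4
    have h5 : Real.log (1 + D / (i : ℝ)) ≤ D / i := by
      have := Real.log_le_sub_one_of_pos h3
      linarith
    have h6 : D / (i : ℝ) ≤ D / b :=
      div_le_div_of_nonneg_left hD hbR (by exact_mod_cast hi)
    push_cast at h4
    linarith
  have hm : ∀ m i, b ≤ i → Real.log (y (i + 1)) - Real.log (y i) ≤
      (Real.log (y (i + m + 1)) - Real.log (y (i + m))) + m * (D / b) := by
    intro m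
    induction m with
    | zero => intro i _; simp
    | succ m ih =>
      intro i hi
      have a1 := ih i hi
      have a2 := hstep (i + m) (by omega)
      have e1 : i + (m + 1) + 1 = i + m + 2 := by ring
      have e2 : i + (m + 1) = i + m + 1 := by ring
      rw [e1, e2]
      push_cast
      linarith
  have hs := Finset.sum_le_sum (s := range j) fun i (_ : i ∈ range j) => hm j (b + i) (by omega)
  rw [Finset.sum_add_distrib, Finset.sum_const, card_range, nsmul_eq_mul] at hs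
  have t1 : ∑ i ∈ range j, (Real.log (y (b + i + 1)) - Real.log (y (b + i))) =
      Real.log (y (b + j)) - Real.log (y b) := by
    have := Finset.sum_range_sub (fun i => Real.log (y (b + i))) j
    simpa [← add_assoc] using this
  have t2 : ∑ i ∈ range j, (Real.log (y (b + i + j + 1)) - Real.log (y (b + i + j))) =
      Real.log (y (b + 2 * j)) - Real.log (y (b + j)) := by
    have := Finset.sum_range_sub (fun i => Real.log (y (b + i + j))) j
    have e1 : b + 2 * j = b + j + j := by ring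
    rw [e1]
    refine Eq.trans (Finset.sum_congr rfl fun i _ => ?_) (this.trans ?_)
    · have e2 : b + i + j + 1 = b + (i + 1) + j := by ring
      rw [e2]
    · simp
  rw [t1, t2] at hs
  nlinarith

/-- a value is at most the mean of the two values at distance `2 * j`, up to a factor -/
theorem conv2 {Y : ℕ → ℝ} {D θ : ℝ} (hY : Reg Y D θ) (h1 : ∀ n, 1 ≤ Y n) :
    ∃ n0 : ℕ, ∀ n, n0 ≤ n → ∀ j, 4 * j ≤ n →
      Y n * Real.exp (-(4 * D * (j : ℝ) ^ 2 / n)) ≤ (Y (n - 2 * j) + Y (n + 2 * j)) / 2 := by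
  obtain ⟨k0, hk0⟩ := hY.kes 0 (by norm_num)
  obtain ⟨k1, hk1⟩ := hY.kes 1 le_rfl
  have hD := hY.D0
  refine ⟨8 * (k0 + k1 + 2), fun n hn j hj => ?_⟩
  have hn0 : (0 : ℝ) < n := by exact_mod_cast (show 0 < n by omega)
  have key : 2 * Real.log (Y n) ≤ Real.log (Y (n - 2 * j)) + Real.log (Y (n + 2 * j)) +
      8 * D * (j : ℝ) ^ 2 / n := by
    have gen : ∀ s k0' : ℕ, s ≤ 1 → k0' ≤ k0 + k1 → Kes (fun k => Y (2 * k + s)) D θ k0' →
        n % 2 = s → 2 * Real.log (Y n) ≤ Real.log (Y (n - 2 * j)) + Real.log (Y (n + 2 * j)) +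
      8 * D * (j : ℝ) ^ 2 / n := by
      intro s k0' hs hkk hK hns
      obtain ⟨b, hb⟩ : ∃ b, n = 2 * (b + j) + s := ⟨n / 2 - j, by omega⟩
      have hb8 : n ≤ 8 * b := by omega
      have hb0 : 0 < b := by omega
      have h2 := iter (y := fun k => Y (2 * k + s)) hK (fun k => h1 _) hD hY.θ0 hY.θ1
        (b := b) (by omega) hb0 j
      have e1 : n - 2 * j = 2 * b + s := by omega
      have e2 : n + 2 * j = 2 * (b + 2 * j) + s := by omega
      rw [e1, e2, hb]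
      have h3 : (j : ℝ) ^ 2 * (D / b) ≤ 8 * D * (j : ℝ) ^ 2 / ((2 * (b + j) + s : ℕ) : ℝ) := by
        have hbR : (0 : ℝ) < b := by exact_mod_cast hb0
        have hnR : (0 : ℝ) < ((2 * (b + j) + s : ℕ) : ℝ) := by exact_mod_cast (by omega)
        have h4 : ((2 * (b + j) + s : ℕ) : ℝ) ≤ 8 * b := by
          rw [← hb]; exact_mod_cast hb8
        rw [mul_div_assoc', div_le_div_iff₀ hbR hnR]
        have h5 : 0 ≤ (j : ℝ) ^ 2 * D := by positivity
        nlinarith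
      linarith
    rcases Nat.mod_two_eq_zero_or_one n with h | h
    · exact gen 0 k0 (by norm_num) (by omega) hk0 h
    · exact gen 1 k1 le_rfl (by omega) hk1 h
  have ha : 0 < Y (n - 2 * j) := hY.pos _
  have hb : 0 < Y (n + 2 * j) := hY.pos _
  have hc : 0 < Y n := hY.pos _
  have h2 : Y n * Real.exp (-(4 * D * (j : ℝ) ^ 2 / n)) ≤ √(Y (n - 2 * j) * Y (n + 2 * j)) := by
    refine Real.le_sqrt_of_sq_le ?_
    rw [← Real.log_le_log_iff (by positivity) (by positivity), Real.log_pow,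
      Real.log_mul hc.ne' (Real.exp_pos _).ne', Real.log_exp, Real.log_mul ha.ne' hb.ne']
    have e3 : 8 * D * (j : ℝ) ^ 2 / n = 2 * (4 * D * (j : ℝ) ^ 2 / n) := by ring
    rw [e3] at key
    push_cast
    linarith
  refine h2.trans ?_
  rw [Real.sqrt_le_left (by linarith)]
  nlinarith [sq_nonneg (Y (n - 2 * j) - Y (n + 2 * j))]

/-- the partial sums over the indices of the parity of `n` -/
noncomputable def T (Y : ℕ → ℝ) (n : ℕ) : ℝ := ∑ j ∈ range (n / 2 + 1), Y (n - 2 * j)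

theorem T_add_two (Y : ℕ → ℝ) (n : ℕ) : T Y (n + 2) = T Y n + Y (n + 2) := by
  unfold T
  have e : (n + 2) / 2 + 1 = (n / 2 + 1) + 1 := by omega
  rw [e, Finset.sum_range_succ']
  congr 1
  refine Finset.sum_congr rfl fun j _ => ?_
  congr 1
  omega

theorem T_add (Y : ℕ → ℝ) (m J : ℕ) :
    T Y (m + 2 * J) = T Y m + ∑ i ∈ range J, Y (m + 2 * (i + 1)) := by
  induction J with
  | zero => simp
  | succ J ih =>
    have e : m + 2 * (J + 1) = (m + 2 * J) + 2 := by ring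
    rw [e, T_add_two, ih, Finset.sum_range_succ]
    have e' : m + 2 * J + 2 = m + 2 * (J + 1) := by ring
    rw [e', add_assoc]

/-- a function with the increments of the partial sums -/
theorem V_add {Y V : ℕ → ℝ} (hV : ∀ n, V (n + 2) = V n + Y (n + 2)) (m J : ℕ) :
    V (m + 2 * J) = V m + ∑ i ∈ range J, Y (m + 2 * (i + 1)) := by
  induction J with
  | zero => simp
  | succ J ih =>
    have e : m + 2 * (J + 1) = (m + 2 * J) + 2 := by ring
    rw [e, hV, ih, Finset.sum_range_succ]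
    have e' : m + 2 * J + 2 = m + 2 * (J + 1) := by ring
    rw [e', add_assoc]

/-- powers of nearby numbers -/
theorem near (a η : ℝ) (hη : 0 < η) : ∀ᶠ m : ℕ in atTop, ∀ x : ℝ, (m : ℝ) ≤ x →
    x ≤ m + 4 * √m → |x ^ a - (m : ℝ) ^ a| ≤ η * (m : ℝ) ^ a := by
  have hc : ContinuousAt (fun t : ℝ => t ^ a) 1 :=
    Real.continuousAt_rpow_const 1 a (Or.inl one_ne_zero)
  rw [Metric.continuousAt_iff] at hc
  obtain ⟨κ, hκ, hκ'⟩ := hc η hη
  have ev : ∀ᶠ m : ℕ in atTop, 8 / κ ≤ √(m : ℝ) :=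
    (Real.tendsto_sqrt_atTop.comp tendsto_natCast_atTop_atTop).eventually_ge_atTop (8 / κ)
  filter_upwards [ev, eventually_gt_atTop 0] with m h1 h2 x h3 h4
  have hm : (0 : ℝ) < m := by exact_mod_cast h2
  have hs : 0 < √(m : ℝ) := Real.sqrt_pos.2 hm
  have hsq : √(m : ℝ) * √(m : ℝ) = m := Real.mul_self_sqrt hm.le
  have h5 : |x / m - 1| < κ := by
    have h6 : x / m - 1 = (x - m) / m := by field_simp
    rw [h6, abs_of_nonneg (div_nonneg (by linarith) hm.le), div_lt_iff₀ hm]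
    rw [div_le_iff₀ hκ] at h1
    nlinarith
  have h6 := hκ' (x := x / m) (by rw [Real.dist_eq]; exact h5)
  rw [Real.dist_eq, Real.one_rpow] at h6
  have hx : 0 ≤ x := by linarith
  have h7 : x ^ a = (x / m) ^ a * (m : ℝ) ^ a := by
    rw [← Real.mul_rpow (by positivity) hm.le, div_mul_cancel₀ _ hm.ne']
  have h8 : x ^ a - (m : ℝ) ^ a = ((x / m) ^ a - 1) * (m : ℝ) ^ a := by rw [h7]; ring
  have h9 : 0 < (m : ℝ) ^ a := Real.rpow_pos_of_pos hm a
  rw [h8, abs_mul, abs_of_pos h9]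
  exact mul_le_mul_of_nonneg_right h6.le h9.le

/-- sums over windows of length between `δ √m` and `√m` -/
theorem window {V : ℕ → ℝ} {A γ : ℝ} (hA : 0 < A) (hγ : 0 < γ)
    (hT : Tendsto (fun n : ℕ => (V n - A / (2 * γ) * (n : ℝ) ^ γ) / (n : ℝ) ^ (γ - 1 / 2)) atTop
      (𝓝 0)) (δ ε : ℝ) (hδ : 0 < δ) (hε : 0 < ε) :
    ∀ᶠ m : ℕ in atTop, ∀ J : ℕ, δ * √m ≤ J → (J : ℝ) ≤ √m →
      |V (m + 2 * J) - V m - A * J * (m : ℝ) ^ (γ - 1)| ≤ ε * J * (m : ℝ) ^ (γ - 1) := by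
  obtain ⟨η, hη, hη1, hη2⟩ : ∃ η : ℝ, 0 < η ∧ A * η ≤ ε / 2 ∧ 3 * η / δ ≤ ε / 2 := by
    refine ⟨min (ε / (2 * A)) (ε * δ / 6), lt_min (by positivity) (by positivity), ?_, ?_⟩
    · calc A * min (ε / (2 * A)) (ε * δ / 6) ≤ A * (ε / (2 * A)) :=
          mul_le_mul_of_nonneg_left (min_le_left _ _) hA.le
        _ = ε / 2 := by field_simp
    · rw [div_le_iff₀ hδ]
      have := min_le_right (ε / (2 * A)) (ε * δ / 6)
      linarith
  have hT' := hT.abs
  rw [abs_zero] at hT'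
  obtain ⟨N, hN⟩ := eventually_atTop.1 (hT'.eventually_lt_const hη)
  filter_upwards [near (γ - 1) η hη, near (γ - 1 / 2) 1 one_pos, eventually_ge_atTop (N + 1)]
    with m h1 h2 h3 J hJ1 hJ2
  have hm : (0 : ℝ) < m := by exact_mod_cast (show 0 < m by omega)
  have hs : 0 < √(m : ℝ) := Real.sqrt_pos.2 hm
  have hJ0 : (0 : ℝ) < J := lt_of_lt_of_le (mul_pos hδ hs) hJ1
  have e0 : ((m + 2 * J : ℕ) : ℝ) = m + 2 * J := by push_cast; ring
  have hp : 0 < (m : ℝ) ^ (γ - 1) := Real.rpow_pos_of_pos hm _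
  have hq : 0 < (m : ℝ) ^ (γ - 1 / 2) := Real.rpow_pos_of_pos hm _
  -- the two errors
  have er : ∀ k : ℕ, N ≤ k → 0 < k →
      |V k - A / (2 * γ) * (k : ℝ) ^ γ| ≤ η * (k : ℝ) ^ (γ - 1 / 2) := by
    intro k hk hk0
    have hk0' : (0 : ℝ) < k := by exact_mod_cast hk0
    have hkp : 0 < (k : ℝ) ^ (γ - 1 / 2) := Real.rpow_pos_of_pos hk0' _
    have := hN k hk
    rw [abs_div, abs_of_pos hkp, div_lt_iff₀ hkp] at this
    exact this.le
  have er1 := er m (by omega) (by omega)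
  have er2 := er (m + 2 * J) (by omega) (by omega)
  have h4 : ((m + 2 * J : ℕ) : ℝ) ^ (γ - 1 / 2) ≤ 2 * (m : ℝ) ^ (γ - 1 / 2) := by
    have := h2 ((m + 2 * J : ℕ) : ℝ) (by rw [e0]; linarith) (by rw [e0]; linarith)
    have := (abs_le.1 this).2
    linarith
  have h5 : (m : ℝ) ^ (γ - 1 / 2) = (m : ℝ) ^ (γ - 1) * √m := by
    rw [Real.sqrt_eq_rpow, ← Real.rpow_add hm]
    congr 1
    ring
  have h6 : (m : ℝ) ^ (γ - 1 / 2) ≤ (m : ℝ) ^ (γ - 1) * (J / δ) := by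
    rw [h5]
    refine mul_le_mul_of_nonneg_left ?_ hp.le
    rw [le_div_iff₀ hδ]
    linarith
  -- mean value theorem
  obtain ⟨ξ, hξ, hξe⟩ : ∃ ξ ∈ Set.Ioo (m : ℝ) (m + 2 * J),
      γ * ξ ^ (γ - 1) = (((m : ℝ) + 2 * J) ^ γ - (m : ℝ) ^ γ) / (((m : ℝ) + 2 * J) - m) := by
    refine exists_hasDerivAt_eq_slope (fun x : ℝ => x ^ γ) (fun x : ℝ => γ * x ^ (γ - 1))
      (by linarith) ?_ ?_
    · exact ContinuousOn.rpow_const continuousOn_id fun x hx =>
        Or.inl (by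
          have := hx.1
          have : 0 < x := by linarith
          exact this.ne')
    · intro x hx
      have : 0 < x := by linarith [hx.1]
      exact Real.hasDerivAt_rpow_const (Or.inl this.ne')
  have h7 : A / (2 * γ) * ((m : ℝ) + 2 * J) ^ γ - A / (2 * γ) * (m : ℝ) ^ γ =
      A * J * ξ ^ (γ - 1) := by
    have h8 : ((m : ℝ) + 2 * J) - m = 2 * J := by ring
    rw [h8, eq_div_iff (by positivity)] at hξe
    rw [← mul_sub, ← hξe]
    field_simp
  have h9 := h1 ξ hξ.1.le (by linarith [hξ.2])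
  have h10 : |A * J * ξ ^ (γ - 1) - A * J * (m : ℝ) ^ (γ - 1)| ≤
      (ε / 2) * J * (m : ℝ) ^ (γ - 1) := by
    rw [← mul_sub, abs_mul, abs_of_pos (by positivity)]
    calc A * J * |ξ ^ (γ - 1) - (m : ℝ) ^ (γ - 1)| ≤ A * J * (η * (m : ℝ) ^ (γ - 1)) :=
          mul_le_mul_of_nonneg_left h9 (by positivity)
      _ = (A * η) * (J * (m : ℝ) ^ (γ - 1)) := by ring
      _ ≤ (ε / 2) * (J * (m : ℝ) ^ (γ - 1)) := mul_le_mul_of_nonneg_right hη1 (by positivity)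
      _ = _ := by ring
  have h11 : V (m + 2 * J) - V m - A * J * (m : ℝ) ^ (γ - 1) =
      (V (m + 2 * J) - A / (2 * γ) * ((m + 2 * J : ℕ) : ℝ) ^ γ) -
      (V m - A / (2 * γ) * (m : ℝ) ^ γ) +
      (A * J * ξ ^ (γ - 1) - A * J * (m : ℝ) ^ (γ - 1)) := by
    rw [← h7, e0]; ring
  rw [h11]
  have h12 : 3 * η * (m : ℝ) ^ (γ - 1 / 2) ≤ (ε / 2) * J * (m : ℝ) ^ (γ - 1) := by
    calc 3 * η * (m : ℝ) ^ (γ - 1 / 2) ≤ 3 * η * ((m : ℝ) ^ (γ - 1) * (J / δ)) :=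
          mul_le_mul_of_nonneg_left h6 (by positivity)
      _ = (3 * η / δ) * (J * (m : ℝ) ^ (γ - 1)) := by field_simp
      _ ≤ (ε / 2) * (J * (m : ℝ) ^ (γ - 1)) := mul_le_mul_of_nonneg_right hη2 (by positivity)
      _ = _ := by ring
  have h13 : |(V (m + 2 * J) - A / (2 * γ) * ((m + 2 * J : ℕ) : ℝ) ^ γ) -
      (V m - A / (2 * γ) * (m : ℝ) ^ γ)| ≤ 3 * η * (m : ℝ) ^ (γ - 1 / 2) := by
    refine (abs_sub _ _).trans ?_
    nlinarith
  refine (abs_add_le _ _).trans ?_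
  linarith

theorem sqrt_large (K : ℝ) : ∀ᶠ n : ℕ in atTop, K ≤ √(n : ℝ) :=
  (Real.tendsto_sqrt_atTop.comp tendsto_natCast_atTop_atTop).eventually_ge_atTop K

/-- pointwise upper bound -/
theorem upper {Y V : ℕ → ℝ} {D θ : ℝ} (hY : Reg Y D θ) (h1 : ∀ n, 1 ≤ Y n)
    (hV : ∀ n, V (n + 2) = V n + Y (n + 2))
    {A γ : ℝ} (hA : 0 < A) (hγ : 0 < γ)
    (hT : Tendsto (fun n : ℕ => (V n - A / (2 * γ) * (n : ℝ) ^ γ) / (n : ℝ) ^ (γ - 1 / 2)) atTop
      (𝓝 0)) (κ : ℝ) (hκ : 0 < κ) :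
    ∀ᶠ n : ℕ in atTop, Real.log (Y n) ≤ (γ - 1) * Real.log n + Real.log A + κ := by
  have hD := hY.D0
  obtain ⟨n0, hn0⟩ := conv2 hY h1
  -- parameters
  obtain ⟨δ, hδ, hδ1, hδ2⟩ : ∃ δ : ℝ, 0 < δ ∧ δ ≤ 1 / 16 ∧ 16 * D * δ ^ 2 ≤ κ / 4 := by
    refine ⟨min (1 / 16) (κ / (64 * (D + 1))), lt_min (by norm_num) (by positivity),
      min_le_left _ _, ?_⟩
    have a1 : min (1 / 16) (κ / (64 * (D + 1))) ≤ 1 / 16 := min_le_left _ _
    have a2 : min (1 / 16) (κ / (64 * (D + 1))) ≤ κ / (64 * (D + 1)) := min_le_right _ _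
    have a0 : 0 ≤ min (1 / 16) (κ / (64 * (D + 1))) := by positivity
    have a3 : (min (1 / 16) (κ / (64 * (D + 1)))) ^ 2 ≤ 1 / 16 * (κ / (64 * (D + 1))) := by
      rw [sq]; exact mul_le_mul a1 a2 a0 (by norm_num)
    have a4 : 16 * D * (1 / 16 * (κ / (64 * (D + 1)))) ≤ κ / 4 := by
      have : 16 * D * (1 / 16 * (κ / (64 * (D + 1)))) = D * κ / (64 * (D + 1)) := by
        field_simp
      rw [this, div_le_div_iff₀ (by positivity) (by norm_num)]
      nlinarith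
    refine le_trans ?_ a4
    exact mul_le_mul_of_nonneg_left a3 (by positivity)
  obtain ⟨ε, hε, hε1⟩ : ∃ ε : ℝ, 0 < ε ∧ Real.log (A + ε) ≤ Real.log A + κ / 4 := by
    refine ⟨A * (Real.exp (κ / 4) - 1), ?_, ?_⟩
    · have := Real.add_one_lt_exp (show κ / 4 ≠ 0 by positivity)
      have : 0 < Real.exp (κ / 4) - 1 := by linarith
      positivity
    · have : A + A * (Real.exp (κ / 4) - 1) = A * Real.exp (κ / 4) := by ring
      rw [this, Real.log_mul hA.ne' (Real.exp_pos _).ne', Real.log_exp]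
  obtain ⟨η, hη, hη1, hη2⟩ : ∃ η : ℝ, 0 < η ∧ η < 1 ∧ -Real.log (1 - η) ≤ κ / 4 := by
    refine ⟨1 - Real.exp (-(κ / 4)), ?_, ?_, ?_⟩
    · have : Real.exp (-(κ / 4)) < 1 := Real.exp_lt_one_iff.2 (by linarith)
      linarith
    · linarith [Real.exp_pos (-(κ / 4))]
    · have : 1 - (1 - Real.exp (-(κ / 4))) = Real.exp (-(κ / 4)) := by ring
      rw [this, Real.log_exp]
      linarith
  obtain ⟨N, hN⟩ := eventually_atTop.1
    ((window hA hγ hT δ ε hδ hε).and (near (γ - 1) η hη))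
  filter_upwards [sqrt_large (16 / δ), eventually_ge_atTop (4 * N + n0 + 16)] with n h3 h4
  have hn : (0 : ℝ) < n := by exact_mod_cast (show 0 < n by omega)
  have hs : 0 < √(n : ℝ) := Real.sqrt_pos.2 hn
  have hsq : √(n : ℝ) * √(n : ℝ) = n := Real.mul_self_sqrt hn.le
  have hs16 : 16 ≤ δ * √(n : ℝ) := by
    rw [div_le_iff₀ hδ] at h3; linarith
  have hs256 : 256 ≤ √(n : ℝ) := by nlinarith
  obtain ⟨J, hJ⟩ : ∃ J : ℕ, J = ⌈δ * √(n : ℝ)⌉₊ := ⟨_, rfl⟩
  have hJ1 : δ * √(n : ℝ) ≤ J := by rw [hJ]; exact Nat.le_ceil _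
  have hJ2 : (J : ℝ) ≤ 2 * (δ * √(n : ℝ)) := by
    have := Nat.ceil_lt_add_one (show 0 ≤ δ * √(n : ℝ) by positivity)
    rw [← hJ] at this
    linarith
  have hJ3 : (J : ℝ) ≤ √n / 8 := by nlinarith
  have hJ0 : (0 : ℝ) < J := by linarith
  have hJn : 8 * J + 2 ≤ n := by
    have : (8 * J + 2 : ℝ) ≤ n := by nlinarith
    exact_mod_cast this
  obtain ⟨m, hm⟩ : ∃ m, n = m + 2 * J + 2 := ⟨n - 2 * J - 2, by omega⟩
  have hm4 : n ≤ 4 * m := by omega
  have hmR : (0 : ℝ) < m := by exact_mod_cast (show 0 < m by omega)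
  have hmn : (m : ℝ) ≤ n := by exact_mod_cast (show m ≤ n by omega)
  have hsm : √(n : ℝ) ≤ 2 * √(m : ℝ) := by
    have e : (2 : ℝ) = √4 := by
      rw [show (4 : ℝ) = 2 ^ 2 by norm_num, Real.sqrt_sq (by norm_num)]
    rw [e, ← Real.sqrt_mul (by norm_num)]
    exact Real.sqrt_le_sqrt (by exact_mod_cast hm4)
  have hsm' : √(m : ℝ) ≤ √(n : ℝ) := Real.sqrt_le_sqrt hmn
  obtain ⟨w1, w2⟩ := hN m (by omega)
  obtain ⟨w3, -⟩ := hN n (by omega)
  have u1 := w1 J ((mul_le_mul_of_nonneg_left hsm' hδ.le).trans hJ1) (by linarith)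
  have u2 := w3 J hJ1 (by linarith)
  have hnm : (n : ℝ) = m + 2 * J + 2 := by rw [hm]; push_cast; ring
  have u3 := w2 n hmn (by linarith)
  -- sums of the inequalities
  have hsum : J * (Y n * Real.exp (-(16 * D * δ ^ 2))) ≤
      ((V (m + 2 * J) - V m) + (V (n + 2 * J) - V n)) / 2 := by
    have h5 : ∀ i ∈ range J, Y n * Real.exp (-(16 * D * δ ^ 2)) ≤
        (Y (m + 2 * (J - 1 - i + 1)) + Y (n + 2 * (i + 1))) / 2 := by
      intro i hi
      have hi' := mem_range.1 hi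
      have h6 := hn0 n (by omega) (i + 1) (by omega)
      have e1 : n - 2 * (i + 1) = m + 2 * (J - 1 - i + 1) := by omega
      rw [e1] at h6
      refine le_trans (mul_le_mul_of_nonneg_left (Real.exp_le_exp.2 ?_) (hY.pos n).le) h6
      rw [neg_le_neg_iff, div_le_iff₀ hn]
      have h7 : ((i + 1 : ℕ) : ℝ) ≤ J := by exact_mod_cast hi'
      have h8 : ((i + 1 : ℕ) : ℝ) ^ 2 ≤ (2 * (δ * √(n : ℝ))) ^ 2 :=
        pow_le_pow_left₀ (Nat.cast_nonneg _) (h7.trans hJ2) 2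
      have h9 : (2 * (δ * √(n : ℝ))) ^ 2 = 4 * δ ^ 2 * n := by
        rw [mul_pow, mul_pow, sq (√(n : ℝ)), hsq]; ring
      rw [h9] at h8
      calc 4 * D * ((i + 1 : ℕ) : ℝ) ^ 2 ≤ 4 * D * (4 * δ ^ 2 * n) :=
            mul_le_mul_of_nonneg_left h8 (by positivity)
        _ = 16 * D * δ ^ 2 * n := by ring
    have h6 := Finset.sum_le_sum h5
    rw [Finset.sum_const, card_range, nsmul_eq_mul, ← Finset.sum_div, Finset.sum_add_distrib]
      at h6
    rw [V_add hV, V_add hV]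
    have h7 : ∑ i ∈ range J, Y (m + 2 * (J - 1 - i + 1)) = ∑ i ∈ range J, Y (m + 2 * (i + 1)) :=
      Finset.sum_range_reflect (fun i => Y (m + 2 * (i + 1))) J
    rw [h7] at h6
    linarith
  have hpm : 0 < (m : ℝ) ^ (γ - 1) := Real.rpow_pos_of_pos hmR _
  have hpn : 0 < (n : ℝ) ^ (γ - 1) := Real.rpow_pos_of_pos hn _
  have v1 := (abs_le.1 u1).2
  have v2 := (abs_le.1 u2).2
  have v3 := (abs_le.1 u3).1
  have hη0 : 0 < 1 - η := by linarith
  have v4 : (m : ℝ) ^ (γ - 1) ≤ (n : ℝ) ^ (γ - 1) / (1 - η) := by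
    rw [le_div_iff₀ hη0]; linarith
  have v5 : (n : ℝ) ^ (γ - 1) ≤ (n : ℝ) ^ (γ - 1) / (1 - η) := by
    rw [le_div_iff₀ hη0]
    nlinarith
  have v6 : Y n * Real.exp (-(16 * D * δ ^ 2)) ≤ (A + ε) * ((n : ℝ) ^ (γ - 1) / (1 - η)) := by
    have h5 : J * (Y n * Real.exp (-(16 * D * δ ^ 2))) ≤
        J * ((A + ε) * ((n : ℝ) ^ (γ - 1) / (1 - η))) := by
      refine hsum.trans ?_
      have h6 : (A + ε) * J * (m : ℝ) ^ (γ - 1) ≤
          (A + ε) * J * ((n : ℝ) ^ (γ - 1) / (1 - η)) :=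
        mul_le_mul_of_nonneg_left v4 (by positivity)
      have h7 : (A + ε) * J * (n : ℝ) ^ (γ - 1) ≤
          (A + ε) * J * ((n : ℝ) ^ (γ - 1) / (1 - η)) :=
        mul_le_mul_of_nonneg_left v5 (by positivity)
      linarith
    exact le_of_mul_le_mul_left h5 hJ0
  have v7 := Real.log_le_log (mul_pos (hY.pos n) (Real.exp_pos _)) v6
  rw [Real.log_mul (hY.pos n).ne' (Real.exp_pos _).ne', Real.log_exp,
    Real.log_mul (by positivity) (by positivity), Real.log_div hpn.ne' hη0.ne',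
    Real.log_rpow hn] at v7
  linarith

/-- pointwise lower bound on a sparse set -/
theorem lower {Y V : ℕ → ℝ} (hV : ∀ n, V (n + 2) = V n + Y (n + 2)) {A γ : ℝ} (hA : 0 < A) (hγ : 0 < γ)
    (hT : Tendsto (fun n : ℕ => (V n - A / (2 * γ) * (n : ℝ) ^ γ) / (n : ℝ) ^ (γ - 1 / 2)) atTop
      (𝓝 0)) (κ δ : ℝ) (hκ : 0 < κ) (hδ : 0 < δ) :
    ∀ᶠ n : ℕ in atTop, ∃ k : ℕ, (γ - 1) * Real.log k + Real.log A - κ ≤ Real.log (Y k) ∧
      k % 2 = n % 2 ∧ n ≤ k ∧ (k : ℝ) ≤ n + δ * √n := by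
  obtain ⟨δ', hδ', hδ1, hδ2⟩ : ∃ δ' : ℝ, 0 < δ' ∧ δ' ≤ 1 / 16 ∧ δ' ≤ δ / 8 :=
    ⟨min (1 / 16) (δ / 8), lt_min (by norm_num) (by positivity), min_le_left _ _,
      min_le_right _ _⟩
  obtain ⟨ε, hε, hεA, hε1⟩ : ∃ ε : ℝ, 0 < ε ∧ ε < A ∧ Real.log A - κ / 2 ≤ Real.log (A - ε) := by
    refine ⟨A * (1 - Real.exp (-(κ / 2))), ?_, ?_, ?_⟩
    · have : Real.exp (-(κ / 2)) < 1 := Real.exp_lt_one_iff.2 (by linarith)
      have : 0 < 1 - Real.exp (-(κ / 2)) := by linarith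
      positivity
    · have := Real.exp_pos (-(κ / 2))
      nlinarith
    · have : A - A * (1 - Real.exp (-(κ / 2))) = A * Real.exp (-(κ / 2)) := by ring
      rw [this, Real.log_mul hA.ne' (Real.exp_pos _).ne', Real.log_exp]
      linarith
  obtain ⟨η, hη, hη2⟩ : ∃ η : ℝ, 0 < η ∧ Real.log (1 + η) ≤ κ / 2 := by
    refine ⟨Real.exp (κ / 2) - 1, ?_, ?_⟩
    · have := Real.add_one_lt_exp (show κ / 2 ≠ 0 by positivity)
      linarith
    · have : 1 + (Real.exp (κ / 2) - 1) = Real.exp (κ / 2) := by ring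
      rw [this, Real.log_exp]
  obtain ⟨N, hN⟩ := eventually_atTop.1
    ((window hA hγ hT δ' ε hδ' hε).and (near (γ - 1) η hη))
  filter_upwards [sqrt_large (16 / δ'), eventually_ge_atTop (2 * N + 16)] with n h3 h4
  have hn : (0 : ℝ) < n := by exact_mod_cast (show 0 < n by omega)
  have hs : 0 < √(n : ℝ) := Real.sqrt_pos.2 hn
  have hsq : √(n : ℝ) * √(n : ℝ) = n := Real.mul_self_sqrt hn.le
  have hs16 : 16 ≤ δ' * √(n : ℝ) := by
    rw [div_le_iff₀ hδ'] at h3; linarith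
  have hs256 : 256 ≤ √(n : ℝ) := by nlinarith
  obtain ⟨J, hJ⟩ : ∃ J : ℕ, J = ⌈δ' * √(n : ℝ)⌉₊ := ⟨_, rfl⟩
  have hJ1 : δ' * √(n : ℝ) ≤ J := by rw [hJ]; exact Nat.le_ceil _
  have hJ2 : (J : ℝ) ≤ 2 * (δ' * √(n : ℝ)) := by
    have := Nat.ceil_lt_add_one (show 0 ≤ δ' * √(n : ℝ) by positivity)
    rw [← hJ] at this
    linarith
  have hJ3 : (J : ℝ) ≤ √n / 8 := by nlinarith
  have hJ0 : (0 : ℝ) < J := by linarith
  obtain ⟨m, hm⟩ : ∃ m, n = m + 2 := ⟨n - 2, by omega⟩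
  have hm4 : n ≤ 4 * m := by omega
  have hmR : (0 : ℝ) < m := by exact_mod_cast (show 0 < m by omega)
  have hmn : (m : ℝ) ≤ n := by exact_mod_cast (show m ≤ n by omega)
  have hsm : √(n : ℝ) ≤ 2 * √(m : ℝ) := by
    have e : (2 : ℝ) = √4 := by
      rw [show (4 : ℝ) = 2 ^ 2 by norm_num, Real.sqrt_sq (by norm_num)]
    rw [e, ← Real.sqrt_mul (by norm_num)]
    exact Real.sqrt_le_sqrt (by exact_mod_cast hm4)
  have hsm' : √(m : ℝ) ≤ √(n : ℝ) := Real.sqrt_le_sqrt hmn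
  obtain ⟨w1, w2⟩ := hN m (by omega)
  have u1 := w1 J ((mul_le_mul_of_nonneg_left hsm' hδ'.le).trans hJ1) (by linarith)
  have hpm : 0 < (m : ℝ) ^ (γ - 1) := Real.rpow_pos_of_pos hmR _
  rw [V_add hV] at u1
  have u2 := (abs_le.1 u1).1
  -- some term is large
  obtain ⟨i, hi, hi2⟩ : ∃ i ∈ range J, (A - ε) * (m : ℝ) ^ (γ - 1) ≤ Y (m + 2 * (i + 1)) := by
    by_contra hcon
    push Not at hcon
    have hne : (range J).Nonempty := by
      rw [nonempty_range_iff]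
      rintro h0
      rw [h0] at hJ0
      simp at hJ0
    have h5 := Finset.sum_lt_sum_of_nonempty hne hcon
    rw [Finset.sum_const, card_range, nsmul_eq_mul] at h5
    nlinarith
  have hi' := mem_range.1 hi
  have hiR : ((i + 1 : ℕ) : ℝ) ≤ J := by exact_mod_cast hi'
  refine ⟨m + 2 * (i + 1), ?_, by omega, by omega, ?_⟩
  · have hkR : (0 : ℝ) < ((m + 2 * (i + 1) : ℕ) : ℝ) := by exact_mod_cast (by omega)
    have u3 := w2 ((m + 2 * (i + 1) : ℕ) : ℝ) (by exact_mod_cast (by omega)) (by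
      push_cast at hiR ⊢
      linarith)
    have u4 := (abs_le.1 u3).2
    have hpk : 0 < ((m + 2 * (i + 1) : ℕ) : ℝ) ^ (γ - 1) := Real.rpow_pos_of_pos hkR _
    have u5 : ((m + 2 * (i + 1) : ℕ) : ℝ) ^ (γ - 1) ≤ (1 + η) * (m : ℝ) ^ (γ - 1) := by linarith
    have hAε : 0 < A - ε := by linarith
    have u6 := Real.log_le_log (mul_pos hAε hpm) hi2
    rw [Real.log_mul hAε.ne' hpm.ne'] at u6
    have u7 := Real.log_le_log hpk u5
    rw [Real.log_mul (by positivity) hpm.ne', Real.log_rpow hkR] at u7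
    linarith
  · have h5 : ((m + 2 * (i + 1) : ℕ) : ℝ) ≤ m + 2 * J := by
      push_cast at hiR ⊢
      linarith
    have h6 : (n : ℝ) = m + 2 := by rw [hm]; push_cast; ring
    have h7 : 2 * (2 * (δ' * √(n : ℝ))) ≤ δ * √(n : ℝ) := by nlinarith
    linarith

/-- **Tauberian theorem.** -/
theorem tauberV {Y V : ℕ → ℝ} {D θ : ℝ} (hY : Reg Y D θ) (h1 : ∀ n, 1 ≤ Y n)
    (hV : ∀ n, V (n + 2) = V n + Y (n + 2)) {A γ : ℝ} (hA : 0 < A) (hγ : 0 < γ)
    (hT : Tendsto (fun n : ℕ => (V n - A / (2 * γ) * (n : ℝ) ^ γ) / (n : ℝ) ^ (γ - 1 / 2)) atTop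
      (𝓝 0)) : Tendsto (fun n : ℕ => Y n / (n : ℝ) ^ (γ - 1)) atTop (𝓝 A) := by
  have hD := hY.D0
  have hall : Tendsto (fun n : ℕ => Real.log (Y n) - ((γ - 1) * Real.log n + Real.log A)) atTop
      (𝓝 0) := by
    rw [Metric.tendsto_atTop']
    intro ε hε
    have hδ : 0 < √(ε / (4 * (384 * D + 1))) := Real.sqrt_pos.2 (by positivity)
    have hτ : 0 < ε / 36 := by positivity
    have hl := lower hV hA hγ hT (ε / 36) (√(ε / (4 * (384 * D + 1)))) hτ hδ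
    have h3 := core (τ := ε / 36) (δ := √(ε / (4 * (384 * D + 1)))) (β := γ - 1)
      (c := Real.log A)
      (S := {k : ℕ | (γ - 1) * Real.log k + Real.log A - ε / 36 ≤ Real.log (Y k)}) hY err_one
      hτ hδ (by simp only [mul_one]; exact hl) (by
        filter_upwards [upper hY h1 hV hA hγ hT (ε / 36) hτ] with k hk hkS
        rw [mul_one, abs_le]
        have : (γ - 1) * Real.log k + Real.log A - ε / 36 ≤ Real.log (Y k) := hkS
        constructor <;> linarith)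
    obtain ⟨N, hN⟩ := eventually_atTop.1 h3
    refine ⟨N, fun n hn => ?_⟩
    rw [dist_zero_right, Real.norm_eq_abs]
    refine (hN n hn.le).trans_lt ?_
    rw [Real.sq_sqrt (by positivity), mul_one]
    have h7 : 384 * D * (ε / (4 * (384 * D + 1))) ≤ ε / 4 := by
      rw [mul_div_assoc', div_le_div_iff₀ (by positivity) (by norm_num)]
      nlinarith
    linarith
  have h8 : Tendsto (fun n : ℕ => Real.exp (Real.log (Y n) -
      ((γ - 1) * Real.log n + Real.log A)) * A) atTop (𝓝 (Real.exp 0 * A)) :=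
    ((Real.continuous_exp.tendsto 0).comp hall).mul_const A
  rw [Real.exp_zero, one_mul] at h8
  refine h8.congr' ?_
  filter_upwards [eventually_gt_atTop 0] with n hn
  have hn0 : (0 : ℝ) < n := by exact_mod_cast hn
  rw [← log_form hn (hY.pos n) hA,
    Real.exp_log (div_pos (div_pos (hY.pos n) (Real.rpow_pos_of_pos hn0 _)) hA),
    div_mul_cancel₀ _ hA.ne']

theorem tauber {Y : ℕ → ℝ} {D θ : ℝ} (hY : Reg Y D θ) (h1 : ∀ n, 1 ≤ Y n)
    {A γ : ℝ} (hA : 0 < A) (hγ : 0 < γ)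
    (hT : Tendsto (fun n : ℕ => (T Y n - A / (2 * γ) * (n : ℝ) ^ γ) / (n : ℝ) ^ (γ - 1 / 2)) atTop
      (𝓝 0)) : Tendsto (fun n : ℕ => Y n / (n : ℝ) ^ (γ - 1)) atTop (𝓝 A) :=
  tauberV hY h1 (T_add_two Y) hA hγ hT

end Q294.Sp2
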