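import Pool.Agent.Q294.Sp2

/-!
# Two sequences with Kesten's inequality: control of their ratio
-/

set_option autoImplicit false

namespace Q294.Sp3

open Finset Filter Topology TH966.KS Q294.Sp1 Q294.Sp2

/-- two-sided bounds along a sparse set of lengths, with the condition on the parity -/
theorem boundsP {Y : ℕ → ℝ} {D θ : ℝ} (hY : Reg Y D θ) (S : Set ℕ) (C : ℝ)
    (hS : ∀ᶠ n : ℕ in atTop, ∃ k ∈ S, k % 2 = n % 2 ∧ n ≤ k ∧ (k : ℝ) ≤ n + C * √n)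
    (β c₁ c₂ : ℝ) (hc : 0 < c₁)
    (h : ∀ᶠ n : ℕ in atTop, n ∈ S → c₁ ≤ Y n / (n : ℝ) ^ β ∧ Y n / (n : ℝ) ^ β ≤ c₂) :
    ∃ c₃ c₄ : ℝ, 0 < c₃ ∧ ∀ᶠ n : ℕ in atTop,
      c₃ ≤ Y n / (n : ℝ) ^ β ∧ Y n / (n : ℝ) ^ β ≤ c₄ := by
  obtain ⟨τ, hτ⟩ : ∃ τ : ℝ, τ = |Real.log c₁| + |Real.log c₂| + 1 := ⟨_, rfl⟩
  have hD0 := hY.D0
  have hτ0 : 0 < τ := by rw [hτ]; positivity
  have h3 := core (τ := τ) (δ := |C| + 1) (β := β) (c := 0) (S := S) hY err_one hτ0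
    (by positivity) (by
      filter_upwards [hS] with n hn
      obtain ⟨k, h1, hp, h2, h4⟩ := hn
      refine ⟨k, h1, hp, h2, h4.trans ?_⟩
      rw [mul_one]
      have h5 : C ≤ |C| + 1 := by linarith [le_abs_self C]
      have h6 := mul_le_mul_of_nonneg_right h5 (Real.sqrt_nonneg (n : ℝ))
      linarith) (by
      filter_upwards [h, eventually_gt_atTop 0] with n h4 h6 hnS
      have h7 := log_form (A := 1) (β := β) h6 (hY.pos n) one_pos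
      rw [div_one, Real.log_one] at h7
      rw [← h7, mul_one, hτ]
      obtain ⟨h41, h42⟩ := h4 hnS
      have h8 : 0 < Y n / (n : ℝ) ^ β := lt_of_lt_of_le hc h41
      have h9 := Real.log_le_log hc h41
      have h10 := Real.log_le_log h8 h42
      rw [abs_le]
      constructor
      · linarith [neg_abs_le (Real.log c₁), abs_nonneg (Real.log c₂)]
      · linarith [le_abs_self (Real.log c₂), abs_nonneg (Real.log c₁)])
  obtain ⟨L, hL⟩ : ∃ L : ℝ, L = 9 * τ + 384 * D * (|C| + 1) ^ 2 := ⟨_, rfl⟩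
  refine ⟨Real.exp (-L), Real.exp L, Real.exp_pos _, ?_⟩
  filter_upwards [h3, eventually_gt_atTop 0] with n h4 h5
  have hn0 : (0 : ℝ) < n := by exact_mod_cast h5
  have h6 : 0 < Y n / (n : ℝ) ^ β := div_pos (hY.pos n) (Real.rpow_pos_of_pos hn0 _)
  have h7 := log_form (A := 1) (β := β) h5 (hY.pos n) one_pos
  rw [div_one, Real.log_one] at h7
  rw [← h7, mul_one, abs_le, ← hL] at h4
  exact ⟨(Real.le_log_iff_exp_le h6).1 h4.1, (Real.log_le_iff_le_exp h6).1 h4.2⟩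

/-- the exponent along a sparse set of lengths, with the condition on the parity -/
theorem expoP {Y : ℕ → ℝ} {D θ : ℝ} (hY : Reg Y D θ) (S : Set ℕ)
    (hS : ∀ δ : ℝ, 0 < δ → ∀ᶠ n : ℕ in atTop, ∃ k ∈ S, k % 2 = n % 2 ∧ n ≤ k ∧
      (k : ℝ) ≤ n + δ * √(n * Real.log n)) (β : ℝ)
    (h : Tendsto (fun n : ℕ => Real.log (Y n) / Real.log n) (atTop ⊓ 𝓟 S) (𝓝 β)) :
    Tendsto (fun n : ℕ => Real.log (Y n) / Real.log n) atTop (𝓝 β) := by
  have hD := hY.D0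
  rw [Metric.tendsto_atTop']
  intro ε hε
  have hδ : 0 < √(ε / (16 * (384 * D + 1))) := Real.sqrt_pos.2 (by positivity)
  have tlog : Tendsto (fun n : ℕ => Real.log (n : ℝ)) atTop atTop :=
    Real.tendsto_log_atTop.comp tendsto_natCast_atTop_atTop
  have h3 := core (τ := ε / 72) (δ := √(ε / (16 * (384 * D + 1)))) (β := β) (c := 0) (S := S)
    hY err_log (by positivity) hδ (by
      filter_upwards [hS _ hδ, eventually_gt_atTop 1] with n hn h5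
      obtain ⟨k, h1, hp, h2, h4⟩ := hn
      refine ⟨k, h1, hp, h2, h4.trans ?_⟩
      have h51 : (1 : ℝ) < n := by exact_mod_cast h5
      have h7 : √(n * Real.log n) ≤ √(n * (1 + Real.log n)) := by
        refine Real.sqrt_le_sqrt (mul_le_mul_of_nonneg_left (by linarith) (by positivity))
      have h8 := mul_le_mul_of_nonneg_left h7 hδ.le
      linarith) (by
      have h4 := Metric.tendsto_nhds.1 h (ε / 72) (by positivity)
      rw [eventually_inf_principal] at h4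
      filter_upwards [h4, eventually_gt_atTop 1] with n h4 h5 hnS
      have h51 : (1 : ℝ) < n := by exact_mod_cast h5
      have h52 : 0 < Real.log (n : ℝ) := Real.log_pos h51
      have h7 := h4 hnS
      rw [Real.dist_eq] at h7
      have h8 : Real.log (Y n) - (β * Real.log n + 0) =
          (Real.log (Y n) / Real.log n - β) * Real.log n := by
        field_simp
        ring
      rw [h8, abs_mul, abs_of_pos h52]
      have h10 := mul_le_mul_of_nonneg_right h7.le h52.le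
      have h11 : 0 < ε / 72 := by positivity
      nlinarith)
  obtain ⟨N, hN⟩ := eventually_atTop.1 (h3.and (tlog.eventually_ge_atTop 1))
  refine ⟨N + 1, fun n hn => ?_⟩
  obtain ⟨h4, h5⟩ := hN n (by omega)
  have hln : 0 < Real.log (n : ℝ) := by linarith
  rw [Real.dist_eq]
  have h6 : Real.log (Y n) / Real.log n - β =
      (Real.log (Y n) - (β * Real.log n + 0)) / Real.log n := by
    field_simp
    ring
  rw [h6, abs_div, abs_of_pos hln, div_lt_iff₀ hln]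
  refine h4.trans_lt ?_
  rw [Real.sq_sqrt (by positivity)]
  have h7 : 384 * D * (ε / (16 * (384 * D + 1))) ≤ ε / 16 := by
    rw [mul_div_assoc', div_le_div_iff₀ (by positivity) (by norm_num)]
    nlinarith
  have h8 : 1 + Real.log (n : ℝ) ≤ 2 * Real.log n := by linarith
  have h9 : (9 * (ε / 72) + 384 * D * (ε / (16 * (384 * D + 1)))) * (1 + Real.log n) ≤
      (3 * ε / 16) * (2 * Real.log n) :=
    mul_le_mul (by linarith) h8 (by linarith) (by positivity)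
  refine h9.trans_lt ?_
  nlinarith

variable {Y Z : ℕ → ℝ} {D₁ θ₁ D₂ θ₂ : ℝ}

theorem split (Y Z : ℕ → ℝ) (hY : ∀ n, 0 < Y n) (α β : ℝ) {n : ℕ} (hn : 0 < n) :
    Z n / (n : ℝ) ^ (α + β) = (Y n / (n : ℝ) ^ α) * (Z n / Y n / (n : ℝ) ^ β) := by
  have hn0 : (0 : ℝ) < n := by exact_mod_cast hn
  rw [Real.rpow_add hn0]
  have h1 := (Real.rpow_pos_of_pos hn0 α).ne'
  have h2 := (Real.rpow_pos_of_pos hn0 β).ne'
  have h3 := (hY n).ne'
  field_simp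

theorem back (hY : ∀ n, 0 < Y n) {A B α β : ℝ} (hA : 0 < A)
    (h1 : Tendsto (fun n : ℕ => Y n / (n : ℝ) ^ α) atTop (𝓝 A))
    (h2 : Tendsto (fun n : ℕ => Z n / (n : ℝ) ^ (α + β)) atTop (𝓝 B)) :
    Tendsto (fun n : ℕ => Z n / Y n / (n : ℝ) ^ β) atTop (𝓝 (B / A)) := by
  refine (h2.div h1 hA.ne').congr' ?_
  filter_upwards [eventually_gt_atTop 0] with n hn
  have hn0 : (0 : ℝ) < n := by exact_mod_cast hn
  have h3 : 0 < Y n / (n : ℝ) ^ α := div_pos (hY n) (Real.rpow_pos_of_pos hn0 _)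
  rw [Pi.div_apply, split Y Z hY α β hn, mul_div_cancel_left₀ _ h3.ne']

/-- the asymptotic forms of `Y` and of `Z / Y` along a sparse set of lengths -/
theorem joint_form (hY : Reg Y D₁ θ₁) (hZ : Reg Z D₂ θ₂) (S : Set ℕ)
    (hS : ∀ δ : ℝ, 0 < δ → ∀ᶠ n : ℕ in atTop, ∃ k ∈ S, k % 2 = n % 2 ∧ n ≤ k ∧
      (k : ℝ) ≤ n + δ * √n) (A B α β : ℝ) (hA : 0 < A) (hB : 0 < B)
    (h1 : Tendsto (fun n : ℕ => Y n / (n : ℝ) ^ α) (atTop ⊓ 𝓟 S) (𝓝 A))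
    (h2 : Tendsto (fun n : ℕ => Z n / Y n / (n : ℝ) ^ β) (atTop ⊓ 𝓟 S) (𝓝 B)) :
    Tendsto (fun n : ℕ => Y n / (n : ℝ) ^ α) atTop (𝓝 A) ∧
      Tendsto (fun n : ℕ => Z n / Y n / (n : ℝ) ^ β) atTop (𝓝 B) := by
  have t1 := form hY S hS A α hA h1
  have h3 : Tendsto (fun n : ℕ => Z n / (n : ℝ) ^ (α + β)) (atTop ⊓ 𝓟 S) (𝓝 (A * B)) := by
    refine (h1.mul h2).congr' ?_
    have : ∀ᶠ n : ℕ in atTop ⊓ 𝓟 S, 0 < n := (eventually_gt_atTop 0).filter_mono inf_le_left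
    filter_upwards [this] with n hn
    rw [split Y Z hY.pos α β hn]
  have t2 := form hZ S hS (A * B) (α + β) (mul_pos hA hB) h3
  have t3 := back hY.pos hA t1 t2
  rw [mul_div_cancel_left₀ _ hA.ne'] at t3
  exact ⟨t1, t3⟩

/-- two-sided bounds of `Y` and of `Z / Y` along a sparse set of lengths -/
theorem joint_bounds (hY : Reg Y D₁ θ₁) (hZ : Reg Z D₂ θ₂) (S : Set ℕ) (C : ℝ)
    (hS : ∀ᶠ n : ℕ in atTop, ∃ k ∈ S, k % 2 = n % 2 ∧ n ≤ k ∧ (k : ℝ) ≤ n + C * √n)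
    (α β a₁ a₂ b₁ b₂ : ℝ) (ha : 0 < a₁) (hb : 0 < b₁)
    (h : ∀ᶠ n : ℕ in atTop, n ∈ S → (a₁ ≤ Y n / (n : ℝ) ^ α ∧ Y n / (n : ℝ) ^ α ≤ a₂) ∧
      (b₁ ≤ Z n / Y n / (n : ℝ) ^ β ∧ Z n / Y n / (n : ℝ) ^ β ≤ b₂)) :
    ∃ b₃ b₄ : ℝ, 0 < b₃ ∧ ∀ᶠ n : ℕ in atTop,
      b₃ ≤ Z n / Y n / (n : ℝ) ^ β ∧ Z n / Y n / (n : ℝ) ^ β ≤ b₄ := by
  obtain ⟨a₃, a₄, ha₃, h1⟩ := boundsP hY S C hS α a₁ a₂ ha (h.mono fun n hn hS => (hn hS).1)
  obtain ⟨d₃, d₄, hd₃, h2⟩ := boundsP hZ S C hS (α + β) (a₁ * b₁) (a₂ * b₂) (mul_pos ha hb) (by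
    filter_upwards [h, eventually_gt_atTop 0] with n hn hn0 hnS
    obtain ⟨⟨c1, c2⟩, c3, c4⟩ := hn hnS
    rw [split Y Z hY.pos α β hn0]
    exact ⟨mul_le_mul c1 c3 hb.le (ha.le.trans c1), mul_le_mul c2 c4 (hb.le.trans c3)
      ((ha.le.trans c1).trans c2)⟩)
  have h4 : ∀ᶠ n : ℕ in atTop, d₃ / a₄ ≤ Z n / Y n / (n : ℝ) ^ β ∧
      Z n / Y n / (n : ℝ) ^ β ≤ d₄ / a₃ ∧ 0 < a₄ := by
    filter_upwards [h1, h2, eventually_gt_atTop 0] with n c1 c2 hn0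
    rw [split Y Z hY.pos α β hn0] at c2
    have hn0' : (0 : ℝ) < n := by exact_mod_cast hn0
    have hy : 0 < Y n / (n : ℝ) ^ α := div_pos (hY.pos n) (Real.rpow_pos_of_pos hn0' _)
    have hz : 0 < Z n / Y n / (n : ℝ) ^ β :=
      div_pos (div_pos (hZ.pos n) (hY.pos n)) (Real.rpow_pos_of_pos hn0' _)
    have ha₄ : 0 < a₄ := lt_of_lt_of_le hy c1.2
    refine ⟨?_, ?_, ha₄⟩
    · rw [div_le_iff₀ ha₄]
      have := mul_le_mul_of_nonneg_right c1.2 hz.le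
      linarith [c2.1]
    · rw [le_div_iff₀ ha₃]
      have := mul_le_mul_of_nonneg_right c1.1 hz.le
      linarith [c2.2]
  obtain ⟨n, hn⟩ := h4.exists
  exact ⟨d₃ / a₄, d₄ / a₃, div_pos hd₃ hn.2.2, h4.mono fun n hn => ⟨hn.1, hn.2.1⟩⟩

/-- the exponents of `Y` and of `Z / Y` along a sparse set of lengths -/
theorem joint_expo (hY : Reg Y D₁ θ₁) (hZ : Reg Z D₂ θ₂) (S : Set ℕ)
    (hS : ∀ δ : ℝ, 0 < δ → ∀ᶠ n : ℕ in atTop, ∃ k ∈ S, k % 2 = n % 2 ∧ n ≤ k ∧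
      (k : ℝ) ≤ n + δ * √(n * Real.log n)) (α β : ℝ)
    (h1 : Tendsto (fun n : ℕ => Real.log (Y n) / Real.log n) (atTop ⊓ 𝓟 S) (𝓝 α))
    (h2 : Tendsto (fun n : ℕ => Real.log (Z n / Y n) / Real.log n) (atTop ⊓ 𝓟 S) (𝓝 β)) :
    Tendsto (fun n : ℕ => Real.log (Y n) / Real.log n) atTop (𝓝 α) ∧
      Tendsto (fun n : ℕ => Real.log (Z n / Y n) / Real.log n) atTop (𝓝 β) := by
  have e : ∀ n : ℕ, Real.log (Z n / Y n) / Real.log n =
      Real.log (Z n) / Real.log n - Real.log (Y n) / Real.log n := by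
    intro n
    rw [Real.log_div (hZ.pos n).ne' (hY.pos n).ne', sub_div]
  have t1 := expoP hY S hS α h1
  have h3 : Tendsto (fun n : ℕ => Real.log (Z n) / Real.log n) (atTop ⊓ 𝓟 S) (𝓝 (α + β)) := by
    refine (h1.add h2).congr fun n => ?_
    rw [e]; ring
  have t2 := expoP hZ S hS (α + β) h3
  refine ⟨t1, ?_⟩
  have t3 := t2.sub t1
  rw [add_sub_cancel_left] at t3
  exact t3.congr fun n => (e n).symm

/-- Tauberian theorem for the ratio -/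
theorem joint_tauber (hY : Reg Y D₁ θ₁) (hZ : Reg Z D₂ θ₂) (hY1 : ∀ n, 1 ≤ Y n)
    (hZ1 : ∀ n, 1 ≤ Z n) {V W : ℕ → ℝ} (hV : ∀ n, V (n + 2) = V n + Y (n + 2))
    (hW : ∀ n, W (n + 2) = W n + Z (n + 2)) {A B γ θ : ℝ} (hA : 0 < A) (hB : 0 < B)
    (hγ : 0 < γ) (hθ : 0 < γ + θ)
    (h1 : Tendsto (fun n : ℕ => (V n - A / (2 * γ) * (n : ℝ) ^ γ) / (n : ℝ) ^ (γ - 1 / 2)) atTop
      (𝓝 0))
    (h2 : Tendsto (fun n : ℕ => (W n - B / (2 * (γ + θ)) * (n : ℝ) ^ (γ + θ)) /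
      (n : ℝ) ^ (γ + θ - 1 / 2)) atTop (𝓝 0)) :
    Tendsto (fun n : ℕ => Y n / (n : ℝ) ^ (γ - 1)) atTop (𝓝 A) ∧
      Tendsto (fun n : ℕ => Z n / Y n / (n : ℝ) ^ θ) atTop (𝓝 (B / A)) := by
  have t1 := tauberV hY hY1 hV hA hγ h1
  have t2 := tauberV hZ hZ1 hW hB hθ h2
  have e : γ + θ - 1 = (γ - 1) + θ := by ring
  rw [e] at t2
  exact ⟨t1, back hY.pos hA t1 t2⟩

end Q294.Sp3
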