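import Pool.Agent.Q294.Sp2
import Mathlib.Analysis.SpecialFunctions.Integrals.Basic

/-!
# Approximately log-convex sequences: pointwise asymptotics from partial sums and sparse sets
-/

set_option autoImplicit false

namespace Q294.Sq1

open Finset Filter Topology TH966.KS

/-- Kesten's inequality from the index `k0` on -/
structure Seq1 (y : ℕ → ℝ) (D : ℝ) (k0 : ℕ) : Prop where
  pos : ∀ k, 0 < y k
  D0 : 0 ≤ D
  kes : ∀ k, k0 ≤ k → y (k + 1) ^ 2 ≤ y k * y (k + 2) * (1 + D / k)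

variable {y V : ℕ → ℝ} {D : ℝ} {k0 : ℕ}

theorem iter1 (hK : Seq1 y D k0) {b : ℕ} (hb : k0 ≤ b) (hb0 : 0 < b) (j : ℕ) :
    2 * Real.log (y (b + j)) ≤ Real.log (y b) + Real.log (y (b + 2 * j)) +
      (j : ℝ) ^ 2 * (D / b) := by
  have hbR : (0 : ℝ) < b := by exact_mod_cast hb0
  have hpos := hK.pos
  have hD := hK.D0
  have hstep : ∀ i, b ≤ i → Real.log (y (i + 1)) - Real.log (y i) ≤
      (Real.log (y (i + 2)) - Real.log (y (i + 1))) + D / b := by
    intro i hi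
    have h2 := hK.kes i (hb.trans hi)
    have h3 : 0 < 1 + D / (i : ℝ) := by positivity
    have h4 := Real.log_le_log (pow_pos (hpos _) 2) h2
    rw [Real.log_mul (mul_pos (hpos _) (hpos _)).ne' h3.ne',
      Real.log_mul (hpos _).ne' (hpos _).ne', Real.log_pow] at h4
    have h5 : Real.log (1 + D / (i : ℝ)) ≤ D / i := by
      have := Real.log_le_sub_one_of_pos h3
      linarith
    have h6 : D / (i : ℝ) ≤ D / b :=
      div_le_div_of_nonneg_left hD hbR (by exact_mod_cast hi)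
    push_cast at h4
    linarith
  have hm : ∀ m i, b ≤ i → Real.log (y (i + 1)) - Real.log (y i) ≤
      (Real.log (y (i + m + 1)) - Real.log (y (i + m))) + m * (D / b) := by
    intro m
    induction m with
    | zero => intro i _; simp
    | succ m ih =>
      intro i hi
      have a1 := ih i hi
      have a2 := hstep (i + m) (by omega)
      have e1 : i + (m + 1) + 1 = i + m + 2 := by ring
      have e2 : i + (m + 1) = i + m + 1 := by ring
      rw [e1, e2]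
      push_cast
      linarith
  have hs := Finset.sum_le_sum (s := range j) fun i (_ : i ∈ range j) => hm j (b + i) (by omega)
  rw [Finset.sum_add_distrib, Finset.sum_const, card_range, nsmul_eq_mul] at hs
  have t1 : ∑ i ∈ range j, (Real.log (y (b + i + 1)) - Real.log (y (b + i))) =
      Real.log (y (b + j)) - Real.log (y b) := by
    have := Finset.sum_range_sub (fun i => Real.log (y (b + i))) j
    simpa [← add_assoc] using this
  have t2 : ∑ i ∈ range j, (Real.log (y (b + i + j + 1)) - Real.log (y (b + i + j))) =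
      Real.log (y (b + 2 * j)) - Real.log (y (b + j)) := by
    have := Finset.sum_range_sub (fun i => Real.log (y (b + i + j))) j
    have e1 : b + 2 * j = b + j + j := by ring
    rw [e1]
    refine Eq.trans (Finset.sum_congr rfl fun i _ => ?_) (this.trans ?_)
    · have e2 : b + i + j + 1 = b + (i + 1) + j := by ring
      rw [e2]
    · simp
  rw [t1, t2] at hs
  nlinarith

/-- approximate logarithmic convexity at distance `j` -/
theorem conv1 (hK : Seq1 y D k0) {n j : ℕ} (hn : 2 * k0 + 2 ≤ n) (hj : 2 * j ≤ n) :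
    y n * Real.exp (-(D * (j : ℝ) ^ 2 / n)) ≤ (y (n - j) + y (n + j)) / 2 := by
  have hD := hK.D0
  have hn0 : (0 : ℝ) < n := by exact_mod_cast (show 0 < n by omega)
  obtain ⟨b, hb⟩ : ∃ b, n = b + j := ⟨n - j, by omega⟩
  have hb2 : n ≤ 2 * b := by omega
  have hb0 : 0 < b := by omega
  have hbR : (0 : ℝ) < b := by exact_mod_cast hb0
  have h2 := iter1 hK (b := b) (by omega) hb0 j
  have e1 : n - j = b := by omega
  have e2 : n + j = b + 2 * j := by omega
  have ha : 0 < y (n - j) := hK.pos _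
  have hb' : 0 < y (n + j) := hK.pos _
  have hc : 0 < y n := hK.pos _
  have key : 2 * Real.log (y n) ≤ Real.log (y (n - j)) + Real.log (y (n + j)) +
      2 * (D * (j : ℝ) ^ 2 / n) := by
    rw [e1, e2, hb]
    have h3 : (j : ℝ) ^ 2 * (D / b) ≤ 2 * (D * (j : ℝ) ^ 2 / ((b + j : ℕ) : ℝ)) := by
      have hnR : (0 : ℝ) < ((b + j : ℕ) : ℝ) := by rw [← hb]; exact hn0
      have h4 : ((b + j : ℕ) : ℝ) ≤ 2 * b := by
        rw [← hb]; exact_mod_cast hb2
      rw [mul_div_assoc', mul_div_assoc', div_le_div_iff₀ hbR hnR]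
      have h5 : 0 ≤ (j : ℝ) ^ 2 * D := by positivity
      nlinarith
    linarith
  have h3 : y n * Real.exp (-(D * (j : ℝ) ^ 2 / n)) ≤ √(y (n - j) * y (n + j)) := by
    refine Real.le_sqrt_of_sq_le ?_
    rw [← Real.log_le_log_iff (by positivity) (by positivity), Real.log_pow,
      Real.log_mul hc.ne' (Real.exp_pos _).ne', Real.log_exp, Real.log_mul ha.ne' hb'.ne']
    push_cast
    linarith
  refine h3.trans ?_
  rw [Real.sqrt_le_left (by linarith)]
  nlinarith [sq_nonneg (y (n - j) - y (n + j))]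

theorem log_diff (β : ℝ) (c : ℝ) (m n : ℕ) (hm : 1 ≤ m) (hmn : m ≤ n) :
    |(β * Real.log n + c) - (β * Real.log m + c)| ≤ |β| * ((n : ℝ) - m) / m := by
  have hm0 : (0 : ℝ) < m := by exact_mod_cast (show 0 < m by omega)
  have hn0 : (0 : ℝ) < n := by exact_mod_cast (show 0 < n by omega)
  have hmn' : (m : ℝ) ≤ n := by exact_mod_cast hmn
  have h1 : (β * Real.log n + c) - (β * Real.log m + c) = β * Real.log ((n : ℝ) / m) := by
    rw [Real.log_div hn0.ne' hm0.ne']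
    ring
  rw [h1, abs_mul, mul_div_assoc]
  refine mul_le_mul_of_nonneg_left ?_ (abs_nonneg _)
  have h2 : 0 ≤ Real.log ((n : ℝ) / m) := Real.log_nonneg ((one_le_div hm0).2 hmn')
  rw [abs_of_nonneg h2]
  have h3 := Real.log_le_sub_one_of_pos (div_pos hn0 hm0)
  refine h3.trans (le_of_eq ?_)
  rw [div_sub_one hm0.ne']

theorem psi_zero (β c : ℝ) :
    Tendsto (fun n : ℕ => (β * Real.log n + c) / n) atTop (𝓝 0) := by
  have h1 : Tendsto (fun n : ℕ => Real.log (n : ℝ) / n) atTop (𝓝 0) := Q294.Sp1.log_div_nat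
  have h2 : Tendsto (fun n : ℕ => c / (n : ℝ)) atTop (𝓝 0) :=
    tendsto_const_div_atTop_nhds_zero_nat _
  have h3 := (h1.const_mul β).add h2
  rw [mul_zero, add_zero] at h3
  refine h3.congr fun n => ?_
  ring

/-- the general form -/
theorem core1 (hK : Seq1 y D k0) {E : ℕ → ℝ} (hE : Q294.Sp1.Err E) {S : Set ℕ}
    {τ δ β c : ℝ} (hτ : 0 < τ) (hδ : 0 < δ)
    (hS : ∀ᶠ n : ℕ in atTop, ∃ k ∈ S, n ≤ k ∧ (k : ℝ) ≤ n + δ * √(n * E n))
    (hyS : ∀ᶠ k : ℕ in atTop, k ∈ S → |Real.log (y k) - (β * Real.log k + c)| ≤ τ * E k) :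
    ∀ᶠ n : ℕ in atTop,
      |Real.log (y n) - (β * Real.log n + c)| ≤ (9 * τ + 384 * D * δ ^ 2) * E n := by
  have hKes : Kes y D (1 / 2) k0 := fun k hk _ => hK.kes k hk
  have h := step (y := y) (E := E) (ψ := fun k => β * Real.log k + c) (S := S) (B := |β|) hKes
    (fun k => (hK.pos k).le) hK.D0 (by norm_num) (by norm_num) (fun n _ => hE.one n) hE.mono
    hE.two hE.lim hτ hδ (abs_nonneg β) (fun m n hm hmn => log_diff β c m n hm hmn)
    (psi_zero β c) hS (hyS.mono fun k hk hkS => ⟨hK.pos k, hk hkS⟩)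
  exact h.mono fun k hk => hk.2

theorem log_form {A β : ℝ} {n : ℕ} (hn : 0 < n) (hy : 0 < y n) (hA : 0 < A) :
    Real.log (y n / (n : ℝ) ^ β / A) = Real.log (y n) - (β * Real.log n + Real.log A) :=
  Q294.Sp1.log_form (Y := y) hn hy hA

/-- from logarithms to the limit -/
theorem of_log (hpos : ∀ k, 0 < y k) {A β : ℝ} (hA : 0 < A)
    (h : ∀ ε : ℝ, 0 < ε → ∀ᶠ n : ℕ in atTop,
      |Real.log (y n) - (β * Real.log n + Real.log A)| ≤ ε) :
    Tendsto (fun n : ℕ => y n / (n : ℝ) ^ β) atTop (𝓝 A) := by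
  have hall : Tendsto (fun n : ℕ => Real.log (y n) - (β * Real.log n + Real.log A)) atTop
      (𝓝 0) := by
    rw [Metric.tendsto_atTop']
    intro ε hε
    obtain ⟨N, hN⟩ := eventually_atTop.1 (h (ε / 2) (by positivity))
    refine ⟨N, fun n hn => ?_⟩
    rw [dist_zero_right, Real.norm_eq_abs]
    exact (hN n hn.le).trans_lt (by linarith)
  have h8 : Tendsto (fun n : ℕ => Real.exp (Real.log (y n) -
      (β * Real.log n + Real.log A)) * A) atTop (𝓝 (Real.exp 0 * A)) :=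
    ((Real.continuous_exp.tendsto 0).comp hall).mul_const A
  rw [Real.exp_zero, one_mul] at h8
  refine h8.congr' ?_
  filter_upwards [eventually_gt_atTop 0] with n hn
  have hn0 : (0 : ℝ) < n := by exact_mod_cast hn
  rw [← log_form hn (hpos n) hA,
    Real.exp_log (div_pos (div_pos (hpos n) (Real.rpow_pos_of_pos hn0 _)) hA),
    div_mul_cancel₀ _ hA.ne']

/-- the asymptotic form along a sparse set -/
theorem form1 (hK : Seq1 y D k0) (S : Set ℕ)
    (hS : ∀ δ : ℝ, 0 < δ → ∀ᶠ n : ℕ in atTop, ∃ k ∈ S, n ≤ k ∧ (k : ℝ) ≤ n + δ * √n)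
    (A β : ℝ) (hA : 0 < A)
    (h : Tendsto (fun n : ℕ => y n / (n : ℝ) ^ β) (atTop ⊓ 𝓟 S) (𝓝 A)) :
    Tendsto (fun n : ℕ => y n / (n : ℝ) ^ β) atTop (𝓝 A) := by
  have hD := hK.D0
  have hlog : Tendsto (fun n : ℕ => Real.log (y n) - (β * Real.log n + Real.log A))
      (atTop ⊓ 𝓟 S) (𝓝 0) := by
    have h2 : Tendsto (fun n : ℕ => Real.log (y n / (n : ℝ) ^ β / A)) (atTop ⊓ 𝓟 S)
        (𝓝 (Real.log (A / A))) := by
      refine Tendsto.log (h.div_const A) ?_
      rw [div_self hA.ne']; norm_num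
    rw [div_self hA.ne', Real.log_one] at h2
    refine h2.congr' ?_
    have : ∀ᶠ n : ℕ in atTop ⊓ 𝓟 S, 0 < n :=
      (eventually_gt_atTop 0).filter_mono inf_le_left
    filter_upwards [this] with n hn
    exact log_form hn (hK.pos n) hA
  refine of_log hK.pos hA fun ε hε => ?_
  have hδ : 0 < √(ε / (4 * (384 * D + 1))) := Real.sqrt_pos.2 (by positivity)
  have h3 := core1 (τ := ε / 36) (δ := √(ε / (4 * (384 * D + 1)))) (β := β)
    (c := Real.log A) (S := S) hK Q294.Sp1.err_one (by positivity) hδ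
    (by simpa only [mul_one] using hS _ hδ) (by
      have h4 := hlog.abs
      rw [abs_zero] at h4
      have h5 := h4.eventually_lt_const (show 0 < ε / 36 by positivity)
      rw [eventually_inf_principal] at h5
      filter_upwards [h5] with k hk hkS
      rw [mul_one]
      exact (hk hkS).le)
  filter_upwards [h3] with n hn
  refine hn.trans ?_
  rw [Real.sq_sqrt (by positivity), mul_one]
  have h7 : 384 * D * (ε / (4 * (384 * D + 1))) ≤ ε / 4 := by
    rw [mul_div_assoc', div_le_div_iff₀ (by positivity) (by norm_num)]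
    nlinarith
  linarith

theorem bounds_of_log {β L : ℝ} (hpos : ∀ k, 0 < y k)
    (h : ∀ᶠ n : ℕ in atTop, |Real.log (y n) - (β * Real.log n + 0)| ≤ L) :
    ∃ c₃ c₄ : ℝ, 0 < c₃ ∧ ∀ᶠ n : ℕ in atTop,
      c₃ ≤ y n / (n : ℝ) ^ β ∧ y n / (n : ℝ) ^ β ≤ c₄ := by
  refine ⟨Real.exp (-L), Real.exp L, Real.exp_pos _, ?_⟩
  filter_upwards [h, eventually_gt_atTop 0] with n h4 h5
  have hn0 : (0 : ℝ) < n := by exact_mod_cast h5
  have h6 : 0 < y n / (n : ℝ) ^ β := div_pos (hpos n) (Real.rpow_pos_of_pos hn0 _)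
  have h7 := log_form (A := 1) (β := β) h5 (hpos n) one_pos
  rw [div_one, Real.log_one] at h7
  rw [← h7, abs_le] at h4
  exact ⟨(Real.le_log_iff_exp_le h6).1 h4.1, (Real.log_le_iff_le_exp h6).1 h4.2⟩

theorem log_of_bounds {β c₁ c₂ : ℝ} (hc : 0 < c₁) {n : ℕ} (hn : 0 < n) (hy : 0 < y n)
    (h : c₁ ≤ y n / (n : ℝ) ^ β ∧ y n / (n : ℝ) ^ β ≤ c₂) :
    |Real.log (y n) - (β * Real.log n + 0)| ≤ |Real.log c₁| + |Real.log c₂| := by
  have h7 := log_form (A := 1) (β := β) hn hy one_pos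
  rw [div_one, Real.log_one] at h7
  rw [← h7]
  have h8 : 0 < y n / (n : ℝ) ^ β := lt_of_lt_of_le hc h.1
  have h9 := Real.log_le_log hc h.1
  have h10 := Real.log_le_log h8 h.2
  rw [abs_le]
  constructor
  · linarith [neg_abs_le (Real.log c₁), abs_nonneg (Real.log c₂)]
  · linarith [le_abs_self (Real.log c₂), abs_nonneg (Real.log c₁)]

/-- two-sided bounds along a sparse set -/
theorem bounds1 (hK : Seq1 y D k0) (S : Set ℕ) (C : ℝ)
    (hS : ∀ᶠ n : ℕ in atTop, ∃ k ∈ S, n ≤ k ∧ (k : ℝ) ≤ n + C * √n)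
    (β c₁ c₂ : ℝ) (hc : 0 < c₁)
    (h : ∀ᶠ n : ℕ in atTop, n ∈ S → c₁ ≤ y n / (n : ℝ) ^ β ∧ y n / (n : ℝ) ^ β ≤ c₂) :
    ∃ c₃ c₄ : ℝ, 0 < c₃ ∧ ∀ᶠ n : ℕ in atTop,
      c₃ ≤ y n / (n : ℝ) ^ β ∧ y n / (n : ℝ) ^ β ≤ c₄ := by
  obtain ⟨τ, hτ⟩ : ∃ τ : ℝ, τ = |Real.log c₁| + |Real.log c₂| + 1 := ⟨_, rfl⟩
  have hD0 := hK.D0
  have hτ0 : 0 < τ := by rw [hτ]; positivity
  have h3 := core1 (τ := τ) (δ := |C| + 1) (β := β) (c := 0) (S := S) hK Q294.Sp1.err_one hτ0
    (by positivity) (by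
      filter_upwards [hS] with n hn
      obtain ⟨k, h1, h2, h4⟩ := hn
      refine ⟨k, h1, h2, h4.trans ?_⟩
      rw [mul_one]
      have h5 : C ≤ |C| + 1 := by linarith [le_abs_self C]
      have h6 := mul_le_mul_of_nonneg_right h5 (Real.sqrt_nonneg (n : ℝ))
      linarith) (by
      filter_upwards [h, eventually_gt_atTop 0] with n h4 h6 hnS
      rw [mul_one]
      have := log_of_bounds hc h6 (hK.pos n) (h4 hnS)
      rw [hτ]
      linarith)
  simp only [mul_one] at h3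
  exact bounds_of_log hK.pos h3

/-! ### Partial sums -/

theorem near (a η Δ : ℝ) (hη : 0 < η) (hΔ : 0 < Δ) : ∀ᶠ m : ℕ in atTop, ∀ x : ℝ, (m : ℝ) ≤ x →
    x ≤ m + Δ * √m → |x ^ a - (m : ℝ) ^ a| ≤ η * (m : ℝ) ^ a := by
  have hc : ContinuousAt (fun t : ℝ => t ^ a) 1 :=
    Real.continuousAt_rpow_const 1 a (Or.inl one_ne_zero)
  rw [Metric.continuousAt_iff] at hc
  obtain ⟨κ, hκ, hκ'⟩ := hc η hη
  have ev : ∀ᶠ m : ℕ in atTop, 2 * Δ / κ ≤ √(m : ℝ) := Q294.Sp2.sqrt_large _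
  filter_upwards [ev, eventually_gt_atTop 0] with m h1 h2 x h3 h4
  have hm : (0 : ℝ) < m := by exact_mod_cast h2
  have hs : 0 < √(m : ℝ) := Real.sqrt_pos.2 hm
  have hsq : √(m : ℝ) * √(m : ℝ) = m := Real.mul_self_sqrt hm.le
  have h5 : |x / m - 1| < κ := by
    have h6 : x / m - 1 = (x - m) / m := by field_simp
    rw [h6, abs_of_nonneg (div_nonneg (by linarith) hm.le), div_lt_iff₀ hm]
    rw [div_le_iff₀ hκ] at h1
    have h7 : 0 < Δ * √(m : ℝ) := by positivity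
    calc x - m ≤ Δ * √(m : ℝ) := by linarith
      _ < 2 * Δ * √(m : ℝ) := by linarith
      _ ≤ (√(m : ℝ) * κ) * √(m : ℝ) := mul_le_mul_of_nonneg_right h1 hs.le
      _ = κ * m := by rw [mul_assoc, mul_comm κ, ← mul_assoc, hsq, mul_comm]
  have h6 := hκ' (x := x / m) (by rw [Real.dist_eq]; exact h5)
  rw [Real.dist_eq, Real.one_rpow] at h6
  have hx : 0 ≤ x := by linarith
  have h7 : x ^ a = (x / m) ^ a * (m : ℝ) ^ a := by
    rw [← Real.mul_rpow (by positivity) hm.le, div_mul_cancel₀ _ hm.ne']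
  have h8 : x ^ a - (m : ℝ) ^ a = ((x / m) ^ a - 1) * (m : ℝ) ^ a := by rw [h7]; ring
  have h9 : 0 < (m : ℝ) ^ a := Real.rpow_pos_of_pos hm a
  rw [h8, abs_mul, abs_of_pos h9]
  exact mul_le_mul_of_nonneg_right h6.le h9.le

theorem V_add (hV : ∀ n, V (n + 1) = V n + y (n + 1)) (m J : ℕ) :
    V (m + J) = V m + ∑ i ∈ range J, y (m + (i + 1)) := by
  induction J with
  | zero => simp
  | succ J ih =>
    have e : m + (J + 1) = (m + J) + 1 := by ring
    rw [e, hV, ih, Finset.sum_range_succ]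
    have e' : m + J + 1 = m + (J + 1) := by ring
    rw [e', add_assoc]

/-- bounds for the sums over windows of length of order `√m` -/
def Win (V : ℕ → ℝ) (β a₁ a₂ δ : ℝ) : Prop :=
  ∀ᶠ m : ℕ in atTop, ∀ J : ℕ, δ * √m ≤ J → (J : ℝ) ≤ 8 * δ * √m →
    a₁ * J * (m : ℝ) ^ β ≤ V (m + J) - V m ∧ V (m + J) - V m ≤ a₂ * J * (m : ℝ) ^ β

/-- pointwise upper bound -/
theorem upper (hK : Seq1 y D k0) (hV : ∀ n, V (n + 1) = V n + y (n + 1))
    {β a₁ a₂ δ : ℝ} (ha : 0 < a₂) (hδ : 0 < δ) (hW : Win V β a₁ a₂ δ) (κ : ℝ) (hκ : 0 < κ) :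
    ∀ᶠ n : ℕ in atTop,
      Real.log (y n) ≤ β * Real.log n + Real.log a₂ + (4 * D * δ ^ 2 + κ) := by
  have hD := hK.D0
  obtain ⟨η, hη, hη1, hη2⟩ : ∃ η : ℝ, 0 < η ∧ η < 1 ∧ -Real.log (1 - η) ≤ κ := by
    refine ⟨1 - Real.exp (-κ), ?_, ?_, ?_⟩
    · have : Real.exp (-κ) < 1 := Real.exp_lt_one_iff.2 (by linarith)
      linarith
    · linarith [Real.exp_pos (-κ)]
    · have : 1 - (1 - Real.exp (-κ)) = Real.exp (-κ) := by ring
      rw [this, Real.log_exp]
      linarith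
  obtain ⟨N, hN⟩ := eventually_atTop.1 (hW.and (near β η (8 * δ) hη (by positivity)))
  filter_upwards [Q294.Sp2.sqrt_large (16 / δ), Q294.Sp2.sqrt_large (16 * δ + 16),
    eventually_ge_atTop (4 * N + 2 * k0 + 16)] with n h3 h3' h4
  have hn : (0 : ℝ) < n := by exact_mod_cast (show 0 < n by omega)
  have hs : 0 < √(n : ℝ) := Real.sqrt_pos.2 hn
  have hsq : √(n : ℝ) * √(n : ℝ) = n := Real.mul_self_sqrt hn.le
  have hs16 : 16 ≤ δ * √(n : ℝ) := by
    rw [div_le_iff₀ hδ] at h3; linarith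
  obtain ⟨J, hJ⟩ : ∃ J : ℕ, J = ⌈δ * √(n : ℝ)⌉₊ := ⟨_, rfl⟩
  have hJ1 : δ * √(n : ℝ) ≤ J := by rw [hJ]; exact Nat.le_ceil _
  have hJ2 : (J : ℝ) ≤ 2 * (δ * √(n : ℝ)) := by
    have := Nat.ceil_lt_add_one (show 0 ≤ δ * √(n : ℝ) by positivity)
    rw [← hJ] at this
    linarith
  have hJ0 : (0 : ℝ) < J := by linarith
  have hδn : 8 * (2 * (δ * √(n : ℝ))) ≤ n := by
    have h5 : 16 * δ * √(n : ℝ) ≤ √(n : ℝ) * √(n : ℝ) :=
      mul_le_mul_of_nonneg_right (by linarith) hs.le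
    rw [hsq] at h5
    linarith
  have hJn : 8 * J ≤ n := by
    have : (8 * J : ℝ) ≤ n := by linarith
    exact_mod_cast this
  obtain ⟨m, hm⟩ : ∃ m, n = m + J + 1 := ⟨n - J - 1, by omega⟩
  have hm4 : n ≤ 4 * m := by omega
  have hmR : (0 : ℝ) < m := by exact_mod_cast (show 0 < m by omega)
  have hmn : (m : ℝ) ≤ n := by exact_mod_cast (show m ≤ n by omega)
  have hsm : √(n : ℝ) ≤ 2 * √(m : ℝ) := by
    have e : (2 : ℝ) = √4 := by
      rw [show (4 : ℝ) = 2 ^ 2 by norm_num, Real.sqrt_sq (by norm_num)]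
    rw [e, ← Real.sqrt_mul (by norm_num)]
    exact Real.sqrt_le_sqrt (by exact_mod_cast hm4)
  have hsm' : √(m : ℝ) ≤ √(n : ℝ) := Real.sqrt_le_sqrt hmn
  have hδsm := mul_le_mul_of_nonneg_left hsm hδ.le
  obtain ⟨w1, w2⟩ := hN m (by omega)
  obtain ⟨w3, -⟩ := hN n (by omega)
  have u1 := (w1 J ((mul_le_mul_of_nonneg_left hsm' hδ.le).trans hJ1) (by linarith)).2
  have u2 := (w3 J hJ1 (by linarith)).2
  have hnm : (n : ℝ) = m + J + 1 := by rw [hm]; push_cast; ring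
  have u3 := w2 n hmn (by linarith)
  -- sums of the inequalities
  have hsum : J * (y n * Real.exp (-(4 * D * δ ^ 2))) ≤
      ((V (m + J) - V m) + (V (n + J) - V n)) / 2 := by
    have h5 : ∀ i ∈ range J, y n * Real.exp (-(4 * D * δ ^ 2)) ≤
        (y (m + (J - 1 - i + 1)) + y (n + (i + 1))) / 2 := by
      intro i hi
      have hi' := mem_range.1 hi
      have h6 := conv1 hK (n := n) (j := i + 1) (by omega) (by omega)
      have e1 : n - (i + 1) = m + (J - 1 - i + 1) := by omega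
      rw [e1] at h6
      refine le_trans (mul_le_mul_of_nonneg_left (Real.exp_le_exp.2 ?_) (hK.pos n).le) h6
      rw [neg_le_neg_iff, div_le_iff₀ hn]
      have h7 : ((i + 1 : ℕ) : ℝ) ≤ J := by exact_mod_cast hi'
      have h8 : ((i + 1 : ℕ) : ℝ) ^ 2 ≤ (2 * (δ * √(n : ℝ))) ^ 2 :=
        pow_le_pow_left₀ (Nat.cast_nonneg _) (h7.trans hJ2) 2
      have h9 : (2 * (δ * √(n : ℝ))) ^ 2 = 4 * δ ^ 2 * n := by
        rw [mul_pow, mul_pow, sq (√(n : ℝ)), hsq]; ring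
      rw [h9] at h8
      calc D * ((i + 1 : ℕ) : ℝ) ^ 2 ≤ D * (4 * δ ^ 2 * n) :=
            mul_le_mul_of_nonneg_left h8 (by positivity)
        _ = 4 * D * δ ^ 2 * n := by ring
    have h6 := Finset.sum_le_sum h5
    rw [Finset.sum_const, card_range, nsmul_eq_mul, ← Finset.sum_div, Finset.sum_add_distrib]
      at h6
    rw [V_add hV, V_add hV]
    have h7 : ∑ i ∈ range J, y (m + (J - 1 - i + 1)) = ∑ i ∈ range J, y (m + (i + 1)) :=
      Finset.sum_range_reflect (fun i => y (m + (i + 1))) J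
    rw [h7] at h6
    linarith
  have hpm : 0 < (m : ℝ) ^ β := Real.rpow_pos_of_pos hmR _
  have hpn : 0 < (n : ℝ) ^ β := Real.rpow_pos_of_pos hn _
  have v3 := (abs_le.1 u3).1
  have hη0 : 0 < 1 - η := by linarith
  have v4 : (m : ℝ) ^ β ≤ (n : ℝ) ^ β / (1 - η) := by
    rw [le_div_iff₀ hη0]; linarith
  have v5 : (n : ℝ) ^ β ≤ (n : ℝ) ^ β / (1 - η) := by
    rw [le_div_iff₀ hη0]
    nlinarith
  have v6 : y n * Real.exp (-(4 * D * δ ^ 2)) ≤ a₂ * ((n : ℝ) ^ β / (1 - η)) := by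
    have h5 : J * (y n * Real.exp (-(4 * D * δ ^ 2))) ≤
        J * (a₂ * ((n : ℝ) ^ β / (1 - η))) := by
      refine hsum.trans ?_
      have h6 : a₂ * J * (m : ℝ) ^ β ≤ a₂ * J * ((n : ℝ) ^ β / (1 - η)) :=
        mul_le_mul_of_nonneg_left v4 (by positivity)
      have h7 : a₂ * J * (n : ℝ) ^ β ≤ a₂ * J * ((n : ℝ) ^ β / (1 - η)) :=
        mul_le_mul_of_nonneg_left v5 (by positivity)
      linarith
    exact le_of_mul_le_mul_left h5 hJ0
  have v7 := Real.log_le_log (mul_pos (hK.pos n) (Real.exp_pos _)) v6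
  rw [Real.log_mul (hK.pos n).ne' (Real.exp_pos _).ne', Real.log_exp,
    Real.log_mul ha.ne' (by positivity), Real.log_div hpn.ne' hη0.ne',
    Real.log_rpow hn] at v7
  linarith

/-- pointwise lower bound on a sparse set -/
theorem lower (hV : ∀ n, V (n + 1) = V n + y (n + 1)) {β a₁ a₂ δ : ℝ} (ha : 0 < a₁)
    (hδ : 0 < δ) (hW : Win V β a₁ a₂ δ) (κ : ℝ) (hκ : 0 < κ) :
    ∀ᶠ n : ℕ in atTop, ∃ k : ℕ, β * Real.log k + Real.log a₁ - κ ≤ Real.log (y k) ∧
      n ≤ k ∧ (k : ℝ) ≤ n + 2 * δ * √n := by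
  obtain ⟨η, hη, hη2⟩ : ∃ η : ℝ, 0 < η ∧ Real.log (1 + η) ≤ κ := by
    refine ⟨Real.exp κ - 1, ?_, ?_⟩
    · have := Real.add_one_lt_exp hκ.ne'
      linarith
    · have : 1 + (Real.exp κ - 1) = Real.exp κ := by ring
      rw [this, Real.log_exp]
  obtain ⟨N, hN⟩ := eventually_atTop.1 (hW.and (near β η (8 * δ) hη (by positivity)))
  filter_upwards [Q294.Sp2.sqrt_large (16 / δ), Q294.Sp2.sqrt_large (16 * δ + 16),
    eventually_ge_atTop (2 * N + 16)] with n h3 h3' h4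
  have hn : (0 : ℝ) < n := by exact_mod_cast (show 0 < n by omega)
  have hs : 0 < √(n : ℝ) := Real.sqrt_pos.2 hn
  have hsq : √(n : ℝ) * √(n : ℝ) = n := Real.mul_self_sqrt hn.le
  have hs16 : 16 ≤ δ * √(n : ℝ) := by
    rw [div_le_iff₀ hδ] at h3; linarith
  obtain ⟨J, hJ⟩ : ∃ J : ℕ, J = ⌈δ * √(n : ℝ)⌉₊ := ⟨_, rfl⟩
  have hJ1 : δ * √(n : ℝ) ≤ J := by rw [hJ]; exact Nat.le_ceil _
  have hJ2 : (J : ℝ) ≤ 2 * (δ * √(n : ℝ)) := by
    have := Nat.ceil_lt_add_one (show 0 ≤ δ * √(n : ℝ) by positivity)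
    rw [← hJ] at this
    linarith
  have hJ0 : (0 : ℝ) < J := by linarith
  obtain ⟨m, hm⟩ : ∃ m, n = m + 1 := ⟨n - 1, by omega⟩
  have hm4 : n ≤ 4 * m := by omega
  have hmR : (0 : ℝ) < m := by exact_mod_cast (show 0 < m by omega)
  have hmn : (m : ℝ) ≤ n := by exact_mod_cast (show m ≤ n by omega)
  have hsm : √(n : ℝ) ≤ 2 * √(m : ℝ) := by
    have e : (2 : ℝ) = √4 := by
      rw [show (4 : ℝ) = 2 ^ 2 by norm_num, Real.sqrt_sq (by norm_num)]
    rw [e, ← Real.sqrt_mul (by norm_num)]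
    exact Real.sqrt_le_sqrt (by exact_mod_cast hm4)
  have hsm' : √(m : ℝ) ≤ √(n : ℝ) := Real.sqrt_le_sqrt hmn
  have hδsm := mul_le_mul_of_nonneg_left hsm hδ.le
  obtain ⟨w1, w2⟩ := hN m (by omega)
  have u2 := (w1 J ((mul_le_mul_of_nonneg_left hsm' hδ.le).trans hJ1) (by linarith)).1
  have hpm : 0 < (m : ℝ) ^ β := Real.rpow_pos_of_pos hmR _
  rw [V_add hV] at u2
  -- some term is large
  obtain ⟨i, hi, hi2⟩ : ∃ i ∈ range J, a₁ * (m : ℝ) ^ β ≤ y (m + (i + 1)) := by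
    by_contra hcon
    push Not at hcon
    have hne : (range J).Nonempty := by
      rw [nonempty_range_iff]
      rintro h0
      rw [h0] at hJ0
      simp at hJ0
    have h5 := Finset.sum_lt_sum_of_nonempty hne hcon
    rw [Finset.sum_const, card_range, nsmul_eq_mul] at h5
    nlinarith
  have hi' := mem_range.1 hi
  have hiR : ((i + 1 : ℕ) : ℝ) ≤ J := by exact_mod_cast hi'
  have hnm : (n : ℝ) = m + 1 := by rw [hm]; push_cast; ring
  refine ⟨m + (i + 1), ?_, by omega, ?_⟩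
  · have hkR : (0 : ℝ) < ((m + (i + 1) : ℕ) : ℝ) := by exact_mod_cast (by omega)
    have u3 := w2 ((m + (i + 1) : ℕ) : ℝ) (by exact_mod_cast (by omega)) (by
      push_cast at hiR ⊢
      linarith)
    have u4 := (abs_le.1 u3).2
    have hpk : 0 < ((m + (i + 1) : ℕ) : ℝ) ^ β := Real.rpow_pos_of_pos hkR _
    have u5 : ((m + (i + 1) : ℕ) : ℝ) ^ β ≤ (1 + η) * (m : ℝ) ^ β := by linarith
    have u6 := Real.log_le_log (mul_pos ha hpm) hi2
    rw [Real.log_mul ha.ne' hpm.ne'] at u6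
    have u7 := Real.log_le_log hpk u5
    rw [Real.log_mul (by positivity) hpm.ne', Real.log_rpow hkR] at u7
    linarith
  · push_cast at hiR ⊢
    linarith

/-- two-sided bounds from windows -/
theorem bounds_of_win (hK : Seq1 y D k0) (hV : ∀ n, V (n + 1) = V n + y (n + 1))
    {β a₁ a₂ δ : ℝ} (ha₁ : 0 < a₁) (ha₂ : 0 < a₂) (hδ : 0 < δ) (hW : Win V β a₁ a₂ δ) :
    ∃ c₃ c₄ : ℝ, 0 < c₃ ∧ ∀ᶠ n : ℕ in atTop,
      c₃ ≤ y n / (n : ℝ) ^ β ∧ y n / (n : ℝ) ^ β ≤ c₄ := by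
  have hD := hK.D0
  obtain ⟨τ, hτ⟩ : ∃ τ : ℝ, τ = |Real.log a₁| + |Real.log a₂| + 4 * D * δ ^ 2 + 1 := ⟨_, rfl⟩
  have hτ0 : 0 < τ := by rw [hτ]; positivity
  have h3 := core1 (τ := τ) (δ := 2 * δ) (β := β) (c := 0)
    (S := {k : ℕ | β * Real.log k + Real.log a₁ - 1 ≤ Real.log (y k)}) hK Q294.Sp1.err_one hτ0
    (by positivity) (by
      simp only [mul_one]
      exact lower hV ha₁ hδ hW 1 one_pos) (by
      filter_upwards [upper hK hV ha₂ hδ hW 1 one_pos] with k hk hkS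
      rw [mul_one, abs_le]
      have h1 : β * Real.log k + Real.log a₁ - 1 ≤ Real.log (y k) := hkS
      have h2 := neg_abs_le (Real.log a₁)
      have h4 := le_abs_self (Real.log a₂)
      have h5 := abs_nonneg (Real.log a₁)
      have h6 := abs_nonneg (Real.log a₂)
      have h7 : 0 ≤ 4 * D * δ ^ 2 := by positivity
      constructor <;> linarith)
  simp only [mul_one] at h3
  exact bounds_of_log hK.pos h3

/-- the limit from windows of all small lengths -/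
theorem lim_of_win (hK : Seq1 y D k0) (hV : ∀ n, V (n + 1) = V n + y (n + 1))
    {A β : ℝ} (hA : 0 < A)
    (hW : ∀ δ ε : ℝ, 0 < δ → 0 < ε → Win V β (A - ε) (A + ε) δ) :
    Tendsto (fun n : ℕ => y n / (n : ℝ) ^ β) atTop (𝓝 A) := by
  have hD := hK.D0
  refine of_log hK.pos hA fun ε hε => ?_
  obtain ⟨κ, hκ0, hκ1, hκ2⟩ : ∃ κ : ℝ, 0 < κ ∧ 27 * κ ≤ ε / 2 ∧ κ ≤ 1 :=
    ⟨min (ε / 54) 1, lt_min (by positivity) one_pos, by
      have := min_le_left (ε / 54) 1
      linarith, min_le_right _ _⟩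
  obtain ⟨e, he, heA, he1, he2⟩ : ∃ e : ℝ, 0 < e ∧ e < A ∧ Real.log A - κ ≤ Real.log (A - e) ∧
      Real.log (A + e) ≤ Real.log A + κ := by
    refine ⟨A * (1 - Real.exp (-κ)), ?_, ?_, ?_, ?_⟩
    · have : Real.exp (-κ) < 1 := Real.exp_lt_one_iff.2 (by linarith)
      have : 0 < 1 - Real.exp (-κ) := by linarith
      positivity
    · have := Real.exp_pos (-κ)
      nlinarith
    · have : A - A * (1 - Real.exp (-κ)) = A * Real.exp (-κ) := by ring
      rw [this, Real.log_mul hA.ne' (Real.exp_pos _).ne', Real.log_exp]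
      linarith
    · have h1 : 1 - Real.exp (-κ) ≤ Real.exp κ - 1 := by
        have h2 : Real.exp κ * Real.exp (-κ) = 1 := by rw [← Real.exp_add]; simp
        nlinarith [sq_nonneg (Real.exp κ - 1), Real.exp_pos (-κ), Real.exp_pos κ]
      have h3 : A + A * (1 - Real.exp (-κ)) ≤ A * Real.exp κ := by nlinarith
      have h4 : 0 < A + A * (1 - Real.exp (-κ)) := by
        have : Real.exp (-κ) < 1 := Real.exp_lt_one_iff.2 (by linarith)
        have : 0 < 1 - Real.exp (-κ) := by linarith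
        positivity
      have h5 := Real.log_le_log h4 h3
      rwa [Real.log_mul hA.ne' (Real.exp_pos _).ne', Real.log_exp] at h5
  obtain ⟨δ, hδ, hδ1, hδ2⟩ : ∃ δ : ℝ, 0 < δ ∧ 4 * D * δ ^ 2 ≤ κ ∧
      384 * D * (2 * δ) ^ 2 ≤ ε / 2 := by
    refine ⟨√(min κ ε / (4000 * (D + 1))), Real.sqrt_pos.2 (by positivity), ?_, ?_⟩
    · rw [Real.sq_sqrt (by positivity), mul_div_assoc', div_le_iff₀ (by positivity)]
      have := min_le_left κ ε
      nlinarith [lt_min hκ0 hε]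
    · rw [mul_pow, Real.sq_sqrt (by positivity), mul_div_assoc', mul_div_assoc',
        div_le_iff₀ (by positivity)]
      have := min_le_right κ ε
      nlinarith [lt_min hκ0 hε]
  have hw := hW δ e hδ he
  have h3 := core1 (τ := 3 * κ) (δ := 2 * δ) (β := β) (c := Real.log A)
    (S := {k : ℕ | β * Real.log k + Real.log (A - e) - κ ≤ Real.log (y k)}) hK Q294.Sp1.err_one
    (by positivity) (by positivity) (by
      simp only [mul_one]
      exact lower hV (by linarith) hδ hw κ hκ0) (by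
      filter_upwards [upper hK hV (by linarith) hδ hw κ hκ0] with k hk hkS
      rw [mul_one, abs_le]
      have h1 : β * Real.log k + Real.log (A - e) - κ ≤ Real.log (y k) := hkS
      constructor <;> linarith)
  filter_upwards [h3] with n hn
  refine hn.trans ?_
  rw [mul_one]
  linarith

/-! ### Windows from partial sums -/

theorem int_near (a η Δ : ℝ) (hη : 0 < η) (hΔ : 0 < Δ) : ∀ᶠ m : ℕ in atTop, ∀ J : ℕ,
    (J : ℝ) ≤ Δ * √m → |(∫ t in (m : ℝ)..(m + J : ℝ), t ^ a) - J * (m : ℝ) ^ a| ≤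
      η * J * (m : ℝ) ^ a := by
  filter_upwards [near a η Δ hη hΔ, eventually_gt_atTop 0] with m h1 h2 J hJ
  have hm : (0 : ℝ) < m := by exact_mod_cast h2
  have hJ0 : (0 : ℝ) ≤ J := Nat.cast_nonneg J
  have hle : (m : ℝ) ≤ m + J := by linarith
  have hint : IntervalIntegrable (fun t : ℝ => t ^ a) MeasureTheory.volume (m : ℝ) (m + J : ℝ) := by
    refine ContinuousOn.intervalIntegrable fun t ht => ?_
    rw [Set.uIcc_of_le hle] at ht
    have : 0 < t := by linarith [ht.1]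
    exact (Real.continuousAt_rpow_const t a (Or.inl this.ne')).continuousWithinAt
  have h3 : (∫ t in (m : ℝ)..(m + J : ℝ), t ^ a) - J * (m : ℝ) ^ a =
      ∫ t in (m : ℝ)..(m + J : ℝ), (t ^ a - (m : ℝ) ^ a) := by
    rw [intervalIntegral.integral_sub hint (by simp), intervalIntegral.integral_const]
    simp
  rw [h3]
  have h4 := intervalIntegral.norm_integral_le_of_norm_le_const (a := (m : ℝ)) (b := m + J)
    (C := η * (m : ℝ) ^ a) (f := fun t : ℝ => t ^ a - (m : ℝ) ^ a) (fun t ht => by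
      rw [Set.uIoc_of_le hle] at ht
      rw [Real.norm_eq_abs]
      exact h1 t ht.1.le (by linarith [ht.2]))
  rw [Real.norm_eq_abs] at h4
  refine h4.trans (le_of_eq ?_)
  rw [add_sub_cancel_left, abs_of_nonneg hJ0]
  ring

/-- windows from partial sums with an error -/
theorem win_of_sum {A β C : ℝ} (hA : 0 < A) (hC : 0 < C)
    (hT : ∀ᶠ n : ℕ in atTop, |V n - A * ∫ t in (1 : ℝ)..(n : ℝ), t ^ β| ≤
      C * (n : ℝ) ^ (β + 1 / 2)) (δ e : ℝ) (hδ : 0 < δ) (he : 0 < e) (hCe : 8 * C / δ ≤ e) :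
    Win V β (A - e) (A + e) δ := by
  obtain ⟨N, hN⟩ := eventually_atTop.1 hT
  obtain ⟨η, hη⟩ : ∃ η : ℝ, η = e / (2 * A) := ⟨_, rfl⟩
  have hη0 : 0 < η := by rw [hη]; positivity
  have hAη : A * η = e / 2 := by rw [hη]; field_simp
  filter_upwards [int_near β η (8 * δ) hη0 (by positivity),
    near (β + 1 / 2) 1 (8 * δ) one_pos (by positivity), eventually_ge_atTop (N + 1)]
    with m h1 h2 h3 J hJ1 hJ2
  have hm : (0 : ℝ) < m := by exact_mod_cast (show 0 < m by omega)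
  have hs : 0 < √(m : ℝ) := Real.sqrt_pos.2 hm
  have hJ0 : (0 : ℝ) < J := lt_of_lt_of_le (mul_pos hδ hs) hJ1
  have e0 : ((m + J : ℕ) : ℝ) = m + J := by push_cast; ring
  have hp : 0 < (m : ℝ) ^ β := Real.rpow_pos_of_pos hm _
  have hq : 0 < (m : ℝ) ^ (β + 1 / 2) := Real.rpow_pos_of_pos hm _
  have er1 := hN m (by omega)
  have er2 := hN (m + J) (by omega)
  have h4 : ((m + J : ℕ) : ℝ) ^ (β + 1 / 2) ≤ 2 * (m : ℝ) ^ (β + 1 / 2) := by
    have := h2 ((m + J : ℕ) : ℝ) (by rw [e0]; linarith) (by rw [e0]; linarith)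
    have := (abs_le.1 this).2
    linarith
  have h5 : (m : ℝ) ^ (β + 1 / 2) = (m : ℝ) ^ β * √m := by
    rw [Real.sqrt_eq_rpow, ← Real.rpow_add hm]
  have h6 : (m : ℝ) ^ (β + 1 / 2) ≤ (m : ℝ) ^ β * (J / δ) := by
    rw [h5]
    refine mul_le_mul_of_nonneg_left ?_ hp.le
    rw [le_div_iff₀ hδ]
    linarith
  have h7 := h1 J hJ2
  have hii : ∀ x z : ℝ, 0 < x → 0 < z →
      IntervalIntegrable (fun t : ℝ => t ^ β) MeasureTheory.volume x z := by
    intro x z hx hz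
    refine ContinuousOn.intervalIntegrable fun t ht => ?_
    have : 0 < t := lt_of_lt_of_le (lt_min hx hz) ht.1
    exact (Real.continuousAt_rpow_const t β (Or.inl this.ne')).continuousWithinAt
  have h8 : (∫ t in (1 : ℝ)..(m + J : ℝ), t ^ β) - (∫ t in (1 : ℝ)..(m : ℝ), t ^ β) =
      ∫ t in (m : ℝ)..(m + J : ℝ), t ^ β :=
    intervalIntegral.integral_interval_sub_left (hii 1 _ one_pos (by positivity))
      (hii 1 _ one_pos hm)
  rw [e0] at er2
  have h9 : 3 * C * (m : ℝ) ^ (β + 1 / 2) ≤ (e / 2) * J * (m : ℝ) ^ β := by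
    calc 3 * C * (m : ℝ) ^ (β + 1 / 2) ≤ 3 * C * ((m : ℝ) ^ β * (J / δ)) :=
          mul_le_mul_of_nonneg_left h6 (by positivity)
      _ = (3 * C / δ) * (J * (m : ℝ) ^ β) := by field_simp
      _ ≤ (e / 2) * (J * (m : ℝ) ^ β) := by
        refine mul_le_mul_of_nonneg_right ?_ (by positivity)
        have : 3 * C / δ ≤ 4 * C / δ := by gcongr; norm_num
        have h : 8 * C / δ = 2 * (4 * C / δ) := by ring
        linarith
      _ = _ := by ring
  have h10 : |A * (∫ t in (m : ℝ)..(m + J : ℝ), t ^ β) - A * (J * (m : ℝ) ^ β)| ≤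
      (e / 2) * J * (m : ℝ) ^ β := by
    rw [← mul_sub, abs_mul, abs_of_pos hA]
    calc A * |(∫ t in (m : ℝ)..(m + J : ℝ), t ^ β) - J * (m : ℝ) ^ β|
        ≤ A * (η * J * (m : ℝ) ^ β) := mul_le_mul_of_nonneg_left h7 hA.le
      _ = (A * η) * J * (m : ℝ) ^ β := by ring
      _ = _ := by rw [hAη]
  have h11 : V (m + J) - V m - A * (J * (m : ℝ) ^ β) =
      (V (m + J) - A * ∫ t in (1 : ℝ)..(m + J : ℝ), t ^ β) -
      (V m - A * ∫ t in (1 : ℝ)..(m : ℝ), t ^ β) +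
      (A * (∫ t in (m : ℝ)..(m + J : ℝ), t ^ β) - A * (J * (m : ℝ) ^ β)) := by
    rw [← h8]; ring
  have h12 := mul_le_mul_of_nonneg_left h4 hC.le
  rw [e0] at h12
  have er1a := (abs_le.1 er1).1
  have er1b := (abs_le.1 er1).2
  have er2a := (abs_le.1 er2).1
  have er2b := (abs_le.1 er2).2
  have h10a := (abs_le.1 h10).1
  have h10b := (abs_le.1 h10).2
  constructor <;> nlinarith

/-- **Tauberian theorem** -/
theorem tauber_o (hK : Seq1 y D k0) (hV : ∀ n, V (n + 1) = V n + y (n + 1))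
    {A β : ℝ} (hA : 0 < A)
    (hT : Tendsto (fun n : ℕ => (V n - A * ∫ t in (1 : ℝ)..(n : ℝ), t ^ β) /
      (n : ℝ) ^ (β + 1 / 2)) atTop (𝓝 0)) :
    Tendsto (fun n : ℕ => y n / (n : ℝ) ^ β) atTop (𝓝 A) := by
  refine lim_of_win hK hV hA fun δ e hδ he => ?_
  have hC : 0 < e * δ / 8 := by positivity
  refine win_of_sum hA hC ?_ δ e hδ he (le_of_eq (by field_simp))
  have hT' := hT.abs
  rw [abs_zero] at hT'
  filter_upwards [hT'.eventually_lt_const hC, eventually_gt_atTop 0] with n h1 h2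
  have hn : (0 : ℝ) < n := by exact_mod_cast h2
  have hp : 0 < (n : ℝ) ^ (β + 1 / 2) := Real.rpow_pos_of_pos hn _
  rw [abs_div, abs_of_pos hp, div_lt_iff₀ hp] at h1
  exact h1.le

/-- two-sided bounds from partial sums -/
theorem tauber_O (hK : Seq1 y D k0) (hV : ∀ n, V (n + 1) = V n + y (n + 1))
    {A β C : ℝ} (hA : 0 < A)
    (hT : ∀ᶠ n : ℕ in atTop, |V n - A * ∫ t in (1 : ℝ)..(n : ℝ), t ^ β| ≤
      C * (n : ℝ) ^ (β + 1 / 2)) :
    ∃ c₃ c₄ : ℝ, 0 < c₃ ∧ ∀ᶠ n : ℕ in atTop,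
      c₃ ≤ y n / (n : ℝ) ^ β ∧ y n / (n : ℝ) ^ β ≤ c₄ := by
  have hC : 0 < |C| + 1 := by positivity
  have hδ : 0 < 16 * (|C| + 1) / A := by positivity
  refine bounds_of_win hK hV (a₁ := A - A / 2) (a₂ := A + A / 2) (by linarith) (by linarith) hδ
    (win_of_sum hA hC ?_ _ (A / 2) hδ (by positivity) (le_of_eq (by field_simp; norm_num)))
  filter_upwards [hT] with n hn
  refine hn.trans (mul_le_mul_of_nonneg_right ?_ (by positivity))
  linarith [le_abs_self C]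

end Q294.Sq1
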