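import Pool.Agent.Q294.Sq7

/-!
# The normalised area laws: sparse lengths and partial sums
-/

set_option autoImplicit false

namespace Q294.Sq10

open Finset Filter Topology MeasureTheory Q294.Sq1 Q294.Sq3 Q294.Sq7 Pool.Agent.H976R2
  Pool.Agent.H924P Pool.Agent.H739K
open scoped Classical

noncomputable section

theorem slutsky {g : ℝ → ℝ} {Λ : ℝ} (hg : ∀ x y, |g x - g y| ≤ Λ * |x - y|)
    (s₁ s₂ : ℕ → ℝ) {N : ℕ} (hN : 2 ≤ N) :
    |EL s₁ N g - EL s₂ N g| ≤ Λ * (MA N * |1 / s₁ N - 1 / s₂ N|) := by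
  rw [EL_eq _ hN, EL_eq _ hN, MOM.MA_eq N hN, MOM.MK_eq 1 N hN]
  simp only [pow_one]
  have hc := card_KP_pos hN
  rw [← sub_div, abs_div, abs_of_pos hc, ← Finset.sum_sub_distrib, div_mul_eq_mul_div,
    mul_div_assoc', div_le_div_iff_of_pos_right hc]
  refine (Finset.abs_sum_le_sum_abs _ _).trans ?_
  rw [Finset.sum_mul, Finset.mul_sum]
  refine Finset.sum_le_sum fun w _ => ?_
  refine (hg _ _).trans (le_of_eq ?_)
  have e : (ar w : ℝ) / s₁ N - (ar w : ℝ) / s₂ N = ar w * (1 / s₁ N - 1 / s₂ N) := by ring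
  rw [e, abs_mul, abs_of_nonneg (Nat.cast_nonneg _ : (0 : ℝ) ≤ ar w)]

/-- the two normalisations agree -/
theorem scale_zero {F : Filter ℕ} (hF : F ≤ atTop) {c θ : ℝ} (hc : 0 < c)
    (h : Tendsto (fun n : ℕ => MA n / (n : ℝ) ^ θ) F (𝓝 c)) :
    Tendsto (fun n : ℕ => MA n * |1 / MA n - 1 / (c * (n : ℝ) ^ θ)|) F (𝓝 0) := by
  have h1 : Tendsto (fun n : ℕ => |1 - (MA n / (n : ℝ) ^ θ) / c|) F (𝓝 0) := by
    have h2 := ((h.div_const c).const_sub 1).abs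
    rw [div_self hc.ne', sub_self, abs_zero] at h2
    exact h2
  refine h1.congr' ?_
  have ev : ∀ᶠ n : ℕ in F, 2 ≤ n := hF (eventually_ge_atTop 2)
  filter_upwards [ev] with n hn
  have hp := MA_pos hn
  have hn0 : (0 : ℝ) < n := by exact_mod_cast (show 0 < n by omega)
  have hpn : 0 < (n : ℝ) ^ θ := Real.rpow_pos_of_pos hn0 θ
  have e : MA n * |1 / MA n - 1 / (c * (n : ℝ) ^ θ)| = |MA n * (1 / MA n - 1 / (c * (n : ℝ) ^ θ))| := by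
    rw [abs_mul, abs_of_pos hp]
  rw [e]
  congr 1
  field_simp

theorem EL_scale (c θ : ℝ) (hc : 0 < c) (n : ℕ) (g : ℝ → ℝ) :
    EL (fun N => (N : ℝ) ^ θ) n g = EL (fun N => c * (N : ℝ) ^ θ) n (fun x => g (c * x)) := by
  unfold EL
  congr 1
  funext f
  congr 1
  field_simp

theorem conv_change {F : Filter ℕ} (hF : F ≤ atTop) {c θ : ℝ} (hc : 0 < c)
    (h : Tendsto (fun n : ℕ => MA n / (n : ℝ) ^ θ) F (𝓝 c)) {g : ℝ → ℝ} {Λ : ℝ}
    (hg : ∀ x y, |g x - g y| ≤ Λ * |x - y|) :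
    Tendsto (fun n => EL MA n g - EL (fun N => c * (N : ℝ) ^ θ) n g) F (𝓝 0) := by
  have h1 := (scale_zero hF hc h).const_mul Λ
  rw [mul_zero] at h1
  refine squeeze_zero_norm' ?_ h1
  have ev : ∀ᶠ n : ℕ in F, 2 ≤ n := hF (eventually_ge_atTop 2)
  filter_upwards [ev] with n hn
  rw [Real.norm_eq_abs]
  exact slutsky hg MA (fun N => c * (N : ℝ) ^ θ) hn

/-- from the law of the area divided by `n^θ` to the normalised law -/
theorem back_law {c θ : ℝ} (hc : 0 < c) (ν : Measure ℝ) [IsProbabilityMeasure ν]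
    (h : Tendsto (fun n : ℕ => MA n / (n : ℝ) ^ θ) atTop (𝓝 c))
    (h2 : ∀ g : ℝ → ℝ, Continuous g → (∃ B, ∀ x, |g x| ≤ B) →
      Tendsto (fun n => EL (fun N => (N : ℝ) ^ θ) n g) atTop (𝓝 (∫ x, g (c * x) ∂ν)))
    (g : ℝ → ℝ) (hg : Continuous g) (hgb : ∃ B, ∀ x, |g x| ≤ B) :
    Tendsto (fun n => EL MA n g) atTop (𝓝 (∫ x, g x ∂ν)) := by
  refine weak_area MA ν (fun g hg => ?_) g hg hgb
  have hgc := cont_of_lip hg.1
  have h3 := conv_change le_rfl hc h (g := g) (Λ := 1) (by simpa using hg.1)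
  have h4 := h2 (fun x => g (x / c)) (hgc.comp (continuous_id.div_const c)) ⟨1, fun x => by
    rw [abs_of_nonneg (hg.2.1 _).1]; exact (hg.2.1 _).2⟩
  have e1 : ∀ x, g (c * x / c) = g x := fun x => by rw [mul_div_cancel_left₀ _ hc.ne']
  simp only [e1] at h4
  have h5 := h3.add h4
  rw [zero_add] at h5
  refine h5.congr fun n => ?_
  rw [EL_scale c θ hc n (fun x => g (x / c))]
  simp only [e1]
  ring

/-- Lipschitz test functions with bounded support -/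
def TestL (g : ℝ → ℝ) : Prop :=
  (∃ Λ : ℝ, ∀ x y, |g x - g y| ≤ Λ * |x - y|) ∧ (∀ x, 0 ≤ g x) ∧ ∃ M : ℝ, ∀ x, M ≤ |x| → g x = 0

theorem TestL.comp {g : ℝ → ℝ} (hg : Test g) {c : ℝ} (hc : 0 < c) : TestL (fun x => g (c * x)) := by
  obtain ⟨h1, h2, M, h3⟩ := hg
  refine ⟨⟨c, fun x y => ?_⟩, fun x => (h2 _).1, M / c, fun x hx => ?_⟩
  · refine (h1 _ _).trans (le_of_eq ?_)
    rw [← mul_sub, abs_mul, abs_of_pos hc]
  · refine h3 _ ?_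
    rw [abs_mul, abs_of_pos hc]
    rw [div_le_iff₀ hc] at hx
    linarith

instance isProb_map (ν : Measure ℝ) [IsProbabilityMeasure ν] (c : ℝ) :
    IsProbabilityMeasure (ν.map fun x => c * x) :=
  Measure.isProbabilityMeasure_map (by fun_prop)

theorem int_map (ν : Measure ℝ) (c : ℝ) {g : ℝ → ℝ} (hg : Continuous g) :
    ∫ x, g x ∂(ν.map fun x => c * x) = ∫ x, g (c * x) ∂ν :=
  integral_map (by fun_prop) hg.aestronglyMeasurable

/-- **sparse lengths** -/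
theorem sparse {θ : ℝ} (hθ : 1 ≤ θ) (S : Set ℕ) (hS : Q294.Sq5.Dense S) (C c β : ℝ) (hC : 0 < C)
    (hc : 0 < c) (ν : Measure ℝ) [IsProbabilityMeasure ν]
    (h1 : Tendsto (fun n : ℕ => H981.PP n / ((n : ℝ) ^ β * H981.mu ^ (2 * n))) (atTop ⊓ 𝓟 S) (𝓝 C))
    (h2 : Tendsto (fun n : ℕ => MA n / (n : ℝ) ^ θ) (atTop ⊓ 𝓟 S) (𝓝 c))
    (h3 : ∀ g : ℝ → ℝ, Continuous g → (∃ B, ∀ x, |g x| ≤ B) →
      Tendsto (fun n => EL MA n g) (atTop ⊓ 𝓟 S) (𝓝 (∫ x, g x ∂ν))) :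
    Tendsto (fun n : ℕ => H981.PP n / ((n : ℝ) ^ β * H981.mu ^ (2 * n))) atTop (𝓝 C) ∧
    Tendsto (fun n : ℕ => MA n / (n : ℝ) ^ θ) atTop (𝓝 c) ∧
    ∀ g : ℝ → ℝ, Continuous g → (∃ B, ∀ x, |g x| ≤ B) →
      Tendsto (fun n => EL MA n g) atTop (𝓝 (∫ x, g x ∂ν)) := by
  have e : ∀ n, 2 ≤ n → MOM.MK 1 n = MA n := fun n hn => (MOM.MA_eq n hn).symm
  have ev : ∀ᶠ n : ℕ in atTop ⊓ 𝓟 S, 2 ≤ n := (eventually_ge_atTop 2).filter_mono inf_le_left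
  have h4 := Q294.Sq5.sparse (MOM.MK 1) (seq_area 1 le_rfl) S hS C c β θ hC hc h1
    (h2.congr' (by filter_upwards [ev] with n hn; rw [e n hn]))
  have h5 : Tendsto (fun n : ℕ => MA n / (n : ℝ) ^ θ) atTop (𝓝 c) :=
    h4.2.congr' (by filter_upwards [eventually_ge_atTop 2] with n hn; rw [e n hn])
  refine ⟨h4.1, h5, ?_⟩
  refine back_law hc ν h5 fun g hg hgb => ?_
  rw [← int_map ν c hg]
  refine law_sparse hθ S hS C β hC (ν.map fun x => c * x) h1 (fun g hg => ?_) g hg hgb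
  rw [int_map ν c (cont_of_lip hg.1)]
  obtain ⟨⟨Λ, hΛ⟩, -, -⟩ := TestL.comp hg hc
  have h6 := conv_change inf_le_left hc h2 hΛ
  have h7 := h3 (fun x => g (c * x)) ((cont_of_lip hg.1).comp (continuous_const_mul c))
    ⟨1, fun x => by rw [abs_of_nonneg (hg.2.1 _).1]; exact (hg.2.1 _).2⟩
  have h8 := h7.sub h6
  rw [sub_zero] at h8
  refine h8.congr fun n => ?_
  rw [EL_scale c θ hc n g]
  ring

/-- **partial sums** -/
theorem tauber {θ : ℝ} (hθ : 1 ≤ θ) (C c β s r : ℝ) (hC : 0 < C) (hc : 0 < c)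
    (ν : Measure ℝ) [IsProbabilityMeasure ν]
    (h1 : Tendsto (fun n : ℕ => (∑ j ∈ Finset.Icc 2 n, H981.PP j / H981.mu ^ (2 * j) - s -
      C * ∫ t in (1 : ℝ)..(n : ℝ), t ^ β) / (n : ℝ) ^ (β + 1 / 2)) atTop (𝓝 0))
    (h2 : Tendsto (fun n : ℕ => (∑ j ∈ Finset.Icc 2 n, H981.PP j * MA j / H981.mu ^ (2 * j) - r -
      C * c * ∫ t in (1 : ℝ)..(n : ℝ), t ^ (β + θ)) / (n : ℝ) ^ (β + θ + 1 / 2)) atTop (𝓝 0))
    (h3 : ∀ g : ℝ → ℝ, TestL g → ∃ q : ℝ,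
      Tendsto (fun n : ℕ => (∑ j ∈ Finset.Icc 2 n,
        H981.PP j * EL (fun N => c * (N : ℝ) ^ θ) j g / H981.mu ^ (2 * j) - q -
      C * (∫ x, g x ∂ν) * ∫ t in (1 : ℝ)..(n : ℝ), t ^ β) / (n : ℝ) ^ (β + 1 / 2)) atTop (𝓝 0)) :
    Tendsto (fun n : ℕ => H981.PP n / ((n : ℝ) ^ β * H981.mu ^ (2 * n))) atTop (𝓝 C) ∧
    Tendsto (fun n : ℕ => MA n / (n : ℝ) ^ θ) atTop (𝓝 c) ∧
    ∀ g : ℝ → ℝ, Continuous g → (∃ B, ∀ x, |g x| ≤ B) →
      Tendsto (fun n => EL MA n g) atTop (𝓝 (∫ x, g x ∂ν)) := by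
  have e : ∀ n, 2 ≤ n → MOM.MK 1 n = MA n := fun n hn => (MOM.MA_eq n hn).symm
  have h4 := Q294.Sq5.tauber (MOM.MK 1) (seq_area 1 le_rfl) C (C * c) β θ s r hC
    (mul_pos hC hc) h1 (h2.congr fun n => by
      have e2 : ∑ j ∈ Finset.Icc 2 n, H981.PP j * MOM.MK 1 j / H981.mu ^ (2 * j) =
          ∑ j ∈ Finset.Icc 2 n, H981.PP j * MA j / H981.mu ^ (2 * j) :=
        Finset.sum_congr rfl fun j hj => by rw [e j (Finset.mem_Icc.1 hj).1]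
      rw [e2])
  have h5 : Tendsto (fun n : ℕ => MA n / (n : ℝ) ^ θ) atTop (𝓝 c) := by
    have h6 := h4.2
    rw [mul_div_cancel_left₀ _ hC.ne'] at h6
    exact h6.congr' (by filter_upwards [eventually_ge_atTop 2] with n hn; rw [e n hn])
  refine ⟨h4.1, h5, ?_⟩
  refine back_law hc ν h5 fun g hg hgb => ?_
  rw [← int_map ν c hg]
  refine law_tauber hθ C β s hC (ν.map fun x => c * x) h1 (fun g hg => ?_) g hg hgb
  rw [int_map ν c (cont_of_lip hg.1)]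
  obtain ⟨q, hq⟩ := h3 _ (TestL.comp hg hc)
  refine ⟨q, hq.congr fun n => ?_⟩
  have e2 : ∑ j ∈ Finset.Icc 2 n, H981.PP j *
        EL (fun N => c * (N : ℝ) ^ θ) j (fun x => g (c * x)) / H981.mu ^ (2 * j) =
      ∑ j ∈ Finset.Icc 2 n, H981.PP j * EL (fun N => (N : ℝ) ^ θ) j g / H981.mu ^ (2 * j) :=
    Finset.sum_congr rfl fun j _ => by rw [EL_scale c θ hc j g]
  rw [e2]

end

end Q294.Sq10
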