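import Pool.Agent.Q294.Sq1
import Pool.Agent.Q294.Sp3

/-!
# Two approximately log-convex sequences: control of their ratio
-/

set_option autoImplicit false

namespace Q294.Sq2

open Finset Filter Topology TH966.KS Q294.Sq1

variable {Y Z V U : ℕ → ℝ} {D₁ D₂ : ℝ} {k₁ k₂ : ℕ}

/-- the asymptotic forms of `Y` and of `Z / Y` along a sparse set of lengths -/
theorem joint_form (hY : Seq1 Y D₁ k₁) (hZ : Seq1 Z D₂ k₂) (S : Set ℕ)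
    (hS : ∀ δ : ℝ, 0 < δ → ∀ᶠ n : ℕ in atTop, ∃ k ∈ S, n ≤ k ∧ (k : ℝ) ≤ n + δ * √n)
    (A B α β : ℝ) (hA : 0 < A) (hB : 0 < B)
    (h1 : Tendsto (fun n : ℕ => Y n / (n : ℝ) ^ α) (atTop ⊓ 𝓟 S) (𝓝 A))
    (h2 : Tendsto (fun n : ℕ => Z n / Y n / (n : ℝ) ^ β) (atTop ⊓ 𝓟 S) (𝓝 B)) :
    Tendsto (fun n : ℕ => Y n / (n : ℝ) ^ α) atTop (𝓝 A) ∧
      Tendsto (fun n : ℕ => Z n / Y n / (n : ℝ) ^ β) atTop (𝓝 B) := by
  have t1 := form1 hY S hS A α hA h1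
  have h3 : Tendsto (fun n : ℕ => Z n / (n : ℝ) ^ (α + β)) (atTop ⊓ 𝓟 S) (𝓝 (A * B)) := by
    refine (h1.mul h2).congr' ?_
    have : ∀ᶠ n : ℕ in atTop ⊓ 𝓟 S, 0 < n := (eventually_gt_atTop 0).filter_mono inf_le_left
    filter_upwards [this] with n hn
    rw [Q294.Sp3.split Y Z hY.pos α β hn]
  have t2 := form1 hZ S hS (A * B) (α + β) (mul_pos hA hB) h3
  have t3 := Q294.Sp3.back hY.pos hA t1 t2
  rw [mul_div_cancel_left₀ _ hA.ne'] at t3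
  exact ⟨t1, t3⟩

/-- two-sided bounds for `Y` and `Z` give two-sided bounds for `Z / Y` -/
theorem bounds_div (hY : ∀ n, 0 < Y n) {α β a₁ a₂ b₁ b₂ : ℝ} (ha : 0 < a₁)
    (hb : 0 < b₁)
    (h1 : ∀ᶠ n : ℕ in atTop, a₁ ≤ Y n / (n : ℝ) ^ α ∧ Y n / (n : ℝ) ^ α ≤ a₂)
    (h2 : ∀ᶠ n : ℕ in atTop, b₁ ≤ Z n / (n : ℝ) ^ (α + β) ∧ Z n / (n : ℝ) ^ (α + β) ≤ b₂) :
    ∃ c₁ c₂ : ℝ, 0 < c₁ ∧ ∀ᶠ n : ℕ in atTop,
      c₁ ≤ Z n / Y n / (n : ℝ) ^ β ∧ Z n / Y n / (n : ℝ) ^ β ≤ c₂ := by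
  have ha2 : 0 < a₂ := by
    obtain ⟨n, h⟩ := h1.exists
    linarith [h.1, h.2]
  refine ⟨b₁ / a₂, b₂ / a₁, by positivity, ?_⟩
  filter_upwards [h1, h2, eventually_gt_atTop 0] with n h3 h4 h5
  rw [Q294.Sp3.split Y Z hY α β h5] at h4
  have hn0 : (0 : ℝ) < n := by exact_mod_cast h5
  have h6 : 0 < Y n / (n : ℝ) ^ α := div_pos (hY n) (Real.rpow_pos_of_pos hn0 _)
  obtain ⟨x, hx⟩ : ∃ x, x = Y n / (n : ℝ) ^ α := ⟨_, rfl⟩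
  obtain ⟨z, hz⟩ : ∃ z, z = Z n / Y n / (n : ℝ) ^ β := ⟨_, rfl⟩
  rw [← hx, ← hz] at h4
  rw [← hx] at h3 h6
  rw [← hz]
  have hz0 : 0 < z := by
    by_contra hcon
    push Not at hcon
    have : x * z ≤ 0 := mul_nonpos_of_nonneg_of_nonpos h6.le hcon
    linarith [h4.1]
  constructor
  · rw [div_le_iff₀ ha2]
    calc b₁ ≤ x * z := h4.1
      _ ≤ a₂ * z := mul_le_mul_of_nonneg_right h3.2 hz0.le
      _ = z * a₂ := mul_comm _ _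
  · rw [le_div_iff₀ ha]
    calc z * a₁ = a₁ * z := mul_comm _ _
      _ ≤ x * z := mul_le_mul_of_nonneg_right h3.1 hz0.le
      _ ≤ b₂ := h4.2

/-- two-sided bounds for `Y` and `Z / Y` along a sparse set of lengths -/
theorem joint_bounds (hY : Seq1 Y D₁ k₁) (hZ : Seq1 Z D₂ k₂) (S : Set ℕ) (C : ℝ)
    (hS : ∀ᶠ n : ℕ in atTop, ∃ k ∈ S, n ≤ k ∧ (k : ℝ) ≤ n + C * √n)
    (α β a₁ a₂ b₁ b₂ : ℝ) (ha : 0 < a₁) (hb : 0 < b₁)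
    (h1 : ∀ᶠ n : ℕ in atTop, n ∈ S → a₁ ≤ Y n / (n : ℝ) ^ α ∧ Y n / (n : ℝ) ^ α ≤ a₂)
    (h2 : ∀ᶠ n : ℕ in atTop, n ∈ S → b₁ ≤ Z n / Y n / (n : ℝ) ^ β ∧
      Z n / Y n / (n : ℝ) ^ β ≤ b₂) :
    ∃ c₁ c₂ : ℝ, 0 < c₁ ∧ ∀ᶠ n : ℕ in atTop,
      (c₁ ≤ Y n / (n : ℝ) ^ α ∧ Y n / (n : ℝ) ^ α ≤ c₂) ∧
      (c₁ ≤ Z n / Y n / (n : ℝ) ^ β ∧ Z n / Y n / (n : ℝ) ^ β ≤ c₂) := by
  obtain ⟨u₁, u₂, hu, t1⟩ := bounds1 hY S C hS α a₁ a₂ ha h1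
  have h3 : ∀ᶠ n : ℕ in atTop, n ∈ S → a₁ * b₁ ≤ Z n / (n : ℝ) ^ (α + β) ∧
      Z n / (n : ℝ) ^ (α + β) ≤ a₂ * b₂ := by
    filter_upwards [h1, h2, eventually_gt_atTop 0] with n h3 h4 h5 hS
    rw [Q294.Sp3.split Y Z hY.pos α β h5]
    obtain ⟨x1, x2⟩ := h3 hS
    obtain ⟨y1, y2⟩ := h4 hS
    exact ⟨mul_le_mul x1 y1 hb.le (ha.le.trans x1),
      mul_le_mul x2 y2 (hb.le.trans y1) ((ha.le.trans x1).trans x2)⟩
  obtain ⟨v₁, v₂, hv, t2⟩ := bounds1 hZ S C hS (α + β) (a₁ * b₁) (a₂ * b₂) (mul_pos ha hb) h3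
  obtain ⟨w₁, w₂, hw, t3⟩ := bounds_div hY.pos hu hv t1 t2
  refine ⟨min u₁ w₁, max u₂ w₂, lt_min hu hw, ?_⟩
  filter_upwards [t1, t3] with n h4 h5
  exact ⟨⟨(min_le_left _ _).trans h4.1, h4.2.trans (le_max_left _ _)⟩,
    ⟨(min_le_right _ _).trans h5.1, h5.2.trans (le_max_right _ _)⟩⟩

/-- Tauberian theorem for `Y` and `Z / Y` -/
theorem joint_tauber (hY : Seq1 Y D₁ k₁) (hZ : Seq1 Z D₂ k₂)
    (hV : ∀ n, V (n + 1) = V n + Y (n + 1)) (hU : ∀ n, U (n + 1) = U n + Z (n + 1))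
    {A B α β : ℝ} (hA : 0 < A) (hB : 0 < B)
    (h1 : Tendsto (fun n : ℕ => (V n - A * ∫ t in (1 : ℝ)..(n : ℝ), t ^ α) /
      (n : ℝ) ^ (α + 1 / 2)) atTop (𝓝 0))
    (h2 : Tendsto (fun n : ℕ => (U n - B * ∫ t in (1 : ℝ)..(n : ℝ), t ^ (α + β)) /
      (n : ℝ) ^ (α + β + 1 / 2)) atTop (𝓝 0)) :
    Tendsto (fun n : ℕ => Y n / (n : ℝ) ^ α) atTop (𝓝 A) ∧
      Tendsto (fun n : ℕ => Z n / Y n / (n : ℝ) ^ β) atTop (𝓝 (B / A)) := by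
  have t1 := tauber_o hY hV hA h1
  have t2 := tauber_o hZ hU hB h2
  exact ⟨t1, Q294.Sp3.back hY.pos hA t1 t2⟩

/-- two-sided bounds for `Y` and `Z / Y` from the partial sums -/
theorem joint_tauber_O (hY : Seq1 Y D₁ k₁) (hZ : Seq1 Z D₂ k₂)
    (hV : ∀ n, V (n + 1) = V n + Y (n + 1)) (hU : ∀ n, U (n + 1) = U n + Z (n + 1))
    {A B C α β : ℝ} (hA : 0 < A) (hB : 0 < B)
    (h1 : ∀ᶠ n : ℕ in atTop, |V n - A * ∫ t in (1 : ℝ)..(n : ℝ), t ^ α| ≤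
      C * (n : ℝ) ^ (α + 1 / 2))
    (h2 : ∀ᶠ n : ℕ in atTop, |U n - B * ∫ t in (1 : ℝ)..(n : ℝ), t ^ (α + β)| ≤
      C * (n : ℝ) ^ (α + β + 1 / 2)) :
    ∃ c₁ c₂ : ℝ, 0 < c₁ ∧ ∀ᶠ n : ℕ in atTop,
      (c₁ ≤ Y n / (n : ℝ) ^ α ∧ Y n / (n : ℝ) ^ α ≤ c₂) ∧
      (c₁ ≤ Z n / Y n / (n : ℝ) ^ β ∧ Z n / Y n / (n : ℝ) ^ β ≤ c₂) := by
  obtain ⟨u₁, u₂, hu, t1⟩ := tauber_O hY hV hA h1
  obtain ⟨v₁, v₂, hv, t2⟩ := tauber_O hZ hU hB h2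
  obtain ⟨w₁, w₂, hw, t3⟩ := bounds_div hY.pos hu hv t1 t2
  refine ⟨min u₁ w₁, max u₂ w₂, lt_min hu hw, ?_⟩
  filter_upwards [t1, t3] with n h4 h5
  exact ⟨⟨(min_le_left _ _).trans h4.1, h4.2.trans (le_max_left _ _)⟩,
    ⟨(min_le_right _ _).trans h5.1, h5.2.trans (le_max_right _ _)⟩⟩

/-- a term is at most the local mean at scale `√n` -/
theorem local_mean (hK : Seq1 Y D₁ k₁) (n : ℕ) (hn : 2 * k₁ + 4 ≤ n) :
    (Nat.sqrt n : ℝ) * Y n ≤ Real.exp D₁ * ∑ k ∈ Finset.Icc (n - Nat.sqrt n) (n + Nat.sqrt n), Y k := by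
  have hD := hK.D0
  obtain ⟨J, hJ⟩ : ∃ J, J = Nat.sqrt n := ⟨_, rfl⟩
  have hJn : J * J ≤ n := by rw [hJ]; exact Nat.sqrt_le n
  have hn0 : (0 : ℝ) < n := by exact_mod_cast (show 0 < n by omega)
  have hJ2 : 2 * J ≤ n := by
    rcases Nat.lt_or_ge J 2 with h | h
    · omega
    · nlinarith
  rw [← hJ]
  have h1 : ∀ i ∈ range J, Y n * Real.exp (-D₁) ≤ (Y (n - (i + 1)) + Y (n + (i + 1))) / 2 := by
    intro i hi
    have hi' := mem_range.1 hi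
    refine le_trans ?_ (conv1 hK (n := n) (j := i + 1) (by omega) (by omega))
    refine mul_le_mul_of_nonneg_left ?_ (hK.pos n).le
    rw [Real.exp_le_exp, neg_le_neg_iff, div_le_iff₀ hn0]
    refine mul_le_mul_of_nonneg_left ?_ hD
    have : (i + 1) ^ 2 ≤ n := by
      calc (i + 1) ^ 2 ≤ J ^ 2 := Nat.pow_le_pow_left hi' 2
        _ = J * J := by ring
        _ ≤ n := hJn
    exact_mod_cast this
  have h2 := Finset.sum_le_sum h1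
  rw [Finset.sum_const, card_range, nsmul_eq_mul, ← Finset.sum_div, Finset.sum_add_distrib] at h2
  have h3 : ∑ i ∈ range J, Y (n - (i + 1)) ≤ ∑ k ∈ Finset.Icc (n - J) (n + J), Y k := by
    rw [← Finset.sum_image (s := range J) (g := fun i => n - (i + 1)) (f := Y)]
    · refine Finset.sum_le_sum_of_subset_of_nonneg ?_ fun i _ _ => (hK.pos i).le
      intro k hk
      rw [mem_image] at hk
      obtain ⟨i, hi, rfl⟩ := hk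
      have := mem_range.1 hi
      rw [Finset.mem_Icc]
      omega
    · intro a ha b hb hab
      have := mem_range.1 ha
      have := mem_range.1 hb
      simp only at hab
      omega
  have h4 : ∑ i ∈ range J, Y (n + (i + 1)) ≤ ∑ k ∈ Finset.Icc (n - J) (n + J), Y k := by
    rw [← Finset.sum_image (s := range J) (g := fun i => n + (i + 1)) (f := Y)]
    · refine Finset.sum_le_sum_of_subset_of_nonneg ?_ fun i _ _ => (hK.pos i).le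
      intro k hk
      rw [mem_image] at hk
      obtain ⟨i, hi, rfl⟩ := hk
      have := mem_range.1 hi
      rw [Finset.mem_Icc]
      omega
    · intro a ha b hb hab
      simp only at hab
      omega
  have h5 : (J : ℝ) * (Y n * Real.exp (-D₁)) ≤ ∑ k ∈ Finset.Icc (n - J) (n + J), Y k := by
    linarith
  have h6 := mul_le_mul_of_nonneg_left h5 (Real.exp_pos D₁).le
  have h7 : Real.exp D₁ * Real.exp (-D₁) = 1 := by rw [← Real.exp_add]; simp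
  calc (J : ℝ) * Y n = Real.exp D₁ * (J * (Y n * Real.exp (-D₁))) := by
        rw [show Real.exp D₁ * (J * (Y n * Real.exp (-D₁))) =
          (Real.exp D₁ * Real.exp (-D₁)) * (J * Y n) by ring, h7, one_mul]
    _ ≤ _ := h6

end Q294.Sq2
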