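import Pool.Agent.Q294.Sq2
import Pool.Agent.H739K.MOM3

/-!
# Polygons on `ℤ²`: the sequences of the counts, of the moments of the area and of the width
-/

set_option autoImplicit false

namespace Q294.Sq3

open Finset Filter Topology Q294.Sq1 Pool.Agent.H976R2 Pool.Agent.H924P Pool.Agent.H739K
open scoped Classical

noncomputable section

/-! ### Exchange of the coordinates of a word -/

/-- exchange of the coordinates of a direction -/
def sd : Dir → Dir
  | Dir.E => Dir.N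
  | Dir.N => Dir.E
  | Dir.W => Dir.S
  | Dir.S => Dir.W

/-- exchange of the coordinates of a word -/
def sww (w : List Dir) : List Dir := w.map sd

theorem sd_sd (d : Dir) : sd (sd d) = d := by cases d <;> rfl
theorem dx_sd (d : Dir) : dx (sd d) = dy d := by cases d <;> rfl
theorem dy_sd (d : Dir) : dy (sd d) = dx d := by cases d <;> rfl
theorem opp_sd (d : Dir) : opp (sd d) = sd (opp d) := by cases d <;> rfl

theorem perp_sd {e d : Dir} (h : perp e d) : perp (sd e) (sd d) := by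
  unfold perp at *
  rw [dx_sd, dx_sd, dy_sd, dy_sd]
  linarith

theorem sww_sww (w : List Dir) : sww (sww w) = w := by
  unfold sww
  rw [List.map_map]
  have : sd ∘ sd = id := funext sd_sd
  rw [this, List.map_id]

theorem length_sww (w : List Dir) : (sww w).length = w.length := by
  unfold sww
  exact List.length_map _

theorem wX_sww (w : List Dir) : wX (sww w) = wY w := by
  induction w with
  | nil => rfl
  | cons d w ih =>
    have : sww (d :: w) = sd d :: sww w := rfl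
    rw [this, wX_cons, wY_cons, ih, dx_sd]

theorem wY_sww (w : List Dir) : wY (sww w) = wX w := by
  induction w with
  | nil => rfl
  | cons d w ih =>
    have : sww (d :: w) = sd d :: sww w := rfl
    rw [this, wX_cons, wY_cons, ih, dy_sd]

theorem sq_sww (w : List Dir) : sq (sww w) = sq w := by
  unfold Pool.Agent.H976R2.sq
  rw [wX_sww, wY_sww]
  ring

theorem saw_sww {w : List Dir} (h : Saw w) : Saw (sww w) := by
  intro a b c habc hb
  have h1 : w = sww a ++ sww b ++ sww c := by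
    rw [← sww_sww w, habc]
    unfold sww
    rw [List.map_append, List.map_append]
  have h2 : sww b ≠ [] := by
    intro h0
    apply hb
    have := congrArg List.length h0
    rw [length_sww] at this
    exact List.eq_nil_of_length_eq_zero this
  have h3 := h _ _ _ h1 h2
  rw [wX_sww, wY_sww] at h3
  rintro ⟨h4, h5⟩
  exact h3 ⟨h5, h4⟩

theorem lt_sww {w : List Dir} {i : ℕ} (hi : i < w.length) : lt (sww w) i = sd (lt w i) := by
  unfold Pool.Agent.H976R2.lt
  rw [List.getD_eq_getElem _ _ hi, List.getD_eq_getElem _ _ (by rw [length_sww]; exact hi)]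
  unfold sww
  rw [List.getElem_map]

theorem ins_sww {w : List Dir} {i : ℕ} (hi : i < w.length) (e : Dir) :
    ins (sww w) i (sd e) = sww (ins w i e) := by
  unfold ins
  rw [lt_sww hi, opp_sd]
  unfold sww
  simp [List.map_take, List.map_drop]

theorem adm_sww {w : List Dir} {i : ℕ} {e : Dir} (h : (i, e) ∈ adm w) :
    (i, sd e) ∈ adm (sww w) := by
  rw [Pool.Agent.H976R2.mem_adm] at h ⊢
  obtain ⟨h1, h2, h3⟩ := h
  refine ⟨by rw [length_sww]; exact h1, ?_, ?_⟩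
  · rw [lt_sww h1]
    exact perp_sd h2
  · rw [ins_sww h1]
    exact saw_sww h3

theorem lp_sww (m : ℕ) (w : List Dir) : lp m (sww w) = fun k => ((lp m w k).2, (lp m w k).1) := by
  funext k
  unfold Pool.Agent.H739K.lp
  have : (sww w).take k.val = sww (w.take k.val) := by
    unfold sww
    rw [List.map_take]
  rw [this, wX_sww, wY_sww]

/-- the area of a word plus the area of its mirror image is at least half of the perimeter -/
theorem area_lower {w : List Dir} (h3 : 3 ≤ w.length) (hs : Saw w) (hq : sq w = 1) :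
    w.length + 1 ≤ 2 * (ar w + ar (sww w)) := by
  have hl := F2aux.loop_of CONV_proof h3 hs hq
  have hl' := F2aux.loop_of CONV_proof (w := sww w) (by rw [length_sww]; exact h3) (saw_sww hs)
    (by rw [sq_sww]; exact hq)
  have hne : NeZero (w.length + 1) := ⟨by omega⟩
  have h1 := HOR_proof (w.length + 1) _ (by omega) hl
  have h2 := HOR_proof ((sww w).length + 1) _ (by rw [length_sww]; omega) hl'
  have h4 := hor_add_ver hl
  have e : ∀ n : ℕ, n = w.length →
      Nat.card {k : ZMod (n + 1) // (lp (n + 1) (sww w) (k + 1)).2 = (lp (n + 1) (sww w) k).2} =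
      Nat.card {k : ZMod (w.length + 1) // (lp (w.length + 1) w (k + 1)).1 =
        (lp (w.length + 1) w k).1} := by
    rintro n rfl
    rw [lp_sww]
  rw [e _ (length_sww w)] at h2
  have h5 : ar (sww w) = area ((sww w).length + 1) (lp ((sww w).length + 1) (sww w)) := rfl
  have h6 : ar w = area (w.length + 1) (lp (w.length + 1) w) := rfl
  rw [← h5] at h2
  rw [← h6] at h1
  omega

/-- the symmetric weight -/
def phs (k : ℕ) (w : List Dir) : ℝ := (ar w : ℝ) ^ k + (ar (sww w) : ℝ) ^ k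

theorem ar_upper {w : List Dir} (h3 : 3 ≤ w.length) (hs : Saw w) (hq : sq w = 1) :
    (ar w : ℝ) ≤ (2 * ((w.length : ℝ) + 1)) ^ 2 := by
  have hl := F2aux.loop_of CONV_proof h3 hs hq
  have h3 : ar w ≤ (2 * (w.length + 1)) ^ 2 := by
    have : NeZero (w.length + 1) := ⟨by omega⟩
    exact all_area hl
  exact_mod_cast h3

theorem pow_diff (k x y : ℕ) (h1 : x ≤ y + 1) (h2 : y ≤ x + 1) :
    |(x : ℝ) ^ k - (y : ℝ) ^ k| ≤ k * ((y : ℝ) + 1) ^ (k - 1) := by
  have b1 : (x : ℝ) ≤ y + 1 := by exact_mod_cast h1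
  have b2 : (y : ℝ) ≤ x + 1 := by exact_mod_cast h2
  have b0 : (0 : ℝ) ≤ x := Nat.cast_nonneg _
  have c0 : (0 : ℝ) ≤ y := Nat.cast_nonneg _
  have c1 := abs_pow_sub_pow_le (x : ℝ) (y : ℝ) k
  have c3 : |(x : ℝ) - y| ≤ 1 := by
    rw [abs_le]; constructor <;> linarith
  have c4 : max |(x : ℝ)| |(y : ℝ)| ≤ (y : ℝ) + 1 := by
    rw [abs_of_nonneg b0, abs_of_nonneg c0]
    apply max_le <;> linarith
  have c5 : 0 ≤ max |(x : ℝ)| |(y : ℝ)| := le_max_of_le_left (abs_nonneg _)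
  calc |(x : ℝ) ^ k - (y : ℝ) ^ k| ≤ |(x : ℝ) - y| * k * max |(x : ℝ)| |(y : ℝ)| ^ (k - 1) := c1
    _ ≤ 1 * k * ((y : ℝ) + 1) ^ (k - 1) := by gcongr
    _ = _ := by ring

theorem nice_area (k : ℕ) (hk : 1 ≤ k) (m : ℕ) (hm : 3 ≤ m) :
    NiceP (8 * k * 2 ^ k * 2 ^ (k - 1)) (2 * 4 ^ k) (2 * k) m (phs k) := by
  refine ⟨?_, ?_, ?_⟩
  · intro w h1 _ hs hq
    have h3 := area_lower (by omega) hs hq
    unfold phs
    have h5 : 1 ≤ ar w ∨ 1 ≤ ar (sww w) := by omega
    have h0 : (0 : ℝ) ≤ (ar w : ℝ) ^ k := by positivity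
    have h0' : (0 : ℝ) ≤ (ar (sww w) : ℝ) ^ k := by positivity
    rcases h5 with h5 | h5
    · have : (1 : ℝ) ≤ (ar w : ℝ) ^ k := one_le_pow₀ (by exact_mod_cast h5)
      linarith
    · have : (1 : ℝ) ≤ (ar (sww w) : ℝ) ^ k := one_le_pow₀ (by exact_mod_cast h5)
      linarith
  · intro w h1 h2 hs hq
    have h4 := ar_upper (by omega) hs hq
    have h4' := ar_upper (w := sww w) (by rw [length_sww]; omega) (saw_sww hs)
      (by rw [sq_sww]; exact hq)
    rw [length_sww] at h4'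
    have h5 : (w.length : ℝ) ≤ (m : ℝ) + 4 := by exact_mod_cast h2
    have h0 : (0 : ℝ) ≤ w.length := Nat.cast_nonneg _
    have h6 : (2 * ((w.length : ℝ) + 1)) ^ 2 ≤ 4 * ((m : ℝ) + 5) ^ 2 := by
      calc (2 * ((w.length : ℝ) + 1)) ^ 2 ≤ (2 * ((m : ℝ) + 5)) ^ 2 :=
            pow_le_pow_left₀ (by positivity) (by linarith) 2
        _ = _ := by ring
    unfold phs
    calc (ar w : ℝ) ^ k + (ar (sww w) : ℝ) ^ k
        ≤ (4 * ((m : ℝ) + 5) ^ 2) ^ k + (4 * ((m : ℝ) + 5) ^ 2) ^ k := by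
          gcongr
          · exact h4.trans h6
          · exact h4'.trans h6
      _ = 2 * 4 ^ k * ((m : ℝ) + 5) ^ (2 * k) := by rw [mul_pow, ← pow_mul]; ring
  · intro w h1 h2 hs hq
    have hlow := area_lower (by omega) hs hq
    have hlow' : (w.length : ℝ) + 1 ≤ 2 * (ar w + ar (sww w)) := by exact_mod_cast hlow
    obtain ⟨s, hs'⟩ : ∃ s : ℝ, s = ar w + ar (sww w) := ⟨_, rfl⟩
    have hl3 : (3 : ℝ) ≤ w.length := by exact_mod_cast hm.trans h1
    have hx0 : (0 : ℝ) ≤ ar w := Nat.cast_nonneg _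
    have hy0 : (0 : ℝ) ≤ ar (sww w) := Nat.cast_nonneg _
    have hs2 : 2 ≤ s := by rw [hs']; linarith
    have h3 : ∀ p ∈ adm w, |phs k (ins w p.1 p.2) - phs k w| ≤ 2 * k * (2 * s) ^ (k - 1) := by
      rintro ⟨i, e⟩ hp
      have hi : i < w.length := (Pool.Agent.H976R2.mem_adm.1 hp).1
      obtain ⟨a1, a2⟩ := AREA_proof w i e (hm.trans h1) hs hq hp
      obtain ⟨b1, b2⟩ := AREA_proof (sww w) i (sd e) (by rw [length_sww]; omega) (saw_sww hs)
        (by rw [sq_sww]; exact hq) (adm_sww hp)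
      rw [ins_sww hi] at b1 b2
      have c1 := pow_diff k _ _ a1 a2
      have c2 := pow_diff k _ _ b1 b2
      have c3 : ((ar w : ℝ) + 1) ^ (k - 1) ≤ (2 * s) ^ (k - 1) :=
        pow_le_pow_left₀ (by linarith) (by linarith) _
      have c4 : ((ar (sww w) : ℝ) + 1) ^ (k - 1) ≤ (2 * s) ^ (k - 1) :=
        pow_le_pow_left₀ (by linarith) (by linarith) _
      have hk0 : (0 : ℝ) ≤ k := Nat.cast_nonneg _
      unfold phs
      simp only
      have e5 : (ar (ins w i e) : ℝ) ^ k + (ar (sww (ins w i e)) : ℝ) ^ k -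
          ((ar w : ℝ) ^ k + (ar (sww w) : ℝ) ^ k) =
        ((ar (ins w i e) : ℝ) ^ k - (ar w : ℝ) ^ k) +
          ((ar (sww (ins w i e)) : ℝ) ^ k - (ar (sww w) : ℝ) ^ k) := by
        ring
      rw [e5]
      refine (abs_add_le _ _).trans ?_
      have d1 := c1.trans (mul_le_mul_of_nonneg_left c3 hk0)
      have d2 := c2.trans (mul_le_mul_of_nonneg_left c4 hk0)
      linarith
    refine (Finset.sum_le_sum h3).trans ?_
    rw [Finset.sum_const, nsmul_eq_mul]
    have h4 : ((adm w).card : ℝ) ≤ 2 * w.length := by exact_mod_cast AA_le w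
    have h5 : ((adm w).card : ℝ) ≤ 4 * s := by rw [hs']; linarith
    have h6 : s ^ k ≤ 2 ^ (k - 1) * ((ar w : ℝ) ^ k + (ar (sww w) : ℝ) ^ k) := by
      rw [hs']
      exact add_pow_le hx0 hy0 k
    have h7 : (2 * s) ^ k = (2 * s) * (2 * s) ^ (k - 1) := by
      obtain ⟨j, rfl⟩ : ∃ j, k = j + 1 := ⟨k - 1, by omega⟩
      rw [Nat.add_sub_cancel, pow_succ, mul_comm]
    have hs0 : 0 ≤ s := by linarith
    unfold phs
    calc ((adm w).card : ℝ) * (2 * k * (2 * s) ^ (k - 1))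
        ≤ (4 * s) * (2 * k * (2 * s) ^ (k - 1)) := by gcongr
      _ = 4 * k * (2 * s) ^ k := by rw [h7]; ring
      _ = 4 * k * 2 ^ k * s ^ k := by rw [mul_pow]; ring
      _ ≤ 4 * k * 2 ^ k * (2 ^ (k - 1) * ((ar w : ℝ) ^ k + (ar (sww w) : ℝ) ^ k)) := by gcongr
      _ ≤ 8 * k * 2 ^ k * (2 ^ (k - 1) * ((ar w : ℝ) ^ k + (ar (sww w) : ℝ) ^ k)) := by
          gcongr
          norm_num
      _ = _ := by ring

theorem mm_phs (k n : ℕ) : mm (phs k) n = 2 * ∑ w ∈ KP n, (ar w : ℝ) ^ k := by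
  unfold mm phs
  rw [Finset.sum_add_distrib]
  have h : ∑ w ∈ KP n, (ar (sww w) : ℝ) ^ k = ∑ w ∈ KP n, (ar w : ℝ) ^ k := by
    have hmem : ∀ w ∈ KP n, sww w ∈ KP n := by
      intro w hw
      unfold KP at *
      rw [mem_filter, mem_SW] at *
      obtain ⟨⟨h1, h2⟩, h3⟩ := hw
      exact ⟨⟨by rw [length_sww]; exact h1, saw_sww h2⟩, by rw [sq_sww]; exact h3⟩
    exact Finset.sum_nbij' sww sww hmem hmem (fun w _ => sww_sww w) (fun w _ => sww_sww w)
      (fun w _ => rfl)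
  rw [h]
  ring

/-! ### Kesten's inequality -/

theorem mu_pos : 0 < H981.mu := H981.mu_pos

theorem mu_one : 1 ≤ H981.mu := by linarith [bnd.1]

theorem mm_pos {L q : ℝ} {p n : ℕ} {φ : List Dir → ℝ} (h : NiceP L q p n φ) (hn : 3 ≤ n)
    (hodd : n % 2 = 1) : 0 < mm φ n :=
  lt_of_lt_of_le (F0_card_pos bnd n hn hodd) (PR.card_le_mm h le_rfl (by omega))

theorem kesP (φ : List Dir → ℝ) (L q : ℝ) (p : ℕ) (hL : 0 ≤ L) (hq : 0 ≤ q)
    (h : ∀ m : ℕ, 3 ≤ m → NiceP L q p m φ) : ∃ D : ℝ, 0 ≤ D ∧ ∃ n0 : ℕ, 3 ≤ n0 ∧ ∀ n : ℕ, n0 ≤ n →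
      n % 2 = 1 → mm φ (n + 2) ^ 2 ≤ mm φ n * mm φ (n + 4) * (1 + D / n) := by
  obtain ⟨D, hD, hr⟩ := PR.ratio (p := p) bnd hq L hL
  obtain ⟨C, hC⟩ := MOM.pmain q hq p L hL
  have t1 : Tendsto (fun n : ℕ => C * rt n) atTop (𝓝 0) := by
    have h7 := F0_rt_tendsto.const_mul C
    rw [mul_zero] at h7
    exact h7
  obtain ⟨N, hN⟩ := eventually_atTop.1
    (t1.eventually_lt_const (show (0 : ℝ) < 1 / 2 by norm_num))
  have hμ := mu_pos
  have hμ1 : 1 ≤ H981.mu ^ 2 := one_le_pow₀ mu_one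
  have hpos : ∀ n, 3 ≤ n → n % 2 = 1 → 0 < mm φ n := fun n hn ho => mm_pos (h n hn) hn ho
  have hgrow : ∀ n, N + 3 ≤ n → n % 2 = 1 → mm φ n ≤ 2 * mm φ (n + 2) := by
    intro n hn ho
    have g1 := hC n φ (by omega) ho (fun m hm _ _ => h m hm)
    have g2 := hN n (by omega)
    have g3 := (abs_le.1 g1).1
    have hp := hpos n (by omega) ho
    have g4 : 1 / 2 ≤ mm φ (n + 2) / (H981.mu ^ 2 * mm φ n) := by linarith
    rw [le_div_iff₀ (by positivity)] at g4
    nlinarith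
  refine ⟨4 * D, by positivity, N + 3, by omega, fun n hn ho => ?_⟩
  have g1 := hr n φ (by omega) ho (h n (by omega))
  have g2 := hgrow n hn ho
  have g3 := hgrow (n + 2) (by omega) (by omega)
  have e1 : n + 2 + 2 = n + 4 := by ring
  rw [e1] at g3
  have hp := hpos n (by omega) ho
  have g4 : mm φ n ^ 2 ≤ 4 * (mm φ n * mm φ (n + 4)) := by
    have : mm φ n ≤ 4 * mm φ (n + 4) := by linarith
    nlinarith
  have hn0 : (0 : ℝ) < n := by exact_mod_cast (show 0 < n by omega)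
  have g5 : D / n * mm φ n ^ 2 ≤ D / n * (4 * (mm φ n * mm φ (n + 4))) :=
    mul_le_mul_of_nonneg_left g4 (by positivity)
  calc mm φ (n + 2) ^ 2 ≤ mm φ n * mm φ (n + 4) + D / n * mm φ n ^ 2 := g1
    _ ≤ mm φ n * mm φ (n + 4) + D / n * (4 * (mm φ n * mm φ (n + 4))) := by linarith
    _ = _ := by ring

/-- the sequence of a weight -/
theorem seqP (φ : List Dir → ℝ) (L q : ℝ) (p : ℕ) (hL : 0 ≤ L) (hq : 0 ≤ q)
    (h : ∀ m : ℕ, 3 ≤ m → NiceP L q p m φ) (y : ℕ → ℝ) (c : ℝ) (hc : 0 < c)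
    (hy0 : ∀ N, N < 2 → 0 < y N)
    (hy : ∀ N, 2 ≤ N → y N = c * (mm φ (2 * N - 1) / (4 * N)) / H981.mu ^ (2 * N)) :
    ∃ (D : ℝ) (k0 : ℕ), Seq1 y D k0 := by
  obtain ⟨D, hD, n0, hn0, hk⟩ := kesP φ L q p hL hq h
  have hμ := mu_pos
  have hpos : ∀ N, 2 ≤ N → 0 < mm φ (2 * N - 1) := fun N hN =>
    mm_pos (h (2 * N - 1) (by omega)) (by omega) (by omega)
  refine ⟨D, n0 + 2, ⟨?_, hD, ?_⟩⟩
  · intro N
    rcases Nat.lt_or_ge N 2 with h1 | h1
    · exact hy0 N h1
    · rw [hy N h1]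
      have := hpos N h1
      have hN : (0 : ℝ) < N := by exact_mod_cast (show 0 < N by omega)
      positivity
  · intro N hN
    rw [hy N (by omega), hy (N + 1) (by omega), hy (N + 2) (by omega)]
    have hk1 := hk (2 * N - 1) (by omega) (by omega)
    have e1 : 2 * (N + 1) - 1 = 2 * N - 1 + 2 := by omega
    have e2 : 2 * (N + 2) - 1 = 2 * N - 1 + 4 := by omega
    rw [e1, e2]
    have p0 := hpos N (by omega)
    have p2 := hpos (N + 2) (by omega)
    rw [e2] at p2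
    have hN0 : (0 : ℝ) < N := by exact_mod_cast (show 0 < N by omega)
    obtain ⟨a, ha⟩ : ∃ a, a = mm φ (2 * N - 1) := ⟨_, rfl⟩
    obtain ⟨b, hb⟩ : ∃ b, b = mm φ (2 * N - 1 + 2) := ⟨_, rfl⟩
    obtain ⟨d, hd⟩ : ∃ d, d = mm φ (2 * N - 1 + 4) := ⟨_, rfl⟩
    rw [← ha, ← hb, ← hd] at hk1 ⊢
    rw [← ha] at p0
    rw [← hd] at p2
    have h1 : D / ((2 * N - 1 : ℕ) : ℝ) ≤ D / N := by
      apply div_le_div_of_nonneg_left hD hN0
      exact_mod_cast (by omega)
    have h2 : b ^ 2 ≤ a * d * (1 + D / N) :=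
      hk1.trans (mul_le_mul_of_nonneg_left (by linarith) (by positivity))
    obtain ⟨M, hM⟩ : ∃ M, M = H981.mu ^ (2 * (N + 1)) := ⟨_, rfl⟩
    have hM0 : 0 < M := by rw [hM]; positivity
    have e3 : H981.mu ^ (2 * N) * H981.mu ^ (2 * (N + 2)) = M ^ 2 := by
      rw [hM, ← pow_add, ← pow_mul]
      congr 1
      ring
    have e4 : (c * (b / (4 * ((N + 1 : ℕ) : ℝ))) / H981.mu ^ (2 * (N + 1))) ^ 2 =
        c ^ 2 / (16 * M ^ 2) * (b ^ 2 / (N + 1) ^ 2) := by
      rw [← hM]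
      push_cast
      field_simp
      norm_num
    have e5 : c * (a / (4 * (N : ℝ))) / H981.mu ^ (2 * N) *
        (c * (d / (4 * ((N + 2 : ℕ) : ℝ))) / H981.mu ^ (2 * (N + 2))) * (1 + D / N) =
        c ^ 2 / (16 * M ^ 2) * (a * d * (1 + D / N) / (N * (N + 2))) := by
      rw [← e3]
      push_cast
      field_simp
      norm_num
    rw [e4, e5]
    refine mul_le_mul_of_nonneg_left ?_ (by positivity)
    have h3 : 0 ≤ a * d * (1 + D / N) := by positivity
    calc b ^ 2 / ((N : ℝ) + 1) ^ 2 ≤ a * d * (1 + D / N) / ((N : ℝ) + 1) ^ 2 := by gcongr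
      _ ≤ a * d * (1 + D / N) / (N * (N + 2)) := by
        apply div_le_div_of_nonneg_left h3 (by positivity)
        nlinarith

theorem niceP_of_nice {L : ℝ} {m : ℕ} {φ : List Dir → ℝ} (h : Nice L m φ) : NiceP L 100 3 m φ :=
  ⟨h.one_le, h.le, h.lip⟩

theorem card_eq {N : ℕ} (hN : 2 ≤ N) : ((KP (2 * N - 1)).card : ℝ) = 4 * N * H981.PP N := by
  have h1 := (CONV_proof N hN).2.1
  have hN0 : (0 : ℝ) < N := by exact_mod_cast (show 0 < N by omega)
  unfold H981.PP
  rw [← h1]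
  have : Nat.card {f : ZMod (2 * N) → ℤ × ℤ // H981.IsLoop (2 * N) f} =
      {f : ZMod (2 * N) → ℤ × ℤ | IsLoop (2 * N) f}.ncard := rfl
  rw [this]
  field_simp

/-- the counts -/
def yp (N : ℕ) : ℝ := if N < 2 then 1 else H981.PP N / H981.mu ^ (2 * N)

/-- the weighted counts -/
def zp (F : ℕ → ℝ) (N : ℕ) : ℝ := if N < 2 then 1 else H981.PP N * F N / H981.mu ^ (2 * N)

theorem seq_count : ∃ (D : ℝ) (k0 : ℕ), Seq1 yp D k0 := by
  refine seqP (fun _ => 1) 0 100 3 le_rfl (by norm_num) (fun m _ => niceP_of_nice (F0_nice_one m))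
    yp 1 one_pos (fun N hN => by unfold yp; rw [if_pos hN]; exact one_pos) fun N hN => ?_
  unfold yp
  have hN0 : (0 : ℝ) < N := by exact_mod_cast (show 0 < N by omega)
  have h4 : (4 * (N : ℝ)) ≠ 0 := by positivity
  rw [if_neg (by omega), F0_mm_one, card_eq hN, one_mul, mul_div_cancel_left₀ _ h4]

theorem seq_area (k : ℕ) (hk : 1 ≤ k) : ∃ (D : ℝ) (k0 : ℕ), Seq1 (zp (MOM.MK k)) D k0 := by
  refine seqP (phs k) _ _ _ (by positivity) (by positivity) (fun m hm => nice_area k hk m hm)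
    _ (1 / 2) (by norm_num) (fun N hN => by unfold zp; rw [if_pos hN]; exact one_pos) fun N hN => ?_
  unfold zp
  have hN0 : (0 : ℝ) < N := by exact_mod_cast (show 0 < N by omega)
  have hc := card_KP_pos hN
  rw [if_neg (by omega), mm_phs, MOM.MK_eq k N hN]
  have h1 := card_eq hN
  have h2 : H981.PP N = ((KP (2 * N - 1)).card : ℝ) / (4 * N) := by
    rw [h1]; field_simp
  rw [h2]
  generalize ((KP (2 * N - 1)).card : ℝ) = c at hc ⊢
  generalize (∑ w ∈ KP (2 * N - 1), (ar w : ℝ) ^ k) = S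
  generalize H981.mu ^ (2 * N) = M
  have hc' := hc.ne'
  have e : c / (4 * (N : ℝ)) * (S / c) = 1 / 2 * (2 * S / (4 * N)) := by
    field_simp
  rw [e]

theorem seq_width : ∃ (D : ℝ) (k0 : ℕ), Seq1 (zp MW) D k0 := by
  refine seqP (fun w => (bx w : ℝ)) 6 100 3 (by norm_num) (by norm_num)
    (fun m hm => niceP_of_nice (F3x.nice BOX_proof m hm))
    _ (1 / 2) (by norm_num) (fun N hN => by unfold zp; rw [if_pos hN]; exact one_pos) fun N hN => ?_
  unfold zp
  have hN0 : (0 : ℝ) < N := by exact_mod_cast (show 0 < N by omega)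
  have hc := card_KP_pos hN
  have hm := F3x.mean_eq CONV_proof SWAP_proof hN
  rw [if_neg (by omega)]
  have h3 : mm (fun w => (bx w : ℝ)) (2 * N - 1) = 2 * MW N * ((KP (2 * N - 1)).card : ℝ) := by
    rw [← hm]; field_simp
  rw [h3, card_eq hN]
  field_simp

end

end Q294.Sq3
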