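import Pool.Agent.Q294.Sq3
import Pool.Agent.TH546.PC.Point

/-!
# Polygons on `ℤ²`: pointwise bounds for the counts times the mean width or the mean area
-/

set_option autoImplicit false

namespace Q294.Sq4

open Finset Filter Topology Q294.Sq1 Q294.Sq3 H981
open Pool.Agent.W870.Pg (CanF Can ht mem_CanF nn nn_le_PP Fp Fp_pos LF mem_LF ht_le_length
  sum_loops_le sum_swp swp loops_eq le_width le_height)
open Pool.Agent.TH546.PC (VV VF VV_bound VV_nonneg mem_VF tail log_sum)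
open scoped Classical

noncomputable section

/-- the weight of the polygons of perimeter at most `2 n` and height at least `i` -/
def UU (n i : ℕ) : ℝ := ∑ j ∈ Finset.Icc 2 n,
    (((CanF (2 * j - 1)).filter (fun g => i ≤ ht g)).card : ℝ) * mu⁻¹ ^ (2 * j)

theorem UU_bound : ∃ K : ℝ, 0 ≤ K ∧ ∀ n i : ℕ, 2 ≤ n → 1 ≤ i → UU n i ≤ K / i := by
  have hmu := H981.mu_pos
  have hmu1 : 1 ≤ mu := one_le_mu
  obtain ⟨K0, hK0, htail⟩ := tail
  obtain ⟨C1, hC1⟩ : ∃ C1 : ℝ, C1 = 38400 * mu ^ 15 := ⟨_, rfl⟩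
  have hC10 : 0 ≤ C1 := by rw [hC1]; positivity
  refine ⟨16 * K0 + C1, by positivity, fun n i hn hi1 => ?_⟩
  have hi0 : (0 : ℝ) < i := by exact_mod_cast (show 0 < i by omega)
  rcases Nat.lt_or_ge i 8 with hi | hi
  · have h1 : UU n i ≤ ∑ j ∈ Finset.Icc 2 n, 2 * Fp j := by
      unfold UU
      apply Finset.sum_le_sum
      intro j hj
      rw [Finset.mem_Icc] at hj
      have h2 := nn_le_PP hj.1
      have h3 : (((CanF (2 * j - 1)).filter (fun g => i ≤ ht g)).card : ℝ) ≤ nn j := by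
        unfold nn
        exact_mod_cast Finset.card_le_card (Finset.filter_subset _ _)
      unfold Fp
      rw [inv_pow]
      have h4 : 0 < mu ^ (2 * j) := pow_pos hmu _
      calc (((CanF (2 * j - 1)).filter (fun g => i ≤ ht g)).card : ℝ) * (mu ^ (2 * j))⁻¹
          ≤ (2 * PP j) * (mu ^ (2 * j))⁻¹ := by
            apply mul_le_mul_of_nonneg_right (h3.trans h2) (by positivity)
        _ = _ := by ring
    have h2 := htail 2 n le_rfl
    have h3 : K0 / Real.sqrt ((2 : ℕ) : ℝ) ≤ K0 := by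
      apply div_le_self hK0
      rw [Real.one_le_sqrt]
      norm_num
    rw [← Finset.mul_sum] at h1
    rw [le_div_iff₀ hi0]
    have h4 : (i : ℝ) ≤ 8 := by exact_mod_cast hi.le
    have h5 : UU n i ≤ 2 * K0 := by linarith
    have h6 : 0 ≤ UU n i := Finset.sum_nonneg (fun j _ =>
      mul_nonneg (Nat.cast_nonneg _) (pow_nonneg (inv_nonneg.mpr hmu.le) _))
    calc UU n i * i ≤ (2 * K0) * 8 := mul_le_mul h5 h4 hi0.le (by positivity)
      _ ≤ _ := by linarith
  · obtain ⟨h, hh⟩ : ∃ h, h = (i - 6) / 2 := ⟨_, rfl⟩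
    have h1 : UU n i ≤ VV h (2 * n) := by
      unfold UU VV
      have e : ∀ j ∈ Finset.Icc 2 n,
          (((CanF (2 * j - 1)).filter (fun g => i ≤ ht g)).card : ℝ) * mu⁻¹ ^ (2 * j) ≤
          ((VF h (2 * j - 1)).card : ℝ) * mu⁻¹ ^ (2 * j - 1) := by
        intro j hj
        rw [Finset.mem_Icc] at hj
        have h2 : ((CanF (2 * j - 1)).filter (fun g => i ≤ ht g)).card ≤ (VF h (2 * j - 1)).card := by
          apply Finset.card_le_card
          intro g hg
          rw [Finset.mem_filter, mem_CanF] at hg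
          rw [mem_VF]
          exact ⟨hg.1, by omega⟩
        have h3 : mu⁻¹ ^ (2 * j) ≤ mu⁻¹ ^ (2 * j - 1) := by
          apply pow_le_pow_of_le_one (by positivity) (inv_le_one_of_one_le₀ hmu1) (by omega)
        have h4 : (((CanF (2 * j - 1)).filter (fun g => i ≤ ht g)).card : ℝ) ≤
          ((VF h (2 * j - 1)).card : ℝ) := by exact_mod_cast h2
        exact mul_le_mul h4 h3 (pow_nonneg (inv_nonneg.mpr hmu.le) _) (Nat.cast_nonneg _)
      refine (Finset.sum_le_sum e).trans ?_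
      have e2 : ∑ j ∈ Finset.Icc 2 n, ((VF h (2 * j - 1)).card : ℝ) * mu⁻¹ ^ (2 * j - 1) =
          ∑ m ∈ (Finset.Icc 2 n).image (fun j => 2 * j - 1), ((VF h m).card : ℝ) * mu⁻¹ ^ m := by
        rw [Finset.sum_image]
        intro a ha b hb hab
        rw [Finset.mem_coe, Finset.mem_Icc] at ha hb
        simp only at hab
        omega
      rw [e2]
      apply Finset.sum_le_sum_of_subset_of_nonneg
      · intro m hm
        rw [Finset.mem_image] at hm
        obtain ⟨j, hj, rfl⟩ := hm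
        rw [Finset.mem_Icc] at hj
        rw [Finset.mem_range]
        omega
      · intro m _ _
        exact mul_nonneg (Nat.cast_nonneg _) (pow_nonneg (inv_nonneg.mpr hmu.le) _)
    have h2 := VV_bound h (2 * n)
    have h3 : i ≤ 16 * h := by omega
    have h4 : (i : ℝ) ≤ 16 * h := by exact_mod_cast h3
    have h5 := VV_nonneg h (2 * n)
    rw [le_div_iff₀ hi0]
    calc UU n i * i ≤ VV h (2 * n) * (16 * h) := by
          exact mul_le_mul h1 h4 hi0.le h5
      _ = 16 * (h * VV h (2 * n)) := by ring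
      _ ≤ 16 * (2400 * mu ^ 15) := by linarith
      _ = C1 := by rw [hC1]; ring
      _ ≤ _ := by linarith

/-- the sum of the squares of the heights -/
theorem sq_sum : ∃ K : ℝ, 0 ≤ K ∧ ∀ n : ℕ, 2 ≤ n →
    ∑ j ∈ Finset.Icc 2 n, (∑ g ∈ CanF (2 * j - 1), (ht g : ℝ) ^ 2) * mu⁻¹ ^ (2 * j) ≤ K * n := by
  have hmu := H981.mu_pos
  obtain ⟨K, hK, hU⟩ := UU_bound
  refine ⟨4 * K, by positivity, fun n hn => ?_⟩
  have h0 : ∀ j ∈ Finset.Icc 2 n, (∑ g ∈ CanF (2 * j - 1), (ht g : ℝ) ^ 2) * mu⁻¹ ^ (2 * j) ≤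
      ∑ i ∈ Finset.Icc 1 (2 * n), 2 * (i : ℝ) *
        ((((CanF (2 * j - 1)).filter (fun g => i ≤ ht g)).card : ℝ) * mu⁻¹ ^ (2 * j)) := by
    intro j hj
    rw [Finset.mem_Icc] at hj
    have h1 : ∀ g ∈ CanF (2 * j - 1), (ht g : ℝ) ^ 2 ≤
        ∑ i ∈ Finset.Icc 1 (2 * n), (if i ≤ ht g then 2 * (i : ℝ) else 0) := by
      intro g hg
      rw [mem_CanF] at hg
      have h2 := ht_le_length hg.1
      rw [← Finset.sum_filter]
      have e : (Finset.Icc 1 (2 * n)).filter (fun i => i ≤ ht g) = Finset.Icc 1 (ht g) := by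
        ext i
        rw [Finset.mem_filter, Finset.mem_Icc, Finset.mem_Icc]
        omega
      rw [e]
      have h3 : ∀ m : ℕ, (m : ℝ) ^ 2 ≤ ∑ i ∈ Finset.Icc 1 m, 2 * (i : ℝ) := by
        intro m
        induction m with
        | zero => simp
        | succ m ih =>
          rw [Finset.sum_Icc_succ_top (by omega)]
          push_cast
          nlinarith
      exact h3 _
    have h2 := Finset.sum_le_sum h1
    rw [Finset.sum_comm] at h2
    calc (∑ g ∈ CanF (2 * j - 1), (ht g : ℝ) ^ 2) * mu⁻¹ ^ (2 * j)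
        ≤ (∑ i ∈ Finset.Icc 1 (2 * n), ∑ g ∈ CanF (2 * j - 1),
            (if i ≤ ht g then 2 * (i : ℝ) else 0)) * mu⁻¹ ^ (2 * j) :=
          mul_le_mul_of_nonneg_right h2 (by positivity)
      _ = _ := by
        rw [Finset.sum_mul]
        refine Finset.sum_congr rfl fun i _ => ?_
        rw [← Finset.sum_filter, Finset.sum_const, nsmul_eq_mul]
        ring
  refine (Finset.sum_le_sum h0).trans ?_
  rw [Finset.sum_comm]
  have h1 : ∀ i ∈ Finset.Icc 1 (2 * n), ∑ j ∈ Finset.Icc 2 n, 2 * (i : ℝ) *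
        ((((CanF (2 * j - 1)).filter (fun g => i ≤ ht g)).card : ℝ) * mu⁻¹ ^ (2 * j)) ≤
      2 * K := by
    intro i hi
    rw [Finset.mem_Icc] at hi
    rw [← Finset.mul_sum]
    have h2 := hU n i hn hi.1
    have hi0 : (0 : ℝ) < i := by exact_mod_cast (show 0 < i by omega)
    rw [le_div_iff₀ hi0] at h2
    have e : ∑ j ∈ Finset.Icc 2 n,
        (((CanF (2 * j - 1)).filter (fun g => i ≤ ht g)).card : ℝ) * mu⁻¹ ^ (2 * j) = UU n i := rfl
    rw [e]
    nlinarith
  refine (Finset.sum_le_sum h1).trans ?_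
  rw [Finset.sum_const, Nat.card_Icc, nsmul_eq_mul]
  push_cast [Nat.add_sub_cancel]
  nlinarith

/-- area of a loop -/
theorem area_le_sq {m : ℕ} [NeZero m] {f : ZMod m → ℤ × ℤ} (hf : Pool.Agent.H924P.IsLoop m f) :
    Pool.Agent.H924P.area m f ≤
      4 * (Pool.Agent.H924P.width m f ^ 2 + Pool.Agent.H924P.height m f ^ 2) := by
  obtain ⟨L, hL⟩ : ∃ L, L = max (Pool.Agent.H924P.width m f) (Pool.Agent.H924P.height m f) :=
    ⟨_, rfl⟩
  have h0 : f 0 = 0 := hf.1
  have hx : ∀ i, |(f i).1| ≤ L := by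
    intro i
    have h1 := le_width f i 0
    rw [h0] at h1
    have h2 := le_max_left (Pool.Agent.H924P.width m f) (Pool.Agent.H924P.height m f)
    rw [← hL] at h2
    simp only [Prod.fst_zero, sub_zero] at h1
    rw [abs_le] at *
    omega
  have hy : ∀ i, |(f i).2| ≤ L := by
    intro i
    have h1 := le_height f i 0
    rw [h0] at h1
    have h2 := le_max_right (Pool.Agent.H924P.width m f) (Pool.Agent.H924P.height m f)
    rw [← hL] at h2
    simp only [Prod.snd_zero, sub_zero] at h1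
    rw [abs_le] at *
    omega
  refine (Pool.Agent.H924P.area_le hf.2.2 hx hy).trans ?_
  rw [mul_pow]
  have : L ^ 2 ≤ Pool.Agent.H924P.width m f ^ 2 + Pool.Agent.H924P.height m f ^ 2 := by
    rw [hL]
    rcases le_total (Pool.Agent.H924P.width m f) (Pool.Agent.H924P.height m f) with h | h
    · rw [max_eq_right h]; exact Nat.le_add_left _ _
    · rw [max_eq_left h]; exact Nat.le_add_right _ _
  omega

theorem MA_le {N : ℕ} (hN : 2 ≤ N) :
    Pool.Agent.H739K.MA N * PP N ≤ 8 * ∑ g ∈ CanF (2 * N - 1), (ht g : ℝ) ^ 2 := by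
  have : NeZero (2 * N) := ⟨by omega⟩
  have h1 := sum_loops_le (m := 2 * N) (by omega)
    (fun f => Pool.Agent.H924P.width (2 * N) f ^ 2) (fun g => ht g ^ 2)
    (fun _ _ _ _ h => Nat.pow_le_pow_left h 2)
  have h2 : (∑ f ∈ LF (2 * N), Pool.Agent.H924P.height (2 * N) f ^ 2) =
      ∑ f ∈ LF (2 * N), Pool.Agent.H924P.width (2 * N) f ^ 2 :=
    sum_swp (m := 2 * N) (fun f => Pool.Agent.H924P.width (2 * N) f ^ 2)
  have h3 : ∑ f ∈ LF (2 * N), Pool.Agent.H924P.area (2 * N) f ≤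
      8 * (2 * (2 * N) * ∑ g ∈ CanF (2 * N - 1), ht g ^ 2) := by
    calc ∑ f ∈ LF (2 * N), Pool.Agent.H924P.area (2 * N) f
        ≤ ∑ f ∈ LF (2 * N), 4 * (Pool.Agent.H924P.width (2 * N) f ^ 2 +
          Pool.Agent.H924P.height (2 * N) f ^ 2) := by
          apply Finset.sum_le_sum
          intro f hf
          rw [mem_LF] at hf
          exact area_le_sq hf
      _ = 8 * ∑ f ∈ LF (2 * N), Pool.Agent.H924P.width (2 * N) f ^ 2 := by
          rw [← Finset.mul_sum, Finset.sum_add_distrib, h2]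
          ring
      _ ≤ _ := Nat.mul_le_mul_left 8 h1
  have hN' : (2 : ℝ) ≤ N := by exact_mod_cast hN
  have hP := Pool.Agent.W870.Pg.PP_pos hN
  have h4 : (∑ f ∈ LF (2 * N), (Pool.Agent.H924P.area (2 * N) f : ℝ)) ≤
      8 * (4 * N * ∑ g ∈ CanF (2 * N - 1), (ht g : ℝ) ^ 2) := by
    calc (∑ f ∈ LF (2 * N), (Pool.Agent.H924P.area (2 * N) f : ℝ)) =
          ((∑ f ∈ LF (2 * N), Pool.Agent.H924P.area (2 * N) f : ℕ) : ℝ) := by push_cast; rfl
      _ ≤ ((8 * (2 * (2 * N) * ∑ g ∈ CanF (2 * N - 1), ht g ^ 2) : ℕ) : ℝ) := by exact_mod_cast h3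
      _ = _ := by push_cast; ring
  have e : {f : ZMod (2 * N) → ℤ × ℤ | Pool.Agent.H924P.IsLoop (2 * N) f} =
      ((LF (2 * N) : Finset (ZMod (2 * N) → ℤ × ℤ)) : Set (ZMod (2 * N) → ℤ × ℤ)) := by
    ext f
    rw [Finset.mem_coe, mem_LF]
    exact Iff.rfl
  have h5 : Pool.Agent.H739K.MA N =
      (∑ f ∈ LF (2 * N), (Pool.Agent.H924P.area (2 * N) f : ℝ)) / ((LF (2 * N)).card : ℝ) := by
    unfold Pool.Agent.H739K.MA Pool.Agent.H739K.me
    rw [e, Set.ncard_coe_finset, finsum_mem_coe_finset]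
  rw [h5, loops_eq (by omega), div_mul_eq_mul_div, div_le_iff₀ (by positivity)]
  calc (∑ f ∈ LF (2 * N), (Pool.Agent.H924P.area (2 * N) f : ℝ)) * PP N
      ≤ (8 * (4 * N * ∑ g ∈ CanF (2 * N - 1), (ht g : ℝ) ^ 2)) * PP N := by gcongr
    _ = _ := by ring

/-- the sum of the mean areas -/
theorem area_sum : ∃ K : ℝ, 0 ≤ K ∧ ∀ n : ℕ, 2 ≤ n →
    ∑ j ∈ Finset.Icc 2 n, zp Pool.Agent.H739K.MA j ≤ K * n := by
  have hmu := H981.mu_pos
  obtain ⟨K, hK, h⟩ := sq_sum
  refine ⟨8 * K, by positivity, fun n hn => ?_⟩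
  have h1 : ∀ j ∈ Finset.Icc 2 n, zp Pool.Agent.H739K.MA j ≤
      8 * ((∑ g ∈ CanF (2 * j - 1), (ht g : ℝ) ^ 2) * mu⁻¹ ^ (2 * j)) := by
    intro j hj
    rw [Finset.mem_Icc] at hj
    have h2 := MA_le hj.1
    have h4 : 0 < mu ^ (2 * j) := pow_pos hmu _
    unfold zp
    rw [if_neg (by omega), inv_pow, ← div_eq_mul_inv, ← mul_div_assoc]
    apply div_le_div_of_nonneg_right _ h4.le
    linarith
  refine (Finset.sum_le_sum h1).trans ?_
  rw [← Finset.mul_sum]
  have := h n hn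
  linarith

theorem width_sum : ∃ K : ℝ, 0 ≤ K ∧ ∀ n : ℕ, 2 ≤ n →
    ∑ j ∈ Finset.Icc 2 n, zp Pool.Agent.H739K.MW j ≤ K * Real.log n := by
  obtain ⟨K, hK, h⟩ := log_sum
  refine ⟨K, hK, fun n hn => ?_⟩
  refine le_trans (le_of_eq ?_) (h n hn)
  refine Finset.sum_congr rfl fun j hj => ?_
  rw [Finset.mem_Icc] at hj
  have h1 : Pool.Agent.H739K.MW j = Pool.Agent.W870.Pg.MW j := Pool.Agent.W870.Pg.MW_eq hj.1
  unfold zp Fp
  rw [if_neg (by omega), h1]
  ring

/-- pointwise bounds from bounds of the sums -/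
theorem point_of_sum {z : ℕ → ℝ} {D : ℝ} {k0 : ℕ} (hz : Seq1 z D k0) {g : ℕ → ℝ}
    (hg : ∀ n, 2 ≤ n → 0 < g n)
    {K : ℝ} (h : ∀ n : ℕ, 2 ≤ n → ∑ j ∈ Finset.Icc 2 (2 * n), z j ≤ K * g n) :
    ∃ C : ℝ, ∀ n : ℕ, 2 ≤ n → z n ≤ C * (g n / √n) := by
  have hD := hz.D0
  -- the finitely many small lengths
  obtain ⟨B, hB⟩ : ∃ B : ℝ, ∀ n < 2 * k0 + 16, 2 ≤ n → z n ≤ B * (g n / √n) := by
    refine ⟨∑ i ∈ Finset.Icc 2 (2 * k0 + 16), z i / (g i / √i), fun n hn h2 => ?_⟩
    have hn0 : (0 : ℝ) < n := by exact_mod_cast (show 0 < n by omega)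
    have hq : ∀ i, 2 ≤ i → 0 < g i / √i := fun i hi => by
      have hi0 : (0 : ℝ) < i := by exact_mod_cast (show 0 < i by omega)
      exact div_pos (hg i hi) (Real.sqrt_pos.2 hi0)
    rw [← div_le_iff₀ (hq n h2)]
    refine Finset.single_le_sum (f := fun i : ℕ => z i / (g i / √i)) (fun i hi => ?_)
      (Finset.mem_Icc.2 ⟨h2, hn.le⟩)
    rw [Finset.mem_Icc] at hi
    exact (div_pos (hz.pos i) (hq i hi.1)).le
  refine ⟨max B (4 * (Real.exp D * K)), fun n hn => ?_⟩
  have hn0 : (0 : ℝ) < n := by exact_mod_cast (show 0 < n by omega)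
  have hs : 0 < √(n : ℝ) := Real.sqrt_pos.2 hn0
  have hq : 0 < g n / √n := div_pos (hg n hn) hs
  rcases Nat.lt_or_ge n (2 * k0 + 16) with h1 | h1
  · exact (hB n h1 hn).trans (mul_le_mul_of_nonneg_right (le_max_left _ _) hq.le)
  · refine le_trans ?_ (mul_le_mul_of_nonneg_right (le_max_right _ _) hq.le)
    have h2 := Q294.Sq2.local_mean hz n (by omega)
    have h3 : ∑ k ∈ Finset.Icc (n - Nat.sqrt n) (n + Nat.sqrt n), z k ≤ K * g n := by
      refine le_trans ?_ (h n hn)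
      refine Finset.sum_le_sum_of_subset_of_nonneg ?_ fun i _ _ => (hz.pos i).le
      refine Finset.Icc_subset_Icc ?_ ?_
      · have : 2 * Nat.sqrt n ≤ n := by
          have h5 := Nat.sqrt_le n
          rcases Nat.lt_or_ge (Nat.sqrt n) 2 with h6 | h6
          · omega
          · nlinarith
        omega
      · have := Nat.sqrt_le_self n
        omega
    have h4 : √(n : ℝ) ≤ 4 * (Nat.sqrt n : ℝ) := by
      rw [Real.sqrt_le_left (by positivity)]
      have h5 := Nat.lt_succ_sqrt n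
      have h6 : 1 ≤ Nat.sqrt n := by
        rw [Nat.le_sqrt]
        omega
      have h7 : n ≤ (4 * Nat.sqrt n) ^ 2 := by
        have : Nat.succ (Nat.sqrt n) * Nat.succ (Nat.sqrt n) = (Nat.sqrt n + 1) * (Nat.sqrt n + 1) :=
          rfl
        nlinarith
      exact_mod_cast h7
    have h5 : Real.exp D * ∑ k ∈ Finset.Icc (n - Nat.sqrt n) (n + Nat.sqrt n), z k ≤
        Real.exp D * (K * g n) := mul_le_mul_of_nonneg_left h3 (Real.exp_pos _).le
    rw [mul_div_assoc', le_div_iff₀ hs]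
    calc z n * √n ≤ z n * (4 * (Nat.sqrt n : ℝ)) :=
          mul_le_mul_of_nonneg_left h4 (hz.pos n).le
      _ = 4 * ((Nat.sqrt n : ℝ) * z n) := by ring
      _ ≤ 4 * (Real.exp D * (K * g n)) := by linarith
      _ = _ := by ring

/-- **the mean width times the count** -/
theorem width_point : ∃ C : ℝ, ∀ n : ℕ, 2 ≤ n →
    zp Pool.Agent.H739K.MW n ≤ C * (Real.log n / √n) := by
  obtain ⟨D, k0, hz⟩ := seq_width
  obtain ⟨K, hK, h⟩ := width_sum
  refine point_of_sum hz (g := fun n => Real.log n) (fun n hn => Real.log_pos (by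
    exact_mod_cast (show 1 < n by omega))) (K := 2 * K) fun n hn => ?_
  refine (h (2 * n) (by omega)).trans ?_
  have hn' : (2 : ℝ) ≤ n := by exact_mod_cast hn
  have hln : Real.log 2 ≤ Real.log n := Real.log_le_log (by norm_num) hn'
  push_cast
  rw [Real.log_mul (by norm_num) (by linarith)]
  nlinarith

/-- **the mean area times the count** -/
theorem area_point : ∃ C : ℝ, ∀ n : ℕ, 2 ≤ n → zp Pool.Agent.H739K.MA n ≤ C * √n := by
  obtain ⟨D, k0, hz⟩ := seq_area 1 le_rfl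
  obtain ⟨K, hK, h⟩ := area_sum
  have e : ∀ n, 2 ≤ n → zp (Pool.Agent.H739K.MOM.MK 1) n = zp Pool.Agent.H739K.MA n := by
    intro n hn
    unfold zp
    rw [if_neg (by omega), if_neg (by omega), Pool.Agent.H739K.MOM.MA_eq n hn]
  obtain ⟨C, hC⟩ := point_of_sum hz (g := fun n => (n : ℝ)) (fun n hn => by
    exact_mod_cast (show 0 < n by omega)) (K := 2 * K) (fun n hn => by
    rw [Finset.sum_congr rfl fun j hj => e j (Finset.mem_Icc.1 hj).1]
    refine (h (2 * n) (by omega)).trans (le_of_eq ?_)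
    push_cast
    ring)
  refine ⟨C, fun n hn => ?_⟩
  rw [← e n hn]
  refine (hC n hn).trans (le_of_eq ?_)
  rw [Real.div_sqrt]

end

end Q294.Sq4
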