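import Pool.Agent.Q294.Sq3

/-!
# Polygons on `ℤ²`: sparse lengths and partial sums
-/

set_option autoImplicit false

namespace Q294.Sq5

open Finset Filter Topology Q294.Sq1 Q294.Sq3 H981

theorem PP_pos {n : ℕ} (hn : 2 ≤ n) : 0 < PP n := Pool.Agent.H739K.PP_pos hn

theorem yp_eq (β : ℝ) {n : ℕ} (hn : 2 ≤ n) :
    yp n / (n : ℝ) ^ β = PP n / ((n : ℝ) ^ β * mu ^ (2 * n)) := by
  unfold yp
  rw [if_neg (by omega), div_div, mul_comm]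

theorem zy_eq (F : ℕ → ℝ) {n : ℕ} (hn : 2 ≤ n) : zp F n / yp n = F n := by
  unfold yp zp
  have h1 := PP_pos hn
  have h2 := H981.mu_pos
  rw [if_neg (by omega), if_neg (by omega)]
  field_simp

/-- gaps `o(√n)` -/
def Dense (S : Set ℕ) : Prop :=
  ∀ δ : ℝ, 0 < δ → ∀ᶠ n : ℕ in atTop, ∃ k ∈ S, n ≤ k ∧ (k : ℝ) ≤ n + δ * √n

theorem sparse (F : ℕ → ℝ) (hF : ∃ (D : ℝ) (k0 : ℕ), Seq1 (zp F) D k0) (S : Set ℕ) (hS : Dense S)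
    (a b β θ : ℝ) (ha : 0 < a) (hb : 0 < b)
    (h1 : Tendsto (fun n : ℕ => PP n / ((n : ℝ) ^ β * mu ^ (2 * n))) (atTop ⊓ 𝓟 S) (𝓝 a))
    (h2 : Tendsto (fun n : ℕ => F n / (n : ℝ) ^ θ) (atTop ⊓ 𝓟 S) (𝓝 b)) :
    Tendsto (fun n : ℕ => PP n / ((n : ℝ) ^ β * mu ^ (2 * n))) atTop (𝓝 a) ∧
      Tendsto (fun n : ℕ => F n / (n : ℝ) ^ θ) atTop (𝓝 b) := by
  obtain ⟨D₁, k₁, hy⟩ := seq_count
  obtain ⟨D₂, k₂, hz⟩ := hF
  have ev : ∀ᶠ n : ℕ in atTop ⊓ 𝓟 S, 2 ≤ n := (eventually_ge_atTop 2).filter_mono inf_le_left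
  have h := Q294.Sq2.joint_form hy hz S hS a b β θ ha hb
    (h1.congr' (by filter_upwards [ev] with n hn; rw [yp_eq β hn]))
    (h2.congr' (by filter_upwards [ev] with n hn; rw [zy_eq F hn]))
  exact ⟨h.1.congr' (by filter_upwards [eventually_ge_atTop 2] with n hn; rw [yp_eq β hn]),
    h.2.congr' (by filter_upwards [eventually_ge_atTop 2] with n hn; rw [zy_eq F hn])⟩

theorem bounds (F : ℕ → ℝ) (hF : ∃ (D : ℝ) (k0 : ℕ), Seq1 (zp F) D k0) (S : Set ℕ) (C : ℝ)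
    (hS : ∀ᶠ n : ℕ in atTop, ∃ k ∈ S, n ≤ k ∧ (k : ℝ) ≤ n + C * √n)
    (β θ a₁ a₂ b₁ b₂ : ℝ) (ha : 0 < a₁) (hb : 0 < b₁)
    (h1 : ∀ᶠ n : ℕ in atTop, n ∈ S → a₁ ≤ PP n / ((n : ℝ) ^ β * mu ^ (2 * n)) ∧
      PP n / ((n : ℝ) ^ β * mu ^ (2 * n)) ≤ a₂)
    (h2 : ∀ᶠ n : ℕ in atTop, n ∈ S → b₁ ≤ F n / (n : ℝ) ^ θ ∧ F n / (n : ℝ) ^ θ ≤ b₂) :
    ∃ c₁ c₂ : ℝ, 0 < c₁ ∧ ∀ᶠ n : ℕ in atTop,
      (c₁ ≤ PP n / ((n : ℝ) ^ β * mu ^ (2 * n)) ∧ PP n / ((n : ℝ) ^ β * mu ^ (2 * n)) ≤ c₂) ∧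
      (c₁ ≤ F n / (n : ℝ) ^ θ ∧ F n / (n : ℝ) ^ θ ≤ c₂) := by
  obtain ⟨D₁, k₁, hy⟩ := seq_count
  obtain ⟨D₂, k₂, hz⟩ := hF
  obtain ⟨c₁, c₂, hc, h⟩ := Q294.Sq2.joint_bounds hy hz S C hS β θ a₁ a₂ b₁ b₂ ha hb
    (by filter_upwards [h1, eventually_ge_atTop 2] with n h3 hn
        rw [yp_eq β hn]; exact h3)
    (by filter_upwards [h2, eventually_ge_atTop 2] with n h3 hn
        rw [zy_eq F hn]; exact h3)
  refine ⟨c₁, c₂, hc, ?_⟩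
  filter_upwards [h, eventually_ge_atTop 2] with n h3 hn
  rw [yp_eq β hn, zy_eq F hn] at h3
  exact h3

/-- partial sums, shifted -/
noncomputable def VV (y : ℕ → ℝ) (s : ℝ) (n : ℕ) : ℝ := ∑ j ∈ range n, y (j + 1) - 1 - s

theorem VV_succ (y : ℕ → ℝ) (s : ℝ) (n : ℕ) : VV y s (n + 1) = VV y s n + y (n + 1) := by
  unfold VV
  rw [Finset.sum_range_succ]
  ring

theorem VV_eq {y : ℕ → ℝ} (h1 : y 1 = 1) (s : ℝ) {n : ℕ} (hn : 1 ≤ n) :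
    VV y s n = ∑ j ∈ Finset.Icc 2 n, y j - s := by
  induction n with
  | zero => omega
  | succ n ih =>
    rcases Nat.eq_zero_or_pos n with rfl | hn0
    · unfold VV
      simp [h1]
    · rw [VV_succ, ih hn0, Finset.sum_Icc_succ_top (by omega)]
      ring

theorem yp_one : yp 1 = 1 := by unfold yp; rw [if_pos (by norm_num)]
theorem zp_one (F : ℕ → ℝ) : zp F 1 = 1 := by unfold zp; rw [if_pos (by norm_num)]

theorem sum_yp (n : ℕ) : ∑ j ∈ Finset.Icc 2 n, yp j =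
    ∑ j ∈ Finset.Icc 2 n, PP j / mu ^ (2 * j) := by
  refine Finset.sum_congr rfl fun j hj => ?_
  rw [Finset.mem_Icc] at hj
  unfold yp
  rw [if_neg (by omega)]

theorem sum_zp (F : ℕ → ℝ) (n : ℕ) : ∑ j ∈ Finset.Icc 2 n, zp F j =
    ∑ j ∈ Finset.Icc 2 n, PP j * F j / mu ^ (2 * j) := by
  refine Finset.sum_congr rfl fun j hj => ?_
  rw [Finset.mem_Icc] at hj
  unfold zp
  rw [if_neg (by omega)]

theorem tauber (F : ℕ → ℝ) (hF : ∃ (D : ℝ) (k0 : ℕ), Seq1 (zp F) D k0)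
    (a b β θ s r : ℝ) (ha : 0 < a) (hb : 0 < b)
    (h1 : Tendsto (fun n : ℕ => (∑ j ∈ Finset.Icc 2 n, PP j / mu ^ (2 * j) - s -
      a * ∫ t in (1 : ℝ)..(n : ℝ), t ^ β) / (n : ℝ) ^ (β + 1 / 2)) atTop (𝓝 0))
    (h2 : Tendsto (fun n : ℕ => (∑ j ∈ Finset.Icc 2 n, PP j * F j / mu ^ (2 * j) - r -
      b * ∫ t in (1 : ℝ)..(n : ℝ), t ^ (β + θ)) / (n : ℝ) ^ (β + θ + 1 / 2)) atTop (𝓝 0)) :
    Tendsto (fun n : ℕ => PP n / ((n : ℝ) ^ β * mu ^ (2 * n))) atTop (𝓝 a) ∧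
      Tendsto (fun n : ℕ => F n / (n : ℝ) ^ θ) atTop (𝓝 (b / a)) := by
  obtain ⟨D₁, k₁, hy⟩ := seq_count
  obtain ⟨D₂, k₂, hz⟩ := hF
  have h := Q294.Sq2.joint_tauber hy hz (VV_succ yp s) (VV_succ (zp F) r) ha hb
    (α := β) (β := θ)
    (h1.congr' (by
      filter_upwards [eventually_ge_atTop 1] with n hn
      rw [VV_eq yp_one s hn, sum_yp]))
    (h2.congr' (by
      filter_upwards [eventually_ge_atTop 1] with n hn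
      rw [VV_eq (zp_one F) r hn, sum_zp]))
  exact ⟨h.1.congr' (by filter_upwards [eventually_ge_atTop 2] with n hn; rw [yp_eq β hn]),
    h.2.congr' (by filter_upwards [eventually_ge_atTop 2] with n hn; rw [zy_eq F hn])⟩

theorem tauber_O (F : ℕ → ℝ) (hF : ∃ (D : ℝ) (k0 : ℕ), Seq1 (zp F) D k0)
    (a b β θ s r C : ℝ) (ha : 0 < a) (hb : 0 < b)
    (h1 : ∀ᶠ n : ℕ in atTop, |∑ j ∈ Finset.Icc 2 n, PP j / mu ^ (2 * j) - s -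
      a * ∫ t in (1 : ℝ)..(n : ℝ), t ^ β| ≤ C * (n : ℝ) ^ (β + 1 / 2))
    (h2 : ∀ᶠ n : ℕ in atTop, |∑ j ∈ Finset.Icc 2 n, PP j * F j / mu ^ (2 * j) - r -
      b * ∫ t in (1 : ℝ)..(n : ℝ), t ^ (β + θ)| ≤ C * (n : ℝ) ^ (β + θ + 1 / 2)) :
    ∃ c₁ c₂ : ℝ, 0 < c₁ ∧ ∀ᶠ n : ℕ in atTop,
      (c₁ ≤ PP n / ((n : ℝ) ^ β * mu ^ (2 * n)) ∧ PP n / ((n : ℝ) ^ β * mu ^ (2 * n)) ≤ c₂) ∧
      (c₁ ≤ F n / (n : ℝ) ^ θ ∧ F n / (n : ℝ) ^ θ ≤ c₂) := by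
  obtain ⟨D₁, k₁, hy⟩ := seq_count
  obtain ⟨D₂, k₂, hz⟩ := hF
  obtain ⟨c₁, c₂, hc, h⟩ := Q294.Sq2.joint_tauber_O hy hz (VV_succ yp s) (VV_succ (zp F) r) ha hb
    (α := β) (β := θ) (C := C)
    (by filter_upwards [h1, eventually_ge_atTop 1] with n h3 hn
        rw [VV_eq yp_one s hn, sum_yp]; exact h3)
    (by filter_upwards [h2, eventually_ge_atTop 1] with n h3 hn
        rw [VV_eq (zp_one F) r hn, sum_zp]; exact h3)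
  refine ⟨c₁, c₂, hc, ?_⟩
  filter_upwards [h, eventually_ge_atTop 2] with n h3 hn
  rw [yp_eq β hn, zy_eq F hn] at h3
  exact h3

/-- approximate logarithmic convexity at all distances, for the counts -/
theorem conv_count : ∃ (K : ℝ) (n₀ : ℕ), ∀ n j : ℕ, n₀ ≤ n → 2 * j ≤ n →
    PP n ^ 2 ≤ Real.exp (K * (j : ℝ) ^ 2 / n) * (PP (n - j) * PP (n + j)) := by
  obtain ⟨D, k0, hy⟩ := seq_count
  refine ⟨2 * D, 2 * k0 + 8, fun n j hn hj => ?_⟩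
  obtain ⟨b, hb⟩ : ∃ b, n = b + j := ⟨n - j, by omega⟩
  have h1 := iter1 hy (b := b) (by omega) (by omega) j
  have e1 : n - j = b := by omega
  have e2 : n + j = b + 2 * j := by omega
  rw [e1, e2, hb]
  have hbR : (0 : ℝ) < b := by exact_mod_cast (show 0 < b by omega)
  have hnR : (0 : ℝ) < ((b + j : ℕ) : ℝ) := by exact_mod_cast (show 0 < b + j by omega)
  have p1 := hy.pos b
  have p2 := hy.pos (b + 2 * j)
  have p3 := hy.pos (b + j)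
  have h3 : (j : ℝ) ^ 2 * (D / b) ≤ 2 * D * (j : ℝ) ^ 2 / ((b + j : ℕ) : ℝ) := by
    have h4 : ((b + j : ℕ) : ℝ) ≤ 2 * b := by exact_mod_cast (show b + j ≤ 2 * b by omega)
    rw [mul_div_assoc', div_le_div_iff₀ hbR hnR]
    have h5 : 0 ≤ (j : ℝ) ^ 2 * D := mul_nonneg (by positivity) hy.D0
    nlinarith
  have h4 : yp (b + j) ^ 2 ≤ Real.exp (2 * D * (j : ℝ) ^ 2 / ((b + j : ℕ) : ℝ)) *
      (yp b * yp (b + 2 * j)) := by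
    rw [← Real.log_le_log_iff (by positivity) (by positivity), Real.log_pow,
      Real.log_mul (Real.exp_pos _).ne' (by positivity), Real.log_exp,
      Real.log_mul p1.ne' p2.ne']
    push_cast at h3 ⊢
    linarith
  unfold yp at h4
  rw [if_neg (by omega), if_neg (by omega), if_neg (by omega), div_pow, div_mul_div_comm,
    ← pow_add, ← pow_mul, show 2 * (b + j) * 2 = 2 * b + 2 * (b + 2 * j) by ring,
    mul_div_assoc', div_le_div_iff_of_pos_right (pow_pos H981.mu_pos _)] at h4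
  exact h4

end Q294.Sq5
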