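import Pool.Agent.Q294.Sq5
import Pool.Agent.TH546.PC.Point

/-!
# Polygons on `ℤ²`: the counts from the partial sums
-/

set_option autoImplicit false

namespace Q294.Sq6

open Finset Filter Topology Q294.Sq1 Q294.Sq3 Q294.Sq5 H981

theorem int_pow {γ : ℝ} (hγ : 0 < γ) {n : ℕ} (hn : 1 ≤ n) :
    ∫ t in (1 : ℝ)..(n : ℝ), t ^ (-γ - 1) = (1 - (n : ℝ) ^ (-γ)) / γ := by
  have hn' : (1 : ℝ) ≤ n := by exact_mod_cast hn
  rw [integral_rpow (Or.inr ⟨by linarith, by
    rw [Set.uIcc_of_le hn']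
    intro h
    have := h.1
    linarith⟩)]
  rw [Real.one_rpow, show -γ - 1 + 1 = -γ by ring, div_neg, ← neg_div]
  ring_nf

/-- sparse lengths, the counts alone -/
theorem sparse_count (S : Set ℕ) (hS : Q294.Sq5.Dense S) (a β : ℝ) (ha : 0 < a)
    (h1 : Tendsto (fun n : ℕ => PP n / ((n : ℝ) ^ β * mu ^ (2 * n))) (atTop ⊓ 𝓟 S) (𝓝 a)) :
    Tendsto (fun n : ℕ => PP n / ((n : ℝ) ^ β * mu ^ (2 * n))) atTop (𝓝 a) := by
  obtain ⟨D₁, k₁, hy⟩ := seq_count
  have ev : ∀ᶠ n : ℕ in atTop ⊓ 𝓟 S, 2 ≤ n := (eventually_ge_atTop 2).filter_mono inf_le_left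
  have h := form1 hy S hS a β ha (h1.congr' (by filter_upwards [ev] with n hn; rw [yp_eq β hn]))
  exact h.congr' (by filter_upwards [eventually_ge_atTop 2] with n hn; rw [yp_eq β hn])

theorem bounds_count (S : Set ℕ) (C : ℝ)
    (hS : ∀ᶠ n : ℕ in atTop, ∃ k ∈ S, n ≤ k ∧ (k : ℝ) ≤ n + C * √n)
    (β a₁ a₂ : ℝ) (ha : 0 < a₁)
    (h1 : ∀ᶠ n : ℕ in atTop, n ∈ S → a₁ ≤ PP n / ((n : ℝ) ^ β * mu ^ (2 * n)) ∧
      PP n / ((n : ℝ) ^ β * mu ^ (2 * n)) ≤ a₂) :
    ∃ c₁ c₂ : ℝ, 0 < c₁ ∧ ∀ᶠ n : ℕ in atTop, c₁ ≤ PP n / ((n : ℝ) ^ β * mu ^ (2 * n)) ∧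
      PP n / ((n : ℝ) ^ β * mu ^ (2 * n)) ≤ c₂ := by
  obtain ⟨D₁, k₁, hy⟩ := seq_count
  obtain ⟨c₁, c₂, hc, h⟩ := bounds1 hy S C hS β a₁ a₂ ha
    (by filter_upwards [h1, eventually_ge_atTop 2] with n h3 hn
        rw [yp_eq β hn]; exact h3)
  refine ⟨c₁, c₂, hc, ?_⟩
  filter_upwards [h, eventually_ge_atTop 2] with n h3 hn
  rw [yp_eq β hn] at h3
  exact h3

theorem key_sum {a γ s : ℝ} (hγ : 0 < γ) {n : ℕ} (hn : 1 ≤ n) :
    VV yp (s - a) n - γ * a * ∫ t in (1 : ℝ)..(n : ℝ), t ^ (-γ - 1) =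
      ∑ j ∈ Finset.Icc 2 n, PP j / mu ^ (2 * j) - (s - a * (n : ℝ) ^ (-γ)) := by
  rw [VV_eq yp_one _ hn, sum_yp, int_pow hγ hn]
  field_simp
  ring

/-- the counts from the partial sums -/
theorem tauber_tail (a γ s : ℝ) (ha : 0 < a) (hγ : 0 < γ)
    (h1 : Tendsto (fun n : ℕ => (∑ j ∈ Finset.Icc 2 n, PP j / mu ^ (2 * j) -
      (s - a * (n : ℝ) ^ (-γ))) / (n : ℝ) ^ (-γ - 1 / 2)) atTop (𝓝 0)) :
    Tendsto (fun n : ℕ => PP n / ((n : ℝ) ^ (-γ - 1) * mu ^ (2 * n))) atTop (𝓝 (γ * a)) := by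
  obtain ⟨D₁, k₁, hy⟩ := seq_count
  have h := tauber_o hy (VV_succ yp (s - a)) (A := γ * a) (β := -γ - 1) (mul_pos hγ ha)
    (h1.congr' (by
      filter_upwards [eventually_ge_atTop 1] with n hn
      rw [key_sum hγ hn, show -γ - 1 + 1 / 2 = -γ - 1 / 2 by ring]))
  exact h.congr' (by filter_upwards [eventually_ge_atTop 2] with n hn; rw [yp_eq _ hn])

theorem tauber_tail_O (a γ s C : ℝ) (ha : 0 < a) (hγ : 0 < γ)
    (h1 : ∀ᶠ n : ℕ in atTop, |∑ j ∈ Finset.Icc 2 n, PP j / mu ^ (2 * j) -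
      (s - a * (n : ℝ) ^ (-γ))| ≤ C * (n : ℝ) ^ (-γ - 1 / 2)) :
    ∃ c₁ c₂ : ℝ, 0 < c₁ ∧ ∀ᶠ n : ℕ in atTop, c₁ ≤ PP n / ((n : ℝ) ^ (-γ - 1) * mu ^ (2 * n)) ∧
      PP n / ((n : ℝ) ^ (-γ - 1) * mu ^ (2 * n)) ≤ c₂ := by
  obtain ⟨D₁, k₁, hy⟩ := seq_count
  obtain ⟨c₁, c₂, hc, h⟩ := tauber_O hy (VV_succ yp (s - a)) (A := γ * a) (β := -γ - 1) (C := C)
    (mul_pos hγ ha) (by
      filter_upwards [h1, eventually_ge_atTop 1] with n h2 hn
      rw [key_sum hγ hn, show -γ - 1 + 1 / 2 = -γ - 1 / 2 by ring]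
      exact h2)
  refine ⟨c₁, c₂, hc, ?_⟩
  filter_upwards [h, eventually_ge_atTop 2] with n h3 hn
  rw [yp_eq _ hn] at h3
  exact h3

/-! ### The maxima over blocks -/

/-- a term is at most the local mean over distances `L ≤ √n` -/
theorem local_mean {Y : ℕ → ℝ} {D : ℝ} {k₀ : ℕ} (hK : Seq1 Y D k₀) (n J : ℕ)
    (hn : 2 * k₀ + 4 ≤ n) (hJn : J * J ≤ n) :
    (J : ℝ) * Y n ≤ Real.exp D * ∑ k ∈ Finset.Icc (n - J) (n + J), Y k := by
  have hD := hK.D0
  have hn0 : (0 : ℝ) < n := by exact_mod_cast (show 0 < n by omega)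
  have hJ2 : 2 * J ≤ n := by
    rcases Nat.lt_or_ge J 2 with h | h
    · omega
    · nlinarith
  have h1 : ∀ i ∈ range J, Y n * Real.exp (-D) ≤ (Y (n - (i + 1)) + Y (n + (i + 1))) / 2 := by
    intro i hi
    have hi' := mem_range.1 hi
    refine le_trans ?_ (conv1 hK (n := n) (j := i + 1) (by omega) (by omega))
    refine mul_le_mul_of_nonneg_left ?_ (hK.pos n).le
    rw [Real.exp_le_exp, neg_le_neg_iff, div_le_iff₀ hn0]
    refine mul_le_mul_of_nonneg_left ?_ hD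
    have : (i + 1) ^ 2 ≤ n := by
      calc (i + 1) ^ 2 ≤ J ^ 2 := Nat.pow_le_pow_left hi' 2
        _ = J * J := by ring
        _ ≤ n := hJn
    exact_mod_cast this
  have h2 := Finset.sum_le_sum h1
  rw [Finset.sum_const, card_range, nsmul_eq_mul, ← Finset.sum_div, Finset.sum_add_distrib] at h2
  have h3 : ∑ i ∈ range J, Y (n - (i + 1)) ≤ ∑ k ∈ Finset.Icc (n - J) (n + J), Y k := by
    rw [← Finset.sum_image (s := range J) (g := fun i => n - (i + 1)) (f := Y)]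
    · refine Finset.sum_le_sum_of_subset_of_nonneg ?_ fun i _ _ => (hK.pos i).le
      intro k hk
      rw [mem_image] at hk
      obtain ⟨i, hi, rfl⟩ := hk
      have := mem_range.1 hi
      rw [Finset.mem_Icc]
      omega
    · intro a ha b hb hab
      have := mem_range.1 ha
      have := mem_range.1 hb
      simp only at hab
      omega
  have h4 : ∑ i ∈ range J, Y (n + (i + 1)) ≤ ∑ k ∈ Finset.Icc (n - J) (n + J), Y k := by
    rw [← Finset.sum_image (s := range J) (g := fun i => n + (i + 1)) (f := Y)]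
    · refine Finset.sum_le_sum_of_subset_of_nonneg ?_ fun i _ _ => (hK.pos i).le
      intro k hk
      rw [mem_image] at hk
      obtain ⟨i, hi, rfl⟩ := hk
      have := mem_range.1 hi
      rw [Finset.mem_Icc]
      omega
    · intro a ha b hb hab
      simp only at hab
      omega
  have h5 : (J : ℝ) * (Y n * Real.exp (-D)) ≤ ∑ k ∈ Finset.Icc (n - J) (n + J), Y k := by
    linarith
  have h6 := mul_le_mul_of_nonneg_left h5 (Real.exp_pos D).le
  have h7 : Real.exp D * Real.exp (-D) = 1 := by rw [← Real.exp_add]; simp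
  calc (J : ℝ) * Y n = Real.exp D * (J * (Y n * Real.exp (-D))) := by
        rw [show Real.exp D * (J * (Y n * Real.exp (-D))) =
          (Real.exp D * Real.exp (-D)) * (J * Y n) by ring, h7, one_mul]
    _ ≤ _ := h6

/-- the windows around points of consecutive blocks cover every length at most four times -/
theorem cover {Y : ℕ → ℝ} (hY : ∀ k, 0 ≤ Y k) {n s : ℕ} (hs : 1 ≤ s) (hsn : s * s ≤ n)
    (J : ℕ → ℕ) (hJ : ∀ i < s, n + i * s ≤ J i ∧ J i ≤ n + (i + 1) * s) :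
    ∑ i ∈ range s, ∑ k ∈ Finset.Icc (J i - s) (J i + s), Y k ≤
      4 * ∑ k ∈ Finset.Icc (n - s) (2 * n + s), Y k := by
  have hsle : s ≤ n := by nlinarith
  have h1 : ∀ i ∈ range s, ∑ k ∈ Finset.Icc (J i - s) (J i + s), Y k =
      ∑ k ∈ Finset.Icc (n - s) (2 * n + s), if k ∈ Finset.Icc (J i - s) (J i + s) then Y k else 0 := by
    intro i hi
    rw [← Finset.sum_filter]
    refine Finset.sum_congr ?_ fun _ _ => rfl
    have hi' := mem_range.1 hi
    obtain ⟨a, b⟩ := hJ i hi'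
    have h2 : (i + 1) * s ≤ s * s := Nat.mul_le_mul_right s hi'
    ext k
    rw [mem_filter, Finset.mem_Icc, Finset.mem_Icc]
    constructor
    · intro h
      exact ⟨by omega, h⟩
    · intro h
      exact h.2
  rw [Finset.sum_congr rfl h1, Finset.sum_comm, Finset.mul_sum]
  refine Finset.sum_le_sum fun k _ => ?_
  rw [← Finset.sum_filter, Finset.sum_const, nsmul_eq_mul]
  refine mul_le_mul_of_nonneg_right ?_ (hY k)
  have h2 : ((range s).filter fun i => k ∈ Finset.Icc (J i - s) (J i + s)).card ≤ 4 := by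
    obtain ⟨q, hq⟩ : ∃ q, q = (k + s - n) / s := ⟨_, rfl⟩
    calc ((range s).filter fun i => k ∈ Finset.Icc (J i - s) (J i + s)).card
        ≤ (Finset.Icc (q - 3) q).card := by
          apply Finset.card_le_card
          intro i hi
          rw [mem_filter, mem_range, Finset.mem_Icc] at hi
          obtain ⟨hi1, hi2, hi3⟩ := hi
          obtain ⟨a, b⟩ := hJ i hi1
          rw [Finset.mem_Icc]
          have e1 : (i + 1) * s = i * s + s := by ring
          have e3 : (i + 4) * s = i * s + 4 * s := by ring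
          constructor
          · have : q < i + 4 := by
              rw [hq, Nat.div_lt_iff_lt_mul (by omega), e3]
              omega
            omega
          · rw [hq, Nat.le_div_iff_mul_le (by omega)]
            omega
      _ ≤ 4 := by
        rw [Nat.card_Icc]
        omega
  exact_mod_cast h2

/-- **the maxima over the blocks** -/
theorem blocks : ∃ K : ℝ, ∀ n : ℕ, 2 ≤ n → ∀ J : ℕ → ℕ,
    (∀ i < Nat.sqrt n, n + i * Nat.sqrt n ≤ J i ∧ J i ≤ n + (i + 1) * Nat.sqrt n) →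
    ∑ i ∈ range (Nat.sqrt n), PP (J i) / mu ^ (2 * J i) ≤ K / n := by
  obtain ⟨D, k₀, hy⟩ := seq_count
  obtain ⟨K, hK, ht⟩ := Pool.Agent.TH546.PC.tail
  have hD := hy.D0
  have hmu := H981.mu_pos
  have hFp : ∀ j, 2 ≤ j → Pool.Agent.W870.Pg.Fp j = yp j := by
    intro j hj
    unfold Pool.Agent.W870.Pg.Fp yp
    rw [if_neg (by omega)]
  refine ⟨(2 * k₀ + 8) ^ 2 * K + 64 * Real.exp D * K, fun n hn J hJ => ?_⟩
  have hn0 : (0 : ℝ) < n := by exact_mod_cast (show 0 < n by omega)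
  obtain ⟨s, hs⟩ : ∃ s, s = Nat.sqrt n := ⟨_, rfl⟩
  rw [← hs] at hJ ⊢
  have hs1 : 1 ≤ s := by rw [hs, Nat.le_sqrt]; omega
  have hsn : s * s ≤ n := by rw [hs]; exact Nat.sqrt_le n
  have hsn2 : n < (s + 1) * (s + 1) := by rw [hs]; exact Nat.lt_succ_sqrt n
  have hsle : s ≤ n := by nlinarith
  have hJ2 : ∀ i < s, 2 ≤ J i := fun i hi => by
    have := (hJ i hi).1
    omega
  have e : ∑ i ∈ range s, PP (J i) / mu ^ (2 * J i) = ∑ i ∈ range s, yp (J i) := by
    refine Finset.sum_congr rfl fun i hi => ?_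
    have := hJ2 i (mem_range.1 hi)
    unfold yp
    rw [if_neg (by omega)]
  rw [e]
  have hexp := Real.exp_pos D
  rcases Nat.lt_or_ge n (2 * k₀ + 8) with h1 | h1
  · -- small lengths
    have h2 : ∀ i ∈ range s, yp (J i) ≤ K := by
      intro i hi
      have h3 := hJ2 i (mem_range.1 hi)
      have h4 := ht 2 (J i) le_rfl
      have h5 : yp (J i) ≤ ∑ j ∈ Finset.Icc 2 (J i), Pool.Agent.W870.Pg.Fp j := by
        rw [← hFp _ h3]
        refine Finset.single_le_sum (f := fun j => Pool.Agent.W870.Pg.Fp j) (fun j hj => ?_)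
          (Finset.mem_Icc.2 ⟨h3, le_rfl⟩)
        rw [Finset.mem_Icc] at hj
        exact (Pool.Agent.W870.Pg.Fp_pos hj.1).le
      have h6 : K / Real.sqrt ((2 : ℕ) : ℝ) ≤ K := by
        apply div_le_self hK
        rw [Real.one_le_sqrt]
        norm_num
      linarith
    have h3 := Finset.sum_le_sum h2
    rw [Finset.sum_const, card_range, nsmul_eq_mul] at h3
    refine h3.trans ?_
    rw [le_div_iff₀ hn0]
    have h4 : (s : ℝ) ≤ 2 * k₀ + 8 := by
      have : s ≤ 2 * k₀ + 8 := by omega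
      exact_mod_cast this
    have h5 : (n : ℝ) ≤ 2 * k₀ + 8 := by
      have : n ≤ 2 * k₀ + 8 := by omega
      exact_mod_cast this
    have h6 : (s : ℝ) * n ≤ (2 * k₀ + 8) ^ 2 := by
      have := mul_le_mul h4 h5 hn0.le (by positivity)
      rw [sq]
      exact this
    have h7 : 0 ≤ 64 * Real.exp D * K := by positivity
    have h8 := mul_le_mul_of_nonneg_right h6 hK
    linarith [show (s : ℝ) * K * n = s * n * K by ring]
  · have h2 : ∀ i ∈ range s, (s : ℝ) * yp (J i) ≤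
        Real.exp D * ∑ k ∈ Finset.Icc (J i - s) (J i + s), yp k := by
      intro i hi
      have h3 := (hJ i (mem_range.1 hi)).1
      exact local_mean hy (J i) s (by omega) (by omega)
    have h3 := Finset.sum_le_sum h2
    rw [← Finset.mul_sum, ← Finset.mul_sum] at h3
    have h4 := cover (Y := yp) (fun k => (hy.pos k).le) hs1 hsn J hJ
    have hn4 : 2 * s ≤ n := by
      rcases Nat.lt_or_ge s 2 with h | h
      · omega
      · nlinarith
    have h5 : ∑ k ∈ Finset.Icc (n - s) (2 * n + s), yp k ≤ K / √((n - s : ℕ) : ℝ) := by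
      refine le_trans (le_of_eq ?_) (ht (n - s) (2 * n + s) (by omega))
      refine Finset.sum_congr rfl fun k hk => ?_
      rw [Finset.mem_Icc] at hk
      exact (hFp k (by omega)).symm
    have hs0 : (0 : ℝ) < s := by exact_mod_cast hs1
    have h6 : (s : ℝ) / 2 ≤ √((n - s : ℕ) : ℝ) := by
      apply Real.le_sqrt_of_sq_le
      have h7 : s * s ≤ 4 * (n - s) := by omega
      have h8 : (s : ℝ) * s ≤ 4 * ((n - s : ℕ) : ℝ) := by exact_mod_cast h7
      nlinarith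
    have h7 : K / √((n - s : ℕ) : ℝ) ≤ 2 * K / s := by
      rw [div_le_div_iff₀ (by linarith [show (0:ℝ) < s / 2 by positivity]) hs0]
      nlinarith
    have h8 : (s : ℝ) * ∑ i ∈ range s, yp (J i) ≤ Real.exp D * (4 * (2 * K / s)) := by
      refine h3.trans (mul_le_mul_of_nonneg_left ?_ hexp.le)
      linarith
    rw [le_div_iff₀ hn0]
    have h9 : (n : ℝ) ≤ 4 * (s * s) := by
      have : n ≤ 4 * (s * s) := by nlinarith
      exact_mod_cast this
    have h10 : 0 ≤ ∑ i ∈ range s, yp (J i) := Finset.sum_nonneg fun i _ => (hy.pos _).le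
    have h11 : (∑ i ∈ range s, yp (J i)) * n ≤ 4 * (s * (s * ∑ i ∈ range s, yp (J i))) := by
      have := mul_le_mul_of_nonneg_left h9 h10
      linarith [show (∑ i ∈ range s, yp (J i)) * (4 * ((s : ℝ) * s)) =
        4 * (s * (s * ∑ i ∈ range s, yp (J i))) by ring]
    have h12 : 4 * ((s : ℝ) * (s * ∑ i ∈ range s, yp (J i))) ≤
        4 * (s * (Real.exp D * (4 * (2 * K / s)))) := by gcongr
    have h13 : 4 * ((s : ℝ) * (Real.exp D * (4 * (2 * K / s)))) = 32 * Real.exp D * K := by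
      field_simp
      ring
    have h14 : 0 ≤ (2 * (k₀ : ℝ) + 8) ^ 2 * K := by positivity
    have h15 : 0 ≤ Real.exp D * K := by positivity
    linarith

end Q294.Sq6
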