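import Pool.Agent.Q294.Sq5
import Mathlib.MeasureTheory.Measure.Portmanteau

/-!
# Area laws of polygons: convergence from Lipschitz test functions with bounded support
-/

set_option autoImplicit false

namespace Q294.Sq7

open Finset Filter Topology MeasureTheory Q294.Sq1 Q294.Sq3 Pool.Agent.H976R2 Pool.Agent.H924P
  Pool.Agent.H739K
open scoped Classical

noncomputable section

/-- test functions -/
def Test (g : ℝ → ℝ) : Prop :=
  (∀ x y, |g x - g y| ≤ |x - y|) ∧ (∀ x, 0 ≤ g x ∧ g x ≤ 1) ∧ ∃ M : ℝ, ∀ x, M ≤ |x| → g x = 0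

/-- cutoff -/
def chi (M : ℝ) (x : ℝ) : ℝ := max 0 (min 1 (M + 1 - |x|))

theorem chi_nonneg (M x : ℝ) : 0 ≤ chi M x := le_max_left _ _
theorem chi_le (M x : ℝ) : chi M x ≤ 1 := max_le zero_le_one (min_le_left _ _)
theorem chi_one {M x : ℝ} (h : |x| ≤ M) : chi M x = 1 := by
  unfold chi
  rw [min_eq_left (by linarith), max_eq_right zero_le_one]
theorem chi_zero {M x : ℝ} (h : M + 1 ≤ |x|) : chi M x = 0 := by
  unfold chi
  rw [max_eq_left]
  exact (min_le_right _ _).trans (by linarith)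

theorem chi_lip (M x y : ℝ) : |chi M x - chi M y| ≤ |x - y| := by
  unfold chi
  have h1 : |max 0 (min 1 (M + 1 - |x|)) - max 0 (min 1 (M + 1 - |y|))| ≤
      |min 1 (M + 1 - |x|) - min 1 (M + 1 - |y|)| := by
    have := abs_max_sub_max_le_max (0 : ℝ) (min 1 (M + 1 - |x|)) 0 (min 1 (M + 1 - |y|))
    simpa using this
  have h2 : |min 1 (M + 1 - |x|) - min 1 (M + 1 - |y|)| ≤ |(M + 1 - |x|) - (M + 1 - |y|)| := by
    have := abs_min_sub_min_le_max (1 : ℝ) (M + 1 - |x|) 1 (M + 1 - |y|)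
    simpa using this
  refine h1.trans (h2.trans ?_)
  have h3 : (M + 1 - |x|) - (M + 1 - |y|) = |y| - |x| := by ring
  rw [h3]
  refine (abs_abs_sub_abs_le_abs_sub y x).trans (le_of_eq ?_)
  exact abs_sub_comm _ _

theorem chi_cont (M : ℝ) : Continuous (chi M) := by
  unfold chi
  fun_prop

theorem chi_int (ν : ProbabilityMeasure ℝ) :
    Tendsto (fun M : ℕ => ∫ x, chi M x ∂(ν : Measure ℝ)) atTop (𝓝 1) := by
  have h := tendsto_integral_of_dominated_convergence (μ := (ν : Measure ℝ))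
    (F := fun (M : ℕ) x => chi M x) (f := fun _ => (1 : ℝ)) (fun _ => 1)
    (fun M => (chi_cont M).aestronglyMeasurable) (integrable_const _)
    (fun M => Eventually.of_forall fun x => by
      rw [Real.norm_eq_abs, abs_of_nonneg (chi_nonneg _ _)]
      exact chi_le _ _)
    (Eventually.of_forall fun x => by
      refine tendsto_const_nhds.congr' ?_
      filter_upwards [eventually_ge_atTop ⌈|x|⌉₊] with M hM
      refine (chi_one ?_).symm
      exact (Nat.le_ceil _).trans (by exact_mod_cast hM))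
  simpa using h

theorem integrable_of {f : ℝ → ℝ} (hf : Continuous f) {C : ℝ} (hC : ∀ x, |f x| ≤ C)
    (μ : Measure ℝ) [IsProbabilityMeasure μ] : Integrable f μ :=
  Integrable.of_bound hf.aestronglyMeasurable C (Eventually.of_forall fun x => by
    rw [Real.norm_eq_abs]
    exact hC x)

theorem cont_of_lip {g : ℝ → ℝ} (hg : ∀ x y, |g x - g y| ≤ |x - y|) : Continuous g := by
  have : LipschitzWith 1 g := LipschitzWith.of_dist_le_mul (fun x y => by
    rw [Real.dist_eq, Real.dist_eq, NNReal.coe_one, one_mul]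
    exact hg x y)
  exact this.continuous

theorem step1 {μs : ℕ → ProbabilityMeasure ℝ} {ν : ProbabilityMeasure ℝ}
    (h : ∀ g : ℝ → ℝ, Test g → Tendsto (fun n => ∫ x, g x ∂(μs n : Measure ℝ)) atTop
      (𝓝 (∫ x, g x ∂(ν : Measure ℝ))))
    {f : ℝ → ℝ} (hf : ∀ x y, |f x - f y| ≤ |x - y|) (hf1 : ∀ x, 0 ≤ f x ∧ f x ≤ 1) :
    Tendsto (fun n => ∫ x, f x ∂(μs n : Measure ℝ)) atTop (𝓝 (∫ x, f x ∂(ν : Measure ℝ))) := by
  have hfc := cont_of_lip hf
  have hfa : ∀ x, |f x| ≤ 1 := fun x => by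
    rw [abs_of_nonneg (hf1 x).1]; exact (hf1 x).2
  rw [Metric.tendsto_atTop']
  intro ε hε
  obtain ⟨M, hM⟩ := ((chi_int ν).eventually_const_lt (show 1 - ε / 8 < 1 by linarith)).exists
  have hχt : Test (chi M) := ⟨chi_lip M, fun x => ⟨chi_nonneg _ _, chi_le _ _⟩,
    M + 1, fun x hx => chi_zero hx⟩
  have hχa : ∀ x, |chi M x| ≤ 1 := fun x => by
    rw [abs_of_nonneg (chi_nonneg _ _)]; exact chi_le _ _
  have hgt : Test (fun x => f x * chi M x / 2) := by
    refine ⟨fun x y => ?_, fun x => ?_, M + 1, fun x hx => ?_⟩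
    · have e : f x * chi M x / 2 - f y * chi M y / 2 =
          (f x * (chi M x - chi M y) + chi M y * (f x - f y)) / 2 := by ring
      rw [e, abs_div, abs_two, div_le_iff₀ (by norm_num : (0 : ℝ) < 2)]
      refine (abs_add_le _ _).trans ?_
      rw [abs_mul, abs_mul]
      have a1 := mul_le_mul (hfa x) (chi_lip M x y) (abs_nonneg _) zero_le_one
      have a2 := mul_le_mul (hχa y) (hf x y) (abs_nonneg _) zero_le_one
      linarith
    · have a1 := hf1 x
      have a2 := chi_nonneg M x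
      have a3 := chi_le M x
      constructor
      · have := mul_nonneg a1.1 a2
        linarith
      · have := mul_le_mul a1.2 a3 a2 zero_le_one
        linarith
    · simp only
      rw [chi_zero hx]
      ring
  have t1 := Metric.tendsto_atTop'.1 (h _ hgt) (ε / 8) (by positivity)
  have t2 := Metric.tendsto_atTop'.1 (h _ hχt) (ε / 8) (by positivity)
  obtain ⟨N1, h1⟩ := t1
  obtain ⟨N2, h2⟩ := t2
  refine ⟨max N1 N2, fun n hn => ?_⟩
  have g1 := h1 n (lt_of_le_of_lt (le_max_left _ _) hn)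
  have g2 := h2 n (lt_of_le_of_lt (le_max_right _ _) hn)
  rw [Real.dist_eq] at g1 g2 ⊢
  -- the difference of `f` and `f χ`
  have key : ∀ μ : Measure ℝ, IsProbabilityMeasure μ →
      |∫ x, f x ∂μ - 2 * ∫ x, f x * chi M x / 2 ∂μ| ≤ 1 - ∫ x, chi M x ∂μ := by
    intro μ hμ
    have i1 := integrable_of hfc hfa μ
    have i2 : Integrable (fun x => f x * chi M x) μ := integrable_of (hfc.mul (chi_cont M))
      (C := 1) (fun x => by
        show |f x * chi M x| ≤ 1
        rw [abs_mul]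
        have := mul_le_mul (hfa x) (hχa x) (abs_nonneg _) zero_le_one
        linarith) μ
    have i3 := integrable_of (chi_cont M) hχa μ
    have e1 : 2 * ∫ x, f x * chi M x / 2 ∂μ = ∫ x, f x * chi M x ∂μ := by
      rw [integral_div]
      ring
    rw [e1, ← integral_sub i1 i2]
    have e2 : 1 - ∫ x, chi M x ∂μ = ∫ x, (1 - chi M x) ∂μ := by
      rw [integral_sub (integrable_const _) i3]
      simp
    rw [e2]
    refine (abs_integral_le_integral_abs).trans ?_
    refine integral_mono ((i1.sub i2).abs) ((integrable_const _).sub i3) fun x => ?_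
    have a1 := hf1 x
    have a3 := chi_le M x
    show |f x - f x * chi M x| ≤ 1 - chi M x
    have e3 : f x - f x * chi M x = f x * (1 - chi M x) := by ring
    rw [e3, abs_of_nonneg (mul_nonneg a1.1 (by linarith))]
    nlinarith
  have k1 := key (μs n) inferInstance
  have k2 := key ν inferInstance
  rw [abs_le] at k1 k2
  rw [abs_lt] at g1 g2 ⊢
  constructor <;> linarith [k1.1, k1.2, k2.1, k2.2, g1.1, g1.2, g2.1, g2.2]

/-- **weak convergence from test functions with bounded support** -/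
theorem weak {μs : ℕ → ProbabilityMeasure ℝ} {ν : ProbabilityMeasure ℝ}
    (h : ∀ g : ℝ → ℝ, Test g → Tendsto (fun n => ∫ x, g x ∂(μs n : Measure ℝ)) atTop
      (𝓝 (∫ x, g x ∂(ν : Measure ℝ)))) : Tendsto μs atTop (𝓝 ν) := by
  rw [tendsto_iff_forall_lipschitz_integral_tendsto]
  rintro f ⟨C, hC⟩ ⟨Λ, hΛ⟩
  obtain ⟨M, hM⟩ : ∃ M : ℝ, M = |C| + (Λ : ℝ) + 1 := ⟨_, rfl⟩
  have hΛ0 : (0 : ℝ) ≤ Λ := Λ.2
  have hM0 : 0 < M := by rw [hM]; positivity
  have hf0 : ∀ x, |f x - f 0| ≤ M := fun x => by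
    have h2 := hC x 0
    rw [Real.dist_eq] at h2
    have := le_abs_self C
    rw [hM]; linarith
  have hfl : ∀ x y, |f x - f y| ≤ M * |x - y| := fun x y => by
    have h2 := hΛ.dist_le_mul x y
    rw [Real.dist_eq, Real.dist_eq] at h2
    have h3 : (Λ : ℝ) ≤ M := by
      rw [hM]; have := abs_nonneg C; linarith
    exact h2.trans (mul_le_mul_of_nonneg_right h3 (abs_nonneg _))
  have h2 := step1 h (f := fun x => (f x - f 0 + M) / (2 * M)) (fun x y => by
      rw [← sub_div, abs_div, abs_of_pos (show 0 < 2 * M by positivity),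
        div_le_iff₀ (show 0 < 2 * M by positivity)]
      have e : f x - f 0 + M - (f y - f 0 + M) = f x - f y := by ring
      rw [e]
      have := hfl x y
      have h3 := mul_nonneg hM0.le (abs_nonneg (x - y))
      linarith) (fun x => by
      have h3 := abs_le.1 (hf0 x)
      constructor
      · apply div_nonneg _ (by positivity)
        linarith
      · rw [div_le_one (by positivity)]
        linarith)
  have hint : ∀ μ : Measure ℝ, IsProbabilityMeasure μ → Integrable f μ := fun μ _ => by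
    refine integrable_of hΛ.continuous (C := |f 0| + M) (fun x => ?_) μ
    have : f x = f 0 + (f x - f 0) := by ring
    rw [this]
    exact (abs_add_le _ _).trans (by linarith [hf0 x])
  have hE : ∀ μ : Measure ℝ, IsProbabilityMeasure μ →
      ∫ x, f x ∂μ = 2 * M * (∫ x, (f x - f 0 + M) / (2 * M) ∂μ) + f 0 - M := fun μ hμ => by
    have e1 : ∫ x, (f x - f 0 + M) ∂μ = ∫ x, f x ∂μ - f 0 + M := by
      rw [integral_add (f := fun x => f x - f 0) (g := fun _ => M)
        ((hint μ hμ).sub (integrable_const _)) (integrable_const _),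
        integral_sub (f := f) (g := fun _ => f 0) (hint μ hμ) (integrable_const _)]
      simp
    rw [integral_div, e1]
    field_simp
    ring
  have h3 := ((h2.const_mul (2 * M)).add_const (f 0)).sub_const M
  rw [← hE ν inferInstance] at h3
  refine h3.congr fun n => ?_
  rw [hE (μs n) inferInstance]

/-! ### The laws -/

/-- the law of the area divided by `sc N` (for `N ≥ 2`) -/
def law (sc : ℕ → ℝ) (N : ℕ) : Measure ℝ :=
  if 2 ≤ N then (((KP (2 * N - 1)).card : ENNReal))⁻¹ •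
    ∑ w ∈ KP (2 * N - 1), Measure.dirac ((ar w : ℝ) / sc N) else Measure.dirac 0

instance isProb (sc : ℕ → ℝ) (N : ℕ) : IsProbabilityMeasure (law sc N) := by
  unfold law
  split_ifs with h
  · constructor
    have hc : (KP (2 * N - 1)).card ≠ 0 := by
      have := card_KP_pos h
      exact_mod_cast this.ne'
    rw [Measure.smul_apply, Measure.finsetSum_apply]
    simp only [measure_univ, Finset.sum_const, nsmul_eq_mul, mul_one, smul_eq_mul]
    exact ENNReal.inv_mul_cancel (by exact_mod_cast hc) (ENNReal.natCast_ne_top _)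
  · infer_instance

/-- the expectation -/
def EL (sc : ℕ → ℝ) (N : ℕ) (g : ℝ → ℝ) : ℝ := me N (fun f => g ((area (2 * N) f : ℝ) / sc N))

theorem EL_eq (sc : ℕ → ℝ) {N : ℕ} (hN : 2 ≤ N) (g : ℝ → ℝ) :
    EL sc N g = (∑ w ∈ KP (2 * N - 1), g ((ar w : ℝ) / sc N)) / ((KP (2 * N - 1)).card : ℝ) := by
  unfold EL
  rw [F4x.me_eq CONV_proof hN]
  congr 1
  refine Finset.sum_congr rfl fun w hw => ?_
  rw [F4x.ar_eq hN hw]

theorem integral_law (sc : ℕ → ℝ) {N : ℕ} (hN : 2 ≤ N) (g : ℝ → ℝ) :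
    ∫ x, g x ∂(law sc N) = EL sc N g := by
  unfold law
  rw [if_pos hN, integral_smul_measure, integral_finsetSum_measure, EL_eq sc hN]
  · simp only [integral_dirac, ENNReal.toReal_inv, ENNReal.toReal_natCast, smul_eq_mul]
    rw [inv_mul_eq_div]
  · intro w hw
    exact integrable_dirac (by simp)

/-- weak convergence of the area laws from the test functions -/
theorem weak_area (sc : ℕ → ℝ) (ν : Measure ℝ) [IsProbabilityMeasure ν]
    (h : ∀ g : ℝ → ℝ, Test g → Tendsto (fun n => EL sc n g) atTop (𝓝 (∫ x, g x ∂ν)))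
    (g : ℝ → ℝ) (hg : Continuous g) (hgb : ∃ C, ∀ x, |g x| ≤ C) :
    Tendsto (fun n => EL sc n g) atTop (𝓝 (∫ x, g x ∂ν)) := by
  have hw := weak (μs := fun N => ⟨law sc N, isProb sc N⟩) (ν := ⟨ν, inferInstance⟩)
    (fun g hg => by
      refine (h g hg).congr' ?_
      filter_upwards [eventually_ge_atTop 2] with n hn
      exact (integral_law sc hn g).symm)
  obtain ⟨C, hC⟩ := hgb
  have h4 := ProbabilityMeasure.tendsto_iff_forall_integral_tendsto.1 hw
    (BoundedContinuousFunction.ofNormedAddCommGroup g hg C (fun x => by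
    rw [Real.norm_eq_abs]; exact hC x))
  refine h4.congr' ?_
  filter_upwards [eventually_ge_atTop 2] with n hn
  exact integral_law sc hn g

/-! ### The weights -/

/-- the weight of a test function, with the scale `(half of the perimeter)^θ` -/
def phg (θ : ℝ) (g : ℝ → ℝ) (w : List Dir) : ℝ :=
  1 + g ((ar w : ℝ) / (((w.length : ℝ) + 1) / 2) ^ θ)

theorem rpow_step {θ N : ℝ} (hθ : 1 ≤ θ) (hN : 1 ≤ N) :
    (N + 1) ^ θ ≤ N ^ θ * (1 + 2 ^ θ / N) := by
  have hN0 : 0 < N := by linarith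
  have h1 : (1 + 1 / N) ^ θ ≤ 1 + 2 ^ θ / N := by
    have hu0 : 0 ≤ 1 / N := by positivity
    have hu1 : 1 / N ≤ 1 := by rw [div_le_one hN0]; exact hN
    have h := (convexOn_rpow hθ).2 (show (1 : ℝ) ∈ Set.Ici 0 by simp)
      (show (2 : ℝ) ∈ Set.Ici 0 by simp) (show 0 ≤ 1 - 1 / N by linarith) hu0
      (show 1 - 1 / N + 1 / N = 1 by ring)
    simp only [smul_eq_mul, Real.one_rpow, mul_one] at h
    have e : 1 - 1 / N + 1 / N * 2 = 1 + 1 / N := by ring
    rw [e] at h
    have h2 : 1 / N * 2 ^ θ = 2 ^ θ / N := by ring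
    rw [h2] at h
    linarith
  have e2 : N + 1 = N * (1 + 1 / N) := by field_simp
  rw [e2, Real.mul_rpow hN0.le (by positivity)]
  exact mul_le_mul_of_nonneg_left h1 (by positivity)

theorem nice_phg {θ : ℝ} (hθ : 1 ≤ θ) {g : ℝ → ℝ} (hg : ∀ x y, |g x - g y| ≤ |x - y|)
    (hg1 : ∀ x, 0 ≤ g x ∧ g x ≤ 1) {M : ℝ} (hM : 0 ≤ M) (hgM : ∀ x, M ≤ |x| → g x = 0)
    (m : ℕ) (hm : 3 ≤ m) : Nice (4 + 4 * (M * 2 ^ θ)) m (phg θ g) where
  one_le := fun w _ _ _ _ => by
    unfold phg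
    linarith [(hg1 ((ar w : ℝ) / (((w.length : ℝ) + 1) / 2) ^ θ)).1]
  le := fun w _ _ _ _ => by
    have h1 := (hg1 ((ar w : ℝ) / (((w.length : ℝ) + 1) / 2) ^ θ)).2
    have h5 : (3 : ℝ) ≤ m := by exact_mod_cast hm
    have h6 : (8 : ℝ) ^ 3 ≤ ((m : ℝ) + 5) ^ 3 := pow_le_pow_left₀ (by norm_num) (by linarith) 3
    unfold phg
    linarith
  lip := fun w hw1 _ hs hq => by
    obtain ⟨N, hN⟩ : ∃ N : ℝ, N = ((w.length : ℝ) + 1) / 2 := ⟨_, rfl⟩
    have hl3 : (3 : ℝ) ≤ w.length := by exact_mod_cast hm.trans hw1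
    have hN2 : 2 ≤ N := by rw [hN]; linarith
    have hN0 : 0 < N := by linarith
    have h2θ : 0 ≤ (2 : ℝ) ^ θ := by positivity
    have h1 : ∀ p ∈ adm w, |phg θ g (ins w p.1 p.2) - phg θ g w| ≤ (1 + M * 2 ^ θ) / N := by
      rintro ⟨i, e⟩ hp
      have hi : i < w.length := (Pool.Agent.H976R2.mem_adm.1 hp).1
      obtain ⟨a1, a2⟩ := AREA_proof w i e (hm.trans hw1) hs hq hp
      have b1 : (ar (ins w i e) : ℝ) ≤ ar w + 1 := by exact_mod_cast a1
      have b2 : (ar w : ℝ) ≤ ar (ins w i e) + 1 := by exact_mod_cast a2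
      have hx0 : (0 : ℝ) ≤ ar w := Nat.cast_nonneg _
      have e1 : (((ins w i e).length : ℝ) + 1) / 2 = N + 1 := by
        rw [length_ins e hi, hN]
        push_cast
        ring
      have e2 : phg θ g (ins w i e) - phg θ g w =
          g ((ar (ins w i e) : ℝ) / (N + 1) ^ θ) - g ((ar w : ℝ) / N ^ θ) := by
        unfold phg
        rw [e1, ← hN]
        ring
      show |phg θ g (ins w i e) - phg θ g w| ≤ _
      rw [e2]
      have hP : 0 < N ^ θ := by positivity
      have hP1 : 0 < (N + 1) ^ θ := by positivity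
      have hN1 : N ≤ (N + 1) ^ θ := by
        calc N ≤ (N + 1) := by linarith
          _ = (N + 1) ^ (1 : ℝ) := (Real.rpow_one _).symm
          _ ≤ (N + 1) ^ θ := Real.rpow_le_rpow_of_exponent_le (by linarith) hθ
      have c1 : |g ((ar (ins w i e) : ℝ) / (N + 1) ^ θ) - g ((ar w : ℝ) / (N + 1) ^ θ)| ≤ 1 / N := by
        refine (hg _ _).trans ?_
        rw [← sub_div, abs_div, abs_of_pos hP1, div_le_div_iff₀ hP1 hN0]
        have : |(ar (ins w i e) : ℝ) - ar w| ≤ 1 := by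
          rw [abs_le]; constructor <;> linarith
        nlinarith [abs_nonneg ((ar (ins w i e) : ℝ) - ar w)]
      have c2 : |g ((ar w : ℝ) / (N + 1) ^ θ) - g ((ar w : ℝ) / N ^ θ)| ≤ M * 2 ^ θ / N := by
        have hle : (ar w : ℝ) / (N + 1) ^ θ ≤ (ar w : ℝ) / N ^ θ := by
          apply div_le_div_of_nonneg_left hx0 hP
          exact Real.rpow_le_rpow hN0.le (by linarith) (by linarith)
        rcases le_or_gt M ((ar w : ℝ) / (N + 1) ^ θ) with h4 | h4
        · rw [hgM _ (by rw [abs_of_nonneg (by positivity)]; exact h4),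
            hgM _ (by rw [abs_of_nonneg (by positivity)]; exact h4.trans hle), sub_self, abs_zero]
          positivity
        · refine (hg _ _).trans ?_
          rw [abs_sub_comm, abs_of_nonneg (by linarith)]
          have h5 := rpow_step hθ (show 1 ≤ N by linarith)
          have h6 : (ar w : ℝ) / N ^ θ ≤ (ar w : ℝ) / (N + 1) ^ θ * (1 + 2 ^ θ / N) := by
            rw [div_mul_eq_mul_div, div_le_div_iff₀ hP hP1]
            calc (ar w : ℝ) * (N + 1) ^ θ ≤ (ar w : ℝ) * (N ^ θ * (1 + 2 ^ θ / N)) :=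
                  mul_le_mul_of_nonneg_left h5 hx0
              _ = _ := by ring
          have h7 : (ar w : ℝ) / (N + 1) ^ θ * (2 ^ θ / N) ≤ M * (2 ^ θ / N) :=
            mul_le_mul_of_nonneg_right h4.le (by positivity)
          calc (ar w : ℝ) / N ^ θ - (ar w : ℝ) / (N + 1) ^ θ ≤
                (ar w : ℝ) / (N + 1) ^ θ * (2 ^ θ / N) := by linarith
            _ ≤ M * (2 ^ θ / N) := h7
            _ = _ := by ring
      have e3 : g ((ar (ins w i e) : ℝ) / (N + 1) ^ θ) - g ((ar w : ℝ) / N ^ θ) =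
          (g ((ar (ins w i e) : ℝ) / (N + 1) ^ θ) - g ((ar w : ℝ) / (N + 1) ^ θ)) +
          (g ((ar w : ℝ) / (N + 1) ^ θ) - g ((ar w : ℝ) / N ^ θ)) := by ring
      rw [e3]
      refine (abs_add_le _ _).trans ?_
      rw [add_div]
      linarith
    refine (Finset.sum_le_sum h1).trans ?_
    rw [Finset.sum_const, nsmul_eq_mul]
    have h4 : ((adm w).card : ℝ) ≤ 2 * w.length := by exact_mod_cast AA_le w
    have h5 : ((adm w).card : ℝ) ≤ 4 * N := by rw [hN]; linarith
    have h6 : (0 : ℝ) ≤ (1 + M * 2 ^ θ) / N := by positivity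
    have h7 : 1 ≤ phg θ g w := by
      unfold phg
      linarith [(hg1 ((ar w : ℝ) / (((w.length : ℝ) + 1) / 2) ^ θ)).1]
    calc ((adm w).card : ℝ) * ((1 + M * 2 ^ θ) / N) ≤ (4 * N) * ((1 + M * 2 ^ θ) / N) :=
          mul_le_mul_of_nonneg_right h5 h6
      _ = (4 + 4 * (M * 2 ^ θ)) * 1 := by field_simp
      _ ≤ _ := mul_le_mul_of_nonneg_left h7 (by positivity)

theorem seq_law {θ : ℝ} (hθ : 1 ≤ θ) {g : ℝ → ℝ} (hg : Test g) :
    ∃ (D : ℝ) (k0 : ℕ), Seq1 (zp (fun N => 1 + EL (fun N => (N : ℝ) ^ θ) N g)) D k0 := by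
  obtain ⟨hg0, hg1, M, hgM⟩ := hg
  refine seqP (phg θ g) (4 + 4 * (|M| * 2 ^ θ)) 100 3 (by positivity) (by norm_num)
    (fun m hm => niceP_of_nice (nice_phg hθ hg0 hg1 (abs_nonneg M)
      (fun x hx => hgM x ((le_abs_self M).trans hx)) m hm)) _ 1 one_pos
    (fun N hN => by unfold zp; rw [if_pos hN]; exact one_pos) fun N hN => ?_
  unfold zp
  have hN0 : (0 : ℝ) < N := by exact_mod_cast (show 0 < N by omega)
  have hc := card_KP_pos hN
  rw [if_neg (by omega)]
  show H981.PP N * (1 + EL (fun N => (N : ℝ) ^ θ) N g) / H981.mu ^ (2 * N) = _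
  rw [EL_eq _ hN]
  have h1 := card_eq hN
  have h2 : H981.PP N = ((KP (2 * N - 1)).card : ℝ) / (4 * N) := by
    rw [h1]; field_simp
  have h3 : mm (phg θ g) (2 * N - 1) = ((KP (2 * N - 1)).card : ℝ) +
      ∑ w ∈ KP (2 * N - 1), g ((ar w : ℝ) / (N : ℝ) ^ θ) := by
    unfold mm phg
    rw [Finset.sum_add_distrib, Finset.sum_const, nsmul_eq_mul, mul_one]
    congr 1
    refine Finset.sum_congr rfl fun w hw => ?_
    have hl := F4x.len_of_KP hw
    have e : ((w.length : ℝ) + 1) / 2 = N := by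
      have : w.length + 1 = 2 * N := by omega
      have : (w.length : ℝ) + 1 = 2 * N := by exact_mod_cast this
      rw [this]
      ring
    rw [e]
  rw [h2, h3]
  generalize ((KP (2 * N - 1)).card : ℝ) = c at hc ⊢
  generalize (∑ w ∈ KP (2 * N - 1), g ((ar w : ℝ) / (N : ℝ) ^ θ)) = S
  generalize H981.mu ^ (2 * N) = M'
  have hc' := hc.ne'
  have e : c / (4 * (N : ℝ)) * (1 + S / c) = 1 * ((c + S) / (4 * N)) := by
    field_simp
  rw [e]

/-- **sparse lengths** -/
theorem law_sparse {θ : ℝ} (hθ : 1 ≤ θ) (S : Set ℕ) (hS : Q294.Sq5.Dense S) (C β : ℝ) (hC : 0 < C)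
    (ν : Measure ℝ) [IsProbabilityMeasure ν]
    (h1 : Tendsto (fun n : ℕ => H981.PP n / ((n : ℝ) ^ β * H981.mu ^ (2 * n))) (atTop ⊓ 𝓟 S) (𝓝 C))
    (h2 : ∀ g : ℝ → ℝ, Test g →
      Tendsto (fun n => EL (fun N => (N : ℝ) ^ θ) n g) (atTop ⊓ 𝓟 S) (𝓝 (∫ x, g x ∂ν))) :
    ∀ g : ℝ → ℝ, Continuous g → (∃ B, ∀ x, |g x| ≤ B) →
      Tendsto (fun n => EL (fun N => (N : ℝ) ^ θ) n g) atTop (𝓝 (∫ x, g x ∂ν)) := by
  refine weak_area _ ν fun g hg => ?_
  have hg0 : 0 ≤ ∫ x, g x ∂ν := integral_nonneg fun x => (hg.2.1 x).1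
  have h3 := (Q294.Sq5.sparse _ (seq_law hθ hg) S hS C (1 + ∫ x, g x ∂ν) β 0 hC (by linarith) h1
    (by
      have h4 := (h2 g hg).const_add 1
      refine h4.congr fun n => ?_
      rw [Real.rpow_zero, div_one])).2
  have h4 := h3.sub_const 1
  rw [add_sub_cancel_left] at h4
  refine h4.congr fun n => ?_
  rw [Real.rpow_zero, div_one]
  ring

/-- **partial sums** -/
theorem law_tauber {θ : ℝ} (hθ : 1 ≤ θ) (C β s : ℝ) (hC : 0 < C)
    (ν : Measure ℝ) [IsProbabilityMeasure ν]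
    (h1 : Tendsto (fun n : ℕ => (∑ j ∈ Finset.Icc 2 n, H981.PP j / H981.mu ^ (2 * j) - s -
      C * ∫ t in (1 : ℝ)..(n : ℝ), t ^ β) / (n : ℝ) ^ (β + 1 / 2)) atTop (𝓝 0))
    (h2 : ∀ g : ℝ → ℝ, Test g → ∃ r : ℝ,
      Tendsto (fun n : ℕ => (∑ j ∈ Finset.Icc 2 n,
        H981.PP j * EL (fun N => (N : ℝ) ^ θ) j g / H981.mu ^ (2 * j) - r -
      C * (∫ x, g x ∂ν) * ∫ t in (1 : ℝ)..(n : ℝ), t ^ β) / (n : ℝ) ^ (β + 1 / 2)) atTop (𝓝 0)) :
    ∀ g : ℝ → ℝ, Continuous g → (∃ B, ∀ x, |g x| ≤ B) →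
      Tendsto (fun n => EL (fun N => (N : ℝ) ^ θ) n g) atTop (𝓝 (∫ x, g x ∂ν)) := by
  refine weak_area _ ν fun g hg => ?_
  have hg0 : 0 ≤ ∫ x, g x ∂ν := integral_nonneg fun x => (hg.2.1 x).1
  obtain ⟨r, h3⟩ := h2 g hg
  have h4 := (Q294.Sq5.tauber (fun N => 1 + EL (fun N => (N : ℝ) ^ θ) N g) (seq_law hθ hg)
    C (C * (1 + ∫ x, g x ∂ν)) β 0 s (s + r) hC (by positivity) h1 (by
      have h5 := h1.add h3
      rw [add_zero] at h5
      refine h5.congr fun n => ?_
      rw [add_zero, ← add_div]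
      congr 1
      have e : ∑ j ∈ Finset.Icc 2 n, H981.PP j * (1 + EL (fun N => (N : ℝ) ^ θ) j g) /
          H981.mu ^ (2 * j) = ∑ j ∈ Finset.Icc 2 n, H981.PP j / H981.mu ^ (2 * j) +
          ∑ j ∈ Finset.Icc 2 n, H981.PP j * EL (fun N => (N : ℝ) ^ θ) j g / H981.mu ^ (2 * j) := by
        rw [← Finset.sum_add_distrib]
        refine Finset.sum_congr rfl fun j _ => ?_
        rw [mul_add, mul_one, add_div]
      rw [e]
      ring)).2
  rw [mul_div_cancel_left₀ _ hC.ne'] at h4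
  have h5 := h4.sub_const 1
  rw [add_sub_cancel_left] at h5
  refine h5.congr fun n => ?_
  rw [Real.rpow_zero, div_one]
  ring

end

end Q294.Sq7
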