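import Pool.Agent.Q294.Sq5
import Pool.Agent.H739K.All2

/-!
# Quadratic variation of the means over dyadic blocks of lengths
-/

set_option autoImplicit false

namespace Q294.Sq8

open Finset Filter Topology Q294.Sq1

/-! ### Abstract part -/

/-- one step -/
theorem step {u0 u1 u2 v0 v1 v2 d : ℝ} (hu0 : 0 < u0) (hu1 : 0 < u1)
    (hv0 : 0 < v0) (hv1 : 0 < v1) (hu : u1 ^ 2 ≤ u0 * u2 * (1 + d))
    (hv : v1 ^ 2 ≤ v0 * v2 * (1 + d)) :
    (u1 + v1) ^ 2 * (1 + 4 * (u1 / (u1 + v1) - u0 / (u0 + v0)) ^ 2) ≤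
      (u0 + v0) * (u2 + v2) * (1 + d) := by
  have h1 : u1 ^ 2 / u0 ≤ u2 * (1 + d) := by
    rw [div_le_iff₀ hu0]; linarith
  have h2 : v1 ^ 2 / v0 ≤ v2 * (1 + d) := by
    rw [div_le_iff₀ hv0]; linarith
  have hw0 : 0 < u0 + v0 := by positivity
  have hw1 : 0 < u1 + v1 := by positivity
  have h3 : (u0 + v0) * (u1 ^ 2 / u0 + v1 ^ 2 / v0) ≤ (u0 + v0) * (u2 + v2) * (1 + d) := by
    calc (u0 + v0) * (u1 ^ 2 / u0 + v1 ^ 2 / v0) ≤
          (u0 + v0) * (u2 * (1 + d) + v2 * (1 + d)) :=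
          mul_le_mul_of_nonneg_left (by linarith) hw0.le
      _ = _ := by ring
  refine le_trans ?_ h3
  have h4 : (u0 + v0) * (u1 ^ 2 / u0 + v1 ^ 2 / v0) = (u1 + v1) ^ 2 +
      (u1 * v0 - u0 * v1) ^ 2 / (u0 * v0) := by
    field_simp
    ring
  have h5 : (u1 + v1) ^ 2 * (1 + 4 * (u1 / (u1 + v1) - u0 / (u0 + v0)) ^ 2) =
      (u1 + v1) ^ 2 + 4 * (u1 * v0 - u0 * v1) ^ 2 / (u0 + v0) ^ 2 := by
    field_simp
    ring
  rw [h4, h5, add_le_add_iff_left, div_le_div_iff₀ (by positivity) (by positivity)]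
  have h6 : 4 * (u0 * v0) ≤ (u0 + v0) ^ 2 := by nlinarith [sq_nonneg (u0 - v0)]
  calc 4 * (u1 * v0 - u0 * v1) ^ 2 * (u0 * v0) = (u1 * v0 - u0 * v1) ^ 2 * (4 * (u0 * v0)) := by ring
    _ ≤ (u1 * v0 - u0 * v1) ^ 2 * (u0 + v0) ^ 2 :=
      mul_le_mul_of_nonneg_left h6 (sq_nonneg _)

theorem log_step {u0 u1 u2 v0 v1 v2 d : ℝ} (hu0 : 0 < u0) (hu1 : 0 < u1) (hu2 : 0 < u2)
    (hv0 : 0 < v0) (hv1 : 0 < v1) (hv2 : 0 < v2) (hd : 0 ≤ d)
    (hu : u1 ^ 2 ≤ u0 * u2 * (1 + d)) (hv : v1 ^ 2 ≤ v0 * v2 * (1 + d)) :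
    4 / 5 * (u1 / (u1 + v1) - u0 / (u0 + v0)) ^ 2 ≤
      Real.log (u0 + v0) + Real.log (u2 + v2) - 2 * Real.log (u1 + v1) + d := by
  obtain ⟨x, hx⟩ : ∃ x, x = (u1 / (u1 + v1) - u0 / (u0 + v0)) ^ 2 := ⟨_, rfl⟩
  have h := step hu0 hu1 hv0 hv1 hu hv
  rw [← hx] at h ⊢
  have hx0 : 0 ≤ x := by rw [hx]; positivity
  have hx1 : x ≤ 1 := by
    have a1 : 0 ≤ u1 / (u1 + v1) := by positivity
    have a2 : u1 / (u1 + v1) ≤ 1 := by rw [div_le_one (by positivity)]; linarith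
    have b1 : 0 ≤ u0 / (u0 + v0) := by positivity
    have b2 : u0 / (u0 + v0) ≤ 1 := by rw [div_le_one (by positivity)]; linarith
    rw [hx, sq_le_one_iff_abs_le_one, abs_le]
    constructor <;> linarith
  have h1 : Real.log ((u1 + v1) ^ 2 * (1 + 4 * x)) ≤
      Real.log ((u0 + v0) * (u2 + v2) * (1 + d)) :=
    Real.log_le_log (by positivity) h
  rw [Real.log_mul (by positivity) (by positivity), Real.log_pow,
    Real.log_mul (by positivity) (by positivity), Real.log_mul (by positivity) (by positivity)]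
    at h1
  have h2 : 4 / 5 * x ≤ Real.log (1 + 4 * x) := by
    have h3 := Real.one_sub_inv_le_log_of_pos (show 0 < 1 + 4 * x by positivity)
    refine le_trans ?_ h3
    have e : 1 - (1 + 4 * x)⁻¹ = 4 * x / (1 + 4 * x) := by field_simp; ring
    rw [e, le_div_iff₀ (by positivity)]
    nlinarith
  have h3 : Real.log (1 + d) ≤ d := by
    have := Real.log_le_sub_one_of_pos (show 0 < 1 + d by positivity)
    linarith
  push_cast at h1
  linarith

/-- **the sum of the squares of the steps over a dyadic block** -/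
theorem qv {u v : ℕ → ℝ} {n : ℕ} {D B : ℝ} (hn : 1 ≤ n) (hD : 0 ≤ D)
    (hu : ∀ k, n ≤ k → k ≤ 2 * n + 1 → 0 < u k) (hv : ∀ k, n ≤ k → k ≤ 2 * n + 1 → 0 < v k)
    (hku : ∀ k, n ≤ k → k < 2 * n → u (k + 1) ^ 2 ≤ u k * u (k + 2) * (1 + D / n))
    (hkv : ∀ k, n ≤ k → k < 2 * n → v (k + 1) ^ 2 ≤ v k * v (k + 2) * (1 + D / n))
    (hB : ∀ k, k = n ∨ k = 2 * n → |Real.log (u (k + 1) + v (k + 1)) - Real.log (u k + v k)| ≤ B) :
    ∑ k ∈ Finset.Ico n (2 * n), (u (k + 1) / (u (k + 1) + v (k + 1)) - u k / (u k + v k)) ^ 2 ≤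
      5 / 4 * (2 * B + D) := by
  have hn0 : (0 : ℝ) < n := by exact_mod_cast (show 0 < n by omega)
  obtain ⟨s, hs⟩ : ∃ s : ℕ → ℝ, s = fun k => Real.log (u (k + 1) + v (k + 1)) -
    Real.log (u k + v k) := ⟨_, rfl⟩
  have h1 : ∀ k ∈ Finset.Ico n (2 * n),
      4 / 5 * (u (k + 1) / (u (k + 1) + v (k + 1)) - u k / (u k + v k)) ^ 2 ≤
        (s (k + 1) - s k) + D / n := by
    intro k hk
    rw [Finset.mem_Ico] at hk
    have h2 := log_step (hu k hk.1 (by omega)) (hu (k + 1) (by omega) (by omega))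
      (hu (k + 2) (by omega) (by omega)) (hv k hk.1 (by omega)) (hv (k + 1) (by omega) (by omega))
      (hv (k + 2) (by omega) (by omega)) (show 0 ≤ D / n by positivity) (hku k hk.1 hk.2)
      (hkv k hk.1 hk.2)
    refine h2.trans (le_of_eq ?_)
    rw [hs]
    simp only
    have e : k + 1 + 1 = k + 2 := rfl
    rw [e]
    ring
  have h2 := Finset.sum_le_sum h1
  rw [← Finset.mul_sum, Finset.sum_add_distrib, Finset.sum_const, Nat.card_Ico,
    Finset.sum_Ico_sub s (by omega)] at h2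
  have h3 : (2 * n - n : ℕ) • (D / (n : ℝ)) = D := by
    rw [nsmul_eq_mul, show 2 * n - n = n by omega]
    field_simp
  rw [h3] at h2
  have h4 : s (2 * n) - s n ≤ 2 * B := by
    have a1 := hB (2 * n) (Or.inr rfl)
    have a2 := hB n (Or.inl rfl)
    rw [hs]
    simp only
    have b1 := (abs_le.1 a1).2
    have b2 := (abs_le.1 a2).1
    linarith
  linarith

end Q294.Sq8
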