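import Pool.Agent.Q294.Sq8

/-!
# Quadratic variation of the area laws of the polygons on `ℤ²`
-/

set_option autoImplicit false

namespace Q294.Sq9

open Finset Filter Topology Q294.Sq1 Q294.Sq3 Pool.Agent.H976R2 Pool.Agent.H924P
  Pool.Agent.H739K
open scoped Classical

noncomputable section

theorem growth : ∃ N : ℕ, ∀ n : ℕ, N ≤ n → n % 2 = 1 →
    ((KP n).card : ℝ) ≤ 2 * ((KP (n + 2)).card : ℝ) ∧
    |Real.log (((KP (n + 2)).card : ℝ) / H981.mu ^ (n + 3)) -
      Real.log (((KP n).card : ℝ) / H981.mu ^ (n + 1))| ≤ 1 := by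
  obtain ⟨C, hC⟩ := main' 0 le_rfl
  have t1 : Tendsto (fun n : ℕ => C * rt n) atTop (𝓝 0) := by
    have h7 := F0_rt_tendsto.const_mul C
    rw [mul_zero] at h7
    exact h7
  obtain ⟨N, hN⟩ := eventually_atTop.1
    (t1.eventually_lt_const (show (0 : ℝ) < 1 / 2 by norm_num))
  refine ⟨N + 3, fun n hn ho => ?_⟩
  have hμ := mu_pos
  have hμ1 : 1 ≤ H981.mu ^ 2 := one_le_pow₀ mu_one
  have g1 := hC n (fun _ => 1) (by omega) ho (fun m _ _ _ => F0_nice_one m)
  rw [F0_mm_one, F0_mm_one] at g1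
  have g2 := hN n (by omega)
  have g3 := abs_le.1 g1
  have p0 : (0 : ℝ) < ((KP n).card : ℝ) := F0_card_pos bnd n (by omega) ho
  have p2 : (0 : ℝ) < ((KP (n + 2)).card : ℝ) := F0_card_pos bnd (n + 2) (by omega) (by omega)
  obtain ⟨r, hr⟩ : ∃ r : ℝ, r = ((KP (n + 2)).card : ℝ) / (H981.mu ^ 2 * ((KP n).card : ℝ)) :=
    ⟨_, rfl⟩
  rw [← hr] at g3
  have hr1 : 1 / 2 ≤ r := by linarith
  have hr2 : r ≤ 3 / 2 := by linarith
  have e : ((KP (n + 2)).card : ℝ) = r * (H981.mu ^ 2 * ((KP n).card : ℝ)) := by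
    rw [hr]; field_simp
  constructor
  · rw [e]
    nlinarith [mul_le_mul hr1 hμ1 (by norm_num) (by linarith : (0 : ℝ) ≤ r)]
  · have e2 : ((KP (n + 2)).card : ℝ) / H981.mu ^ (n + 3) =
        r * (((KP n).card : ℝ) / H981.mu ^ (n + 1)) := by
      have h1 : H981.mu ^ 2 ≠ 0 := (pow_pos hμ 2).ne'
      rw [e, show n + 3 = 2 + (n + 1) by ring, pow_add, show r * (H981.mu ^ 2 * ((KP n).card : ℝ)) =
        H981.mu ^ 2 * (r * ((KP n).card : ℝ)) by ring, mul_div_mul_left _ _ h1, mul_div_assoc]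
    have e4 : 0 < ((KP n).card : ℝ) / H981.mu ^ (n + 1) := div_pos p0 (pow_pos hμ _)
    rw [e2, Real.log_mul (by linarith) e4.ne', add_sub_cancel_right, abs_le]
    have h1 := Real.one_sub_inv_le_log_of_pos (show 0 < r by linarith)
    have h2 := Real.log_le_sub_one_of_pos (show 0 < r by linarith)
    have h3 : r⁻¹ ≤ 2 := by
      rw [inv_le_comm₀ (by linarith) (by norm_num)]
      linarith
    constructor <;> linarith

theorem kes_unif (L B : ℝ) (hL : 0 ≤ L) (hB : 1 ≤ B) : ∃ D : ℝ, 0 ≤ D ∧ ∃ n0 : ℕ, 3 ≤ n0 ∧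
    ∀ (m : ℕ) (φ : List Dir → ℝ), n0 ≤ m → m % 2 = 1 → Nice L m φ →
      mm φ m ≤ B * ((KP m).card : ℝ) →
      mm φ (m + 2) ^ 2 ≤ mm φ m * mm φ (m + 4) * (1 + D / m) := by
  obtain ⟨D, hD, hr⟩ := RATIO_proof bnd L hL
  obtain ⟨N, hN⟩ := growth
  refine ⟨4 * B * D, by positivity, N + 3, by omega, fun m φ hm ho hφ hb => ?_⟩
  have g1 := hr m φ (by omega) ho hφ
  have g2 := (hN m (by omega) ho).1
  have g3 := (hN (m + 2) (by omega) (by omega)).1
  have e1 : m + 2 + 2 = m + 4 := by ring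
  rw [e1] at g3
  have h4 : ((KP (m + 4)).card : ℝ) ≤ mm φ (m + 4) :=
    PR.card_le_mm (niceP_of_nice hφ) (by omega) le_rfl
  have h0 : 0 < mm φ m := mm_pos (niceP_of_nice hφ) (by omega) ho
  have hm0 : (0 : ℝ) < m := by exact_mod_cast (show 0 < m by omega)
  have h5 : mm φ m ≤ 4 * B * mm φ (m + 4) := by
    have : ((KP m).card : ℝ) ≤ 4 * mm φ (m + 4) := by linarith
    calc mm φ m ≤ B * ((KP m).card : ℝ) := hb
      _ ≤ B * (4 * mm φ (m + 4)) := mul_le_mul_of_nonneg_left this (by linarith)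
      _ = _ := by ring
  have h6 : mm φ m ^ 2 ≤ 4 * B * (mm φ m * mm φ (m + 4)) := by nlinarith
  have g5 : D / m * mm φ m ^ 2 ≤ D / m * (4 * B * (mm φ m * mm φ (m + 4))) :=
    mul_le_mul_of_nonneg_left h6 (by positivity)
  calc mm φ (m + 2) ^ 2 ≤ mm φ m * mm φ (m + 4) + D / m * mm φ m ^ 2 := g1
    _ ≤ mm φ m * mm φ (m + 4) + D / m * (4 * B * (mm φ m * mm φ (m + 4))) := by linarith
    _ = _ := by ring

theorem ph_sum (g : ℝ → ℝ) (a : ℝ) (n : ℕ) :
    mm (F4x.ph g a) n + mm (F4x.ph (fun x => -g x) a) n = 4 * ((KP n).card : ℝ) := by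
  unfold mm F4x.ph
  rw [← Finset.sum_add_distrib]
  have : ∀ w ∈ KP n, (2 + g ((ar w : ℝ) / a)) + (2 + -g ((ar w : ℝ) / a)) = 4 := fun w _ => by ring
  rw [Finset.sum_congr rfl this, Finset.sum_const, nsmul_eq_mul, mul_comm]

/-- **the quadratic variation of the area laws** -/
theorem qv_area : ∃ K : ℝ, ∀ n : ℕ, 2 ≤ n → ∀ a : ℝ, (n : ℝ) / 2 ≤ a → ∀ g : ℝ → ℝ,
    (∀ x y, |g x - g y| ≤ |x - y|) → (∀ x, |g x| ≤ 1) →
    ∑ k ∈ Finset.Ico n (2 * n),
      (me (k + 1) (fun f => g ((area (2 * (k + 1)) f : ℝ) / a)) -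
        me k (fun f => g ((area (2 * k) f : ℝ) / a))) ^ 2 ≤ K := by
  obtain ⟨D, hD, n0, hn0, hk⟩ := kes_unif 40 4 (by norm_num) (by norm_num)
  obtain ⟨N, hN⟩ := growth
  refine ⟨4 * (n0 + N + 3) + 20 * (2 * 1 + D), fun n hn a ha g hg hg1 => ?_⟩
  have hμ := mu_pos
  rcases Nat.lt_or_ge n (n0 + N + 3) with h1 | h1
  · have h2 : ∀ k ∈ Finset.Ico n (2 * n),
        (me (k + 1) (fun f => g ((area (2 * (k + 1)) f : ℝ) / a)) -
          me k (fun f => g ((area (2 * k) f : ℝ) / a))) ^ 2 ≤ 4 := by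
      intro k hk
      rw [Finset.mem_Ico] at hk
      have a1 := F4x.me_abs_le CONV_proof f2a (N := k + 1) (by omega)
        (fun f => g ((area (2 * (k + 1)) f : ℝ) / a)) 1 (fun f => hg1 _)
      have a2 := F4x.me_abs_le CONV_proof f2a (N := k) (by omega)
        (fun f => g ((area (2 * k) f : ℝ) / a)) 1 (fun f => hg1 _)
      rw [abs_le] at a1 a2
      nlinarith
    have h3 := Finset.sum_le_sum h2
    rw [Finset.sum_const, Nat.card_Ico, nsmul_eq_mul, show 2 * n - n = n by omega] at h3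
    have h4 : (n : ℝ) ≤ n0 + N + 3 := by exact_mod_cast h1.le
    linarith
  · obtain ⟨u, hu⟩ : ∃ u : ℕ → ℝ, u = fun k => mm (F4x.ph g a) (2 * k - 1) / H981.mu ^ (2 * k) :=
      ⟨_, rfl⟩
    obtain ⟨v, hv⟩ : ∃ v : ℕ → ℝ, v = fun k => mm (F4x.ph (fun x => -g x) a) (2 * k - 1) /
      H981.mu ^ (2 * k) := ⟨_, rfl⟩
    have hng : ∀ x y, |(fun x => -g x) x - (fun x => -g x) y| ≤ |x - y| := fun x y => by
      have : (fun x => -g x) x - (fun x => -g x) y = -(g x - g y) := by ring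
      rw [this, abs_neg]
      exact hg x y
    have hng1 : ∀ x, |(fun x => -g x) x| ≤ 1 := fun x => by
      simp only [abs_neg]
      exact hg1 x
    have hnice : ∀ (h : ℝ → ℝ), (∀ x y, |h x - h y| ≤ |x - y|) → (∀ x, |h x| ≤ 1) →
        ∀ k, n ≤ k → k ≤ 2 * n → Nice 40 (2 * k - 1) (F4x.ph h a) := fun h hh hh1 k hk1 hk2 =>
      F4x.nice AREA_proof hn ha hh hh1 (2 * k - 1) (by omega) (by omega)
    have hpos : ∀ (h : ℝ → ℝ), (∀ x, |h x| ≤ 1) → ∀ k, 2 ≤ k → 0 < mm (F4x.ph h a) (2 * k - 1) := by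
      intro h hh1 k hk2
      have h2 : ((KP (2 * k - 1)).card : ℝ) ≤ mm (F4x.ph h a) (2 * k - 1) := by
        unfold mm F4x.ph
        rw [show ((KP (2 * k - 1)).card : ℝ) = ∑ w ∈ KP (2 * k - 1), (1 : ℝ) by simp]
        refine Finset.sum_le_sum fun w _ => ?_
        have := (abs_le.mp (hh1 ((ar w : ℝ) / a))).1
        linarith
      exact lt_of_lt_of_le (card_KP_pos hk2) h2
    have hle : ∀ (h : ℝ → ℝ), (∀ x, |h x| ≤ 1) → ∀ m, mm (F4x.ph h a) m ≤ 4 * ((KP m).card : ℝ) := by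
      intro h hh1 m
      unfold mm F4x.ph
      rw [show 4 * ((KP m).card : ℝ) = ∑ w ∈ KP m, (4 : ℝ) by
        rw [Finset.sum_const, nsmul_eq_mul, mul_comm]]
      refine Finset.sum_le_sum fun w _ => ?_
      have := (abs_le.mp (hh1 ((ar w : ℝ) / a))).2
      linarith
    have hkes : ∀ (h : ℝ → ℝ), (∀ x y, |h x - h y| ≤ |x - y|) → (∀ x, |h x| ≤ 1) →
        ∀ k, n ≤ k → k < 2 * n →
        (mm (F4x.ph h a) (2 * (k + 1) - 1) / H981.mu ^ (2 * (k + 1))) ^ 2 ≤
        (mm (F4x.ph h a) (2 * k - 1) / H981.mu ^ (2 * k)) *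
        (mm (F4x.ph h a) (2 * (k + 2) - 1) / H981.mu ^ (2 * (k + 2))) * (1 + D / n) := by
      intro h hh hh1 k hk1 hk2
      have h3 := hk (2 * k - 1) (F4x.ph h a) (by omega) (by omega)
        (hnice h hh hh1 k hk1 hk2.le) (hle h hh1 _)
      have e1 : 2 * (k + 1) - 1 = 2 * k - 1 + 2 := by omega
      have e2 : 2 * (k + 2) - 1 = 2 * k - 1 + 4 := by omega
      have p0 := hpos h hh1 k (by omega)
      have p2 := hpos h hh1 (k + 2) (by omega)
      rw [e2] at p2
      rw [e1, e2]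
      have hn0 : (0 : ℝ) < n := by exact_mod_cast (show 0 < n by omega)
      have h4 : D / ((2 * k - 1 : ℕ) : ℝ) ≤ D / n := by
        apply div_le_div_of_nonneg_left hD hn0
        exact_mod_cast (by omega)
      have h5 : mm (F4x.ph h a) (2 * k - 1 + 2) ^ 2 ≤
          mm (F4x.ph h a) (2 * k - 1) * mm (F4x.ph h a) (2 * k - 1 + 4) * (1 + D / n) :=
        h3.trans (mul_le_mul_of_nonneg_left (by linarith) (by positivity))
      have e3 : H981.mu ^ (2 * k) * H981.mu ^ (2 * (k + 2)) = (H981.mu ^ (2 * (k + 1))) ^ 2 := by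
        rw [← pow_add, ← pow_mul]
        congr 1
        ring
      rw [div_pow, div_mul_div_comm, e3, div_mul_eq_mul_div]
      exact div_le_div_of_nonneg_right h5 (by positivity)
    have hsum : ∀ k, 2 ≤ k → u k + v k = 4 * (((KP (2 * k - 1)).card : ℝ) / H981.mu ^ (2 * k)) := by
      intro k _
      rw [hu, hv]
      simp only
      rw [← add_div, ph_sum, mul_div_assoc]
    have hfrac : ∀ k, 2 ≤ k → u k / (u k + v k) =
        (2 + me k (fun f => g ((area (2 * k) f : ℝ) / a))) / 4 := by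
      intro k hk2
      rw [hsum k hk2, ← F4x.mean_ph CONV_proof f2a hk2 g a, hu]
      simp only
      have := card_KP_pos hk2
      field_simp
    have h2 := Q294.Sq8.qv (u := u) (v := v) (n := n) (D := D) (B := 1) (by omega) hD
      (fun k hk1 _ => by
        rw [hu]
        have := hpos g hg1 k (by omega)
        positivity)
      (fun k hk1 _ => by
        rw [hv]
        have := hpos _ hng1 k (by omega)
        positivity)
      (fun k hk1 hk2 => by
        rw [hu]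
        exact hkes g hg hg1 k hk1 hk2)
      (fun k hk1 hk2 => by
        rw [hv]
        exact hkes _ hng hng1 k hk1 hk2)
      (fun k hk1 => by
        have hk2 : 2 ≤ k := by omega
        rw [hsum k hk2, hsum (k + 1) (by omega)]
        have h3 := (hN (2 * k - 1) (by omega) (by omega)).2
        have e1 : 2 * (k + 1) - 1 = 2 * k - 1 + 2 := by omega
        have e2 : 2 * k - 1 + 3 = 2 * (k + 1) := by omega
        have e3 : 2 * k - 1 + 1 = 2 * k := by omega
        rw [e2, e3] at h3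
        rw [e1]
        have p1 := card_KP_pos hk2
        have p2 := card_KP_pos (N := k + 1) (by omega)
        rw [e1] at p2
        rw [Real.log_mul (by norm_num) (by positivity), Real.log_mul (by norm_num) (by positivity),
          add_sub_add_left_eq_sub]
        exact h3)
    have h3 : ∀ k ∈ Finset.Ico n (2 * n),
        (me (k + 1) (fun f => g ((area (2 * (k + 1)) f : ℝ) / a)) -
          me k (fun f => g ((area (2 * k) f : ℝ) / a))) ^ 2 =
        16 * (u (k + 1) / (u (k + 1) + v (k + 1)) - u k / (u k + v k)) ^ 2 := by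
      intro k hk
      rw [Finset.mem_Ico] at hk
      rw [hfrac k (by omega), hfrac (k + 1) (by omega)]
      ring
    rw [Finset.sum_congr rfl h3, ← Finset.mul_sum]
    have h4 : (0 : ℝ) ≤ 4 * (n0 + N + 3) := by positivity
    linarith

end

end Q294.Sq9
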