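import Pool.Agent.Q294.Ni1
import Pool.Agent.Q294.Bd3

set_option autoImplicit false

/-! Visits of the boundary of a strip by the critical crossing walk. -/

namespace Q294.Sv

open H978R2.Hex
open Pool.Agent.W818.TD
open Pool.Agent.W832.HR (Traj HP Nbr nbr_iff xc xc_ne_zero xc_ne_top xc_eq)
open Q294.Sl (Cross mass)
open Q294.Bd (w Arcs mA)
open scoped ENNReal

/-- distance -/
def sd (u v : V) : ℕ := max (u.1 - v.1).natAbs (u.2 - v.2).natAbs

/-- times of late visits of the lowest level -/
def Low (R : ℕ) (l : List V) : Set ℕ :=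
  {i | ∃ v, l[i]? = some v ∧ v.1 - v.2 = 1 ∧ ∃ k ≤ i, ∃ u, l[k]? = some u ∧ R ≤ sd u (1, 0)}

theorem low_sub (R : ℕ) (l : List V) : Low R l ⊆ Set.Iio l.length := by
  rintro i ⟨v, hv, -⟩
  exact (List.getElem?_eq_some_iff.1 hv).1

theorem low_fin (R : ℕ) (l : List V) : (Low R l).Finite :=
  (Set.finite_Iio _).subset (low_sub R l)

theorem ncard_eq {s : Set ℕ} (hs : s.Finite) : ((s.ncard : ℕ) : ℝ≥0∞) = ∑' _ : s, (1 : ℝ≥0∞) := by
  rw [ENNReal.tsum_set_one, ← hs.cast_ncard_eq]
  rfl

/-- the piece before a visit -/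
theorem head_mem {T R : ℕ} {l : List V} (hl : l ∈ Cross T) {i : ℕ} (hi : i ∈ Low R l) :
    l.take (i + 1) ∈ Arcs R := by
  obtain ⟨x, h1, h2, h3, h4, h5⟩ := hl
  obtain ⟨v, hv, hv1, k, hk, u, hu, hR⟩ := hi
  obtain ⟨hi1, hi2⟩ := List.getElem?_eq_some_iff.1 hv
  obtain ⟨hk1, hk2⟩ := List.getElem?_eq_some_iff.1 hu
  refine ⟨⟨v.2, ?_, ?_, h3.sublist (List.take_sublist _ _), h4.take _, ?_⟩, ?_⟩
  · rw [List.head?_take]
    simp [h1]
  · rw [List.getLast?_eq_getElem?, List.length_take, List.getElem?_take]
    have e : min (i + 1) l.length - 1 = i := by omega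
    rw [e, if_pos (by omega), hv, Option.some.injEq]
    apply Prod.ext
    · simp only; omega
    · rfl
  · intro q hq
    exact (h5 q (List.mem_of_mem_take hq)).1
  · refine Q294.Bd.le_ext (v := u) ?_ ?_
    · rw [← hk2, List.mem_take_iff_getElem]
      exact ⟨k, by omega, rfl⟩
    · unfold sd at hR
      simpa using hR

/-- the translation -/
def tl (c : V) (l : List V) : List V := l.map (fun v => v - c)

theorem tl_inj (c : V) : Function.Injective (tl c) :=
  List.map_injective_iff.2 (fun x y h => by simpa using h)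

/-- the piece after a visit -/
theorem tail_mem {T R : ℕ} {l : List V} (hl : l ∈ Cross T) {i : ℕ} (hi : i ∈ Low R l) :
    tl (la (l.take (i + 1)) - (1, 0)) (l.drop i) ∈ Cross T := by
  obtain ⟨⟨j, hj⟩, -⟩ := head_mem hl hi
  have hla : la (l.take (i + 1)) = (1 + j, j) := Q294.Ni.la_last hj.2.1
  obtain ⟨x, h1, h2, h3, h4, h5⟩ := hl
  obtain ⟨v, hv, hv1, -⟩ := hi
  obtain ⟨hi1, hi2⟩ := List.getElem?_eq_some_iff.1 hv
  have hvj : v = (1 + j, j) := by
    have := hj.2.1
    rw [List.getLast?_eq_getElem?, List.length_take, List.getElem?_take] at this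
    have e : min (i + 1) l.length - 1 = i := by omega
    rw [e, if_pos (by omega), hv, Option.some.injEq] at this
    exact this
  have hc : la (l.take (i + 1)) - (1, 0) = (j, j) := by
    rw [hla]
    apply Prod.ext
    · simp
    · simp
  rw [hc]
  refine ⟨x - j, ?_, ?_, ?_, ?_, ?_⟩
  · unfold tl
    rw [List.head?_map, List.head?_drop, hv, Option.map_some, hvj, Option.some.injEq]
    apply Prod.ext
    · simp
    · simp
  · unfold tl
    rw [List.getLast?_map, List.getLast?_drop, if_neg (by omega), h2, Option.map_some,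
      Option.some.injEq]
    apply Prod.ext
    · simp only [Prod.fst_sub]; ring
    · simp
  · exact (h3.sublist (List.drop_sublist _ _)).map (fun x y h => by simpa using h)
  · unfold tl
    rw [List.isChain_map]
    refine (h4.drop _).imp fun {a b} hab => ?_
    rw [nbr_iff] at hab ⊢
    have := adj_tr (c := ((-j, -j) : V)) (by simp only; omega) hab
    have e : ∀ a : V, a - (j, j) = a + (-j, -j) := by
      intro a
      apply Prod.ext
      · simp only [Prod.fst_sub, Prod.fst_add]; ring
      · simp only [Prod.snd_sub, Prod.snd_add]; ring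
    rw [e, e]
    exact this
  · intro q hq
    unfold tl at hq
    obtain ⟨a, ha, rfl⟩ := List.mem_map.1 hq
    have := h5 a (List.mem_of_mem_drop ha)
    refine ⟨?_, ?_⟩
    · simp only [Prod.fst_sub, Prod.snd_sub]
      have := this.1
      omega
    · simp only [Prod.fst_sub, Prod.snd_sub]
      have := this.2
      omega

/-- the mean number of late visits -/
theorem low_le (T R : ℕ) :
    ∑' l : Cross T, xc ^ (l.1.length - 1) * ((Low R l.1).ncard : ℝ≥0∞) ≤ mA R * mass (Cross T) := by
  have h1 : ∀ l : Cross T, xc ^ (l.1.length - 1) * ((Low R l.1).ncard : ℝ≥0∞) =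
      ∑' _ : Low R l.1, xc ^ (l.1.length - 1) := by
    intro l
    rw [ncard_eq (low_fin R l.1), ← ENNReal.tsum_mul_left]
    simp
  simp only [h1]
  rw [← ENNReal.tsum_sigma' (f := fun p : (Σ l : Cross T, Low R l.1) => xc ^ (p.1.1.length - 1))]
  have h2 : mA R * mass (Cross T) = ∑' p : Arcs R × Cross T, w p.1.1 * w p.2.1 := by
    rw [ENNReal.tsum_prod (f := fun (a : Arcs R) (b : Cross T) => w a.1 * w b.1)]
    simp only [ENNReal.tsum_mul_left]
    rw [ENNReal.tsum_mul_right]
    unfold mA mass
    rw [← tsum_subtype]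
    rfl
  rw [h2]
  let f : (Σ l : Cross T, Low R l.1) → Arcs R × Cross T := fun p =>
    (⟨p.1.1.take (p.2.1 + 1), head_mem p.1.2 p.2.2⟩,
      ⟨tl (la (p.1.1.take (p.2.1 + 1)) - (1, 0)) (p.1.1.drop p.2.1), tail_mem p.1.2 p.2.2⟩)
  have hf : Function.Injective f := by
    rintro ⟨⟨l, hl⟩, ⟨i, hi⟩⟩ ⟨⟨l', hl'⟩, ⟨i', hi'⟩⟩ h
    simp only [f, Prod.mk.injEq, Subtype.mk.injEq] at h
    obtain ⟨h1, h2⟩ := h
    have a1 : i < l.length := low_sub R l hi
    have a2 : i' < l'.length := low_sub R l' hi'
    have hii : i = i' := by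
      have := congrArg List.length h1
      rw [List.length_take, List.length_take] at this
      omega
    subst hii
    rw [← h1] at h2
    have h3 := tl_inj _ h2
    have h4 : l = l' := by
      have h5 : l.take i = l'.take i := by
        have := congrArg (List.take i) h1
        rw [List.take_take, List.take_take] at this
        simpa using this
      rw [← List.take_append_drop i l, ← List.take_append_drop i l', h3, h5]
    subst h4
    rfl
  refine le_trans (le_of_eq ?_) (ENNReal.tsum_comp_le_tsum_of_injective hf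
    (fun p => w p.1.1 * w p.2.1))
  refine tsum_congr fun p => ?_
  simp only [f, w, tl]
  rw [← pow_add]
  congr 1
  have a1 : p.2.1 < p.1.1.length := low_sub R _ p.2.2
  rw [List.length_take, List.length_map, List.length_drop]
  omega

end Q294.Sv
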