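import Pool.Agent.Q294.Sv1

set_option autoImplicit false

/-! Visits of the upper boundary of a strip by the critical crossing walk. -/

namespace Q294.Sv

open H978R2.Hex
open Pool.Agent.W818.TD
open Pool.Agent.W832.HR (Traj HP Nbr nbr_iff xc xc_ne_zero xc_ne_top xc_eq)
open Q294.Sl (Cross mass)
open Q294.Bd (w Arcs mA)
open Q294.Ni (rho)
open scoped ENNReal

/-- times of early visits of the highest level -/
def Top (T R : ℕ) (l : List V) : Set ℕ :=
  {i | ∃ v, l[i]? = some v ∧ v.1 - v.2 = 2 * T ∧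
    ∃ k, i ≤ k ∧ ∃ u e, l[k]? = some u ∧ l.getLast? = some e ∧ R ≤ sd u e}

theorem top_sub (T R : ℕ) (l : List V) : Top T R l ⊆ Set.Iio l.length := by
  rintro i ⟨v, hv, -⟩
  exact (List.getElem?_eq_some_iff.1 hv).1

theorem top_fin (T R : ℕ) (l : List V) : (Top T R l).Finite :=
  (Set.finite_Iio _).subset (top_sub T R l)

/-- the walk seen from its end -/
def fl (l : List V) : List V := (l.map (rho (la l))).reverse

theorem fl_length (l : List V) : (fl l).length = l.length := by
  unfold fl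
  simp

theorem la_cross {T : ℕ} {l : List V} (hl : l ∈ Cross T) : ∃ x : ℤ, la l = (2 * T + x, x) := by
  obtain ⟨x, hx⟩ := hl
  exact ⟨x, Q294.Ni.la_last hx.2.1⟩

theorem la_fl {T : ℕ} {l : List V} (hl : l ∈ Cross T) : la (fl l) = la l := by
  obtain ⟨x, hx⟩ := hl
  apply Q294.Ni.la_last
  unfold fl
  rw [List.getLast?_reverse, List.head?_map, hx.1, Option.map_some, Q294.Ni.rho_one]

theorem fl_mem {T : ℕ} {l : List V} (hl : l ∈ Cross T) : fl l ∈ Cross T := by
  obtain ⟨x, hla⟩ := la_cross hl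
  obtain ⟨y, h1, h2, h3, h4, h5⟩ := hl
  have h2' := h2
  rw [Q294.Ni.last_append h2] at hla
  have hxy : la l = (2 * (T : ℤ) + y, y) := Q294.Ni.la_last h2'
  refine ⟨y, ?_, ?_, ?_, ?_, ?_⟩
  · unfold fl
    rw [List.head?_reverse, List.getLast?_map, h2', Option.map_some, hxy, Q294.Ni.rho_v]
  · unfold fl
    rw [List.getLast?_reverse, List.head?_map, h1, Option.map_some, hxy, Q294.Ni.rho_one]
  · exact List.nodup_reverse.2 (h3.map (Q294.Ni.rho_inj _))
  · unfold fl
    rw [List.isChain_reverse, List.isChain_map]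
    exact h4.imp fun {a b} hab => Q294.Ni.nbr_symm (Q294.Ni.rho_nbr (by rw [hxy]; simp only; omega) hab)
  · intro q hq
    unfold fl at hq
    rw [List.mem_reverse, List.mem_map] at hq
    obtain ⟨a, ha, rfl⟩ := hq
    have b1 := (h5 a ha).1
    have b2 := (h5 a ha).2
    have b3 := Q294.Ni.rho_lev (la l) a
    rw [hxy] at b3 ⊢
    simp only at b3
    refine ⟨?_, ?_⟩
    · omega
    · omega

theorem fl_fl {T : ℕ} {l : List V} (hl : l ∈ Cross T) : fl (fl l) = l := by
  have h := la_fl hl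
  unfold fl at h ⊢
  rw [h, List.map_reverse, List.reverse_reverse, List.map_map]
  have : (rho (la l) ∘ rho (la l)) = id := by
    funext x
    exact Q294.Ni.rho_rho _ x
  rw [this, List.map_id]

theorem fl_get {l : List V} {i : ℕ} (hi : i < l.length) :
    (fl l)[l.length - 1 - i]? = (l[i]?).map (rho (la l)) := by
  unfold fl
  rw [List.getElem?_reverse (by rw [List.length_map]; omega), List.getElem?_map, List.length_map]
  congr 2
  omega

theorem sd_rho (e u : V) : sd (rho e u) (1, 0) = sd u e := by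
  unfold sd Q294.Ni.rho
  simp only [Prod.fst_sub, Prod.snd_sub, Prod.fst_add, Prod.snd_add]
  congr 1
  · omega
  · omega

/-- reversal exchanges the two boundaries -/
theorem top_le {T R : ℕ} {l : List V} (hl : l ∈ Cross T) :
    (Top T R l).ncard ≤ (Low R (fl l)).ncard := by
  obtain ⟨x, hla⟩ := la_cross hl
  refine Set.ncard_le_ncard_of_injOn (fun i => l.length - 1 - i) ?_ ?_ (low_fin _ _)
  · rintro i ⟨v, hv, hv1, k, hk, u, e, hu, he, hR⟩
    have hi1 := (List.getElem?_eq_some_iff.1 hv).1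
    have hk1 := (List.getElem?_eq_some_iff.1 hu).1
    have he' : la l = e := Q294.Ni.la_last he
    refine ⟨rho (la l) v, ?_, ?_, l.length - 1 - k, by omega, rho (la l) u, ?_, ?_⟩
    · rw [fl_get hi1, hv, Option.map_some]
    · rw [Q294.Ni.rho_lev, hla]
      simp only
      omega
    · rw [fl_get hk1, hu, Option.map_some]
    · rw [he', sd_rho]
      exact hR
  · intro i hi j hj h
    have h1 : i < l.length := top_sub T R l hi
    have h2 : j < l.length := top_sub T R l hj
    simp only at h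
    omega

/-- the mean number of early visits of the upper boundary -/
theorem top_sum_le (T R : ℕ) :
    ∑' l : Cross T, xc ^ (l.1.length - 1) * ((Top T R l.1).ncard : ℝ≥0∞) ≤ mA R * mass (Cross T) := by
  refine le_trans ?_ (low_le T R)
  let f : Cross T → Cross T := fun l => ⟨fl l.1, fl_mem l.2⟩
  have hf : Function.Bijective f := by
    constructor
    · intro l l' h
      have h1 := congrArg Subtype.val h
      simp only [f] at h1
      apply Subtype.ext
      rw [← fl_fl l.2, ← fl_fl l'.2, h1]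
    · intro l
      exact ⟨⟨fl l.1, fl_mem l.2⟩, Subtype.ext (fl_fl l.2)⟩
  rw [← Equiv.tsum_eq (Equiv.ofBijective f hf)
    (fun l : Cross T => xc ^ (l.1.length - 1) * ((Low R l.1).ncard : ℝ≥0∞))]
  refine ENNReal.tsum_le_tsum fun l => ?_
  show _ ≤ xc ^ ((fl l.1).length - 1) * ((Low R (fl l.1)).ncard : ℝ≥0∞)
  rw [fl_length]
  refine mul_le_mul_right ?_ _
  exact_mod_cast top_le l.2

/-- restriction to a domain and division -/
theorem quot {T : ℕ} {S : Set (List V)} (hS : S ⊆ Cross T) {f : List V → ℕ} {a : ℝ≥0∞}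
    (h : ∑' l : Cross T, xc ^ (l.1.length - 1) * (f l.1 : ℝ≥0∞) ≤ a * mass (Cross T)) :
    (∑' l : S, xc ^ (l.1.length - 1) * (f l.1 : ℝ≥0∞)) / mass S ≤ a * (mass (Cross T) / mass S) := by
  rw [← mul_div_assoc]
  refine ENNReal.div_le_div_right (le_trans ?_ h) _
  exact ENNReal.tsum_comp_le_tsum_of_injective (f := Set.inclusion hS)
    (Set.inclusion_injective hS) (fun l : Cross T => xc ^ (l.1.length - 1) * (f l.1 : ℝ≥0∞))

theorem mA_fin (R : ℕ) : mA R ≤ ENNReal.ofReal 3401 ∧
    (1 ≤ R → mA R ≤ ENNReal.ofReal (3400 * (R : ℝ) ^ (-(23 / 200) : ℝ))) := by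
  refine ⟨le_trans ?_ Q294.Bd.mA_zero_le, fun h => Q294.Bd.mA_le h⟩
  unfold mA
  refine ENNReal.tsum_le_tsum fun l => Set.indicator_le_indicator_of_subset ?_ (fun _ => zero_le) l
  rintro l ⟨h1, -⟩
  exact ⟨h1, Nat.zero_le _⟩

theorem prob_le {T : ℕ} {f : List V → Set ℕ} (hf : ∀ l, (f l).Finite) {a : ℝ≥0∞}
    (h : ∑' l : Cross T, xc ^ (l.1.length - 1) * ((f l.1).ncard : ℝ≥0∞) ≤ a * mass (Cross T)) :
    mass {l | l ∈ Cross T ∧ (f l).Nonempty} / mass (Cross T) ≤ a := by
  refine ENNReal.div_le_of_le_mul (le_trans ?_ h)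
  unfold mass
  refine le_trans ?_ (ENNReal.tsum_comp_le_tsum_of_injective
    (f := Set.inclusion (show {l | l ∈ Cross T ∧ (f l).Nonempty} ⊆ Cross T from fun l hl => hl.1))
    (Set.inclusion_injective _)
    (fun l : Cross T => xc ^ (l.1.length - 1) * ((f l.1).ncard : ℝ≥0∞)))
  refine ENNReal.tsum_le_tsum fun l => ?_
  have h1 : 1 ≤ (f l.1).ncard := (Set.ncard_pos (hf _)).2 l.2.2
  show xc ^ (l.1.length - 1) ≤ xc ^ (l.1.length - 1) * ((f l.1).ncard : ℝ≥0∞)
  conv_lhs => rw [← mul_one (xc ^ (l.1.length - 1))]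
  refine mul_le_mul_right ?_ _
  exact_mod_cast h1

theorem mass_gt' {T : ℕ} (hT : 1 ≤ T) : 0 < mass (Cross T) :=
  (Q294.Sl.main_mass hT).1.trans_le (Q294.Sl.main_mass hT).2.1

theorem union_le {T : ℕ} {f g : List V → Set ℕ} :
    mass {l | l ∈ Cross T ∧ ((f l).Nonempty ∨ (g l).Nonempty)} / mass (Cross T) ≤
      mass {l | l ∈ Cross T ∧ (f l).Nonempty} / mass (Cross T) +
        mass {l | l ∈ Cross T ∧ (g l).Nonempty} / mass (Cross T) := by
  rw [← ENNReal.add_div]
  refine ENNReal.div_le_div_right ?_ _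
  have e : {l | l ∈ Cross T ∧ ((f l).Nonempty ∨ (g l).Nonempty)} =
      {l | l ∈ Cross T ∧ (f l).Nonempty} ∪ {l | l ∈ Cross T ∧ (g l).Nonempty} := by
    ext l
    simp only [Set.mem_ofPred_eq, Set.mem_union]
    tauto
  unfold mass
  rw [e]
  exact ENNReal.tsum_union_le (fun l : List V => xc ^ (l.length - 1)) _ _

end Q294.Sv
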