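import Pool.Agent.Q294.Tu7

/-!
# Conditional laws at distant lengths, conditional couplings
-/

set_option autoImplicit false

namespace Q294.Ts

open Finset Filter Topology TH966.AK Q294.Av Q294.Tr
open scoped Classical

noncomputable section

variable {A : P → P → Prop} {Z : Rule A} {μ K : ℝ} {Fc : P → Finset P}

/-- the error of a probability which is not too small -/
theorem er_le_of {p K1 : ℝ} {n : ℕ} (hn : 2 ≤ n) (hK : 0 ≤ K1)
    (hp : Real.exp (-(K1 * Real.log n ^ 2)) ≤ p) :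
    er p n ≤ √(1 + K1) * (Real.log n / √(n : ℝ)) := by
  have hn0 : (0 : ℝ) < n := by exact_mod_cast (by omega : 0 < n)
  obtain ⟨l1, l2, l3⟩ := log_facts hn
  have hp0 : 0 < p := lt_of_lt_of_le (Real.exp_pos _) hp
  have h1 : Real.log (1 / p) ≤ K1 * Real.log n ^ 2 := by
    rw [one_div, Real.log_inv]
    have := Real.log_le_log (Real.exp_pos _) hp
    rw [Real.log_exp] at this
    linarith
  unfold er
  have h2 : (Real.log n ^ 2 + Real.log (1 / p)) / n ≤ (1 + K1) * (Real.log n / √(n : ℝ)) ^ 2 := by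
    rw [div_pow, Real.sq_sqrt hn0.le, ← mul_div_assoc]
    refine div_le_div_of_nonneg_right ?_ hn0.le
    linarith
  refine (Real.sqrt_le_sqrt h2).trans ?_
  rw [Real.sqrt_mul (by linarith), Real.sqrt_sq (by positivity)]

/-- **conditional laws at distant lengths** -/
theorem chainC (G : Growth Z μ K) (hF : Feat Z Fc) (f : ℕ) (hf : ∀ x, (Fc x).card ≤ f)
    (hn : ∀ x, ∀ φ ∈ Fc x, |x.1 - φ.1| ≤ 2 ∧ |x.2 - φ.2| ≤ 2) :
    ∃ ℓ₀ : ℕ, 1 ≤ ℓ₀ ∧ ∀ (m : ℕ) (K1 : ℝ), 0 ≤ K1 → ∃ R : ℝ, 0 < R ∧ ∀ (E : P → P → Prop)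
      (D : Finset P) (ℓ : ℕ)
      (c : ℤ × ℤ) (F : Fin m → ℤ × ℤ → ℤ), Tame Z E → Far E ℓ₀ → ℓ₀ ≤ ℓ →
      ∀ (S0 : Set (((List P × List (P × P)) × Set ((ℤ × ℤ) ⊕ (Fin m × ℤ))) × P)) (n : ℕ), 2 ≤ n →
      ℓ₀ * D.card ≤ n → (∀ j : ℕ, Real.exp (-(K1 * Real.log ((n + Z.s * j : ℕ) : ℝ) ^ 2)) ≤
        NG A (Sst Fc E D ℓ c F) S0 (n + Z.s * j) / (Kw A (n + Z.s * j)).card) →
      ∀ S ⊆ S0, ∀ j : ℕ,
        |NG A (Sst Fc E D ℓ c F) S (n + Z.s * j) / NG A (Sst Fc E D ℓ c F) S0 (n + Z.s * j) -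
          NG A (Sst Fc E D ℓ c F) S n / NG A (Sst Fc E D ℓ c F) S0 n| ≤
            R * j * (Real.log n / √(n : ℝ)) := by
  obtain ⟨ℓ₀, hℓ₀, hall⟩ := mainU G hF f hf hn
  refine ⟨ℓ₀, hℓ₀, fun m K1 hK1 => ?_⟩
  obtain ⟨R, hR, hmain⟩ := hall m
  have hs0 : 0 < √(1 + K1) := Real.sqrt_pos.2 (by linarith)
  refine ⟨4 * R * √(1 + K1), by positivity, fun E D ℓ c F hE hfar hℓ S0 n hn2 hD hlow S hS j => ?_⟩
  induction j with
  | zero => simp
  | succ j ih =>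
    obtain ⟨x, hx⟩ : ∃ x, x = n + Z.s * j := ⟨_, rfl⟩
    have hl := hlow j
    rw [← hx] at ih hl
    have e : n + Z.s * (j + 1) = x + Z.s := by rw [hx]; ring
    rw [e]
    have hnx : n ≤ x := by rw [hx]; omega
    have hc : (0 : ℝ) < (Kw A x).card :=
      lt_of_lt_of_le (pow_pos (by linarith [G.hμ]) x) (G.low x)
    have hpos : 0 < NG A (Sst Fc E D ℓ c F) S0 x := by
      by_contra hcon
      push Not at hcon
      have h0 := div_nonpos_of_nonpos_of_nonneg hcon hc.le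
      exact absurd (lt_of_lt_of_le (Real.exp_pos _) hl) (by linarith)
    have hall := (hmain E D ℓ c F hE hfar hℓ S0 x (by omega) (by omega) hpos).2 S hS
    have h0 := er_le_of (by omega : 2 ≤ x) hK1 hl
    have h1 := gg_le hn2 hnx
    have h2 : R * er (NG A (Sst Fc E D ℓ c F) S0 x / (Kw A x).card) x ≤
        R * (√(1 + K1) * (4 * (Real.log n / √(n : ℝ)))) :=
      mul_le_mul_of_nonneg_left (h0.trans (mul_le_mul_of_nonneg_left h1 hs0.le)) hR.le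
    have h3 := abs_sub_le (NG A (Sst Fc E D ℓ c F) S (x + Z.s) /
      NG A (Sst Fc E D ℓ c F) S0 (x + Z.s)) (NG A (Sst Fc E D ℓ c F) S x /
      NG A (Sst Fc E D ℓ c F) S0 x) (NG A (Sst Fc E D ℓ c F) S n /
      NG A (Sst Fc E D ℓ c F) S0 n)
    push_cast
    calc _ ≤ _ := h3
      _ ≤ R * (√(1 + K1) * (4 * (Real.log n / √(n : ℝ)))) +
          4 * R * √(1 + K1) * j * (Real.log n / √(n : ℝ)) := add_le_add (hall.trans h2) ih
      _ = _ := by ring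

/-- counting with a property of the last point -/
theorem card_subV (Z : Rule A) {n : ℕ} (V : P → Prop) (Q : (Fin (n + 1) → ℤ × ℤ) → Prop)
    (hQ : ∀ ω, Q ω ↔ ω ∈ wks A n ∧ V (ω (Fin.last n))) [Fintype {ω // Q ω}] (E' : List P → Prop) :
    ((univ : Finset {ω // Q ω}).filter (fun x => E' (List.ofFn x.1))).card =
      ((Kw A n).filter (fun w => E' w ∧ V (lst w))).card := by
  refine Finset.card_bij (fun x _ => List.ofFn x.1) ?_ ?_ ?_
  · intro x hx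
    rw [mem_filter] at hx ⊢
    refine ⟨?_, hx.2, ?_⟩
    · rw [← Finset.mem_coe, ← image_wks Z]
      exact ⟨x.1, ((hQ _).1 x.2).1, rfl⟩
    · rw [lst_ofFn]
      exact ((hQ _).1 x.2).2
  · intro x _ y _ hxy
    exact Subtype.ext (List.ofFn_injective hxy)
  · intro w hw
    rw [mem_filter, ← Finset.mem_coe, ← image_wks Z] at hw
    obtain ⟨⟨ω, hω, rfl⟩, h2, h3⟩ := hw
    rw [lst_ofFn] at h3
    exact ⟨⟨ω, (hQ _).2 ⟨hω, h3⟩⟩, by rw [mem_filter]; exact ⟨mem_univ _, h2⟩, rfl⟩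

theorem card_allV (Z : Rule A) {n : ℕ} (V : P → Prop) (Q : (Fin (n + 1) → ℤ × ℤ) → Prop)
    (hQ : ∀ ω, Q ω ↔ ω ∈ wks A n ∧ V (ω (Fin.last n))) [Fintype {ω // Q ω}] :
    Fintype.card {ω // Q ω} = ((Kw A n).filter (fun w => V (lst w))).card := by
  have h := card_subV Z V Q hQ (fun _ => True)
  simp only [true_and, filter_true] at h
  rw [← h, Finset.card_univ]

theorem fin_subV (Z : Rule A) {n : ℕ} (V : P → Prop) (Q : (Fin (n + 1) → ℤ × ℤ) → Prop)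
    (hQ : ∀ ω, Q ω ↔ ω ∈ wks A n ∧ V (ω (Fin.last n))) : Finite {ω // Q ω} := by
  have h : (List.ofFn '' wks A n).Finite := by
    rw [image_wks Z]
    exact (Kw A n).finite_toSet
  have h2 : (wks A n).Finite := Set.Finite.of_finite_image h List.ofFn_injective.injOn
  have h3 : {ω | Q ω} ⊆ wks A n := fun ω hω => ((hQ ω).1 hω).1
  exact h2.subset h3

/-- **the conditional coupling for one lattice** -/
theorem coupleC (G : Growth Z μ K) (hF : Feat Z Fc) (f : ℕ) (hf : ∀ x, (Fc x).card ≤ f)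
    (hn : ∀ x, ∀ φ ∈ Fc x, |x.1 - φ.1| ≤ 2 ∧ |x.2 - φ.2| ≤ 2) {pos cp : ℤ × ℤ → ℂ}
    (hadj : ∀ p q, A p q ↔ ‖pos q - pos p‖ = 1)
    (hc1 : ∀ x, ∀ φ ∈ Fc x, ‖cp φ - pos x‖ ≤ 1)
    (hbd : ∀ c x : P, ‖pos x - pos c‖ ≤ 2 * (|((c.1 - x.1 : ℤ) : ℝ)| + |((c.2 - x.2 : ℤ) : ℝ)|) + 1)
    (V : P → Prop)
    (Q : ∀ n, (Fin (n + 1) → ℤ × ℤ) → Prop) (hQ : ∀ n ω, Q n ω ↔ ω ∈ wks A n ∧ V (ω (Fin.last n))) :
    ∃ ℓ₀ : ℕ, 1 ≤ ℓ₀ ∧ ∀ (m : ℕ) (K1 : ℝ), 0 ≤ K1 → ∃ R : ℝ, 0 < R ∧ ∀ (n j : ℕ) (D : Finset (ℤ × ℤ))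
      (F : Fin m → ℤ × ℤ → ℤ), 2 ≤ n → ℓ₀ * D.card ≤ n →
      (∀ j : ℕ, Real.exp (-(K1 * Real.log ((n + Z.s * j : ℕ) : ℝ) ^ 2)) ≤
        ((Kw A (n + Z.s * j)).filter (fun w => V (lst w))).card / (Kw A (n + Z.s * j)).card) →
      ∃ q : {ω // Q n ω} → {ω // Q (n + Z.s * j) ω} → ℝ, (∀ x y, 0 ≤ q x y) ∧
        (∀ x, ∑ᶠ y, q x y = 1 / Nat.card {ω // Q n ω}) ∧
        (∀ y, ∑ᶠ x, q x y = 1 / Nat.card {ω // Q (n + Z.s * j) ω}) ∧
        1 - R * j * (Real.log n / √(n : ℝ)) ≤ ∑ᶠ x, ∑ᶠ y,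
          if (x.1 (Fin.last n) = y.1 (Fin.last (n + Z.s * j)) ∧ Com pos (4 * ℓ₀ + 4) D x.1 y.1) ∧
            ∀ u, ∀ k : ℤ, (∃ φ ∈ FF Fc (List.ofFn x.1), k ≤ F u φ) ↔
            (∃ φ ∈ FF Fc (List.ofFn y.1), k ≤ F u φ) then q x y else 0 := by
  obtain ⟨ℓ₀, hℓ₀, hall⟩ := chainC G hF f hf hn
  refine ⟨ℓ₀, hℓ₀, fun m K1 hK1 => ?_⟩
  obtain ⟨R, hR, hmain⟩ := hall m K1 hK1
  refine ⟨R, hR, fun n j D F hn2 hD hlow => ?_⟩
  obtain ⟨E, hE⟩ : ∃ E, E = EX Fc pos cp (4 * ℓ₀ + 2) := ⟨_, rfl⟩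
  have hTame : Tame Z E := by rw [hE]; exact tame_EX hF pos cp _
  have hFar : Far E ℓ₀ := by rw [hE]; exact far_EX hc1 hbd ℓ₀
  have hc : ∀ n, (0 : ℝ) < (Kw A n).card := fun n =>
    lt_of_lt_of_le (pow_pos (by linarith [G.hμ]) n) (G.low n)
  obtain ⟨T, hT⟩ : ∃ T, T = Sst Fc E (D : Set P) ℓ₀ 0 F := ⟨_, rfl⟩
  obtain ⟨S0, hS0⟩ : ∃ S0 : Set (((List P × List (P × P)) × Set ((ℤ × ℤ) ⊕ (Fin m × ℤ))) × P),
    S0 = {v | V v.2} := ⟨_, rfl⟩
  have hNG0 : ∀ k, NG A T S0 k = (((Kw A k).filter (fun w => V (lst w))).card : ℝ) := by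
    intro k
    unfold NG
    rw [hS0]
    rfl
  have hlow' : ∀ j : ℕ, Real.exp (-(K1 * Real.log ((n + Z.s * j : ℕ) : ℝ) ^ 2)) ≤
        NG A T S0 (n + Z.s * j) / (Kw A (n + Z.s * j)).card := by
    intro j
    rw [hNG0]
    exact hlow j
  have hpos : ∀ j : ℕ, 0 < NG A T S0 (n + Z.s * j) := by
    intro j
    by_contra hcon
    push Not at hcon
    have h0 := div_nonpos_of_nonpos_of_nonneg hcon (hc (n + Z.s * j)).le
    exact absurd (lt_of_lt_of_le (Real.exp_pos _) (hlow' j)) (by linarith)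
  have hch := hmain E D ℓ₀ 0 F hTame hFar le_rfl S0 n hn2 hD (by rw [← hT]; exact hlow')
  rw [← hT] at hch
  have hpos0 : 0 < NG A T S0 n := by simpa using hpos 0
  have hposj : 0 < NG A T S0 (n + Z.s * j) := hpos j
  obtain ⟨n', hn'⟩ : ∃ n', n' = n + Z.s * j := ⟨_, rfl⟩
  have hchj : ∀ S ⊆ S0, |NG A T S n' / NG A T S0 n' - NG A T S n / NG A T S0 n| ≤
      R * j * (Real.log n / √(n : ℝ)) := by
    intro S hS
    rw [hn']
    exact hch S hS j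
  rw [← hn'] at hposj
  clear hch hlow hlow' hpos
  rw [← hn']
  have : ∀ k, Finite {ω // Q k ω} := fun k => fin_subV Z V (Q k) (hQ k)
  have : ∀ k, Fintype {ω // Q k ω} := fun k => Fintype.ofFinite _
  have hcard : ∀ k, (Fintype.card {ω // Q k ω} : ℝ) = NG A T S0 k := fun k => by
    rw [card_allV Z V (Q k) (hQ k), hNG0]
  have hne : ∀ k, 0 < NG A T S0 k → Nonempty {ω // Q k ω} := fun k hk => by
    rw [← Fintype.card_pos_iff]
    rw [← hcard] at hk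
    exact_mod_cast hk
  have := hne n hpos0
  have := hne n' hposj
  have hcount : ∀ k (S : Set (((List P × List (P × P)) × Set ((ℤ × ℤ) ⊕ (Fin m × ℤ))) × P)),
      ((univ.filter (fun x : {ω // Q k ω} => (T (List.ofFn x.1), lst (List.ofFn x.1)) ∈ S)).card : ℝ)
        / Fintype.card {ω // Q k ω} = NG A T (S ∩ S0) k / NG A T S0 k := by
    intro k S
    rw [hcard, card_subV Z V (Q k) (hQ k) (fun w => (T w, lst w) ∈ S)]
    have e : ∀ S1, S1 = S ∩ S0 → NG A T S1 k =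
        (((Kw A k).filter (fun w => (T w, lst w) ∈ S ∧ V (lst w))).card : ℝ) := by
      intro S1 hS1
      have h1 : ∀ w, (T w, lst w) ∈ S1 ↔ (T w, lst w) ∈ S ∧ V (lst w) := by
        intro w
        rw [hS1, hS0]
        rfl
      unfold NG
      simp only [h1]
    rw [e _ rfl]
  obtain ⟨q, q1, q2, q3, q4⟩ := coupling
    (fun x : {ω // Q n ω} => (T (List.ofFn x.1), lst (List.ofFn x.1)))
    (fun y : {ω // Q n' ω} => (T (List.ofFn y.1), lst (List.ofFn y.1)))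
    (R * j * (Real.log n / √(n : ℝ))) (fun S => by
      rw [hcount, hcount]
      have h1 := hchj (S ∩ S0) Set.inter_subset_right
      rw [abs_sub_comm] at h1
      exact (le_abs_self _).trans h1)
  refine ⟨q, q1, fun x => ?_, fun y => ?_, ?_⟩
  · rw [finsum_eq_sum_of_fintype, q2, Nat.card_eq_fintype_card]
  · rw [finsum_eq_sum_of_fintype, q3, Nat.card_eq_fintype_card]
  · rw [finsum_eq_sum_of_fintype]
    refine q4.trans (sum_le_sum fun x _ => ?_)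
    rw [finsum_eq_sum_of_fintype]
    refine sum_le_sum fun y _ => ?_
    by_cases hxy : (T (List.ofFn x.1), lst (List.ofFn x.1)) = (T (List.ofFn y.1), lst (List.ofFn y.1))
    · rw [if_pos hxy, if_pos]
      rw [Prod.mk.injEq] at hxy
      obtain ⟨h1, h2⟩ := hxy
      rw [hT] at h1
      unfold Sst at h1
      simp only [Prod.mk.injEq] at h1
      obtain ⟨⟨hs, hcf⟩, htt⟩ := h1
      have hx := ((hQ n x.1).1 x.2).1
      have hy := ((hQ n' y.1).1 y.2).1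
      rw [lst_ofFn, lst_ofFn] at h2
      rw [conf_ofFn, conf_ofFn] at hcf
      refine ⟨⟨h2, ⟨?_, hcf⟩⟩, fun u k => ?_⟩
      · have h3 := fol_of_skel (pos := pos) (ρ := 4 * ℓ₀ + 3) (E := E) (by positivity)
          (fun c y hc => by
            rw [hE] at hc
            have := near_EX hF.2 hc1 _ c y hc
            linarith) x.1 y.1 hx.1 hy.1
          (fun i => ((hadj _ _).1 (hx.2.2 i)).le) (fun i => ((hadj _ _).1 (hy.2.2 i)).le) h2 hs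
        have e : (4 * (ℓ₀ : ℝ) + 3 + 1) = 4 * ℓ₀ + 4 := by ring
        rw [← e]
        exact h3
      · have h4 : (Sum.inr (u, k) : (ℤ × ℤ) ⊕ (Fin m × ℤ)) ∈ TT Fc (Mst ℓ₀ 0 F) (List.ofFn x.1) ↔
            (Sum.inr (u, k) : (ℤ × ℤ) ⊕ (Fin m × ℤ)) ∈ TT Fc (Mst ℓ₀ 0 F) (List.ofFn y.1) := by
          rw [htt]
        exact h4
    · rw [if_neg hxy]
      split_ifs
      · exact q1 x y
      · exact le_rfl

end

end Q294.Ts
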