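import Pool.Agent.Q294.Tp1
import Pool.Agent.TH508.LT.Fin2

/-!
# Self-avoiding polygons of the square lattice as closed walks
-/

set_option autoImplicit false

namespace Q294.Tp

open Finset Filter Topology TH966.AK Q294.Av Q294.Tr Q294.Ts
open scoped Classical

noncomputable section

/-- a closed nearest-neighbour loop on `ℤ²` with `m` steps, rooted at the origin and oriented,
that visits no vertex twice -/
def IsLoop (m : ℕ) (f : ZMod m → ℤ × ℤ) : Prop :=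
  f 0 = 0 ∧ Function.Injective f ∧
    ∀ i : ZMod m, |(f (i + 1)).1 - (f i).1| + |(f (i + 1)).2 - (f i).2| = 1

/-- neighbours of the origin -/
def V1 (x : P) : Prop := |x.1| + |x.2| = 1

theorem A_abs (p q : P) : Q78.UR.Sq.A p q ↔ |q.1 - p.1| + |q.2 - p.2| = 1 := by
  rw [Q78.UR.Sq.A_iff]
  constructor
  · rintro (⟨h1, h2⟩ | ⟨h1, h2⟩ | ⟨h1, h2⟩ | ⟨h1, h2⟩)
    · rw [h1, h2]; simp
    · rw [h1, h2]; simp
    · rw [h1, h2]; simp
    · rw [h1, h2]; simp
  · intro h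
    rcases abs_cases (q.1 - p.1) with ⟨h1, h2⟩ | ⟨h1, h2⟩ <;>
      rcases abs_cases (q.2 - p.2) with ⟨h3, h4⟩ | ⟨h3, h4⟩ <;> omega

theorem loop_iff (n : ℕ) (f : Fin (n + 1) → ℤ × ℤ) :
    IsLoop (n + 1) f ↔ f ∈ wks Q78.UR.Sq.A n ∧ V1 (f (Fin.last n)) := by
  have key : (∀ i : Fin (n + 1), |(f (i + 1)).1 - (f i).1| + |(f (i + 1)).2 - (f i).2| = 1) ↔
      (∀ i : Fin n, Q78.UR.Sq.A (f i.castSucc) (f i.succ)) ∧
        |(f 0).1 - (f (Fin.last n)).1| + |(f 0).2 - (f (Fin.last n)).2| = 1 := by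
    constructor
    · intro h
      refine ⟨fun i => ?_, ?_⟩
      · rw [A_abs, ← Fin.coeSucc_eq_succ]
        exact h i.castSucc
      · have := h (Fin.last n)
        rwa [Fin.last_add_one] at this
    · rintro ⟨h1, h2⟩ i
      refine Fin.lastCases ?_ (fun i => ?_) i
      · rw [Fin.last_add_one]
        exact h2
      · rw [Fin.coeSucc_eq_succ]
        exact (A_abs _ _).1 (h1 i)
  constructor
  · rintro ⟨h0, h1, h2⟩
    have h3 := key.1 h2
    refine ⟨⟨h0, h1, h3.1⟩, ?_⟩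
    have h4 := h3.2
    have h0' : f 0 = 0 := h0
    rw [h0'] at h4
    unfold V1
    simpa using h4
  · rintro ⟨⟨h0, h1, h2⟩, h3⟩
    refine ⟨h0, h1, ?_⟩
    refine key.2 ⟨h2, ?_⟩
    rw [h0]
    unfold V1 at h3
    simpa using h3

/-- closed walks and loops -/
theorem card_closed (n : ℕ) : ((Kw Q78.UR.Sq.A n).filter (fun w => V1 (lst w))).card =
    Nat.card {f : ZMod (n + 1) → ℤ × ℤ // IsLoop (n + 1) f} := by
  have hQ : ∀ ω : Fin (n + 1) → ℤ × ℤ, IsLoop (n + 1) ω ↔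
      ω ∈ wks Q78.UR.Sq.A n ∧ V1 (ω (Fin.last n)) := loop_iff n
  have h1 : Finite {ω : Fin (n + 1) → ℤ × ℤ // IsLoop (n + 1) ω} :=
    fin_subV Q78.UR.Sq.rule V1 (fun ω => IsLoop (n + 1) ω) hQ
  have : Fintype {ω : Fin (n + 1) → ℤ × ℤ // IsLoop (n + 1) ω} := Fintype.ofFinite _
  have h2 := card_allV Q78.UR.Sq.rule V1 (fun ω : Fin (n + 1) → ℤ × ℤ => IsLoop (n + 1) ω) hQ
  rw [← h2, ← Nat.card_eq_fintype_card]
  rfl

/-- **the closing probability is not too small** -/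
theorem closed_low : ∃ K1 : ℝ, 0 ≤ K1 ∧ ∀ N : ℕ, 2 ≤ N →
    Real.exp (-(K1 * Real.log ((2 * N - 1 : ℕ) : ℝ) ^ 2)) ≤
      ((Kw Q78.UR.Sq.A (2 * N - 1)).filter (fun w => V1 (lst w))).card /
        (Kw Q78.UR.Sq.A (2 * N - 1)).card := by
  obtain ⟨K, hK, hP⟩ := Pool.Agent.TH508.LT.sq_PP2
  obtain ⟨K', G⟩ := Q78.UR.Sq.growth
  refine ⟨K + K', by linarith [G.hK], fun N hN => ?_⟩
  obtain ⟨n, hn⟩ : ∃ n, n = 2 * N - 1 := ⟨_, rfl⟩
  have h2N : 2 * N = n + 1 := by omega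
  rw [← hn]
  have hNn : N ≤ n := by omega
  have hN0 : (0 : ℝ) < N := by exact_mod_cast (by omega : 0 < N)
  obtain ⟨l1, -, -⟩ := log_facts hN
  have hl0 : 0 ≤ Real.log N := Real.log_nonneg (by exact_mod_cast (by omega : 1 ≤ N))
  have hl : Real.log N ≤ Real.log n := Real.log_le_log hN0 (by exact_mod_cast hNn)
  have h1 := (hP N hN).1
  have h2 := G.up n (by omega)
  have hμ0 : 0 < H981.mu := by linarith [G.hμ]
  have hc : (0 : ℝ) < (Kw Q78.UR.Sq.A n).card :=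
    lt_of_lt_of_le (pow_pos hμ0 n) (G.low n)
  have h3 : H981.PP N ≤ (((Kw Q78.UR.Sq.A n).filter (fun w => V1 (lst w))).card : ℝ) := by
    rw [card_closed]
    have e : H981.PP N = (Nat.card {f : ZMod (2 * N) → ℤ × ℤ // IsLoop (2 * N) f} : ℝ) /
        (4 * (N : ℝ)) := rfl
    rw [e, ← h2N]
    rw [div_le_iff₀ (by positivity)]
    have h4 : (1 : ℝ) ≤ 4 * N := by
      have : (2 : ℝ) ≤ N := by exact_mod_cast hN
      linarith
    have h5 : (0 : ℝ) ≤ (Nat.card {f : ZMod (2 * N) → ℤ × ℤ // IsLoop (2 * N) f} : ℝ) :=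
      Nat.cast_nonneg _
    nlinarith
  rw [le_div_iff₀ hc]
  refine le_trans ?_ h3
  refine le_trans ?_ h1
  calc Real.exp (-((K + K') * Real.log n ^ 2)) * (Kw Q78.UR.Sq.A n).card
      ≤ Real.exp (-((K + K') * Real.log n ^ 2)) * (H981.mu ^ n * Real.exp (K' * Real.log n ^ 2)) :=
        mul_le_mul_of_nonneg_left h2 (Real.exp_pos _).le
    _ = H981.mu ^ n * Real.exp (-(K * Real.log n ^ 2)) := by
        rw [mul_left_comm, ← Real.exp_add]
        congr 2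
        ring
    _ ≤ H981.mu ^ (2 * N) * Real.exp (-(K * Real.log N ^ 2)) := by
        refine mul_le_mul (pow_le_pow_right₀ G.hμ (by omega)) ?_ (Real.exp_pos _).le
          (pow_pos hμ0 _).le
        rw [Real.exp_le_exp]
        have : Real.log N ^ 2 ≤ Real.log n ^ 2 := pow_le_pow_left₀ hl0 hl 2
        nlinarith

end

end Q294.Tp
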