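import Pool.Agent.Q294.Tp2

/-!
# Polygons of different lengths: couplings and conditional laws
-/

set_option autoImplicit false

namespace Q294.Tp

open Finset Filter Topology TH966.AK Q294.Av Q294.Tr Q294.Ts

noncomputable section

/-- The loops with `m` steps. -/
abbrev Loop (m : ℕ) : Type := {f : ZMod m → ℤ × ℤ // IsLoop m f}

/-- `x` and `y` differ by at most `r` in each coordinate. -/
def Near (r : ℕ) (x y : ℤ × ℤ) : Prop := |x.1 - y.1| ≤ r ∧ |x.2 - y.2| ≤ r

/-- The loops `f` (with `m` steps) and `g` (with `m'` steps) pass through common vertices in the same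
order, from the root back to the root, and from each common vertex to the next one both stay near it:
the coordinates differ by at most `r`. -/
def Follow (r : ℕ) {m m' : ℕ} (f : ZMod m → ℤ × ℤ) (g : ZMod m' → ℤ × ℤ) : Prop :=
  ∃ (k : ℕ) (t t' : ℕ → ℕ), Monotone t ∧ Monotone t' ∧ t 0 = 0 ∧ t' 0 = 0 ∧ t k = m ∧ t' k = m' ∧
    (∀ j, j ≤ k → f (t j) = g (t' j)) ∧
    ∀ j, j < k → (∀ i : ℕ, t j ≤ i → i ≤ t (j + 1) → Near r (f i) (f (t j))) ∧
      (∀ i : ℕ, t' j ≤ i → i ≤ t' (j + 1) → Near r (g i) (g (t' j)))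

/-- The steps of the loop `f` which touch the set `D`, in their order. -/
def stepsOf (D : Finset (ℤ × ℤ)) {m : ℕ} (f : ZMod m → ℤ × ℤ) : List ((ℤ × ℤ) × (ℤ × ℤ)) :=
  ((List.range m).map fun i : ℕ => (f (i : ZMod m), f ((i + 1 : ℕ) : ZMod m))).filter
    (fun e => e.1 ∈ D ∨ e.2 ∈ D)

/-- The extent of `f` in the direction `v`: the largest value of `v · (f i - f j)`. -/
def extent (v : ℤ × ℤ) {m : ℕ} (f : ZMod m → ℤ × ℤ) : ℤ :=
  ⨆ p : ZMod m × ZMod m, (v.1 * ((f p.1).1 - (f p.2).1) + v.2 * ((f p.1).2 - (f p.2).2))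

theorem iSup_eq_of' {α β : Type} [Finite α] [Finite β] [Nonempty α] [Nonempty β] (f : α → ℤ)
    (g : β → ℤ) (h : ∀ k : ℤ, (∃ i, k ≤ f i) ↔ ∃ i, k ≤ g i) : (⨆ i, f i) = ⨆ i, g i := by
  have h1 : BddAbove (Set.range f) := (Set.finite_range f).bddAbove
  have h2 : BddAbove (Set.range g) := (Set.finite_range g).bddAbove
  refine le_antisymm (ciSup_le fun i => ?_) (ciSup_le fun i => ?_)
  · obtain ⟨i', hi'⟩ := (h (f i)).1 ⟨i, le_rfl⟩
    exact hi'.trans (le_ciSup h2 i')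
  · obtain ⟨i', hi'⟩ := (h (g i)).2 ⟨i, le_rfl⟩
    exact hi'.trans (le_ciSup h1 i')

theorem extent_eq_of (v : ℤ × ℤ) {n n' : ℕ} (f : Fin (n + 1) → ℤ × ℤ) (g : Fin (n' + 1) → ℤ × ℤ)
    (h1 : ∀ k : ℤ, (∃ i, k ≤ v.1 * (f i).1 + v.2 * (f i).2) ↔
      ∃ i, k ≤ v.1 * (g i).1 + v.2 * (g i).2)
    (h2 : ∀ k : ℤ, (∃ i, k ≤ -(v.1 * (f i).1 + v.2 * (f i).2)) ↔
      ∃ i, k ≤ -(v.1 * (g i).1 + v.2 * (g i).2)) :
    extent v (m := n + 1) f = extent v (m := n' + 1) g := by
  have key : ∀ (n n' : ℕ) (f : Fin (n + 1) → ℤ × ℤ) (g : Fin (n' + 1) → ℤ × ℤ),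
      (∀ k : ℤ, (∃ i, k ≤ v.1 * (f i).1 + v.2 * (f i).2) →
        ∃ i, k ≤ v.1 * (g i).1 + v.2 * (g i).2) →
      (∀ k : ℤ, (∃ i, k ≤ -(v.1 * (f i).1 + v.2 * (f i).2)) →
        ∃ i, k ≤ -(v.1 * (g i).1 + v.2 * (g i).2)) →
      ∀ k : ℤ, (∃ p : Fin (n + 1) × Fin (n + 1),
        k ≤ v.1 * ((f p.1).1 - (f p.2).1) + v.2 * ((f p.1).2 - (f p.2).2)) →
        ∃ p : Fin (n' + 1) × Fin (n' + 1),
        k ≤ v.1 * ((g p.1).1 - (g p.2).1) + v.2 * ((g p.1).2 - (g p.2).2) := by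
    rintro n n' f g h1 h2 k ⟨⟨i, j⟩, h⟩
    obtain ⟨i', hi⟩ := h1 _ ⟨i, le_rfl⟩
    obtain ⟨j', hj⟩ := h2 _ ⟨j, le_rfl⟩
    refine ⟨(i', j'), ?_⟩
    simp only at h ⊢
    simp only [mul_sub] at h ⊢
    linarith
  refine iSup_eq_of' (α := Fin (n + 1) × Fin (n + 1)) (β := Fin (n' + 1) × Fin (n' + 1)) _ _
    fun k => ?_
  exact ⟨key n n' f g (fun k => (h1 k).1) (fun k => (h2 k).1) k,
    key n' n g f (fun k => (h1 k).2) (fun k => (h2 k).2) k⟩

/-- the steps of a loop: the steps of the walk and the closing step -/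
theorem stepsOf_eq (D : Finset (ℤ × ℤ)) {n : ℕ} (f : Fin (n + 1) → ℤ × ℤ) :
    stepsOf D (m := n + 1) f = stepsIn D f ++
      ([(f (Fin.last n), f 0)] : List ((ℤ × ℤ) × (ℤ × ℤ))).filter (fun e => e.1 ∈ D ∨ e.2 ∈ D) := by
  unfold stepsOf stepsIn
  rw [List.range_succ, List.map_append, List.filter_append]
  congr 1
  · congr 1
    refine List.ext_getElem (by simp) fun i h1 h2 => ?_
    rw [List.length_map, List.length_range] at h1
    simp only [List.getElem_map, List.getElem_range, List.getElem_ofFn]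
    have e1 : ((i : ℕ) : ZMod (n + 1)) = (⟨i, h1⟩ : Fin n).castSucc := by
      have := ZMod.natCast_zmod_val (n := n + 1) (⟨i, h1⟩ : Fin n).castSucc
      exact this
    have e2 : ((i + 1 : ℕ) : ZMod (n + 1)) = (⟨i, h1⟩ : Fin n).succ := by
      have := ZMod.natCast_zmod_val (n := n + 1) (⟨i, h1⟩ : Fin n).succ
      exact this
    rw [e1, e2]
  · congr 1
    have e1 : ((n : ℕ) : ZMod (n + 1)) = Fin.last n := by
      have := ZMod.natCast_zmod_val (n := n + 1) (Fin.last n)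
      exact this
    have e2 : ((n + 1 : ℕ) : ZMod (n + 1)) = (0 : Fin (n + 1)) := ZMod.natCast_self (n + 1)
    simp only [List.map_cons, List.map_nil]
    rw [e1, e2]

theorem near_of_norm {r : ℕ} {ρ : ℝ} (hρ : ρ ≤ r) {x y : ℤ × ℤ}
    (h : ‖Q68.PL.posS x - Q68.PL.posS y‖ ≤ ρ) : Near r x y := by
  have h1 := (Complex.abs_re_le_norm (Q68.PL.posS x - Q68.PL.posS y)).trans (h.trans hρ)
  have h2 := (Complex.abs_im_le_norm (Q68.PL.posS x - Q68.PL.posS y)).trans (h.trans hρ)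
  unfold Q68.PL.posS at h1 h2
  simp only [Complex.sub_re, Complex.sub_im] at h1 h2
  constructor
  · exact_mod_cast h1
  · exact_mod_cast h2

/-- walks which follow each other and close, as loops -/
theorem follow_of {r : ℕ} {ρ : ℝ} (hρ : ρ ≤ r) (hr : 1 ≤ r) {n n' : ℕ} {f : Fin (n + 1) → ℤ × ℤ}
    {g : Fin (n' + 1) → ℤ × ℤ} (hf : IsLoop (n + 1) f) (hg : IsLoop (n' + 1) g)
    (h : Fol Q68.PL.posS ρ f g) : Follow r (m := n + 1) (m' := n' + 1) f g := by
  obtain ⟨k, t, t', ht, ht', t0, t0', tk, tk', h1, h2⟩ := h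
  have cast : ∀ (n : ℕ) (a : Fin (n + 1)), (((a : ℕ) : ℕ) : ZMod (n + 1)) = a := fun n a =>
    ZMod.natCast_zmod_val (n := n + 1) a
  have cself : ∀ n : ℕ, ((n + 1 : ℕ) : ZMod (n + 1)) = (0 : Fin (n + 1)) := fun n =>
    ZMod.natCast_self (n + 1)
  have mono : ∀ (n : ℕ) (t : ℕ → Fin (n + 1)), Monotone t →
      Monotone (fun i => if i ≤ k then (t i : ℕ) else n + 1) := by
    intro n t ht i j hij
    simp only
    split_ifs with h3 h4
    · exact ht hij
    · have := (t i).2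
      omega
    · omega
    · exact le_rfl
  have nearby : ∀ (n : ℕ) (f : Fin (n + 1) → ℤ × ℤ), IsLoop (n + 1) f → ∀ t : ℕ → Fin (n + 1),
      Monotone t → t k = Fin.last n →
      (∀ j, j < k → ∀ i, t j ≤ i → i ≤ t (j + 1) →
        ‖Q68.PL.posS (f i) - Q68.PL.posS (f (t j))‖ ≤ ρ) →
      ∀ j, j < k + 1 → ∀ i : ℕ, (if j ≤ k then (t j : ℕ) else n + 1) ≤ i →
        i ≤ (if j + 1 ≤ k then (t (j + 1) : ℕ) else n + 1) →
        Near r (f ((i : ℕ) : ZMod (n + 1)))
          (f (((if j ≤ k then (t j : ℕ) else n + 1 : ℕ) : ℕ) : ZMod (n + 1))) := by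
    intro n f hf t ht tk hh j hj i hi1 hi2
    rw [if_pos (by omega)] at hi1 ⊢
    rw [cast]
    by_cases hjk : j + 1 ≤ k
    · rw [if_pos hjk] at hi2
      have hin : i < n + 1 := lt_of_le_of_lt hi2 (t (j + 1)).2
      have e := cast n ⟨i, hin⟩
      simp only at e
      rw [e]
      exact near_of_norm hρ (hh j (by omega) ⟨i, hin⟩ hi1 hi2)
    · have hjk' : j = k := by omega
      subst hjk'
      rw [if_neg hjk] at hi2
      rw [tk] at hi1 ⊢
      have hi1' : n ≤ i := hi1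
      rcases Nat.lt_or_ge n i with hni | hni
      · have hin : i = n + 1 := by omega
        subst hin
        rw [cself]
        have h3 := ((loop_iff n f).1 hf)
        have h4 := h3.2
        have h5 : f 0 = 0 := h3.1.1
        rw [h5]
        unfold V1 at h4
        unfold Near
        simp only [Prod.fst_zero, Prod.snd_zero, zero_sub, abs_neg]
        have a1 := abs_nonneg (f (Fin.last n)).1
        have a2 := abs_nonneg (f (Fin.last n)).2
        have a3 : (1 : ℤ) ≤ r := by exact_mod_cast hr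
        constructor <;> omega
      · have hin : i = n := by omega
        subst hin
        have e := cast i (Fin.last i)
        simp only [Fin.val_last] at e
        rw [e]
        unfold Near
        simp
  refine ⟨k + 1, fun i => if i ≤ k then (t i : ℕ) else n + 1,
    fun i => if i ≤ k then (t' i : ℕ) else n' + 1, mono n t ht, mono n' t' ht', ?_, ?_, ?_, ?_, ?_,
    ?_⟩
  · simp [t0]
  · simp [t0']
  · simp
  · simp
  · intro j hj
    simp only
    split_ifs with h3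
    · rw [cast, cast]
      exact h1 j h3
    · rw [cself, cself]
      have h5 : f 0 = 0 := ((loop_iff n f).1 hf).1.1
      have h6 : g 0 = 0 := ((loop_iff n' g).1 hg).1.1
      rw [h5, h6]
  · intro j hj
    exact ⟨nearby n f hf t ht tk (fun j hj => (h2 j hj).1) j hj,
      nearby n' g hg t' ht' tk' (fun j hj => (h2 j hj).2) j hj⟩

end

end Q294.Tp
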