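import Pool.Agent.Q294.Tp3

/-!
# Polygons of different lengths: couplings
-/

set_option autoImplicit false

namespace Q294.Tp

open Finset Filter Topology TH966.AK Q294.Av Q294.Tr Q294.Ts

noncomputable section

/-- `q` is a joint law of a uniform loop with `m` steps and a uniform loop with `m'` steps. -/
def Coupling {m m' : ℕ} (q : Loop m → Loop m' → ℝ) : Prop :=
  (∀ f g, 0 ≤ q f g) ∧ (∀ f, ∑ᶠ g, q f g = 1 / Nat.card (Loop m)) ∧
    ∀ g, ∑ᶠ f, q f g = 1 / Nat.card (Loop m')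

open scoped Classical in
/-- The probability of `R` under the joint law `q`. -/
def mass {m m' : ℕ} (q : Loop m → Loop m' → ℝ) (R : Loop m → Loop m' → Prop) : ℝ :=
  ∑ᶠ f, ∑ᶠ g, if R f g then q f g else 0

theorem fin_loop (n : ℕ) : Finite (Loop (n + 1)) :=
  fin_subV Q78.UR.Sq.rule V1 (fun ω : Fin (n + 1) → ℤ × ℤ => IsLoop (n + 1) ω) (loop_iff n)

theorem mass_mono {n n' : ℕ} {q : Loop (n + 1) → Loop (n' + 1) → ℝ} (hq : ∀ x y, 0 ≤ q x y)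
    {R R' : Loop (n + 1) → Loop (n' + 1) → Prop} (h : ∀ x y, R x y → R' x y) :
    mass q R ≤ mass q R' := by
  have := fin_loop n
  have := fin_loop n'
  unfold mass
  refine finsum_le_finsum' (Set.toFinite _) (Set.toFinite _) fun x => ?_
  refine finsum_le_finsum' (Set.toFinite _) (Set.toFinite _) fun y => ?_
  by_cases h1 : R x y
  · rw [if_pos h1, if_pos (h x y h1)]
  · rw [if_neg h1]
    split_ifs
    · exact hq x y
    · exact le_rfl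

/-- the functions whose maxima are used: `F`, the directions, the opposite directions -/
def FF3 {m : ℕ} (F : Fin m → ℤ × ℤ → ℤ) (v : Fin m → ℤ × ℤ) (u : Fin (m + m + m)) (x : ℤ × ℤ) : ℤ :=
  Fin.append (Fin.append (fun u => F u x) (fun u => (v u).1 * x.1 + (v u).2 * x.2))
    (fun u => -((v u).1 * x.1 + (v u).2 * x.2)) u

theorem maxima_of {m : ℕ} {F : Fin m → ℤ × ℤ → ℤ} {v : Fin m → ℤ × ℤ} {n n' : ℕ}
    {f : Fin (n + 1) → ℤ × ℤ} {g : Fin (n' + 1) → ℤ × ℤ}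
    (h : ∀ (u : Fin (m + m + m)) (k : ℤ), (∃ i, k ≤ FF3 F v u (f i)) ↔ ∃ i, k ≤ FF3 F v u (g i)) :
    (∀ u, (⨆ i : ZMod (n + 1), F u (f i)) = ⨆ i : ZMod (n' + 1), F u (g i)) ∧
      ∀ u, extent (v u) (m := n + 1) f = extent (v u) (m := n' + 1) g := by
  constructor
  · intro u
    refine iSup_eq_of' (α := Fin (n + 1)) (β := Fin (n' + 1)) _ _ fun k => ?_
    have h1 := h (Fin.castAdd m (Fin.castAdd m u)) k
    simp only [FF3, Fin.append_left] at h1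
    exact h1
  · intro u
    refine extent_eq_of (v u) f g (fun k => ?_) fun k => ?_
    · have h1 := h (Fin.castAdd m (Fin.natAdd m u)) k
      simp only [FF3, Fin.append_left, Fin.append_right] at h1
      exact h1
    · have h1 := h (Fin.natAdd (m + m) u) k
      simp only [FF3, Fin.append_right] at h1
      exact h1

open scoped Classical in
theorem low_all {K1 : ℝ} (h : ∀ N : ℕ, 2 ≤ N →
    Real.exp (-(K1 * Real.log ((2 * N - 1 : ℕ) : ℝ) ^ 2)) ≤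
      ((Kw Q78.UR.Sq.A (2 * N - 1)).filter (fun w => V1 (lst w))).card /
        (Kw Q78.UR.Sq.A (2 * N - 1)).card) {n : ℕ} (hn : 3 ≤ n) (hodd : n % 2 = 1) (j : ℕ) :
    Real.exp (-(K1 * Real.log ((n + 2 * j : ℕ) : ℝ) ^ 2)) ≤
      ((Kw Q78.UR.Sq.A (n + 2 * j)).filter (fun w => V1 (lst w))).card /
        (Kw Q78.UR.Sq.A (n + 2 * j)).card := by
  have h1 := h ((n + 1) / 2 + j) (by omega)
  have e : 2 * ((n + 1) / 2 + j) - 1 = n + 2 * j := by omega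
  rw [e] at h1
  exact h1

theorem hff (N : ℕ) (w : Fin (N + 1) → ℤ × ℤ) (φ : P) :
    φ ∈ FF FcT (List.ofFn w) ↔ ∃ i, w i = φ := by
  rw [mem_FF]
  unfold FcT
  constructor
  · rintro ⟨y, hy, h⟩
    rw [Finset.mem_singleton] at h
    rw [List.mem_ofFn] at hy
    rw [h]
    exact hy
  · rintro ⟨i, rfl⟩
    exact ⟨w i, List.mem_ofFn.2 ⟨i, rfl⟩, by simp⟩

/-- **the coupling of loops** -/
theorem couple_loops : ∃ c₀ : ℕ, ∀ m : ℕ, ∃ R : ℝ, 0 < R ∧ ∀ (n j : ℕ) (D : Finset (ℤ × ℤ))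
    (F : Fin m → ℤ × ℤ → ℤ) (v : Fin m → ℤ × ℤ), 3 ≤ n → n % 2 = 1 → c₀ * D.card ≤ n →
    ∃ q : Loop (n + 1) → Loop (n + 2 * j + 1) → ℝ, Coupling q ∧
      1 - R * j * (Real.log n / √(n : ℝ)) ≤ mass q (fun f g => Follow c₀ f.1 g.1 ∧
        stepsOf D f.1 = stepsOf D g.1 ∧ (∀ u, (⨆ i, F u (f.1 i)) = ⨆ i, F u (g.1 i)) ∧
        ∀ u, extent (v u) f.1 = extent (v u) g.1) := by
  classical
  obtain ⟨K, G⟩ := Q78.UR.Sq.growth
  obtain ⟨K1, hK1, hlow⟩ := closed_low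
  obtain ⟨ℓ₀, hℓ₀, hall⟩ := coupleC G feat_S 3 card_FcT near_FcT (pos := Q68.PL.posS)
    (cp := Q68.PL.posS) Q68.PL.adjS (c1T _) bd_S V1 (fun n ω => IsLoop (n + 1) ω) (fun n ω => loop_iff n ω)
  refine ⟨4 * ℓ₀ + 4, fun m => ?_⟩
  obtain ⟨R, hR, hmain⟩ := hall (m + m + m) K1 hK1
  refine ⟨R, hR, fun n j D F v hn3 hodd hD => ?_⟩
  obtain ⟨q, q1, q2, q3, q4⟩ := hmain n j D (FF3 F v) (by omega)
    (le_trans (Nat.mul_le_mul_right _ (by omega)) hD) (low_all hlow hn3 hodd)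
  refine ⟨q, ⟨q1, q2, q3⟩, q4.trans ?_⟩
  refine le_trans (le_of_eq ?_) (mass_mono (n := n) (n' := n + 2 * j) q1 (R := fun x y =>
    (x.1 (Fin.last n) = y.1 (Fin.last (n + 2 * j)) ∧ Com Q68.PL.posS (4 * (ℓ₀ : ℝ) + 4) D x.1 y.1) ∧
      ∀ (u : Fin (m + m + m)) (k : ℤ), ((∃ φ ∈ FF FcT (List.ofFn (n := n + 1) x.1), k ≤ FF3 F v u φ) ↔
        ∃ φ ∈ FF FcT (List.ofFn (n := n + 2 * j + 1) y.1), k ≤ FF3 F v u φ)) ?_)
  · unfold mass
    refine finsum_congr fun x => finsum_congr fun y => ?_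
    congr
  rintro x y ⟨⟨h0, h1, h2⟩, h3⟩
  have h4 : ∀ (u : Fin (m + m + m)) (k : ℤ), (∃ i : Fin (n + 1), k ≤ FF3 F v u (x.1 i)) ↔
      ∃ i : Fin (n + 2 * j + 1), k ≤ FF3 F v u (y.1 i) := by
    intro u k
    have h5 := h3 u k
    constructor
    · rintro ⟨i, hi⟩
      obtain ⟨φ, hφ, h6⟩ := h5.1 ⟨_, (hff n x.1 _).2 ⟨i, rfl⟩, hi⟩
      obtain ⟨i', rfl⟩ := (hff (n + 2 * j) y.1 _).1 hφ
      exact ⟨i', h6⟩
    · rintro ⟨i, hi⟩
      obtain ⟨φ, hφ, h6⟩ := h5.2 ⟨_, (hff (n + 2 * j) y.1 _).2 ⟨i, rfl⟩, hi⟩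
      obtain ⟨i', rfl⟩ := (hff n x.1 _).1 hφ
      exact ⟨i', h6⟩
  obtain ⟨h5, h6⟩ := maxima_of h4
  refine ⟨follow_of (ρ := 4 * (ℓ₀ : ℝ) + 4) (by push_cast; exact le_rfl) (by omega) x.2 y.2 h1, ?_, h5,
    h6⟩
  have z1 : x.1 0 = 0 := x.2.1
  have z2 : y.1 0 = 0 := y.2.1
  rw [stepsOf_eq D (n := n) x.1, stepsOf_eq D (n := n + 2 * j) y.1, h2, h0]
  have z1' : x.1 (0 : Fin (n + 1)) = 0 := z1
  have z2' : y.1 (0 : Fin (n + 2 * j + 1)) = 0 := z2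
  rw [z1', z2']

end

end Q294.Tp
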