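import Pool.Agent.Q294.Tp4

/-!
# Polygons of different lengths: rare events, conditional laws
-/

set_option autoImplicit false

namespace Q294.Tp

open Finset Filter Topology TH966.AK Q294.Av Q294.Tr Q294.Ts

noncomputable section

/-- The data of a loop: its steps which touch `D`, the maxima of the functions `F u`, the extents in
the directions `v u`. -/
def data (D : Finset (ℤ × ℤ)) {m : ℕ} (F : Fin m → ℤ × ℤ → ℤ) (v : Fin m → ℤ × ℤ) {k : ℕ}
    (f : ZMod k → ℤ × ℤ) : List ((ℤ × ℤ) × (ℤ × ℤ)) × (Fin m → ℤ) × (Fin m → ℤ) :=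
  (stepsOf D f, fun u => ⨆ i, F u (f i), fun u => extent (v u) f)

/-- The number of loops with `m` steps and a property. -/
def num (m : ℕ) (E : (ZMod m → ℤ × ℤ) → Prop) : ℝ := ({f | IsLoop m f ∧ E f}.ncard : ℝ)

/-- The error for an event of probability `p`. -/
def err (p : ℝ) (n : ℕ) : ℝ := √((Real.log n ^ 2 + Real.log (1 / p)) / n)

open scoped Classical in
theorem num_eq (n : ℕ) (E : (ZMod (n + 1) → ℤ × ℤ) → Prop) (E' : List P → Prop)
    (h : ∀ f : ZMod (n + 1) → ℤ × ℤ, IsLoop (n + 1) f → (E f ↔ E' (List.ofFn (n := n + 1) f))) :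
    num (n + 1) E = (((Kw Q78.UR.Sq.A n).filter (fun w => E' w ∧ V1 (lst w))).card : ℝ) := by
  have h0 : Finite {ω : Fin (n + 1) → ℤ × ℤ // IsLoop (n + 1) ω} := fin_loop n
  have h1 : Fintype {ω : Fin (n + 1) → ℤ × ℤ // IsLoop (n + 1) ω} := Fintype.ofFinite _
  have h2 := card_subV Q78.UR.Sq.rule V1 (fun ω : Fin (n + 1) → ℤ × ℤ => IsLoop (n + 1) ω)
    (loop_iff n) E'
  rw [← h2]
  unfold num
  congr 1
  have h3 : {f : Fin (n + 1) → ℤ × ℤ | IsLoop (n + 1) f ∧ E f} =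
      Subtype.val '' ((univ.filter (fun x : {ω : Fin (n + 1) → ℤ × ℤ // IsLoop (n + 1) ω} =>
        E' (List.ofFn x.1)) : Finset _) : Set {ω : Fin (n + 1) → ℤ × ℤ // IsLoop (n + 1) ω}) := by
    ext f
    rw [Set.mem_ofPred_eq, Set.mem_image]
    constructor
    · rintro ⟨a, b⟩
      refine ⟨⟨f, a⟩, ?_, rfl⟩
      rw [Finset.mem_coe, mem_filter]
      exact ⟨mem_univ _, (h f a).1 b⟩
    · rintro ⟨⟨g, a⟩, b, rfl⟩
      rw [Finset.mem_coe, mem_filter] at b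
      exact ⟨a, (h g a).2 b.2⟩
  have h4 : ({f : Fin (n + 1) → ℤ × ℤ | IsLoop (n + 1) f ∧ E f}).ncard =
      (univ.filter (fun x : {ω : Fin (n + 1) → ℤ × ℤ // IsLoop (n + 1) ω} =>
        E' (List.ofFn x.1))).card := by
    rw [h3, Set.ncard_image_of_injective _ Subtype.val_injective, Set.ncard_coe_finset]
  exact h4

/-- equal statistics, equal data -/
theorem data_eq {D : Finset (ℤ × ℤ)} {m : ℕ} {F : Fin m → ℤ × ℤ → ℤ} {v : Fin m → ℤ × ℤ}
    {E : P → P → Prop} {ℓ : ℕ} {n n' : ℕ} {f : Fin (n + 1) → ℤ × ℤ} {g : Fin (n' + 1) → ℤ × ℤ}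
    (hf : f 0 = 0) (hg : g 0 = 0)
    (h : (Sst FcT E (D : Set P) ℓ 0 (FF3 F v) (List.ofFn f), lst (List.ofFn f)) =
      (Sst FcT E (D : Set P) ℓ 0 (FF3 F v) (List.ofFn g), lst (List.ofFn g))) :
    data D F v (k := n + 1) f = data D F v (k := n' + 1) g := by
  unfold Sst at h
  simp only [Prod.mk.injEq] at h
  obtain ⟨⟨⟨h1, h2⟩, h3⟩, h4⟩ := h
  rw [Q294.Ts.lst_ofFn, Q294.Ts.lst_ofFn] at h4
  rw [conf_ofFn, conf_ofFn] at h2
  have h5 : ∀ (u : Fin (m + m + m)) (k : ℤ), (∃ i : Fin (n + 1), k ≤ FF3 F v u (f i)) ↔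
      ∃ i : Fin (n' + 1), k ≤ FF3 F v u (g i) := by
    intro u k
    have h6 : (Sum.inr (u, k) : (ℤ × ℤ) ⊕ (Fin (m + m + m) × ℤ)) ∈
        TT FcT (Mst ℓ 0 (FF3 F v)) (List.ofFn f) ↔
      (Sum.inr (u, k) : (ℤ × ℤ) ⊕ (Fin (m + m + m) × ℤ)) ∈
        TT FcT (Mst ℓ 0 (FF3 F v)) (List.ofFn g) := by
      rw [h3]
    have h7 : (∃ φ ∈ FF FcT (List.ofFn f), k ≤ FF3 F v u φ) ↔
      ∃ φ ∈ FF FcT (List.ofFn g), k ≤ FF3 F v u φ := h6
    constructor
    · rintro ⟨i, hi⟩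
      obtain ⟨φ, hφ, h6⟩ := h7.1 ⟨_, (hff n f _).2 ⟨i, rfl⟩, hi⟩
      obtain ⟨i', rfl⟩ := (hff n' g _).1 hφ
      exact ⟨i', h6⟩
    · rintro ⟨i, hi⟩
      obtain ⟨φ, hφ, h6⟩ := h7.2 ⟨_, (hff n' g _).2 ⟨i, rfl⟩, hi⟩
      obtain ⟨i', rfl⟩ := (hff n f _).1 hφ
      exact ⟨i', h6⟩
  obtain ⟨h8, h9⟩ := maxima_of h5
  have h10 : stepsOf D (m := n + 1) f = stepsOf D (m := n' + 1) g := by
    rw [stepsOf_eq, stepsOf_eq, h2, h4, hf, hg]
  unfold data
  rw [h10]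
  congr 1
  exact Prod.ext (funext h8) (funext h9)

theorem err_conv {K1 p a : ℝ} {N n : ℕ} (hN : 2 ≤ N) (hn : n = 2 * N - 1) (hK1 : 0 ≤ K1)
    (hp0 : 0 < p) (hp1 : p ≤ 1) {b : ℝ} (hb : Real.exp (-(K1 * Real.log n ^ 2)) ≤ b)
    (ha : a = p * b) : er a n ≤ 2 * √(1 + K1) * err p N := by
  have hn0 : (0 : ℝ) < n := by exact_mod_cast (by omega : 0 < n)
  have hN0 : (0 : ℝ) < N := by exact_mod_cast (by omega : 0 < N)
  have hNn : (N : ℝ) ≤ n := by exact_mod_cast (by omega : N ≤ n)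
  have hb0 : 0 < b := lt_of_lt_of_le (Real.exp_pos _) hb
  have hlp : 0 ≤ Real.log (1 / p) := Real.log_nonneg (by rw [le_div_iff₀ hp0]; linarith)
  have hl0 : 0 ≤ Real.log n := Real.log_nonneg (by exact_mod_cast (by omega : 1 ≤ n))
  have hl1 : Real.log n ≤ 2 * Real.log N := by
    have h1 : (n : ℝ) ≤ (N : ℝ) ^ 2 := by
      have : n ≤ N ^ 2 := by
        rw [hn]
        have : 2 * N ≤ N * N := Nat.mul_le_mul_right N hN
        rw [pow_two]
        omega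
      exact_mod_cast this
    have h2 := Real.log_le_log hn0 h1
    rwa [Real.log_pow] at h2
  have h1 : Real.log (1 / a) ≤ Real.log (1 / p) + K1 * Real.log n ^ 2 := by
    rw [ha, one_div, Real.log_inv, Real.log_mul hp0.ne' hb0.ne', one_div, Real.log_inv]
    have := Real.log_le_log (Real.exp_pos _) hb
    rw [Real.log_exp] at this
    linarith
  have hsq : Real.log n ^ 2 ≤ 4 * Real.log N ^ 2 := by nlinarith
  unfold er err
  have h2 : (Real.log n ^ 2 + Real.log (1 / a)) / n ≤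
      (2 * √(1 + K1)) ^ 2 * ((Real.log N ^ 2 + Real.log (1 / p)) / N) := by
    rw [mul_pow, Real.sq_sqrt (by linarith), ← mul_div_assoc]
    have h3 : Real.log n ^ 2 + Real.log (1 / a) ≤
        2 ^ 2 * (1 + K1) * (Real.log N ^ 2 + Real.log (1 / p)) := by
      have h4 : Real.log n ^ 2 + Real.log (1 / a) ≤
          (1 + K1) * (4 * Real.log N ^ 2) + Real.log (1 / p) := by
        have := mul_le_mul_of_nonneg_left hsq (show 0 ≤ 1 + K1 by linarith)
        linarith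
      nlinarith [mul_nonneg hK1 hlp]
    have h5 : 0 ≤ 2 ^ 2 * (1 + K1) * (Real.log N ^ 2 + Real.log (1 / p)) := by positivity
    exact div_le_div₀ h5 h3 hN0 hNn
  refine (Real.sqrt_le_sqrt h2).trans ?_
  rw [Real.sqrt_mul (by positivity), Real.sqrt_sq (by positivity)]

/-- **rare events and conditional laws of loops** -/
theorem rare_loops : ∃ c₀ : ℕ, ∀ m : ℕ, ∃ R : ℝ, 0 < R ∧ ∀ (N n : ℕ) (D : Finset (ℤ × ℤ))
    (F : Fin m → ℤ × ℤ → ℤ) (v : Fin m → ℤ × ℤ)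
    (S₀ : Set (List ((ℤ × ℤ) × (ℤ × ℤ)) × (Fin m → ℤ) × (Fin m → ℤ))) (p : ℝ),
    2 ≤ N → n + 1 = 2 * N → c₀ * D.card ≤ N →
    p = num (n + 1) (fun f => data D F v f ∈ S₀) / num (n + 1) (fun _ => True) → 0 < p →
    (0 < num (n + 1) (fun _ => True) ∧ 0 < num (n + 2 + 1) (fun _ => True)) ∧
    (R * err p N ≤ 1 →
      |num (n + 2 + 1) (fun f => data D F v f ∈ S₀) / num (n + 2 + 1) (fun _ => True) / p - 1|
        ≤ R * err p N) ∧
    ∀ S ⊆ S₀, |num (n + 2 + 1) (fun f => data D F v f ∈ S) /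
        num (n + 2 + 1) (fun f => data D F v f ∈ S₀) -
      num (n + 1) (fun f => data D F v f ∈ S) / num (n + 1) (fun f => data D F v f ∈ S₀)| ≤
        R * err p N := by
  classical
  obtain ⟨K, G⟩ := Q78.UR.Sq.growth
  obtain ⟨K1, hK1, hlow⟩ := closed_low
  obtain ⟨ℓ₀, hℓ₀, hall⟩ := rare G feat_S 3 card_FcT near_FcT
  refine ⟨ℓ₀, fun m => ?_⟩
  obtain ⟨R, hR, hmain⟩ := hall (m + m + m)
  have hs1 : 0 < √(1 + K1) := Real.sqrt_pos.2 (by linarith)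
  refine ⟨8 * R * √(1 + K1), by positivity, fun N n D F v S₀ p hN hn hD hp hp0 => ?_⟩
  have hn' : n = 2 * N - 1 := by omega
  obtain ⟨E, hE⟩ : ∃ E, E = EX FcT Q68.PL.posS Q68.PL.posS (4 * ℓ₀ + 2) := ⟨_, rfl⟩
  have hTame : Tame Q78.UR.Sq.rule E := by rw [hE]; exact tame_EX feat_S _ _ _
  have hFar : Far E ℓ₀ := by rw [hE]; exact far_EX (c1T _) bd_S ℓ₀
  obtain ⟨S', hS'⟩ : ∃ S' : Set (List ((ℤ × ℤ) × (ℤ × ℤ)) × (Fin m → ℤ) × (Fin m → ℤ)) →
      Set (((List P × List (P × P)) × Set ((ℤ × ℤ) ⊕ (Fin (m + m + m) × ℤ))) × P), S' = fun S =>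
      {w | V1 w.2 ∧ ∃ (k : ℕ) (f : Fin (k + 1) → ℤ × ℤ), f 0 = 0 ∧
        w = (Sst FcT E (D : Set P) ℓ₀ 0 (FF3 F v) (List.ofFn f), lst (List.ofFn f)) ∧
        data D F v (k := k + 1) f ∈ S} := ⟨_, rfl⟩
  have hnum : ∀ k S, num (k + 1) (fun f => data D F v f ∈ S) =
      NG Q78.UR.Sq.A (Sst FcT E (D : Set P) ℓ₀ 0 (FF3 F v)) (S' S) k := by
    intro k S
    rw [num_eq k _ (fun w => (Sst FcT E (D : Set P) ℓ₀ 0 (FF3 F v) w, lst w) ∈ S' S)]
    · unfold NG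
      congr 2
      ext w
      simp only [mem_filter]
      constructor
      · rintro ⟨a, b, -⟩
        exact ⟨a, b⟩
      · rintro ⟨a, b⟩
        have b' := b
        rw [hS'] at b'
        exact ⟨a, b, b'.1⟩
    · intro f hf
      have hf1 := (loop_iff k f).1 hf
      rw [hS']
      constructor
      · intro h
        refine ⟨?_, k, f, hf1.1.1, rfl, h⟩
        have hl : lst (List.ofFn (n := k + 1) f) = f (Fin.last k) := Q294.Ts.lst_ofFn (n := k) f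
        have h5 := hf1.2
        rw [← hl] at h5
        exact h5
      · rintro ⟨-, k', f', h0, h1, h2⟩
        have h3 := data_eq (n := k) (n' := k') hf1.1.1 h0 h1
        have h4 : data D F v (k := k + 1) f ∈ S := h3 ▸ h2
        exact h4
  have htrue : ∀ k, num (k + 1) (fun _ => True) =
      NG Q78.UR.Sq.A (Sst FcT E (D : Set P) ℓ₀ 0 (FF3 F v)) {w | V1 w.2} k := by
    intro k
    rw [num_eq k _ (fun _ => True) (fun f _ => Iff.rfl)]
    unfold NG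
    congr 2
    ext w
    simp only [mem_filter, true_and]
    rfl
  have hmono : ∀ S S'' : Set (List ((ℤ × ℤ) × (ℤ × ℤ)) × (Fin m → ℤ) × (Fin m → ℤ)),
      S ⊆ S'' → S' S ⊆ S' S'' := by
    intro S S'' h
    rw [hS']
    rintro w ⟨h0, k, f, h1, h2, h3⟩
    exact ⟨h0, k, f, h1, h2, h h3⟩
  obtain ⟨T, hT⟩ : ∃ T, T = Sst FcT E (D : Set P) ℓ₀ 0 (FF3 F v) := ⟨_, rfl⟩
  have hc : ∀ n, (0 : ℝ) < (Kw Q78.UR.Sq.A n).card := fun n =>
    lt_of_lt_of_le (pow_pos (by linarith [G.hμ]) n) (G.low n)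
  have hlow1 : ∀ j : ℕ, Real.exp (-(K1 * Real.log ((n + 2 * j : ℕ) : ℝ) ^ 2)) ≤
      NG Q78.UR.Sq.A T {w | V1 w.2} (n + 2 * j) / (Kw Q78.UR.Sq.A (n + 2 * j)).card := by
    intro j
    have h1 := low_all hlow (n := n) (by omega) (by omega) j
    have h2 : NG Q78.UR.Sq.A T {w | V1 w.2} (n + 2 * j) =
        (((Kw Q78.UR.Sq.A (n + 2 * j)).filter (fun w => V1 (lst w))).card : ℝ) := by
      unfold NG
      congr 2
    rw [h2]
    exact h1
  have hVpos : ∀ j : ℕ, 0 < NG Q78.UR.Sq.A T {w | V1 w.2} (n + 2 * j) := by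
    intro j
    by_contra hcon
    push Not at hcon
    have h0 := div_nonpos_of_nonpos_of_nonneg hcon (hc (n + 2 * j)).le
    exact absurd (lt_of_lt_of_le (Real.exp_pos _) (hlow1 j)) (by linarith)
  have hV0 : 0 < NG Q78.UR.Sq.A T {w | V1 w.2} n := by simpa using hVpos 0
  have hV1 : 0 < NG Q78.UR.Sq.A T {w | V1 w.2} (n + 2) := by simpa using hVpos 1
  have hb := hlow1 0
  simp only [mul_zero, add_zero] at hb
  obtain ⟨b, hbd⟩ : ∃ b : ℝ, b = NG Q78.UR.Sq.A T {w | V1 w.2} n / (Kw Q78.UR.Sq.A n).card :=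
    ⟨_, rfl⟩
  rw [← hbd] at hb
  have hb0 : 0 < b := lt_of_lt_of_le (Real.exp_pos _) hb
  have hpos : 0 < num (n + 1) (fun _ => True) ∧ 0 < num (n + 2 + 1) (fun _ => True) := by
    rw [htrue, htrue (n + 2), ← hT]
    exact ⟨hV0, hV1⟩
  rw [hnum, htrue, ← hT] at hp
  obtain ⟨a, ha⟩ : ∃ a : ℝ, a = NG Q78.UR.Sq.A T (S' S₀) n / (Kw Q78.UR.Sq.A n).card := ⟨_, rfl⟩
  have hab : a = p * b := by
    rw [ha, hbd, hp]
    have := hV0.ne'
    field_simp
  have ha0 : 0 < a := by rw [hab]; positivity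
  have hp1 : p ≤ 1 := by
    rw [hp, div_le_one hV0]
    refine NG_mono T ?_ n
    rw [hS']
    exact fun w hw => hw.1
  have herr := err_conv hN hn' hK1 hp0 hp1 hb hab
  have herr1 := err_conv (p := 1) (a := b) hN hn' hK1 one_pos le_rfl hb (by ring)
  have hee : err 1 N ≤ err p N := by
    unfold err
    refine Real.sqrt_le_sqrt (div_le_div_of_nonneg_right ?_ (Nat.cast_nonneg N))
    rw [div_one, Real.log_one]
    have : 0 ≤ Real.log (1 / p) := Real.log_nonneg (by rw [le_div_iff₀ hp0]; linarith)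
    linarith
  have her0 : 0 ≤ err p N := Real.sqrt_nonneg _
  have hDn : ℓ₀ * D.card ≤ n := by omega
  obtain ⟨k1, k2⟩ := hmain E D ℓ₀ 0 (FF3 F v) hTame hFar le_rfl (S' S₀) n (by omega) hDn a
    (by rw [ha, hT]) ha0
  obtain ⟨j1, -⟩ := hmain E D ℓ₀ 0 (FF3 F v) hTame hFar le_rfl {w | V1 w.2} n (by omega) hDn b
    (by rw [hbd, hT]) hb0
  rw [← hT] at k1 k2 j1
  have es : n + Q78.UR.Sq.rule.s = n + 2 := rfl
  rw [es] at k1 k2 j1
  have hA : R * er a n ≤ 2 * R * √(1 + K1) * err p N := by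
    have := mul_le_mul_of_nonneg_left herr hR.le
    linarith
  have hB : R * er b n ≤ 2 * R * √(1 + K1) * err p N := by
    have h1 := mul_le_mul_of_nonneg_left herr1 hR.le
    have h2 : 2 * R * √(1 + K1) * err 1 N ≤ 2 * R * √(1 + K1) * err p N :=
      mul_le_mul_of_nonneg_left hee (by positivity)
    linarith
  have h0e : 0 ≤ 2 * R * √(1 + K1) * err p N := by positivity
  refine ⟨hpos, ?_, ?_⟩
  · intro hle
    have g1 := k1 (by linarith)
    have g2 := j1 (by linarith)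
    have h6 := quot1 (e := 2 * R * √(1 + K1) * err p N) h0e (by linarith) (g1.trans hA)
      (g2.trans hB)
    have hk : n + 2 + 1 = (n + 2) + 1 := rfl
    rw [hnum (n + 2), htrue (n + 2), ← hT]
    have e : NG Q78.UR.Sq.A T (S' S₀) (n + 2) / NG Q78.UR.Sq.A T {w | V1 w.2} (n + 2) / p =
        (NG Q78.UR.Sq.A T (S' S₀) (n + 2) / (Kw Q78.UR.Sq.A (n + 2)).card / a) /
          (NG Q78.UR.Sq.A T {w | V1 w.2} (n + 2) / (Kw Q78.UR.Sq.A (n + 2)).card / b) := by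
      rw [hab]
      have h1 := (hc (n + 2)).ne'
      have h2 := hV1.ne'
      have h3 := hb0.ne'
      have h4 := hp0.ne'
      field_simp
    rw [e]
    linarith
  · intro S hS
    rw [hnum (n + 2), hnum (n + 2), hnum n, hnum n, ← hT]
    have g1 := (k2 (S' S) (hmono S S₀ hS)).trans hA
    linarith

end

end Q294.Tp
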