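import Pool.Agent.Q294.Tr1
import Pool.Agent.Q294.Av7

/-!
# The moves which preserve a statistic
-/

set_option autoImplicit false

namespace Q294.Tr

open Finset Filter Topology TH966.AK Q294.Av
open scoped Classical

noncomputable section

variable {A : P → P → Prop} {Z : Rule A} {Fc : P → Finset P} {cls : Type} {M : cls → P → Prop}

/-- the classes met by the features of a walk -/
def TT (Fc : P → Finset P) (M : cls → P → Prop) (w : List P) : Set cls :=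
  {c | ∃ φ ∈ FF Fc w, M c φ}

theorem mem_TT {w : List P} {c : cls} : c ∈ TT Fc M w ↔ ∃ φ ∈ FF Fc w, M c φ := Iff.rfl

theorem TT_mono {w w' : List P} (h : FF Fc w ⊆ FF Fc w') : TT Fc M w ⊆ TT Fc M w' := by
  rintro c ⟨φ, h1, h2⟩
  exact ⟨φ, h h1, h2⟩

/-- the points after a replacement -/
theorem mem_rep {U U' w : List P} (h : Pair A U U') (hw : Walk A w) (hf : Free U U' w) {x : P} :
    x ∈ Rule.rep w U U' ↔ x ∈ U' ∨ (x ∈ w ∧ x ∉ U) := by
  obtain ⟨L, R, h1, h2, -⟩ := Rule.rep_all h hw hf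
  rw [h2]
  have hn := hw.2.1
  rw [h1, List.nodup_append, List.nodup_append] at hn
  obtain ⟨⟨-, -, n1⟩, -, n2⟩ := hn
  rw [h1]
  simp only [List.mem_append]
  constructor
  · rintro ((hx | hx) | hx)
    · exact Or.inr ⟨Or.inl (Or.inl hx), fun hc => n1 x hx x hc rfl⟩
    · exact Or.inl hx
    · exact Or.inr ⟨Or.inr hx, fun hc => n2 x (List.mem_append_right _ hc) x hx rfl⟩
  · rintro (hx | ⟨(hx | hx) | hx, hc⟩)
    · exact Or.inl (Or.inr hx)
    · exact Or.inl (Or.inl hx)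
    · exact absurd hx hc
    · exact Or.inr hx

theorem FF_up (hF : Feat Z Fc) {w U U' : List P} (hT : Z.T U U') (hw : Walk A w)
    (hf : Free U U' w) : FF Fc w ⊆ FF Fc (Rule.rep w U U') := by
  obtain ⟨L, R, h1, h2, -⟩ := Rule.rep_all (Z.pair _ _ hT) hw hf
  rw [h2]
  conv_lhs => rw [h1]
  exact FF_sub hF hT

theorem FF_down (hF : Feat Z Fc) {w U U' : List P} (hT : Z.T U U') (hw : Walk A w)
    (hf : Free U' U w) : FF Fc (Rule.rep w U' U) ⊆ FF Fc w := by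
  obtain ⟨L, R, h1, h2, -⟩ := Rule.rep_all (Z.pair _ _ hT).symm hw hf
  rw [h2]
  conv_rhs => rw [h1]
  exact FF_sub hF hT

/-- the upward moves which preserve the statistic -/
def ST (Z : Rule A) (Fc : P → Finset P) (M : cls → P → Prop) (w : List P) :
    Finset (List P × List P) :=
  (Z.S w).filter (fun q => TT Fc M (Rule.rep w q.1 q.2) = TT Fc M w)

/-- the downward moves which preserve the statistic -/
def BT (Z : Rule A) (Fc : P → Finset P) (M : cls → P → Prop) (w : List P) :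
    Finset (List P × List P) :=
  (Z.B w).filter (fun q => TT Fc M (Rule.rep w q.2 q.1) = TT Fc M w)

/-- few witnesses for the classes of one feature -/
def HitX (Fc : P → Finset P) (M : cls → P → Prop) (κ : ℕ) : Prop :=
  ∀ (φ : P) (w : List P), ∃ H : Finset P, H.card ≤ κ ∧ H ⊆ FF Fc w ∧
    ∀ c, M c φ → c ∈ TT Fc M w → ∃ ψ ∈ H, M c ψ

/-- the constant -/
def CT (Z : Rule A) (f κ : ℕ) : ℕ := Z.CC + (Z.k + Z.s) * (f * (κ * Z.c0))

variable {f κ : ℕ}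

theorem rep_inv {U U' w : List P} (h : Pair A U U') (hw : Walk A w) (hf : Free U U' w) :
    Walk A (Rule.rep w U U') ∧ Free U' U (Rule.rep w U U') ∧
      Rule.rep (Rule.rep w U U') U' U = w := by
  obtain ⟨L, R, h1, h2, h3, h4, h5⟩ := Rule.rep_all h hw hf
  rw [h2]
  exact ⟨h3, h4, h5⟩

/-- windows away from the replaced window -/
theorem free_iff {U U' V V' w : List P} (h : Pair A U U') (hw : Walk A w) (hf : Free U U' w)
    (hV : V ≠ []) (hd : ∀ x ∈ U ++ U', x ∉ V ++ V') :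
    Free V V' w ↔ Free V V' (Rule.rep w U U') := by
  obtain ⟨L, R, h1, h2, h3, h4, h5⟩ := Rule.rep_all h hw hf
  rw [h2]
  constructor
  · intro hV1
    rw [h1] at hV1
    exact keep h hV hV1 hd
  · intro hV1
    rw [h1]
    refine keep h.symm hV hV1 fun x hx => hd x ?_
    rw [List.mem_append] at hx ⊢
    exact hx.symm

/-- the windows which meet a given window `(U, U')` are near its first point -/
theorem near_of {U U' V V' : List P} (hU : Z.T U U') (hV : Z.T V V') {x : P}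
    (hx : x ∈ U ++ U') (hx' : x ∈ V ++ V') : (V, V') ∈ Z.near (hd U) := by
  refine Z.mem_near hU hV (p := hd U) ?_ hx hx'
  rw [List.mem_append]
  exact Or.inl (hd_mem (Rule.ne_nil (Z.pair _ _ hU)))

section change

variable {w U U' : List P}

theorem S_up (hF : Feat Z Fc) (hw : Walk A w) (hq : (U, U') ∈ ST Z Fc M w) :
    (ST Z Fc M w).card ≤ (ST Z Fc M (Rule.rep w U U')).card + Z.CC := by
  unfold ST at hq
  rw [mem_filter, Rule.mem_S] at hq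
  obtain ⟨⟨hT, hfr⟩, hTT⟩ := hq
  simp only at hT hfr hTT
  obtain ⟨hw', hfr', hinv⟩ := rep_inv (Z.pair _ _ hT) hw hfr
  refine Rule.card_le_of_diff (N := Z.near (hd U)) ?_ (Z.card_near _)
  rintro ⟨V, V'⟩ h1 h2
  by_contra hcon
  have hd : ∀ x ∈ U ++ U', x ∉ V ++ V' := by
    intro x hx hx'
    unfold ST at h1
    rw [mem_filter, Rule.mem_S] at h1
    exact hcon (near_of hT h1.1.1 hx hx')
  unfold ST at h1 h2
  rw [mem_filter, Rule.mem_S] at h1 h2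
  obtain ⟨⟨hV, hV1⟩, hV2⟩ := h1
  simp only at hV hV1 hV2 h2
  have hV3 := (free_iff (Z.pair _ _ hT) hw hfr (Rule.ne_nil (Z.pair _ _ hV)) hd).1 hV1
  refine h2 ⟨⟨hV, hV3⟩, Set.Subset.antisymm ?_ (TT_mono (FF_up hF hV hw' hV3))⟩
  rintro c ⟨φ, hφ, hc⟩
  rw [mem_FF] at hφ
  obtain ⟨x, hx, hφx⟩ := hφ
  rw [mem_rep (Z.pair _ _ hV) hw' hV3] at hx
  rcases hx with hx | ⟨hx, -⟩
  · rw [hTT, ← hV2]
    refine ⟨φ, mem_FF.2 ⟨x, ?_, hφx⟩, hc⟩
    rw [mem_rep (Z.pair _ _ hV) hw hV1]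
    exact Or.inl hx
  · exact ⟨φ, mem_FF.2 ⟨x, hx, hφx⟩, hc⟩

theorem S_down (hF : Feat Z Fc) (hw : Walk A w) (hq : (U, U') ∈ ST Z Fc M w) :
    (ST Z Fc M (Rule.rep w U U')).card ≤ (ST Z Fc M w).card + Z.CC := by
  unfold ST at hq
  rw [mem_filter, Rule.mem_S] at hq
  obtain ⟨⟨hT, hfr⟩, hTT⟩ := hq
  simp only at hT hfr hTT
  obtain ⟨hw', hfr', hinv⟩ := rep_inv (Z.pair _ _ hT) hw hfr
  refine Rule.card_le_of_diff (N := Z.near (hd U)) ?_ (Z.card_near _)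
  rintro ⟨V, V'⟩ h1 h2
  by_contra hcon
  have hd : ∀ x ∈ U ++ U', x ∉ V ++ V' := by
    intro x hx hx'
    unfold ST at h1
    rw [mem_filter, Rule.mem_S] at h1
    exact hcon (near_of hT h1.1.1 hx hx')
  unfold ST at h1 h2
  rw [mem_filter, Rule.mem_S] at h1 h2
  obtain ⟨⟨hV, hV1⟩, hV2⟩ := h1
  simp only at hV hV1 hV2 h2
  have hV3 := (free_iff (Z.pair _ _ hT) hw hfr (Rule.ne_nil (Z.pair _ _ hV)) hd).2 hV1
  refine h2 ⟨⟨hV, hV3⟩, Set.Subset.antisymm ?_ (TT_mono (FF_up hF hV hw hV3))⟩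
  rintro c ⟨φ, hφ, hc⟩
  rw [mem_FF] at hφ
  obtain ⟨x, hx, hφx⟩ := hφ
  rw [mem_rep (Z.pair _ _ hV) hw hV3] at hx
  rcases hx with hx | ⟨hx, -⟩
  · rw [← hTT, ← hV2]
    refine ⟨φ, mem_FF.2 ⟨x, ?_, hφx⟩, hc⟩
    rw [mem_rep (Z.pair _ _ hV) hw' hV1]
    exact Or.inl hx
  · exact ⟨φ, mem_FF.2 ⟨x, hx, hφx⟩, hc⟩

theorem B_up (hF : Feat Z Fc) (hw : Walk A w) (hq : (U, U') ∈ ST Z Fc M w) :
    (BT Z Fc M w).card ≤ (BT Z Fc M (Rule.rep w U U')).card + Z.CC := by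
  unfold ST at hq
  rw [mem_filter, Rule.mem_S] at hq
  obtain ⟨⟨hT, hfr⟩, hTT⟩ := hq
  simp only at hT hfr hTT
  obtain ⟨hw', hfr', hinv⟩ := rep_inv (Z.pair _ _ hT) hw hfr
  refine Rule.card_le_of_diff (N := Z.near (hd U)) ?_ (Z.card_near _)
  rintro ⟨V, V'⟩ h1 h2
  by_contra hcon
  have hd : ∀ x ∈ U ++ U', x ∉ V ++ V' := by
    intro x hx hx'
    unfold BT at h1
    rw [mem_filter, Rule.mem_B] at h1
    exact hcon (near_of hT h1.1.1 hx hx')
  have hd' : ∀ x ∈ U ++ U', x ∉ V' ++ V := by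
    intro x hx hx'
    refine hd x hx ?_
    rw [List.mem_append] at hx' ⊢
    exact hx'.symm
  unfold BT at h1 h2
  rw [mem_filter, Rule.mem_B] at h1 h2
  obtain ⟨⟨hV, hV1⟩, hV2⟩ := h1
  simp only at hV hV1 hV2 h2
  have hV3 := (free_iff (Z.pair _ _ hT) hw hfr (Rule.ne_nil (Z.pair _ _ hV).symm) hd').1 hV1
  refine h2 ⟨⟨hV, hV3⟩, Set.Subset.antisymm (TT_mono (FF_down hF hV hw' hV3)) ?_⟩
  rw [hTT, ← hV2]
  refine TT_mono ?_
  intro φ hφ
  rw [mem_FF] at hφ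
  obtain ⟨x, hx, hφx⟩ := hφ
  rw [mem_rep (Z.pair _ _ hV).symm hw hV1] at hx
  rw [mem_FF]
  rcases hx with hx | ⟨hx, hxV⟩
  · refine ⟨x, ?_, hφx⟩
    rw [mem_rep (Z.pair _ _ hV).symm hw' hV3]
    exact Or.inl hx
  · by_cases hxU : x ∈ U
    · obtain ⟨y, hy, hφy⟩ := hF.1 U U' hT x hxU φ hφx
      refine ⟨y, ?_, hφy⟩
      rw [mem_rep (Z.pair _ _ hV).symm hw' hV3]
      refine Or.inr ⟨?_, fun hc => hd y (by simp [hy]) (by simp [hc])⟩
      rw [mem_rep (Z.pair _ _ hT) hw hfr]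
      exact Or.inl hy
    · refine ⟨x, ?_, hφx⟩
      rw [mem_rep (Z.pair _ _ hV).symm hw' hV3]
      refine Or.inr ⟨?_, hxV⟩
      rw [mem_rep (Z.pair _ _ hT) hw hfr]
      exact Or.inr ⟨hx, hxU⟩

theorem B_down {n : ℕ} (hF : Feat Z Fc) (hf : ∀ x, (Fc x).card ≤ f) (hκ : HitX Fc M κ)
    (hwn : w ∈ Kw A n) (hq : (U, U') ∈ ST Z Fc M w) :
    (BT Z Fc M (Rule.rep w U U')).card ≤ (BT Z Fc M w).card + CT Z f κ := by
  have hw : Walk A w := ((Z.mem_K).1 hwn).2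
  unfold ST at hq
  rw [mem_filter, Rule.mem_S] at hq
  obtain ⟨⟨hT, hfr⟩, hTT⟩ := hq
  simp only at hT hfr hTT
  obtain ⟨hw', hfr', hinv⟩ := rep_inv (Z.pair _ _ hT) hw hfr
  choose H hH1 hH2 hH3 using fun φ => hκ φ w
  have hlost : ∀ ψ ∈ FF Fc w,
      ((Z.B w).filter (fun q => ψ ∉ FF Fc (Rule.rep w q.2 q.1))).card ≤ Z.c0 :=
    fun ψ hψ => lost_card hwn hψ
  obtain ⟨N2, hN2⟩ : ∃ N2 : Finset (List P × List P), N2 = U'.toFinset.biUnion (fun x =>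
    (Fc x).biUnion (fun φ => (H φ).biUnion (fun ψ =>
      (Z.B w).filter (fun q => ψ ∉ FF Fc (Rule.rep w q.2 q.1))))) := ⟨_, rfl⟩
  have hN2c : N2.card ≤ (Z.k + Z.s) * (f * (κ * Z.c0)) := by
    rw [hN2]
    refine (card_biUnion_le_card_mul _ _ (f * (κ * Z.c0)) fun x _ => ?_).trans ?_
    · refine (card_biUnion_le_card_mul _ _ (κ * Z.c0) fun φ _ => ?_).trans
        (Nat.mul_le_mul_right _ (hf x))
      refine (card_biUnion_le_card_mul _ _ Z.c0 fun ψ hψ => ?_).trans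
        (Nat.mul_le_mul_right _ (hH1 φ))
      exact hlost ψ (hH2 φ hψ)
    · refine Nat.mul_le_mul_right _ ?_
      refine (List.toFinset_card_le _).trans ?_
      rw [(Z.len _ _ hT).2]
  refine Rule.card_le_of_diff (N := Z.near (hd U) ∪ N2) ?_ ((card_union_le _ _).trans
    (by unfold CT; have := Z.card_near (hd U); omega))
  rintro ⟨V, V'⟩ h1 h2
  rw [mem_union]
  by_contra hcon
  push Not at hcon
  obtain ⟨hcon1, hcon2⟩ := hcon
  have hd : ∀ x ∈ U ++ U', x ∉ V ++ V' := by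
    intro x hx hx'
    unfold BT at h1
    rw [mem_filter, Rule.mem_B] at h1
    exact hcon1 (near_of hT h1.1.1 hx hx')
  have hd' : ∀ x ∈ U ++ U', x ∉ V' ++ V := by
    intro x hx hx'
    refine hd x hx ?_
    rw [List.mem_append] at hx' ⊢
    exact hx'.symm
  unfold BT at h1 h2
  rw [mem_filter, Rule.mem_B] at h1 h2
  obtain ⟨⟨hV, hV1⟩, hV2⟩ := h1
  simp only at hV hV1 hV2 h2
  have hV3 := (free_iff (Z.pair _ _ hT) hw hfr (Rule.ne_nil (Z.pair _ _ hV).symm) hd').2 hV1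
  have hVB : (V, V') ∈ Z.B w := by
    rw [Rule.mem_B]
    exact ⟨hV, hV3⟩
  have hne : ¬ TT Fc M (Rule.rep w V' V) = TT Fc M w := fun h => h2 ⟨⟨hV, hV3⟩, h⟩
  have hsub : TT Fc M (Rule.rep w V' V) ⊆ TT Fc M w := TT_mono (FF_down hF hV hw hV3)
  obtain ⟨c, hc1, hc2⟩ : ∃ c, c ∈ TT Fc M w ∧ c ∉ TT Fc M (Rule.rep w V' V) := by
    by_contra hcc
    push Not at hcc
    exact hne (Set.Subset.antisymm hsub hcc)
  have hc3 : c ∈ TT Fc M (Rule.rep (Rule.rep w U U') V' V) := by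
    rw [hV2, hTT]
    exact hc1
  obtain ⟨φ, hφ, hcφ⟩ := hc3
  rw [mem_FF] at hφ
  obtain ⟨x, hx, hφx⟩ := hφ
  rw [mem_rep (Z.pair _ _ hV).symm hw' hV1] at hx
  have hxU : x ∈ U' := by
    by_contra hxU
    refine hc2 ⟨φ, mem_FF.2 ⟨x, ?_, hφx⟩, hcφ⟩
    rw [mem_rep (Z.pair _ _ hV).symm hw hV3]
    rcases hx with hx | ⟨hx, hxV⟩
    · exact Or.inl hx
    · rw [mem_rep (Z.pair _ _ hT) hw hfr] at hx
      rcases hx with hx | ⟨hx, -⟩
      · exact absurd hx hxU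
      · exact Or.inr ⟨hx, hxV⟩
  obtain ⟨ψ, hψ, hcψ⟩ := hH3 φ c hcφ hc1
  refine hcon2 ?_
  rw [hN2]
  simp only [mem_biUnion, List.mem_toFinset, mem_filter]
  refine ⟨x, hxU, φ, hφx, ψ, hψ, hVB, fun hcc => hc2 ⟨ψ, hcc, hcψ⟩⟩

end change

/-- the system of the moves which preserve the statistic -/
def sysT (hF : Feat Z Fc) (hf : ∀ x, (Fc x).card ≤ f) (hκ : HitX Fc M κ) :
    Sys (List P) (List P × List P) where
  K := Kw A
  S := ST Z Fc M
  B := BT Z Fc M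
  ins w q := Rule.rep w q.1 q.2
  rem w q := Rule.rep w q.2 q.1
  s := Z.s
  C := CT Z f κ
  n0 := 0
  hC := by unfold CT Rule.CC; omega
  ins_K := fun n w q hw hq => Z.sys.ins_K n w q hw (filter_subset _ _ hq)
  ins_B := by
    rintro n w ⟨U, U'⟩ hw hq
    have hw' := (Z.mem_K).1 hw
    unfold ST at hq
    rw [mem_filter, Rule.mem_S] at hq
    obtain ⟨⟨hT, hfr⟩, hTT⟩ := hq
    obtain ⟨h1, h2, h3⟩ := rep_inv (Z.pair _ _ hT) hw'.2 hfr
    unfold BT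
    rw [mem_filter, Rule.mem_B]
    simp only at hT hfr hTT h1 h2 h3 ⊢
    rw [h3]
    exact ⟨⟨hT, h2⟩, hTT.symm⟩
  rem_ins := fun n w q hw hq => Z.sys.rem_ins n w q hw (filter_subset _ _ hq)
  rem_K := fun n w q h0 hw hq => Z.sys.rem_K n w q h0 hw (filter_subset _ _ hq)
  rem_S := by
    rintro n w ⟨U, U'⟩ - hw hq
    have hw' := (Z.mem_K).1 hw
    unfold BT at hq
    rw [mem_filter, Rule.mem_B] at hq
    obtain ⟨⟨hT, hfr⟩, hTT⟩ := hq
    obtain ⟨h1, h2, h3⟩ := rep_inv (Z.pair _ _ hT).symm hw'.2 hfr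
    unfold ST
    rw [mem_filter, Rule.mem_S]
    simp only at hT hfr hTT h1 h2 h3 ⊢
    rw [h3]
    exact ⟨⟨hT, h2⟩, hTT.symm⟩
  ins_rem := fun n w q h0 hw hq => Z.sys.ins_rem n w q h0 hw (filter_subset _ _ hq)
  chS1 := by
    rintro n w ⟨U, U'⟩ hw hq
    refine (S_up hF ((Z.mem_K).1 hw).2 hq).trans (Nat.add_le_add_left ?_ _)
    unfold CT
    omega
  chS2 := by
    rintro n w ⟨U, U'⟩ hw hq
    refine (S_down hF ((Z.mem_K).1 hw).2 hq).trans (Nat.add_le_add_left ?_ _)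
    unfold CT
    omega
  chB1 := by
    rintro n w ⟨U, U'⟩ hw hq
    refine (B_up hF ((Z.mem_K).1 hw).2 hq).trans (Nat.add_le_add_left ?_ _)
    unfold CT
    omega
  chB2 := by
    rintro n w ⟨U, U'⟩ hw hq
    exact B_down hF hf hκ hw hq
  S_le := by
    intro n w hw
    refine (card_filter_le _ _).trans ((Z.sys.S_le n w hw).trans ?_)
    refine Nat.mul_le_mul_right _ ?_
    change Z.CC ≤ CT Z f κ
    unfold CT
    omega

/-- weights given by the last point and the statistic -/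
theorem wtT (hF : Feat Z Fc) (hf : ∀ x, (Fc x).card ≤ f) (hκ : HitX Fc M κ)
    (g : Set cls × P → ℝ) (hg : ∀ v, 0 ≤ g v) :
    (sysT hF hf hκ).Wt (fun w => g (TT Fc M w, lst w)) := by
  refine ⟨fun n w _ => hg _, ?_⟩
  rintro n w ⟨U, U'⟩ hw hq
  change w ∈ Kw A n at hw
  change (U, U') ∈ ST Z Fc M w at hq
  have hw' := (Z.mem_K).1 hw
  unfold ST at hq
  rw [mem_filter, Rule.mem_S] at hq
  obtain ⟨⟨hT, hfr⟩, hTT⟩ := hq
  obtain ⟨L, R, h1, h2, -⟩ := Rule.rep_all (Z.pair _ _ hT) hw'.2 hfr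
  change g (TT Fc M (Rule.rep w U U'), lst (Rule.rep w U U')) = g (TT Fc M w, lst w)
  simp only at hT hfr hTT h1 h2
  have hl : lst (Rule.rep w U U') = lst w := by
    rw [h2]
    conv_rhs => rw [h1]
    exact (lst_rep (Z.pair _ _ hT)).symm
  rw [hTT, hl]

/-- few witnesses for all classes -/
def HitG (A : P → P → Prop) (Fc : P → Finset P) (M : cls → P → Prop) (n b : ℕ) : Prop :=
  ∀ w ∈ Kw A n, ∃ H : Finset P, H.card ≤ b ∧ H ⊆ FF Fc w ∧ ∀ c ∈ TT Fc M w, ∃ ψ ∈ H, M c ψ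

/-- few downward moves change the statistic -/
theorem B_le_BT (hF : Feat Z Fc) {n b : ℕ} (hb : HitG A Fc M n b) {w : List P}
    (hw : w ∈ Kw A n) : (Z.B w).card ≤ (BT Z Fc M w).card + b * Z.c0 := by
  obtain ⟨H, h1, h2, h3⟩ := hb w hw
  have hw' := (Z.mem_K).1 hw
  refine Rule.card_le_of_diff (N := H.biUnion (fun ψ =>
      (Z.B w).filter (fun q => ψ ∉ FF Fc (Rule.rep w q.2 q.1)))) ?_
    ((card_biUnion_le_card_mul _ _ Z.c0 fun ψ hψ => lost_card hw (h2 hψ)).trans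
      (Nat.mul_le_mul_right _ h1))
  rintro ⟨V, V'⟩ hV hV'
  have hVB := hV
  unfold BT at hV'
  rw [mem_filter] at hV'
  rw [Rule.mem_B] at hV
  obtain ⟨hT, hfr⟩ := hV
  simp only at hT hfr hV'
  have hne : ¬ TT Fc M (Rule.rep w V' V) = TT Fc M w := fun h => hV' ⟨hVB, h⟩
  have hsub : TT Fc M (Rule.rep w V' V) ⊆ TT Fc M w := TT_mono (FF_down hF hT hw'.2 hfr)
  obtain ⟨c, hc1, hc2⟩ : ∃ c, c ∈ TT Fc M w ∧ c ∉ TT Fc M (Rule.rep w V' V) := by
    by_contra hcc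
    push Not at hcc
    exact hne (Set.Subset.antisymm hsub hcc)
  obtain ⟨ψ, hψ, hcψ⟩ := h3 c hc1
  simp only [mem_biUnion, mem_filter]
  exact ⟨ψ, hψ, hVB, fun hcc => hc2 ⟨ψ, hcc, hcψ⟩⟩

end

end Q294.Tr
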