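import Pool.Agent.Q294.Tr2
import Pool.Agent.Q78.UR.Ratio

/-!
# Kesten's inequality for the walks with a given value of a statistic
-/

set_option autoImplicit false

namespace Q294.Tr

open Finset Filter Topology TH966.AK Q294.Av
open scoped Classical

noncomputable section

variable {A : P → P → Prop} {Z : Rule A} {μ K : ℝ} {Fc : P → Finset P}

/-- number of walks with value in `S` -/
def NV (A : P → P → Prop) (Fc : P → Finset P) {cls : Type} (M : cls → P → Prop)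
    (S : Set (Set cls × P)) (n : ℕ) : ℝ :=
  (((Kw A n).filter (fun w => (TT Fc M w, lst w) ∈ S)).card : ℝ)

theorem NV_nonneg {cls : Type} (M : cls → P → Prop) (S : Set (Set cls × P)) (n : ℕ) :
    0 ≤ NV A Fc M S n := Nat.cast_nonneg _

theorem NV_le {cls : Type} (M : cls → P → Prop) (S : Set (Set cls × P)) (n : ℕ) :
    NV A Fc M S n ≤ (Kw A n).card := by
  unfold NV
  exact_mod_cast card_filter_le _ _

theorem NV_mono {cls : Type} (M : cls → P → Prop) {S S' : Set (Set cls × P)} (h : S ⊆ S') (n : ℕ) :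
    NV A Fc M S n ≤ NV A Fc M S' n := by
  unfold NV
  have : (Kw A n).filter (fun w => (TT Fc M w, lst w) ∈ S) ⊆
      (Kw A n).filter (fun w => (TT Fc M w, lst w) ∈ S') := by
    intro w hw
    rw [mem_filter] at hw ⊢
    exact ⟨hw.1, h hw.2⟩
  exact_mod_cast card_le_card this

theorem NV_all {cls : Type} (M : cls → P → Prop) (S : Set (Set cls × P)) (hS : ∀ v, v ∈ S)
    (n : ℕ) : NV A Fc M S n = (Kw A n).card := by
  unfold NV
  congr 2
  ext w
  rw [mem_filter]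
  exact ⟨fun h => h.1, fun h => ⟨h, hS _⟩⟩

theorem NV_univ {cls : Type} (M : cls → P → Prop) (n : ℕ) :
    NV A Fc M Set.univ n = (Kw A n).card := NV_all M Set.univ Set.mem_univ n

/-- the indicator weight -/
def gS {cls : Type} (S : Set (Set cls × P)) (v : Set cls × P) : ℝ := if v ∈ S then 1 else 0

theorem NV_eq {cls : Type} (M : cls → P → Prop) (S : Set (Set cls × P)) (n : ℕ) :
    NV A Fc M S n = ∑ w ∈ Kw A n, gS S (TT Fc M w, lst w) := by
  unfold NV gS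
  rw [sum_boole]

/-- **Kesten's inequality for all values of all statistics** -/
theorem kesT (G : Growth Z μ K) (hF : Feat Z Fc) (f : ℕ) (hf : ∀ x, (Fc x).card ≤ f) :
    ∃ q : ℕ, 1 ≤ q ∧ ∀ κ : ℕ, ∃ (D θ : ℝ) (N1 : ℕ), 0 ≤ D ∧ 0 < θ ∧ θ < 1 ∧
      ∀ {cls : Type} (M : cls → P → Prop), HitX Fc M κ → ∀ n, N1 ≤ n →
      (∃ b, HitG A Fc M n b ∧ q * b ≤ n) → (∃ b, HitG A Fc M (n + Z.s) b ∧ q * b ≤ n + Z.s) →
      ∀ S : Set (Set cls × P), (θ * μ) ^ (n + Z.s) ≤ NV A Fc M S (n + Z.s) →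
        NV A Fc M S (n + Z.s) ^ 2 ≤ NV A Fc M S n * NV A Fc M S (n + Z.s + Z.s) * (1 + D / n) := by
  have hμ := G.hμ
  have hμ0 : 0 < μ := by linarith
  obtain ⟨M0, ρ, C0, hM0, hρ0, hρ1, hpoor⟩ := G.poor
  have hup := G.hup
  choose! c1 hc1 using hup
  refine ⟨2 * M0 * Z.c0 + 1, by omega, fun κ => ?_⟩
  have hCT : 1 ≤ CT Z f κ := by unfold CT Rule.CC; omega
  obtain ⟨Mc, θ, C', hMc, hθ0, hθ1, hC', hpat⟩ :=
    patternU (α := List P) (σ := List P × List P) (CT Z f κ) Z.s 0 (2 * M0) hCT (by omega) μ ρ C0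
      hμ hρ0 hρ1 c1
  obtain ⟨θ₁, hθ₁⟩ : ∃ θ₁, θ₁ = (θ + 1) / 2 := ⟨_, rfl⟩
  have hconv := convexU (α := List P) (σ := List P × List P) (CT Z f κ) Z.s 0 Mc hCT hMc μ θ θ₁ C'
    hμ0 hθ0 (by rw [hθ₁]; linarith)
  obtain ⟨N1, hN1⟩ := eventually_atTop.1 hconv
  refine ⟨8 * (6 * CT Z f κ * Mc + 1), θ₁, N1, by positivity,
    by rw [hθ₁]; linarith, by rw [hθ₁]; linarith, ?_⟩
  intro cls M hκ n hn hb1 hb2 S hbig
  have hpoorT : ∀ m, (∃ b, HitG A Fc M m b ∧ (2 * M0 * Z.c0 + 1) * b ≤ m) →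
      (((sysT hF hf hκ).K m).filter (fun w => 2 * M0 * ((sysT hF hf hκ).B w).card ≤ m)).card ≤
        C0 * ρ ^ m := by
    rintro m ⟨b, hb, hbm⟩
    refine le_trans ?_ (hpoor m)
    have hsub : ((sysT hF hf hκ).K m).filter
        (fun w => 2 * M0 * ((sysT hF hf hκ).B w).card ≤ m) ⊆
        (Kw A m).filter (fun w => M0 * (Z.B w).card ≤ m) := by
      intro w hw
      rw [mem_filter] at hw ⊢
      obtain ⟨hw1, hw2⟩ := hw
      change w ∈ Kw A m at hw1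
      change 2 * M0 * (BT Z Fc M w).card ≤ m at hw2
      refine ⟨hw1, ?_⟩
      have h1 := B_le_BT hF hb hw1
      have h2 : M0 * (Z.B w).card ≤ M0 * ((BT Z Fc M w).card + b * Z.c0) :=
        Nat.mul_le_mul_left _ h1
      have h3 : 2 * (M0 * ((BT Z Fc M w).card + b * Z.c0)) =
          2 * M0 * (BT Z Fc M w).card + 2 * M0 * Z.c0 * b := by ring
      have h4 : (2 * M0 * Z.c0 + 1) * b = 2 * M0 * Z.c0 * b + b := by ring
      omega
    exact_mod_cast card_le_card hsub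
  have hbad : ∀ m, (∃ b, HitG A Fc M m b ∧ (2 * M0 * Z.c0 + 1) * b ≤ m) →
      (sysT hF hf hκ).badf (fun w => gS S (TT Fc M w, lst w)) Mc m ≤ C' * (θ * μ) ^ m := by
    intro m hm
    have h1 := hpat (sysT hF hf hκ) rfl rfl rfl (fun τ hτ k => hc1 τ hτ k) m (hpoorT m hm)
    refine le_trans ?_ h1
    unfold Sys.badf
    have : ∀ w ∈ (sysT hF hf hκ).bad Mc m, gS S (TT Fc M w, lst w) ≤ 1 := by
      intro w _
      unfold gS
      split_ifs <;> norm_num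
    refine (sum_le_sum this).trans ?_
    rw [sum_const, nsmul_eq_mul, mul_one]
  have haf : ∀ m, (sysT hF hf hκ).af (fun w => gS S (TT Fc M w, lst w)) m = NV A Fc M S m := by
    intro m
    rw [NV_eq]
    rfl
  have h1 := hN1 n hn (sysT hF hf hκ) rfl rfl rfl (fun w => gS S (TT Fc M w, lst w))
    (wtT hF hf hκ (gS S) fun v => by unfold gS; split_ifs <;> norm_num) (hbad n hb1)
    (hbad _ hb2)
  rw [haf, haf, haf] at h1
  exact h1 hbig

/-- **rare values**: the ratio of the numbers at lengths `n` and `n + s` -/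
theorem ratioT (G : Growth Z μ K) (hF : Feat Z Fc) (f : ℕ) (hf : ∀ x, (Fc x).card ≤ f) :
    ∃ q : ℕ, 1 ≤ q ∧ ∀ κ N : ℕ, ∃ (C δ : ℝ) (N0 : ℕ), 0 < C ∧ 0 < δ ∧ 3 ≤ N0 ∧
      ∀ {cls : Type} (M : cls → P → Prop), HitX Fc M κ →
      (∀ n, N ≤ n → ∃ b, HitG A Fc M n b ∧ q * b ≤ n) →
      ∀ (S : Set (Set cls × P)) (n : ℕ), N0 ≤ n → ∀ a : ℝ, Real.log n ^ 2 ≤ a → a ≤ δ * n →
      (Real.exp (-a) ≤ NV A Fc M S n / μ ^ n ∨
        Real.exp (-a) ≤ NV A Fc M S (n + Z.s) / μ ^ (n + Z.s)) →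
      |NV A Fc M S (n + Z.s) / μ ^ (n + Z.s) - NV A Fc M S n / μ ^ n| ≤
        C * √(a / n) * (NV A Fc M S n / μ ^ n) := by
  have hμ := G.hμ
  have hμ0 : 0 < μ := by linarith
  obtain ⟨q, hq, hall⟩ := kesT G hF f hf
  refine ⟨q, hq, fun κ N => ?_⟩
  obtain ⟨D, θ, N1, hD, hθ0, hθ1, hkes⟩ := hall κ
  obtain ⟨C, δ, N0, hC, hδ, hN0, -, hrat⟩ := Q78.UR.ratio Z.s G.hs (max N N1) D θ K hD hθ0 hθ1 G.hK
  refine ⟨C, δ, N0, hC, hδ, hN0, ?_⟩
  intro cls M hκ hb S n hn a ha1 ha2 hor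
  refine hrat (fun m => NV A Fc M S m / μ ^ m) ⟨?_, ?_, ?_⟩ n hn a ha1 ha2 hor
  · intro m
    exact div_nonneg (NV_nonneg M S m) (by positivity)
  · intro m hm
    rw [div_le_iff₀ (by positivity), mul_comm]
    exact (NV_le M S m).trans (G.up m hm)
  · intro m hm hbig
    have hm1 : N ≤ m := (le_max_left _ _).trans hm
    have hm2 : N1 ≤ m := (le_max_right _ _).trans hm
    rw [le_div_iff₀ (by positivity), ← mul_pow] at hbig
    have h1 := hkes M hκ m hm2 (hb m hm1) (hb _ (by omega)) S hbig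
    have e3 : (μ ^ (m + Z.s)) ^ 2 = μ ^ m * μ ^ (m + 2 * Z.s) := by
      rw [← pow_mul, ← pow_add]
      congr 1
      ring
    have e4 : m + Z.s + Z.s = m + 2 * Z.s := by ring
    rw [e4] at h1
    rw [div_pow, div_mul_div_comm, div_mul_eq_mul_div, e3]
    exact div_le_div_of_nonneg_right h1 (by positivity)

end

end Q294.Tr
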