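import Pool.Agent.Q294.Tr4
import Pool.Agent.Q294.Av8

/-!
# Blocks and extreme values
-/

set_option autoImplicit false

namespace Q294.Tr

open Finset Filter Topology TH966.AK Q294.Av
open scoped Classical

noncomputable section

variable {A : P → P → Prop} {Z : Rule A} {μ K : ℝ} {Fc : P → Finset P}

/-- the block of a point -/
def blk (ℓ : ℕ) (c φ : ℤ × ℤ) : ℤ × ℤ := ((φ.1 - c.1) / ℓ, (φ.2 - c.2) / ℓ)

/-- the classes: blocks, and superlevel sets of functions -/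
def Mst (ℓ : ℕ) (c : ℤ × ℤ) {m : ℕ} (F : Fin m → ℤ × ℤ → ℤ) : (ℤ × ℤ) ⊕ (Fin m × ℤ) → P → Prop
  | .inl b, φ => blk ℓ c φ = b
  | .inr u, φ => u.2 ≤ F u.1 φ

theorem exists_max (S : Finset P) (hS : S.Nonempty) (F : P → ℤ) :
    ∃ ψ ∈ S, ∀ φ ∈ S, F φ ≤ F ψ := Finset.exists_max_image S F hS

theorem hitX (ℓ : ℕ) (c : ℤ × ℤ) {m : ℕ} (F : Fin m → ℤ × ℤ → ℤ) :
    HitX Fc (Mst ℓ c F) (1 + m) := by
  intro φ w
  rcases (FF Fc w).eq_empty_or_nonempty with he | hne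
  · refine ⟨∅, by simp, by simp, ?_⟩
    rintro c' - ⟨ψ, hψ, -⟩
    rw [he] at hψ
    exact absurd hψ (Finset.notMem_empty _)
  choose ψ hψ1 hψ2 using fun u => exists_max (FF Fc w) hne (F u)
  by_cases hex : ∃ ψ' ∈ FF Fc w, blk ℓ c ψ' = blk ℓ c φ
  · obtain ⟨ψ', h1, h2⟩ := hex
    refine ⟨insert ψ' (univ.image ψ), ?_, ?_, ?_⟩
    · refine (card_insert_le _ _).trans ?_
      have := card_image_le (s := (univ : Finset (Fin m))) (f := ψ)
      rw [card_univ, Fintype.card_fin] at this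
      omega
    · intro x hx
      rw [mem_insert, mem_image] at hx
      rcases hx with rfl | ⟨u, -, rfl⟩
      · exact h1
      · exact hψ1 u
    · rintro (b | u) hc ⟨χ, hχ, hcχ⟩
      · refine ⟨ψ', mem_insert_self _ _, ?_⟩
        change blk ℓ c φ = b at hc
        change blk ℓ c ψ' = b
        rw [h2, hc]
      · refine ⟨ψ u.1, mem_insert_of_mem (mem_image_of_mem _ (mem_univ _)), ?_⟩
        change u.2 ≤ F u.1 χ at hcχ
        change u.2 ≤ F u.1 (ψ u.1)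
        exact hcχ.trans (hψ2 u.1 χ hχ)
  · refine ⟨univ.image ψ, ?_, ?_, ?_⟩
    · have := card_image_le (s := (univ : Finset (Fin m))) (f := ψ)
      rw [card_univ, Fintype.card_fin] at this
      omega
    · intro x hx
      rw [mem_image] at hx
      obtain ⟨u, -, rfl⟩ := hx
      exact hψ1 u
    · rintro (b | u) hc ⟨χ, hχ, hcχ⟩
      · exfalso
        refine hex ⟨χ, hχ, ?_⟩
        change blk ℓ c φ = b at hc
        change blk ℓ c χ = b at hcχ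
        rw [hc, hcχ]
      · refine ⟨ψ u.1, mem_image_of_mem _ (mem_univ _), ?_⟩
        change u.2 ≤ F u.1 χ at hcχ
        change u.2 ≤ F u.1 (ψ u.1)
        exact hcχ.trans (hψ2 u.1 χ hχ)

/-- points of a walk at different times -/
theorem idx_dist (Z : Rule A) {w : List P} (hc : w.IsChain A) (i : ℕ) :
    ∀ (k : ℕ) (h : i + k < w.length),
      |(w[i]'(by omega)).1 - (w[i + k]'h).1| ≤ k ∧ |(w[i]'(by omega)).2 - (w[i + k]'h).2| ≤ k := by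
  intro k
  induction k with
  | zero => intro h; simp
  | succ k ih =>
    intro h
    have h1 := ih (by omega)
    have h2 := Z.step _ _ (List.isChain_iff_getElem.1 hc (i + k) (by omega))
    rw [abs_le, abs_le] at *
    have e : i + k + 1 = i + (k + 1) := by ring
    simp only [e] at h2
    push_cast
    constructor <;> constructor <;> linarith [h1.1.1, h1.1.2, h1.2.1, h1.2.2, h2.1.1, h2.1.2,
      h2.2.1, h2.2.2]

theorem blk_near {ℓ : ℕ} (hℓ : 1 ≤ ℓ) (c : ℤ × ℤ) {x φ : P} (h1 : |x.1 - φ.1| ≤ 3 * ℓ)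
    (h2 : |x.2 - φ.2| ≤ 3 * ℓ) : blk ℓ c φ ∈ box (blk ℓ c x) 3 := by
  have hℓ' : (0 : ℤ) < ℓ := by exact_mod_cast hℓ
  have key : ∀ a b : ℤ, |a - b| ≤ 3 * ℓ → |a / ℓ - b / ℓ| ≤ 3 := by
    intro a b hab
    rw [abs_le] at hab ⊢
    have e1 : a / ℓ ≤ b / ℓ + 3 := by
      have h3 : a ≤ b + 3 * ℓ := by linarith
      have h4 := Int.ediv_le_ediv hℓ' h3
      rwa [Int.add_mul_ediv_right _ _ (by omega)] at h4
    have e2 : b / ℓ ≤ a / ℓ + 3 := by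
      have h3 : b ≤ a + 3 * ℓ := by linarith
      have h4 := Int.ediv_le_ediv hℓ' h3
      rwa [Int.add_mul_ediv_right _ _ (by omega)] at h4
    constructor <;> linarith
  rw [mem_box]
  unfold blk
  simp only
  refine ⟨key _ _ ?_, key _ _ ?_⟩
  · rw [show x.1 - c.1 - (φ.1 - c.1) = x.1 - φ.1 by ring]
    exact h1
  · rw [show x.2 - c.2 - (φ.2 - c.2) = x.2 - φ.2 by ring]
    exact h2

/-- few blocks -/
theorem blocks_card (hn : ∀ x, ∀ φ ∈ Fc x, |x.1 - φ.1| ≤ 2 ∧ |x.2 - φ.2| ≤ 2) {ℓ : ℕ}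
    (hℓ : 1 ≤ ℓ) (c : ℤ × ℤ) {n : ℕ} {w : List P} (hw : w ∈ Kw A n) (Z : Rule A) :
    ((FF Fc w).image (blk ℓ c)).card ≤ 49 * (n / ℓ + 1) := by
  have hw' := (Z.mem_K).1 hw
  have hsub : (FF Fc w).image (blk ℓ c) ⊆
      (range (n / ℓ + 1)).biUnion (fun j => box (blk ℓ c (w.getD (j * ℓ) 0)) 3) := by
    intro b hb
    rw [mem_image] at hb
    obtain ⟨φ, hφ, rfl⟩ := hb
    rw [mem_FF] at hφ
    obtain ⟨x, hx, hφx⟩ := hφ
    obtain ⟨i, hi, rfl⟩ := List.getElem_of_mem hx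
    rw [mem_biUnion]
    have hin : i ≤ n := by omega
    have hdiv := Nat.div_add_mod i ℓ
    have hmod := Nat.mod_lt i (show 0 < ℓ by omega)
    have hjl : i / ℓ * ℓ ≤ i := Nat.div_mul_le_self i ℓ
    refine ⟨i / ℓ, mem_range.2 (Nat.lt_succ_of_le (Nat.div_le_div_right hin)), ?_⟩
    have hlt : i / ℓ * ℓ < w.length := by omega
    have hgd : w.getD (i / ℓ * ℓ) 0 = w[i / ℓ * ℓ]'hlt := by
      rw [List.getD_eq_getElem _ _ hlt]
    rw [hgd]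
    have h1 := idx_dist Z hw'.2.2.2 (i / ℓ * ℓ) (i - i / ℓ * ℓ) (by omega)
    have e : i / ℓ * ℓ + (i - i / ℓ * ℓ) = i := by omega
    simp only [e] at h1
    have h2 := hn _ φ hφx
    have h3 : ((i - i / ℓ * ℓ : ℕ) : ℤ) ≤ ℓ - 1 := by
      have e5 : i / ℓ * ℓ = ℓ * (i / ℓ) := Nat.mul_comm _ _
      omega
    have hℓ' : (1 : ℤ) ≤ ℓ := by exact_mod_cast hℓ
    refine blk_near hℓ c ?_ ?_
    · have h4 := h1.1
      have h5 := h2.1
      rw [abs_le] at h4 h5 ⊢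
      constructor <;> linarith [h4.1, h4.2, h5.1, h5.2]
    · have h4 := h1.2
      have h5 := h2.2
      rw [abs_le] at h4 h5 ⊢
      constructor <;> linarith [h4.1, h4.2, h5.1, h5.2]
  refine (card_le_card hsub).trans ((card_biUnion_le_card_mul _ _ 49 fun j _ => ?_).trans ?_)
  · rw [card_box]
    norm_num
  · rw [card_range, mul_comm]

theorem hitG (hn : ∀ x, ∀ φ ∈ Fc x, |x.1 - φ.1| ≤ 2 ∧ |x.2 - φ.2| ≤ 2) {ℓ : ℕ}
    (hℓ : 1 ≤ ℓ) (c : ℤ × ℤ) {m : ℕ} (F : Fin m → ℤ × ℤ → ℤ) (Z : Rule A) (n : ℕ) :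
    HitG A Fc (Mst ℓ c F) n (49 * (n / ℓ + 1) + m) := by
  intro w hw
  have hcard := blocks_card hn hℓ c hw Z
  rcases (FF Fc w).eq_empty_or_nonempty with he | hne
  · refine ⟨∅, by simp, by simp, ?_⟩
    rintro c' ⟨ψ, hψ, -⟩
    rw [he] at hψ
    exact absurd hψ (Finset.notMem_empty _)
  choose ψ hψ1 hψ2 using fun u => exists_max (FF Fc w) hne (F u)
  have hrep : ∀ b ∈ (FF Fc w).image (blk ℓ c), ∃ χ ∈ FF Fc w, blk ℓ c χ = b := by
    intro b hb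
    rw [mem_image] at hb
    exact hb
  choose! χ hχ1 hχ2 using hrep
  refine ⟨((FF Fc w).image (blk ℓ c)).image χ ∪ univ.image ψ, ?_, ?_, ?_⟩
  · refine (card_union_le _ _).trans (add_le_add (card_image_le.trans hcard) ?_)
    have := card_image_le (s := (univ : Finset (Fin m))) (f := ψ)
    rwa [card_univ, Fintype.card_fin] at this
  · intro x hx
    rw [mem_union, mem_image, mem_image] at hx
    rcases hx with ⟨b, hb, rfl⟩ | ⟨u, -, rfl⟩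
    · exact hχ1 b hb
    · exact hψ1 u
  · rintro (b | u) ⟨φ, hφ, hcφ⟩
    · change blk ℓ c φ = b at hcφ
      have hb : b ∈ (FF Fc w).image (blk ℓ c) := by
        rw [mem_image]
        exact ⟨φ, hφ, hcφ⟩
      exact ⟨χ b, mem_union_left _ (mem_image_of_mem _ hb), hχ2 b hb⟩
    · refine ⟨ψ u.1, mem_union_right _ (mem_image_of_mem _ (mem_univ _)), ?_⟩
      change u.2 ≤ F u.1 φ at hcφ
      change u.2 ≤ F u.1 (ψ u.1)
      exact hcφ.trans (hψ2 u.1 φ hφ)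

/-- **blocks and extreme values**: ratios and total variation -/
theorem main (G : Growth Z μ K) (hF : Feat Z Fc) (f : ℕ) (hf : ∀ x, (Fc x).card ≤ f)
    (hn : ∀ x, ∀ φ ∈ Fc x, |x.1 - φ.1| ≤ 2 ∧ |x.2 - φ.2| ≤ 2) :
    ∃ ℓ₀ : ℕ, 1 ≤ ℓ₀ ∧ ∀ m : ℕ, ∃ R : ℝ, 0 < R ∧ ∀ (ℓ : ℕ) (c : ℤ × ℤ) (F : Fin m → ℤ × ℤ → ℤ),
      ℓ₀ ≤ ℓ → ∀ (S0 : Set (Set ((ℤ × ℤ) ⊕ (Fin m × ℤ)) × P)) (n : ℕ), 2 ≤ n →
      0 < NV A Fc (Mst ℓ c F) S0 n →
      (R * er (NV A Fc (Mst ℓ c F) S0 n / (Kw A n).card) n ≤ 1 →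
        |NV A Fc (Mst ℓ c F) S0 (n + Z.s) / (μ ^ Z.s * NV A Fc (Mst ℓ c F) S0 n) - 1| ≤
          R * er (NV A Fc (Mst ℓ c F) S0 n / (Kw A n).card) n) ∧
      ∀ S ⊆ S0, |NV A Fc (Mst ℓ c F) S (n + Z.s) / NV A Fc (Mst ℓ c F) S0 (n + Z.s) -
          NV A Fc (Mst ℓ c F) S n / NV A Fc (Mst ℓ c F) S0 n| ≤
            R * er (NV A Fc (Mst ℓ c F) S0 n / (Kw A n).card) n := by
  obtain ⟨q, hq, hall⟩ := tvT G hF f hf
  refine ⟨98 * q, by omega, fun m => ?_⟩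
  obtain ⟨R, hR, hres⟩ := hall (1 + m) (2 * (q * (49 + m)))
  refine ⟨R, hR, fun ℓ c F hℓ S0 n hn2 hpos => ?_⟩
  have hℓ1 : 1 ≤ ℓ := by omega
  refine hres (Mst ℓ c F) (hitX ℓ c F) (fun k hk => ⟨49 * (k / ℓ + 1) + m,
    hitG hn hℓ1 c F Z k, ?_⟩) S0 n hn2 hpos
  have h1 : 98 * q * (k / ℓ) ≤ k := by
    refine (Nat.mul_le_mul_right _ hℓ).trans ?_
    rw [mul_comm]
    exact Nat.div_mul_le_self k ℓ
  have h2 : q * (49 * (k / ℓ + 1) + m) = 49 * q * (k / ℓ) + q * (49 + m) := by ring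
  have h3 : 98 * q * (k / ℓ) = 2 * (49 * q * (k / ℓ)) := by ring
  omega

end

end Q294.Tr
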