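import Pool.Agent.Q294.Tr2

/-!
# The moves which preserve a statistic: general statistics
-/

set_option autoImplicit false

namespace Q294.Ts

open Finset Filter Topology TH966.AK Q294.Av Q294.Tr
open scoped Classical

noncomputable section

variable {A : P → P → Prop} {Z : Rule A} {β γ : Type} {T : List P → β}

/-- whether a move changes the statistic depends little on other moves which preserve it -/
def Lip (Z : Rule A) (T : List P → β) (C : ℕ) : Prop :=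
  ∀ n w U U', w ∈ Kw A n → Z.T U U' → Free U U' w → T (Rule.rep w U U') = T w →
    ∃ N : Finset (List P × List P), N.card ≤ C ∧ ∀ V V', (V, V') ∉ N → Z.T V V' →
      (∀ x ∈ U ++ U', x ∉ V ++ V') →
      (Free V V' w → Free V V' (Rule.rep w U U') →
        (T (Rule.rep w V V') = T w ↔
          T (Rule.rep (Rule.rep w U U') V V') = T (Rule.rep w U U'))) ∧
      (Free V' V w → Free V' V (Rule.rep w U U') →
        (T (Rule.rep w V' V) = T w ↔
          T (Rule.rep (Rule.rep w U U') V' V) = T (Rule.rep w U U')))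

/-- few downward moves change the statistic -/
def Few (Z : Rule A) (T : List P → β) (n b : ℕ) : Prop :=
  ∀ w ∈ Kw A n, ∃ N : Finset (List P × List P), N.card ≤ b ∧ ∀ V V', (V, V') ∉ N → Z.T V V' →
    Free V' V w → T (Rule.rep w V' V) = T w

/-- pairs of statistics -/
theorem Lip.prod {T' : List P → γ} {C C' : ℕ} (h : Lip Z T C) (h' : Lip Z T' C') :
    Lip Z (fun w => (T w, T' w)) (C + C') := by
  intro n w U U' hw hT hf he
  simp only [Prod.mk.injEq] at he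
  obtain ⟨N, h1, h2⟩ := h n w U U' hw hT hf he.1
  obtain ⟨N', h1', h2'⟩ := h' n w U U' hw hT hf he.2
  refine ⟨N ∪ N', (card_union_le _ _).trans (add_le_add h1 h1'), fun V V' hN hV hd => ?_⟩
  rw [mem_union, not_or] at hN
  obtain ⟨a1, a2⟩ := h2 V V' hN.1 hV hd
  obtain ⟨b1, b2⟩ := h2' V V' hN.2 hV hd
  constructor
  · intro c1 c2
    simp only [Prod.mk.injEq]
    rw [a1 c1 c2, b1 c1 c2]
  · intro c1 c2
    simp only [Prod.mk.injEq]
    rw [a2 c1 c2, b2 c1 c2]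

theorem Few.prod {T' : List P → γ} {n b b' : ℕ} (h : Few Z T n b) (h' : Few Z T' n b') :
    Few Z (fun w => (T w, T' w)) n (b + b') := by
  intro w hw
  obtain ⟨N, h1, h2⟩ := h w hw
  obtain ⟨N', h1', h2'⟩ := h' w hw
  refine ⟨N ∪ N', (card_union_le _ _).trans (add_le_add h1 h1'), fun V V' hN hV hd => ?_⟩
  rw [mem_union, not_or] at hN
  simp only [Prod.mk.injEq]
  exact ⟨h2 V V' hN.1 hV hd, h2' V V' hN.2 hV hd⟩

theorem Lip.mono {C C' : ℕ} (h : Lip Z T C) (hC : C ≤ C') : Lip Z T C' := by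
  intro n w U U' hw hT hf he
  obtain ⟨N, h1, h2⟩ := h n w U U' hw hT hf he
  exact ⟨N, h1.trans hC, h2⟩

/-- the upward moves which preserve the statistic -/
def SG (Z : Rule A) (T : List P → β) (w : List P) : Finset (List P × List P) :=
  (Z.S w).filter (fun q => T (Rule.rep w q.1 q.2) = T w)

/-- the downward moves which preserve the statistic -/
def BG (Z : Rule A) (T : List P → β) (w : List P) : Finset (List P × List P) :=
  (Z.B w).filter (fun q => T (Rule.rep w q.2 q.1) = T w)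

theorem mem_SG {w V V' : List P} : (V, V') ∈ SG Z T w ↔
    (Z.T V V' ∧ Free V V' w) ∧ T (Rule.rep w V V') = T w := by
  unfold SG
  rw [mem_filter, Rule.mem_S]

theorem mem_BG {w V V' : List P} : (V, V') ∈ BG Z T w ↔
    (Z.T V V' ∧ Free V' V w) ∧ T (Rule.rep w V' V) = T w := by
  unfold BG
  rw [mem_filter, Rule.mem_B]

theorem change {C n : ℕ} (hL : Lip Z T C) {w U U' : List P} (hwn : w ∈ Kw A n)
    (hq : (U, U') ∈ SG Z T w) :
    ((SG Z T w).card ≤ (SG Z T (Rule.rep w U U')).card + (Z.CC + C) ∧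
      (SG Z T (Rule.rep w U U')).card ≤ (SG Z T w).card + (Z.CC + C)) ∧
    ((BG Z T w).card ≤ (BG Z T (Rule.rep w U U')).card + (Z.CC + C) ∧
      (BG Z T (Rule.rep w U U')).card ≤ (BG Z T w).card + (Z.CC + C)) := by
  have hw : Walk A w := ((Z.mem_K).1 hwn).2
  rw [mem_SG] at hq
  obtain ⟨⟨hT, hfr⟩, hTT⟩ := hq
  obtain ⟨N, hN1, hN2⟩ := hL n w U U' hwn hT hfr hTT
  have hcard : (Z.near (hd U) ∪ N).card ≤ Z.CC + C :=
    (card_union_le _ _).trans (add_le_add (Z.card_near _) hN1)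
  have hdis : ∀ V V', Z.T V V' → (V, V') ∉ Z.near (hd U) → (∀ x ∈ U ++ U', x ∉ V ++ V') :=
    fun V V' hV hn x hx hx' => hn (near_of hT hV hx hx')
  have hdis' : ∀ V V', Z.T V V' → (V, V') ∉ Z.near (hd U) → (∀ x ∈ U ++ U', x ∉ V' ++ V) := by
    intro V V' hV hn x hx hx'
    refine hdis V V' hV hn x hx ?_
    rw [List.mem_append] at hx' ⊢
    exact hx'.symm
  refine ⟨⟨?_, ?_⟩, ?_, ?_⟩
  · refine Rule.card_le_of_diff (N := Z.near (hd U) ∪ N) ?_ hcard
    rintro ⟨V, V'⟩ h1 h2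
    by_contra hcon
    rw [mem_union, not_or] at hcon
    rw [mem_SG] at h1
    have hV3 := (free_iff (Z.pair _ _ hT) hw hfr (Rule.ne_nil (Z.pair _ _ h1.1.1))
      (hdis V V' h1.1.1 hcon.1)).1 h1.1.2
    refine h2 (mem_SG.2 ⟨⟨h1.1.1, hV3⟩, ?_⟩)
    exact ((hN2 V V' hcon.2 h1.1.1 (hdis V V' h1.1.1 hcon.1)).1 h1.1.2 hV3).1 h1.2
  · refine Rule.card_le_of_diff (N := Z.near (hd U) ∪ N) ?_ hcard
    rintro ⟨V, V'⟩ h1 h2
    by_contra hcon
    rw [mem_union, not_or] at hcon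
    rw [mem_SG] at h1
    have hV3 := (free_iff (Z.pair _ _ hT) hw hfr (Rule.ne_nil (Z.pair _ _ h1.1.1))
      (hdis V V' h1.1.1 hcon.1)).2 h1.1.2
    refine h2 (mem_SG.2 ⟨⟨h1.1.1, hV3⟩, ?_⟩)
    exact ((hN2 V V' hcon.2 h1.1.1 (hdis V V' h1.1.1 hcon.1)).1 hV3 h1.1.2).2 h1.2
  · refine Rule.card_le_of_diff (N := Z.near (hd U) ∪ N) ?_ hcard
    rintro ⟨V, V'⟩ h1 h2
    by_contra hcon
    rw [mem_union, not_or] at hcon
    rw [mem_BG] at h1
    have hV3 := (free_iff (Z.pair _ _ hT) hw hfr (Rule.ne_nil (Z.pair _ _ h1.1.1).symm)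
      (hdis' V V' h1.1.1 hcon.1)).1 h1.1.2
    refine h2 (mem_BG.2 ⟨⟨h1.1.1, hV3⟩, ?_⟩)
    exact ((hN2 V V' hcon.2 h1.1.1 (hdis V V' h1.1.1 hcon.1)).2 h1.1.2 hV3).1 h1.2
  · refine Rule.card_le_of_diff (N := Z.near (hd U) ∪ N) ?_ hcard
    rintro ⟨V, V'⟩ h1 h2
    by_contra hcon
    rw [mem_union, not_or] at hcon
    rw [mem_BG] at h1
    have hV3 := (free_iff (Z.pair _ _ hT) hw hfr (Rule.ne_nil (Z.pair _ _ h1.1.1).symm)
      (hdis' V V' h1.1.1 hcon.1)).2 h1.1.2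
    refine h2 (mem_BG.2 ⟨⟨h1.1.1, hV3⟩, ?_⟩)
    exact ((hN2 V V' hcon.2 h1.1.1 (hdis V V' h1.1.1 hcon.1)).2 hV3 h1.1.2).2 h1.2

/-- the system of the moves which preserve the statistic -/
def sysG (T : List P → β) (C : ℕ) (hL : Lip Z T C) : Sys (List P) (List P × List P) where
  K := Kw A
  S := SG Z T
  B := BG Z T
  ins w q := Rule.rep w q.1 q.2
  rem w q := Rule.rep w q.2 q.1
  s := Z.s
  C := Z.CC + C
  n0 := 0
  hC := by unfold Rule.CC; omega
  ins_K := fun n w q hw hq => Z.sys.ins_K n w q hw (filter_subset _ _ hq)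
  ins_B := by
    rintro n w ⟨U, U'⟩ hw hq
    have hw' := (Z.mem_K).1 hw
    rw [mem_SG] at hq
    obtain ⟨⟨hT, hfr⟩, hTT⟩ := hq
    obtain ⟨h1, h2, h3⟩ := rep_inv (Z.pair _ _ hT) hw'.2 hfr
    rw [mem_BG]
    simp only
    rw [h3]
    exact ⟨⟨hT, h2⟩, hTT.symm⟩
  rem_ins := fun n w q hw hq => Z.sys.rem_ins n w q hw (filter_subset _ _ hq)
  rem_K := fun n w q h0 hw hq => Z.sys.rem_K n w q h0 hw (filter_subset _ _ hq)
  rem_S := by
    rintro n w ⟨U, U'⟩ - hw hq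
    have hw' := (Z.mem_K).1 hw
    rw [mem_BG] at hq
    obtain ⟨⟨hT, hfr⟩, hTT⟩ := hq
    obtain ⟨h1, h2, h3⟩ := rep_inv (Z.pair _ _ hT).symm hw'.2 hfr
    rw [mem_SG]
    simp only
    rw [h3]
    exact ⟨⟨hT, h2⟩, hTT.symm⟩
  ins_rem := fun n w q h0 hw hq => Z.sys.ins_rem n w q h0 hw (filter_subset _ _ hq)
  chS1 := by
    rintro n w ⟨U, U'⟩ hw hq
    exact (change hL hw hq).1.1
  chS2 := by
    rintro n w ⟨U, U'⟩ hw hq
    exact (change hL hw hq).1.2
  chB1 := by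
    rintro n w ⟨U, U'⟩ hw hq
    exact (change hL hw hq).2.1
  chB2 := by
    rintro n w ⟨U, U'⟩ hw hq
    exact (change hL hw hq).2.2
  S_le := by
    intro n w hw
    refine (card_filter_le _ _).trans ((Z.sys.S_le n w hw).trans ?_)
    refine Nat.mul_le_mul_right _ ?_
    change Z.CC ≤ Z.CC + C
    omega

/-- weights given by the last point and the statistic -/
theorem wtG {C : ℕ} (hL : Lip Z T C) (g : β × P → ℝ) (hg : ∀ v, 0 ≤ g v) :
    (sysG T C hL).Wt (fun w => g (T w, lst w)) := by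
  refine ⟨fun n w _ => hg _, ?_⟩
  rintro n w ⟨U, U'⟩ hw hq
  change w ∈ Kw A n at hw
  change (U, U') ∈ SG Z T w at hq
  have hw' := (Z.mem_K).1 hw
  rw [mem_SG] at hq
  obtain ⟨⟨hT, hfr⟩, hTT⟩ := hq
  obtain ⟨L, R, h1, h2, -⟩ := Rule.rep_all (Z.pair _ _ hT) hw'.2 hfr
  change g (T (Rule.rep w U U'), lst (Rule.rep w U U')) = g (T w, lst w)
  have hl : lst (Rule.rep w U U') = lst w := by
    rw [h2]
    conv_rhs => rw [h1]
    exact (lst_rep (Z.pair _ _ hT)).symm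
  rw [hTT, hl]

/-- few downward moves change the statistic -/
theorem B_le_BG {n b : ℕ} (hb : Few Z T n b) {w : List P} (hw : w ∈ Kw A n) :
    (Z.B w).card ≤ (BG Z T w).card + b := by
  obtain ⟨N, h1, h2⟩ := hb w hw
  refine Rule.card_le_of_diff (N := N) ?_ h1
  rintro ⟨V, V'⟩ hV hV'
  by_contra hcon
  rw [Rule.mem_B] at hV
  exact hV' (mem_BG.2 ⟨hV, h2 V V' hcon hV.1 hV.2⟩)

end

end Q294.Ts
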