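import Pool.Agent.Q294.Ts4
import Pool.Agent.Q294.Tr5

/-!
# Statistics: classes of features
-/

set_option autoImplicit false

namespace Q294.Ts

open Finset Filter Topology TH966.AK Q294.Av Q294.Tr
open scoped Classical

noncomputable section

variable {A : P → P → Prop} {Z : Rule A} {μ K : ℝ} {Fc : P → Finset P} {cls : Type}
  {M : cls → P → Prop} {f κ : ℕ}

theorem lip_TT (hF : Feat Z Fc) (hf : ∀ x, (Fc x).card ≤ f) (hκ : HitX Fc M κ) :
    Lip Z (TT Fc M) ((Z.k + Z.s) * (f * (κ * Z.c0))) := by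
  intro n w U U' hwn hT hfr hTT
  have hw : Walk A w := ((Z.mem_K).1 hwn).2
  obtain ⟨hw', hfr', hinv⟩ := rep_inv (Z.pair _ _ hT) hw hfr
  choose H hH1 hH2 hH3 using fun φ => hκ φ w
  have hlost : ∀ ψ ∈ FF Fc w,
      ((Z.B w).filter (fun q => ψ ∉ FF Fc (Rule.rep w q.2 q.1))).card ≤ Z.c0 :=
    fun ψ hψ => lost_card hwn hψ
  obtain ⟨N2, hN2⟩ : ∃ N2 : Finset (List P × List P), N2 = U'.toFinset.biUnion (fun x =>
    (Fc x).biUnion (fun φ => (H φ).biUnion (fun ψ =>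
      (Z.B w).filter (fun q => ψ ∉ FF Fc (Rule.rep w q.2 q.1))))) := ⟨_, rfl⟩
  have hN2c : N2.card ≤ (Z.k + Z.s) * (f * (κ * Z.c0)) := by
    rw [hN2]
    refine (card_biUnion_le_card_mul _ _ (f * (κ * Z.c0)) fun x _ => ?_).trans ?_
    · refine (card_biUnion_le_card_mul _ _ (κ * Z.c0) fun φ _ => ?_).trans
        (Nat.mul_le_mul_right _ (hf x))
      refine (card_biUnion_le_card_mul _ _ Z.c0 fun ψ hψ => ?_).trans
        (Nat.mul_le_mul_right _ (hH1 φ))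
      exact hlost ψ (hH2 φ hψ)
    · refine Nat.mul_le_mul_right _ ?_
      refine (List.toFinset_card_le _).trans ?_
      rw [(Z.len _ _ hT).2]
  refine ⟨N2, hN2c, fun V V' hNN hV hd => ⟨?_, ?_⟩⟩
  · intro hV1 hV3
    constructor
    · intro hV2
      refine Set.Subset.antisymm ?_ (TT_mono (FF_up hF hV hw' hV3))
      rintro c ⟨φ, hφ, hc⟩
      rw [mem_FF] at hφ
      obtain ⟨x, hx, hφx⟩ := hφ
      rw [mem_rep (Z.pair _ _ hV) hw' hV3] at hx
      rcases hx with hx | ⟨hx, -⟩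
      · rw [hTT, ← hV2]
        refine ⟨φ, mem_FF.2 ⟨x, ?_, hφx⟩, hc⟩
        rw [mem_rep (Z.pair _ _ hV) hw hV1]
        exact Or.inl hx
      · exact ⟨φ, mem_FF.2 ⟨x, hx, hφx⟩, hc⟩
    · intro hV2
      refine Set.Subset.antisymm ?_ (TT_mono (FF_up hF hV hw hV1))
      rintro c ⟨φ, hφ, hc⟩
      rw [mem_FF] at hφ
      obtain ⟨x, hx, hφx⟩ := hφ
      rw [mem_rep (Z.pair _ _ hV) hw hV1] at hx
      rcases hx with hx | ⟨hx, -⟩
      · rw [← hTT, ← hV2]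
        refine ⟨φ, mem_FF.2 ⟨x, ?_, hφx⟩, hc⟩
        rw [mem_rep (Z.pair _ _ hV) hw' hV3]
        exact Or.inl hx
      · exact ⟨φ, mem_FF.2 ⟨x, hx, hφx⟩, hc⟩
  · intro hV3 hV1
    have hsub : TT Fc M (Rule.rep w V' V) ⊆ TT Fc M w := TT_mono (FF_down hF hV hw hV3)
    constructor
    · intro hV2
      refine Set.Subset.antisymm (TT_mono (FF_down hF hV hw' hV1)) ?_
      rw [hTT, ← hV2]
      refine TT_mono ?_
      intro φ hφ
      rw [mem_FF] at hφ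
      obtain ⟨x, hx, hφx⟩ := hφ
      rw [mem_rep (Z.pair _ _ hV).symm hw hV3] at hx
      rw [mem_FF]
      rcases hx with hx | ⟨hx, hxV⟩
      · refine ⟨x, ?_, hφx⟩
        rw [mem_rep (Z.pair _ _ hV).symm hw' hV1]
        exact Or.inl hx
      · by_cases hxU : x ∈ U
        · obtain ⟨y, hy, hφy⟩ := hF.1 U U' hT x hxU φ hφx
          refine ⟨y, ?_, hφy⟩
          rw [mem_rep (Z.pair _ _ hV).symm hw' hV1]
          refine Or.inr ⟨?_, fun hc => hd y (by simp [hy]) (by simp [hc])⟩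
          rw [mem_rep (Z.pair _ _ hT) hw hfr]
          exact Or.inl hy
        · refine ⟨x, ?_, hφx⟩
          rw [mem_rep (Z.pair _ _ hV).symm hw' hV1]
          refine Or.inr ⟨?_, hxV⟩
          rw [mem_rep (Z.pair _ _ hT) hw hfr]
          exact Or.inr ⟨hx, hxU⟩
    · intro hV2
      have hVB : (V, V') ∈ Z.B w := by
        rw [Rule.mem_B]
        exact ⟨hV, hV3⟩
      by_contra hne
      obtain ⟨c, hc1, hc2⟩ : ∃ c, c ∈ TT Fc M w ∧ c ∉ TT Fc M (Rule.rep w V' V) := by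
        by_contra hcc
        push Not at hcc
        exact hne (Set.Subset.antisymm hsub hcc)
      have hc3 : c ∈ TT Fc M (Rule.rep (Rule.rep w U U') V' V) := by
        rw [hV2, hTT]
        exact hc1
      obtain ⟨φ, hφ, hcφ⟩ := hc3
      rw [mem_FF] at hφ
      obtain ⟨x, hx, hφx⟩ := hφ
      rw [mem_rep (Z.pair _ _ hV).symm hw' hV1] at hx
      have hxU : x ∈ U' := by
        by_contra hxU
        refine hc2 ⟨φ, mem_FF.2 ⟨x, ?_, hφx⟩, hcφ⟩
        rw [mem_rep (Z.pair _ _ hV).symm hw hV3]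
        rcases hx with hx | ⟨hx, hxV⟩
        · exact Or.inl hx
        · rw [mem_rep (Z.pair _ _ hT) hw hfr] at hx
          rcases hx with hx | ⟨hx, -⟩
          · exact absurd hx hxU
          · exact Or.inr ⟨hx, hxV⟩
      obtain ⟨ψ, hψ, hcψ⟩ := hH3 φ c hcφ hc1
      refine hNN ?_
      rw [hN2]
      simp only [mem_biUnion, List.mem_toFinset, mem_filter]
      exact ⟨x, hxU, φ, hφx, ψ, hψ, hVB, fun hcc => hc2 ⟨ψ, hcc, hcψ⟩⟩

theorem few_TT (hF : Feat Z Fc) {n b : ℕ} (hb : HitG A Fc M n b) :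
    Few Z (TT Fc M) n (b * Z.c0) := by
  intro w hw
  obtain ⟨H, h1, h2, h3⟩ := hb w hw
  have hw' := (Z.mem_K).1 hw
  refine ⟨H.biUnion (fun ψ => (Z.B w).filter (fun q => ψ ∉ FF Fc (Rule.rep w q.2 q.1))),
    (card_biUnion_le_card_mul _ _ Z.c0 fun ψ hψ => lost_card hw (h2 hψ)).trans
      (Nat.mul_le_mul_right _ h1), ?_⟩
  intro V V' hN hT hfr
  by_contra hne
  have hVB : (V, V') ∈ Z.B w := by
    rw [Rule.mem_B]
    exact ⟨hT, hfr⟩
  have hsub : TT Fc M (Rule.rep w V' V) ⊆ TT Fc M w := TT_mono (FF_down hF hT hw'.2 hfr)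
  obtain ⟨c, hc1, hc2⟩ : ∃ c, c ∈ TT Fc M w ∧ c ∉ TT Fc M (Rule.rep w V' V) := by
    by_contra hcc
    push Not at hcc
    exact hne (Set.Subset.antisymm hsub hcc)
  obtain ⟨ψ, hψ, hcψ⟩ := h3 c hc1
  refine hN ?_
  simp only [mem_biUnion, mem_filter]
  exact ⟨ψ, hψ, hVB, fun hcc => hc2 ⟨ψ, hcc, hcψ⟩⟩

end

end Q294.Ts
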