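import Pool.Agent.Q294.Ts5

/-!
# The skeleton of a walk
-/

set_option autoImplicit false

namespace Q294.Ts

open Finset Filter Topology TH966.AK Q294.Av Q294.Tr
open scoped Classical

noncomputable section

variable {A : P → P → Prop} {Z : Rule A} {E : P → P → Prop}

/-- the successive exit points -/
def skel (E : P → P → Prop) : P → List P → List P
  | _, [] => []
  | x, y :: l => if E x y then y :: skel E y l else skel E x l

/-- the last exit point -/
def stt (E : P → P → Prop) : P → List P → P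
  | x, [] => x
  | x, y :: l => if E x y then stt E y l else stt E x l

theorem skel_cons (x y : P) (l : List P) :
    skel E x (y :: l) = if E x y then y :: skel E y l else skel E x l := rfl

theorem stt_cons (x y : P) (l : List P) :
    stt E x (y :: l) = if E x y then stt E y l else stt E x l := rfl

theorem stt_nil (x : P) : stt E x [] = x := rfl

theorem skel_append (x : P) (l r : List P) :
    skel E x (l ++ r) = skel E x l ++ skel E (stt E x l) r := by
  induction l generalizing x with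
  | nil => simp [skel, stt]
  | cons y l ih =>
    rw [List.cons_append, skel_cons, skel_cons, stt_cons]
    split_ifs with h
    · rw [ih]
      simp
    · rw [ih]

theorem stt_append (x : P) (l r : List P) : stt E x (l ++ r) = stt E (stt E x l) r := by
  induction l generalizing x with
  | nil => simp [stt]
  | cons y l ih =>
    rw [List.cons_append, stt_cons, stt_cons]
    split_ifs with h
    · exact ih y
    · exact ih x

theorem skel_sub {x : P} {l : List P} : ∀ y ∈ skel E x l, y ∈ l := by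
  induction l generalizing x with
  | nil => intro y hy; simp [skel] at hy
  | cons z l ih =>
    intro y hy
    unfold skel at hy
    split_ifs at hy with h
    · rw [List.mem_cons] at hy
      rcases hy with rfl | hy
      · simp
      · exact List.mem_cons_of_mem _ (ih y hy)
    · exact List.mem_cons_of_mem _ (ih y hy)

theorem skel_nil_iff {x : P} {l : List P} : skel E x l = [] ↔ ∀ y ∈ l, ¬ E x y := by
  induction l generalizing x with
  | nil => simp [skel]
  | cons z l ih =>
    unfold skel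
    split_ifs with h
    · constructor
      · intro hc; simp at hc
      · intro hc; exact absurd h (hc z (by simp))
    · rw [ih]
      constructor
      · intro hc y hy
        rw [List.mem_cons] at hy
        rcases hy with rfl | hy
        · exact h
        · exact hc y hy
      · intro hc y hy
        exact hc y (List.mem_cons_of_mem _ hy)

theorem stt_of_nil {x : P} {l : List P} (h : skel E x l = []) : stt E x l = x := by
  induction l generalizing x with
  | nil => rfl
  | cons z l ih =>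
    unfold skel at h
    unfold stt
    split_ifs at h ⊢ with hz
    exact ih h

/-- splitting at the first point of a window -/
theorem skel_win (x p r : P) (L X R : List P) : skel E x (L ++ (p :: (X ++ [r])) ++ R) =
    skel E x (L ++ [p]) ++ (skel E (stt E x (L ++ [p])) X ++
      skel E (stt E (stt E x (L ++ [p])) X) (r :: R)) := by
  have e : L ++ (p :: (X ++ [r])) ++ R = (L ++ [p]) ++ (X ++ (r :: R)) := by simp
  rw [e, skel_append x (L ++ [p]), skel_append _ X]

theorem stt_win (x p r : P) (L X : List P) : stt E x (L ++ (p :: (X ++ [r]))) =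
    stt E (stt E (stt E x (L ++ [p])) X) [r] := by
  have e : L ++ (p :: (X ++ [r])) = (L ++ [p]) ++ (X ++ [r]) := by simp
  rw [e, stt_append x (L ++ [p]), stt_append _ X]

/-- when a replacement preserves the skeleton -/
theorem pres_iff {p r : P} {X X' L R : List P}
    (hX : ∀ x ∈ X, x ∉ L ++ (p :: (X' ++ [r])) ++ R)
    (hX' : ∀ x ∈ X', x ∉ L ++ (p :: (X ++ [r])) ++ R) (x0 : P) :
    skel E x0 (L ++ (p :: (X' ++ [r])) ++ R) = skel E x0 (L ++ (p :: (X ++ [r])) ++ R) ↔
      skel E (stt E x0 (L ++ [p])) X = [] ∧ skel E (stt E x0 (L ++ [p])) X' = [] := by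
  obtain ⟨c, hc⟩ : ∃ c, c = stt E x0 (L ++ [p]) := ⟨_, rfl⟩
  constructor
  · intro h
    constructor
    · rw [List.eq_nil_iff_forall_not_mem]
      intro y hy
      have h1 : y ∈ skel E x0 (L ++ (p :: (X ++ [r])) ++ R) := by
        rw [skel_win]
        simp [hy]
      rw [← h] at h1
      exact hX y (skel_sub y hy) (skel_sub y h1)
    · rw [List.eq_nil_iff_forall_not_mem]
      intro y hy
      have h1 : y ∈ skel E x0 (L ++ (p :: (X' ++ [r])) ++ R) := by
        rw [skel_win]
        simp [hy]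
      rw [h] at h1
      exact hX' y (skel_sub y hy) (skel_sub y h1)
  · rintro ⟨h1, h2⟩
    rw [skel_win, skel_win, h1, h2, stt_of_nil h1, stt_of_nil h2]

/-- the points of a window -/
theorem pair_data {U U' : List P} (h : Pair A U U') : ∃ p r X X', U = p :: (X ++ [r]) ∧
    U' = p :: (X' ++ [r]) ∧ (∀ x ∈ X, x ∉ U') ∧ (∀ x ∈ X', x ∉ U) := h.1

/-- the hypotheses of `pres_iff` -/
theorem pres_hyp {U U' L R : List P} (hw : Walk A (L ++ U ++ R))
    (hf : ∀ x ∈ U', x ∉ U → x ∉ L ++ U ++ R) {p r : P} {X X' : List P}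
    (h1 : U = p :: (X ++ [r])) (h2 : U' = p :: (X' ++ [r])) (h3 : ∀ x ∈ X, x ∉ U')
    (h4 : ∀ x ∈ X', x ∉ U) :
    (∀ x ∈ X, x ∉ L ++ (p :: (X' ++ [r])) ++ R) ∧
      (∀ x ∈ X', x ∉ L ++ (p :: (X ++ [r])) ++ R) := by
  constructor
  · intro x hx hc
    have hxU : x ∈ U := by rw [h1]; simp [hx]
    have w2 := hw.2.1
    rw [List.nodup_append, List.nodup_append] at w2
    obtain ⟨⟨-, -, w4⟩, -, w5⟩ := w2
    rw [← h2] at hc
    simp only [List.mem_append] at hc
    rcases hc with (hc | hc) | hc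
    · exact w4 x hc x hxU rfl
    · exact h3 x hx hc
    · exact w5 x (by simp [hxU]) x hc rfl
  · intro x hx
    rw [← h1]
    exact hf x (by rw [h2]; simp [hx]) (h4 x hx)

/-- a window away from a replaced window lies before or after it -/
theorem infix_cases {U V L R : List P} {p r : P} {X : List P} (hU : U = p :: (X ++ [r]))
    (hV : V ≠ []) (h : V <:+: L ++ U ++ R) (hd : ∀ x ∈ U, x ∉ V) : V <:+: L ∨ V <:+: R := by
  have e : L ++ U ++ R = L ++ p :: (X ++ (r :: R)) := by rw [hU]; simp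
  rw [e] at h
  rcases infix_split h (hd p (by rw [hU]; simp)) with h1 | h1
  · exact Or.inl h1
  · right
    have h2 := infix_drop hV h1 fun x hx => hd x (by rw [hU]; simp [hx])
    have h3 : V <:+: [] ++ r :: R := by simpa using h2
    rcases infix_split h3 (hd r (by rw [hU]; simp)) with h4 | h4
    · rw [List.infix_nil] at h4
      exact absurd h4 hV
    · exact h4

/-- the criterion for one window -/
theorem pres_rep {V V' L R : List P} (hV : Pair A V V') (hw : Walk A (L ++ V ++ R))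
    (hf : ∀ x ∈ V', x ∉ V → x ∉ L ++ V ++ R) {p r : P} {Y Y' : List P}
    (h1 : V = p :: (Y ++ [r])) (h2 : V' = p :: (Y' ++ [r])) (h3 : ∀ x ∈ Y, x ∉ V')
    (h4 : ∀ x ∈ Y', x ∉ V) :
    skel E 0 (Rule.rep (L ++ V ++ R) V V') = skel E 0 (L ++ V ++ R) ↔
      skel E (stt E 0 (L ++ [p])) Y = [] ∧ skel E (stt E 0 (L ++ [p])) Y' = [] := by
  rw [Rule.rep_eq (Rule.ne_nil hV) hw.2.1]
  obtain ⟨g1, g2⟩ := pres_hyp hw hf h1 h2 h3 h4
  rw [h1, h2]
  exact pres_iff g1 g2 0

/-- windows away from a skeleton-preserving replacement -/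
theorem lip_aux {U U' V V' L R : List P} (hU : Pair A U U') (hV : Pair A V V')
    (hw : Walk A (L ++ U ++ R)) (hf : ∀ x ∈ U', x ∉ U → x ∉ L ++ U ++ R)
    (hpres : skel E 0 (L ++ U' ++ R) = skel E 0 (L ++ U ++ R))
    (hd : ∀ x ∈ U ++ U', x ∉ V ++ V') (hV1 : Free V V' (L ++ U ++ R))
    (hV2 : Free V V' (L ++ U' ++ R)) :
    skel E 0 (Rule.rep (L ++ U ++ R) V V') = skel E 0 (L ++ U ++ R) ↔
      skel E 0 (Rule.rep (L ++ U' ++ R) V V') = skel E 0 (L ++ U' ++ R) := by
  have hw' : Walk A (L ++ U' ++ R) := (flip hU hw hf).1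
  obtain ⟨p, r, X, X', u1, u2, u3, u4⟩ := pair_data hU
  obtain ⟨p', r', Y, Y', v1, v2, v3, v4⟩ := pair_data hV
  have hVne : V ≠ [] := Rule.ne_nil hV
  obtain ⟨g1, g2⟩ := pres_hyp hw hf u1 u2 u3 u4
  have hst : stt E 0 (L ++ U') = stt E 0 (L ++ U) := by
    have h5 : skel E 0 (L ++ (p :: (X' ++ [r])) ++ R) = skel E 0 (L ++ (p :: (X ++ [r])) ++ R) := by
      rw [← u1, ← u2]
      exact hpres
    obtain ⟨h6, h7⟩ := (pres_iff g1 g2 0).1 h5
    rw [u1, u2, stt_win, stt_win, stt_of_nil h6, stt_of_nil h7]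
  rcases infix_cases u1 hVne hV1.1 (fun x hx hc => hd x (by simp [hx]) (by simp [hc])) with
    ⟨a, b, hab⟩ | ⟨a, b, hab⟩
  · -- before
    have e1 : L ++ U ++ R = a ++ V ++ (b ++ U ++ R) := by rw [← hab]; simp
    have e2 : L ++ U' ++ R = a ++ V ++ (b ++ U' ++ R) := by rw [← hab]; simp
    have hf1 : ∀ x ∈ V', x ∉ V → x ∉ a ++ V ++ (b ++ U ++ R) := by
      intro x hx hxV
      rw [← e1]
      exact hV1.2 x hx hxV
    have hf2 : ∀ x ∈ V', x ∉ V → x ∉ a ++ V ++ (b ++ U' ++ R) := by
      intro x hx hxV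
      rw [← e2]
      exact hV2.2 x hx hxV
    rw [e1] at hw ⊢
    rw [e2] at hw' ⊢
    rw [pres_rep hV hw hf1 v1 v2 v3 v4, pres_rep hV hw' hf2 v1 v2 v3 v4]
  · -- after
    have e1 : L ++ U ++ R = (L ++ U ++ a) ++ V ++ b := by rw [← hab]; simp
    have e2 : L ++ U' ++ R = (L ++ U' ++ a) ++ V ++ b := by rw [← hab]; simp
    have hf1 : ∀ x ∈ V', x ∉ V → x ∉ (L ++ U ++ a) ++ V ++ b := by
      intro x hx hxV
      rw [← e1]
      exact hV1.2 x hx hxV
    have hf2 : ∀ x ∈ V', x ∉ V → x ∉ (L ++ U' ++ a) ++ V ++ b := by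
      intro x hx hxV
      rw [← e2]
      exact hV2.2 x hx hxV
    rw [e1] at hw ⊢
    rw [e2] at hw' ⊢
    rw [pres_rep hV hw hf1 v1 v2 v3 v4, pres_rep hV hw' hf2 v1 v2 v3 v4]
    have e3 : stt E 0 (L ++ U ++ a ++ [p']) = stt E 0 (L ++ U' ++ a ++ [p']) := by
      rw [List.append_assoc (L ++ U), List.append_assoc (L ++ U'), stt_append 0 (L ++ U),
        stt_append 0 (L ++ U'), hst]
    rw [e3]

theorem lip_skel (E : P → P → Prop) : Lip Z (skel E 0) 0 := by
  intro n w U U' hwn hT hfr hpres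
  have hw : Walk A w := ((Z.mem_K).1 hwn).2
  refine ⟨∅, by simp, fun V V' _ hV hd => ?_⟩
  obtain ⟨⟨L, R, hLR⟩, hfr2⟩ := hfr
  subst hLR
  have e : Rule.rep (L ++ U ++ R) U U' = L ++ U' ++ R :=
    Rule.rep_eq (Rule.ne_nil (Z.pair _ _ hT)) hw.2.1
  rw [e] at hpres ⊢
  constructor
  · intro hV1 hV2
    exact lip_aux (Z.pair _ _ hT) (Z.pair _ _ hV) hw hfr2 hpres hd hV1 hV2
  · intro hV1 hV2
    refine lip_aux (Z.pair _ _ hT) (Z.pair _ _ hV).symm hw hfr2 hpres ?_ hV1 hV2
    intro x hx hx'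
    refine hd x hx ?_
    rw [List.mem_append] at hx' ⊢
    exact hx'.symm

/-- downward moves do not create exits -/
def Tame (Z : Rule A) (E : P → P → Prop) : Prop :=
  ∀ U U', Z.T U U' → ∀ c, (∀ y ∈ U', ¬ E c y) → ∀ x ∈ U, ¬ E c x

theorem few_skel (hE : Tame Z E) {n b : ℕ} (hb : ∀ w ∈ Kw A n, (skel E 0 w).length ≤ b) :
    Few Z (skel E 0) n (b * Z.c0) := by
  intro w hwn
  have hw : Walk A w := ((Z.mem_K).1 hwn).2
  refine ⟨(skel E 0 w).toFinset.biUnion Z.cand, ?_, ?_⟩
  · refine (card_biUnion_le_card_mul _ _ Z.c0 fun x _ => Z.card_cand x).trans ?_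
    exact Nat.mul_le_mul_right _ ((List.toFinset_card_le _).trans (hb w hwn))
  intro V V' hN hV hfr
  have hno : ∀ x ∈ V', x ∉ skel E 0 w := by
    intro x hx hc
    refine hN ?_
    rw [mem_biUnion]
    exact ⟨x, List.mem_toFinset.2 hc, Z.mem_cand hV (by simp [hx])⟩
  obtain ⟨⟨L, R, hLR⟩, hfr2⟩ := hfr
  subst hLR
  obtain ⟨p, r, Y', Y, v1, v2, v3, v4⟩ := pair_data (Z.pair _ _ hV).symm
  have hpair := (Z.pair _ _ hV).symm
  rw [pres_rep hpair hw hfr2 v1 v2 v3 v4]
  -- no exits in the window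
  have hwin := skel_win (E := E) 0 p r L Y' R
  rw [← v1] at hwin
  have h0 : skel E 0 (L ++ [p]) = skel E 0 L ++ skel E (stt E 0 L) [p] := skel_append 0 L [p]
  have hp : ¬ E (stt E 0 L) p := by
    intro hc
    refine hno p (by rw [v1]; simp) ?_
    rw [hwin, h0]
    have : skel E (stt E 0 L) [p] = [p] := by
      rw [skel_cons, if_pos hc]
      rfl
    rw [this]
    simp
  have hc1 : stt E 0 (L ++ [p]) = stt E 0 L := by
    rw [stt_append, stt_cons, if_neg hp, stt_nil]
  have hY' : skel E (stt E 0 (L ++ [p])) Y' = [] := by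
    rw [List.eq_nil_iff_forall_not_mem]
    intro y hy
    refine hno y (by rw [v1]; simp [skel_sub y hy]) ?_
    rw [hwin]
    simp [hy]
  have hr : ¬ E (stt E 0 (L ++ [p])) r := by
    intro hc
    refine hno r (by rw [v1]; simp) ?_
    rw [hwin, stt_of_nil hY']
    have : r ∈ skel E (stt E 0 (L ++ [p])) (r :: R) := by
      rw [skel_cons, if_pos hc]
      simp
    simp [this]
  refine ⟨hY', ?_⟩
  rw [skel_nil_iff]
  rw [skel_nil_iff] at hY'
  intro y hy
  refine hE V V' hV _ ?_ y (by rw [v2]; simp [hy])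
  intro z hz
  rw [v1] at hz
  simp only [List.mem_cons, List.mem_append, List.not_mem_nil, or_false] at hz
  rcases hz with rfl | hz | rfl
  · rw [hc1]
    exact hp
  · exact hY' z hz
  · exact hr

/-- the number of exits -/
theorem skel_length {ℓ : ℕ} (hE : ∀ c y, E c y → (ℓ : ℤ) ≤ |c.1 - y.1| ∨ (ℓ : ℤ) ≤ |c.2 - y.2|)
    (Z : Rule A) : ∀ (l : List P) (z c : P) (d : ℕ), (z :: l).IsChain A →
      |c.1 - z.1| ≤ d → |c.2 - z.2| ≤ d → ℓ * (skel E c l).length ≤ d + l.length := by
  intro l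
  induction l with
  | nil =>
    intro z c d _ _ _
    simp [skel]
  | cons y l ih =>
    intro z c d hch h1 h2
    rw [List.isChain_cons_cons] at hch
    have hs := Z.step z y hch.1
    rw [abs_le] at h1 h2
    rw [abs_le, abs_le] at hs
    have k1 : |c.1 - y.1| ≤ ((d + 1 : ℕ) : ℤ) := by
      rw [abs_le]
      push_cast
      constructor <;> linarith [hs.1.1, hs.1.2, h1.1, h1.2]
    have k2 : |c.2 - y.2| ≤ ((d + 1 : ℕ) : ℤ) := by
      rw [abs_le]
      push_cast
      constructor <;> linarith [hs.2.1, hs.2.2, h2.1, h2.2]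
    unfold skel
    split_ifs with h
    · have h3 := ih y y 0 hch.2 (by simp) (by simp)
      have h4 : (ℓ : ℤ) ≤ ((d + 1 : ℕ) : ℤ) := by
        rcases hE c y h with h5 | h5
        · exact h5.trans k1
        · exact h5.trans k2
      have h5 : ℓ ≤ d + 1 := by exact_mod_cast h4
      simp only [List.length_cons]
      rw [Nat.mul_add, mul_one]
      omega
    · have h3 := ih y c (d + 1) hch.2 k1 k2
      simp only [List.length_cons]
      omega

theorem skel_card {ℓ : ℕ} (hℓ : 1 ≤ ℓ)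
    (hE : ∀ c y, E c y → (ℓ : ℤ) ≤ |c.1 - y.1| ∨ (ℓ : ℤ) ≤ |c.2 - y.2|)
    (Z : Rule A) {n : ℕ} : ∀ w ∈ Kw A n, (skel E 0 w).length ≤ n / ℓ + 1 := by
  intro w hw
  rw [Z.mem_K] at hw
  obtain ⟨h1, h2, h3, h4⟩ := hw
  obtain ⟨a, l, rfl⟩ := List.exists_cons_of_length_eq_add_one h1
  simp only [List.head?_cons, Option.some.injEq] at h2
  subst h2
  have h5 := skel_length hE Z l 0 0 0 h4 (by simp) (by simp)
  have h6 : (skel E 0 l).length ≤ n / ℓ := by
    rw [Nat.le_div_iff_mul_le (by omega), mul_comm]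
    simp only [List.length_cons] at h1
    omega
  unfold skel
  split_ifs
  · simp only [List.length_cons]
    omega
  · omega

end

end Q294.Ts
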