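import Pool.Agent.Q294.Ts6

/-!
# Skeleton, blocks and extreme values: total variation
-/

set_option autoImplicit false

namespace Q294.Ts

open Finset Filter Topology TH966.AK Q294.Av Q294.Tr
open scoped Classical

noncomputable section

variable {A : P → P → Prop} {Z : Rule A} {μ K : ℝ} {Fc : P → Finset P}

/-- the statistic: skeleton, blocks, extreme values -/
def Tst (Fc : P → Finset P) (E : P → P → Prop) (ℓ : ℕ) (c : ℤ × ℤ) {m : ℕ}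
    (F : Fin m → ℤ × ℤ → ℤ) (w : List P) : List P × Set ((ℤ × ℤ) ⊕ (Fin m × ℤ)) :=
  (skel E 0 w, TT Fc (Mst ℓ c F) w)

/-- exits need distance `ℓ` -/
def Far (E : P → P → Prop) (ℓ : ℕ) : Prop :=
  ∀ c y, E c y → (ℓ : ℤ) ≤ |c.1 - y.1| ∨ (ℓ : ℤ) ≤ |c.2 - y.2|

theorem lip_Tst (hF : Feat Z Fc) {f : ℕ} (hf : ∀ x, (Fc x).card ≤ f) (E : P → P → Prop) (ℓ : ℕ)
    (c : ℤ × ℤ) {m : ℕ} (F : Fin m → ℤ × ℤ → ℤ) :
    Lip Z (Tst Fc E ℓ c F) ((Z.k + Z.s) * (f * ((1 + m) * Z.c0))) := by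
  have h := (lip_skel (Z := Z) E).prod (lip_TT hF hf (hitX ℓ c F))
  rw [zero_add] at h
  exact h

theorem few_Tst (hF : Feat Z Fc) (hn : ∀ x, ∀ φ ∈ Fc x, |x.1 - φ.1| ≤ 2 ∧ |x.2 - φ.2| ≤ 2)
    {E : P → P → Prop} (hE : Tame Z E) {ℓ₁ ℓ : ℕ} (h1 : 1 ≤ ℓ₁) (hfar : Far E ℓ₁) (hℓ : 1 ≤ ℓ)
    (c : ℤ × ℤ) {m : ℕ} (F : Fin m → ℤ × ℤ → ℤ) (n : ℕ) :
    Few Z (Tst Fc E ℓ c F) n ((n / ℓ₁ + 1) * Z.c0 + (49 * (n / ℓ + 1) + m) * Z.c0) :=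
  (few_skel hE (skel_card h1 hfar Z)).prod (few_TT hF (hitG hn hℓ c F Z n))

/-- **skeleton, blocks and extreme values**: ratios and total variation -/
theorem mainS (G : Growth Z μ K) (hF : Feat Z Fc) (f : ℕ) (hf : ∀ x, (Fc x).card ≤ f)
    (hn : ∀ x, ∀ φ ∈ Fc x, |x.1 - φ.1| ≤ 2 ∧ |x.2 - φ.2| ≤ 2) :
    ∃ ℓ₀ : ℕ, 1 ≤ ℓ₀ ∧ ∀ m : ℕ, ∃ R : ℝ, 0 < R ∧ ∀ (E : P → P → Prop) (ℓ : ℕ) (c : ℤ × ℤ)
      (F : Fin m → ℤ × ℤ → ℤ), Tame Z E → Far E ℓ₀ → ℓ₀ ≤ ℓ →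
      ∀ (S0 : Set ((List P × Set ((ℤ × ℤ) ⊕ (Fin m × ℤ))) × P)) (n : ℕ), 2 ≤ n →
      0 < NG A (Tst Fc E ℓ c F) S0 n →
      (R * er (NG A (Tst Fc E ℓ c F) S0 n / (Kw A n).card) n ≤ 1 →
        |NG A (Tst Fc E ℓ c F) S0 (n + Z.s) / (μ ^ Z.s * NG A (Tst Fc E ℓ c F) S0 n) - 1| ≤
          R * er (NG A (Tst Fc E ℓ c F) S0 n / (Kw A n).card) n) ∧
      ∀ S ⊆ S0, |NG A (Tst Fc E ℓ c F) S (n + Z.s) / NG A (Tst Fc E ℓ c F) S0 (n + Z.s) -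
          NG A (Tst Fc E ℓ c F) S n / NG A (Tst Fc E ℓ c F) S0 n| ≤
            R * er (NG A (Tst Fc E ℓ c F) S0 n / (Kw A n).card) n := by
  obtain ⟨q, hq, hall⟩ := tvG G
  obtain ⟨q', hq'⟩ : ∃ q', q' = q * (Z.c0 + 1) := ⟨_, rfl⟩
  have hq1 : 1 ≤ q' := by rw [hq']; exact Nat.mul_pos hq (by omega)
  refine ⟨100 * q', by omega, fun m => ?_⟩
  obtain ⟨R, hR, hres⟩ := hall ((Z.k + Z.s) * (f * ((1 + m) * Z.c0))) (2 * (q' * (50 + m)))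
  refine ⟨R, hR, fun E ℓ c F hE hfar hℓ S0 n hn2 hpos => ?_⟩
  have hℓ1 : 1 ≤ ℓ := by omega
  refine hres (Tst Fc E ℓ c F) (lip_Tst hF hf E ℓ c F) (fun k hk =>
    ⟨_, few_Tst hF hn hE (by omega) hfar hℓ1 c F k, ?_⟩) S0 n hn2 hpos
  obtain ⟨a, ha⟩ : ∃ a, a = k / (100 * q') := ⟨_, rfl⟩
  have h1 : 100 * q' * a ≤ k := by
    rw [ha, mul_comm]
    exact Nat.div_mul_le_self k _
  have h2 : k / ℓ ≤ a := by
    rw [ha]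
    exact Nat.div_le_div_left hℓ (by omega)
  rw [← ha]
  have h3 : (a + 1) * Z.c0 + (49 * (k / ℓ + 1) + m) * Z.c0 ≤ (50 * a + (50 + m)) * (Z.c0 + 1) := by
    have h4 : (a + 1) * Z.c0 + (49 * (k / ℓ + 1) + m) * Z.c0 =
        (a + 1 + (49 * (k / ℓ + 1) + m)) * Z.c0 := by ring
    rw [h4]
    refine Nat.mul_le_mul ?_ (by omega)
    omega
  calc q * ((a + 1) * Z.c0 + (49 * (k / ℓ + 1) + m) * Z.c0)
      ≤ q * ((50 * a + (50 + m)) * (Z.c0 + 1)) := Nat.mul_le_mul_left _ h3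
    _ = 50 * q' * a + q' * (50 + m) := by rw [hq']; ring
    _ ≤ k := by
      have h5 : 100 * q' * a = 2 * (50 * q' * a) := by ring
      omega

end

end Q294.Ts
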