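import Pool.Agent.Q294.Ts6

/-!
# The edges in a set; times of the skeleton
-/

set_option autoImplicit false

namespace Q294.Ts

open Finset Filter Topology TH966.AK Q294.Av Q294.Tr
open scoped Classical

noncomputable section

variable {A : P → P → Prop} {Z : Rule A} {E : P → P → Prop}

/-- the edges of a walk -/
def edg : List P → List (P × P)
  | [] => []
  | [_] => []
  | x :: y :: l => (x, y) :: edg (y :: l)

theorem edg_split (L : List P) (p : P) (M : List P) :
    edg (L ++ p :: M) = edg (L ++ [p]) ++ edg (p :: M) := by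
  induction L with
  | nil => simp [edg]
  | cons x L ih =>
    rcases L with _ | ⟨y, L⟩
    · simp [edg]
    · simp only [List.cons_append] at ih ⊢
      simp only [edg, List.cons_append]
      rw [ih]

theorem edg_mem : ∀ (l : List P) (e : P × P), e ∈ edg l → e.1 ∈ l ∧ e.2 ∈ l
  | [], e, h => by simp [edg] at h
  | [_], e, h => by simp [edg] at h
  | x :: y :: l, e, h => by
    simp only [edg, List.mem_cons] at h
    rcases h with rfl | h
    · simp
    · have := edg_mem (y :: l) e h
      exact ⟨List.mem_cons_of_mem _ this.1, List.mem_cons_of_mem _ this.2⟩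

/-- the edges which meet a set, in their order -/
def conf (D : Set P) (w : List P) : List (P × P) :=
  (edg w).filter (fun e => decide (e.1 ∈ D ∨ e.2 ∈ D))

theorem conf_win (D : Set P) (L R X : List P) (p r : P) :
    conf D (L ++ (p :: (X ++ [r])) ++ R) =
      conf D (L ++ [p]) ++ conf D (p :: (X ++ [r])) ++ conf D (r :: R) := by
  have e : L ++ (p :: (X ++ [r])) ++ R = (L ++ p :: X) ++ r :: R := by simp
  have e2 : (L ++ p :: X) ++ [r] = L ++ p :: (X ++ [r]) := by simp
  unfold conf
  rw [e, edg_split, e2, edg_split L p, List.filter_append, List.filter_append]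

theorem conf_pres {V V' L R : List P} (hV : Pair A V V') (hw : Walk A (L ++ V ++ R)) (D : Set P) :
    conf D (Rule.rep (L ++ V ++ R) V V') = conf D (L ++ V ++ R) ↔ conf D V' = conf D V := by
  rw [Rule.rep_eq (Rule.ne_nil hV) hw.2.1]
  obtain ⟨p, r, X, X', u1, u2, -⟩ := pair_data hV
  rw [u1, u2, conf_win, conf_win]
  constructor
  · intro h
    exact List.append_cancel_left (List.append_cancel_right h)
  · intro h
    rw [h]

theorem lip_conf (D : Set P) : Lip Z (conf D) 0 := by
  intro n w U U' hwn hT hfr hpres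
  have hw : Walk A w := ((Z.mem_K).1 hwn).2
  obtain ⟨hw', -, -⟩ := rep_inv (Z.pair _ _ hT) hw hfr
  refine ⟨∅, by simp, fun V V' _ hV hd => ⟨?_, ?_⟩⟩
  · intro hV1 hV2
    obtain ⟨⟨L, R, hLR⟩, -⟩ := hV1
    obtain ⟨⟨L2, R2, hLR2⟩, -⟩ := hV2
    rw [← hLR] at hw
    rw [← hLR2] at hw' ⊢
    rw [← hLR, conf_pres (Z.pair _ _ hV) hw, conf_pres (Z.pair _ _ hV) hw']
  · intro hV1 hV2
    obtain ⟨⟨L, R, hLR⟩, -⟩ := hV1
    obtain ⟨⟨L2, R2, hLR2⟩, -⟩ := hV2
    rw [← hLR] at hw
    rw [← hLR2] at hw' ⊢
    rw [← hLR, conf_pres (Z.pair _ _ hV).symm hw, conf_pres (Z.pair _ _ hV).symm hw']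

theorem conf_nil {D : Set P} {l : List P} (h : ∀ x ∈ l, x ∉ D) : conf D l = [] := by
  unfold conf
  rw [List.filter_eq_nil_iff]
  intro e he
  have := edg_mem l e he
  simp only [decide_eq_true_eq, not_or]
  exact ⟨h _ this.1, h _ this.2⟩

theorem few_conf (D : Finset P) (n : ℕ) : Few Z (conf (D : Set P)) n (D.card * Z.c0) := by
  intro w hwn
  have hw : Walk A w := ((Z.mem_K).1 hwn).2
  refine ⟨D.biUnion Z.cand, card_biUnion_le_card_mul _ _ Z.c0 fun x _ => Z.card_cand x, ?_⟩
  intro V V' hN hV hfr
  have hno : ∀ x ∈ V ++ V', x ∉ (D : Set P) := by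
    intro x hx hc
    refine hN ?_
    rw [mem_biUnion]
    exact ⟨x, by exact_mod_cast hc, Z.mem_cand hV hx⟩
  obtain ⟨⟨L, R, hLR⟩, hfr2⟩ := hfr
  subst hLR
  rw [conf_pres (Z.pair _ _ hV).symm hw, conf_nil fun x hx => hno x (by simp [hx]),
    conf_nil fun x hx => hno x (by simp [hx])]

/-- the times of the skeleton -/
theorem skel_times (E : P → P → Prop) : ∀ (l : List P) (c : P), ∃ t : ℕ → ℕ,
    (∀ j, j + 1 < (skel E c l).length → t j < t (j + 1)) ∧
    (∀ j, j < (skel E c l).length → t j < l.length ∧ l.getD (t j) 0 = (skel E c l).getD j 0) ∧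
    (∀ i, i < l.length → (0 < (skel E c l).length → i < t 0) → ¬ E c (l.getD i 0)) ∧
    (∀ j, j < (skel E c l).length → ∀ i, i < l.length → t j < i →
      (j + 1 < (skel E c l).length → i < t (j + 1)) →
        ¬ E ((skel E c l).getD j 0) (l.getD i 0)) := by
  intro l
  induction l with
  | nil =>
    intro c
    refine ⟨fun _ => 0, ?_, ?_, ?_, ?_⟩
    · intro j h; simp [skel] at h
    · intro j h; simp [skel] at h
    · intro i h; simp at h
    · intro j h; simp [skel] at h
  | cons y l ih =>
    intro c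
    rw [skel_cons]
    by_cases h : E c y
    · rw [if_pos h]
      obtain ⟨t, t1, t2, t3, t4⟩ := ih y
      refine ⟨fun j => if j = 0 then 0 else 1 + t (j - 1), ?_, ?_, ?_, ?_⟩
      · intro j hj
        simp only [List.length_cons] at hj
        rcases j with _ | j
        · simp
        · have := t1 j (by omega)
          simp only [Nat.add_eq_zero_iff, one_ne_zero, and_false, if_false, Nat.add_sub_cancel]
          omega
      · intro j hj
        simp only [List.length_cons] at hj
        rcases j with _ | j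
        · simp
        · have := t2 j (by omega)
          simp only [Nat.add_eq_zero_iff, one_ne_zero, and_false, if_false, Nat.add_sub_cancel,
            List.length_cons, List.getD_cons_succ]
          rw [show 1 + t j = t j + 1 by ring, List.getD_cons_succ]
          exact ⟨by omega, this.2⟩
      · intro i hi h0
        have := h0 (by simp)
        simp at this
      · intro j hj i hi hji hji2
        simp only [List.length_cons] at hj hi
        rcases i with _ | i
        · exact absurd hji (Nat.not_lt_zero _)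
        · rcases j with _ | j
          · simp only [List.getD_cons_succ, List.getD_cons_zero]
            refine t3 i (by omega) fun h0 => ?_
            have := hji2 (by simp only [List.length_cons]; omega)
            simp only [Nat.add_eq_zero_iff, one_ne_zero, and_false, if_false,
              Nat.add_sub_cancel] at this
            omega
          · simp only [List.getD_cons_succ]
            simp only [Nat.add_eq_zero_iff, one_ne_zero, and_false, if_false,
              Nat.add_sub_cancel] at hji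
            refine t4 j (by omega) i (by omega) (by omega) fun h0 => ?_
            have := hji2 (by simp only [List.length_cons]; omega)
            simp only [Nat.add_eq_zero_iff, one_ne_zero, and_false, if_false,
              Nat.add_sub_cancel] at this
            omega
    · rw [if_neg h]
      obtain ⟨t, t1, t2, t3, t4⟩ := ih c
      refine ⟨fun j => 1 + t j, ?_, ?_, ?_, ?_⟩
      · intro j hj
        have := t1 j hj
        simp only
        omega
      · intro j hj
        have := t2 j hj
        simp only [List.length_cons]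
        rw [show 1 + t j = t j + 1 by ring, List.getD_cons_succ]
        exact ⟨by omega, this.2⟩
      · intro i hi h0
        rcases i with _ | i
        · simpa using h
        · simp only [List.length_cons] at hi
          simp only [List.getD_cons_succ]
          refine t3 i (by omega) fun h1 => ?_
          have := h0 h1
          simp only at this
          omega
      · intro j hj i hi hji hji2
        simp only [List.length_cons] at hi
        rcases i with _ | i
        · exact absurd hji (Nat.not_lt_zero _)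
        · simp only [List.getD_cons_succ]
          simp only at hji hji2
          refine t4 j hj i (by omega) (by omega) fun h0 => ?_
          have := hji2 h0
          omega

/-- `ω` and `ω'` meet at common sites in the same order and stay close in between -/
def Fol (pos : ℤ × ℤ → ℂ) (r : ℝ) {n n' : ℕ} (ω : Fin (n + 1) → ℤ × ℤ)
    (ω' : Fin (n' + 1) → ℤ × ℤ) : Prop :=
  ∃ (k : ℕ) (t : ℕ → Fin (n + 1)) (t' : ℕ → Fin (n' + 1)), Monotone t ∧ Monotone t' ∧
    t 0 = 0 ∧ t' 0 = 0 ∧ t k = Fin.last n ∧ t' k = Fin.last n' ∧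
    (∀ j, j ≤ k → ω (t j) = ω' (t' j)) ∧
    ∀ j, j < k → (∀ i, t j ≤ i → i ≤ t (j + 1) → ‖pos (ω i) - pos (ω (t j))‖ ≤ r) ∧
      (∀ i, t' j ≤ i → i ≤ t' (j + 1) → ‖pos (ω' i) - pos (ω' (t' j))‖ ≤ r)

/-- the times of one walk -/
theorem one_walk {pos : ℤ × ℤ → ℂ} {ρ : ℝ} (hρ : 0 ≤ ρ)
    (hE : ∀ c y, ¬ E c y → ‖pos y - pos c‖ ≤ ρ) {n : ℕ} (ω : Fin (n + 1) → ℤ × ℤ) (h0 : ω 0 = 0)
    (hstep : ∀ i : Fin n, ‖pos (ω i.succ) - pos (ω i.castSucc)‖ ≤ 1) :
    ∃ t : ℕ → Fin (n + 1), Monotone t ∧ t 0 = 0 ∧
      (∀ j, (skel E 0 (List.ofFn ω)).length + 1 ≤ j → t j = Fin.last n) ∧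
      (∀ j, j < (skel E 0 (List.ofFn ω)).length →
        ω (t (j + 1)) = (skel E 0 (List.ofFn ω)).getD j 0) ∧
      ∀ j, ∀ i, t j ≤ i → i ≤ t (j + 1) → ‖pos (ω i) - pos (ω (t j))‖ ≤ ρ + 1 := by
  obtain ⟨τ, t1, t2, t3, t4⟩ := skel_times E (List.ofFn ω) 0
  obtain ⟨m, hm⟩ : ∃ m, m = (skel E 0 (List.ofFn ω)).length := ⟨_, rfl⟩
  rw [← hm] at t1 t2 t3 t4 ⊢
  have hlen : (List.ofFn ω).length = n + 1 := List.length_ofFn
  rw [hlen] at t2 t3 t4
  have hget : ∀ i (h : i < n + 1), (List.ofFn ω).getD i 0 = ω ⟨i, h⟩ := by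
    intro i h
    rw [List.getD_eq_getElem _ _ (by rw [hlen]; exact h), List.getElem_ofFn]
  -- the times
  obtain ⟨t, ht⟩ : ∃ t : ℕ → ℕ, t = fun j => if j = 0 then 0 else if j ≤ m then τ (j - 1) else n :=
    ⟨_, rfl⟩
  have e0 : t 0 = 0 := by rw [ht]; simp
  have e1 : ∀ j, j < m → t (j + 1) = τ j := by
    intro j hj
    rw [ht]
    simp only [Nat.add_eq_zero_iff, one_ne_zero, and_false, if_false, Nat.add_sub_cancel]
    rw [if_pos (by omega)]
  have e2 : ∀ j, m < j → t j = n := by
    intro j hj
    rw [ht]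
    simp only
    rw [if_neg (by omega), if_neg (by omega)]
  have hle : ∀ j, t j < n + 1 := by
    intro j
    rcases j with _ | j
    · rw [e0]; omega
    · rcases lt_or_ge j m with h | h
      · rw [e1 j h]
        exact (t2 j h).1
      · rw [e2 (j + 1) (by omega)]
        omega
  have hmono1 : ∀ j, t j ≤ t (j + 1) := by
    intro j
    rcases lt_or_ge j m with h | h
    · rcases j with _ | j
      · rw [e0]; omega
      · rw [e1 j (by omega), e1 (j + 1) h]
        exact (t1 j h).le
    · rw [e2 (j + 1) (by omega)]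
      have := hle j
      omega
  have hmono : Monotone t := monotone_nat_of_le_succ hmono1
  refine ⟨fun j => ⟨t j, hle j⟩, fun a b hab => hmono hab, ?_, ?_, ?_, ?_⟩
  · apply Fin.ext
    exact e0
  · intro j hj
    apply Fin.ext
    exact e2 j (by omega)
  · intro j hj
    have h1 := (t2 j hj).2
    rw [← h1, ← hget (t (j + 1)) (hle _), e1 j hj]
  · -- closeness
    have hcen : ∀ j, j ≤ m → ∀ i (hi : i < n + 1), t j < i → (j < m → i < t (j + 1)) →
        ‖pos (ω ⟨i, hi⟩) - pos (ω ⟨t j, hle j⟩)‖ ≤ ρ := by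
      intro j hj i hi hji hji2
      refine hE _ _ ?_
      rcases j with _ | j
      · have h2 : ω ⟨t 0, hle 0⟩ = 0 := by
          rw [← h0]
          congr 1
          apply Fin.ext
          exact e0
        rw [h2, ← hget i hi]
        refine t3 i hi fun h3 => ?_
        have := hji2 h3
        rwa [e1 0 h3] at this
      · have h1 := (t2 j (by omega)).2
        have h2 : ω ⟨t (j + 1), hle (j + 1)⟩ = (skel E 0 (List.ofFn ω)).getD j 0 := by
          rw [← h1, ← hget (t (j + 1)) (hle _), e1 j (by omega)]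
        rw [h2, ← hget i hi]
        refine t4 j (by omega) i hi (by rwa [e1 j (by omega)] at hji) fun h3 => ?_
        have := hji2 h3
        rwa [e1 (j + 1) h3] at this
    intro j i hji hji2
    obtain ⟨i, hi⟩ := i
    have a1 : t j ≤ i := hji
    have a2 : i ≤ t (j + 1) := hji2
    rcases a1.eq_or_lt with h1 | h1
    · have : (⟨i, hi⟩ : Fin (n + 1)) = ⟨t j, hle j⟩ := Fin.ext h1.symm
      rw [this, sub_self, norm_zero]
      linarith
    · have hjm : j ≤ m := by
        by_contra hcon
        push Not at hcon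
        have h2 := e2 j hcon
        omega
      rcases lt_or_ge j m with h2 | h2
      · rcases a2.lt_or_eq with h3 | h3
        · exact (hcen j hjm i hi h1 fun _ => h3).trans (by linarith)
        · -- the exit point
          obtain ⟨i', rfl⟩ : ∃ i', i = i' + 1 := ⟨i - 1, by omega⟩
          have h4 := hstep ⟨i', by omega⟩
          have e5 : (⟨i', by omega⟩ : Fin n).succ = ⟨i' + 1, hi⟩ := rfl
          have e6 : (⟨i', by omega⟩ : Fin n).castSucc = ⟨i', by omega⟩ := rfl
          rw [e5, e6] at h4
          have h7 : ‖pos (ω ⟨i', by omega⟩) - pos (ω ⟨t j, hle j⟩)‖ ≤ ρ := by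
            rcases (show t j ≤ i' by omega).eq_or_lt with h8 | h8
            · have : (⟨i', by omega⟩ : Fin (n + 1)) = ⟨t j, hle j⟩ := Fin.ext h8.symm
              rw [this, sub_self, norm_zero]
              exact hρ
            · exact hcen j hjm i' (by omega) h8 fun _ => by omega
          have h9 : pos (ω ⟨i' + 1, hi⟩) - pos (ω ⟨t j, hle j⟩) =
              (pos (ω ⟨i' + 1, hi⟩) - pos (ω ⟨i', by omega⟩)) +
                (pos (ω ⟨i', by omega⟩) - pos (ω ⟨t j, hle j⟩)) := by ring
          calc ‖pos (ω ⟨i' + 1, hi⟩) - pos (ω ⟨t j, hle j⟩)‖ ≤ 1 + ρ := by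
                rw [h9]
                exact (norm_add_le _ _).trans (add_le_add h4 h7)
            _ = ρ + 1 := by ring
      · exact (hcen j hjm i hi h1 fun h5 => absurd h5 (by omega)).trans (by linarith)

/-- walks with the same skeleton follow each other -/
theorem fol_of_skel {pos : ℤ × ℤ → ℂ} {ρ : ℝ} (hρ : 0 ≤ ρ)
    (hE : ∀ c y, ¬ E c y → ‖pos y - pos c‖ ≤ ρ) {n n' : ℕ} (ω : Fin (n + 1) → ℤ × ℤ)
    (ω' : Fin (n' + 1) → ℤ × ℤ) (h0 : ω 0 = 0) (h0' : ω' 0 = 0)
    (hstep : ∀ i : Fin n, ‖pos (ω i.succ) - pos (ω i.castSucc)‖ ≤ 1)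
    (hstep' : ∀ i : Fin n', ‖pos (ω' i.succ) - pos (ω' i.castSucc)‖ ≤ 1)
    (hl : ω (Fin.last n) = ω' (Fin.last n'))
    (hs : skel E 0 (List.ofFn ω) = skel E 0 (List.ofFn ω')) : Fol pos (ρ + 1) ω ω' := by
  obtain ⟨t, a1, a2, a3, a4, a5⟩ := one_walk hρ hE ω h0 hstep
  obtain ⟨t', b1, b2, b3, b4, b5⟩ := one_walk hρ hE ω' h0' hstep'
  rw [← hs] at b3 b4
  refine ⟨(skel E 0 (List.ofFn ω)).length + 1, t, t', a1, b1, a2, b2, a3 _ le_rfl, b3 _ le_rfl,
    ?_, fun j _ => ⟨a5 j, b5 j⟩⟩
  intro j hj
  rcases j with _ | j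
  · rw [a2, b2, h0, h0']
  · rcases lt_or_ge j (skel E 0 (List.ofFn ω)).length with h | h
    · rw [a4 j h, b4 j h]
    · rw [a3 (j + 1) (by omega), b3 (j + 1) (by omega)]
      exact hl

end

end Q294.Ts
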