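import Pool.Agent.Q78.UR.Ratio

/-!
# Neighbouring terms of approximately log-convex sequences, uniformly in the starting index
-/

set_option autoImplicit false

namespace Q294.Ts

open Finset Filter Topology Q78.UR

noncomputable section

/-- **neighbouring terms**: the ratio is close to one if one of the two terms is not too small -/
theorem ratioN (s : ℕ) (hs : 1 ≤ s) (D θ K : ℝ) (hD : 0 ≤ D) (hθ0 : 0 < θ) (hθ1 : θ < 1)
    (hK : 0 ≤ K) : ∃ (C δ : ℝ), 0 < C ∧ 0 < δ ∧ C * √δ ≤ 1 / 2 ∧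
      ∀ (N : ℕ) (x : ℕ → ℝ), Cx s N D θ K x → ∀ n, 2 * N + 2 * s + 4 ≤ n → ∀ a : ℝ,
        Real.log n ^ 2 ≤ a → a ≤ δ * n →
      (Real.exp (-a) ≤ x n ∨ Real.exp (-a) ≤ x (n + s)) →
      |x (n + s) - x n| ≤ C * √(a / n) * x n := by
  obtain ⟨E, hE⟩ : ∃ E : ℝ, E = D + s := ⟨_, rfl⟩
  have hsR : (1 : ℝ) ≤ s := by exact_mod_cast hs
  have hE1 : 1 ≤ E := by linarith
  obtain ⟨Q, hQ⟩ : ∃ Q : ℝ, Q = 256 * E * (2 + 4 * K) := ⟨_, rfl⟩
  have hQ0 : 0 < Q := by rw [hQ]; positivity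
  obtain ⟨C, hC⟩ : ∃ C : ℝ, C = √Q := ⟨_, rfl⟩
  have hC0 : 0 < C := by rw [hC]; exact Real.sqrt_pos.2 hQ0
  have hC2 : C ^ 2 = Q := by rw [hC]; exact Real.sq_sqrt hQ0.le
  have hlθ : 0 < Real.log (1 / θ) := Real.log_pos (by rw [lt_div_iff₀ hθ0]; linarith)
  obtain ⟨δ, hδ⟩ : ∃ δ : ℝ, δ = min (Real.log (1 / θ) / 4) (1 / (4 * C ^ 2)) := ⟨_, rfl⟩
  have hδ0 : 0 < δ := by rw [hδ]; exact lt_min (by linarith) (by positivity)
  have hδ1 : δ ≤ Real.log (1 / θ) / 4 := by rw [hδ]; exact min_le_left _ _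
  have hδ2 : C * √δ ≤ 1 / 2 := by
    have h1 : √δ ≤ √(1 / (4 * C ^ 2)) := Real.sqrt_le_sqrt (by rw [hδ]; exact min_le_right _ _)
    have h2 : √(1 / (4 * C ^ 2)) = 1 / (2 * C) := by
      rw [show 1 / (4 * C ^ 2) = (1 / (2 * C)) ^ 2 by rw [div_pow, mul_pow]; norm_num,
        Real.sqrt_sq (by positivity)]
    rw [h2] at h1
    calc C * √δ ≤ C * (1 / (2 * C)) := mul_le_mul_of_nonneg_left h1 hC0.le
      _ = 1 / 2 := by field_simp
  refine ⟨C, δ, hC0, hδ0, hδ2, ?_⟩
  intro N x hx n hn a ha1 ha2 hor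
  have hn3 : 3 ≤ n := by omega
  have hnR : (0 : ℝ) < n := by
    have : 0 < n := by omega
    exact_mod_cast this
  have ha : 1 ≤ a := (one_le_log_sq hn3).trans ha1
  obtain ⟨ε, hε⟩ : ∃ ε : ℝ, ε = C * √(a / n) := ⟨_, rfl⟩
  have hε0 : 0 < ε := by rw [hε]; exact mul_pos hC0 (Real.sqrt_pos.2 (by positivity))
  have hε1 : ε ≤ 1 / 2 := by
    rw [hε]
    refine le_trans (mul_le_mul_of_nonneg_left (Real.sqrt_le_sqrt ?_) hC0.le) hδ2
    rw [div_le_iff₀ hnR]
    exact ha2
  have hε2 : ε ^ 2 * n = Q * a := by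
    rw [hε, mul_pow, Real.sq_sqrt (by positivity), hC2]
    field_simp
  rw [← hε]
  have hxn := hx.nn n
  have hKl : K * (4 * Real.log n ^ 2) ≤ 4 * K * a := by
    have := mul_le_mul_of_nonneg_left ha1 hK
    linarith
  have hKa : 0 ≤ K * a := by positivity
  rw [abs_le]
  constructor
  · -- lower bound
    by_contra hcon
    have h1 : x (n + s) ≤ (1 - ε) * x n := by linarith
    have h2 : Real.exp (-a) ≤ x n := by
      rcases hor with h | h
      · exact h
      · refine h.trans (h1.trans ?_)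
        nlinarith
    obtain ⟨J, hJ⟩ : ∃ J : ℕ, J = ⌊ε * n / (8 * E)⌋₊ := ⟨_, rfl⟩
    have hJ1 : (J : ℝ) ≤ ε * n / (8 * E) := by
      rw [hJ]; exact Nat.floor_le (by positivity)
    have hJ2 : ε * n / (8 * E) < J + 1 := by rw [hJ]; exact Nat.lt_floor_add_one _
    rw [le_div_iff₀ (by positivity)] at hJ1
    have hJ0 : (0 : ℝ) ≤ J := Nat.cast_nonneg _
    have hJs : (J : ℝ) * s ≤ n / 2 := by
      have h3 : (J : ℝ) * s ≤ J * E := mul_le_mul_of_nonneg_left (by linarith) hJ0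
      nlinarith
    have hJs' : J * s ≤ n / 2 := by
      rw [Nat.le_div_iff_mul_le (by norm_num)]
      have : (J : ℝ) * s * 2 ≤ n := by linarith
      exact_mod_cast this
    have hJD : 2 * (J : ℝ) * D ≤ ε * n / 4 := by
      have h3 : (J : ℝ) * D ≤ J * E := mul_le_mul_of_nonneg_left (by linarith) hJ0
      nlinarith
    have hfin := (backward hx hD (n := n) (m := n - J * s) (J := J) (ε := ε) (by omega) (by omega)
      (by omega) (by omega) hε0 (by linarith) (Real.exp_pos (-a))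
      (fun i hi => pow_le_exp hθ0 hδ1 hδ0 ha2 (by omega)) h1 h2 hJD J le_rfl 0 (by omega)).2
    rw [zero_mul, add_zero] at hfin
    have h4 : x (n - J * s) ≤ Real.exp (4 * K * a) := by
      refine (hx.up _ (by omega)).trans (Real.exp_le_exp.2 ?_)
      refine le_trans (mul_le_mul_of_nonneg_left (log_two_mul (n := n) (by omega) (by omega)
        (by omega)) hK) hKl
    have h5 := grow_end hε0 (by linarith) (hfin.trans h4)
    have h6 : ε * n / (8 * E) * (ε / 4) ≤ (J + 1) * (ε / 4) :=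
      mul_le_mul_of_nonneg_right hJ2.le (by linarith)
    have h7 : ε * n / (8 * E) * (ε / 4) = 16 * a + 32 * (K * a) := by
      have : ε * n / (8 * E) * (ε / 4) = ε ^ 2 * n / (32 * E) := by field_simp; ring
      rw [this, hε2, hQ]
      field_simp
      ring
    have h8 : ((J : ℝ) + 1) * (ε / 4) = J * (ε / 4) + ε / 4 := by ring
    have h9 : 4 * K * a = 4 * (K * a) := by ring
    linarith
  · by_contra hcon
    have h1 : (1 + ε) * x n ≤ x (n + s) := by linarith
    have h2 : Real.exp (-a) ≤ x (n + s) := by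
      rcases hor with h | h
      · refine h.trans (le_trans ?_ h1)
        nlinarith
      · exact h
    obtain ⟨J, hJ⟩ : ∃ J : ℕ, J = ⌊ε * n / (4 * E)⌋₊ := ⟨_, rfl⟩
    have hJ1 : (J : ℝ) ≤ ε * n / (4 * E) := by
      rw [hJ]; exact Nat.floor_le (by positivity)
    have hJ2 : ε * n / (4 * E) < J + 1 := by rw [hJ]; exact Nat.lt_floor_add_one _
    rw [le_div_iff₀ (by positivity)] at hJ1
    have hJ0 : (0 : ℝ) ≤ J := Nat.cast_nonneg _
    have hJs : (J : ℝ) * s ≤ n / 2 := by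
      have h3 : (J : ℝ) * s ≤ J * E := mul_le_mul_of_nonneg_left (by linarith) hJ0
      nlinarith
    have hJs' : J * s ≤ n / 2 := by
      rw [Nat.le_div_iff_mul_le (by norm_num)]
      have : (J : ℝ) * s * 2 ≤ n := by linarith
      exact_mod_cast this
    have hJD : (J : ℝ) * D ≤ ε * n / 4 := by
      have h3 : (J : ℝ) * D ≤ J * E := mul_le_mul_of_nonneg_left (by linarith) hJ0
      nlinarith
    have hfin := (forward hx hD (n := n) (J := J) (ε := ε) (by omega) (by omega) hε0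
      (by linarith) (Real.exp_pos (-a))
      (fun i hi => pow_le_exp hθ0 hδ1 hδ0 ha2 (by omega)) h1 h2 hJD J le_rfl).2
    have e : (J + 1) * s = J * s + s := by ring
    have h4 : x (n + (J + 1) * s) ≤ Real.exp (4 * K * a) := by
      refine (hx.up _ (by omega)).trans (Real.exp_le_exp.2 ?_)
      refine le_trans (mul_le_mul_of_nonneg_left (log_two_mul (n := n) (by omega) (by omega)
        (by omega)) hK) hKl
    have h5 := grow_end hε0 (by linarith) (hfin.trans h4)
    have h6 : ε * n / (4 * E) * (ε / 4) ≤ (J + 1) * (ε / 4) :=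
      mul_le_mul_of_nonneg_right hJ2.le (by linarith)
    have h7 : ε * n / (4 * E) * (ε / 4) = 32 * a + 64 * (K * a) := by
      have : ε * n / (4 * E) * (ε / 4) = ε ^ 2 * n / (16 * E) := by field_simp; ring
      rw [this, hε2, hQ]
      field_simp
      ring
    have h8 : ((J : ℝ) + 1) * (ε / 4) = J * (ε / 4) + ε / 4 := by ring
    have h9 : 4 * K * a = 4 * (K * a) := by ring
    linarith

end

end Q294.Ts
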