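import Pool.Agent.Q294.Ts3
import Pool.Agent.Q294.Tu1

/-!
# Ratios and total variation, uniformly in the range where the statistic has few critical moves
-/

set_option autoImplicit false

namespace Q294.Ts

open Finset Filter Topology TH966.AK Q294.Av Q294.Tr
open scoped Classical

noncomputable section

variable {A : P → P → Prop} {Z : Rule A} {μ K : ℝ}

/-- **rare values**: the ratio of the numbers at lengths `n` and `n + s` -/
theorem ratioU (G : Growth Z μ K) :
    ∃ q : ℕ, 1 ≤ q ∧ ∀ κ : ℕ, ∃ (C δ : ℝ) (N1 : ℕ), 0 < C ∧ 0 < δ ∧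
      ∀ {β : Type} (T : List P → β), Lip Z T κ → ∀ N, N1 ≤ N →
      (∀ n, N ≤ n → ∃ b, Few Z T n b ∧ q * b ≤ n) →
      ∀ (S : Set (β × P)) (n : ℕ), 2 * N + 2 * Z.s + 4 ≤ n → ∀ a : ℝ, Real.log n ^ 2 ≤ a → a ≤ δ * n →
      (Real.exp (-a) ≤ NG A T S n / μ ^ n ∨
        Real.exp (-a) ≤ NG A T S (n + Z.s) / μ ^ (n + Z.s)) →
      |NG A T S (n + Z.s) / μ ^ (n + Z.s) - NG A T S n / μ ^ n| ≤
        C * √(a / n) * (NG A T S n / μ ^ n) := by
  have hμ := G.hμ
  have hμ0 : 0 < μ := by linarith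
  obtain ⟨q, hq, hall⟩ := kesG G
  refine ⟨q, hq, fun κ => ?_⟩
  obtain ⟨D, θ, N1, hD, hθ0, hθ1, hkes⟩ := hall κ
  obtain ⟨C, δ, hC, hδ, -, hrat⟩ := ratioN Z.s G.hs D θ K hD hθ0 hθ1 G.hK
  refine ⟨C, δ, N1, hC, hδ, ?_⟩
  intro β T hκ N hN hb S n hn a ha1 ha2 hor
  refine hrat N (fun m => NG A T S m / μ ^ m) ⟨?_, ?_, ?_⟩ n hn a ha1 ha2 hor
  · intro m
    exact div_nonneg (NG_nonneg T S m) (by positivity)
  · intro m hm
    rw [div_le_iff₀ (by positivity), mul_comm]
    exact (NG_le T S m).trans (G.up m hm)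
  · intro m hm hbig
    have hm1 : N ≤ m := hm
    have hm2 : N1 ≤ m := hN.trans hm
    rw [le_div_iff₀ (by positivity), ← mul_pow] at hbig
    have h1 := hkes T hκ m hm2 (hb m hm1) (hb _ (by omega)) S hbig
    have e3 : (μ ^ (m + Z.s)) ^ 2 = μ ^ m * μ ^ (m + 2 * Z.s) := by
      rw [← pow_mul, ← pow_add]
      congr 1
      ring
    have e4 : m + Z.s + Z.s = m + 2 * Z.s := by ring
    rw [e4] at h1
    rw [div_pow, div_mul_div_comm, div_mul_eq_mul_div, e3]
    exact div_le_div_of_nonneg_right h1 (by positivity)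

/-- **ratios and total variation** -/
theorem tvU (G : Growth Z μ K) :
    ∃ q : ℕ, 1 ≤ q ∧ ∀ κ : ℕ, ∃ R : ℝ, 0 < R ∧
      ∀ {β : Type} (T : List P → β), Lip Z T κ → ∀ N : ℕ,
      (∀ n, N ≤ n → ∃ b, Few Z T n b ∧ q * b ≤ n) →
      ∀ (S0 : Set (β × P)) (n : ℕ), 2 * N + 2 * Z.s + 4 ≤ n → 0 < NG A T S0 n →
      (R * er (NG A T S0 n / (Kw A n).card) n ≤ 1 →
        |NG A T S0 (n + Z.s) / (μ ^ Z.s * NG A T S0 n) - 1| ≤
          R * er (NG A T S0 n / (Kw A n).card) n) ∧
      ∀ S ⊆ S0, |NG A T S (n + Z.s) / NG A T S0 (n + Z.s) -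
          NG A T S n / NG A T S0 n| ≤ R * er (NG A T S0 n / (Kw A n).card) n := by
  have hμ := G.hμ
  have hμ0 : 0 < μ := by linarith
  obtain ⟨q, hq, hall⟩ := ratioU G
  refine ⟨q, hq, fun κ => ?_⟩
  obtain ⟨C, δ, N1, hC, hδ, hrat0⟩ := hall κ
  obtain ⟨N0, hN0d⟩ : ∃ N0, N0 = 2 * N1 + 2 * Z.s + 4 := ⟨_, rfl⟩
  have hN0 : 3 ≤ N0 := by omega
  obtain ⟨R, hR⟩ : ∃ R : ℝ, R = 4 * C + 8 + 2 / √δ + 3 * √(N0 : ℝ) := ⟨_, rfl⟩
  have hδs : 0 < √δ := Real.sqrt_pos.2 hδ
  have hN0s : 0 < √(N0 : ℝ) := Real.sqrt_pos.2 (by exact_mod_cast (by omega : 0 < N0))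
  have hR0 : 0 < R := by rw [hR]; positivity
  refine ⟨R, hR0, fun {β} T hκ N hb S0 n hnN2 hpos => ?_⟩
  have hn : 2 ≤ n := by omega
  have hrat : ∀ (S : Set (β × P)), N0 ≤ n → ∀ a : ℝ, Real.log n ^ 2 ≤ a → a ≤ δ * n →
      (Real.exp (-a) ≤ NG A T S n / μ ^ n ∨
        Real.exp (-a) ≤ NG A T S (n + Z.s) / μ ^ (n + Z.s)) →
      |NG A T S (n + Z.s) / μ ^ (n + Z.s) - NG A T S n / μ ^ n| ≤
        C * √(a / n) * (NG A T S n / μ ^ n) := by
    intro S hn0 a ha1 ha2 hor
    refine hrat0 T hκ (max N N1) (le_max_right _ _) (fun k hk => hb k ((le_max_left _ _).trans hk))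
      S n ?_ a ha1 ha2 hor
    rcases le_total N N1 with h | h
    · rw [max_eq_right h]
      omega
    · rw [max_eq_left h]
      exact hnN2
  have hnR : (0 : ℝ) < n := by exact_mod_cast (by omega : 0 < n)
  have hn1 : (1 : ℝ) ≤ n := by exact_mod_cast (by omega : 1 ≤ n)
  have hc : (0 : ℝ) < (Kw A n).card := lt_of_lt_of_le (by positivity) (G.low n)
  obtain ⟨p, hp⟩ : ∃ p, p = NG A T S0 n / (Kw A n).card := ⟨_, rfl⟩
  rw [← hp]
  have hp0 : 0 < p := by rw [hp]; positivity
  have hp1 : p ≤ 1 := by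
    rw [hp, div_le_one hc]
    exact NG_le T S0 n
  obtain ⟨a, ha⟩ : ∃ a, a = Real.log n ^ 2 + Real.log (1 / p) := ⟨_, rfl⟩
  have hlp : 0 ≤ Real.log (1 / p) := Real.log_nonneg (by rw [le_div_iff₀ hp0]; linarith)
  obtain ⟨l1, l2, l3⟩ := log_facts hn
  have ha0 : 1 / 4 ≤ a := by rw [ha]; nlinarith
  have her : er p n = √(a / n) := by unfold er; rw [← ha]
  have her0 : 0 ≤ er p n := Real.sqrt_nonneg _
  obtain ⟨x, hx⟩ : ∃ x : Set (β × P) → ℕ → ℝ, x = fun S m => NG A T S m / μ ^ m := ⟨_, rfl⟩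
  have hx0 : ∀ S m, 0 ≤ x S m := fun S m => by
    rw [hx]
    exact div_nonneg (NG_nonneg T S m) (by positivity)
  have hxp : p ≤ x S0 n := by
    rw [hx, hp]
    refine div_le_div_of_nonneg_left (NG_nonneg T S0 n) (by positivity) (G.low n)
  have hxpos : 0 < x S0 n := lt_of_lt_of_le hp0 hxp
  have hexpa : Real.exp (-a) ≤ x S0 n := by
    refine le_trans ?_ hxp
    rw [ha, neg_add, Real.exp_add, one_div, Real.log_inv, neg_neg, Real.exp_log hp0]
    have h1 : Real.exp (-Real.log n ^ 2) ≤ 1 := by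
      rw [Real.exp_le_one_iff]
      have := sq_nonneg (Real.log (n : ℝ))
      linarith
    nlinarith
  have hmono : ∀ S ⊆ S0, ∀ m, x S m ≤ x S0 m := fun S hS m => by
    rw [hx]
    exact div_le_div_of_nonneg_right (NG_mono T hS m) (by positivity)
  have hsmall : n < N0 → 1 ≤ R * er p n := by
    intro hnN
    have h1 : 1 / (2 * √(N0 : ℝ)) ≤ er p n := by
      rw [her]
      refine Real.le_sqrt_of_sq_le ?_
      rw [div_pow, mul_pow, Real.sq_sqrt (Nat.cast_nonneg _), one_pow, div_le_div_iff₀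
        (by positivity) hnR]
      have h2 : (n : ℝ) ≤ N0 := by exact_mod_cast hnN.le
      nlinarith
    have h2 : 3 * √(N0 : ℝ) * (1 / (2 * √(N0 : ℝ))) = 3 / 2 := by field_simp
    have h3 : 3 * √(N0 : ℝ) ≤ R := by
      rw [hR]
      have : 0 ≤ 2 / √δ := by positivity
      linarith
    have h4 : 3 * √(N0 : ℝ) * (1 / (2 * √(N0 : ℝ))) ≤ R * er p n :=
      mul_le_mul h3 h1 (by positivity) hR0.le
    linarith
  have hbigd : δ * n < 2 * a → 1 < R * er p n := by
    intro h
    have h1 : √(δ / 2) ≤ er p n := by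
      rw [her]
      refine Real.sqrt_le_sqrt ?_
      rw [div_le_div_iff₀ (by norm_num) hnR]
      linarith
    have h2 : √(δ / 2) = √δ / √2 := Real.sqrt_div' _ (by norm_num)
    have h3 : √2 < 2 := by rw [Real.sqrt_lt' (by norm_num)]; norm_num
    have h4 : 2 / √δ + 8 ≤ R := by rw [hR]; nlinarith
    have h5 : 0 < √(2 : ℝ) := Real.sqrt_pos.2 (by norm_num)
    have h6 : 2 / √δ * (√δ / √2) = 2 / √2 := by field_simp
    have h7 : 1 < 2 / √2 := by rw [lt_div_iff₀ h5]; linarith
    rw [h2] at h1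
    have h8 : 2 / √δ * (√δ / √2) ≤ R * er p n :=
      mul_le_mul (by linarith) h1 (by positivity) hR0.le
    linarith
  have hCer : C * √(a / n) ≤ R * er p n := by
    rw [← her]
    refine mul_le_mul_of_nonneg_right ?_ her0
    rw [hR]
    have : 0 ≤ 2 / √δ := by positivity
    linarith
  constructor
  · intro hle
    by_cases hnN : n < N0
    · have h9 := hsmall hnN
      have h10 : R * er p n = 1 := le_antisymm hle h9
      -- impossible by the strict version
      exfalso
      have h1 : 1 / (2 * √(N0 : ℝ)) ≤ er p n := by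
        rw [her]
        refine Real.le_sqrt_of_sq_le ?_
        rw [div_pow, mul_pow, Real.sq_sqrt (Nat.cast_nonneg _), one_pow, div_le_div_iff₀
          (by positivity) hnR]
        have h2 : (n : ℝ) ≤ N0 := by exact_mod_cast hnN.le
        nlinarith
      have h2 : 3 * √(N0 : ℝ) * (1 / (2 * √(N0 : ℝ))) = 3 / 2 := by field_simp
      have h3 : 3 * √(N0 : ℝ) ≤ R := by
        rw [hR]
        have : 0 ≤ 2 / √δ := by positivity
        linarith
      have h4 : 3 * √(N0 : ℝ) * (1 / (2 * √(N0 : ℝ))) ≤ R * er p n :=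
        mul_le_mul h3 h1 (by positivity) hR0.le
      linarith
    · push Not at hnN
      have had : a ≤ δ * n := by
        by_contra hcon
        push Not at hcon
        have := hbigd (by linarith)
        linarith
      have h1 := hrat S0 hnN a (by rw [ha]; linarith) had (Or.inl (by
        have := hexpa
        rw [hx] at this
        exact this))
      have e : NG A T S0 (n + Z.s) / (μ ^ Z.s * NG A T S0 n) - 1 =
          (NG A T S0 (n + Z.s) / μ ^ (n + Z.s) - NG A T S0 n / μ ^ n) /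
            (NG A T S0 n / μ ^ n) := by
        rw [pow_add]
        field_simp
      rw [e, abs_div, abs_of_pos (show 0 < NG A T S0 n / μ ^ n by positivity),
        div_le_iff₀ (by positivity)]
      exact h1.trans (mul_le_mul_of_nonneg_right hCer (by positivity))
  · intro S hS
    have htriv : |NG A T S (n + Z.s) / NG A T S0 (n + Z.s) -
          NG A T S n / NG A T S0 n| ≤ 1 := by
      have g1 : ∀ m, 0 ≤ NG A T S m / NG A T S0 m ∧ NG A T S m / NG A T S0 m ≤ 1 :=
        fun m => ⟨div_nonneg (NG_nonneg T S m) (NG_nonneg T S0 m),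
          div_le_one_of_le₀ (NG_mono T hS m) (NG_nonneg T S0 m)⟩
      have g2 := g1 n
      have g3 := g1 (n + Z.s)
      rw [abs_le]
      constructor <;> linarith
    by_cases hnN : n < N0
    · exact htriv.trans (hsmall hnN)
    push Not at hnN
    by_cases had : 2 * a ≤ δ * n
    swap
    · push Not at had
      exact htriv.trans (hbigd had).le
    -- the main case
    have hexp2 : Real.exp (-(2 * a)) ≤ x S0 n / n := by
      rw [le_div_iff₀ hnR]
      refine le_trans ?_ hxp
      have h1 : Real.exp (-(2 * a)) ≤ Real.exp (-(Real.log n + Real.log (1 / p))) := by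
        refine Real.exp_le_exp.2 (neg_le_neg ?_)
        rw [ha]
        linarith
      have h2 : Real.exp (-(Real.log n + Real.log (1 / p))) = p / n := by
        rw [neg_add, Real.exp_add, one_div, Real.log_inv, neg_neg, Real.exp_log hp0, Real.exp_neg,
          Real.exp_log hnR]
        field_simp
      rw [h2] at h1
      calc Real.exp (-(2 * a)) * n ≤ p / n * n := mul_le_mul_of_nonneg_right h1 hnR.le
        _ = p := by field_simp
    obtain ⟨η, hη⟩ : ∃ η, η = C * √(2 * a / n) + 1 / n := ⟨_, rfl⟩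
    have hkey : ∀ S ⊆ S0, |x S (n + Z.s) - x S n| ≤ η * x S0 n := by
      intro S hS
      by_cases hor : Real.exp (-(2 * a)) ≤ x S n ∨ Real.exp (-(2 * a)) ≤ x S (n + Z.s)
      · have h1 := hrat S hnN (2 * a) (by rw [ha]; nlinarith) had (by
          have := hor
          rw [hx] at this
          exact this)
        have h2 : |x S (n + Z.s) - x S n| ≤ C * √(2 * a / n) * x S n := by
          rw [hx]
          exact h1
        refine h2.trans ?_
        have h3 := hmono S hS n
        have h4 : 0 ≤ C * √(2 * a / n) := by positivity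
        have h5 := mul_le_mul_of_nonneg_left h3 h4
        rw [hη, add_mul]
        have h6 : 0 ≤ 1 / (n : ℝ) * x S0 n := by positivity
        linarith
      · push Not at hor
        have h1 : |x S (n + Z.s) - x S n| ≤ Real.exp (-(2 * a)) := by
          have := hx0 S n
          have := hx0 S (n + Z.s)
          rw [abs_le]
          constructor <;> linarith [hor.1, hor.2]
        refine h1.trans (hexp2.trans ?_)
        rw [hη, add_mul]
        have h4 : 0 ≤ C * √(2 * a / n) * x S0 n := by positivity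
        have h5 : x S0 n / n = 1 / n * x S0 n := by ring
        linarith
    have hq1 : ∀ S m, NG A T S m / NG A T S0 m = x S m / x S0 m := by
      intro S m
      rw [hx]
      simp only
      rw [div_div_div_cancel_right₀ (by positivity)]
    rw [hq1, hq1]
    refine (quot (hx0 S _) (hmono S hS _) (hx0 S n) (hmono S hS n) hxpos (hkey S hS)
      (hkey S0 subset_rfl)).trans ?_
    -- `2 η ≤ R √(a / n)`
    have h1 : √(2 * a / n) ≤ 3 / 2 * er p n := by
      rw [her, mul_div_assoc, Real.sqrt_mul (by norm_num)]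
      refine mul_le_mul_of_nonneg_right ?_ (Real.sqrt_nonneg _)
      rw [Real.sqrt_le_left (by norm_num)]
      norm_num
    have h2 : 1 / (n : ℝ) ≤ 2 * er p n := by
      rw [her]
      have h3 : 1 / (2 * (n : ℝ)) ≤ √(a / n) := by
        refine Real.le_sqrt_of_sq_le ?_
        rw [div_pow, mul_pow, one_pow, div_le_div_iff₀ (by positivity) hnR]
        nlinarith
      have h4 : 1 / (n : ℝ) = 2 * (1 / (2 * (n : ℝ))) := by field_simp
      rw [h4]
      linarith
    rw [hη]
    have h5 := mul_le_mul_of_nonneg_left h1 hC.le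
    have h6 : (4 * C + 8) * er p n ≤ R * er p n := by
      refine mul_le_mul_of_nonneg_right ?_ her0
      rw [hR]
      have : 0 ≤ 2 / √δ := by positivity
      linarith
    nlinarith

end

end Q294.Ts
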