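import Pool.Agent.Q294.Ts7
import Pool.Agent.Q294.Ts8
import Pool.Agent.Q294.Tu3

/-!
# Skeleton, edges in a set, blocks and extreme values: total variation
-/

set_option autoImplicit false

namespace Q294.Ts

open Finset Filter Topology TH966.AK Q294.Av Q294.Tr
open scoped Classical

noncomputable section

variable {A : P → P → Prop} {Z : Rule A} {μ K : ℝ} {Fc : P → Finset P}

/-- the statistic: skeleton, edges in `D`, blocks, extreme values -/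
def Sst (Fc : P → Finset P) (E : P → P → Prop) (D : Set P) (ℓ : ℕ) (c : ℤ × ℤ) {m : ℕ}
    (F : Fin m → ℤ × ℤ → ℤ) (w : List P) :
    (List P × List (P × P)) × Set ((ℤ × ℤ) ⊕ (Fin m × ℤ)) :=
  ((skel E 0 w, conf D w), TT Fc (Mst ℓ c F) w)

theorem lip_Sst (hF : Feat Z Fc) {f : ℕ} (hf : ∀ x, (Fc x).card ≤ f) (E : P → P → Prop)
    (D : Set P) (ℓ : ℕ) (c : ℤ × ℤ) {m : ℕ} (F : Fin m → ℤ × ℤ → ℤ) :
    Lip Z (Sst Fc E D ℓ c F) ((Z.k + Z.s) * (f * ((1 + m) * Z.c0))) := by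
  have h := ((lip_skel (Z := Z) E).prod (lip_conf (Z := Z) D)).prod (lip_TT hF hf (hitX ℓ c F))
  rw [zero_add, zero_add] at h
  exact h

theorem few_Sst (hF : Feat Z Fc) (hn : ∀ x, ∀ φ ∈ Fc x, |x.1 - φ.1| ≤ 2 ∧ |x.2 - φ.2| ≤ 2)
    {E : P → P → Prop} (hE : Tame Z E) {ℓ₁ ℓ : ℕ} (h1 : 1 ≤ ℓ₁) (hfar : Far E ℓ₁) (hℓ : 1 ≤ ℓ)
    (D : Finset P) (c : ℤ × ℤ) {m : ℕ} (F : Fin m → ℤ × ℤ → ℤ) (n : ℕ) :
    Few Z (Sst Fc E (D : Set P) ℓ c F) n
      (((n / ℓ₁ + 1) * Z.c0 + D.card * Z.c0) + (49 * (n / ℓ + 1) + m) * Z.c0) :=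
  ((few_skel hE (skel_card h1 hfar Z)).prod (few_conf D n)).prod (few_TT hF (hitG hn hℓ c F Z n))

theorem er_small {R p : ℝ} {n N : ℕ} (hn : 2 ≤ n) (hN : n < N) (hp0 : 0 < p) (hp1 : p ≤ 1)
    (hR : 3 * √(N : ℝ) ≤ R) : 1 < R * er p n := by
  have hnR : (0 : ℝ) < n := by exact_mod_cast (by omega : 0 < n)
  have hNR : (0 : ℝ) < N := by exact_mod_cast (by omega : 0 < N)
  have hNs : 0 < √(N : ℝ) := Real.sqrt_pos.2 hNR
  obtain ⟨l1, l2, l3⟩ := log_facts hn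
  have hlp : 0 ≤ Real.log (1 / p) := Real.log_nonneg (by rw [le_div_iff₀ hp0]; linarith)
  have h1 : 1 / (2 * √(N : ℝ)) ≤ er p n := by
    unfold er
    refine Real.le_sqrt_of_sq_le ?_
    rw [div_pow, mul_pow, Real.sq_sqrt hNR.le, one_pow, div_le_div_iff₀ (by positivity) hnR]
    have h2 : (n : ℝ) ≤ N := by exact_mod_cast hN.le
    nlinarith
  have h2 : 3 * √(N : ℝ) * (1 / (2 * √(N : ℝ))) = 3 / 2 := by field_simp
  have h4 : 3 * √(N : ℝ) * (1 / (2 * √(N : ℝ))) ≤ R * er p n :=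
    mul_le_mul hR h1 (by positivity) (by linarith [hNs])
  linarith

/-- **skeleton, edges in a set, blocks and extreme values** -/
theorem mainU (G : Growth Z μ K) (hF : Feat Z Fc) (f : ℕ) (hf : ∀ x, (Fc x).card ≤ f)
    (hn : ∀ x, ∀ φ ∈ Fc x, |x.1 - φ.1| ≤ 2 ∧ |x.2 - φ.2| ≤ 2) :
    ∃ ℓ₀ : ℕ, 1 ≤ ℓ₀ ∧ ∀ m : ℕ, ∃ R : ℝ, 0 < R ∧ ∀ (E : P → P → Prop) (D : Finset P) (ℓ : ℕ)
      (c : ℤ × ℤ) (F : Fin m → ℤ × ℤ → ℤ), Tame Z E → Far E ℓ₀ → ℓ₀ ≤ ℓ →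
      ∀ (S0 : Set (((List P × List (P × P)) × Set ((ℤ × ℤ) ⊕ (Fin m × ℤ))) × P)) (n : ℕ), 2 ≤ n →
      ℓ₀ * D.card ≤ n → 0 < NG A (Sst Fc E D ℓ c F) S0 n →
      (R * er (NG A (Sst Fc E D ℓ c F) S0 n / (Kw A n).card) n ≤ 1 →
        |NG A (Sst Fc E D ℓ c F) S0 (n + Z.s) / (μ ^ Z.s * NG A (Sst Fc E D ℓ c F) S0 n) - 1| ≤
          R * er (NG A (Sst Fc E D ℓ c F) S0 n / (Kw A n).card) n) ∧
      ∀ S ⊆ S0, |NG A (Sst Fc E D ℓ c F) S (n + Z.s) / NG A (Sst Fc E D ℓ c F) S0 (n + Z.s) -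
          NG A (Sst Fc E D ℓ c F) S n / NG A (Sst Fc E D ℓ c F) S0 n| ≤
            R * er (NG A (Sst Fc E D ℓ c F) S0 n / (Kw A n).card) n := by
  obtain ⟨q, hq, hall⟩ := tvU G
  obtain ⟨q', hq'⟩ : ∃ q', q' = q * (Z.c0 + 1) := ⟨_, rfl⟩
  have hq1 : 1 ≤ q' := by rw [hq']; exact Nat.mul_pos hq (by omega)
  refine ⟨100 * q', by omega, fun m => ?_⟩
  obtain ⟨R0, hR0, hres⟩ := hall ((Z.k + Z.s) * (f * ((1 + m) * Z.c0)))
  obtain ⟨N1, hN1⟩ : ∃ N1, N1 = 2 * (8 * (q' * (50 + m)) + 2 * Z.s + 4) := ⟨_, rfl⟩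
  obtain ⟨R, hRd⟩ : ∃ R : ℝ, R = R0 + 3 * √(N1 : ℝ) := ⟨_, rfl⟩
  have hR : 0 < R := by rw [hRd]; positivity
  refine ⟨R, hR, fun E D ℓ c F hE hfar hℓ S0 n hn2 hD hpos => ?_⟩
  have hℓ1 : 1 ≤ ℓ := by omega
  obtain ⟨T, hT⟩ : ∃ T, T = Sst Fc E (D : Set P) ℓ c F := ⟨_, rfl⟩
  rw [← hT] at hpos ⊢
  have hc : (0 : ℝ) < (Kw A n).card := lt_of_lt_of_le (pow_pos (by linarith [G.hμ]) n) (G.low n)
  have hp0 : 0 < NG A T S0 n / (Kw A n).card := by positivity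
  have hp1 : NG A T S0 n / (Kw A n).card ≤ 1 := by
    rw [div_le_one hc]
    exact NG_le T S0 n
  have her0 : 0 ≤ er (NG A T S0 n / (Kw A n).card) n := Real.sqrt_nonneg _
  have hRR : R0 * er (NG A T S0 n / (Kw A n).card) n ≤
      R * er (NG A T S0 n / (Kw A n).card) n := by
    refine mul_le_mul_of_nonneg_right ?_ her0
    rw [hRd]
    linarith [Real.sqrt_nonneg (N1 : ℝ)]
  by_cases hnN : n < N1
  · have h1 := er_small (R := R) hn2 hnN hp0 hp1 (by rw [hRd]; linarith)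
    refine ⟨fun h => absurd h (by linarith), fun S hS => ?_⟩
    have g1 : ∀ k, 0 ≤ NG A T S k / NG A T S0 k ∧ NG A T S k / NG A T S0 k ≤ 1 :=
      fun k => ⟨div_nonneg (NG_nonneg T S k) (NG_nonneg T S0 k),
        div_le_one_of_le₀ (NG_mono T hS k) (NG_nonneg T S0 k)⟩
    have g2 := g1 n
    have g3 := g1 (n + Z.s)
    refine le_trans ?_ h1.le
    rw [abs_le]
    constructor <;> linarith
  push Not at hnN
  have hkey := hres T (by rw [hT]; exact lip_Sst hF hf E D ℓ c F)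
    (4 * (q' * (50 + m) + q' * D.card)) (fun k hk => ?_) S0 n ?_ hpos
  · obtain ⟨k1, k2⟩ := hkey
    refine ⟨fun h => (k1 (hRR.trans h)).trans hRR, fun S hS => (k2 S hS).trans hRR⟩
  · refine ⟨_, by rw [hT]; exact few_Sst hF hn hE (show 1 ≤ 100 * q' by omega) hfar hℓ1 D c F k, ?_⟩
    obtain ⟨a, ha⟩ : ∃ a, a = k / (100 * q') := ⟨_, rfl⟩
    have h1 : 100 * q' * a ≤ k := by
      rw [ha, mul_comm]
      exact Nat.div_mul_le_self k _
    have h2 : k / ℓ ≤ a := by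
      rw [ha]
      exact Nat.div_le_div_left hℓ (by omega)
    rw [← ha]
    have h3 : (a + 1) * Z.c0 + D.card * Z.c0 + (49 * (k / ℓ + 1) + m) * Z.c0 ≤
        (50 * a + (50 + m) + D.card) * (Z.c0 + 1) := by
      have h4 : (a + 1) * Z.c0 + D.card * Z.c0 + (49 * (k / ℓ + 1) + m) * Z.c0 =
          (a + 1 + D.card + (49 * (k / ℓ + 1) + m)) * Z.c0 := by ring
      rw [h4]
      refine Nat.mul_le_mul ?_ (by omega)
      omega
    calc q * ((a + 1) * Z.c0 + D.card * Z.c0 + (49 * (k / ℓ + 1) + m) * Z.c0)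
        ≤ q * ((50 * a + (50 + m) + D.card) * (Z.c0 + 1)) := Nat.mul_le_mul_left _ h3
      _ = 50 * q' * a + (q' * (50 + m) + q' * D.card) := by rw [hq']; ring
      _ ≤ k := by
        have h5 : 100 * q' * a = 2 * (50 * q' * a) := by ring
        omega
  · have h1 : 2 * (4 * (q' * (50 + m) + q' * D.card)) = 8 * (q' * (50 + m)) + 8 * (q' * D.card) := by
      ring
    have h2 : 100 * q' * D.card = 100 * (q' * D.card) := by ring
    omega

/-- the logarithm over the square root -/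
theorem gg_le {n x : ℕ} (hn : 2 ≤ n) (hx : n ≤ x) :
    Real.log x / √(x : ℝ) ≤ 4 * (Real.log n / √(n : ℝ)) := by
  have hn0 : (0 : ℝ) < n := by exact_mod_cast (by omega : 0 < n)
  have hx0 : (0 : ℝ) < x := by exact_mod_cast (by omega : 0 < x)
  by_cases h8 : 8 ≤ n
  · have h1 := gg_anti h8 hx
    unfold gg at h1
    have h2 : 0 ≤ Real.log n / √(n : ℝ) := by
      have := (log_facts hn).2.1
      positivity
    linarith
  · push Not at h8
    have h1 : Real.log x / √(x : ℝ) ≤ 3 / 4 := by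
      have hs : 0 < √(x : ℝ) := Real.sqrt_pos.2 hx0
      rw [div_le_iff₀ hs]
      have h2 : Real.log x = 2 * Real.log (√(x : ℝ)) := by
        rw [Real.log_sqrt hx0.le]
        ring
      have h3 : Real.log (√(x : ℝ)) ≤ √(x : ℝ) / Real.exp 1 := by
        have h4 := Real.log_le_sub_one_of_pos (show 0 < √(x : ℝ) / Real.exp 1 by positivity)
        rw [Real.log_div hs.ne' (Real.exp_pos 1).ne', Real.log_exp] at h4
        linarith
      have h5 : √(x : ℝ) / Real.exp 1 ≤ 3 / 8 * √(x : ℝ) := by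
        rw [div_le_iff₀ (Real.exp_pos 1)]
        have h6 := Real.exp_one_gt_d9
        nlinarith
      rw [h2]
      linarith
    have h2 : 3 / 16 ≤ Real.log n / √(n : ℝ) := by
      have h3 := (log_facts hn).2.1
      have h4 : √(n : ℝ) ≤ 8 / 3 := by
        rw [Real.sqrt_le_left (by norm_num)]
        have : (n : ℝ) ≤ 7 := by exact_mod_cast (by omega : n ≤ 7)
        norm_num
        linarith
      rw [le_div_iff₀ (Real.sqrt_pos.2 hn0)]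
      nlinarith
    linarith

theorem er_one {n : ℕ} (hn : 2 ≤ n) : er 1 n = Real.log n / √(n : ℝ) := by
  unfold er
  rw [div_one, Real.log_one, add_zero, Real.sqrt_div' _ (Nat.cast_nonneg n), Real.sqrt_sq]
  have := (log_facts hn).2.1
  linarith

/-- **total variation at distant lengths** -/
theorem chainU (G : Growth Z μ K) (hF : Feat Z Fc) (f : ℕ) (hf : ∀ x, (Fc x).card ≤ f)
    (hn : ∀ x, ∀ φ ∈ Fc x, |x.1 - φ.1| ≤ 2 ∧ |x.2 - φ.2| ≤ 2) :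
    ∃ ℓ₀ : ℕ, 1 ≤ ℓ₀ ∧ ∀ m : ℕ, ∃ R : ℝ, 0 < R ∧ ∀ (E : P → P → Prop) (D : Finset P) (ℓ : ℕ)
      (c : ℤ × ℤ) (F : Fin m → ℤ × ℤ → ℤ), Tame Z E → Far E ℓ₀ → ℓ₀ ≤ ℓ →
      ∀ (S : Set (((List P × List (P × P)) × Set ((ℤ × ℤ) ⊕ (Fin m × ℤ))) × P)) (n : ℕ), 2 ≤ n →
      ℓ₀ * D.card ≤ n → ∀ j : ℕ,
        |NG A (Sst Fc E D ℓ c F) S (n + Z.s * j) / (Kw A (n + Z.s * j)).card -
          NG A (Sst Fc E D ℓ c F) S n / (Kw A n).card| ≤ R * j * (Real.log n / √(n : ℝ)) := by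
  obtain ⟨ℓ₀, hℓ₀, hall⟩ := mainU G hF f hf hn
  refine ⟨ℓ₀, hℓ₀, fun m => ?_⟩
  obtain ⟨R, hR, hmain⟩ := hall m
  refine ⟨4 * R, by positivity, fun E D ℓ c F hE hfar hℓ S n hn2 hD j => ?_⟩
  have hc : ∀ n, (0 : ℝ) < (Kw A n).card := fun n =>
    lt_of_lt_of_le (pow_pos (by linarith [G.hμ]) n) (G.low n)
  induction j with
  | zero => simp
  | succ j ih =>
    obtain ⟨x, hx⟩ : ∃ x, x = n + Z.s * j := ⟨_, rfl⟩
    rw [← hx] at ih
    have e : n + Z.s * (j + 1) = x + Z.s := by rw [hx]; ring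
    rw [e]
    have hnx : n ≤ x := by rw [hx]; omega
    have hall := (hmain E D ℓ c F hE hfar hℓ Set.univ x (by omega) (by omega) (by
      rw [NG_univ]
      exact hc x)).2 S (Set.subset_univ S)
    rw [NG_univ, NG_univ, div_self (hc x).ne', er_one (by omega)] at hall
    have h1 := gg_le hn2 hnx
    have h2 := mul_le_mul_of_nonneg_left h1 hR.le
    have h3 : |NG A (Sst Fc E D ℓ c F) S (x + Z.s) / (Kw A (x + Z.s)).card -
          NG A (Sst Fc E D ℓ c F) S n / (Kw A n).card| ≤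
        |NG A (Sst Fc E D ℓ c F) S (x + Z.s) / (Kw A (x + Z.s)).card -
          NG A (Sst Fc E D ℓ c F) S x / (Kw A x).card| +
        |NG A (Sst Fc E D ℓ c F) S x / (Kw A x).card -
          NG A (Sst Fc E D ℓ c F) S n / (Kw A n).card| := abs_sub_le _ _ _
    push_cast
    calc _ ≤ _ := h3
      _ ≤ R * (4 * (Real.log n / √(n : ℝ))) + 4 * R * j * (Real.log n / √(n : ℝ)) :=
          add_le_add (hall.trans h2) ih
      _ = _ := by ring

end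

end Q294.Ts
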