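import Mathlib

/-!
# Couplings of uniform laws
-/

set_option autoImplicit false

namespace Q294.Ts

open Finset
open scoped Classical

noncomputable section

/-- a coupling of two uniform laws with a large probability of `a x = b y` -/
theorem coupling {α β γ : Type} [Fintype α] [Fintype β] [Nonempty α] [Nonempty β]
    (a : α → γ) (b : β → γ) (ε : ℝ)
    (h : ∀ S : Set γ, ((univ.filter (fun x => a x ∈ S)).card : ℝ) / Fintype.card α -
      ((univ.filter (fun y => b y ∈ S)).card : ℝ) / Fintype.card β ≤ ε) :
    ∃ q : α → β → ℝ, (∀ x y, 0 ≤ q x y) ∧ (∀ x, ∑ y, q x y = 1 / Fintype.card α) ∧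
      (∀ y, ∑ x, q x y = 1 / Fintype.card β) ∧
      1 - ε ≤ ∑ x, ∑ y, if a x = b y then q x y else 0 := by
  obtain ⟨A, hA⟩ : ∃ A : ℝ, A = Fintype.card α := ⟨_, rfl⟩
  obtain ⟨B, hB⟩ : ∃ B : ℝ, B = Fintype.card β := ⟨_, rfl⟩
  have hA0 : 0 < A := by rw [hA]; exact_mod_cast Fintype.card_pos
  have hB0 : 0 < B := by rw [hB]; exact_mod_cast Fintype.card_pos
  rw [← hA, ← hB] at h ⊢
  obtain ⟨p, hp⟩ : ∃ p : γ → ℝ, p = fun v => ((univ.filter (fun x => a x = v)).card : ℝ) / A :=
    ⟨_, rfl⟩
  obtain ⟨r, hr⟩ : ∃ r : γ → ℝ, r = fun v => ((univ.filter (fun y => b y = v)).card : ℝ) / B :=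
    ⟨_, rfl⟩
  have hp0 : ∀ v, 0 ≤ p v := fun v => by rw [hp]; positivity
  have hr0 : ∀ v, 0 ≤ r v := fun v => by rw [hr]; positivity
  have hpa : ∀ x, 0 < p (a x) := fun x => by
    rw [hp]
    have : 0 < (univ.filter (fun x' => a x' = a x)).card := card_pos.2 ⟨x, by simp⟩
    have h' : (0 : ℝ) < (univ.filter (fun x' => a x' = a x)).card := by exact_mod_cast this
    exact div_pos h' hA0
  have hrb : ∀ y, 0 < r (b y) := fun y => by
    rw [hr]
    have : 0 < (univ.filter (fun y' => b y' = b y)).card := card_pos.2 ⟨y, by simp⟩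
    have h' : (0 : ℝ) < (univ.filter (fun y' => b y' = b y)).card := by exact_mod_cast this
    exact div_pos h' hB0
  obtain ⟨m, hm⟩ : ∃ m : γ → ℝ, m = fun v => min (p v) (r v) := ⟨_, rfl⟩
  have hm0 : ∀ v, 0 ≤ m v := fun v => by rw [hm]; exact le_min (hp0 v) (hr0 v)
  have hmp : ∀ v, m v ≤ p v := fun v => by rw [hm]; exact min_le_left _ _
  have hmr : ∀ v, m v ≤ r v := fun v => by rw [hm]; exact min_le_right _ _
  -- the main part
  obtain ⟨q1, hq1⟩ : ∃ q1 : α → β → ℝ, q1 = fun x y =>
    if a x = b y then m (a x) / (p (a x) * r (a x)) * (1 / A * (1 / B)) else 0 := ⟨_, rfl⟩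
  have hq10 : ∀ x y, 0 ≤ q1 x y := fun x y => by
    rw [hq1]
    simp only
    split_ifs with hxy
    · have := hm0 (a x)
      have := hp0 (a x)
      have := hr0 (a x)
      positivity
    · exact le_rfl
  have hrow : ∀ x, ∑ y, q1 x y = m (a x) / p (a x) * (1 / A) := by
    intro x
    rw [hq1]
    simp only
    rw [← sum_filter, sum_const, nsmul_eq_mul]
    have e1 : (univ.filter (fun y => a x = b y)) = univ.filter (fun y => b y = a x) :=
      filter_congr fun y _ => eq_comm
    have e2 : ((univ.filter (fun y => b y = a x)).card : ℝ) = r (a x) * B := by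
      rw [hr]
      field_simp
    rw [e1, e2]
    by_cases hz : r (a x) = 0
    · have hmz : m (a x) = 0 := le_antisymm (by rw [← hz]; exact hmr _) (hm0 _)
      rw [hmz, hz]
      simp
    · have := (hpa x).ne'
      field_simp
  have hcol : ∀ y, ∑ x, q1 x y = m (b y) / r (b y) * (1 / B) := by
    intro y
    rw [hq1]
    simp only
    have e0 : ∀ x, (if a x = b y then m (a x) / (p (a x) * r (a x)) * (1 / A * (1 / B)) else 0) =
        if a x = b y then m (b y) / (p (b y) * r (b y)) * (1 / A * (1 / B)) else 0 := by
      intro x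
      split_ifs with hxy
      · rw [hxy]
      · rfl
    simp only [e0]
    rw [← sum_filter, sum_const, nsmul_eq_mul]
    have e2 : ((univ.filter (fun x => a x = b y)).card : ℝ) = p (b y) * A := by
      rw [hp]
      field_simp
    rw [e2]
    by_cases hz : p (b y) = 0
    · have hmz : m (b y) = 0 := le_antisymm (by rw [← hz]; exact hmp _) (hm0 _)
      rw [hmz, hz]
      simp
    · have := (hrb y).ne'
      field_simp
  -- the residuals
  obtain ⟨ρ, hρ⟩ : ∃ ρ : α → ℝ, ρ = fun x => 1 / A - m (a x) / p (a x) * (1 / A) := ⟨_, rfl⟩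
  obtain ⟨σ, hσ⟩ : ∃ σ : β → ℝ, σ = fun y => 1 / B - m (b y) / r (b y) * (1 / B) := ⟨_, rfl⟩
  have hρ0 : ∀ x, 0 ≤ ρ x := fun x => by
    rw [hρ]
    have h1 : m (a x) / p (a x) ≤ 1 := (div_le_one (hpa x)).2 (hmp _)
    have h2 : m (a x) / p (a x) * (1 / A) ≤ 1 * (1 / A) :=
      mul_le_mul_of_nonneg_right h1 (by positivity)
    simp only
    linarith
  have hσ0 : ∀ y, 0 ≤ σ y := fun y => by
    rw [hσ]
    have h1 : m (b y) / r (b y) ≤ 1 := (div_le_one (hrb y)).2 (hmr _)
    have h2 : m (b y) / r (b y) * (1 / B) ≤ 1 * (1 / B) :=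
      mul_le_mul_of_nonneg_right h1 (by positivity)
    simp only
    linarith
  obtain ⟨δ, hδ⟩ : ∃ δ, δ = ∑ x, ρ x := ⟨_, rfl⟩
  have htot : ∑ x, ∑ y, q1 x y = 1 - δ := by
    rw [hδ, hρ]
    simp only [hrow]
    rw [sum_sub_distrib, sum_const, card_univ, nsmul_eq_mul, ← hA, mul_one_div_cancel hA0.ne']
    ring
  have hδ2 : ∑ y, σ y = δ := by
    have h1 : ∑ y, σ y = 1 - ∑ y, ∑ x, q1 x y := by
      rw [hσ]
      simp only [hcol]
      rw [sum_sub_distrib, sum_const, card_univ, nsmul_eq_mul, ← hB, mul_one_div_cancel hB0.ne']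
    rw [h1, sum_comm, htot]
    ring
  have hδ0 : 0 ≤ δ := by rw [hδ]; exact sum_nonneg fun x _ => hρ0 x
  -- the residual mass
  have hδε : δ ≤ ε := by
    have h1 := h {v | r v < p v}
    refine le_trans ?_ h1
    have e1 : δ = ∑ x ∈ univ.filter (fun x => a x ∈ {v | r v < p v}), ρ x := by
      rw [hδ, sum_filter]
      refine sum_congr rfl fun x _ => ?_
      split_ifs with hx
      · rfl
      · have h2 : p (a x) ≤ r (a x) := by
          by_contra hcon
          exact hx (not_le.1 hcon)
        have h3 : m (a x) = p (a x) := by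
          rw [hm]
          exact min_eq_left h2
        rw [hρ]
        simp only
        rw [h3, div_self (hpa x).ne']
        ring
    have e2 : ∀ x ∈ univ.filter (fun x => a x ∈ {v | r v < p v}),
        ρ x = 1 / A - r (a x) / p (a x) * (1 / A) := by
      intro x hx
      rw [mem_filter] at hx
      have h2 : r (a x) < p (a x) := hx.2
      have h3 : m (a x) = r (a x) := by
        rw [hm]
        exact min_eq_right h2.le
      rw [hρ]
      simp only
      rw [h3]
    rw [e1, sum_congr rfl e2, sum_sub_distrib, sum_const, nsmul_eq_mul]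
    have e3 : ∑ x ∈ univ.filter (fun x => a x ∈ {v | r v < p v}), r (a x) / p (a x) * (1 / A) =
        ((univ.filter (fun y => b y ∈ {v | r v < p v})).card : ℝ) / B := by
      -- both sides as sums over values
      obtain ⟨V, hV⟩ : ∃ V : Finset γ, V = (univ.image a).filter (fun v => r v < p v) := ⟨_, rfl⟩
      have f1 : ∑ x ∈ univ.filter (fun x => a x ∈ {v | r v < p v}), r (a x) / p (a x) * (1 / A) =
          ∑ v ∈ V, r v := by
        rw [← sum_fiberwise_of_maps_to (s := univ.filter (fun x => a x ∈ {v | r v < p v}))
          (t := V) (g := a)]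
        · refine sum_congr rfl fun v hv => ?_
          rw [hV, mem_filter, mem_image] at hv
          obtain ⟨⟨x0, -, hx0⟩, hv2⟩ := hv
          have e4 : (univ.filter (fun x => a x ∈ {v | r v < p v})).filter (fun x => a x = v) =
              univ.filter (fun x => a x = v) := by
            ext x
            simp only [mem_filter, mem_univ, true_and]
            constructor
            · exact fun hh => hh.2
            · intro hh
              refine ⟨?_, hh⟩
              rw [hh]
              exact hv2
          rw [e4]
          have e5 : ∀ x ∈ univ.filter (fun x => a x = v), r (a x) / p (a x) * (1 / A) =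
              r v / p v * (1 / A) := by
            intro x hx
            rw [mem_filter] at hx
            rw [hx.2]
          rw [sum_congr rfl e5, sum_const, nsmul_eq_mul]
          have e6 : ((univ.filter (fun x => a x = v)).card : ℝ) = p v * A := by
            rw [hp]
            field_simp
          rw [e6]
          have : p v ≠ 0 := by
            rw [← hx0]
            exact (hpa x0).ne'
          field_simp
        · intro x hx
          rw [mem_filter] at hx
          rw [hV, mem_filter, mem_image]
          exact ⟨⟨x, mem_univ _, rfl⟩, hx.2⟩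
      have f2 : ((univ.filter (fun y => b y ∈ {v | r v < p v})).card : ℝ) / B = ∑ v ∈ V, r v := by
        rw [card_eq_sum_card_fiberwise (f := b) (t := V)]
        · push_cast
          rw [sum_div]
          refine sum_congr rfl fun v hv => ?_
          rw [hV, mem_filter] at hv
          have e4 : (univ.filter (fun y => b y ∈ {v | r v < p v})).filter (fun y => b y = v) =
              univ.filter (fun y => b y = v) := by
            ext y
            simp only [mem_filter, mem_univ, true_and]
            constructor
            · exact fun hh => hh.2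
            · intro hh
              refine ⟨?_, hh⟩
              rw [hh]
              exact hv.2
          rw [e4, hr]
        · intro y hy
          rw [Finset.mem_coe, mem_filter] at hy
          rw [Finset.mem_coe, hV, mem_filter, mem_image]
          have h2 : r (b y) < p (b y) := hy.2
          refine ⟨?_, h2⟩
          have h3 : 0 < p (b y) := lt_of_le_of_lt (hr0 _) h2
          rw [hp] at h3
          have h4 : 0 < ((univ.filter (fun x => a x = b y)).card : ℝ) := by
            by_contra hcon
            push Not at hcon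
            have : ((univ.filter (fun x => a x = b y)).card : ℝ) / A ≤ 0 :=
              div_nonpos_of_nonpos_of_nonneg hcon hA0.le
            simp only at h3
            linarith
          have h5 : 0 < (univ.filter (fun x => a x = b y)).card := by exact_mod_cast h4
          obtain ⟨x, hx⟩ := card_pos.1 h5
          rw [mem_filter] at hx
          exact ⟨x, mem_univ _, hx.2⟩
      rw [f1, f2]
    rw [e3]
    apply le_of_eq
    ring
  refine ⟨fun x y => q1 x y + ρ x * σ y / δ, fun x y => ?_, fun x => ?_, fun y => ?_, ?_⟩
  · have := hq10 x y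
    have := hρ0 x
    have := hσ0 y
    positivity
  · rw [sum_add_distrib, hrow, ← sum_div, ← mul_sum, hδ2]
    by_cases hz : δ = 0
    · have hρz : ρ x = 0 := by
        rw [hδ, sum_eq_zero_iff_of_nonneg fun x _ => hρ0 x] at hz
        exact hz x (mem_univ x)
      rw [hz, div_zero, add_zero]
      rw [hρ] at hρz
      simp only at hρz
      linarith
    · rw [mul_div_assoc, div_self hz, mul_one, hρ]
      simp only
      ring
  · rw [sum_add_distrib, hcol, ← sum_div, ← sum_mul, ← hδ]
    by_cases hz : δ = 0
    · have hσz : σ y = 0 := by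
        rw [← hδ2, sum_eq_zero_iff_of_nonneg fun y _ => hσ0 y] at hz
        exact hz y (mem_univ y)
      rw [hz, div_zero, add_zero]
      rw [hσ] at hσz
      simp only at hσz
      linarith
    · rw [mul_div_right_comm, div_self hz, one_mul, hσ]
      simp only
      ring
  · have h1 : ∑ x, ∑ y, q1 x y ≤ ∑ x, ∑ y, if a x = b y then q1 x y + ρ x * σ y / δ else 0 := by
      refine sum_le_sum fun x _ => sum_le_sum fun y _ => ?_
      split_ifs with hxy
      · have := hρ0 x
        have := hσ0 y
        have : 0 ≤ ρ x * σ y / δ := by positivity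
        linarith
      · rw [hq1]
        simp only
        rw [if_neg hxy]
    rw [htot] at h1
    linarith

end

end Q294.Ts
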