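import Pool.Agent.Q294.Tu4
import Pool.Agent.Q294.Tu5
import Pool.Agent.Q68.PL.Lat

/-!
# Couplings of self-avoiding walks of different lengths
-/

set_option autoImplicit false

namespace Q294.Ts

open Finset Filter Topology TH966.AK Q294.Av Q294.Tr
open scoped Classical

noncomputable section

variable {A : P → P → Prop} {Z : Rule A} {μ K : ℝ} {Fc : P → Finset P}

/-- the steps which touch `D`, in their order -/
def stepsIn (D : Finset (ℤ × ℤ)) {n : ℕ} (ω : Fin (n + 1) → ℤ × ℤ) : List ((ℤ × ℤ) × (ℤ × ℤ)) :=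
  (List.ofFn fun i : Fin n => (ω i.castSucc, ω i.succ)).filter (fun e => e.1 ∈ D ∨ e.2 ∈ D)

theorem edg_ofFn : ∀ {n : ℕ} (ω : Fin (n + 1) → ℤ × ℤ),
    edg (List.ofFn ω) = List.ofFn fun i : Fin n => (ω i.castSucc, ω i.succ)
  | 0, ω => by simp [edg]
  | n + 1, ω => by
    have ih := edg_ofFn (n := n) (fun i => ω i.succ)
    rw [List.ofFn_succ, List.ofFn_succ (f := fun i : Fin (n + 1) => ω i.succ)]
    rw [List.ofFn_succ (f := fun i : Fin (n + 1) => (ω i.castSucc, ω i.succ))]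
    simp only [edg]
    rw [List.ofFn_succ] at ih
    rw [ih]
    rfl

theorem conf_ofFn (D : Finset (ℤ × ℤ)) {n : ℕ} (ω : Fin (n + 1) → ℤ × ℤ) :
    conf (D : Set P) (List.ofFn ω) = stepsIn D ω := by
  unfold conf stepsIn
  rw [edg_ofFn]
  congr 1
  funext e
  simp only [Finset.mem_coe]

/-- the exit rule -/
def EX (Fc : P → Finset P) (pos cp : ℤ × ℤ → ℂ) (ρ : ℝ) (c y : P) : Prop :=
  ∃ φ ∈ Fc y, ρ ≤ ‖cp φ - pos c‖

theorem tame_EX (hF : Feat Z Fc) (pos cp : ℤ × ℤ → ℂ) (ρ : ℝ) : Tame Z (EX Fc pos cp ρ) := by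
  rintro U U' hT c hno x hx ⟨φ, hφ, hφ2⟩
  obtain ⟨y, hy, hφy⟩ := hF.1 U U' hT x hx φ hφ
  exact hno y hy ⟨φ, hφy, hφ2⟩

theorem far_EX {pos cp : ℤ × ℤ → ℂ} (hc1 : ∀ x, ∀ φ ∈ Fc x, ‖cp φ - pos x‖ ≤ 1)
    (hbd : ∀ c x : P, ‖pos x - pos c‖ ≤ 2 * (|((c.1 - x.1 : ℤ) : ℝ)| + |((c.2 - x.2 : ℤ) : ℝ)|) + 1)
    (ℓ : ℕ) : Far (EX Fc pos cp (4 * ℓ + 2)) ℓ := by
  rintro c y ⟨φ, hφ, hφ2⟩
  by_contra hcon
  push Not at hcon
  obtain ⟨h1, h2⟩ := hcon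
  have h3 : |((c.1 - y.1 : ℤ) : ℝ)| ≤ ℓ := by
    have : |c.1 - y.1| ≤ ℓ := h1.le
    exact_mod_cast this
  have h4 : |((c.2 - y.2 : ℤ) : ℝ)| ≤ ℓ := by
    have : |c.2 - y.2| ≤ ℓ := h2.le
    exact_mod_cast this
  have h5 := hbd c y
  have h6 := hc1 y φ hφ
  have h7 : ‖cp φ - pos c‖ ≤ ‖cp φ - pos y‖ + ‖pos y - pos c‖ := by
    have e : cp φ - pos c = (cp φ - pos y) + (pos y - pos c) := by ring
    rw [e]
    exact norm_add_le _ _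
  -- strictness
  have h8 : |((c.1 - y.1 : ℤ) : ℝ)| ≤ ℓ - 1 := by
    have h9 : |c.1 - y.1| ≤ (ℓ : ℤ) - 1 := by omega
    have h10 : ((|c.1 - y.1| : ℤ) : ℝ) ≤ (((ℓ : ℤ) - 1 : ℤ) : ℝ) := by exact_mod_cast h9
    push_cast at h10 ⊢
    exact h10
  linarith

theorem near_EX {pos cp : ℤ × ℤ → ℂ} (hne : ∀ x, (Fc x).Nonempty)
    (hc1 : ∀ x, ∀ φ ∈ Fc x, ‖cp φ - pos x‖ ≤ 1) (ρ : ℝ) (c y : P)
    (h : ¬ EX Fc pos cp ρ c y) : ‖pos y - pos c‖ ≤ ρ + 1 := by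
  obtain ⟨φ, hφ⟩ := hne y
  unfold EX at h
  push Not at h
  have h1 := h φ hφ
  have h2 := hc1 y φ hφ
  have e : pos y - pos c = -(cp φ - pos y) + (cp φ - pos c) := by ring
  rw [e]
  refine (norm_add_le _ _).trans ?_
  rw [norm_neg]
  linarith

/-- suprema of equal sets of lower bounds -/
theorem iSup_eq_of {n n' : ℕ} (f : Fin (n + 1) → ℤ) (g : Fin (n' + 1) → ℤ)
    (h : ∀ k : ℤ, (∃ i, k ≤ f i) ↔ ∃ i, k ≤ g i) : (⨆ i, f i) = ⨆ i, g i := by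
  have h1 : BddAbove (Set.range f) := (Set.finite_range f).bddAbove
  have h2 : BddAbove (Set.range g) := (Set.finite_range g).bddAbove
  refine le_antisymm (ciSup_le fun i => ?_) (ciSup_le fun i => ?_)
  · obtain ⟨i', hi'⟩ := (h (f i)).1 ⟨i, le_rfl⟩
    exact hi'.trans (le_ciSup h2 i')
  · obtain ⟨i', hi'⟩ := (h (g i)).2 ⟨i, le_rfl⟩
    exact hi'.trans (le_ciSup h1 i')

/-- the last point of the list of a walk -/
theorem lst_ofFn {n : ℕ} (ω : Fin (n + 1) → ℤ × ℤ) : lst (List.ofFn ω) = ω (Fin.last n) := by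
  unfold lst
  rw [List.getLast?_eq_getElem?, List.length_ofFn, Nat.add_sub_cancel, List.getElem?_ofFn,
    dif_pos (Nat.lt_succ_self n)]
  rfl

/-- counting in the subtype -/
theorem card_sub (Z : Rule A) {n : ℕ} (Q : (Fin (n + 1) → ℤ × ℤ) → Prop)
    (hQ : ∀ ω, Q ω ↔ ω ∈ wks A n) [Fintype {ω // Q ω}] (E' : List P → Prop) :
    ((univ : Finset {ω // Q ω}).filter (fun x => E' (List.ofFn x.1))).card =
      ((Kw A n).filter E').card := by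
  refine Finset.card_bij (fun x _ => List.ofFn x.1) ?_ ?_ ?_
  · intro x hx
    rw [mem_filter] at hx ⊢
    refine ⟨?_, hx.2⟩
    rw [← Finset.mem_coe, ← image_wks Z]
    exact ⟨x.1, (hQ _).1 x.2, rfl⟩
  · intro x _ y _ hxy
    exact Subtype.ext (List.ofFn_injective hxy)
  · intro w hw
    rw [mem_filter, ← Finset.mem_coe, ← image_wks Z] at hw
    obtain ⟨⟨ω, hω, rfl⟩, h2⟩ := hw
    exact ⟨⟨ω, (hQ _).2 hω⟩, by rw [mem_filter]; exact ⟨mem_univ _, h2⟩, rfl⟩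

theorem card_all (Z : Rule A) {n : ℕ} (Q : (Fin (n + 1) → ℤ × ℤ) → Prop)
    (hQ : ∀ ω, Q ω ↔ ω ∈ wks A n) [Fintype {ω // Q ω}] :
    Fintype.card {ω // Q ω} = (Kw A n).card := by
  rw [← Finset.card_univ]
  refine Finset.card_bij (fun x _ => List.ofFn x.1) ?_ ?_ ?_
  · intro x _
    rw [← Finset.mem_coe, ← image_wks Z]
    exact ⟨x.1, (hQ _).1 x.2, rfl⟩
  · intro x _ y _ hxy
    exact Subtype.ext (List.ofFn_injective hxy)
  · intro w hw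
    rw [← Finset.mem_coe, ← image_wks Z] at hw
    obtain ⟨ω, hω, rfl⟩ := hw
    exact ⟨⟨ω, (hQ _).2 hω⟩, mem_univ _, rfl⟩

theorem fin_sub (Z : Rule A) {n : ℕ} (Q : (Fin (n + 1) → ℤ × ℤ) → Prop)
    (hQ : ∀ ω, Q ω ↔ ω ∈ wks A n) : Finite {ω // Q ω} := by
  have h : (List.ofFn '' wks A n).Finite := by
    rw [image_wks Z]
    exact (Kw A n).finite_toSet
  have h2 : (wks A n).Finite := Set.Finite.of_finite_image h List.ofFn_injective.injOn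
  have h3 : {ω | Q ω} = wks A n := by
    ext ω
    exact hQ ω
  rw [← h3] at h2
  exact h2

/-- what the coupled walks have in common -/
def Com (pos : ℤ × ℤ → ℂ) (r : ℝ) (D : Finset (ℤ × ℤ)) {n n' : ℕ} (ω : Fin (n + 1) → ℤ × ℤ)
    (ω' : Fin (n' + 1) → ℤ × ℤ) : Prop :=
  Fol pos r ω ω' ∧ stepsIn D ω = stepsIn D ω'

/-- **the coupling for one lattice** -/
theorem couple (G : Growth Z μ K) (hF : Feat Z Fc) (f : ℕ) (hf : ∀ x, (Fc x).card ≤ f)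
    (hn : ∀ x, ∀ φ ∈ Fc x, |x.1 - φ.1| ≤ 2 ∧ |x.2 - φ.2| ≤ 2) {pos cp : ℤ × ℤ → ℂ}
    (hadj : ∀ p q, A p q ↔ ‖pos q - pos p‖ = 1)
    (hc1 : ∀ x, ∀ φ ∈ Fc x, ‖cp φ - pos x‖ ≤ 1)
    (hbd : ∀ c x : P, ‖pos x - pos c‖ ≤ 2 * (|((c.1 - x.1 : ℤ) : ℝ)| + |((c.2 - x.2 : ℤ) : ℝ)|) + 1)
    (Q : ∀ n, (Fin (n + 1) → ℤ × ℤ) → Prop) (hQ : ∀ n ω, Q n ω ↔ ω ∈ wks A n) :
    ∃ ℓ₀ : ℕ, 1 ≤ ℓ₀ ∧ ∀ m : ℕ, ∃ R : ℝ, 0 < R ∧ ∀ (n j : ℕ) (D : Finset (ℤ × ℤ))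
      (F : Fin m → ℤ × ℤ → ℤ), 2 ≤ n → ℓ₀ * D.card ≤ n →
      ∃ q : {ω // Q n ω} → {ω // Q (n + Z.s * j) ω} → ℝ, (∀ x y, 0 ≤ q x y) ∧
        (∀ x, ∑ᶠ y, q x y = 1 / Nat.card {ω // Q n ω}) ∧
        (∀ y, ∑ᶠ x, q x y = 1 / Nat.card {ω // Q (n + Z.s * j) ω}) ∧
        1 - R * j * (Real.log n / √(n : ℝ)) ≤ ∑ᶠ x, ∑ᶠ y,
          if Com pos (4 * ℓ₀ + 4) D x.1 y.1 ∧ ∀ u, ∀ k : ℤ, (∃ φ ∈ FF Fc (List.ofFn x.1), k ≤ F u φ) ↔
            (∃ φ ∈ FF Fc (List.ofFn y.1), k ≤ F u φ) then q x y else 0 := by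
  obtain ⟨ℓ₀, hℓ₀, hall⟩ := chainU G hF f hf hn
  refine ⟨ℓ₀, hℓ₀, fun m => ?_⟩
  obtain ⟨R, hR, hmain⟩ := hall m
  refine ⟨R, hR, fun n j D F hn2 hD => ?_⟩
  obtain ⟨n', hn'⟩ : ∃ n', n' = n + Z.s * j := ⟨_, rfl⟩
  rw [← hn']
  obtain ⟨E, hE⟩ : ∃ E, E = EX Fc pos cp (4 * ℓ₀ + 2) := ⟨_, rfl⟩
  have hTame : Tame Z E := by rw [hE]; exact tame_EX hF pos cp _
  have hFar : Far E ℓ₀ := by rw [hE]; exact far_EX hc1 hbd ℓ₀
  have hc : ∀ n, (0 : ℝ) < (Kw A n).card := fun n =>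
    lt_of_lt_of_le (pow_pos (by linarith [G.hμ]) n) (G.low n)
  have : ∀ k, Finite {ω // Q k ω} := fun k => fin_sub Z (Q k) (hQ k)
  haveI : ∀ k, Fintype {ω // Q k ω} := fun k => Fintype.ofFinite _
  have hcard : ∀ k, Fintype.card {ω // Q k ω} = (Kw A k).card := fun k => card_all Z (Q k) (hQ k)
  have : ∀ k, Nonempty {ω // Q k ω} := fun k => by
    rw [← Fintype.card_pos_iff, hcard]
    exact_mod_cast hc k
  obtain ⟨T, hT⟩ : ∃ T, T = Sst Fc E (D : Set P) ℓ₀ 0 F := ⟨_, rfl⟩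
  have hcount : ∀ k (S : Set (((List P × List (P × P)) × Set ((ℤ × ℤ) ⊕ (Fin m × ℤ))) × P)),
      ((univ.filter (fun x : {ω // Q k ω} => (T (List.ofFn x.1), lst (List.ofFn x.1)) ∈ S)).card : ℝ)
        / Fintype.card {ω // Q k ω} = NG A T S k / (Kw A k).card := by
    intro k S
    rw [hcard, card_sub Z (Q k) (hQ k) (fun w => (T w, lst w) ∈ S)]
    rfl
  obtain ⟨q, q1, q2, q3, q4⟩ := coupling
    (fun x : {ω // Q n ω} => (T (List.ofFn x.1), lst (List.ofFn x.1)))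
    (fun y : {ω // Q n' ω} => (T (List.ofFn y.1), lst (List.ofFn y.1)))
    (R * j * (Real.log n / √(n : ℝ))) (fun S => by
      rw [hcount, hcount]
      have h1 := hmain E D ℓ₀ 0 F hTame hFar le_rfl S n hn2 hD j
      rw [← hT, ← hn', abs_sub_comm] at h1
      exact (le_abs_self _).trans h1)
  refine ⟨q, q1, fun x => ?_, fun y => ?_, ?_⟩
  · rw [finsum_eq_sum_of_fintype, q2, Nat.card_eq_fintype_card]
  · rw [finsum_eq_sum_of_fintype, q3, Nat.card_eq_fintype_card]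
  · rw [finsum_eq_sum_of_fintype]
    refine q4.trans (sum_le_sum fun x _ => ?_)
    rw [finsum_eq_sum_of_fintype]
    refine sum_le_sum fun y _ => ?_
    by_cases hxy : (T (List.ofFn x.1), lst (List.ofFn x.1)) = (T (List.ofFn y.1), lst (List.ofFn y.1))
    · rw [if_pos hxy, if_pos]
      rw [Prod.mk.injEq] at hxy
      obtain ⟨h1, h2⟩ := hxy
      rw [hT] at h1
      unfold Sst at h1
      simp only [Prod.mk.injEq] at h1
      obtain ⟨⟨hs, hcf⟩, htt⟩ := h1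
      have hx := (hQ n x.1).1 x.2
      have hy := (hQ n' y.1).1 y.2
      rw [lst_ofFn, lst_ofFn] at h2
      rw [conf_ofFn, conf_ofFn] at hcf
      refine ⟨⟨?_, hcf⟩, fun u k => ?_⟩
      · have h3 := fol_of_skel (pos := pos) (ρ := 4 * ℓ₀ + 3) (E := E) (by positivity)
          (fun c y hc => by
            rw [hE] at hc
            have := near_EX hF.2 hc1 _ c y hc
            linarith) x.1 y.1 hx.1 hy.1
          (fun i => ((hadj _ _).1 (hx.2.2 i)).le) (fun i => ((hadj _ _).1 (hy.2.2 i)).le) h2 hs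
        have e : (4 * (ℓ₀ : ℝ) + 3 + 1) = 4 * ℓ₀ + 4 := by ring
        rw [← e]
        exact h3
      · have h4 : (Sum.inr (u, k) : (ℤ × ℤ) ⊕ (Fin m × ℤ)) ∈ TT Fc (Mst ℓ₀ 0 F) (List.ofFn x.1) ↔
            (Sum.inr (u, k) : (ℤ × ℤ) ⊕ (Fin m × ℤ)) ∈ TT Fc (Mst ℓ₀ 0 F) (List.ofFn y.1) := by
          rw [htt]
        exact h4
    · rw [if_neg hxy]
      split_ifs
      · exact q1 x y
      · exact le_rfl

end

end Q294.Ts
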