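import Pool.Agent.Q294.Tu6

/-!
# The three lattices; rare events
-/

set_option autoImplicit false

namespace Q294.Ts

open Finset Filter Topology TH966.AK Q294.Av Q294.Tr
open scoped Classical

noncomputable section

theorem feat_S : Feat Q78.UR.Sq.rule FcT := by
  refine ⟨?_, fun x => ⟨x, by simp [FcT]⟩⟩
  rintro U U' ⟨p, v, u, r, rfl, rfl, -⟩ x hx φ hφ
  unfold FcT at hφ
  rw [mem_singleton] at hφ
  subst hφ
  refine ⟨φ, ?_, by simp [FcT]⟩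
  simp only [List.mem_cons, List.not_mem_nil, or_false] at hx ⊢
  tauto

theorem card_FcT (x : P) : (FcT x).card ≤ 3 := by
  unfold FcT
  rw [card_singleton]
  norm_num

theorem card_FcH (x : P) : (FcH x).card ≤ 3 := by
  unfold FcH
  split_ifs
  · exact Finset.card_le_three
  · exact Finset.card_le_three

theorem near_FcT : ∀ x, ∀ φ ∈ FcT x, |x.1 - φ.1| ≤ 2 ∧ |x.2 - φ.2| ≤ 2 := by
  intro x φ hφ
  unfold FcT at hφ
  rw [mem_singleton] at hφ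
  subst hφ
  simp

theorem near_FcH : ∀ x, ∀ φ ∈ FcH x, |x.1 - φ.1| ≤ 2 ∧ |x.2 - φ.2| ≤ 2 := by
  intro x φ hφ
  rw [mem_FcH] at hφ
  rw [abs_le, abs_le]
  omega

theorem c1T (pos : ℤ × ℤ → ℂ) : ∀ x, ∀ φ ∈ FcT x, ‖pos φ - pos x‖ ≤ 1 := by
  intro x φ hφ
  unfold FcT at hφ
  rw [mem_singleton] at hφ
  subst hφ
  simp

theorem c1H : ∀ x, ∀ φ ∈ FcH x, ‖cH φ - posH x‖ ≤ 1 := by
  intro x φ hφ
  have h := dist_cH x φ hφ
  rw [dist_comm, dist_eq_norm] at h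
  exact h.le

theorem bd_S (c x : P) : ‖Q68.PL.posS x - Q68.PL.posS c‖ ≤
    2 * (|((c.1 - x.1 : ℤ) : ℝ)| + |((c.2 - x.2 : ℤ) : ℝ)|) + 1 := by
  refine (Complex.norm_le_abs_re_add_abs_im _).trans ?_
  unfold Q68.PL.posS
  simp only [Complex.sub_re, Complex.sub_im]
  have e1 : |(x.1 : ℝ) - c.1| = |((c.1 - x.1 : ℤ) : ℝ)| := by push_cast; rw [abs_sub_comm]
  have e2 : |(x.2 : ℝ) - c.2| = |((c.2 - x.2 : ℤ) : ℝ)| := by push_cast; rw [abs_sub_comm]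
  rw [e1, e2]
  linarith [abs_nonneg ((c.1 - x.1 : ℤ) : ℝ), abs_nonneg ((c.2 - x.2 : ℤ) : ℝ)]

theorem s3le : √3 / 2 ≤ (1 : ℝ) := by
  have : √3 ≤ (2 : ℝ) := by
    rw [Real.sqrt_le_left (by norm_num)]
    norm_num
  linarith

theorem bd_T (c x : P) : ‖posT x - posT c‖ ≤
    2 * (|((c.1 - x.1 : ℤ) : ℝ)| + |((c.2 - x.2 : ℤ) : ℝ)|) + 1 := by
  refine (Complex.norm_le_abs_re_add_abs_im _).trans ?_
  unfold posT
  simp only [Complex.sub_re, Complex.sub_im]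
  obtain ⟨a, ha⟩ : ∃ a : ℝ, a = ((c.1 - x.1 : ℤ) : ℝ) := ⟨_, rfl⟩
  obtain ⟨b, hb⟩ : ∃ b : ℝ, b = ((c.2 - x.2 : ℤ) : ℝ) := ⟨_, rfl⟩
  rw [← ha, ← hb]
  push_cast at ha hb
  have e1 : (x.1 : ℝ) + x.2 / 2 - (c.1 + c.2 / 2) = -a + -(b / 2) := by rw [ha, hb]; ring
  have e2 : √3 / 2 * (x.2 : ℝ) - √3 / 2 * c.2 = √3 / 2 * (-b) := by rw [hb]; ring
  rw [e1, e2, abs_mul, abs_neg b, abs_of_nonneg (show (0 : ℝ) ≤ √3 / 2 by positivity)]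
  have h1 : |-a + -(b / 2)| ≤ |a| + |b| / 2 := by
    refine (abs_add_le _ _).trans ?_
    rw [abs_neg, abs_neg, abs_div, abs_two]
  have h2 : √3 / 2 * |b| ≤ 1 * |b| := mul_le_mul_of_nonneg_right s3le (abs_nonneg b)
  linarith [abs_nonneg a, abs_nonneg b]

theorem bd_H (c x : P) : ‖posH x - posH c‖ ≤
    2 * (|((c.1 - x.1 : ℤ) : ℝ)| + |((c.2 - x.2 : ℤ) : ℝ)|) + 1 := by
  refine (Complex.norm_le_abs_re_add_abs_im _).trans ?_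
  unfold posH
  simp only [Complex.sub_re, Complex.sub_im]
  obtain ⟨a, ha⟩ : ∃ a : ℝ, a = ((c.1 - x.1 : ℤ) : ℝ) := ⟨_, rfl⟩
  obtain ⟨b, hb⟩ : ∃ b : ℝ, b = ((c.2 - x.2 : ℤ) : ℝ) := ⟨_, rfl⟩
  obtain ⟨u, hu⟩ : ∃ u : ℝ, u = (((x.1 + x.2) % 2 : ℤ) : ℝ) := ⟨_, rfl⟩
  obtain ⟨v, hv⟩ : ∃ v : ℝ, v = (((c.1 + c.2) % 2 : ℤ) : ℝ) := ⟨_, rfl⟩
  rw [← ha, ← hb, ← hu, ← hv]
  have hu0 : 0 ≤ u ∧ u ≤ 1 := by
    rw [hu]
    have h1 : 0 ≤ (x.1 + x.2) % 2 := by omega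
    have h2 : (x.1 + x.2) % 2 ≤ 1 := by omega
    exact ⟨by exact_mod_cast h1, by exact_mod_cast h2⟩
  have hv0 : 0 ≤ v ∧ v ≤ 1 := by
    rw [hv]
    have h1 : 0 ≤ (c.1 + c.2) % 2 := by omega
    have h2 : (c.1 + c.2) % 2 ≤ 1 := by omega
    exact ⟨by exact_mod_cast h1, by exact_mod_cast h2⟩
  push_cast at ha hb
  have e1 : √3 / 2 * (x.1 : ℝ) - √3 / 2 * c.1 = √3 / 2 * (-a) := by rw [ha]; ring
  have e2 : (3 * (x.2 : ℝ) - u) / 2 - (3 * c.2 - v) / 2 = -(3 / 2 * b) + (v - u) / 2 := by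
    rw [hb]; ring
  rw [e1, e2, abs_mul, abs_neg a, abs_of_nonneg (show (0 : ℝ) ≤ √3 / 2 by positivity)]
  have h1 : |-(3 / 2 * b) + (v - u) / 2| ≤ 3 / 2 * |b| + 1 / 2 := by
    refine (abs_add_le _ _).trans ?_
    rw [abs_neg, abs_mul, abs_of_pos (show (0 : ℝ) < 3 / 2 by norm_num), abs_div, abs_two]
    have : |v - u| ≤ 1 := by
      rw [abs_le]
      constructor <;> linarith [hu0.1, hu0.2, hv0.1, hv0.2]
    linarith
  have h2 : √3 / 2 * |a| ≤ 1 * |a| := mul_le_mul_of_nonneg_right s3le (abs_nonneg a)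
  linarith [abs_nonneg a, abs_nonneg b]

variable {A : P → P → Prop} {Z : Rule A} {μ K : ℝ} {Fc : P → Finset P}

theorem quot1 {x y e : ℝ} (he : 0 ≤ e) (he1 : 4 * e ≤ 1) (hx : |x - 1| ≤ e) (hy : |y - 1| ≤ e) :
    |x / y - 1| ≤ 4 * e := by
  rw [abs_le] at hx hy
  have hy0 : 1 / 2 ≤ y := by linarith [hy.1]
  rw [abs_le]
  constructor
  · rw [le_sub_iff_add_le, le_div_iff₀ (by linarith)]
    nlinarith [hx.1, hx.2, hy.1, hy.2]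
  · rw [sub_le_iff_le_add, div_le_iff₀ (by linarith)]
    nlinarith [hx.1, hx.2, hy.1, hy.2]

/-- **rare events and conditional laws** -/
theorem rare (G : Growth Z μ K) (hF : Feat Z Fc) (f : ℕ) (hf : ∀ x, (Fc x).card ≤ f)
    (hn : ∀ x, ∀ φ ∈ Fc x, |x.1 - φ.1| ≤ 2 ∧ |x.2 - φ.2| ≤ 2) :
    ∃ ℓ₀ : ℕ, 1 ≤ ℓ₀ ∧ ∀ m : ℕ, ∃ R : ℝ, 0 < R ∧ ∀ (E : P → P → Prop) (D : Finset P) (ℓ : ℕ)
      (c : ℤ × ℤ) (F : Fin m → ℤ × ℤ → ℤ), Tame Z E → Far E ℓ₀ → ℓ₀ ≤ ℓ →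
      ∀ (S0 : Set (((List P × List (P × P)) × Set ((ℤ × ℤ) ⊕ (Fin m × ℤ))) × P)) (n : ℕ), 2 ≤ n →
      ℓ₀ * D.card ≤ n → ∀ p : ℝ, p = NG A (Sst Fc E D ℓ c F) S0 n / (Kw A n).card → 0 < p →
      (R * er p n ≤ 1 →
        |NG A (Sst Fc E D ℓ c F) S0 (n + Z.s) / (Kw A (n + Z.s)).card / p - 1| ≤ R * er p n) ∧
      ∀ S ⊆ S0, |NG A (Sst Fc E D ℓ c F) S (n + Z.s) / NG A (Sst Fc E D ℓ c F) S0 (n + Z.s) -
          NG A (Sst Fc E D ℓ c F) S n / NG A (Sst Fc E D ℓ c F) S0 n| ≤ R * er p n := by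
  obtain ⟨ℓ₀, hℓ₀, hall⟩ := mainU G hF f hf hn
  refine ⟨ℓ₀, hℓ₀, fun m => ?_⟩
  obtain ⟨R, hR, hmain⟩ := hall m
  refine ⟨4 * R, by positivity, fun E D ℓ c F hE hfar hℓ S0 n hn2 hD p hp hp0 => ?_⟩
  have hc : ∀ n, (0 : ℝ) < (Kw A n).card := fun n =>
    lt_of_lt_of_le (pow_pos (by linarith [G.hμ]) n) (G.low n)
  have hμ0 : 0 < μ := by linarith [G.hμ]
  obtain ⟨T, hT⟩ : ∃ T, T = Sst Fc E (D : Set P) ℓ c F := ⟨_, rfl⟩
  have hNpos : 0 < NG A T S0 n := by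
    by_contra hcon
    push Not at hcon
    rw [hp, ← hT] at hp0
    have := div_nonpos_of_nonpos_of_nonneg hcon (hc n).le
    linarith
  have hp1 : p ≤ 1 := by
    rw [hp, div_le_one (hc n)]
    exact NG_le _ S0 n
  have her0 : 0 ≤ er p n := Real.sqrt_nonneg _
  obtain ⟨k1, k2⟩ := hmain E D ℓ c F hE hfar hℓ S0 n hn2 hD (by rw [← hT]; exact hNpos)
  rw [← hp] at k1 k2
  refine ⟨fun hle => ?_, fun S hS => (k2 S hS).trans (by nlinarith)⟩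
  have g1 := k1 (by nlinarith)
  obtain ⟨j1, -⟩ := hmain E D ℓ c F hE hfar hℓ Set.univ n hn2 hD (by
    rw [NG_univ]
    exact hc n)
  rw [NG_univ, NG_univ, div_self (hc n).ne'] at j1
  have hee : er 1 n ≤ er p n := by
    unfold er
    refine Real.sqrt_le_sqrt (div_le_div_of_nonneg_right ?_ (Nat.cast_nonneg n))
    rw [div_one, Real.log_one]
    have : 0 ≤ Real.log (1 / p) := Real.log_nonneg (by rw [le_div_iff₀ hp0]; linarith)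
    linarith
  have h5 : R * er 1 n ≤ R * er p n := mul_le_mul_of_nonneg_left hee hR.le
  have g2 := (j1 (by nlinarith)).trans h5
  have e : NG A (Sst Fc E D ℓ c F) S0 (n + Z.s) / (Kw A (n + Z.s)).card / p =
      (NG A (Sst Fc E D ℓ c F) S0 (n + Z.s) / (μ ^ Z.s * NG A (Sst Fc E D ℓ c F) S0 n)) /
        ((Kw A (n + Z.s)).card / (μ ^ Z.s * (Kw A n).card)) := by
    rw [hp, ← hT]
    have h1 := (hc n).ne'
    have h2 := (hc (n + Z.s)).ne'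
    have h3 := hNpos.ne'
    field_simp
  rw [e]
  have h6 := quot1 (e := R * er p n) (by positivity) (by linarith) g1 g2
  linarith

end

end Q294.Ts
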