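import Mathlib

/-!
# 2-forests and spanning trees of `K_{2,5}` plus an edge
-/

namespace Q294.TwoForest

open SimpleGraph

/-- the 2-forests of `G`: acyclic spanning subgraphs with `|V| - 2` edges -/
def twoForests {V : Type} (G : SimpleGraph V) : Set (SimpleGraph V) :=
  {H | H ≤ G ∧ H.IsAcyclic ∧ Nat.card H.edgeSet + 2 = Nat.card V}

/-- the spanning trees of `G` -/
def spanningTrees {V : Type} (G : SimpleGraph V) : Set (SimpleGraph V) :=
  {H | H ≤ G ∧ H.IsTree}

/-- the connected spanning subgraphs of `G` with excess 2, i.e. with `|V| + 2` edges -/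
def twoExcess {V : Type} (G : SimpleGraph V) : Set (SimpleGraph V) :=
  {H | H ≤ G ∧ H.Connected ∧ Nat.card H.edgeSet = Nat.card V + 2}

/-- the probability that `e` is open under the uniform probability measure on `S` -/
noncomputable def edgeProb {V : Type} (S : Set (SimpleGraph V)) (e : Sym2 V) : ℝ :=
  (Set.ncard {H | H ∈ S ∧ e ∈ H.edgeSet} : ℝ) / Set.ncard S

/-! ## Union-find -/

section UF

variable {V : Type*}

lemma reachable_sup_edge {G : SimpleGraph V} {x y : V} (hxy : x ≠ y) {v w : V} :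
    (G ⊔ edge x y).Reachable v w ↔ G.Reachable v w ∨
      (G.Reachable v x ∧ G.Reachable y w) ∨ (G.Reachable v y ∧ G.Reachable x w) := by
  constructor
  · rintro ⟨p⟩
    induction p with
    | nil => exact Or.inl (Reachable.refl _)
    | @cons a b c hab _ ih =>
      rw [sup_adj] at hab
      rcases hab with hab | hab
      · have h1 : G.Reachable a b := hab.reachable
        rcases ih with h | h | h
        · exact Or.inl (h1.trans h)
        · exact Or.inr (Or.inl ⟨h1.trans h.1, h.2⟩)
        · exact Or.inr (Or.inr ⟨h1.trans h.1, h.2⟩)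
      · rw [edge_adj] at hab
        rcases hab.1 with ⟨rfl, rfl⟩ | ⟨rfl, rfl⟩
        · rcases ih with h | h | h
          · exact Or.inr (Or.inl ⟨Reachable.refl _, h⟩)
          · exact Or.inr (Or.inl ⟨Reachable.refl _, h.2⟩)
          · exact Or.inl h.2
        · rcases ih with h | h | h
          · exact Or.inr (Or.inr ⟨Reachable.refl _, h⟩)
          · exact Or.inl h.2
          · exact Or.inr (Or.inr ⟨Reachable.refl _, h.2⟩)
  · have hle : G ≤ G ⊔ edge x y := le_sup_left
    have hadj : (G ⊔ edge x y).Adj x y := by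
      rw [sup_adj, edge_adj]; exact Or.inr ⟨Or.inl ⟨rfl, rfl⟩, hxy⟩
    rintro (h | h | h)
    · exact h.mono hle
    · exact (h.1.mono hle).trans (hadj.reachable.trans (h.2.mono hle))
    · exact (h.1.mono hle).trans (hadj.symm.reachable.trans (h.2.mono hle))

end UF

/-- labels of the vertices -/
def lab (L : List ℕ) (v : Fin 7) : ℕ := L.getD v.val 0

/-- merge the classes of `x` and `y` -/
def stepL (L : List ℕ) (x y : Fin 7) : List ℕ :=
  L.map fun c => if c = L.getD y.val 0 then L.getD x.val 0 else c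

/-- acyclicity test -/
def acycB : List (Fin 7 × Fin 7) → List ℕ → Bool
  | [], _ => true
  | e :: l, L => if L.getD e.1.val 0 = L.getD e.2.val 0 then false else acycB l (stepL L e.1 e.2)

/-- final labels -/
def finalL : List (Fin 7 × Fin 7) → List ℕ → List ℕ
  | [], L => L
  | e :: l, L => finalL l (stepL L e.1 e.2)

/-- adding edges -/
def addE : SimpleGraph (Fin 7) → List (Fin 7 × Fin 7) → SimpleGraph (Fin 7)
  | G, [] => G
  | G, e :: l => addE (G ⊔ edge e.1 e.2) l

/-- the labels describe the components -/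
def Inv (L : List ℕ) (G : SimpleGraph (Fin 7)) : Prop :=
  L.length = 7 ∧ ∀ v w, G.Reachable v w ↔ lab L v = lab L w

lemma lab_stepL {L : List ℕ} (hL : L.length = 7) (x y v : Fin 7) :
    lab (stepL L x y) v = if lab L v = lab L y then lab L x else lab L v := by
  unfold lab stepL
  have hv : v.val < L.length := by rw [hL]; exact v.2
  simp only [List.getD_eq_getElem?_getD, List.getElem?_map, List.getElem?_eq_getElem hv,
    Option.map_some, Option.getD_some]

lemma inv_step {L : List ℕ} {G : SimpleGraph (Fin 7)} (h : Inv L G) {x y : Fin 7} (hxy : x ≠ y) :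
    Inv (stepL L x y) (G ⊔ edge x y) := by
  refine ⟨by unfold stepL; rw [List.length_map]; exact h.1, fun v w => ?_⟩
  rw [reachable_sup_edge hxy, lab_stepL h.1, lab_stepL h.1, h.2, h.2, h.2, h.2, h.2]
  split_ifs <;> constructor <;> intro h' <;> omega

lemma le_addE (G : SimpleGraph (Fin 7)) (l : List (Fin 7 × Fin 7)) : G ≤ addE G l := by
  induction l generalizing G with
  | nil => exact le_rfl
  | cons e l ih => exact le_trans le_sup_left (ih _)

lemma acycB_iff {L : List ℕ} {G : SimpleGraph (Fin 7)} (h : Inv L G) (hG : G.IsAcyclic)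
    (l : List (Fin 7 × Fin 7)) (hl : ∀ e ∈ l, e.1 ≠ e.2)
    (hnd : (l.map fun e => s(e.1, e.2)).Nodup) (hnew : ∀ e ∈ l, ¬ G.Adj e.1 e.2) :
    acycB l L = true ↔ (addE G l).IsAcyclic := by
  induction l generalizing L G with
  | nil => simp [acycB, addE, hG]
  | cons e l ih =>
    have hne : e.1 ≠ e.2 := hl e List.mem_cons_self
    have hna : ¬ G.Adj e.1 e.2 := hnew e List.mem_cons_self
    unfold acycB addE
    by_cases hlab : L.getD e.1.val 0 = L.getD e.2.val 0
    · rw [if_pos hlab]
      have hreach : G.Reachable e.1 e.2 := (h.2 _ _).mpr hlab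
      constructor
      · intro h'; exact absurd h' (by simp)
      · intro h'
        exfalso
        have h1 : (G ⊔ edge e.1 e.2).IsAcyclic := h'.anti (le_addE _ l)
        rw [isAcyclic_sup_fromEdgeSet_iff] at h1
        rcases h1.2 hreach with h2 | h2
        · exact hne h2
        · exact hna h2
    · rw [if_neg hlab]
      have hreach : ¬ G.Reachable e.1 e.2 := fun h' => hlab ((h.2 _ _).mp h')
      refine ih (inv_step h hne) (hG.sup_edge_of_not_reachable hreach)
        (fun e' he' => hl e' (List.mem_cons_of_mem _ he')) ?_ ?_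
      · rw [List.map_cons, List.nodup_cons] at hnd
        exact hnd.2
      · intro e' he' hadj
        rw [sup_adj] at hadj
        rcases hadj with hadj | hadj
        · exact hnew e' (List.mem_cons_of_mem _ he') hadj
        · rw [List.map_cons, List.nodup_cons] at hnd
          apply hnd.1
          rw [List.mem_map]
          refine ⟨e', he', ?_⟩
          rw [edge_adj] at hadj
          rcases hadj.1 with ⟨h1, h2⟩ | ⟨h1, h2⟩
          · rw [h1, h2]
          · rw [h1, h2]; exact Sym2.eq_swap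

lemma finalL_inv {L : List ℕ} {G : SimpleGraph (Fin 7)} (h : Inv L G)
    (l : List (Fin 7 × Fin 7)) (hl : ∀ e ∈ l, e.1 ≠ e.2) : Inv (finalL l L) (addE G l) := by
  induction l generalizing L G with
  | nil => exact h
  | cons e l ih =>
    unfold finalL addE
    exact ih (inv_step h (hl e List.mem_cons_self)) fun e' he' => hl e' (List.mem_cons_of_mem _ he')

lemma addE_adj (G : SimpleGraph (Fin 7)) (l : List (Fin 7 × Fin 7)) (x y : Fin 7) :
    (addE G l).Adj x y ↔ G.Adj x y ∨ (x ≠ y ∧ s(x, y) ∈ l.map fun e => s(e.1, e.2)) := by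
  induction l generalizing G with
  | nil => simp [addE]
  | cons e l ih =>
    unfold addE
    rw [ih, sup_adj, edge_adj, List.map_cons, List.mem_cons, Sym2.eq_iff]
    tauto

/-! ## The graph -/

/-- the edges of `K_{2,5}` plus the edge `01` -/
def ed : Fin 11 → Fin 7 × Fin 7 :=
  ![(0, 1), (0, 2), (1, 2), (0, 3), (1, 3), (0, 4), (1, 4), (0, 5), (1, 5), (0, 6), (1, 6)]

/-- `K_{2,5}` plus the edge joining the two vertices `0`, `1` of degree 5 -/
def G0 : SimpleGraph (Fin 7) where
  Adj x y := x ≠ y ∧ (x.val < 2 ∨ y.val < 2)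
  symm := by constructor; intro x y h; exact ⟨h.1.symm, h.2.symm⟩
  loopless := by constructor; intro x h; exact h.1 rfl

/-- the chosen edge indices -/
def sel (m : ℕ) : List (Fin 11) := (List.finRange 11).filter fun i => m.testBit i.val

/-- the chosen edges -/
def el (m : ℕ) : List (Fin 7 × Fin 7) := (sel m).map ed

/-- the spanning subgraph coded by `m` -/
def HH (m : ℕ) : SimpleGraph (Fin 7) := addE ⊥ (el m)

lemma ed_ne : ∀ i, (ed i).1 ≠ (ed i).2 := by decide

lemma ed_inj : Function.Injective fun i => s((ed i).1, (ed i).2) := by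
  intro i j h
  revert i j
  decide

lemma G0_adj : ∀ x y : Fin 7, (x ≠ y ∧ (x.val < 2 ∨ y.val < 2)) →
    ∃ i, s((ed i).1, (ed i).2) = s(x, y) := by decide

lemma ed_G0 : ∀ i, ((ed i).1.val < 2 ∨ (ed i).2.val < 2) := by decide

lemma mem_sel {m : ℕ} {i : Fin 11} : i ∈ sel m ↔ m.testBit i.val = true := by
  unfold sel
  simp [List.mem_filter]

lemma HH_adj {m : ℕ} {x y : Fin 7} : (HH m).Adj x y ↔
    x ≠ y ∧ ∃ i : Fin 11, m.testBit i.val = true ∧ s((ed i).1, (ed i).2) = s(x, y) := by
  unfold HH el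
  rw [addE_adj]
  simp only [bot_adj, false_or, List.map_map, List.mem_map, mem_sel, Function.comp]

lemma HH_adj_ed {m : ℕ} {i : Fin 11} : (HH m).Adj (ed i).1 (ed i).2 ↔ m.testBit i.val = true := by
  rw [HH_adj]
  constructor
  · rintro ⟨_, j, hj, hji⟩
    have := ed_inj hji
    rwa [this] at hj
  · intro h
    exact ⟨ed_ne i, i, h, rfl⟩

lemma HH_le (m : ℕ) : HH m ≤ G0 := by
  intro x y h
  rw [HH_adj] at h
  obtain ⟨hne, i, _, hi⟩ := h
  refine ⟨hne, ?_⟩
  have h1 := ed_G0 i
  rw [Sym2.eq_iff] at hi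
  rcases hi with ⟨h2, h3⟩ | ⟨h2, h3⟩
  · rw [h2, h3] at h1; exact h1
  · rw [h2, h3] at h1; exact h1.symm

lemma HH_injOn : Set.InjOn HH {m | m < 2048} := by
  intro m hm m' hm' h
  apply Nat.eq_of_testBit_eq
  intro i
  by_cases hi : i < 11
  · have h1 := HH_adj_ed (m := m) (i := ⟨i, hi⟩)
    have h2 := HH_adj_ed (m := m') (i := ⟨i, hi⟩)
    rw [h] at h1
    have h3 := h1.symm.trans h2
    exact Bool.eq_iff_iff.mpr h3
  · have e1 : (2048 : ℕ) ≤ 2 ^ i := by
      calc (2048 : ℕ) = 2 ^ 11 := by norm_num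
        _ ≤ 2 ^ i := Nat.pow_le_pow_right (by norm_num) (by omega)
    rw [Nat.testBit_lt_two_pow (lt_of_lt_of_le hm e1), Nat.testBit_lt_two_pow (lt_of_lt_of_le hm' e1)]

lemma HH_surj {H : SimpleGraph (Fin 7)} (hH : H ≤ G0) : ∃ m, m < 2048 ∧ HH m = H := by
  classical
  refine ⟨Nat.ofBits fun i : Fin 11 => decide (H.Adj (ed i).1 (ed i).2), ?_, ?_⟩
  · exact lt_of_lt_of_le (Nat.ofBits_lt_two_pow _) (by norm_num)
  · ext x y
    rw [HH_adj]
    constructor
    · rintro ⟨hne, i, hi, hs⟩
      rw [Nat.testBit_ofBits_lt _ _ i.2] at hi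
      have h1 : H.Adj (ed i).1 (ed i).2 := by simpa using hi
      rw [Sym2.eq_iff] at hs
      rcases hs with ⟨h2, h3⟩ | ⟨h2, h3⟩
      · rw [h2, h3] at h1; exact h1
      · rw [h2, h3] at h1; exact h1.symm
    · intro h
      refine ⟨h.ne, ?_⟩
      obtain ⟨i, hi⟩ := G0_adj x y (hH h)
      refine ⟨i, ?_, hi⟩
      rw [Nat.testBit_ofBits_lt _ _ i.2]
      have h1 : H.Adj (ed i).1 (ed i).2 := by
        rw [Sym2.eq_iff] at hi
        rcases hi with ⟨h2, h3⟩ | ⟨h2, h3⟩
        · rw [h2, h3]; exact h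
        · rw [h2, h3]; exact h.symm
      simpa using h1

lemma el_ne (m : ℕ) : ∀ e ∈ el m, e.1 ≠ e.2 := by
  intro e he
  unfold el at he
  rw [List.mem_map] at he
  obtain ⟨i, _, rfl⟩ := he
  exact ed_ne i

lemma el_nodup (m : ℕ) : ((el m).map fun e => s(e.1, e.2)).Nodup := by
  unfold el
  rw [List.map_map]
  refine List.Nodup.map ?_ ?_
  · intro i j h; exact ed_inj h
  · exact (List.nodup_finRange 11).filter _

lemma inv0 : Inv (List.range 7) ⊥ := by
  refine ⟨by simp, fun v w => ?_⟩
  have h1 : lab (List.range 7) v = v.val := by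
    revert v; decide
  have h2 : lab (List.range 7) w = w.val := by
    revert w; decide
  rw [h1, h2]
  constructor
  · intro h
    rw [SimpleGraph.reachable_bot] at h
    rw [h]
  · intro h
    rw [Fin.ext h]

lemma acyc_HH (m : ℕ) : acycB (el m) (List.range 7) = true ↔ (HH m).IsAcyclic :=
  acycB_iff inv0 (by simp) (el m) (el_ne m) (el_nodup m) (by simp)

lemma conn_HH (m : ℕ) : (∀ v : Fin 7, lab (finalL (el m) (List.range 7)) v =
    lab (finalL (el m) (List.range 7)) 0) ↔ (HH m).Connected := by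
  have h := finalL_inv inv0 (el m) (el_ne m)
  constructor
  · intro h1
    refine ⟨fun v w => (h.2 v w).mpr ?_⟩
    rw [h1 v, h1 w]
  · intro h1 v
    exact (h.2 v 0).mp (h1.preconnected v 0)

lemma card_HH (m : ℕ) : Nat.card (HH m).edgeSet = (sel m).length := by
  have h1 : (HH m).edgeSet = (((el m).map fun e => s(e.1, e.2)).toFinset : Set (Sym2 (Fin 7))) := by
    ext e
    induction e using Sym2.ind with
    | _ x y =>
      rw [mem_edgeSet, List.coe_toFinset, Set.mem_ofPred_eq]
      unfold HH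
      rw [addE_adj]
      simp only [bot_adj, false_or]
      constructor
      · exact fun h => h.2
      · intro h
        refine ⟨?_, h⟩
        rw [List.mem_map] at h
        obtain ⟨e, he, hs⟩ := h
        have := el_ne m e he
        rw [Sym2.eq_iff] at hs
        rcases hs with ⟨h2, h3⟩ | ⟨h2, h3⟩
        · rw [← h2, ← h3]; exact this
        · rw [← h2, ← h3]; exact this.symm
  rw [h1, Nat.card_coe_set_eq, Set.ncard_coe_finset, List.toFinset_card_of_nodup (el_nodup m)]
  simp [el]

/-- counting through the code -/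
lemma ncard_eq (P : SimpleGraph (Fin 7) → Prop) (p : ℕ → Bool) (h : ∀ m, p m = true ↔ P (HH m)) :
    Set.ncard {H | H ≤ G0 ∧ P H} = ((Finset.range 2048).filter fun m => p m = true).card := by
  have h1 : {H | H ≤ G0 ∧ P H} = HH '' (((Finset.range 2048).filter fun m => p m = true) : Set ℕ) := by
    ext H
    constructor
    · rintro ⟨hle, hP⟩
      obtain ⟨m, hm, rfl⟩ := HH_surj hle
      refine ⟨m, ?_, rfl⟩
      simp only [Finset.coe_filter, Finset.mem_range, Set.mem_ofPred_eq]
      exact ⟨hm, (h m).mpr hP⟩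
    · rintro ⟨m, hm, rfl⟩
      simp only [Finset.coe_filter, Finset.mem_range, Set.mem_ofPred_eq] at hm
      exact ⟨HH_le m, (h m).mp hm.2⟩
  have hinj : Set.InjOn HH (((Finset.range 2048).filter fun m => p m = true) : Set ℕ) := by
    refine HH_injOn.mono ?_
    intro m hm
    simp only [Finset.coe_filter, Finset.mem_range, Set.mem_ofPred_eq] at hm
    exact hm.1
  rw [h1, hinj.ncard_image, Set.ncard_coe_finset]

/-- test for 2-forests -/
def chkF (m : ℕ) : Bool := ((sel m).length == 5) && acycB (el m) (List.range 7)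

/-- test for spanning trees -/
def chkT (m : ℕ) : Bool := acycB (el m) (List.range 7) &&
  decide (∀ v : Fin 7, lab (finalL (el m) (List.range 7)) v =
    lab (finalL (el m) (List.range 7)) 0)

lemma chkF_iff (m : ℕ) : chkF m = true ↔
    ((HH m).IsAcyclic ∧ Nat.card (HH m).edgeSet + 2 = Nat.card (Fin 7)) := by
  unfold chkF
  rw [Bool.and_eq_true, acyc_HH, card_HH, Nat.card_eq_fintype_card, Fintype.card_fin, beq_iff_eq]
  constructor
  · rintro ⟨h1, h2⟩; exact ⟨h2, by omega⟩
  · rintro ⟨h1, h2⟩; exact ⟨by omega, h1⟩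

lemma chkT_iff (m : ℕ) : chkT m = true ↔ (HH m).IsTree := by
  unfold chkT
  rw [Bool.and_eq_true, acyc_HH, decide_eq_true_iff, conn_HH]
  exact ⟨fun h => ⟨h.2, h.1⟩, fun h => ⟨h.2, h.1⟩⟩

lemma mem_edge (m : ℕ) : m.testBit 0 = true ↔ s((0 : Fin 7), 1) ∈ (HH m).edgeSet := by
  rw [mem_edgeSet]
  exact (HH_adj_ed (m := m) (i := 0)).symm

set_option maxRecDepth 100000 in
lemma cF : ((Finset.range 2048).filter fun m => chkF m = true).card = 272 := by decide +kernel

set_option maxRecDepth 100000 in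
lemma cFe : ((Finset.range 2048).filter fun m => (chkF m && m.testBit 0) = true).card = 80 := by
  decide +kernel

set_option maxRecDepth 100000 in
lemma cT : ((Finset.range 2048).filter fun m => chkT m = true).card = 112 := by decide +kernel

set_option maxRecDepth 100000 in
lemma cTe : ((Finset.range 2048).filter fun m => (chkT m && m.testBit 0) = true).card = 32 := by
  decide +kernel

theorem prob_forest : edgeProb (twoForests G0) s(0, 1) = 80 / 272 := by
  have h1 : (twoForests G0).ncard = 272 := by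
    unfold twoForests
    rw [ncard_eq _ chkF chkF_iff, cF]
  have h2 : Set.ncard {H | H ∈ twoForests G0 ∧ s((0 : Fin 7), 1) ∈ H.edgeSet} = 80 := by
    have e : {H | H ∈ twoForests G0 ∧ s((0 : Fin 7), 1) ∈ H.edgeSet} =
        {H | H ≤ G0 ∧ ((H.IsAcyclic ∧ Nat.card H.edgeSet + 2 = Nat.card (Fin 7)) ∧
          s((0 : Fin 7), 1) ∈ H.edgeSet)} := by
      ext H
      simp only [twoForests, Set.mem_ofPred_eq]
      tauto
    rw [e, ncard_eq _ (fun m => chkF m && m.testBit 0) (fun m => by
      rw [Bool.and_eq_true, chkF_iff, mem_edge]), cFe]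
  unfold edgeProb
  rw [h1, h2]
  norm_num

theorem prob_tree : edgeProb (spanningTrees G0) s(0, 1) = 32 / 112 := by
  have h1 : (spanningTrees G0).ncard = 112 := by
    unfold spanningTrees
    rw [ncard_eq _ chkT chkT_iff, cT]
  have h2 : Set.ncard {H | H ∈ spanningTrees G0 ∧ s((0 : Fin 7), 1) ∈ H.edgeSet} = 32 := by
    have e : {H | H ∈ spanningTrees G0 ∧ s((0 : Fin 7), 1) ∈ H.edgeSet} =
        {H | H ≤ G0 ∧ (H.IsTree ∧ s((0 : Fin 7), 1) ∈ H.edgeSet)} := by
      ext H
      simp only [spanningTrees, Set.mem_ofPred_eq]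
      tauto
    rw [e, ncard_eq _ (fun m => chkT m && m.testBit 0) (fun m => by
      rw [Bool.and_eq_true, chkT_iff, mem_edge]), cTe]
  unfold edgeProb
  rw [h1, h2]
  norm_num

lemma G0_eq : G0 = HH 2047 := by
  refine le_antisymm ?_ (HH_le _)
  intro x y h
  rw [HH_adj]
  obtain ⟨i, hi⟩ := G0_adj x y h
  have h2 : ∀ i : Fin 11, Nat.testBit 2047 i.val = true := by decide
  exact ⟨h.1, i, h2 i, hi⟩

lemma G0_connected : G0.Connected := by
  rw [G0_eq, ← conn_HH]
  decide +kernel

lemma G0_card : Nat.card G0.edgeSet = 11 := by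
  rw [G0_eq, card_HH]
  decide +kernel

/-- **The question Q1**, for finite simple graphs. -/
def Q1 : Prop :=
  ∀ (V : Type) [Finite V] (G : SimpleGraph V), G.Connected → 2 ≤ Nat.card V →
    Nat.card V + 2 ≤ Nat.card G.edgeSet → ∀ e ∈ G.edgeSet,
      edgeProb (twoForests G) e ≤ edgeProb (spanningTrees G) e ∧
      edgeProb (spanningTrees G) e ≤ edgeProb (twoExcess G) e

theorem not_Q1 : ¬ Q1 := by
  intro h
  have h1 := (h (Fin 7) G0 G0_connected (by rw [Nat.card_eq_fintype_card, Fintype.card_fin]; norm_num)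
    (by rw [Nat.card_eq_fintype_card, Fintype.card_fin, G0_card]; norm_num) s(0, 1)
    (by rw [mem_edgeSet]; exact ⟨by decide, Or.inl (by decide)⟩)).1
  rw [prob_forest, prob_tree] at h1
  norm_num at h1

end Q294.TwoForest
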