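import Mathlib

/-!
# Random simple tensors: zero columns
-/

namespace Q294.ZeroTensor

open MeasureTheory Finset ProbabilityTheory Filter
open scoped ENNReal Topology

/-- The simple tensor `x₁ ⊗ ⋯ ⊗ x_d` of the vectors `x₁, …, x_d ∈ ℝⁿ`, as a vector indexed by the
multi-indices `I : Fin d → Fin n`. -/
def tens {n d : ℕ} (x : Fin d × Fin n → ℝ) : (Fin d → Fin n) → ℝ := fun I => ∏ k, x (k, I k)

/-- The Euclidean norm. -/
noncomputable def norm2 {ι : Type*} [Fintype ι] (v : ι → ℝ) : ℝ := Real.sqrt (∑ i, v i ^ 2)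

/-- The smallest singular value of the matrix with the columns `tens (ω 1), …, tens (ω m)`: the
largest `σ ≥ 0` with `‖∑ a_i X_i‖ ≥ σ ‖a‖` for all `a`. -/
noncomputable def sigmaMin {n d m : ℕ} (ω : Fin m → Fin d × Fin n → ℝ) : ℝ :=
  sSup {σ : ℝ | 0 ≤ σ ∧ ∀ a : Fin m → ℝ, σ * norm2 a ≤ norm2 (fun I => ∑ i, a i * tens (ω i) I)}

/-- Admissible coordinate laws: probability measures with mean zero, unit variance and subgaussian
norm (`inf {t > 0 : E exp(X²/t²) ≤ 2}`) at most `L`. -/
structure Admissible (L : ℝ) (κ : Measure ℝ) : Prop where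
  prob : IsProbabilityMeasure κ
  int : Integrable (fun x => x) κ
  mean : ∫ x, x ∂κ = 0
  var : ∫⁻ x, ENNReal.ofReal (x ^ 2) ∂κ = 1
  pos : 0 < L
  psi2 : ∫⁻ x, ENNReal.ofReal (Real.exp (x ^ 2 / L ^ 2)) ∂κ ≤ 2

/-- The law of `m` independent copies of the `d` factors in `ℝⁿ`, the `j`-th coordinate of the
`k`-th factor having the law `κ k j`. -/
noncomputable def law (n d m : ℕ) (κ : Fin d → Fin n → Measure ℝ) :
    Measure (Fin m → Fin d × Fin n → ℝ) :=
  Measure.pi fun _ : Fin m => Measure.pi fun p : Fin d × Fin n => κ p.1 p.2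

/-- number of columns -/
noncomputable def cols (ε : ℝ) (n d : ℕ) : ℕ := ⌊(1 - ε) * (n : ℝ) ^ d⌋₊

/-! ## zero columns -/

lemma tens_eq_zero {n d : ℕ} {x : Fin d × Fin n → ℝ} {k : Fin d} (h : ∀ j, x (k, j) = 0) :
    tens x = 0 := by
  funext I
  unfold tens
  exact Finset.prod_eq_zero (Finset.mem_univ k) (h (I k))

lemma norm2_zero {ι : Type*} [Fintype ι] : norm2 (fun _ : ι => (0 : ℝ)) = 0 := by
  simp [norm2]

lemma sigmaMin_eq_zero {n d m : ℕ} {ω : Fin m → Fin d × Fin n → ℝ} {i : Fin m} {k : Fin d}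
    (h : ∀ j, ω i (k, j) = 0) : sigmaMin ω = 0 := by
  have h0 : tens (ω i) = 0 := tens_eq_zero h
  have hset : {σ : ℝ | 0 ≤ σ ∧ ∀ a : Fin m → ℝ,
      σ * norm2 a ≤ norm2 (fun I => ∑ i, a i * tens (ω i) I)} = {0} := by
    ext σ
    constructor
    · rintro ⟨hσ, ha⟩
      have h1 := ha (Pi.single i 1)
      have h2 : norm2 (Pi.single i (1 : ℝ) : Fin m → ℝ) = 1 := by
        unfold norm2
        have : ∑ j, (Pi.single i (1 : ℝ) : Fin m → ℝ) j ^ 2 = 1 := by
          rw [Finset.sum_eq_single i]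
          · simp
          · intro j _ hj; simp [Pi.single_eq_of_ne hj]
          · intro h; exact absurd (Finset.mem_univ _) h
        rw [this, Real.sqrt_one]
      have h3 : (fun I => ∑ j, (Pi.single i (1 : ℝ) : Fin m → ℝ) j * tens (ω j) I) =
          fun _ => (0 : ℝ) := by
        funext I
        rw [Finset.sum_eq_single i]
        · rw [h0]; simp
        · intro j _ hj; simp [Pi.single_eq_of_ne hj]
        · intro h; exact absurd (Finset.mem_univ _) h
      rw [h2, h3, norm2_zero, mul_one] at h1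
      exact le_antisymm h1 hσ
    · rintro rfl
      refine ⟨le_rfl, fun a => ?_⟩
      rw [zero_mul]
      exact Real.sqrt_nonneg _
  unfold sigmaMin
  rw [hset, csSup_singleton]

/-- probability that no first factor vanishes -/
lemma law_noZero {n d m : ℕ} (κ : Measure ℝ) [IsProbabilityMeasure κ] (hd : 0 < d) :
    law n d m (fun _ _ => κ) {ω | ∀ i, ¬ ∀ j, ω i (⟨0, hd⟩, j) = 0} =
      (1 - (κ {0}) ^ n) ^ m := by
  set A : Set (Fin d × Fin n → ℝ) := {x | ∀ j, x (⟨0, hd⟩, j) = 0} with hA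
  have hA1 : A = Set.pi Set.univ
      (fun p : Fin d × Fin n => if p.1 = ⟨0, hd⟩ then ({0} : Set ℝ) else Set.univ) := by
    ext x
    simp only [hA, Set.mem_ofPred_eq, Set.mem_pi, Set.mem_univ, true_implies]
    constructor
    · intro h p
      by_cases hp : p.1 = ⟨0, hd⟩
      · rw [if_pos hp]
        have := h p.2
        rw [← hp] at this
        exact this
      · rw [if_neg hp]; trivial
    · intro h j
      have := h (⟨0, hd⟩, j)
      simpa using this
  have hAm : MeasurableSet A := by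
    rw [hA1]
    refine MeasurableSet.univ_pi fun p => ?_
    split_ifs
    · exact measurableSet_singleton 0
    · exact MeasurableSet.univ
  have hPA : Measure.pi (fun _ : Fin d × Fin n => κ) A = (κ {0}) ^ n := by
    rw [hA1, Measure.pi_pi]
    have h2 : ∀ p : Fin d × Fin n, κ (if p.1 = ⟨0, hd⟩ then ({0} : Set ℝ) else Set.univ) =
        if p.1 = ⟨0, hd⟩ then κ {0} else 1 := by
      intro p
      split_ifs
      · rfl
      · exact measure_univ
    simp_rw [h2]
    rw [Fintype.prod_prod_type]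
    rw [Finset.prod_eq_single (⟨0, hd⟩ : Fin d)]
    · simp
    · intro k _ hk
      simp [hk]
    · intro h; exact absurd (Finset.mem_univ _) h
  have hset : {ω : Fin m → Fin d × Fin n → ℝ | ∀ i, ¬ ∀ j, ω i (⟨0, hd⟩, j) = 0} =
      Set.pi Set.univ (fun _ : Fin m => Aᶜ) := by
    ext ω
    simp only [hA, Set.mem_ofPred_eq, Set.mem_pi, Set.mem_univ, true_implies, Set.mem_compl_iff]
  rw [hset]
  unfold law
  rw [Measure.pi_pi]
  simp only [Finset.prod_const, Finset.card_univ, Fintype.card_fin]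
  rw [prob_compl_eq_one_sub hAm, hPA]

/-- The three-point law with an atom of mass `q` at zero. -/
noncomputable def kap (q : ℝ) : Measure ℝ :=
  ENNReal.ofReal q • Measure.dirac 0 +
    (ENNReal.ofReal ((1 - q) / 2) • Measure.dirac (1 / Real.sqrt (1 - q)) +
      ENNReal.ofReal ((1 - q) / 2) • Measure.dirac (-(1 / Real.sqrt (1 - q))))

lemma kap_prob {q : ℝ} (h0 : 0 < q) (h1 : q < 1) : IsProbabilityMeasure (kap q) := by
  constructor
  unfold kap
  simp only [Measure.add_apply, Measure.smul_apply, measure_univ, smul_eq_mul, mul_one]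
  rw [← ENNReal.ofReal_add (by linarith) (by linarith), ← ENNReal.ofReal_add h0.le (by linarith)]
  have : q + ((1 - q) / 2 + (1 - q) / 2) = 1 := by ring
  rw [this, ENNReal.ofReal_one]

lemma lintegral_kap {q : ℝ} {f : ℝ → ℝ≥0∞} (hf : Measurable f) :
    ∫⁻ x, f x ∂(kap q) = ENNReal.ofReal q * f 0 +
      (ENNReal.ofReal ((1 - q) / 2) * f (1 / Real.sqrt (1 - q)) +
        ENNReal.ofReal ((1 - q) / 2) * f (-(1 / Real.sqrt (1 - q)))) := by
  unfold kap
  rw [lintegral_add_measure, lintegral_add_measure, lintegral_smul_measure,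
    lintegral_smul_measure, lintegral_smul_measure, lintegral_dirac' _ hf, lintegral_dirac' _ hf,
    lintegral_dirac' _ hf]
  simp only [smul_eq_mul]

lemma kap_zero {q : ℝ} : ENNReal.ofReal q ≤ kap q {0} := by
  unfold kap
  simp only [Measure.add_apply, Measure.smul_apply, smul_eq_mul]
  refine le_trans ?_ (le_add_right le_rfl)
  simp

lemma kap_admissible {q : ℝ} (h0 : 0 < q) (h1 : q < 1) :
    Admissible (1 / Real.sqrt ((1 - q) * Real.log 2)) (kap q) := by
  have hq : 0 < 1 - q := by linarith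
  have hs : 0 < Real.sqrt (1 - q) := Real.sqrt_pos.mpr hq
  have hlog : 0 < Real.log 2 := Real.log_pos (by norm_num)
  have hM2 : (1 / Real.sqrt (1 - q)) ^ 2 = 1 / (1 - q) := by
    rw [div_pow, one_pow, Real.sq_sqrt hq.le]
  have hint : ∀ c : ℝ, ∀ a : ℝ, Integrable (fun x : ℝ => x)
      (ENNReal.ofReal c • Measure.dirac a) := by
    intro c a
    refine Integrable.smul_measure ?_ ENNReal.ofReal_ne_top
    exact integrable_dirac (by simp)
  refine ⟨kap_prob h0 h1, ?_, ?_, ?_, ?_, ?_⟩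
  · unfold kap
    exact (hint _ _).add_measure ((hint _ _).add_measure (hint _ _))
  · unfold kap
    rw [integral_add_measure (hint _ _) ((hint _ _).add_measure (hint _ _)),
      integral_add_measure (hint _ _) (hint _ _), integral_smul_measure, integral_smul_measure,
      integral_smul_measure, integral_dirac, integral_dirac, integral_dirac]
    simp
  · rw [lintegral_kap (by fun_prop)]
    have e1 : (0 : ℝ) ^ 2 = 0 := by norm_num
    have e2 : (-(1 / Real.sqrt (1 - q))) ^ 2 = 1 / (1 - q) := by rw [neg_sq, hM2]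
    rw [e1, e2, hM2, ENNReal.ofReal_zero, mul_zero, zero_add,
      ← ENNReal.ofReal_mul (by linarith), ← ENNReal.ofReal_add (by positivity) (by positivity)]
    have : (1 - q) / 2 * (1 / (1 - q)) + (1 - q) / 2 * (1 / (1 - q)) = 1 := by
      field_simp
      norm_num
    rw [this, ENNReal.ofReal_one]
  · positivity
  · have hL : (1 / Real.sqrt ((1 - q) * Real.log 2)) ^ 2 = 1 / ((1 - q) * Real.log 2) := by
      rw [div_pow, one_pow, Real.sq_sqrt (by positivity)]
    rw [lintegral_kap (by fun_prop), hL]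
    have e2 : (-(1 / Real.sqrt (1 - q))) ^ 2 = 1 / (1 - q) := by rw [neg_sq, hM2]
    rw [e2, hM2]
    have e3 : (1 / (1 - q)) / (1 / ((1 - q) * Real.log 2)) = Real.log 2 := by
      field_simp
    have e4 : (0 : ℝ) ^ 2 / (1 / ((1 - q) * Real.log 2)) = 0 := by simp
    rw [e3, e4, Real.exp_zero, Real.exp_log (by norm_num), ← ENNReal.ofReal_mul h0.le,
      ← ENNReal.ofReal_mul (by linarith), ← ENNReal.ofReal_add (by positivity) (by positivity),
      ← ENNReal.ofReal_add (by positivity) (by positivity)]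
    have : (2 : ℝ≥0∞) = ENNReal.ofReal 2 := by norm_num
    rw [this]
    refine ENNReal.ofReal_le_ofReal ?_
    linarith

/-- asymptotics -/
lemma tendsto_noZero {κ : Measure ℝ} {q δ ε : ℝ} (hq0 : 0 < q) (hq1 : q < 1)
    (hκ : ENNReal.ofReal q ≤ κ {0}) (hδ : 0 < δ) (hε1 : ε < 1) (d : ℕ → ℕ)
    (hd : ∀ᶠ n : ℕ in atTop, (Real.log (1 / q) + δ) * n ≤ d n * Real.log n) :
    Tendsto (fun n : ℕ => (1 - (κ {0}) ^ n) ^ cols ε n (d n)) atTop (𝓝 0) := by
  -- upper bound by an exponential
  have hub : ∀ᶠ n : ℕ in atTop, (1 - (κ {0}) ^ n) ^ cols ε n (d n) ≤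
      ENNReal.ofReal (Real.exp (-((1 - ε) * Real.exp (δ * n) - 1))) := by
    filter_upwards [hd, eventually_ge_atTop 1] with n hn hn1
    have hnpos : (0 : ℝ) < n := by exact_mod_cast hn1
    have hqn : 0 < q ^ n := by positivity
    have hqn1 : q ^ n ≤ 1 := pow_le_one₀ hq0.le hq1.le
    have h1 : 1 - (κ {0}) ^ n ≤ ENNReal.ofReal (1 - q ^ n) := by
      rw [ENNReal.ofReal_sub _ hqn.le, ENNReal.ofReal_one, ENNReal.ofReal_pow hq0.le]
      exact tsub_le_tsub_left (pow_le_pow_left' hκ n) 1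
    have h2 : (1 - (κ {0}) ^ n) ^ cols ε n (d n) ≤
        ENNReal.ofReal (Real.exp (-(q ^ n * cols ε n (d n)))) := by
      calc (1 - (κ {0}) ^ n) ^ cols ε n (d n)
          ≤ (ENNReal.ofReal (1 - q ^ n)) ^ cols ε n (d n) := pow_le_pow_left' h1 _
        _ = ENNReal.ofReal ((1 - q ^ n) ^ cols ε n (d n)) := by
            rw [ENNReal.ofReal_pow (by linarith)]
        _ ≤ ENNReal.ofReal (Real.exp (-(q ^ n * cols ε n (d n)))) := by
            refine ENNReal.ofReal_le_ofReal ?_
            have h3 : 1 - q ^ n ≤ Real.exp (-(q ^ n)) := by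
              have := Real.add_one_le_exp (-(q ^ n))
              linarith
            refine (pow_le_pow_left₀ (by linarith) h3 _).trans (le_of_eq ?_)
            rw [← Real.exp_nat_mul]
            congr 1
            ring
    refine h2.trans (ENNReal.ofReal_le_ofReal ?_)
    rw [Real.exp_le_exp, neg_le_neg_iff]
    have h4 : (1 - ε) * (n : ℝ) ^ (d n) - 1 ≤ cols ε n (d n) := by
      unfold cols
      exact (Nat.sub_one_lt_floor _).le
    have h5 : Real.exp ((Real.log (1 / q) + δ) * n) ≤ (n : ℝ) ^ (d n) := by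
      calc Real.exp ((Real.log (1 / q) + δ) * n) ≤ Real.exp (d n * Real.log n) :=
            Real.exp_le_exp.mpr hn
        _ = (n : ℝ) ^ (d n) := by
            rw [Real.exp_nat_mul, Real.exp_log hnpos]
    have h6 : q ^ n = Real.exp (-(Real.log (1 / q) * n)) := by
      rw [one_div, Real.log_inv, neg_mul, neg_neg, mul_comm, Real.exp_nat_mul, Real.exp_log hq0]
    have h7 : q ^ n * Real.exp ((Real.log (1 / q) + δ) * n) = Real.exp (δ * n) := by
      rw [h6, ← Real.exp_add]
      congr 1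
      ring
    have hε' : 0 < 1 - ε := by linarith
    calc (1 - ε) * Real.exp (δ * n) - 1
        ≤ (1 - ε) * Real.exp (δ * n) - q ^ n := by linarith
      _ = q ^ n * ((1 - ε) * Real.exp ((Real.log (1 / q) + δ) * n) - 1) := by rw [← h7]; ring
      _ ≤ q ^ n * ((1 - ε) * (n : ℝ) ^ (d n) - 1) := by
          refine mul_le_mul_of_nonneg_left ?_ hqn.le
          have := mul_le_mul_of_nonneg_left h5 hε'.le
          linarith
      _ ≤ q ^ n * cols ε n (d n) := mul_le_mul_of_nonneg_left h4 hqn.le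
  have hlim : Tendsto (fun n : ℕ =>
      ENNReal.ofReal (Real.exp (-((1 - ε) * Real.exp (δ * n) - 1)))) atTop (𝓝 0) := by
    rw [← ENNReal.ofReal_zero]
    refine ENNReal.tendsto_ofReal (Real.tendsto_exp_neg_atTop_nhds_zero.comp ?_)
    refine tendsto_atTop_add_const_right _ _ ?_
    refine Tendsto.const_mul_atTop (by linarith) ?_
    refine Real.tendsto_exp_atTop.comp ?_
    exact Tendsto.const_mul_atTop (by linarith) tendsto_natCast_atTop_atTop
  exact tendsto_of_tendsto_of_tendsto_of_le_of_le' tendsto_const_nhds hlim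
    (Eventually.of_forall fun _ => bot_le) hub

/-- The event of no zero first factor. -/
lemma measurable_noZero {n d m : ℕ} (hd : 0 < d) :
    MeasurableSet {ω : Fin m → Fin d × Fin n → ℝ | ∀ i, ¬ ∀ j, ω i (⟨0, hd⟩, j) = 0} := by
  have : {ω : Fin m → Fin d × Fin n → ℝ | ∀ i, ¬ ∀ j, ω i (⟨0, hd⟩, j) = 0} =
      ⋂ i, (⋂ j, (fun ω : Fin m → Fin d × Fin n → ℝ => ω i (⟨0, hd⟩, j)) ⁻¹' {0})ᶜ := by
    ext ω
    simp only [Set.mem_ofPred_eq, Set.mem_iInter, Set.mem_compl_iff, Set.mem_preimage,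
      Set.mem_singleton_iff]
  rw [this]
  refine MeasurableSet.iInter fun i => MeasurableSet.compl (MeasurableSet.iInter fun j => ?_)
  refine (measurableSet_singleton 0).preimage ?_
  exact (measurable_pi_apply _).comp (measurable_pi_apply _)

/-- **Main theorem.** If the coordinates vanish with probability at least `q` and
`n ^ d(n) ≥ q ^ (-n) * exp (δ n)`, then `σ_min = 0` with probability tending to one. -/
theorem main {κ : Measure ℝ} [IsProbabilityMeasure κ] {q δ ε : ℝ} (hq0 : 0 < q) (hq1 : q < 1)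
    (hκ : ENNReal.ofReal q ≤ κ {0}) (hδ : 0 < δ) (hε1 : ε < 1) (d : ℕ → ℕ)
    (hd : ∀ᶠ n : ℕ in atTop, (Real.log (1 / q) + δ) * n ≤ d n * Real.log n) :
      Tendsto (fun n : ℕ => law n (d n) (cols ε n (d n)) (fun _ _ => κ) {ω | sigmaMin ω = 0}) atTop
        (𝓝 1) ∧
      Tendsto (fun n : ℕ => law n (d n) (cols ε n (d n)) (fun _ _ => κ) {ω | 0 < sigmaMin ω}) atTop
        (𝓝 0) := by
  have hT := tendsto_noZero hq0 hq1 hκ hδ hε1 d hd
  have hlogq : 0 < Real.log (1 / q) := by
    rw [one_div, Real.log_inv]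
    have := Real.log_neg hq0 hq1
    linarith
  have hdpos : ∀ᶠ n : ℕ in atTop, 0 < d n := by
    filter_upwards [hd, eventually_ge_atTop 1] with n hn hn1
    by_contra h
    have h0 : d n = 0 := by omega
    rw [h0] at hn
    have : (0 : ℝ) < n := by exact_mod_cast hn1
    have : 0 < (Real.log (1 / q) + δ) * n := by positivity
    simp only [Nat.cast_zero, zero_mul] at hn
    linarith
  have hlaw : ∀ n, IsProbabilityMeasure (law n (d n) (cols ε n (d n)) (fun _ _ => κ)) := by
    intro n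
    unfold law
    infer_instance
  constructor
  · have hlow : ∀ᶠ n : ℕ in atTop,
        1 - (1 - (κ {0}) ^ n) ^ cols ε n (d n) ≤
        law n (d n) (cols ε n (d n)) (fun _ _ => κ) {ω | sigmaMin ω = 0} := by
      filter_upwards [hdpos] with n hn
      rw [← law_noZero (m := cols ε n (d n)) (n := n) κ hn,
        ← prob_compl_eq_one_sub (measurable_noZero hn)]
      refine measure_mono ?_
      intro ω hω
      rw [Set.mem_compl_iff, Set.mem_ofPred_eq, not_forall] at hω
      obtain ⟨i, hi⟩ := hω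
      exact sigmaMin_eq_zero (not_not.mp hi)
    have hlim : Tendsto (fun n : ℕ =>
        1 - (1 - (κ {0}) ^ n) ^ cols ε n (d n)) atTop (𝓝 1) := by
      have := ENNReal.Tendsto.sub (tendsto_const_nhds (x := (1 : ℝ≥0∞)) (f := atTop)) hT
        (Or.inl ENNReal.one_ne_top)
      simpa using this
    exact tendsto_of_tendsto_of_tendsto_of_le_of_le' hlim tendsto_const_nhds hlow
      (Eventually.of_forall fun n => prob_le_one)
  · refine tendsto_of_tendsto_of_tendsto_of_le_of_le' tendsto_const_nhds hT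
      (Eventually.of_forall fun _ => bot_le) ?_
    filter_upwards [hdpos] with n hn
    rw [← law_noZero (m := cols ε n (d n)) (n := n) κ hn]
    refine measure_mono ?_
    intro ω hω i hi
    have h1 : 0 < sigmaMin ω := hω
    rw [sigmaMin_eq_zero hi] at h1
    exact lt_irrefl _ h1

/-- Linear degrees: every law with an atom at zero. -/
theorem linear {κ : Measure ℝ} [IsProbabilityMeasure κ] (hκ : 0 < κ {0}) {K ε : ℝ} (hK : 0 < K)
    (hε1 : ε < 1) (d : ℕ → ℕ) (hd : ∀ᶠ n : ℕ in atTop, K * n ≤ d n) :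
      Tendsto (fun n : ℕ => law n (d n) (cols ε n (d n)) (fun _ _ => κ) {ω | sigmaMin ω = 0}) atTop
        (𝓝 1) := by
  obtain ⟨q, hq0, hq1, hq⟩ : ∃ q : ℝ, 0 < q ∧ q < 1 ∧ ENNReal.ofReal q ≤ κ {0} := by
    refine ⟨(κ {0}).toReal / 2, ?_, ?_, ?_⟩
    · have := ENNReal.toReal_pos hκ.ne' (measure_ne_top κ _)
      linarith
    · have : (κ {0}).toReal ≤ 1 := by
        rw [← ENNReal.toReal_one]
        exact ENNReal.toReal_mono ENNReal.one_ne_top prob_le_one
      linarith
    · have h1 : ENNReal.ofReal ((κ {0}).toReal / 2) ≤ ENNReal.ofReal ((κ {0}).toReal) := by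
        refine ENNReal.ofReal_le_ofReal ?_
        have : 0 ≤ (κ {0}).toReal := ENNReal.toReal_nonneg
        linarith
      rwa [ENNReal.ofReal_toReal (measure_ne_top κ _)] at h1
  refine (main hq0 hq1 hq (δ := 1) one_pos hε1 d ?_).1
  have hlog : ∀ᶠ n : ℕ in atTop, (Real.log (1 / q) + 1) / K ≤ Real.log n :=
    (Real.tendsto_log_atTop.comp tendsto_natCast_atTop_atTop).eventually_ge_atTop _
  filter_upwards [hd, hlog, eventually_ge_atTop 1] with n hn hl hn1
  have hnpos : (0 : ℝ) < n := by exact_mod_cast hn1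
  have h2 : Real.log (1 / q) + 1 ≤ K * Real.log n := by
    rw [div_le_iff₀ hK] at hl
    linarith
  have h3 : 0 ≤ Real.log n := Real.log_nonneg (by exact_mod_cast hn1)
  calc (Real.log (1 / q) + 1) * n ≤ (K * Real.log n) * n :=
        mul_le_mul_of_nonneg_right h2 hnpos.le
    _ = (K * n) * Real.log n := by ring
    _ ≤ d n * Real.log n := mul_le_mul_of_nonneg_right hn h3

/-- Degrees of order `n / log n`. -/
theorem short {δ : ℝ} (hδ : 0 < δ) :
    ∃ κ : Measure ℝ, ∃ L : ℝ, Admissible L κ ∧ ∀ ε : ℝ, ε < 1 → ∀ d : ℕ → ℕ,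
      (∀ᶠ n : ℕ in atTop, δ * n ≤ d n * Real.log n) →
      Tendsto (fun n : ℕ => law n (d n) (cols ε n (d n)) (fun _ _ => κ) {ω | sigmaMin ω = 0}) atTop
        (𝓝 1) := by
  have hq0 : 0 < Real.exp (-(δ / 2)) := Real.exp_pos _
  have hq1 : Real.exp (-(δ / 2)) < 1 := by rw [Real.exp_lt_one_iff]; linarith
  refine ⟨kap (Real.exp (-(δ / 2))), _, kap_admissible hq0 hq1, fun ε hε d hd => ?_⟩
  have hp := kap_prob hq0 hq1
  refine (main hq0 hq1 kap_zero (half_pos hδ) hε d ?_).1
  have : Real.log (1 / Real.exp (-(δ / 2))) + δ / 2 = δ := by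
    rw [one_div, Real.log_inv, Real.log_exp]; ring
  rw [this]
  exact hd

/-- **The question Q1**: for all `ε ∈ (0, 1)`, `K > 0`, all admissible laws of the coordinates and
all degrees `1 ≤ d(n) ≤ K n` one has `σ_min ≥ √ε / 2` with probability tending to one. -/
def Q1 : Prop :=
  ∀ ε K L : ℝ, 0 < ε → ε < 1 → 0 < K → ∀ d : ℕ → ℕ,
    (∀ᶠ n : ℕ in atTop, 1 ≤ d n ∧ (d n : ℝ) ≤ K * n) →
    ∀ κ : (n : ℕ) → Fin (d n) → Fin n → Measure ℝ, (∀ n k j, Admissible L (κ n k j)) →
      Tendsto (fun n : ℕ => law n (d n) (cols ε n (d n)) (κ n)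
        {ω | Real.sqrt ε / 2 ≤ sigmaMin ω}) atTop (𝓝 1)

theorem not_Q1 : ¬ Q1 := by
  intro hQ
  have hp := kap_prob (q := 1 / 2) (by norm_num) (by norm_num)
  have hκ := kap_admissible (q := 1 / 2) (by norm_num) (by norm_num)
  have hd : ∀ᶠ n : ℕ in atTop, (Real.log (1 / (1 / 2)) + 1) * n ≤ (n : ℝ) * Real.log n := by
    have hlog : ∀ᶠ n : ℕ in atTop, Real.log (1 / (1 / 2)) + 1 ≤ Real.log n :=
      (Real.tendsto_log_atTop.comp tendsto_natCast_atTop_atTop).eventually_ge_atTop _
    filter_upwards [hlog] with n hn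
    rw [mul_comm]
    exact mul_le_mul_of_nonneg_left hn (Nat.cast_nonneg n)
  have h1 := (main (κ := kap (1 / 2)) (q := 1 / 2) (δ := 1) (ε := 1 / 2) (by norm_num)
    (by norm_num) kap_zero one_pos (by norm_num) (fun n => n) hd).2
  have h2 := hQ (1 / 2) 1 _ (by norm_num) (by norm_num) one_pos (fun n => n)
    (by
      filter_upwards [eventually_ge_atTop 1] with n hn
      exact ⟨hn, by simp⟩) (fun _ _ _ => kap (1 / 2)) (fun _ _ _ => hκ)
  have h3 : Tendsto (fun n : ℕ => law n n (cols (1 / 2) n n) (fun _ _ => kap (1 / 2))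
      {ω | Real.sqrt (1 / 2) / 2 ≤ sigmaMin ω}) atTop (𝓝 0) := by
    refine tendsto_of_tendsto_of_tendsto_of_le_of_le' tendsto_const_nhds h1
      (Eventually.of_forall fun _ => bot_le) (Eventually.of_forall fun n => ?_)
    refine measure_mono ?_
    intro ω hω
    have h4 : 0 < Real.sqrt (1 / 2) / 2 := by positivity
    exact lt_of_lt_of_le h4 hω
  exact zero_ne_one (tendsto_nhds_unique h3 h2)

end Q294.ZeroTensor
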